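import Pool.Agent.EBS.ADefs

/-!
# A02: the algebra of the boundary slopes, the other cases

Notation: `ofAdd = Multiplicative.ofAdd`; for `φ` with values in `Multiplicative ℤ` write `φ`
additively (compose with `Multiplicative.toAdd`).

* `Cable.prime` (`n = 2`, `p = 1`, `q = 0`): `hmem`: `φ (lam ^ k₁ * mu ^ k₂) = 2 k₁`; so
  `φ lam = 2`, `φ mu = 0`, and for `h₁ = mu ^ 21 * lam` (`= lam * mu ^ 21` by `C.comm`) `φ h₁ = 2`.
  By `hcomm` and `C.comm1`: `C.G1 ≤ A`. Let `φ₁ : C.G1 →* Multiplicative ℤ` be the restriction of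
  `φ` (`Subgroup.inclusion`). By `C.hom1`: `2 = φ lam = 3 φ l`, a contradiction.
* `Cable.one`: let `ψ₁`, `ψ₂` be the restrictions of `ψ` to `C.G1`, `C.G2`. `p = ψ lam = 3 ψ l = 0`
  by `C.hom1`, `C.hom2` (`C.hl`). So `q` is a unit (`IsCoprime`), `q = 1`.
* `Cable.pref`: `φ lam = φ l ^ 3 = 1` by `C.hom1`, `C.hom2` for the restrictions of `φ`.
-/

set_option autoImplicit false

namespace Pool.Agent.EBS

private theorem pref_aux {G : Type} [Group G] {mu lam : G} (C : Cable G mu lam) (H : Type)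
    [CommGroup H] (φ : G →* H) : φ lam = 1 := by
  have h1 := (C.hom1 H (φ.comp C.G1.subtype)).2
  have h2 := C.hom2 H (φ.comp C.G2.subtype)
  rw [MonoidHom.comp_apply, MonoidHom.comp_apply, Subgroup.subtype_apply, Subgroup.subtype_apply,
    C.hlam, C.hl] at h1
  rw [MonoidHom.comp_apply, Subgroup.subtype_apply] at h2
  rw [h1, h2, one_pow]

theorem Cable.prime {G : Type} [Group G] {mu lam : G} (C : Cable G mu lam) (A : Subgroup G)
    (φ : A →* Multiplicative ℤ)
    (hmem : ∀ k₁ k₂ : ℤ, ∃ h : lam ^ k₁ * mu ^ k₂ ∈ A, φ ⟨_, h⟩ = Multiplicative.ofAdd (2 * k₁))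
    (hcomm : ∀ (h : A) (g : G), φ h ≠ 1 → Commute (h : G) g → g ∈ A) : False := by
  obtain ⟨ha, hφa⟩ := hmem 1 21
  have he : lam ^ (1 : ℤ) * mu ^ (21 : ℤ) = mu ^ 21 * lam := by
    rw [zpow_one, ← (C.comm.zpow_left 21).eq]
    norm_cast
  have hG1 : C.G1 ≤ A := by
    intro g hg
    refine hcomm ⟨_, ha⟩ g ?_ ?_
    · rw [hφa]
      intro h1
      have h2 := congrArg Multiplicative.toAdd h1
      simp at h2
    · change Commute (lam ^ (1 : ℤ) * mu ^ (21 : ℤ)) g
      rw [he]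
      have h1 := congrArg (Subgroup.subtype C.G1) (C.comm1 ⟨g, hg⟩).eq
      simp only [map_mul, map_pow, Subgroup.subtype_apply, C.hmu, C.hlam] at h1
      exact h1
  obtain ⟨hb, hφb⟩ := hmem 1 0
  have h1 := (C.hom1 _ (φ.comp (Subgroup.inclusion hG1))).2
  have h2 : (φ.comp (Subgroup.inclusion hG1)) C.lam1 = Multiplicative.ofAdd (2 * 1) := by
    rw [← hφb, MonoidHom.comp_apply]
    congr 1
    apply Subtype.ext
    rw [Subgroup.coe_inclusion, C.hlam]
    simp
  rw [h2] at h1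
  have h3 := congrArg Multiplicative.toAdd h1
  rw [toAdd_pow, toAdd_ofAdd] at h3
  simp only [nsmul_eq_mul] at h3
  push_cast at h3
  omega

theorem Cable.one {G : Type} [Group G] {mu lam : G} (C : Cable G mu lam) {p q : ℤ}
    (hpq : IsCoprime p q) (hq : 0 < q) (ψ : G →* Multiplicative ℤ)
    (hψ : ∀ k₁ k₂ : ℤ, ψ (lam ^ k₁ * mu ^ k₂) = Multiplicative.ofAdd (p * k₁ - q * k₂)) :
    p = 0 ∧ q = 1 := by
  have h1 := hψ 1 0
  rw [zpow_one, zpow_zero, mul_one, pref_aux C _ ψ] at h1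
  have h2 := congrArg Multiplicative.toAdd h1
  rw [toAdd_one, toAdd_ofAdd] at h2
  have hp : p = 0 := by linarith
  refine ⟨hp, ?_⟩
  rw [hp, isCoprime_zero_left] at hpq
  rcases Int.isUnit_iff.1 hpq with h3 | h3
  · exact h3
  · omega

theorem Cable.pref {G : Type} [Group G] {mu lam : G} (C : Cable G mu lam) (H : Type)
    [CommGroup H] (φ : G →* H) : φ lam = 1 := pref_aux C H φ

end Pool.Agent.EBS
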