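import Pool.Agent.EBS.F03

/-!
# F04: loops on a torus

`K : ℝ² → Y` continuous and periodic (period lattice `ℤ²`).

Proof. `C = univ` in `cv_convex` etc. For `P` put `a = F.sv K P (P + (1, 0))` and
`b = F.sv K P (P + (0, 1))`. By `sv_trans` and `sv_shift`
`F.sv K P (P + (1, 1)) = a * F.sv K (P + (1,0)) (P + (1, 0) + (0, 1)) = a * b` and
`= F.sv K P (P + (0, 1)) * F.sv K (P + (0, 1)) (P + (1, 1)) = b * a`. So they commute.
The map `k ↦ F.sv K P (P + k)`, `k ∈ ℤ²`, is a homomorphism: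
`F.sv K P (P + (k + l)) = F.sv K P (P + k) * F.sv K (P + k) (P + k + l)` and the second factor is
`F.sv K P (P + l)` (`sv_shift` for the period `k`; the periodicity for all `k ∈ ℤ²` follows by
induction). Hence the formula (`Int.induction_on`, or `MonoidHom` and `map_zpow`).
-/

set_option autoImplicit false

noncomputable section

open Set Topology unitInterval

namespace Pool.Agent.EBS

variable {Z : Type} [TopologicalSpace Z] {Y : Set Z} {H : Type} [Group H]

private theorem torus_mul (F : Fn Y H) {K : ℝ × ℝ → Z} (hK : Continuous K) (hm : ∀ P, K P ∈ Y)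
    {k : ℝ × ℝ} (hk : ∀ P, K (P + k) = K P) (l P : ℝ × ℝ) :
    F.sv K P (P + (k + l)) = F.sv K P (P + k) * F.sv K P (P + l) := by
  have h1 := F.sv_trans (C := univ) convex_univ hK.continuousOn (fun P _ => hm P)
    (mem_univ P) (mem_univ (P + k)) (mem_univ (P + (k + l)))
  have h2 := F.sv_shift hk P (P + l)
  rw [← h1, ← h2]
  congr 2
  rw [add_assoc, add_comm l k]

private theorem torus_pow (F : Fn Y H) {K : ℝ × ℝ → Z} (hK : Continuous K) (hm : ∀ P, K P ∈ Y)
    {e : ℝ × ℝ} (he : Function.Periodic K e) (P : ℝ × ℝ) (i : ℤ) :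
    F.sv K P (P + i • e) = (F.sv K P (P + e)) ^ i := by
  induction i using Int.induction_on with
  | zero => rw [zero_smul, add_zero, F.sv_self, zpow_zero]
  | succ i ih =>
    rw [add_smul, one_smul, torus_mul F hK hm (fun P => he.zsmul (i : ℤ) P), ih, zpow_add_one]
  | pred i ih =>
    have h1 := torus_mul F hK hm (fun P => he.zsmul (-(i : ℤ) - 1) P) e P
    have h2 : (-(i : ℤ) - 1) • e + e = (-(i : ℤ)) • e := by
      rw [sub_smul, one_smul, sub_add_cancel]
    rw [h2, ih] at h1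
    rw [zpow_sub_one, h1, mul_inv_cancel_right]

theorem Fn.torus (F : Fn Y H) {K : ℝ × ℝ → Z} (hK : Continuous K) (hm : ∀ P, K P ∈ Y)
    (h1 : ∀ P, K (P + (1, 0)) = K P) (h2 : ∀ P, K (P + (0, 1)) = K P) (P : ℝ × ℝ) :
    Commute (F.sv K P (P + (1, 0))) (F.sv K P (P + (0, 1))) ∧
      ∀ i j : ℤ, F.sv K P (P + ((i : ℝ), (j : ℝ))) =
        (F.sv K P (P + (1, 0))) ^ i * (F.sv K P (P + (0, 1))) ^ j := by
  constructor
  · have e1 := torus_mul F hK hm h1 (0, 1) P
    have e2 := torus_mul F hK hm h2 (1, 0) P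
    rw [add_comm ((0 : ℝ), (1 : ℝ)) (1, 0)] at e2
    exact e1.symm.trans e2
  · intro i j
    have p1 : Function.Periodic K ((1 : ℝ), (0 : ℝ)) := h1
    have p2 : Function.Periodic K ((0 : ℝ), (1 : ℝ)) := h2
    have e0 : (((i : ℝ), (j : ℝ)) : ℝ × ℝ) = i • ((1 : ℝ), (0 : ℝ)) + j • ((0 : ℝ), (1 : ℝ)) := by
      ext <;> simp
    rw [e0, torus_mul F hK hm (fun P => p1.zsmul i P), torus_pow F hK hm p1, torus_pow F hK hm p2]

end Pool.Agent.EBS
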