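import Pool.Agent.EBS.GK
import Pool.Agent.EBS.F04

/-!
# G19: curves on the boundary torus

`rad 1 = 1` (as complex numbers, `((1 : Circle) : ℂ) = 1`).
* `torus_tube`: apply `Fn.torus` to `K (a, b) = T.f (ec a, rad (ec b))` (continuous, values in
  `T.ext`
  by `T.bd_mem`, periodic), `P = 0`: with `A = F.sv K 0 (1, 0) = lam`, `B = F.sv K 0 (0, 1) = mu`
  (`Fn.sv`, `cv_congr`, `AffineMap.lineMap`): `A`, `B` commute and `F.sv K 0 (k₁, k₂) = A ^ k₁ * B
  ^ k₂`;
  and `K (lineMap 0 (k₁, k₂) t) = T.f (ec (k₁ t), rad (ec (k₂ t)))`.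
* `h1_eq`: by `fK_rad` `fK (ec t, rad (ec (21 t))) = f1 (ka (ec t, rad (ec t ^ (-21) * ec (21 t))))`
  `= f1 (ka (ec t, 1))` (`ec_zpow`, `ec_neg`); use `torus_tube` for `T = Kn`, `k₁ = 1`, `k₂ = 21`.
* `mu_eq`: `fK_rad` with `x = 1`.
* `tl_eq`: if `F.v p = lc p` for all closed paths at the base point, then the value on the curve
  is `tl T k₁ k₂ = lc (tlPath T k₁ k₂)`: the curve on `[0, 1]` is the path `tlPath` (`Cv.path`,
  `cv_eq`, `v_congr`).
-/

set_option autoImplicit false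

noncomputable section

open Set Topology unitInterval

namespace Pool.Agent.EBS

theorem rad_one : rad ((1 : Circle) : ℂ) = 1 := by
  have h : sq 1 = 1 := by simp [sq]
  rw [Circle.coe_one, rad, h, inv_one, Complex.ofReal_one, one_mul]

theorem torus_tube (T : Tube) {H : Type} [Group H] (F : Fn T.ext H) :
    Commute (F.cv (fun t => T.f (1, rad (ec t))) 0 1) (F.cv (fun t => T.f (ec t, 1)) 0 1) ∧
      ∀ k₁ k₂ : ℤ, F.cv (fun t => T.f (ec (k₁ * t), rad (ec (k₂ * t)))) 0 1 =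
        (F.cv (fun t => T.f (ec t, 1)) 0 1) ^ k₁ *
          (F.cv (fun t => T.f (1, rad (ec t))) 0 1) ^ k₂ := by
  have hK : Continuous fun P : ℝ × ℝ => T.f (ec P.1, rad (ec P.2)) :=
    T.emb.continuous.comp ((continuous_ec.comp continuous_fst).prodMk
      (continuous_rad_circle.comp (continuous_ec.comp continuous_snd)))
  have h := F.torus (K := fun P : ℝ × ℝ => T.f (ec P.1, rad (ec P.2))) hK
    (fun P => T.bd_mem _ _)
    (fun P => by rw [Prod.fst_add, Prod.snd_add, ec_add, ec_one, mul_one, add_zero])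
    (fun P => by rw [Prod.fst_add, Prod.snd_add, ec_add P.2, ec_one, mul_one, add_zero]) 0
  have key : ∀ a b : ℝ, F.sv (fun P : ℝ × ℝ => T.f (ec P.1, rad (ec P.2))) 0 (0 + (a, b)) =
      F.cv (fun t => T.f (ec (a * t), rad (ec (b * t)))) 0 1 := by
    intro a b
    refine F.cv_congr fun t _ => ?_
    have e : AffineMap.lineMap (0 : ℝ × ℝ) (0 + (a, b)) t = (a * t, b * t) := by
      rw [AffineMap.lineMap_apply_module']
      ext <;> simp [mul_comm]
    beta_reduce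
    rw [e]
  have e1 : F.sv (fun P : ℝ × ℝ => T.f (ec P.1, rad (ec P.2))) 0 (0 + (1, 0)) =
      F.cv (fun t => T.f (ec t, 1)) 0 1 := by
    rw [key]
    refine F.cv_congr fun t _ => ?_
    rw [one_mul, zero_mul, ec_zero, rad_one]
  have e2 : F.sv (fun P : ℝ × ℝ => T.f (ec P.1, rad (ec P.2))) 0 (0 + (0, 1)) =
      F.cv (fun t => T.f (1, rad (ec t))) 0 1 := by
    rw [key]
    refine F.cv_congr fun t _ => ?_
    rw [one_mul, zero_mul, ec_zero]
  obtain ⟨hc, hk⟩ := h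
  rw [e1, e2] at hc
  refine ⟨hc.symm, fun k₁ k₂ => ?_⟩
  have h1 := hk k₁ k₂
  rw [e1, e2, key] at h1
  exact h1

theorem mu_eq (t : ℝ) : fK (1, rad (ec t)) = f1 (ka (1, rad (ec t))) := by
  rw [fK_rad, one_zpow, one_mul]

theorem fK_one : fK (1, 1) = f1 (ka (1, 1)) := by
  have h := fK_rad 1 1
  rw [one_zpow, one_mul, rad_one] at h
  exact h

theorem h1_eq {H : Type} [Group H] (F : Fn EK H) :
    (F.cv (fun t => fK (1, rad (ec t))) 0 1) ^ 21 * F.cv (fun t => fK (ec t, 1)) 0 1 =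
      F.cv (fun t => f1 (ka (ec t, 1))) 0 1 := by
  obtain ⟨hc, hk⟩ := torus_tube Kn F
  have h := hk 1 21
  rw [zpow_one, zpow_ofNat] at h
  have e : F.cv (fun t => f1 (ka (ec t, 1))) 0 1 =
      F.cv (fun t => Kn.f (ec (((1 : ℤ) : ℝ) * t), rad (ec (((21 : ℤ) : ℝ) * t)))) 0 1 := by
    refine F.cv_congr fun t _ => ?_
    change f1 (ka (ec t, 1)) = fK (ec (((1 : ℤ) : ℝ) * t), rad (ec (((21 : ℤ) : ℝ) * t)))
    rw [fK_rad, ec_zpow, ← ec_add]
    have e1 : ((-21 : ℤ) : ℝ) * (((1 : ℤ) : ℝ) * t) + ((21 : ℤ) : ℝ) * t = 0 := by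
      push_cast
      ring
    rw [e1, ec_zero, rad_one, Int.cast_one, one_mul]
  exact ((hc.pow_left 21).eq).trans (h.symm.trans e.symm)

theorem tl_eq (T : Tube) (F : Fn T.ext (Pi1 T.Ext (T.bd (1, 1))))
    (hF : ∀ p : Path (T.bd (1, 1)) (T.bd (1, 1)), F.v p = lc p) (k₁ k₂ : ℤ) :
    F.cv (fun t => T.f (ec (k₁ * t), rad (ec (k₂ * t)))) 0 1 = tl T k₁ k₂ := by
  have hcv : Cv T.ext (fun t => T.f (ec (k₁ * t), rad (ec (k₂ * t)))) 0 1 := by
    refine ⟨zero_le_one, Continuous.continuousOn ?_, fun t _ => T.bd_mem _ _⟩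
    exact T.emb.continuous.comp
      ((continuous_ec.comp (continuous_const.mul continuous_id)).prodMk
        (continuous_rad_circle.comp (continuous_ec.comp (continuous_const.mul continuous_id))))
  rw [F.cv_eq hcv, tl, ← hF]
  refine F.v_congr _ _ fun t => Subtype.ext ?_
  change T.f (ec (k₁ * (0 + t * (1 - 0))), rad (ec (k₂ * (0 + t * (1 - 0))))) =
    T.f (ec (k₁ * t), rad (ec (k₂ * t)))
  rw [sub_zero, mul_one, zero_add]

end Pool.Agent.EBS
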