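import Pool.Agent.EBS.G08

/-!
# G10: path-connectedness, the first piece

Write a point as `(X, r Y)` with `r = ‖ζ‖`, `Y = cu ζ` (`norm_mul_cu`), see `mem_W1_iff`.
* `isPathConnected_InS`: the curve `t ↦ (X, (1 - t) r Y)` lies in `InS`: `(1 - t) r ≤ r < 3/4`, and
  if
  `(1 - t) r > 1/4` then `r > 1/4`, so `re (Y³ X⁻³⁸) ≤ 0`. It ends in the circle `{(X, 0)} ⊆ InS`.
* `isPathConnected_OutS`: the curve `t ↦ (X, ((1 - t) r + 2 t) Y)`: the radius is `> 1/4`; if it is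
  `< 3/4` then `r < 3/4`, so `re ≤ 0`. It ends in the torus `{(X, 2 Y)} ⊆ OutS`.
* `isPathConnected_IO_inter`: the image of a convex set (`IO_inter`).
* `isPathConnected_T2`: the image of `Circle × Circle × (1, ∞)` under
  `(X, Y, r) ↦ (X, r • rad Y)`: `sq (r rad Y) = r` and `ζ = sq ζ • rad (cu ζ)` for `ζ ≠ 0`
  (`rad (c ζ) = rad ζ` for `c > 0`). Or: the curve `t ↦ (X, ((1 - t) + 2 t / ‖ζ‖) ζ)` lies in `T2`,
  since `sq (2 ζ / ‖ζ‖) > 1` (`norm_le_sq` is not enough: if `sq ζ ≤ 1`... `‖ζ‖² = re² + im² ≤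
  2 (sq ζ)²`, so `sq ζ ≥ √2` for `‖ζ‖ = 2`); it ends in the torus `{(X, 2 Y)}`.
* `W1 = InS ∪ OutS` (`cover_W1`), `U1 = f1 '' W1`, `U1 ∩ U2 = f1 '' T2`, `EK = U1 ∪ U2` (`cover_EK`;
  the assertion for `U2` is a hypothesis of `isPathConnected_EK`).
-/

set_option autoImplicit false

noncomputable section

open Set Topology unitInterval

namespace Pool.Agent.EBS

private theorem g10_coe : Continuous fun x : Circle => (x : ℂ) := by fun_prop

theorem continuous_Th2 : Continuous fun x : ℝ × ℝ × ℝ => Th2 x.1 x.2.1 x.2.2 := by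
  unfold Th2
  refine Continuous.prodMk (continuous_ec.comp (by fun_prop)) ?_
  exact (Complex.continuous_ofReal.comp (by fun_prop)).mul
    (g10_coe.comp (continuous_ec.comp (by fun_prop)))

private theorem g10_of_base {Z : Type} [TopologicalSpace Z] {S B : Set Z} (hB : IsPathConnected B)
    (hBS : B ⊆ S) (h : ∀ z ∈ S, ∃ b ∈ B, JoinedIn S z b) : IsPathConnected S := by
  obtain ⟨x, hx, hj⟩ := hB
  refine ⟨x, hBS hx, fun y hy => ?_⟩
  obtain ⟨b, hb, hyb⟩ := h y hy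
  exact ((hj hb).mono hBS).trans hyb.symm

private theorem g10_cont (X Y : Circle) (a b : ℝ) :
    Continuous fun t : ℝ => ((X, (((1 - t) * a + t * b : ℝ) : ℂ) * (Y : ℂ)) : Circle × ℂ) := by
  refine continuous_const.prodMk (Continuous.mul ?_ continuous_const)
  exact Complex.continuous_ofReal.comp (by fun_prop)

private theorem g10_line {S : Set (Circle × ℂ)} (p : Circle × ℂ) (b : ℝ)
    (h : ∀ t : ℝ, 0 ≤ t → t ≤ 1 →
      (p.1, (((1 - t) * ‖p.2‖ + t * b : ℝ) : ℂ) * (cu p.2 : ℂ)) ∈ S) :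
    JoinedIn S p (p.1, (b : ℂ) * (cu p.2 : ℂ)) := by
  refine JoinedIn.ofLine (f := fun t : ℝ =>
    ((p.1, (((1 - t) * ‖p.2‖ + t * b : ℝ) : ℂ) * (cu p.2 : ℂ)) : Circle × ℂ))
    (g10_cont _ _ _ _).continuousOn ?_ ?_ ?_
  · simp only [sub_zero, one_mul, zero_mul, add_zero]
    rw [norm_mul_cu]
  · simp only [sub_self, one_mul, zero_mul, zero_add]
  · rintro _ ⟨t, ht, rfl⟩
    exact h t ht.1 ht.2

private theorem g10_norm {r : ℝ} (h : 0 ≤ r) (Y : Circle) : ‖(r : ℂ) * (Y : ℂ)‖ = r := by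
  rw [norm_mul, Circle.norm_coe, mul_one, Complex.norm_real, Real.norm_of_nonneg h]

private theorem g10_W1 {p : Circle × ℂ} (h : p ∈ W1) : ¬ (1 / 4 < ‖p.2‖ ∧ ‖p.2‖ < 3 / 4 ∧
    0 < ((cu p.2 ^ 3 * (p.1 ^ 38)⁻¹ : Circle) : ℂ).re) := by
  rw [← mem_W1_iff (norm_nonneg _), norm_mul_cu]
  exact h

private theorem g10_torus (b : ℝ) : IsPathConnected (range fun x : ℝ × ℝ =>
    ((ec x.1, (b : ℂ) * ((ec x.2 : Circle) : ℂ)) : Circle × ℂ)) := by
  refine isPathConnected_range ?_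
  exact (continuous_ec.comp continuous_fst).prodMk
    (continuous_const.mul (g10_coe.comp (continuous_ec.comp continuous_snd)))

private theorem g10_mem_torus (b : ℝ) (X Y : Circle) : (X, (b : ℂ) * (Y : ℂ)) ∈
    range fun x : ℝ × ℝ => ((ec x.1, (b : ℂ) * ((ec x.2 : Circle) : ℂ)) : Circle × ℂ) := by
  obtain ⟨u, rfl⟩ := ec_surjective X
  obtain ⟨v, rfl⟩ := ec_surjective Y
  exact ⟨(u, v), rfl⟩

theorem isPathConnected_InS : IsPathConnected InS := by
  refine g10_of_base (g10_torus 0) ?_ fun p hp => ⟨_, g10_mem_torus 0 p.1 (cu p.2),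
    g10_line p 0 fun t h0 h1 => ?_⟩
  · rintro _ ⟨x, rfl⟩
    refine ⟨(mem_W1_iff le_rfl).2 fun h => ?_, ?_⟩
    · linarith [h.1]
    · rw [g10_norm le_rfl]
      norm_num
  · have hn := norm_nonneg p.2
    have hlt : ‖p.2‖ < 3 / 4 := hp.2
    have h2 : 0 ≤ (1 - t) * ‖p.2‖ + t * 0 := by nlinarith
    have h3 : (1 - t) * ‖p.2‖ + t * 0 ≤ ‖p.2‖ := by nlinarith
    refine ⟨(mem_W1_iff h2).2 fun h => g10_W1 hp.1 ⟨?_, hlt, h.2.2⟩, ?_⟩
    · linarith [h.1]
    · rw [g10_norm h2]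
      linarith

theorem isPathConnected_OutS : IsPathConnected OutS := by
  refine g10_of_base (g10_torus 2) ?_ fun p hp => ⟨_, g10_mem_torus 2 p.1 (cu p.2),
    g10_line p 2 fun t h0 h1 => ?_⟩
  · rintro _ ⟨x, rfl⟩
    refine ⟨(mem_W1_iff (by norm_num)).2 fun h => ?_, ?_⟩
    · linarith [h.2.1]
    · rw [g10_norm (by norm_num)]
      norm_num
  · have hlt : 1 / 4 < ‖p.2‖ := hp.2
    have h2 : 1 / 4 < (1 - t) * ‖p.2‖ + t * 2 := by
      rcases eq_or_lt_of_le h0 with h | h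
      · rw [← h]
        linarith
      · nlinarith
    refine ⟨(mem_W1_iff (by linarith)).2 fun h => g10_W1 hp.1 ⟨hlt, ?_, h.2.2⟩, ?_⟩
    · by_contra h5
      rw [not_lt] at h5
      have h6 := h.2.1
      nlinarith
    · rw [g10_norm (by linarith)]
      exact h2

theorem isPathConnected_IO_inter : IsPathConnected (InS ∩ OutS) := by
  rw [IO_inter]
  refine IsPathConnected.image ?_ continuous_Th2
  refine Convex.isPathConnected ?_ ⟨(0, 1 / 2, 1 / 2), ?_, ?_⟩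
  · intro x hx y hy a b ha hb hab
    exact ⟨convex_Icc _ _ hx.1 hy.1 ha hb hab, convex_Ioo _ _ hx.2 hy.2 ha hb hab⟩
  · constructor <;> norm_num
  · constructor <;> norm_num

private theorem g10_sq {r : ℝ} (h : 0 ≤ r) (Y : Circle) :
    sq ((r : ℂ) * (Y : ℂ)) = r * sq (Y : ℂ) := by
  rw [sq_real_mul, abs_of_nonneg h]

private theorem g10_sq_circle (Y : Circle) : 1 < 2 * sq (Y : ℂ) := by
  have h1 : (Y : ℂ).re ^ 2 + (Y : ℂ).im ^ 2 = 1 := by
    have h2 := Complex.sq_norm (Y : ℂ)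
    rw [Circle.norm_coe, Complex.normSq_apply] at h2
    nlinarith
  have h3 : |(Y : ℂ).re| ≤ sq (Y : ℂ) := le_max_left _ _
  have h4 : |(Y : ℂ).im| ≤ sq (Y : ℂ) := le_max_right _ _
  have h5 := abs_nonneg (Y : ℂ).re
  have h6 := abs_nonneg (Y : ℂ).im
  have h7 := sq_abs (Y : ℂ).re
  have h8 := sq_abs (Y : ℂ).im
  nlinarith

theorem isPathConnected_T2 : IsPathConnected T2 := by
  refine g10_of_base (g10_torus 2) ?_ fun p hp => ⟨_, g10_mem_torus 2 p.1 (cu p.2),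
    g10_line p 2 fun t h0 h1 => ?_⟩
  · rintro _ ⟨x, rfl⟩
    change 1 < sq ((2 : ℝ) * ((ec x.2 : Circle) : ℂ))
    rw [g10_sq (by norm_num)]
    exact g10_sq_circle _
  · have hn := norm_nonneg p.2
    have h2 : 0 ≤ (1 - t) * ‖p.2‖ + t * 2 := by nlinarith
    have h3 : 1 < ‖p.2‖ * sq (cu p.2 : ℂ) := by
      rw [← g10_sq hn, norm_mul_cu]
      exact hp
    have h4 := g10_sq_circle (cu p.2)
    change 1 < sq ((((1 - t) * ‖p.2‖ + t * 2 : ℝ) : ℂ) * (cu p.2 : ℂ))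
    rw [g10_sq h2]
    rcases eq_or_lt_of_le h0 with h | h
    · rw [← h]
      linarith
    · nlinarith

theorem isPathConnected_W1 : IsPathConnected W1 := by
  rw [← cover_W1.union]
  exact isPathConnected_InS.union isPathConnected_OutS isPathConnected_IO_inter.nonempty

theorem isPathConnected_U1 : IsPathConnected U1 :=
  isPathConnected_W1.image continuous_f1

theorem isPathConnected_U_inter : IsPathConnected (U1 ∩ U2) := by
  rw [U1_inter_U2]
  exact isPathConnected_T2.image continuous_f1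

theorem isPathConnected_EK (h : IsPathConnected U2) : IsPathConnected EK := by
  rw [← cover_EK.union]
  exact isPathConnected_U1.union h isPathConnected_U_inter.nonempty

end Pool.Agent.EBS
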