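import Pool.Agent.EBS.Fn

/-!
# F05: lifting curves in the circle, degrees

`ec t = exp (2 π i t)` (file `Defs`).
* `ec_eq_iff`: `Circle.exp_eq_exp`.
* `isCoveringMap_ec`: Mathlib has the covering map `ℝ → AddCircle p`
  (`AddCircle.isCoveringMap_coe`) and the homeomorphism `AddCircle.homeomorphCircle'` (or
  `AddCircle.homeomorphCircle`), composition: `IsCoveringMap.comp`/`Homeomorph`; search for
  `isCoveringMap` in `Mathlib/Analysis/SpecialFunctions/Complex/Circle.lean` and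
  `Mathlib/Topology/Covering`. `ec` is `AddCircle.toCircle` of the class (with period `1`).
* `exists_lift`: reparametrize `γ` on `[u, v]` to the unit interval, lift with
  `IsCoveringMap.exists_path_lifts` and extend the lift constantly (`Path.extend`,
  `Set.IccExtend`).
* `lift_unique`: two lifts differ by a continuous function with values in `ℤ` on the
  interval `[u, v]`, so by a constant (`IsPreconnected.constant_of_mapsTo` or
  `IsCoveringMap.eq_of_comp_eq`).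
* The statements about `Deg` follow. `Deg.exists`: `exists_lift`, `ec (θ v) = ec (θ u)`.
* `Deg.homotopy`: `k (s, t) = h s (u + t (v - u))` is a continuous map `I × I → Circle`; lift it
  to a continuous map `Θ : I × I → ℝ` (`IsCoveringMap.existsUnique_continuousMap_lifts`, `I × I` is
  simply connected and locally path connected; or `IsCoveringMap.liftHomotopy`). `Θ (s, 1) - Θ (s,
  0)`
  is an integer (`ec_eq_iff`, `he`) and depends continuously on `s`, so it is constant. It is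
  `n` for `s = 0` and `m` for `s = 1` (`lift_unique` or `Deg.unique`).
-/

set_option autoImplicit false

noncomputable section

open Set Topology unitInterval

namespace Pool.Agent.EBS

theorem ec_add (s t : ℝ) : ec (s + t) = ec s * ec t := by
  unfold ec
  rw [mul_add, Circle.exp_add]

theorem ec_neg (t : ℝ) : ec (-t) = (ec t)⁻¹ := by
  unfold ec
  rw [mul_neg, Circle.exp_neg]

theorem ec_int (n : ℤ) : ec n = 1 := by
  unfold ec
  exact Circle.exp_two_pi_mul_int n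

theorem ec_zpow (t : ℝ) (n : ℤ) : ec t ^ n = ec (n * t) := by
  unfold ec
  rw [← Circle.exp_zsmul]
  congr 1
  rw [zsmul_eq_mul]
  ring

theorem ec_eq_iff {s t : ℝ} : ec s = ec t ↔ ∃ n : ℤ, s = t + n := by
  unfold ec
  rw [Circle.exp_eq_exp]
  have hpi := Real.pi_pos
  constructor
  · rintro ⟨m, hm⟩
    refine ⟨m, ?_⟩
    have h2 : 2 * Real.pi * s = 2 * Real.pi * (t + m) := by rw [hm]; ring
    exact mul_left_cancel₀ (by positivity) h2
  · rintro ⟨m, hm⟩
    exact ⟨m, by rw [hm]; ring⟩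

theorem ec_surjective : Function.Surjective ec := by
  intro z
  obtain ⟨r, hr⟩ := Circle.exp_surjective z
  refine ⟨r / (2 * Real.pi), ?_⟩
  unfold ec
  rw [mul_div_cancel₀ _ (by positivity), hr]

theorem isCoveringMap_ec : IsCoveringMap ec :=
  Circle.isCoveringMap_exp.comp_homeomorph
    (Homeomorph.mulLeft₀ (2 * Real.pi) (by positivity))

theorem exists_lift {γ : ℝ → Circle} {u v : ℝ} (huv : u ≤ v) (h : ContinuousOn γ (Icc u v))
    {r : ℝ} (hr : ec r = γ u) :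
    ∃ θ : ℝ → ℝ, Continuous θ ∧ θ u = r ∧ ∀ t ∈ Icc u v, ec (θ t) = γ t := by
  rcases huv.eq_or_lt with rfl | hlt
  · refine ⟨fun _ => r, continuous_const, rfl, ?_⟩
    intro t ht
    rw [Icc_self, mem_singleton_iff] at ht
    rw [ht]
    exact hr
  have hne : v - u ≠ 0 := (sub_pos.2 hlt).ne'
  have hc : Continuous fun t : I => γ (u + t * (v - u)) :=
    h.comp_continuous (by fun_prop) fun t => param_mem huv t
  obtain ⟨Γ, hΓ, hΓ0⟩ := isCoveringMap_ec.exists_path_lifts ⟨_, hc⟩ r (by simp [hr])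
  refine ⟨fun t => IccExtend zero_le_one Γ ((t - u) / (v - u)), ?_, ?_, ?_⟩
  · exact (Γ.continuous.Icc_extend' (h := zero_le_one)).comp (by fun_prop)
  · simp only [sub_self, zero_div]
    rw [IccExtend_left]
    exact hΓ0
  · intro t ht
    have hm : (t - u) / (v - u) ∈ Icc (0 : ℝ) 1 := by
      constructor
      · exact div_nonneg (sub_nonneg.2 ht.1) (sub_nonneg.2 huv)
      · rw [div_le_one (sub_pos.2 hlt)]
        linarith [ht.2]
    simp only
    rw [IccExtend_of_mem _ _ hm]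
    have h3 := congrFun hΓ ⟨(t - u) / (v - u), hm⟩
    simp only [Function.comp_apply, ContinuousMap.coe_mk] at h3
    rw [h3, div_mul_cancel₀ _ hne, add_sub_cancel]

theorem lift_unique {θ θ' : ℝ → ℝ} {u v : ℝ} (h : ContinuousOn θ (Icc u v))
    (h' : ContinuousOn θ' (Icc u v)) (he : ∀ t ∈ Icc u v, ec (θ t) = ec (θ' t)) :
    ∃ n : ℤ, ∀ t ∈ Icc u v, θ t = θ' t + n := by
  rcases (Icc u v).eq_empty_or_nonempty with hemp | ⟨a, ha⟩
  · exact ⟨0, fun t ht => by rw [hemp] at ht; exact ht.elim⟩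
  obtain ⟨n, hn⟩ := ec_eq_iff.1 (he a ha)
  refine ⟨n, fun t ht => ?_⟩
  have hone : ∀ b ∈ Icc u v, ec (θ b - θ' b) = 1 := fun b hb => by
    rw [sub_eq_add_neg, ec_add, ec_neg, he b hb, mul_inv_cancel]
  have h3 := isCoveringMap_ec.constOn_of_comp (g := fun t => θ t - θ' t) isPreconnected_Icc
    (h.sub h') (fun b hb b' hb' => by rw [hone b hb, hone b' hb']) ha ht
  linarith

/-- The curve `γ` in the circle, defined on `[u, v]`, has total angle `2 π n`. -/
def Deg (γ : ℝ → Circle) (u v : ℝ) (n : ℤ) : Prop :=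
  ∃ θ : ℝ → ℝ, ContinuousOn θ (Icc u v) ∧ (∀ t ∈ Icc u v, ec (θ t) = γ t) ∧ θ v - θ u = n

theorem Deg.exists {γ : ℝ → Circle} {u v : ℝ} (huv : u ≤ v) (h : ContinuousOn γ (Icc u v))
    (he : γ u = γ v) : ∃ n, Deg γ u v n := by
  obtain ⟨r, hr⟩ := ec_surjective (γ u)
  obtain ⟨θ, hθ, -, h2⟩ := exists_lift huv h hr
  obtain ⟨n, hn⟩ := ec_eq_iff.1 (show ec (θ v) = ec (θ u) by
    rw [h2 v ⟨huv, le_rfl⟩, h2 u ⟨le_rfl, huv⟩, he])
  exact ⟨n, θ, hθ.continuousOn, h2, by rw [hn]; ring⟩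

theorem Deg.unique {γ : ℝ → Circle} {u v : ℝ} (huv : u ≤ v) {n m : ℤ} (h : Deg γ u v n)
    (h' : Deg γ u v m) : n = m := by
  obtain ⟨θ, hθ, h1, h2⟩ := h
  obtain ⟨θ', hθ', h1', h2'⟩ := h'
  obtain ⟨k, hk⟩ := lift_unique hθ hθ' fun t ht => by rw [h1 t ht, h1' t ht]
  have h3 : (n : ℝ) = m := by
    rw [← h2, ← h2', hk v ⟨huv, le_rfl⟩, hk u ⟨le_rfl, huv⟩]
    ring
  exact_mod_cast h3

theorem Deg.mul {γ γ' : ℝ → Circle} {u v : ℝ} {n m : ℤ} (h : Deg γ u v n)
    (h' : Deg γ' u v m) : Deg (fun t => γ t * γ' t) u v (n + m) := by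
  obtain ⟨θ, hθ, h1, h2⟩ := h
  obtain ⟨θ', hθ', h1', h2'⟩ := h'
  refine ⟨fun t => θ t + θ' t, hθ.add hθ', fun t ht => ?_, ?_⟩
  · rw [ec_add, h1 t ht, h1' t ht]
  · push_cast
    rw [← h2, ← h2']
    ring

theorem Deg.zpow {γ : ℝ → Circle} {u v : ℝ} {n : ℤ} (h : Deg γ u v n) (k : ℤ) :
    Deg (fun t => γ t ^ k) u v (k * n) := by
  obtain ⟨θ, hθ, h1, h2⟩ := h
  refine ⟨fun t => k * θ t, continuousOn_const.mul hθ, fun t ht => ?_, ?_⟩
  · rw [← ec_zpow, h1 t ht]
  · push_cast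
    rw [← h2]
    ring

theorem Deg.congr {γ γ' : ℝ → Circle} {u v : ℝ} {n : ℤ} (h : Deg γ u v n)
    (h' : EqOn γ γ' (Icc u v)) : Deg γ' u v n := by
  obtain ⟨θ, hθ, h1, h2⟩ := h
  exact ⟨θ, hθ, fun t ht => by rw [h1 t ht, h' ht], h2⟩

theorem Deg.const (x : Circle) (u v : ℝ) : Deg (fun _ => x) u v 0 := by
  obtain ⟨r, hr⟩ := ec_surjective x
  exact ⟨fun _ => r, continuousOn_const, fun _ _ => hr, by simp⟩

theorem Deg.ec (n : ℤ) (r : ℝ) : Deg (fun t => EBS.ec (n * t + r)) 0 1 n :=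
  ⟨fun t => n * t + r, by fun_prop, fun _ _ => rfl, by simp⟩

/-- A closed curve whose values are not `-1` (more generally which has a real logarithm) has
degree `0`. -/
theorem Deg.of_log {θ : ℝ → ℝ} {u v : ℝ} (h : ContinuousOn θ (Icc u v)) (he : θ u = θ v) :
    Deg (fun t => EBS.ec (θ t)) u v 0 :=
  ⟨θ, h, fun _ _ => rfl, by simp [he]⟩

/-- Homotopy invariance. -/
theorem Deg.homotopy {h : ℝ → ℝ → Circle} {u v : ℝ} (huv : u ≤ v)
    (hc : ContinuousOn (Function.uncurry h) (Icc 0 1 ×ˢ Icc u v))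
    (he : ∀ s ∈ Icc (0 : ℝ) 1, h s u = h s v) {n m : ℤ} (h0 : Deg (h 0) u v n)
    (h1 : Deg (h 1) u v m) : n = m := by
  obtain ⟨θ, hθ, h2, h3⟩ := h0
  obtain ⟨θ', hθ', h2', h3'⟩ := h1
  have hK : Continuous fun p : I × I => h p.1 (u + p.2 * (v - u)) :=
    hc.comp_continuous (f := fun p : I × I => ((p.1 : ℝ), u + (p.2 : ℝ) * (v - u)))
      (by fun_prop) fun p => ⟨p.1.2, param_mem huv p.2⟩
  have hf : Continuous fun t : I => θ (u + t * (v - u)) :=
    hθ.comp_continuous (by fun_prop) fun t => param_mem huv t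
  have hf' : Continuous fun t : I => θ' (u + t * (v - u)) :=
    hθ'.comp_continuous (by fun_prop) fun t => param_mem huv t
  have H0 : ∀ a : I, (⟨_, hK⟩ : C(I × I, Circle)) (0, a) =
      EBS.ec ((⟨_, hf⟩ : C(I, ℝ)) a) := by
    intro a
    simp only [ContinuousMap.coe_mk, Icc.coe_zero]
    rw [h2 _ (param_mem huv a)]
  let Θ := isCoveringMap_ec.liftHomotopy ⟨_, hK⟩ ⟨_, hf⟩ H0
  have hΘ : ∀ s t : I, EBS.ec (Θ (s, t)) = h s (u + t * (v - u)) := fun s t =>
    congrFun (isCoveringMap_ec.liftHomotopy_lifts ⟨_, hK⟩ ⟨_, hf⟩ H0) (s, t)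
  have hΘ0 : ∀ t : I, Θ (0, t) = θ (u + t * (v - u)) := fun t =>
    isCoveringMap_ec.liftHomotopy_zero ⟨_, hK⟩ ⟨_, hf⟩ H0 t
  have e1 : u + ((1 : I) : ℝ) * (v - u) = v := by simp
  have e0 : u + ((0 : I) : ℝ) * (v - u) = u := by simp
  have hone : ∀ s : I, EBS.ec (Θ (s, 1) - Θ (s, 0)) = 1 := fun s => by
    rw [sub_eq_add_neg, ec_add, ec_neg, hΘ, hΘ, e1, e0, he s s.2, mul_inv_cancel]
  have hd := isCoveringMap_ec.const_of_comp (g := fun s : I => Θ (s, 1) - Θ (s, 0))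
    (by fun_prop) (fun a a' => by rw [hone a, hone a']) 0 1
  have hone' : ∀ t : I, EBS.ec (θ' (u + t * (v - u)) - Θ (1, t)) = 1 := fun t => by
    rw [sub_eq_add_neg, ec_add, ec_neg, hΘ, h2' _ (param_mem huv t)]
    simp
  have hd' := isCoveringMap_ec.const_of_comp
    (g := fun t : I => θ' (u + t * (v - u)) - Θ (1, t))
    (hf'.sub (Θ.continuous.comp (by fun_prop))) (fun a a' => by rw [hone' a, hone' a']) 0 1
  simp only [e1, e0] at hd hd'
  rw [hΘ0, hΘ0, e1, e0] at hd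
  have h5 : (n : ℝ) = m := by
    rw [← h3, ← h3']
    linarith
  exact_mod_cast h5

end Pool.Agent.EBS
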