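import Pool.Agent.EBS.F04
import Pool.Agent.EBS.F05

/-!
# F07: spaces which can be deformed to a torus (or a circle)

Proof of `Fn.retract`. Let `c` be a closed curve in `Y` on `[u, v]`, `i`, `j` the degrees of
`π₁ ∘ c`, `π₂ ∘ c` with lifts `θ₁`, `θ₂`. The square lemma for `h s t = R (c s) t` on
`[u, v] × [0, 1]`: `F.cv (R (c ·) 0) u v * F.cv (R (c v) ·) 0 1 = F.cv (R (c u) ·) 0 1 *
F.cv (R (c ·) 1) u v`. The side curves agree since `c u = c v`, `H` is commutative, so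
`F.cv c u v = F.cv (fun s => R (c s) 1) u v`, and
`R (c s) 1 = k (π₁ (c s), π₂ (c s)) = K (θ₁ s, θ₂ s)` with `K (a, b) = k (ec a, ec b)`,
`K : ℝ² → Y` continuous and periodic. By `cv_convex` this value is
`F.sv K P (P + (i, j))`, `P = (θ₁ u, θ₂ u)`, and by `Fn.torus` it is
`F.sv K P (P + (1, 0)) ^ i * F.sv K P (P + (0, 1)) ^ j`. Finally
`F.sv K P (P + (1, 0)) = F.sv K 0 (1, 0)`: `sv_trans` twice
(`sv 0 P * sv P (P + e) = sv 0 e * sv e (P + e)` and `sv e (P + e) = sv 0 P` by `sv_shift`), `H` is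
commutative. `F.sv K 0 (1, 0) = F.cv (fun t => k (ec t, 1)) 0 1` (`cv_congr`).
-/

set_option autoImplicit false

noncomputable section

open Set Topology unitInterval

namespace Pool.Agent.EBS

variable {Z : Type} [TopologicalSpace Z] {Y : Set Z} {H : Type} [CommGroup H]

private theorem sv_base (F : Fn Y H) {K : ℝ × ℝ → Z} (hK : Continuous K) (hm : ∀ P, K P ∈ Y)
    {e : ℝ × ℝ} (he : ∀ P, K (P + e) = K P) (P : ℝ × ℝ) :
    F.sv K P (P + e) = F.sv K 0 e := by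
  have h1 := F.sv_trans (C := univ) convex_univ hK.continuousOn (fun P _ => hm P)
    (mem_univ (0 : ℝ × ℝ)) (mem_univ P) (mem_univ (P + e))
  have h2 := F.sv_trans (C := univ) convex_univ hK.continuousOn (fun P _ => hm P)
    (mem_univ (0 : ℝ × ℝ)) (mem_univ e) (mem_univ (P + e))
  have h3 := F.sv_shift he 0 P
  rw [zero_add] at h3
  rw [h3, ← h1, mul_comm (F.sv K 0 e)] at h2
  exact (mul_left_cancel h2).symm

theorem Fn.retract (F : Fn Y H) {R : Z → ℝ → Z}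
    (hR : ContinuousOn (Function.uncurry R) (Y ×ˢ Icc 0 1))
    (hRm : ∀ z ∈ Y, ∀ s ∈ Icc (0 : ℝ) 1, R z s ∈ Y) (hR0 : ∀ z ∈ Y, R z 0 = z)
    {k : Circle × Circle → Z} (hk : Continuous k) (hkm : ∀ x, k x ∈ Y) {π₁ π₂ : Z → Circle}
    (hπ₁ : ContinuousOn π₁ Y) (hπ₂ : ContinuousOn π₂ Y)
    (hR1 : ∀ z ∈ Y, R z 1 = k (π₁ z, π₂ z)) {c : ℝ → Z} {u v : ℝ} (hc : Cv Y c u v)
    (he : c u = c v) {i j : ℤ} (hi : Deg (fun t => π₁ (c t)) u v i)
    (hj : Deg (fun t => π₂ (c t)) u v j) :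
    F.cv c u v = (F.cv (fun t => k (ec t, 1)) 0 1) ^ i * (F.cv (fun t => k (1, ec t)) 0 1) ^ j := by
  obtain ⟨θ₁, h1c, h1e, h1d⟩ := hi
  obtain ⟨θ₂, h2c, h2e, h2d⟩ := hj
  have hcont : ContinuousOn (Function.uncurry fun s t => R (c s) t) (Icc u v ×ˢ Icc 0 1) := by
    have h1 : ContinuousOn (fun p : ℝ × ℝ => (c p.1, p.2)) (Icc u v ×ˢ Icc 0 1) := by
      refine ContinuousOn.prodMk ?_ continuousOn_snd
      exact hc.cont.comp continuousOn_fst fun p hp => hp.1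
    exact hR.comp h1 fun p hp => ⟨hc.mem _ hp.1, hp.2⟩
  have hsq := F.square hc.le zero_le_one (fun s t => R (c s) t) hcont
    (fun s hs t ht => hRm _ (hc.mem s hs) t ht)
  rw [← he, mul_comm] at hsq
  have h3 := mul_left_cancel hsq
  have h4 : F.cv (fun s => R (c s) 0) u v = F.cv c u v :=
    F.cv_congr fun s hs => hR0 _ (hc.mem s hs)
  rw [h4] at h3
  obtain ⟨K, hKdef⟩ : ∃ K : ℝ × ℝ → Z, K = fun P => k (ec P.1, ec P.2) := ⟨_, rfl⟩
  have hKc : Continuous K := by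
    rw [hKdef]
    exact hk.comp ((continuous_ec.comp continuous_fst).prodMk (continuous_ec.comp continuous_snd))
  have hKm : ∀ P, K P ∈ Y := fun P => by
    rw [hKdef]
    exact hkm _
  have hK1 : ∀ P, K (P + (1, 0)) = K P := fun P => by
    rw [hKdef]
    change k (ec (P.1 + 1), ec (P.2 + 0)) = k (ec P.1, ec P.2)
    rw [ec_add, ec_one, mul_one, add_zero]
  have hK2 : ∀ P, K (P + (0, 1)) = K P := fun P => by
    rw [hKdef]
    change k (ec (P.1 + 0), ec (P.2 + 1)) = k (ec P.1, ec P.2)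
    rw [ec_add P.2, ec_one, mul_one, add_zero]
  have h5 : F.cv (fun s => R (c s) 1) u v = F.cv (fun s => K (θ₁ s, θ₂ s)) u v := by
    refine F.cv_congr fun s hs => ?_
    change R (c s) 1 = K (θ₁ s, θ₂ s)
    rw [hR1 _ (hc.mem s hs), hKdef]
    change _ = k (ec (θ₁ s), ec (θ₂ s))
    rw [h1e s hs, h2e s hs]
  have h6 := F.cv_convex (C := univ) convex_univ hKc.continuousOn (fun P _ => hKm P) hc.le
    (c := fun s => (θ₁ s, θ₂ s)) (h1c.prodMk h2c) (fun t _ => mem_univ _)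
  have h7 : ((θ₁ v, θ₂ v) : ℝ × ℝ) = (θ₁ u, θ₂ u) + ((i : ℝ), (j : ℝ)) := by
    rw [← h1d, ← h2d, Prod.mk_add_mk]
    simp only [add_sub_cancel]
  rw [h3, h5, h6, h7, (F.torus hKc hKm hK1 hK2 _).2 i j, sv_base F hKc hKm hK1,
    sv_base F hKc hKm hK2]
  have h8 : F.sv K 0 (1, 0) = F.cv (fun t => k (ec t, 1)) 0 1 := by
    refine F.cv_congr fun t _ => ?_
    change K (AffineMap.lineMap (0 : ℝ × ℝ) (1, 0) t) = k (ec t, 1)
    rw [AffineMap.lineMap_apply, hKdef]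
    simp [ec_zero]
  have h9 : F.sv K 0 (0, 1) = F.cv (fun t => k (1, ec t)) 0 1 := by
    refine F.cv_congr fun t _ => ?_
    change K (AffineMap.lineMap (0 : ℝ × ℝ) (0, 1) t) = k (1, ec t)
    rw [AffineMap.lineMap_apply, hKdef]
    simp [ec_zero]
  rw [h8, h9]

end Pool.Agent.EBS
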