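import Pool.Agent.EBS.G08
import Pool.Agent.EBS.F07

/-!
# G12: closed curves in `InS` and `OutS`, values in commutative groups

Apply `Fn.retract` (file `F07`). Write a point as `(X, r Y)` with `r = ‖ζ‖`, `Y = cu ζ`
(`norm_mul_cu`), see `mem_W1_iff`.
* `In_value`: `Y = InS`, `R (x, ζ) s = (x, (1 - s) ζ)`, `k (x, y) = (x, 0)`, `π₁ = fst`, `π₂ = 1`,
  `j = 0` (`Deg.const`). `R` maps into `InS`: see the docstring of `G10`.
* `Out_value`: `Y = OutS`, `R (x, ζ) s = (x, ((1 - s) + 2 s / ‖ζ‖) ζ)`, so that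
  `R (X, r Y) s = (X, ((1 - s) r + 2 s) Y)`; `k (x, y) = (x, 2 y)`, `π₁ = fst`, `π₂ (x, ζ) = cu ζ`
  (`continuousOn_cu`, `ζ ≠ 0` on `OutS`). `k (ec t, 1) = (ec t, 2)`.
* `Out_curve`: the two curves lie in `OutS` (`r = 2`, `mem_W1_iff`).
-/

set_option autoImplicit false

noncomputable section

open Set Topology unitInterval

namespace Pool.Agent.EBS

variable {H : Type} [CommGroup H]

private theorem g12_coe : Continuous fun x : Circle => (x : ℂ) := by fun_prop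

private theorem g12_norm {r : ℝ} (h : 0 ≤ r) (Y : Circle) : ‖(r : ℂ) * (Y : ℂ)‖ = r := by
  rw [norm_mul, Circle.norm_coe, mul_one, Complex.norm_real, Real.norm_of_nonneg h]

private theorem g12_W1 {p : Circle × ℂ} (h : p ∈ W1) : ¬ (1 / 4 < ‖p.2‖ ∧ ‖p.2‖ < 3 / 4 ∧
    0 < ((cu p.2 ^ 3 * (p.1 ^ 38)⁻¹ : Circle) : ℂ).re) := by
  rw [← mem_W1_iff (norm_nonneg _), norm_mul_cu]
  exact h

private theorem g12_in {p : Circle × ℂ} (hp : p ∈ InS) {s : ℝ} (hs : s ∈ Icc (0 : ℝ) 1) :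
    (p.1, (((1 - s : ℝ)) : ℂ) * p.2) ∈ InS := by
  have e : (((1 - s : ℝ)) : ℂ) * p.2 = (((1 - s) * ‖p.2‖ : ℝ) : ℂ) * (cu p.2 : ℂ) := by
    rw [Complex.ofReal_mul, mul_assoc, norm_mul_cu]
  rw [e]
  have hn := norm_nonneg p.2
  have hlt : ‖p.2‖ < 3 / 4 := hp.2
  have h0 := hs.1
  have h1 := hs.2
  have h2 : 0 ≤ (1 - s) * ‖p.2‖ := mul_nonneg (by linarith) hn
  have h3 : (1 - s) * ‖p.2‖ ≤ ‖p.2‖ := by nlinarith
  refine ⟨(mem_W1_iff h2).2 fun h => g12_W1 hp.1 ⟨?_, hlt, h.2.2⟩, ?_⟩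
  · linarith [h.1]
  · show ‖(((1 - s) * ‖p.2‖ : ℝ) : ℂ) * (cu p.2 : ℂ)‖ < 3 / 4
    rw [g12_norm h2]
    linarith

private theorem g12_k0 (X : Circle) : ((X, 0) : Circle × ℂ) ∈ InS := by
  have e : ((X, 0) : Circle × ℂ) = (X, ((0 : ℝ) : ℂ) * ((1 : Circle) : ℂ)) := by
    rw [Complex.ofReal_zero, zero_mul]
  refine ⟨?_, ?_⟩
  · rw [e]
    refine (mem_W1_iff le_rfl).2 fun h => ?_
    linarith [h.1]
  · show ‖(0 : ℂ)‖ < 3 / 4
    rw [norm_zero]
    norm_num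

private theorem g12_out {p : Circle × ℂ} (hp : p ∈ OutS) {s : ℝ} (hs : s ∈ Icc (0 : ℝ) 1) :
    (p.1, (((1 - s) * ‖p.2‖ + s * 2 : ℝ) : ℂ) * (cu p.2 : ℂ)) ∈ OutS := by
  have h0 := hs.1
  have h1 := hs.2
  have hlt : 1 / 4 < ‖p.2‖ := hp.2
  have h2 : 1 / 4 < (1 - s) * ‖p.2‖ + s * 2 := by
    rcases eq_or_lt_of_le h0 with h | h
    · rw [← h]
      linarith
    · nlinarith
  refine ⟨(mem_W1_iff (by linarith)).2 fun h => g12_W1 hp.1 ⟨hlt, ?_, h.2.2⟩, ?_⟩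
  · by_contra h5
    rw [not_lt] at h5
    have h6 := h.2.1
    nlinarith
  · show 1 / 4 < ‖(((1 - s) * ‖p.2‖ + s * 2 : ℝ) : ℂ) * (cu p.2 : ℂ)‖
    rw [g12_norm (by linarith)]
    exact h2

private theorem g12_k2 (X Y : Circle) : ((X, ((2 : ℝ) : ℂ) * (Y : ℂ)) : Circle × ℂ) ∈ OutS := by
  refine ⟨(mem_W1_iff (by norm_num)).2 fun h => ?_, ?_⟩
  · linarith [h.2.1]
  · show 1 / 4 < ‖((2 : ℝ) : ℂ) * (Y : ℂ)‖
    rw [g12_norm (by norm_num)]
    norm_num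

theorem In_value (F : Fn InS H) {c : ℝ → Circle × ℂ} {u v : ℝ} (hc : Cv InS c u v)
    (he : c u = c v) {i : ℤ} (hi : Deg (fun t => (c t).1) u v i) :
    F.cv c u v = (F.cv (fun t => (ec t, 0)) 0 1) ^ i := by
  have h := F.retract (R := fun z s => (z.1, (((1 - s : ℝ)) : ℂ) * z.2))
    (k := fun x => (x.1, 0)) (π₁ := Prod.fst) (π₂ := fun _ => 1) ?_
    (fun z hz s hs => g12_in hz hs) (fun z _ => ?_)
    (by fun_prop) (fun x => g12_k0 x.1) continuous_fst.continuousOn continuousOn_const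
    (fun z _ => ?_) hc he hi (Deg.const 1 u v)
  · rw [h, zpow_zero, mul_one]
  · refine Continuous.continuousOn ?_
    refine (continuous_fst.comp continuous_fst).prodMk (Continuous.mul ?_ ?_)
    · exact Complex.continuous_ofReal.comp (continuous_const.sub continuous_snd)
    · exact continuous_snd.comp continuous_fst
  · show (z.1, (((1 - 0 : ℝ)) : ℂ) * z.2) = z
    rw [sub_zero, Complex.ofReal_one, one_mul]
  · show (z.1, (((1 - 1 : ℝ)) : ℂ) * z.2) = (z.1, 0)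
    rw [sub_self, Complex.ofReal_zero, zero_mul]

theorem Out_value (F : Fn OutS H) {c : ℝ → Circle × ℂ} {u v : ℝ} (hc : Cv OutS c u v)
    (he : c u = c v) {i j : ℤ} (hi : Deg (fun t => (c t).1) u v i)
    (hj : Deg (fun t => cu (c t).2) u v j) :
    F.cv c u v = (F.cv (fun t => (ec t, 2)) 0 1) ^ i *
      (F.cv (fun t => (1, 2 * (ec t : ℂ))) 0 1) ^ j := by
  have hne : ∀ z ∈ OutS, z.2 ∈ ({0}ᶜ : Set ℂ) := by
    intro z hz h0
    have h1 : 1 / 4 < ‖z.2‖ := hz.2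
    rw [mem_singleton_iff.1 h0, norm_zero] at h1
    norm_num at h1
  have hcu : ContinuousOn (fun z : Circle × ℂ => cu z.2) OutS :=
    continuousOn_cu.comp continuous_snd.continuousOn hne
  have h := F.retract
    (R := fun z s => (z.1, (((1 - s) * ‖z.2‖ + s * 2 : ℝ) : ℂ) * (cu z.2 : ℂ)))
    (k := fun x => (x.1, ((2 : ℝ) : ℂ) * (x.2 : ℂ))) (π₁ := Prod.fst) (π₂ := fun z => cu z.2) ?_
    (fun z hz s hs => g12_out hz hs) (fun z _ => ?_) ?_ (fun x => g12_k2 x.1 x.2)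
    continuous_fst.continuousOn hcu (fun z _ => ?_) hc he hi hj
  · rw [h]
    have e1 : F.cv (fun t => ((ec t, ((2 : ℝ) : ℂ) * ((1 : Circle) : ℂ)) : Circle × ℂ)) 0 1 =
        F.cv (fun t => (ec t, 2)) 0 1 := by
      refine F.cv_congr fun t _ => ?_
      show (ec t, ((2 : ℝ) : ℂ) * ((1 : Circle) : ℂ)) = (ec t, 2)
      rw [Circle.coe_one, mul_one, Complex.ofReal_ofNat]
    have e2 : F.cv (fun t => (((1 : Circle), ((2 : ℝ) : ℂ) * (ec t : ℂ)) : Circle × ℂ)) 0 1 =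
        F.cv (fun t => (1, 2 * (ec t : ℂ))) 0 1 := by
      refine F.cv_congr fun t _ => ?_
      show ((1 : Circle), ((2 : ℝ) : ℂ) * (ec t : ℂ)) = (1, 2 * (ec t : ℂ))
      rw [Complex.ofReal_ofNat]
    rw [e1, e2]
  · refine ContinuousOn.prodMk (continuous_fst.comp continuous_fst).continuousOn
      (ContinuousOn.mul (Continuous.continuousOn ?_) ?_)
    · refine Complex.continuous_ofReal.comp ?_
      refine Continuous.add (Continuous.mul (continuous_const.sub continuous_snd) ?_)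
        (continuous_snd.mul continuous_const)
      exact (continuous_snd.comp continuous_fst).norm
    · exact g12_coe.comp_continuousOn (hcu.comp continuousOn_fst fun p hp => hp.1)
  · show (z.1, (((1 - 0) * ‖z.2‖ + 0 * 2 : ℝ) : ℂ) * (cu z.2 : ℂ)) = z
    rw [sub_zero, one_mul, zero_mul, add_zero, norm_mul_cu]
  · exact continuous_fst.prodMk (continuous_const.mul (g12_coe.comp continuous_snd))
  · show (z.1, (((1 - 1) * ‖z.2‖ + 1 * 2 : ℝ) : ℂ) * (cu z.2 : ℂ)) =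
      (z.1, ((2 : ℝ) : ℂ) * (cu z.2 : ℂ))
    rw [sub_self, zero_mul, zero_add, one_mul]

end Pool.Agent.EBS
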