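import Pool.Agent.EBS.F03

/-!
# F12: the boundary of a square hole

`g` is a map on the strip `ℝ × [0, 1]`, periodic in the first variable, defined outside of
rectangular holes `(n - a, n + a) × (1 - r, r)`, `n ∈ ℤ`. `c` is a closed curve around the hole at
`0` (counterclockwise), `cT` runs from `(-1/2, 1/2)` to `(1/2, 1/2)` above the hole and
`cB` below the hole. Then `c = κ cT⁻¹ cB κ⁻¹` with the segment `κ` from `c 0` to `(1/2, 1/2)`.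

Proof. Let `Q₁ = (a, r) ∈ Rt ∩ Tp`, `Q₂ = (-a, r) ∈ Tp ∩ Lf`, `Q₃ = (-a, 1 - r) ∈ Lf ∩ Bt`,
`Q₄ = (a, 1 - r) ∈ Bt ∩ Rt`, `P = (1/2, 1/2) ∈ Rt`, `P' = (-1/2, 1/2) ∈ Lf`, `R = c 0 = c 1 ∈ Rt`.
The sets `Rt`, `Tp`, `Lf`, `Bt` are convex, write `[A, B] = F.sv g A B`. In each of these sets
`[A, B] [B, C] = [A, C]`, `[B, A] = [A, B]⁻¹` (`sv_trans`, `sv_inv`) and a curve has the value
`[start, end]` (`cv_convex`). So (`cv_trans`, cut `c` at `1/8, 3/8, 5/8, 7/8`), with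
`A₁ = c (1/8)`, `A₂ = c (3/8)`, `A₃ = c (5/8)`, `A₄ = c (7/8)`:
`F(c) = [R, A₁] [A₁, A₂] [A₂, A₃] [A₃, A₄] [A₄, R]`. `A₁ ∈ Rt ∩ Tp`, and `Rt ∩ Tp` is convex, so
`[R, A₁] [A₁, A₂] = [R, Q₁] [Q₁, A₁] [A₁, A₂] = [R, Q₁] [Q₁, A₂]`, etc. (`Q_i`, `A_i` lie in the
same
two convex sets). Hence `F(c) = [R, Q₁] [Q₁, Q₂] [Q₂, Q₃] [Q₃, Q₄] [Q₄, R]`. In the same way (cut at
`1/4`, `3/4`) `F(cT) = [P', Q₂] [Q₂, Q₁] [Q₁, P]`, `F(cB) = [P', Q₃] [Q₃, Q₄] [Q₄, P]`. So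
`F(cT)⁻¹ F(cB) = [P, Q₁] [Q₁, Q₂] [Q₂, P'] [P', Q₃] [Q₃, Q₄] [Q₄, P]`
`= [P, Q₁] [Q₁, Q₂] [Q₂, Q₃] [Q₃, Q₄] [Q₄, P]`; multiply by `[R, P]` on the left and by `[P, R]` on
the right. (The periodicity is not needed: it only says that `g P = g P'`.)
-/

set_option autoImplicit false

noncomputable section

open Set Topology unitInterval

namespace Pool.Agent.EBS

/-- the region to the right of the hole -/
def Rt (a : ℝ) : Set (ℝ × ℝ) := Icc a (1 - a) ×ˢ Icc 0 1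

/-- the region to the left of the hole -/
def Lf (a : ℝ) : Set (ℝ × ℝ) := Icc (a - 1) (-a) ×ˢ Icc 0 1

/-- the region above the hole -/
def Tp (r : ℝ) : Set (ℝ × ℝ) := Icc (-1) 1 ×ˢ Icc r 1

/-- the region below the hole -/
def Bt (r : ℝ) : Set (ℝ × ℝ) := Icc (-1) 1 ×ˢ Icc 0 (1 - r)

variable {Z : Type} [TopologicalSpace Z] {Y : Set Z} {H : Type} [Group H]

private theorem hole_conv (F : Fn Y H) {C : Set (ℝ × ℝ)} (hC : Convex ℝ C) {g : ℝ × ℝ → Z}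
    (hg : ContinuousOn g C) (hm : ∀ P ∈ C, g P ∈ Y) {A B Q Q' : ℝ × ℝ} (hA : A ∈ C) (hB : B ∈ C)
    (hQ : Q ∈ C) (hQ' : Q' ∈ C) :
    F.sv g A B = (F.sv g Q A)⁻¹ * (F.sv g Q Q' * F.sv g Q' B) := by
  rw [F.sv_trans hC hg hm hQ hQ' hB, ← F.sv_inv hC hg hm hQ hA, F.sv_trans hC hg hm hA hQ hB]

private theorem hole_cv (F : Fn Y H) {C : Set (ℝ × ℝ)} (hC : Convex ℝ C) {g : ℝ × ℝ → Z}
    (hg : ContinuousOn g C) (hm : ∀ P ∈ C, g P ∈ Y) {c : ℝ → ℝ × ℝ}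
    (hc : ContinuousOn c (Icc 0 1)) {u v : ℝ} (hu : 0 ≤ u) (huv : u ≤ v) (hv : v ≤ 1)
    (h : ∀ t ∈ Icc u v, c t ∈ C) {Q Q' : ℝ × ℝ} (hQ : Q ∈ C) (hQ' : Q' ∈ C) :
    F.cv (fun t => g (c t)) u v =
      (F.sv g Q (c u))⁻¹ * (F.sv g Q Q' * F.sv g Q' (c v)) := by
  rw [F.cv_convex hC hg hm huv (hc.mono (Icc_subset_Icc hu hv)) h]
  exact hole_conv F hC hg hm (h u ⟨le_rfl, huv⟩) (h v ⟨huv, le_rfl⟩) hQ hQ'

private theorem hole_cv' {U : Set (ℝ × ℝ)} {g : ℝ × ℝ → Z} (hg : ContinuousOn g U)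
    (hm : ∀ x ∈ U, g x ∈ Y) {c : ℝ → ℝ × ℝ} (hc : ContinuousOn c (Icc 0 1))
    (h : ∀ t ∈ Icc (0 : ℝ) 1, c t ∈ U) : Cv Y (fun t => g (c t)) 0 1 where
  le := zero_le_one
  cont := hg.comp hc h
  mem := fun t ht => hm _ (h t ht)

theorem Fn.hole (F : Fn Y H) {a r : ℝ} (ha : 0 < a) (ha1 : a < 1 / 2) (hr : 1 / 2 < r)
    (hr1 : r < 1) {g : ℝ × ℝ → Z} (hg : ContinuousOn g (Rt a ∪ Lf a ∪ Tp r ∪ Bt r))
    (hm : ∀ x ∈ Rt a ∪ Lf a ∪ Tp r ∪ Bt r, g x ∈ Y) {c cT cB : ℝ → ℝ × ℝ}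
    (hc : ContinuousOn c (Icc 0 1)) (hcT : ContinuousOn cT (Icc 0 1))
    (hcB : ContinuousOn cB (Icc 0 1)) (hc01 : c 0 = c 1)
    (hc1 : ∀ t ∈ Icc (0 : ℝ) (1 / 8), c t ∈ Rt a) (hc2 : ∀ t ∈ Icc (1 / 8 : ℝ) (3 / 8), c t ∈ Tp r)
    (hc3 : ∀ t ∈ Icc (3 / 8 : ℝ) (5 / 8), c t ∈ Lf a)
    (hc4 : ∀ t ∈ Icc (5 / 8 : ℝ) (7 / 8), c t ∈ Bt r) (hc5 : ∀ t ∈ Icc (7 / 8 : ℝ) 1, c t ∈ Rt a)
    (hT0 : cT 0 = (-1 / 2, 1 / 2)) (hT1 : cT 1 = (1 / 2, 1 / 2))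
    (hT2 : ∀ t ∈ Icc (0 : ℝ) (1 / 4), cT t ∈ Lf a)
    (hT3 : ∀ t ∈ Icc (1 / 4 : ℝ) (3 / 4), cT t ∈ Tp r)
    (hT4 : ∀ t ∈ Icc (3 / 4 : ℝ) 1, cT t ∈ Rt a)
    (hB0 : cB 0 = (-1 / 2, 1 / 2)) (hB1 : cB 1 = (1 / 2, 1 / 2))
    (hB2 : ∀ t ∈ Icc (0 : ℝ) (1 / 4), cB t ∈ Lf a)
    (hB3 : ∀ t ∈ Icc (1 / 4 : ℝ) (3 / 4), cB t ∈ Bt r)
    (hB4 : ∀ t ∈ Icc (3 / 4 : ℝ) 1, cB t ∈ Rt a) :
    F.cv (fun t => g (c t)) 0 1 = F.sv g (c 0) (1 / 2, 1 / 2) *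
      ((F.cv (fun t => g (cT t)) 0 1)⁻¹ * F.cv (fun t => g (cB t)) 0 1) *
        (F.sv g (c 0) (1 / 2, 1 / 2))⁻¹ := by
  have sR : Rt a ⊆ Rt a ∪ Lf a ∪ Tp r ∪ Bt r := fun x hx => Or.inl (Or.inl (Or.inl hx))
  have sL : Lf a ⊆ Rt a ∪ Lf a ∪ Tp r ∪ Bt r := fun x hx => Or.inl (Or.inl (Or.inr hx))
  have sT : Tp r ⊆ Rt a ∪ Lf a ∪ Tp r ∪ Bt r := fun x hx => Or.inl (Or.inr hx)
  have sB : Bt r ⊆ Rt a ∪ Lf a ∪ Tp r ∪ Bt r := fun x hx => Or.inr hx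
  have cR : Convex ℝ (Rt a) := (convex_Icc _ _).prod (convex_Icc _ _)
  have cL : Convex ℝ (Lf a) := (convex_Icc _ _).prod (convex_Icc _ _)
  have cT' : Convex ℝ (Tp r) := (convex_Icc _ _).prod (convex_Icc _ _)
  have cB' : Convex ℝ (Bt r) := (convex_Icc _ _).prod (convex_Icc _ _)
  have gR := hg.mono sR
  have gL := hg.mono sL
  have gT := hg.mono sT
  have gB := hg.mono sB
  have mR : ∀ x ∈ Rt a, g x ∈ Y := fun x hx => hm x (sR hx)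
  have mL : ∀ x ∈ Lf a, g x ∈ Y := fun x hx => hm x (sL hx)
  have mT : ∀ x ∈ Tp r, g x ∈ Y := fun x hx => hm x (sT hx)
  have mB : ∀ x ∈ Bt r, g x ∈ Y := fun x hx => hm x (sB hx)
  have q1R : (a, r) ∈ Rt a := ⟨⟨le_rfl, by simp only; linarith⟩, ⟨by simp only; linarith, hr1.le⟩⟩
  have q1T : (a, r) ∈ Tp r := ⟨⟨by simp only; linarith, by simp only; linarith⟩, ⟨le_rfl, hr1.le⟩⟩
  have q2T : (-a, r) ∈ Tp r := ⟨⟨by simp only; linarith, by simp only; linarith⟩, ⟨le_rfl, hr1.le⟩⟩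
  have q2L : (-a, r) ∈ Lf a := ⟨⟨by simp only; linarith, le_rfl⟩, ⟨by simp only; linarith, hr1.le⟩⟩
  have q3L : (-a, 1 - r) ∈ Lf a :=
    ⟨⟨by simp only; linarith, le_rfl⟩, ⟨by simp only; linarith, by simp only; linarith⟩⟩
  have q3B : (-a, 1 - r) ∈ Bt r :=
    ⟨⟨by simp only; linarith, by simp only; linarith⟩, ⟨by simp only; linarith, le_rfl⟩⟩
  have q4B : (a, 1 - r) ∈ Bt r :=
    ⟨⟨by simp only; linarith, by simp only; linarith⟩, ⟨by simp only; linarith, le_rfl⟩⟩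
  have q4R : (a, 1 - r) ∈ Rt a :=
    ⟨⟨le_rfl, by simp only; linarith⟩, ⟨by simp only; linarith, by simp only; linarith⟩⟩
  have pR : ((1 / 2, 1 / 2) : ℝ × ℝ) ∈ Rt a :=
    ⟨⟨by simp only; linarith, by simp only; linarith⟩, ⟨by norm_num, by norm_num⟩⟩
  have pL : ((-1 / 2, 1 / 2) : ℝ × ℝ) ∈ Lf a :=
    ⟨⟨by simp only; linarith, by simp only; linarith⟩, ⟨by norm_num, by norm_num⟩⟩
  have kR : c 0 ∈ Rt a := hc1 0 ⟨le_rfl, by norm_num⟩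
  -- the three curves
  have vc : Cv Y (fun t => g (c t)) 0 1 := by
    refine hole_cv' hg hm hc fun t ht => ?_
    rcases le_total t (1 / 8) with h1 | h1
    · exact sR (hc1 t ⟨ht.1, h1⟩)
    rcases le_total t (3 / 8) with h2 | h2
    · exact sT (hc2 t ⟨h1, h2⟩)
    rcases le_total t (5 / 8) with h3 | h3
    · exact sL (hc3 t ⟨h2, h3⟩)
    rcases le_total t (7 / 8) with h4 | h4
    · exact sB (hc4 t ⟨h3, h4⟩)
    · exact sR (hc5 t ⟨h4, ht.2⟩)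
  have vT : Cv Y (fun t => g (cT t)) 0 1 := by
    refine hole_cv' hg hm hcT fun t ht => ?_
    rcases le_total t (1 / 4) with h1 | h1
    · exact sL (hT2 t ⟨ht.1, h1⟩)
    rcases le_total t (3 / 4) with h2 | h2
    · exact sT (hT3 t ⟨h1, h2⟩)
    · exact sR (hT4 t ⟨h2, ht.2⟩)
  have vB : Cv Y (fun t => g (cB t)) 0 1 := by
    refine hole_cv' hg hm hcB fun t ht => ?_
    rcases le_total t (1 / 4) with h1 | h1
    · exact sL (hB2 t ⟨ht.1, h1⟩)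
    rcases le_total t (3 / 4) with h2 | h2
    · exact sB (hB3 t ⟨h1, h2⟩)
    · exact sR (hB4 t ⟨h2, ht.2⟩)
  have e1 := F.cv_trans vc (v := 1 / 8) (by norm_num) (by norm_num)
  have e2 := F.cv_trans (vc.sub (u' := 1 / 8) (v' := 1) (by norm_num) (by norm_num) (by norm_num))
    (v := 3 / 8) (by norm_num) (by norm_num)
  have e3 := F.cv_trans (vc.sub (u' := 3 / 8) (v' := 1) (by norm_num) (by norm_num) (by norm_num))
    (v := 5 / 8) (by norm_num) (by norm_num)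
  have e4 := F.cv_trans (vc.sub (u' := 5 / 8) (v' := 1) (by norm_num) (by norm_num) (by norm_num))
    (v := 7 / 8) (by norm_num) (by norm_num)
  have f1 := F.cv_trans vT (v := 1 / 4) (by norm_num) (by norm_num)
  have f2 := F.cv_trans (vT.sub (u' := 1 / 4) (v' := 1) (by norm_num) (by norm_num) (by norm_num))
    (v := 3 / 4) (by norm_num) (by norm_num)
  have g1 := F.cv_trans vB (v := 1 / 4) (by norm_num) (by norm_num)
  have g2 := F.cv_trans (vB.sub (u' := 1 / 4) (v' := 1) (by norm_num) (by norm_num) (by norm_num))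
    (v := 3 / 4) (by norm_num) (by norm_num)
  -- the pieces
  have c1 := hole_cv F cR gR mR hc le_rfl (by norm_num) (by norm_num) hc1 pR q1R
  have c2 := hole_cv F cT' gT mT hc (by norm_num) (by norm_num) (by norm_num) hc2 q1T q2T
  have c3 := hole_cv F cL gL mL hc (by norm_num) (by norm_num) (by norm_num) hc3 q2L q3L
  have c4 := hole_cv F cB' gB mB hc (by norm_num) (by norm_num) (by norm_num) hc4 q3B q4B
  have c5 := hole_cv F cR gR mR hc (by norm_num) (by norm_num) le_rfl hc5 q4R pR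
  have t1 := hole_cv F cL gL mL hcT le_rfl (by norm_num) (by norm_num) hT2 pL q2L
  have t2 := hole_cv F cT' gT mT hcT (by norm_num) (by norm_num) (by norm_num) hT3 q2T q1T
  have t3 := hole_cv F cR gR mR hcT (by norm_num) (by norm_num) le_rfl hT4 q1R pR
  have b1 := hole_cv F cL gL mL hcB le_rfl (by norm_num) (by norm_num) hB2 pL q3L
  have b2 := hole_cv F cB' gB mB hcB (by norm_num) (by norm_num) (by norm_num) hB3 q3B q4B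
  have b3 := hole_cv F cR gR mR hcB (by norm_num) (by norm_num) le_rfl hB4 q4R pR
  rw [hT0, F.sv_self, inv_one, one_mul] at t1
  rw [hT1, F.sv_self, mul_one] at t3
  rw [hB0, F.sv_self, inv_one, one_mul] at b1
  rw [hB1, F.sv_self, mul_one] at b3
  rw [← hc01] at c5
  -- inverses
  have i1 := F.sv_inv cR gR mR kR pR
  have i2 := F.sv_inv cT' gT mT q1T q2T
  have i3 := F.sv_inv cR gR mR q1R pR
  have i4 := F.sv_trans cL gL mL pL q2L q3L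
  rw [i1] at c1 c5
  rw [i2] at t2
  rw [i3] at c1
  rw [← e1, ← e2, ← e3, ← e4, ← f1, ← f2, ← g1, ← g2, c1, c2, c3, c4, c5, t1, t2, t3, b1, b2, b3,
    ← i4]
  group

end Pool.Agent.EBS
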