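import Pool.Agent.EBS.G01
import Pool.Agent.EBS.F05
import Pool.Agent.EBS.F12

/-!
# G15: curves around a hole

`cT` runs from `(-1/2, 1/2)` up to `(-1/2, 1)`, to `(1/2, 1)` and down to `(1/2, 1/2)`; `cB` runs
below. Apply `Fn.hole` with `a = at1 b`, `r = rho b`, `c t = (at1 (re (z t)), rho (im (z t)))`:
`0 < 1/4 ≤ at1 b < 1/2`, `1/2 < 3/4 ≤ rho b < 1` (`at1_strictMono`, `at1_one`, `at1_lt`).
The regions: `z t = k ec t`, `k > 0`, `sq (z t) ≥ b`. For `t ∈ [0, 1/8]`: `re (ec t) = cos (2 π t)`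
and
`im (ec t) = sin (2 π t)` satisfy `0 ≤ sin ≤ cos`, so `sq (z t) = re (z t) ≥ b`, and
`c t ∈ Rt a` (`at1 (re (z t)) ≥ at1 b = a`, `≤ 1 - a`
since `at1 < 1/2 ≤ 1 - a`; `rho ∈ (0, 1)`). For `t ∈ [1/8, 3/8]`: `|cos| ≤ sin`, so `im (z t) ≥ b`,
`c t ∈ Tp r`; for `t ∈ [3/8, 5/8]`: `|sin| ≤ - cos`, `re (z t) ≤ - b`, `c t ∈ Lf a`;
for `t ∈ [5/8, 7/8]`: `im (z t) ≤ - b`, `rho (im) ≤ 1 - r`, `c t ∈ Bt r`; for `t ∈ [7/8, 1]` `Rt a`.
(The inequalities between `sin` and `cos`: `cos x - sin x = √2 cos (x + π/4)`, or use that the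
functions are monotone on suitable intervals and `cos (π/4) = sin (π/4)`.)
`cT t ∈ Lf a` for `t ≤ 1/4` (first coordinate `-1/2`), `∈ Tp r` for `1/4 ≤ t ≤ 3/4` (second
coordinate `1`), `∈ Rt a` for `t ≥ 3/4`; the same for `cB`.
-/

set_option autoImplicit false

noncomputable section

open Set Topology unitInterval

namespace Pool.Agent.EBS

/-- The first coordinate of `cT` and `cB`. -/
def cS (t : ℝ) : ℝ := max (-1 / 2) (min (1 / 2) (2 * t - 1))

/-- The curve above the hole. -/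
def cT (t : ℝ) : ℝ × ℝ := (cS t, min 1 (1 / 2 + 4 * min t (1 - t)))

/-- The curve below the hole. -/
def cB (t : ℝ) : ℝ × ℝ := (cS t, max 0 (1 / 2 - 4 * min t (1 - t)))

/-- The complement of the hole. -/
def Dom (b : ℝ) : Set (ℝ × ℝ) := Rt (at1 b) ∪ Lf (at1 b) ∪ Tp (rho b) ∪ Bt (rho b)

variable {Z : Type} [TopologicalSpace Z] {Y : Set Z} {H : Type} [Group H]

theorem continuous_cT : Continuous cT := by
  unfold cT cS
  fun_prop

theorem continuous_cB : Continuous cB := by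
  unfold cB cS
  fun_prop

theorem cS_zero : cS 0 = -1 / 2 := by
  unfold cS
  rw [min_eq_right (by norm_num), max_eq_left (by norm_num)]

theorem cS_one : cS 1 = 1 / 2 := by
  unfold cS
  rw [min_eq_left (by norm_num), max_eq_right (by norm_num)]

private theorem min_nn {t : ℝ} (ht : t ∈ Icc (0 : ℝ) 1) : 0 ≤ min t (1 - t) :=
  le_min ht.1 (by linarith [ht.2])

theorem cT_snd {t : ℝ} (ht : t ∈ Icc (0 : ℝ) 1) : (cT t).2 ∈ Icc (1 / 2 : ℝ) 1 := by
  have h := min_nn ht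
  exact ⟨le_min (by norm_num) (by linarith), min_le_left _ _⟩

theorem cB_snd {t : ℝ} (ht : t ∈ Icc (0 : ℝ) 1) : (cB t).2 ∈ Icc (0 : ℝ) (1 / 2) := by
  have h := min_nn ht
  exact ⟨le_max_left _ _, max_le (by norm_num) (by linarith)⟩

private theorem cS_left {t : ℝ} (h : t ≤ 1 / 4) : cS t = -1 / 2 := by
  unfold cS
  exact max_eq_left ((min_le_right _ _).trans (by linarith))

private theorem cS_right {t : ℝ} (h : 3 / 4 ≤ t) : cS t = 1 / 2 := by
  unfold cS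
  rw [min_eq_left (by linarith), max_eq_right (by norm_num)]

private theorem cS_abs (t : ℝ) : cS t ∈ Icc (-1 : ℝ) 1 := by
  unfold cS
  refine ⟨le_trans (by norm_num) (le_max_left _ _), max_le (by norm_num) ?_⟩
  exact (min_le_left _ _).trans (by norm_num)

private theorem cT_mid {t : ℝ} (h1 : 1 / 4 ≤ t) (h2 : t ≤ 3 / 4) : (cT t).2 = 1 := by
  have h : (1 / 4 : ℝ) ≤ min t (1 - t) := le_min h1 (by linarith)
  exact min_eq_left (by linarith)

private theorem cB_mid {t : ℝ} (h1 : 1 / 4 ≤ t) (h2 : t ≤ 3 / 4) : (cB t).2 = 0 := by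
  have h : (1 / 4 : ℝ) ≤ min t (1 - t) := le_min h1 (by linarith)
  exact max_eq_left (by linarith)

private theorem a_ge {b : ℝ} (hb : 1 ≤ b) : 1 / 4 ≤ at1 b := by
  rw [← at1_one]
  exact at1_strictMono.monotone hb

private theorem r_ge {b : ℝ} (hb : 1 ≤ b) : 3 / 4 ≤ rho b := by
  rw [← rho_one]
  exact rho_strictMono.monotone hb

private theorem cT_L {b : ℝ} (hb : 1 ≤ b) {t : ℝ} (ht : t ∈ Icc (0 : ℝ) (1 / 4)) :
    cT t ∈ Lf (at1 b) := by
  have h1 := a_ge hb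
  have h2 := at1_lt b
  have h3 := cT_snd (t := t) ⟨ht.1, by linarith [ht.2]⟩
  have h4 : (cT t).1 = -1 / 2 := cS_left ht.2
  refine ⟨⟨?_, ?_⟩, by linarith [h3.1], h3.2⟩
  · rw [h4]
    linarith
  · rw [h4]
    linarith

private theorem cB_L {b : ℝ} (hb : 1 ≤ b) {t : ℝ} (ht : t ∈ Icc (0 : ℝ) (1 / 4)) :
    cB t ∈ Lf (at1 b) := by
  have h1 := a_ge hb
  have h2 := at1_lt b
  have h3 := cB_snd (t := t) ⟨ht.1, by linarith [ht.2]⟩
  have h4 : (cB t).1 = -1 / 2 := cS_left ht.2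
  refine ⟨⟨?_, ?_⟩, h3.1, by linarith [h3.2]⟩
  · rw [h4]
    linarith
  · rw [h4]
    linarith

private theorem cT_R {b : ℝ} (hb : 1 ≤ b) {t : ℝ} (ht : t ∈ Icc (3 / 4 : ℝ) 1) :
    cT t ∈ Rt (at1 b) := by
  have h1 := a_ge hb
  have h2 := at1_lt b
  have h3 := cT_snd (t := t) ⟨by linarith [ht.1], ht.2⟩
  have h4 : (cT t).1 = 1 / 2 := cS_right ht.1
  refine ⟨⟨?_, ?_⟩, by linarith [h3.1], h3.2⟩
  · rw [h4]
    linarith
  · rw [h4]
    linarith

private theorem cB_R {b : ℝ} (hb : 1 ≤ b) {t : ℝ} (ht : t ∈ Icc (3 / 4 : ℝ) 1) :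
    cB t ∈ Rt (at1 b) := by
  have h1 := a_ge hb
  have h2 := at1_lt b
  have h3 := cB_snd (t := t) ⟨by linarith [ht.1], ht.2⟩
  have h4 : (cB t).1 = 1 / 2 := cS_right ht.1
  refine ⟨⟨?_, ?_⟩, h3.1, by linarith [h3.2]⟩
  · rw [h4]
    linarith
  · rw [h4]
    linarith

private theorem cT_T {b : ℝ} {t : ℝ} (ht : t ∈ Icc (1 / 4 : ℝ) (3 / 4)) :
    cT t ∈ Tp (rho b) := by
  have h3 : (cT t).2 = 1 := cT_mid ht.1 ht.2
  refine ⟨cS_abs t, ?_, h3.le⟩
  rw [h3]
  exact (rho_lt_one b).le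

private theorem cB_B {b : ℝ} {t : ℝ} (ht : t ∈ Icc (1 / 4 : ℝ) (3 / 4)) :
    cB t ∈ Bt (rho b) := by
  have h3 : (cB t).2 = 0 := cB_mid ht.1 ht.2
  refine ⟨cS_abs t, h3.ge, ?_⟩
  rw [h3]
  linarith [rho_lt_one b]

theorem cT_mem {b : ℝ} (hb : 1 ≤ b) {t : ℝ} (ht : t ∈ Icc (0 : ℝ) 1) : cT t ∈ Dom b := by
  rcases le_total t (1 / 4) with h1 | h1
  · exact Or.inl (Or.inl (Or.inr (cT_L hb ⟨ht.1, h1⟩)))
  rcases le_total t (3 / 4) with h2 | h2
  · exact Or.inl (Or.inr (cT_T ⟨h1, h2⟩))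
  · exact Or.inl (Or.inl (Or.inl (cT_R hb ⟨h2, ht.2⟩)))

theorem cB_mem {b : ℝ} (hb : 1 ≤ b) {t : ℝ} (ht : t ∈ Icc (0 : ℝ) 1) : cB t ∈ Dom b := by
  rcases le_total t (1 / 4) with h1 | h1
  · exact Or.inl (Or.inl (Or.inr (cB_L hb ⟨ht.1, h1⟩)))
  rcases le_total t (3 / 4) with h2 | h2
  · exact Or.inr (cB_B ⟨h1, h2⟩)
  · exact Or.inl (Or.inl (Or.inl (cB_R hb ⟨h2, ht.2⟩)))

private theorem reg_R {b x y : ℝ} (hb : b ≤ max |x| |y|) (h : |y| ≤ x) :
    (at1 x, rho y) ∈ Rt (at1 b) := by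
  have hx : b ≤ x := by
    rwa [abs_of_nonneg ((abs_nonneg y).trans h), max_eq_left h] at hb
  have h1 := at1_strictMono.monotone hx
  have h2 := at1_lt x
  have h3 := at1_lt b
  exact ⟨⟨h1, by simp only; linarith⟩, (rho_pos y).le, (rho_lt_one y).le⟩

private theorem reg_T {b x y : ℝ} (hb : b ≤ max |x| |y|) (h : |x| ≤ y) :
    (at1 x, rho y) ∈ Tp (rho b) := by
  have hy : b ≤ y := by
    rwa [abs_of_nonneg ((abs_nonneg x).trans h), max_eq_right h] at hb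
  have h1 := at1_lt x
  have h2 := lt_at1 x
  exact ⟨⟨by simp only; linarith, by simp only; linarith⟩, rho_strictMono.monotone hy,
    (rho_lt_one y).le⟩

private theorem reg_L {b x y : ℝ} (hb : b ≤ max |x| |y|) (h : |y| ≤ -x) :
    (at1 x, rho y) ∈ Lf (at1 b) := by
  have hx : b ≤ -x := by
    rwa [abs_of_nonpos (by linarith [abs_nonneg y]), max_eq_left h] at hb
  have h1 := at1_strictMono.monotone (show x ≤ -b by linarith)
  rw [at1_neg] at h1
  have h2 := lt_at1 x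
  have h3 := at1_lt b
  exact ⟨⟨by simp only; linarith, h1⟩, (rho_pos y).le, (rho_lt_one y).le⟩

private theorem reg_B {b x y : ℝ} (hb : b ≤ max |x| |y|) (h : |x| ≤ -y) :
    (at1 x, rho y) ∈ Bt (rho b) := by
  have hy : b ≤ -y := by
    rwa [abs_of_nonpos (by linarith [abs_nonneg x] : y ≤ 0), max_eq_right h] at hb
  have h1 := at1_lt x
  have h2 := lt_at1 x
  have h3 := at1_strictMono.monotone (show y ≤ -b by linarith)
  rw [at1_neg] at h3
  refine ⟨⟨by simp only; linarith, by simp only; linarith⟩, (rho_pos y).le, ?_⟩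
  simp only [rho]
  linarith

private theorem trig {x : ℝ} (h : |x| ≤ Real.pi / 4) : |Real.sin x| ≤ Real.cos x := by
  have hpi := Real.pi_pos
  have h0 : |Real.sin x| = Real.sin |x| := by
    rcases le_total 0 x with h1 | h1
    · rw [abs_of_nonneg h1] at h ⊢
      exact abs_of_nonneg (Real.sin_nonneg_of_nonneg_of_le_pi h1 (by linarith))
    · rw [abs_of_nonpos h1] at h ⊢
      rw [Real.sin_neg]
      exact abs_of_nonpos (Real.sin_nonpos_of_nonpos_of_neg_pi_le h1 (by linarith))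
  rw [h0, ← Real.cos_abs x]
  calc Real.sin |x| ≤ Real.sin (Real.pi / 4) :=
        Real.sin_le_sin_of_le_of_le_pi_div_two (by linarith [abs_nonneg x]) (by linarith) h
    _ = Real.cos (Real.pi / 4) := by rw [Real.sin_pi_div_four, Real.cos_pi_div_four]
    _ ≤ Real.cos |x| :=
        Real.cos_le_cos_of_nonneg_of_le_pi (abs_nonneg x) (by linarith) h

private theorem trig_T {x : ℝ} (h : |x - Real.pi / 2| ≤ Real.pi / 4) :
    |Real.cos x| ≤ Real.sin x := by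
  have h1 := trig h
  rwa [Real.sin_sub_pi_div_two, Real.cos_sub_pi_div_two, abs_neg] at h1

private theorem zre {z : ℂ} {k t : ℝ} (h : z = k * (ec t : ℂ)) :
    z.re = k * Real.cos (2 * Real.pi * t) := by
  rw [h, Complex.re_ofReal_mul, ec, Circle.coe_exp, Complex.exp_ofReal_mul_I_re]

private theorem zim {z : ℂ} {k t : ℝ} (h : z = k * (ec t : ℂ)) :
    z.im = k * Real.sin (2 * Real.pi * t) := by
  rw [h, Complex.im_ofReal_mul, ec, Circle.coe_exp, Complex.exp_ofReal_mul_I_im]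

theorem Fn.hole_curve (F : Fn Y H) {b : ℝ} (hb : 1 ≤ b) {g : ℝ × ℝ → Z}
    (hg : ContinuousOn g (Dom b)) (hm : ∀ x ∈ Dom b, g x ∈ Y) {z : ℝ → ℂ} (hz : Continuous z)
    (hz1 : ∀ t, ∃ k : ℝ, 0 < k ∧ z t = k * (ec t : ℂ)) (hz2 : ∀ t, b ≤ sq (z t))
    (hz3 : z 0 = z 1) :
    F.cv (fun t => g (at1 (z t).re, rho (z t).im)) 0 1 =
      F.sv g (at1 (z 0).re, rho (z 0).im) (1 / 2, 1 / 2) *
        ((F.cv (fun t => g (cT t)) 0 1)⁻¹ * F.cv (fun t => g (cB t)) 0 1) *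
          (F.sv g (at1 (z 0).re, rho (z 0).im) (1 / 2, 1 / 2))⁻¹ := by
  have hpi := Real.pi_pos
  have h1 := a_ge hb
  have h2 := at1_lt b
  have h3 := r_ge hb
  have h4 := rho_lt_one b
  have hc : Continuous fun t => (at1 (z t).re, rho (z t).im) :=
    (continuous_at1.comp (Complex.continuous_re.comp hz)).prodMk
      (continuous_rho.comp (Complex.continuous_im.comp hz))
  refine F.hole (a := at1 b) (r := rho b) (c := fun t => (at1 (z t).re, rho (z t).im))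
    (cT := cT) (cB := cB) (by linarith) h2 (by linarith) h4 hg hm hc.continuousOn
    continuous_cT.continuousOn continuous_cB.continuousOn ?_ ?_ ?_ ?_ ?_ ?_ ?_ ?_
    (fun t ht => cT_L hb ht) (fun t ht => cT_T ht) (fun t ht => cT_R hb ht) ?_ ?_
    (fun t ht => cB_L hb ht) (fun t ht => cB_B ht) (fun t ht => cB_R hb ht)
  · simp only [hz3]
  · intro t ht
    obtain ⟨k, hk, e⟩ := hz1 t
    refine reg_R (hz2 t) ?_
    rw [zre e, zim e, abs_mul, abs_of_pos hk]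
    refine mul_le_mul_of_nonneg_left (trig ?_) hk.le
    rw [abs_le]
    constructor <;> nlinarith [ht.1, ht.2]
  · intro t ht
    obtain ⟨k, hk, e⟩ := hz1 t
    refine reg_T (hz2 t) ?_
    rw [zre e, zim e, abs_mul, abs_of_pos hk]
    refine mul_le_mul_of_nonneg_left (trig_T ?_) hk.le
    rw [abs_le]
    constructor <;> nlinarith [ht.1, ht.2]
  · intro t ht
    obtain ⟨k, hk, e⟩ := hz1 t
    refine reg_L (hz2 t) ?_
    rw [zre e, zim e, abs_mul, abs_of_pos hk, ← mul_neg]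
    refine mul_le_mul_of_nonneg_left ?_ hk.le
    have h5 := trig (x := 2 * Real.pi * t - Real.pi) (by
      rw [abs_le]
      constructor <;> nlinarith [ht.1, ht.2])
    rwa [Real.sin_sub_pi, Real.cos_sub_pi, abs_neg] at h5
  · intro t ht
    obtain ⟨k, hk, e⟩ := hz1 t
    refine reg_B (hz2 t) ?_
    rw [zre e, zim e, abs_mul, abs_of_pos hk, ← mul_neg]
    refine mul_le_mul_of_nonneg_left ?_ hk.le
    have h5 := trig_T (x := 2 * Real.pi * t - Real.pi) (by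
      rw [abs_le]
      constructor <;> nlinarith [ht.1, ht.2])
    rwa [Real.sin_sub_pi, Real.cos_sub_pi, abs_neg] at h5
  · intro t ht
    obtain ⟨k, hk, e⟩ := hz1 t
    refine reg_R (hz2 t) ?_
    rw [zre e, zim e, abs_mul, abs_of_pos hk]
    refine mul_le_mul_of_nonneg_left ?_ hk.le
    have h5 := trig (x := 2 * Real.pi * t - 2 * Real.pi) (by
      rw [abs_le]
      constructor <;> nlinarith [ht.1, ht.2])
    rwa [Real.sin_sub_two_pi, Real.cos_sub_two_pi] at h5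
  · refine Prod.ext cS_zero ?_
    norm_num [cT]
  · refine Prod.ext cS_one ?_
    norm_num [cT]
  · refine Prod.ext cS_zero ?_
    simp [cB]
  · refine Prod.ext cS_one ?_
    simp [cB]

end Pool.Agent.EBS
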