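import Pool.Agent.EBS.G08
import Pool.Agent.EBS.G15

/-!
# G16: the curves in the second piece

`gU (s, r) = Th1 0 s r = J (ec s) (ec (2 s)) r`.
* `gU_mem`: for `x = (s, r) ∈ Dom √2`, `a = at1 √2 > 1/4`, `rho √2 > 3/4` (monotone): `Th1_mem_U2`:
  on
  `Rt a`, `s ∈ [a, 1 - a] ⊆ (1/4, 3/4)`, `re (ec s) < 0` (`re_ec_neg`); on `Lf a` the same for `s +
  1`
  (`ec (s + 1) = ec s`); on `Tp`, `Bt` `r > 3/4`, `r < 1/4` (`rho (√2) > 3/4`, `0 ≤ r ≤ 1`).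
* `cv_cT_U`, `cv_cB_U`: `cT_mem`, `cB_mem`, `gU_mem`, `norm_J2`, `cT_snd`, `cB_snd`.
* `gU_cT_zero` etc.: `cT 0 = (-1/2, 1/2)`, `cT 1 = (1/2, 1/2)` and `Th1 0 (s + 1) r = Th1 0 s r`
  (`Th1_add_int`). The same for `cB`.
* `deg_cT_U`: `cu (gU (cT t)).2 = ec (2 * cS t)` (`cu_J2`), lift `2 * cS t`, from `-1` to `1`.
  `deg_cB_U`: `cu (gU (cB t)).1 = ec (cS t)` (`cu_J1`).
* `cv_seg_U`: the points are `Th1 0 s (1/2)` with `s ∈ [at1 2, 1/2] ⊆ (1/4, 3/4)`; `V_inter`.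
* `m_U`: `Fn.hole_curve` with `b = √2`, `z t = 2 ec t`: `sq (z t) ≥ √2` since
  `4 = re² + im² ≤ 2 (sq)²`; `f1 (1, z) = gU (at1 (re z), rho (im z))` (`f1_ec`, `α = 0`,
  `ec_zero`);
  `z 0 = 2`, `rho 0 = 1/2`.
* `cv_h2`: `f1 (ec t, 2) = Th1 t (at1 2) (1/2)`, `V_inter`. The degrees: lifts `3 t + at1 2`,
  `5 t + 2 at1 2`.
* `cv_m`, `cv_h2'`: `sq (2 ec t) ≥ √2 > 1`, `sq 2 = 2`.
-/

set_option autoImplicit false

noncomputable section

open Set Topology unitInterval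

namespace Pool.Agent.EBS

def gU (x : ℝ × ℝ) : S3 := Th1 0 x.1 x.2

theorem continuous_gU : Continuous gU := by
  exact continuous_J.comp ((continuous_ec.comp (by fun_prop)).prodMk
    ((continuous_ec.comp (by fun_prop)).prodMk continuous_snd))

private theorem g16_sqrt : 1 < √2 := by
  rw [Real.lt_sqrt zero_le_one]
  norm_num

private theorem g16_a : 1 / 4 < at1 √2 := by
  rw [← at1_one]
  exact at1_strictMono g16_sqrt

private theorem g16_r : 3 / 4 < rho √2 := by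
  rw [← rho_one]
  exact rho_strictMono g16_sqrt

theorem gU_mem {x : ℝ × ℝ} (h : x ∈ Dom √2) : gU x ∈ U2 := by
  have ha := g16_a
  have hr := g16_r
  have hr1 := rho_lt_one √2
  obtain ⟨s, r⟩ := x
  change Th1 0 s r ∈ U2
  rcases h with ((⟨h1, h2⟩ | ⟨h1, h2⟩) | ⟨h1, h2⟩) | ⟨h1, h2⟩
  · refine (Th1_mem_U2 h2.1 h2.2).2 fun h => absurd h.2.2 (not_le.2 (re_ec_neg ⟨?_, ?_⟩))
    · have : at1 √2 ≤ s := h1.1
      linarith
    · have : s ≤ 1 - at1 √2 := h1.2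
      linarith
  · refine (Th1_mem_U2 h2.1 h2.2).2 fun h => absurd h.2.2 (not_le.2 ?_)
    have he : ec s = ec (s + 1) := ec_eq_iff.2 ⟨-1, by push_cast; ring⟩
    rw [he]
    have h3 : at1 √2 - 1 ≤ s := h1.1
    have h4 : s ≤ -at1 √2 := h1.2
    exact re_ec_neg ⟨by linarith, by linarith⟩
  · have h3 : rho √2 ≤ r := h2.1
    have h4 : r ≤ 1 := h2.2
    exact (Th1_mem_U2 (by linarith) h4).2 fun h => by linarith [h.2.1]
  · have h3 : 0 ≤ r := h2.1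
    have h4 : r ≤ 1 - rho √2 := h2.2
    exact (Th1_mem_U2 h3 (by linarith)).2 fun h => by linarith [h.1]

theorem cv_cT_U : Cv V2 (fun t => gU (cT t)) 0 1 := by
  refine ⟨zero_le_one, (continuous_gU.comp continuous_cT).continuousOn, fun t ht => ?_⟩
  have h1 := cT_snd ht
  refine ⟨gU_mem (cT_mem g16_sqrt.le ht), ?_⟩
  have h2 : ‖(gU (cT t) : ℂ × ℂ).2‖ ^ 2 = (cT t).2 := norm_J2 _ _ (by linarith [h1.1]) h1.2
  rw [h2]
  linarith [h1.1]

theorem cv_cB_U : Cv V1 (fun t => gU (cB t)) 0 1 := by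
  refine ⟨zero_le_one, (continuous_gU.comp continuous_cB).continuousOn, fun t ht => ?_⟩
  have h1 := cB_snd ht
  refine ⟨gU_mem (cB_mem g16_sqrt.le ht), ?_⟩
  have h2 : ‖(gU (cB t) : ℂ × ℂ).2‖ ^ 2 = (cB t).2 := norm_J2 _ _ h1.1 (by linarith [h1.2])
  rw [h2]
  linarith [h1.2]

private theorem g16_shift : gU (-1 / 2, 1 / 2) = gU (1 / 2, 1 / 2) := by
  have h := Th1_add_int 0 (-1 / 2) (1 / 2) 1
  have e : (-1 / 2 : ℝ) + ((1 : ℤ) : ℝ) = 1 / 2 := by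
    push_cast
    norm_num
  rw [e] at h
  exact h.symm

theorem gU_cT_zero : gU (cT 0) = gU (1 / 2, 1 / 2) := by
  have h : cT 0 = (-1 / 2, 1 / 2) := by
    rw [cT, cS_zero]
    norm_num
  rw [h, g16_shift]

theorem gU_cT_one : gU (cT 1) = gU (1 / 2, 1 / 2) := by
  have h : cT 1 = (1 / 2, 1 / 2) := by
    rw [cT, cS_one]
    norm_num
  rw [h]

theorem gU_cB_zero : gU (cB 0) = gU (1 / 2, 1 / 2) := by
  have h : cB 0 = (-1 / 2, 1 / 2) := by
    rw [cB, cS_zero]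
    norm_num
  rw [h, g16_shift]

theorem gU_cB_one : gU (cB 1) = gU (1 / 2, 1 / 2) := by
  have h : cB 1 = (1 / 2, 1 / 2) := by
    rw [cB, cS_one]
    norm_num
  rw [h]

private theorem g16_cS : Continuous cS := continuous_fst.comp continuous_cT

theorem deg_cT_U : Deg (fun t => cu (gU (cT t) : ℂ × ℂ).2) 0 1 2 := by
  refine ⟨fun t => 2 * cS t, (continuous_const.mul g16_cS).continuousOn, fun t ht => ?_, ?_⟩
  · have h1 := cT_snd ht
    have h2 : cu (gU (cT t) : ℂ × ℂ).2 = ec (5 * 0 + 2 * cS t) :=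
      cu_J2 _ _ (by linarith [h1.1]) h1.2
    change ec (2 * cS t) = cu (gU (cT t) : ℂ × ℂ).2
    rw [h2, mul_zero, zero_add]
  · change 2 * cS 1 - 2 * cS 0 = _
    rw [cS_zero, cS_one]
    norm_num

theorem deg_cB_U : Deg (fun t => cu (gU (cB t) : ℂ × ℂ).1) 0 1 1 := by
  refine ⟨cS, g16_cS.continuousOn, fun t ht => ?_, ?_⟩
  · have h1 := cB_snd ht
    have h2 : cu (gU (cB t) : ℂ × ℂ).1 = ec (3 * 0 + cS t) :=
      cu_J1 _ _ h1.1 (by linarith [h1.2])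
    change ec (cS t) = cu (gU (cB t) : ℂ × ℂ).1
    rw [h2, mul_zero, zero_add]
  · rw [cS_zero, cS_one]
    norm_num

private theorem g16_f1 (α : ℝ) : f1 (ec α, 2) = Th1 α (at1 2) (1 / 2) := by
  rw [f1_ec]
  have h1 : (2 : ℂ).re = 2 := rfl
  have h2 : (2 : ℂ).im = 0 := rfl
  rw [h1, h2, rho_zero]

theorem gU_start : gU (at1 2, 1 / 2) = f1 (1, 2) := by
  rw [← ec_zero, g16_f1]
  rfl

private theorem g16_at2 : 1 / 4 < at1 2 := by
  rw [← at1_one]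
  exact at1_strictMono one_lt_two

theorem cv_seg_U : Cv (V1 ∩ V2)
    (fun t => gU (AffineMap.lineMap (at1 2, 1 / 2) (1 / 2, 1 / 2) t)) 0 1 := by
  refine ⟨zero_le_one, (continuous_gU.comp AffineMap.lineMap_continuous).continuousOn,
    fun t ht => ?_⟩
  have h1 := g16_at2
  have h2 := at1_lt 2
  have he : AffineMap.lineMap (k := ℝ) ((at1 2, 1 / 2) : ℝ × ℝ) (1 / 2, 1 / 2) t =
      (t * (1 / 2 - at1 2) + at1 2, 1 / 2) := by
    rw [AffineMap.lineMap_apply]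
    ext
    · simp
    · simp
  rw [he, V_inter]
  refine ⟨(0, t * (1 / 2 - at1 2) + at1 2, 1 / 2), ⟨⟨?_, ?_⟩, ⟨?_, ?_⟩⟩, rfl⟩
  · have := mul_nonneg ht.1 (by linarith : (0 : ℝ) ≤ 1 / 2 - at1 2)
    change 1 / 4 < t * (1 / 2 - at1 2) + at1 2
    linarith
  · have := mul_le_mul_of_nonneg_right ht.2 (by linarith : (0 : ℝ) ≤ 1 / 2 - at1 2)
    change t * (1 / 2 - at1 2) + at1 2 < 3 / 4
    linarith
  · norm_num
  · norm_num

private theorem g16_sq (t : ℝ) : √2 ≤ sq (2 * (ec t : ℂ)) := by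
  have h1 : (2 * (ec t : ℂ)).re ^ 2 + (2 * (ec t : ℂ)).im ^ 2 = 4 := by
    have h2 : Complex.normSq (2 * (ec t : ℂ)) = 4 := by
      rw [Complex.normSq_eq_norm_sq, norm_mul, Circle.norm_coe]
      norm_num
    rw [Complex.normSq_apply] at h2
    rw [pow_two, pow_two]
    exact h2
  have h3 : |(2 * (ec t : ℂ)).re| ≤ sq (2 * (ec t : ℂ)) := le_max_left _ _
  have h4 : |(2 * (ec t : ℂ)).im| ≤ sq (2 * (ec t : ℂ)) := le_max_right _ _
  have h5 : 0 ≤ sq (2 * (ec t : ℂ)) := (abs_nonneg _).trans h3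
  have h6 : (2 * (ec t : ℂ)).re ^ 2 ≤ sq (2 * (ec t : ℂ)) ^ 2 := by
    rw [← sq_abs (2 * (ec t : ℂ)).re]
    exact pow_le_pow_left₀ (abs_nonneg _) h3 2
  have h7 : (2 * (ec t : ℂ)).im ^ 2 ≤ sq (2 * (ec t : ℂ)) ^ 2 := by
    rw [← sq_abs (2 * (ec t : ℂ)).im]
    exact pow_le_pow_left₀ (abs_nonneg _) h4 2
  rw [Real.sqrt_le_left h5]
  linarith

theorem cv_m : Cv T2 (fun t => ((1, 2 * (ec t : ℂ)) : Circle × ℂ)) 0 1 := by
  refine ⟨zero_le_one, Continuous.continuousOn ?_, fun t _ => ?_⟩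
  · exact continuous_const.prodMk (continuous_const.mul
      (continuous_subtype_val.comp continuous_ec))
  · exact g16_sqrt.trans_le (g16_sq t)

private theorem g16_sq2 : sq 2 = 2 := by
  have h1 : (2 : ℂ).re = 2 := rfl
  have h2 : (2 : ℂ).im = 0 := rfl
  rw [sq, h1, h2]
  norm_num

theorem cv_h : Cv T2 (fun t => ((ec t, 2) : Circle × ℂ)) 0 1 := by
  refine ⟨zero_le_one, (continuous_ec.prodMk continuous_const).continuousOn, fun t _ => ?_⟩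
  change 1 < sq 2
  rw [g16_sq2]
  norm_num

theorem cv_h2 : Cv (V1 ∩ V2) (fun t => f1 (ec t, 2)) 0 1 := by
  refine ⟨zero_le_one, (continuous_f1.comp
    (continuous_ec.prodMk continuous_const)).continuousOn, fun t _ => ?_⟩
  rw [V_inter, g16_f1]
  refine ⟨(t, at1 2, 1 / 2), ⟨⟨g16_at2, ?_⟩, ⟨?_, ?_⟩⟩, rfl⟩
  · have := at1_lt 2
    change at1 2 < 3 / 4
    linarith
  · norm_num
  · norm_num

theorem deg_h2 : Deg (fun t => cu (f1 (ec t, 2) : ℂ × ℂ).1) 0 1 3 ∧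
    Deg (fun t => cu (f1 (ec t, 2) : ℂ × ℂ).2) 0 1 5 := by
  constructor
  · refine (Deg.ec 3 (at1 2)).congr fun t _ => ?_
    have h : cu (f1 (ec t, 2) : ℂ × ℂ).1 = ec (3 * t + at1 2) := by
      rw [g16_f1]
      exact cu_J1 _ _ (by norm_num) (by norm_num)
    change ec (((3 : ℤ) : ℝ) * t + at1 2) = cu (f1 (ec t, 2) : ℂ × ℂ).1
    rw [h]
    norm_num
  · refine (Deg.ec 5 (2 * at1 2)).congr fun t _ => ?_
    have h : cu (f1 (ec t, 2) : ℂ × ℂ).2 = ec (5 * t + 2 * at1 2) := by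
      rw [g16_f1]
      exact cu_J2 _ _ (by norm_num) (by norm_num)
    change ec (((5 : ℤ) : ℝ) * t + 2 * at1 2) = cu (f1 (ec t, 2) : ℂ × ℂ).2
    rw [h]
    norm_num

theorem m_U {H : Type} [Group H] (F : Fn U2 H) : F.cv (fun t => f1 (1, 2 * (ec t : ℂ))) 0 1 =
    F.sv gU (at1 2, 1 / 2) (1 / 2, 1 / 2) *
      ((F.cv (fun t => gU (cT t)) 0 1)⁻¹ * F.cv (fun t => gU (cB t)) 0 1) *
        (F.sv gU (at1 2, 1 / 2) (1 / 2, 1 / 2))⁻¹ := by
  have h := F.hole_curve (b := √2) g16_sqrt.le (g := gU) continuous_gU.continuousOn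
    (fun x hx => gU_mem hx) (z := fun t => 2 * (ec t : ℂ))
    (continuous_const.mul (continuous_subtype_val.comp continuous_ec))
    (fun t => ⟨2, two_pos, by push_cast; rfl⟩) g16_sq (by simp only [ec_zero, ec_one])
  have e0 : (2 * (ec 0 : ℂ)) = 2 := by
    rw [ec_zero]
    simp
  have e1 : (fun t => gU (at1 (2 * (ec t : ℂ)).re, rho (2 * (ec t : ℂ)).im)) =
      fun t => f1 (1, 2 * (ec t : ℂ)) := by
    funext t
    rw [← ec_zero, f1_ec]
    rfl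
  have h1 : (2 : ℂ).re = 2 := rfl
  have h2 : (2 : ℂ).im = 0 := rfl
  simp only [e0, h1, h2, rho_zero] at h
  rw [← e1]
  exact h

end Pool.Agent.EBS
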