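import Pool.Agent.EBS.G08
import Pool.Agent.EBS.G15

/-!
# G17: the curves in the first piece

`gW (s, r) = Th2 0 s r = (ec s, r * ec (13 s))`.
* `gW_mem`: for `x = (s, r) ∈ Dom 1`, `at1 1 = 1/4`, `rho 1 = 3/4`: `Th2_mem_W1`: on `Rt`,
  `s ∈ [1/4, 3/4]`, `re (ec s) ≤ 0` (`re_ec_nonpos`); on `Lf` the same for `s + 1`; on `Tp`, `Bt`
  `r ≥ 3/4`, `0 ≤ r ≤ 1/4`.
* `cv_cT_W`, `cv_cB_W`: `cT_mem`, `cB_mem`, `gW_mem`, `norm_Th2`, `cT_snd`, `cB_snd`.
* `gW_cT_zero` etc.: `cT 0 = (-1/2, 1/2)`, `cT 1 = (1/2, 1/2)` and `Th2 0 (s + 1) r = Th2 0 s r`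
  (`Th2_add_int`). The same for `cB`.
* the degrees: `(gW (cT t)).1 = ec (cS t)`, `cu (gW (cT t)).2 = ec (13 * cS t)` (`cu_mul`), lifts
  `cS t`, `13 * cS t`; `cS` goes from `-1/2` to `1/2`.
* `cv_seg_W`: the points are `Th2 0 s (1/2)` with `s ∈ [1/4, 1/2]`; `IO_inter`.
* `ka_ec_one`: `ka_ec` for `ζ = 1`, `at1 1 = 1/4`, `rho 0 = 1/2`.
* `mu_W`: `Fn.hole_curve` with `b = 1`, `z t = rad (ec t)`: `sq (z t) = 1` (`sq_rad`);
  `ka (1, z) = gW (at1 (re z), rho (im z))` (`ka_ec`, `α = 0`, `ec_zero`); `z 0 = rad 1 = 1`.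
* `h1_W`: the square lemma `Fn.square` for `h s t = Th2 t ((1 - s) / 4 + s / 2) (1/2)` on
  `[0, 1] × [0, 1]`; the bottom and the top (`t = 0, 1`) are the segment (`Th2 1 s r = Th2 0 s r`),
  the left side is `ka (ec t, 1)`, the right side is `Th2 t (1/2) (1/2)`.
-/

set_option autoImplicit false

noncomputable section

open Set Topology unitInterval

namespace Pool.Agent.EBS

def gW (x : ℝ × ℝ) : Circle × ℂ := Th2 0 x.1 x.2

private theorem continuous_Th2 : Continuous fun x : ℝ × ℝ × ℝ => Th2 x.1 x.2.1 x.2.2 := by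
  have h1 : Continuous fun x : ℝ × ℝ × ℝ => ec (3 * x.1 + x.2.1) :=
    continuous_ec.comp (by fun_prop)
  have h2 : Continuous fun x : ℝ × ℝ × ℝ => ((ec (38 * x.1 + 13 * x.2.1) : Circle) : ℂ) :=
    (continuous_subtype_val (p := fun z => z ∈ Submonoid.unitSphere ℂ)).comp
      (continuous_ec.comp (by fun_prop))
  exact h1.prodMk ((Complex.continuous_ofReal.comp (by fun_prop)).mul h2)

private theorem Th2_one (s r : ℝ) : Th2 1 s r = Th2 0 s r := by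
  have e1 : ec (3 * 1 + s) = ec (3 * 0 + s) := ec_eq_iff.2 ⟨3, by push_cast; ring⟩
  have e2 : ec (38 * 1 + 13 * s) = ec (38 * 0 + 13 * s) := ec_eq_iff.2 ⟨38, by push_cast; ring⟩
  rw [Th2, Th2, e1, e2]

private theorem gW_neg : gW (-1 / 2, 1 / 2) = gW (1 / 2, 1 / 2) := by
  have h := Th2_add_int 0 (-1 / 2) (1 / 2) 1
  have e : (-1 / 2 : ℝ) + ((1 : ℤ) : ℝ) = 1 / 2 := by norm_num
  rw [e] at h
  exact h.symm

private theorem gW_line (t : ℝ) : gW (AffineMap.lineMap (1 / 4, 1 / 2) (1 / 2, 1 / 2) t) =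
    Th2 0 ((1 - t) / 4 + t / 2) (1 / 2) := by
  have e : (AffineMap.lineMap ((1 / 4 : ℝ), (1 / 2 : ℝ)) ((1 / 2 : ℝ), (1 / 2 : ℝ)) t : ℝ × ℝ) =
      ((1 - t) / 4 + t / 2, 1 / 2) := by
    rw [AffineMap.lineMap_apply_module']
    refine Prod.ext ?_ ?_
    · change t * (1 / 2 - 1 / 4) + 1 / 4 = (1 - t) / 4 + t / 2
      ring
    · change t * (1 / 2 - 1 / 2) + 1 / 2 = (1 / 2 : ℝ)
      ring
  rw [e]
  rfl

theorem continuous_gW : Continuous gW := by
  have h1 : Continuous fun x : ℝ × ℝ => ec (3 * 0 + x.1) := continuous_ec.comp (by fun_prop)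
  have h2 : Continuous fun x : ℝ × ℝ => ((ec (38 * 0 + 13 * x.1) : Circle) : ℂ) :=
    (continuous_subtype_val (p := fun z => z ∈ Submonoid.unitSphere ℂ)).comp
      (continuous_ec.comp (by fun_prop))
  exact h1.prodMk ((Complex.continuous_ofReal.comp continuous_snd).mul h2)

theorem gW_mem {x : ℝ × ℝ} (h : x ∈ Dom 1) : gW x ∈ W1 := by
  rcases h with ((h | h) | h) | h
  · rw [Rt, at1_one] at h
    refine (Th2_mem_W1 h.2.1).2 fun h' => absurd h'.2.2 (not_lt.2 (re_ec_nonpos ⟨h.1.1, ?_⟩))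
    linarith [h.1.2]
  · rw [Lf, at1_one] at h
    have e : ec x.1 = ec (x.1 + 1) := ec_eq_iff.2 ⟨-1, by push_cast; ring⟩
    refine (Th2_mem_W1 h.2.1).2 fun h' => absurd h'.2.2 (not_lt.2 ?_)
    rw [e]
    exact re_ec_nonpos ⟨by linarith [h.1.1], by linarith [h.1.2]⟩
  · rw [Tp, rho_one] at h
    have h0 : 0 ≤ x.2 := le_trans (by norm_num) h.2.1
    exact (Th2_mem_W1 h0).2 fun h' => absurd h'.2.1 (not_lt.2 h.2.1)
  · rw [Bt, rho_one] at h
    exact (Th2_mem_W1 h.2.1).2 fun h' => absurd h'.1 (not_lt.2 (by linarith [h.2.2]))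

theorem cv_cT_W : Cv OutS (fun t => gW (cT t)) 0 1 := by
  refine ⟨zero_le_one, (continuous_gW.comp continuous_cT).continuousOn, fun t ht => ?_⟩
  have h1 := (cT_snd ht).1
  refine ⟨gW_mem (cT_mem le_rfl ht), ?_⟩
  change 1 / 4 < ‖(Th2 0 (cT t).1 (cT t).2).2‖
  rw [norm_Th2 0 _ (by linarith)]
  linarith

theorem cv_cB_W : Cv InS (fun t => gW (cB t)) 0 1 := by
  refine ⟨zero_le_one, (continuous_gW.comp continuous_cB).continuousOn, fun t ht => ?_⟩
  have h1 := cB_snd ht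
  refine ⟨gW_mem (cB_mem le_rfl ht), ?_⟩
  change ‖(Th2 0 (cB t).1 (cB t).2).2‖ < 3 / 4
  rw [norm_Th2 0 _ h1.1]
  linarith [h1.2]

theorem gW_cT_zero : gW (cT 0) = gW (1 / 2, 1 / 2) := by
  have h1 : cT 0 = (-1 / 2, 1 / 2) := by
    refine Prod.ext cS_zero ?_
    change min 1 (1 / 2 + 4 * min 0 (1 - 0)) = (1 / 2 : ℝ)
    norm_num
  rw [h1]
  exact gW_neg

theorem gW_cT_one : gW (cT 1) = gW (1 / 2, 1 / 2) := by
  have h1 : cT 1 = (1 / 2, 1 / 2) := by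
    refine Prod.ext cS_one ?_
    change min 1 (1 / 2 + 4 * min 1 (1 - 1)) = (1 / 2 : ℝ)
    norm_num
  rw [h1]

theorem gW_cB_zero : gW (cB 0) = gW (1 / 2, 1 / 2) := by
  have h1 : cB 0 = (-1 / 2, 1 / 2) := by
    refine Prod.ext cS_zero ?_
    change max 0 (1 / 2 - 4 * min 0 (1 - 0)) = (1 / 2 : ℝ)
    norm_num
  rw [h1]
  exact gW_neg

theorem gW_cB_one : gW (cB 1) = gW (1 / 2, 1 / 2) := by
  have h1 : cB 1 = (1 / 2, 1 / 2) := by
    refine Prod.ext cS_one ?_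
    change max 0 (1 / 2 - 4 * min 1 (1 - 1)) = (1 / 2 : ℝ)
    norm_num
  rw [h1]

theorem deg_cT_W : Deg (fun t => (gW (cT t)).1) 0 1 1 ∧
    Deg (fun t => cu (gW (cT t)).2) 0 1 13 := by
  constructor
  · refine ⟨fun t => (cT t).1, (continuous_fst.comp continuous_cT).continuousOn, fun t _ => ?_, ?_⟩
    · change ec (cT t).1 = ec (3 * 0 + (cT t).1)
      congr 1
      ring
    · change cS 1 - cS 0 = _
      rw [cS_zero, cS_one]
      norm_num
  · refine ⟨fun t => 38 * 0 + 13 * (cT t).1, ?_, fun t ht => ?_, ?_⟩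
    · exact (continuous_const.add
        (continuous_const.mul (continuous_fst.comp continuous_cT))).continuousOn
    · have h1 := (cT_snd ht).1
      exact (cu_mul (by linarith) _).symm
    · change (38 * 0 + 13 * cS 1) - (38 * 0 + 13 * cS 0) = _
      rw [cS_zero, cS_one]
      norm_num

theorem deg_cB_W : Deg (fun t => (gW (cB t)).1) 0 1 1 := by
  refine ⟨fun t => (cB t).1, (continuous_fst.comp continuous_cB).continuousOn, fun t _ => ?_, ?_⟩
  · change ec (cB t).1 = ec (3 * 0 + (cB t).1)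
    congr 1
    ring
  · change cS 1 - cS 0 = _
    rw [cS_zero, cS_one]
    norm_num

theorem ka_ec_one (t : ℝ) : ka (ec t, 1) = Th2 t (1 / 4) (1 / 2) := by
  rw [ka_ec, Complex.one_re, Complex.one_im, at1_one, rho_zero]

theorem gW_start : gW (1 / 4, 1 / 2) = ka (1, 1) := by
  have h := ka_ec_one 0
  rw [ec_zero] at h
  exact h.symm

theorem cv_seg_W : Cv (InS ∩ OutS)
    (fun t => gW (AffineMap.lineMap (1 / 4, 1 / 2) (1 / 2, 1 / 2) t)) 0 1 := by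
  refine ⟨zero_le_one, (continuous_gW.comp (by fun_prop)).continuousOn, fun t ht => ?_⟩
  rw [gW_line, IO_inter]
  exact ⟨(0, (1 - t) / 4 + t / 2, 1 / 2), ⟨⟨by linarith [ht.1], by linarith [ht.2]⟩, by norm_num⟩,
    rfl⟩

theorem cv_mu : Cv W1 (fun t => ka (1, rad (ec t))) 0 1 := by
  refine ⟨zero_le_one, (continuous_ka.comp (continuous_const.prodMk
    (continuous_rad_circle.comp continuous_ec))).continuousOn, fun t _ => ka_mem_W1.2 ?_⟩
  change 1 ≤ sq (rad (ec t))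
  rw [sq_rad (Circle.coe_ne_zero _)]

theorem cv_h1 : Cv (InS ∩ OutS) (fun t => ka (ec t, 1)) 0 1 := by
  refine ⟨zero_le_one, (continuous_ka.comp
    (continuous_ec.prodMk continuous_const)).continuousOn, fun t _ => ?_⟩
  rw [IO_inter]
  exact ⟨(t, 1 / 4, 1 / 2), ⟨by norm_num, by norm_num⟩, (ka_ec_one t).symm⟩

theorem deg_h1 : Deg (fun t => (ka (ec t, 1)).1) 0 1 3 ∧
    Deg (fun t => cu (ka (ec t, 1)).2) 0 1 38 := by
  constructor
  · refine (Deg.ec 3 (1 / 4)).congr fun t _ => ?_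
    change ec ((3 : ℤ) * t + 1 / 4) = (ka (ec t, 1)).1
    rw [ka_ec_one]
    rfl
  · refine (Deg.ec 38 (13 * (1 / 4))).congr fun t _ => ?_
    change ec ((38 : ℤ) * t + 13 * (1 / 4)) = cu (ka (ec t, 1)).2
    rw [ka_ec_one]
    exact (cu_mul (by norm_num) _).symm

theorem cv_h1' : Cv (InS ∩ OutS) (fun t => Th2 t (1 / 2) (1 / 2)) 0 1 := by
  refine ⟨zero_le_one, (continuous_Th2.comp (by fun_prop :
    Continuous fun t : ℝ => (t, ((1 / 2 : ℝ), (1 / 2 : ℝ))))).continuousOn, fun t _ => ?_⟩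
  rw [IO_inter]
  exact ⟨(t, 1 / 2, 1 / 2), ⟨by norm_num, by norm_num⟩, rfl⟩

theorem deg_h1' : Deg (fun t => (Th2 t (1 / 2) (1 / 2)).1) 0 1 3 ∧
    Deg (fun t => cu (Th2 t (1 / 2) (1 / 2)).2) 0 1 38 := by
  constructor
  · exact Deg.ec 3 (1 / 2)
  · refine (Deg.ec 38 (13 * (1 / 2))).congr fun t _ => ?_
    exact (cu_mul (by norm_num) _).symm

theorem mu_W {H : Type} [Group H] (F : Fn W1 H) : F.cv (fun t => ka (1, rad (ec t))) 0 1 =
    F.sv gW (1 / 4, 1 / 2) (1 / 2, 1 / 2) *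
      ((F.cv (fun t => gW (cT t)) 0 1)⁻¹ * F.cv (fun t => gW (cB t)) 0 1) *
        (F.sv gW (1 / 4, 1 / 2) (1 / 2, 1 / 2))⁻¹ := by
  have hz : Continuous fun t : ℝ => rad (ec t) := continuous_rad_circle.comp continuous_ec
  have hz0 : rad ((ec 0 : Circle) : ℂ) = 1 := by
    rw [ec_zero, Circle.coe_one, rad]
    have h1 : sq 1 = 1 := by
      rw [sq, Complex.one_re, Complex.one_im]
      norm_num
    rw [h1]
    norm_num
  have h := F.hole_curve (b := 1) le_rfl (g := gW) continuous_gW.continuousOn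
    (fun x hx => gW_mem hx) (z := fun t => rad (ec t)) hz
    (fun t => ⟨(sq (ec t))⁻¹, inv_pos.2 (sq_pos (Circle.coe_ne_zero _)), rfl⟩)
    (fun t => (sq_rad (Circle.coe_ne_zero _)).ge) (by rw [ec_zero, ec_one])
  beta_reduce at h
  rw [hz0, Complex.one_re, Complex.one_im, at1_one, rho_zero] at h
  rw [← h]
  refine F.cv_congr fun t _ => ?_
  have h1 := ka_ec 0 (rad (ec t))
  rw [ec_zero] at h1
  exact h1

theorem h1_W {H : Type} [Group H] (F : Fn W1 H) : F.cv (fun t => ka (ec t, 1)) 0 1 =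
    F.sv gW (1 / 4, 1 / 2) (1 / 2, 1 / 2) * F.cv (fun t => Th2 t (1 / 2) (1 / 2)) 0 1 *
      (F.sv gW (1 / 4, 1 / 2) (1 / 2, 1 / 2))⁻¹ := by
  have hc : Continuous fun x : ℝ × ℝ => Th2 x.2 ((1 - x.1) / 4 + x.1 / 2) (1 / 2) :=
    continuous_Th2.comp (by fun_prop : Continuous fun x : ℝ × ℝ =>
      (x.2, ((1 - x.1) / 4 + x.1 / 2, (1 / 2 : ℝ))))
  have h := F.square (a := 0) (b := 1) (u := 0) (v := 1) zero_le_one zero_le_one
    (fun s t => Th2 t ((1 - s) / 4 + s / 2) (1 / 2)) hc.continuousOn fun s hs t _ =>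
      (Th2_mem_W1 (by norm_num)).2 fun h' => absurd h'.2.2
        (not_lt.2 (re_ec_nonpos ⟨by linarith [hs.1], by linarith [hs.2]⟩))
  beta_reduce at h
  have e1 : F.cv (fun s => Th2 0 ((1 - s) / 4 + s / 2) (1 / 2)) 0 1 =
      F.sv gW (1 / 4, 1 / 2) (1 / 2, 1 / 2) :=
    F.cv_congr fun s _ => (gW_line s).symm
  have e2 : F.cv (fun s => Th2 1 ((1 - s) / 4 + s / 2) (1 / 2)) 0 1 =
      F.sv gW (1 / 4, 1 / 2) (1 / 2, 1 / 2) :=
    F.cv_congr fun s _ => (Th2_one _ _).trans (gW_line s).symm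
  have e3 : F.cv (fun t => Th2 t ((1 - 1) / 4 + 1 / 2) (1 / 2)) 0 1 =
      F.cv (fun t => Th2 t (1 / 2) (1 / 2)) 0 1 :=
    F.cv_congr fun t _ => by norm_num
  have e4 : F.cv (fun t => Th2 t ((1 - 0) / 4 + 0 / 2) (1 / 2)) 0 1 =
      F.cv (fun t => ka (ec t, 1)) 0 1 :=
    F.cv_congr fun t _ => by
      rw [ka_ec_one]
      norm_num
  rw [e1, e2, e3, e4] at h
  rw [h, mul_inv_cancel_right]

end Pool.Agent.EBS
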