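import Pool.Agent.EBS.G11
import Pool.Agent.EBS.G12
import Pool.Agent.EBS.G16
import Pool.Agent.EBS.G17

/-!
# G20: the relations in commutative groups

* `U2_rel`: `g1`, `g2` are the values on the circles in `V1_value`, `V2_value` (applied to the
  restrictions `F.res` to `V1`, `V2`; `cv_res`). The curve `f1 (ec t, 2)` lies in `V1` and in `V2`
  (`cv_h2`), degrees `3`, `5` (`deg_h2`). By `m_U`, since `H` is commutative,
  `F(m) = F(cT)⁻¹ * F(cB)`, with `F(cT) = g2 ^ 2` (`cv_cT_U`, closed by `gU_cT_zero`, `gU_cT_one`,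
  `deg_cT_U`) and `F(cB) = g1` (`cv_cB_U`, `deg_cB_U`).
* `W1_rel`: `g0` is the value on the circle in `In_value`; the same with `Out_value`, `cv_h1`,
  `deg_h1`
  (the curve lies in `InS` and in `OutS`; it is closed: `ec 1 = ec 0`), `mu_W`, `deg_cT_W`,
  `deg_cB_W`.
-/

set_option autoImplicit false

noncomputable section

open Set Topology unitInterval

namespace Pool.Agent.EBS

variable {H : Type} [CommGroup H]

private theorem g20_k2 (X Y : Circle) : ((X, 2 * (Y : ℂ)) : Circle × ℂ) ∈ OutS := by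
  have e : ((X, 2 * (Y : ℂ)) : Circle × ℂ) = (X, ((2 : ℝ) : ℂ) * (Y : ℂ)) := by
    rw [Complex.ofReal_ofNat]
  rw [e]
  refine ⟨(mem_W1_iff (by norm_num)).2 fun h => ?_, ?_⟩
  · linarith [h.2.1]
  · show 1 / 4 < ‖((2 : ℝ) : ℂ) * (Y : ℂ)‖
    rw [norm_mul, Circle.norm_coe, mul_one, Complex.norm_real, Real.norm_of_nonneg (by norm_num)]
    norm_num

private theorem g20_coe : Continuous fun x : Circle => (x : ℂ) := continuous_subtype_val

private theorem g20_out1 : Cv OutS (fun t => ((ec t, 2) : Circle × ℂ)) 0 1 := by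
  refine ⟨zero_le_one, (continuous_ec.prodMk continuous_const).continuousOn, fun t _ => ?_⟩
  have h := g20_k2 (ec t) 1
  rwa [Circle.coe_one, mul_one] at h

private theorem g20_out2 : Cv OutS (fun t => ((1, 2 * (ec t : ℂ)) : Circle × ℂ)) 0 1 :=
  ⟨zero_le_one, (continuous_const.prodMk (continuous_const.mul
    (g20_coe.comp continuous_ec))).continuousOn, fun t _ => g20_k2 1 (ec t)⟩

theorem U2_rel (F : Fn U2 H) : ∃ g1 g2 : H,
    (∀ (c : ℝ → S3) (u v : ℝ), Cv V1 c u v → c u = c v → ∀ i : ℤ,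
      Deg (fun t => cu (c t : ℂ × ℂ).1) u v i → F.cv c u v = g1 ^ i) ∧
    (∀ (c : ℝ → S3) (u v : ℝ), Cv V2 c u v → c u = c v → ∀ i : ℤ,
      Deg (fun t => cu (c t : ℂ × ℂ).2) u v i → F.cv c u v = g2 ^ i) ∧
    F.cv (fun t => f1 (ec t, 2)) 0 1 = g1 ^ 3 ∧ F.cv (fun t => f1 (ec t, 2)) 0 1 = g2 ^ 5 ∧
    F.cv (fun t => f1 (1, 2 * (ec t : ℂ))) 0 1 = (g2 ^ 2)⁻¹ * g1 := by
  have hV1 : V1 ⊆ U2 := fun z hz => hz.1
  have hV2 : V2 ⊆ U2 := fun z hz => hz.1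
  have v1 : ∀ (c : ℝ → S3) (u v : ℝ), Cv V1 c u v → c u = c v → ∀ i : ℤ,
      Deg (fun t => cu (c t : ℂ × ℂ).1) u v i →
      F.cv c u v = ((F.res hV1).cv (fun t => J (ec t) 1 0) 0 1) ^ i := by
    intro c u v hc he i hi
    rw [← Fn.cv_res F hV1 hc]
    exact V1_value _ hc he hi
  have v2 : ∀ (c : ℝ → S3) (u v : ℝ), Cv V2 c u v → c u = c v → ∀ i : ℤ,
      Deg (fun t => cu (c t : ℂ × ℂ).2) u v i →
      F.cv c u v = ((F.res hV2).cv (fun t => J 1 (ec t) 1) 0 1) ^ i := by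
    intro c u v hc he i hi
    rw [← Fn.cv_res F hV2 hc]
    exact V2_value _ hc he hi
  refine ⟨_, _, v1, v2, ?_, ?_, ?_⟩
  · have h := v1 _ 0 1 ⟨cv_h2.le, cv_h2.cont, fun t ht => (cv_h2.mem t ht).1⟩
      (by show f1 (ec 0, 2) = f1 (ec 1, 2); rw [ec_zero, ec_one]) 3 deg_h2.1
    exact_mod_cast h
  · have h := v2 _ 0 1 ⟨cv_h2.le, cv_h2.cont, fun t ht => (cv_h2.mem t ht).2⟩
      (by show f1 (ec 0, 2) = f1 (ec 1, 2); rw [ec_zero, ec_one]) 5 deg_h2.2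
    exact_mod_cast h
  · have hT := v2 _ 0 1 cv_cT_U (gU_cT_zero.trans gU_cT_one.symm) 2 deg_cT_U
    have hB := v1 _ 0 1 cv_cB_U (gU_cB_zero.trans gU_cB_one.symm) 1 deg_cB_U
    rw [m_U F, hT, hB, zpow_one, mul_comm (F.sv gU (at1 2, 1 / 2) (1 / 2, 1 / 2)),
      mul_assoc, mul_inv_cancel, mul_one]
    norm_cast

theorem W1_rel (F : Fn W1 H) : ∃ g0 : H,
    (∀ (c : ℝ → Circle × ℂ) (u v : ℝ), Cv InS c u v → c u = c v → ∀ i : ℤ,
      Deg (fun t => (c t).1) u v i → F.cv c u v = g0 ^ i) ∧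
    (∀ (c : ℝ → Circle × ℂ) (u v : ℝ), Cv OutS c u v → c u = c v → ∀ i j : ℤ,
      Deg (fun t => (c t).1) u v i → Deg (fun t => cu (c t).2) u v j →
        F.cv c u v = (F.cv (fun t => (ec t, 2)) 0 1) ^ i *
          (F.cv (fun t => (1, 2 * (ec t : ℂ))) 0 1) ^ j) ∧
    F.cv (fun t => ka (ec t, 1)) 0 1 = g0 ^ 3 ∧
    F.cv (fun t => ka (ec t, 1)) 0 1 = (F.cv (fun t => (ec t, 2)) 0 1) ^ 3 *
      (F.cv (fun t => (1, 2 * (ec t : ℂ))) 0 1) ^ 38 ∧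
    F.cv (fun t => ka (1, rad (ec t))) 0 1 = (F.cv (fun t => (ec t, 2)) 0 1 *
      (F.cv (fun t => (1, 2 * (ec t : ℂ))) 0 1) ^ 13)⁻¹ * g0 := by
  have hI : InS ⊆ W1 := fun z hz => hz.1
  have hO : OutS ⊆ W1 := fun z hz => hz.1
  have v1 : ∀ (c : ℝ → Circle × ℂ) (u v : ℝ), Cv InS c u v → c u = c v → ∀ i : ℤ,
      Deg (fun t => (c t).1) u v i →
      F.cv c u v = ((F.res hI).cv (fun t => (ec t, 0)) 0 1) ^ i := by
    intro c u v hc he i hi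
    rw [← Fn.cv_res F hI hc]
    exact In_value _ hc he hi
  have v2 : ∀ (c : ℝ → Circle × ℂ) (u v : ℝ), Cv OutS c u v → c u = c v → ∀ i j : ℤ,
      Deg (fun t => (c t).1) u v i → Deg (fun t => cu (c t).2) u v j →
        F.cv c u v = (F.cv (fun t => (ec t, 2)) 0 1) ^ i *
          (F.cv (fun t => (1, 2 * (ec t : ℂ))) 0 1) ^ j := by
    intro c u v hc he i j hi hj
    rw [← Fn.cv_res F hO hc, Out_value _ hc he hi hj, Fn.cv_res F hO g20_out1,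
      Fn.cv_res F hO g20_out2]
  have hcl : ka (ec 0, 1) = ka (ec 1, 1) := by rw [ec_zero, ec_one]
  refine ⟨_, v1, v2, ?_, ?_, ?_⟩
  · have h := v1 _ 0 1 ⟨cv_h1.le, cv_h1.cont, fun t ht => (cv_h1.mem t ht).1⟩ hcl 3 deg_h1.1
    exact_mod_cast h
  · have h := v2 _ 0 1 ⟨cv_h1.le, cv_h1.cont, fun t ht => (cv_h1.mem t ht).2⟩ hcl 3 38
      deg_h1.1 deg_h1.2
    exact_mod_cast h
  · have hT := v2 _ 0 1 cv_cT_W (gW_cT_zero.trans gW_cT_one.symm) 1 13 deg_cT_W.1 deg_cT_W.2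
    have hB := v1 _ 0 1 cv_cB_W (gW_cB_zero.trans gW_cB_one.symm) 1 deg_cB_W
    rw [zpow_one] at hT
    rw [mu_W F, hT, hB, zpow_one, mul_comm (F.sv gW (1 / 4, 1 / 2) (1 / 2, 1 / 2)),
      mul_assoc, mul_inv_cancel, mul_one]
    norm_cast

end Pool.Agent.EBS
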