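import Pool.Agent.EBS.G08

/-!
# G21: the homeomorphism `W1 → U1`

* `exists_W1_curve`: `f1` is an open embedding (`isOpenEmbedding_f1`) and `U1 = f1 '' W1`; the
  inverse
  map `g` (`Function.invFun f1`, or the inverse of `isOpenEmbedding_f1.toOpenPartialHomeomorph`) is
  continuous on `range f1`; `c' = g ∘ c`.
* `U1_pull`: `F' = F.comap r` with `r : C(W1, U1)`, `r p = f1 p` (`Fn.comap`, `cv_comap`).
* `U1_push`: `F = F'.comap r` with `r : C(U1, W1)` the inverse map. (Injectivity: for `z = f1 p ∈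
  U1`,
  `p ∈ W1`.)
-/

set_option autoImplicit false

noncomputable section

open Set Topology unitInterval

namespace Pool.Agent.EBS

theorem f1_cv {W : Set (Circle × ℂ)} {c : ℝ → Circle × ℂ} {u v : ℝ} (hc : Cv W c u v) :
    Cv (f1 '' W) (fun t => f1 (c t)) u v :=
  ⟨hc.le, isOpenEmbedding_f1.continuous.comp_continuousOn hc.cont,
    fun t ht => ⟨c t, hc.mem t ht, rfl⟩⟩

theorem exists_W1_curve {W : Set (Circle × ℂ)} {c : ℝ → S3} {u v : ℝ}
    (hc : Cv (f1 '' W) c u v) : ∃ c' : ℝ → Circle × ℂ, Cv W c' u v ∧ ∀ t ∈ Icc u v,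
      f1 (c' t) = c t := by
  have h1 := hc.mem
  choose! c' hW hf using h1
  refine ⟨c', ⟨hc.le, ?_, hW⟩, hf⟩
  rw [isOpenEmbedding_f1.isInducing.continuousOn_iff]
  exact hc.cont.congr hf

theorem U1_pull {H : Type} [Group H] (F : Fn U1 H) : ∃ F' : Fn W1 H,
    ∀ (c : ℝ → Circle × ℂ) (u v : ℝ), Cv W1 c u v → F'.cv c u v = F.cv (fun t => f1 (c t)) u v := by
  let r : C(W1, U1) := ⟨fun p => ⟨f1 p, p, p.2, rfl⟩,
    (isOpenEmbedding_f1.continuous.comp continuous_subtype_val).subtype_mk _⟩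
  exact ⟨F.comap r, fun c u v h => F.cv_comap r h _ fun t ht => rfl⟩

theorem U1_push {H : Type} [Group H] (F' : Fn W1 H) : ∃ F : Fn U1 H,
    ∀ (c : ℝ → Circle × ℂ) (u v : ℝ), Cv W1 c u v → F.cv (fun t => f1 (c t)) u v = F'.cv c u v := by
  have h1 : ∀ z : U1, ∃ p : W1, f1 p = z := fun z => by
    obtain ⟨p, hp, hz⟩ := z.2
    exact ⟨⟨p, hp⟩, hz⟩
  choose g hg using h1
  have hgc : Continuous g := by
    rw [continuous_induced_rng, isOpenEmbedding_f1.isInducing.continuous_iff]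
    have e : f1 ∘ (Subtype.val ∘ g) = Subtype.val := funext hg
    rw [e]
    exact continuous_subtype_val
  let r : C(U1, W1) := ⟨g, hgc⟩
  refine ⟨F'.comap r, fun c u v h => ?_⟩
  refine F'.cv_comap r (f1_cv h) c fun t ht => ?_
  exact isOpenEmbedding_f1.injective (hg ⟨f1 (c t), c t, h.mem t ht, rfl⟩).symm

end Pool.Agent.EBS
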