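import Pool.Agent.EBS.G09
import Pool.Agent.EBS.G10
import Pool.Agent.EBS.G20
import Pool.Agent.EBS.G21

/-!
# G22: the meridian generates the homology

Proof of `trivial_of_mu`. Let `F₂ = F.res` be the restriction to `U2` and `F₁ : Fn W1 H` the
pull-back
of the restriction to `U1` (`U1_pull`; `U1, U2 ⊆ EK` by `cover_EK`). Let `h`, `m` be the
values of `F` on `f1 (ec t, 2)` and `f1 (1, 2 ec t)` (curves in `U1 ∩ U2`: `cv_h`, `cv_m`, `f1_cv`,
`U1_inter_U2`, `T2_subset`); these are the values of `F₂`, and the values of `F₁` on `(ec t, 2)` and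
`(1, 2 ec t)` (`cv_res`). By `W1_rel` for `F₁` there is `g0` with `(h m¹³)⁻¹ g0 = 1` (hypothesis),
`g0³ = h³ m³⁸`. So `g0 = h m¹³`, `h³ m³⁹ = h³ m³⁸`, `m = 1`, `g0 = h`. By `U2_rel` for `F₂`:
`h = g1³ = g2⁵`, `m = g2⁻² g1 = 1`, so `g1 = g2²`, `g2⁶ = g2⁵`, `g2 = 1`, `g1 = 1`, `h = 1`, `g0 =
1`.
So the values of `F₂` on closed curves in `V1` and in `V2` are `1` (the degrees exist:
`Deg.exists`; `cu`
of the coordinate is continuous, `continuousOn_cu`, `z₁ ≠ 0` on `V1`, `z₂ ≠ 0` on `V2`), so by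
`Fn.trivial_union` (with `cover_U2` and `isPathConnected_V1`, ...) on all closed curves in `U2`.
The same
for `F₁` and `InS`, `OutS`, `W1`; by `exists_W1_curve` (a closed curve `c` in `U1` is `f1 ∘ c'`
with `c'`
closed, as `f1` is injective) on all closed curves in `U1`. By `Fn.trivial_union` with `cover_EK`
the
values of `F` on all closed curves in `EK` are `1`.
-/

set_option autoImplicit false

noncomputable section

open Set Topology unitInterval

namespace Pool.Agent.EBS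

private theorem g22_mono {Z : Type} [TopologicalSpace Z] {Y Y' : Set Z} (h : Y ⊆ Y')
    {c : ℝ → Z} {u v : ℝ} (hc : Cv Y c u v) : Cv Y' c u v :=
  ⟨hc.le, hc.cont, fun t ht => h (hc.mem t ht)⟩

private theorem g22_deg1 {c : ℝ → S3} {u v : ℝ} (hc : Cv V1 c u v) (he : c u = c v) :
    ∃ i : ℤ, Deg (fun t => cu (c t : ℂ × ℂ).1) u v i := by
  refine Deg.exists hc.le ?_ (by rw [he])
  refine continuousOn_cu.comp (f := fun t => ((c t : ℂ × ℂ).1))
    ((continuous_fst.comp continuous_subtype_val).comp_continuousOn hc.cont) fun t ht => ?_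
  intro h
  have h1 : ‖(c t : ℂ × ℂ).2‖ ^ 2 < 3 / 4 := (hc.mem t ht).2
  have h3 : ‖(c t : ℂ × ℂ).1‖ ^ 2 + ‖(c t : ℂ × ℂ).2‖ ^ 2 = 1 := (c t).2
  have h4 : (c t : ℂ × ℂ).1 = 0 := h
  rw [h4, norm_zero] at h3
  have h5 : (0 : ℝ) ^ 2 = 0 := by norm_num
  rw [h5, zero_add] at h3
  linarith

private theorem g22_deg2 {c : ℝ → S3} {u v : ℝ} (hc : Cv V2 c u v) (he : c u = c v) :
    ∃ i : ℤ, Deg (fun t => cu (c t : ℂ × ℂ).2) u v i := by
  refine Deg.exists hc.le ?_ (by rw [he])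
  refine continuousOn_cu.comp (f := fun t => ((c t : ℂ × ℂ).2))
    ((continuous_snd.comp continuous_subtype_val).comp_continuousOn hc.cont) fun t ht => ?_
  intro h
  have h1 : 1 / 4 < ‖(c t : ℂ × ℂ).2‖ ^ 2 := (hc.mem t ht).2
  have h4 : (c t : ℂ × ℂ).2 = 0 := h
  rw [h4, norm_zero] at h1
  norm_num at h1

private theorem g22_deg3 {Y : Set (Circle × ℂ)} {c : ℝ → Circle × ℂ} {u v : ℝ}
    (hc : Cv Y c u v) (he : c u = c v) : ∃ i : ℤ, Deg (fun t => (c t).1) u v i :=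
  Deg.exists hc.le (continuous_fst.comp_continuousOn hc.cont) (by rw [he])

private theorem g22_deg4 {c : ℝ → Circle × ℂ} {u v : ℝ} (hc : Cv OutS c u v)
    (he : c u = c v) : ∃ i : ℤ, Deg (fun t => cu (c t).2) u v i := by
  refine Deg.exists hc.le ?_ (by rw [he])
  refine continuousOn_cu.comp (f := fun t => (c t).2)
    (continuous_snd.comp_continuousOn hc.cont) fun t ht => ?_
  intro h
  have h1 : 1 / 4 < ‖(c t).2‖ := (hc.mem t ht).2
  have h4 : (c t).2 = 0 := h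
  rw [h4, norm_zero] at h1
  norm_num at h1

/-- the computation in a commutative group -/
private theorem g22_alg {H : Type} [CommGroup H] {h m g0 g1 g2 : H}
    (e0 : 1 = (h * m ^ 13)⁻¹ * g0) (e1 : g0 ^ 3 = h ^ 3 * m ^ 38) (e2 : h = g1 ^ 3)
    (e3 : h = g2 ^ 5) (e4 : m = (g2 ^ 2)⁻¹ * g1) :
    h = 1 ∧ m = 1 ∧ g0 = 1 ∧ g1 = 1 ∧ g2 = 1 := by
  have f0 : g0 = h * m ^ 13 := by
    rw [eq_comm, inv_mul_eq_one] at e0
    exact e0.symm
  have f1 : m = 1 := by
    rw [f0, mul_pow, ← pow_mul] at e1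
    have h1 : m ^ (13 * 3) = m ^ 38 := mul_left_cancel e1
    have h2 : m ^ 38 * m = m ^ 38 * 1 := by
      rw [mul_one, ← pow_succ]
      exact h1
    exact mul_left_cancel h2
  have f2 : g1 = g2 ^ 2 := by
    rw [f1, eq_comm, inv_mul_eq_one] at e4
    exact e4.symm
  have f3 : g2 = 1 := by
    have h1 : g2 ^ 5 * g2 = g2 ^ 5 * 1 := by
      rw [mul_one, ← pow_succ]
      have h3 : g2 ^ (2 * 3) = g2 ^ 5 := by
        rw [pow_mul, ← f2, ← e2, e3]
      exact h3
    exact mul_left_cancel h1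
  have f4 : g1 = 1 := by rw [f2, f3, one_pow]
  have f5 : h = 1 := by rw [e3, f3, one_pow]
  refine ⟨f5, f1, ?_, f4, f3⟩
  rw [f0, f5, f1, one_pow, one_mul]

theorem trivial_of_mu {H : Type} [CommGroup H] (F : Fn EK H)
    (hmu : F.cv (fun t => f1 (ka (1, rad (ec t)))) 0 1 = 1) {c : ℝ → S3} {u v : ℝ}
    (hc : Cv EK c u v) (he : c u = c v) : F.cv c u v = 1 := by
  have hU1 : U1 ⊆ EK := cover_EK.union ▸ subset_union_left
  have hU2 : U2 ⊆ EK := cover_EK.union ▸ subset_union_right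
  have hTW : T2 ⊆ W1 := fun p hp => (T2_subset hp).1
  have hTU : f1 '' T2 ⊆ U2 := by
    rw [← U1_inter_U2]
    exact inter_subset_right
  obtain ⟨F₁, hF₁⟩ := U1_pull (F.res hU1)
  obtain ⟨g0, hIn, hOut, hh0, hh1, hm0⟩ := W1_rel F₁
  obtain ⟨g1, g2, hV1, hV2, k1, k2, k3⟩ := U2_rel (F.res hU2)
  have key : ∀ c' : ℝ → Circle × ℂ, ∀ u v : ℝ, Cv W1 c' u v →
      F₁.cv c' u v = F.cv (fun t => f1 (c' t)) u v := by
    intro c' u v hc'
    rw [hF₁ c' u v hc']
    exact F.cv_res hU1 (f1_cv hc')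
  have a1 := key _ _ _ (g22_mono hTW cv_h)
  have a2 := key _ _ _ (g22_mono hTW cv_m)
  have a3 := key _ _ _ cv_mu
  have b1 := F.cv_res hU2 (g22_mono hTU (f1_cv cv_h))
  have b2 := F.cv_res hU2 (g22_mono hTU (f1_cv cv_m))
  rw [hmu] at a3
  rw [b1] at k1 k2
  rw [b2] at k3
  rw [a1, a2] at hh1
  rw [a1, a2, a3] at hm0
  rw [hh0] at hh1
  obtain ⟨r1, r2, r3, r4, r5⟩ := g22_alg hm0 hh1 k1 k2 k3
  have hT2 : ∀ (c : ℝ → S3) (u v : ℝ), Cv U2 c u v → c u = c v → F.cv c u v = 1 := by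
    intro c u v hc he
    rw [← F.cv_res hU2 hc]
    refine Fn.trivial_union (F.res hU2) cover_U2 isPathConnected_V1 isPathConnected_V2
      isPathConnected_V_inter ?_ ?_ hc he
    · intro c u v hc he
      obtain ⟨i, hi⟩ := g22_deg1 hc he
      rw [hV1 c u v hc he i hi, r4, one_zpow]
    · intro c u v hc he
      obtain ⟨i, hi⟩ := g22_deg2 hc he
      rw [hV2 c u v hc he i hi, r5, one_zpow]
  have hT1 : ∀ (c : ℝ → S3) (u v : ℝ), Cv U1 c u v → c u = c v → F.cv c u v = 1 := by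
    intro c u v hc he
    obtain ⟨c', hc', hcc⟩ := exists_W1_curve hc
    have he' : c' u = c' v := by
      apply isOpenEmbedding_f1.injective
      rw [hcc u ⟨le_rfl, hc.le⟩, hcc v ⟨hc.le, le_rfl⟩, he]
    rw [F.cv_congr (c' := fun t => f1 (c' t)) fun t ht => (hcc t ht).symm,
      ← key c' u v hc']
    refine Fn.trivial_union F₁ cover_W1 isPathConnected_InS isPathConnected_OutS
      isPathConnected_IO_inter ?_ ?_ hc' he'
    · intro c u v hc he
      obtain ⟨i, hi⟩ := g22_deg3 hc he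
      rw [hIn c u v hc he i hi, r3, one_zpow]
    · intro c u v hc he
      obtain ⟨i, hi⟩ := g22_deg3 hc he
      obtain ⟨j, hj⟩ := g22_deg4 hc he
      rw [hOut c u v hc he i j hi hj, a1, a2, r1, r2, one_zpow, one_zpow, one_mul]
  exact Fn.trivial_union F cover_EK isPathConnected_U1 isPathConnected_U2
    isPathConnected_U_inter hT1 hT2 hc he

end Pool.Agent.EBS
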