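import Pool.Agent.EBS.F02

/-!
# F11: the fundamental group as the values of a functional; homomorphisms; orbits

The group is `(FundamentalGroup Y y₀)ᵐᵒᵖ` (Mathlib's multiplication of the fundamental group
is `p * q = q.trans p`, so in the opposite group the product is the concatenation).

* `exists_univ`: for `y : Y` choose a path `β y` from `y₀` to `y` with `β y₀ = refl`; for a path
  `p` from `x` to `y` put `F.v p = op (class of ((β x).trans p).trans (β y).symm)`.
  `trans`: the inner parts cancel (`Path.Homotopic.Quotient` lemmas `trans_assoc`, `symm_trans`,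
  ...). For a loop at `y₀`: `refl_trans`, `trans_refl` (`Path.symm` of `refl` is `refl`).
* `loopSub`: the subgroup of the classes of the loops at `y₀` which lie in `U` (closed under
  products: `trans`, inverses: `symm`).
* `exists_ofHom`: the same construction with paths `β y` in `U`: `F.v p = φ (class of
  ((β x).trans p).trans (β y).symm)`.
* `orbit_comm`: `Fn.square` for `h s t = B s (c t)` on `[0, 1] × [u, v]`: bottom `B s (c u)`, right
  `B 1 (c t) = c t`, left `B 0 (c t) = c t`, top `B s (c v) = B s (c u)`. So `o * f = f * o`.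
-/

set_option autoImplicit false

noncomputable section

open Set Topology unitInterval

namespace Pool.Agent.EBS

variable {Z : Type} [TopologicalSpace Z]

/-- The fundamental group with concatenation as multiplication. -/
abbrev Pi1 (X : Type) [TopologicalSpace X] (x : X) : Type := (FundamentalGroup X x)ᵐᵒᵖ

/-- The class of a loop. -/
def lc {X : Type} [TopologicalSpace X] {x : X} (p : Path x x) : Pi1 X x :=
  MulOpposite.op (FundamentalGroup.fromPath (Path.Homotopic.Quotient.mk p))

theorem lc_trans {X : Type} [TopologicalSpace X] {x : X} (p q : Path x x) :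
    lc (p.trans q) = lc p * lc q := by
  rfl

theorem lc_symm {X : Type} [TopologicalSpace X] {x : X} (p : Path x x) :
    lc p.symm = (lc p)⁻¹ := by
  rfl

theorem lc_refl {X : Type} [TopologicalSpace X] {x : X} : lc (Path.refl x) = 1 := by
  rfl

theorem lc_eq {X : Type} [TopologicalSpace X] {x : X} {p q : Path x x} :
    lc p = lc q ↔ p.Homotopic q := by
  unfold lc
  rw [MulOpposite.op_injective.eq_iff]
  exact Path.Homotopic.Quotient.eq

theorem lc_surjective {X : Type} [TopologicalSpace X] {x : X} (g : Pi1 X x) :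
    ∃ p : Path x x, lc p = g := by
  obtain ⟨p, hp⟩ := Path.Homotopic.Quotient.mk_surjective
    (FundamentalGroup.toPath (MulOpposite.unop g))
  refine ⟨p, MulOpposite.unop_injective ?_⟩
  exact hp

private theorem exists_base {Y : Set Z} (hY : IsPathConnected Y) (y₀ : Y) :
    ∃ β : ∀ y : Y, Path y₀ y, β y₀ = Path.refl y₀ := by
  classical
  have : PathConnectedSpace Y := isPathConnected_iff_pathConnectedSpace.1 hY
  refine ⟨fun y => if h : y = y₀ then (Path.refl y₀).cast rfl h else
    PathConnectedSpace.somePath y₀ y, ?_⟩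
  exact dif_pos rfl

/-- the loop of a path -/
private def lp {X : Type} [TopologicalSpace X] {x₀ : X} (β : ∀ y : X, Path x₀ y) {x y : X}
    (p : Path x y) : Path x₀ x₀ := ((β x).trans p).trans (β y).symm

private theorem lp_homo {X : Type} [TopologicalSpace X] {x₀ : X} (β : ∀ y : X, Path x₀ y)
    {x y : X} {p q : Path x y} (h : p.Homotopic q) : (lp β p).Homotopic (lp β q) :=
  Path.Homotopic.hcomp (Path.Homotopic.hcomp (Path.Homotopic.refl _) h)
    (Path.Homotopic.refl _)

private theorem lp_trans {X : Type} [TopologicalSpace X] {x₀ : X} (β : ∀ y : X, Path x₀ y)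
    {x y z : X} (p : Path x y) (q : Path y z) :
    (lp β (p.trans q)).Homotopic ((lp β p).trans (lp β q)) := by
  rw [← Path.Homotopic.Quotient.eq]
  unfold lp
  simp only [Path.Homotopic.Quotient.mk_trans, Path.Homotopic.Quotient.mk_symm,
    Path.Homotopic.Quotient.trans_assoc]
  congr 2
  rw [← Path.Homotopic.Quotient.trans_assoc (Path.Homotopic.Quotient.mk (β y)).symm,
    Path.Homotopic.Quotient.symm_trans, Path.Homotopic.Quotient.refl_trans]

private theorem lp_loop {X : Type} [TopologicalSpace X] {x₀ : X} {β : ∀ y : X, Path x₀ y}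
    (hβ : β x₀ = Path.refl x₀) (p : Path x₀ x₀) : (lp β p).Homotopic p := by
  rw [← Path.Homotopic.Quotient.eq]
  unfold lp
  rw [hβ, Path.refl_symm]
  simp only [Path.Homotopic.Quotient.mk_trans, Path.Homotopic.Quotient.mk_refl,
    Path.Homotopic.Quotient.refl_trans, Path.Homotopic.Quotient.trans_refl]

theorem exists_univ {Y : Set Z} (hY : IsPathConnected Y) (y₀ : Y) :
    ∃ F : Fn Y (Pi1 Y y₀), ∀ p : Path y₀ y₀, F.v p = lc p := by
  obtain ⟨β, hβ⟩ := exists_base hY y₀
  exact ⟨{ v := fun p => lc (lp β p)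
           homo := fun h => lc_eq.2 (lp_homo β h)
           trans := fun p q => lc_eq.2 (lp_trans β p q) }, fun p => lc_eq.2 (lp_loop hβ p)⟩

/-- The subgroup of the classes of loops in `U`. -/
def loopSub {Y U : Set Z} (h : U ⊆ Y) (y₀ : U) : Subgroup (Pi1 Y ⟨y₀, h y₀.2⟩) where
  carrier := {g | ∃ p : Path y₀ y₀, g = lc (p.map (continuous_inclusion h))}
  mul_mem' := by
    rintro _ _ ⟨p, rfl⟩ ⟨q, rfl⟩
    refine ⟨p.trans q, ?_⟩
    rw [Path.map_trans]
    rfl
  one_mem' := ⟨Path.refl y₀, rfl⟩
  inv_mem' := by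
    rintro _ ⟨p, rfl⟩
    exact ⟨p.symm, rfl⟩

theorem exists_ofHom {Y U : Set Z} (h : U ⊆ Y) (hU : IsPathConnected U) (y₀ : U) {H : Type}
    [Group H] (φ : loopSub h y₀ →* H) :
    ∃ F : Fn U H, ∀ p : Path y₀ y₀, F.v p = φ ⟨lc (p.map (continuous_inclusion h)), p, rfl⟩ := by
  obtain ⟨β, hβ⟩ := exists_base hU y₀
  have key : ∀ {p q : Path y₀ y₀}, p.Homotopic q →
      φ ⟨lc (p.map (continuous_inclusion h)), p, rfl⟩ =
        φ ⟨lc (q.map (continuous_inclusion h)), q, rfl⟩ := by
    intro p q hpq
    exact congrArg φ (Subtype.ext (lc_eq.2 (hpq.map ⟨_, continuous_inclusion h⟩)))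
  refine ⟨{ v := fun p => φ ⟨lc ((lp β p).map (continuous_inclusion h)), lp β p, rfl⟩
            homo := fun hpq => key (lp_homo β hpq)
            trans := fun p q => ?_ }, fun p => key (lp_loop hβ p)⟩
  rw [key (lp_trans β p q), ← map_mul]
  refine congrArg φ (Subtype.ext ?_)
  change lc (((lp β p).trans (lp β q)).map (continuous_inclusion h)) = _
  rw [Path.map_trans]
  rfl

theorem Fn.orbit_comm {Y : Set Z} {H : Type} [Group H] (F : Fn Y H) {B : ℝ → Z → Z}
    (hB : ContinuousOn (Function.uncurry B) (univ ×ˢ Y)) (hBm : ∀ t, ∀ z ∈ Y, B t z ∈ Y)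
    (h0 : ∀ z ∈ Y, B 0 z = z) (h1 : ∀ z ∈ Y, B 1 z = z) {c : ℝ → Z} {u v : ℝ} (hc : Cv Y c u v)
    (he : c u = c v) : Commute (F.cv (fun t => B t (c u)) 0 1) (F.cv c u v) := by
  have h2 := F.square zero_le_one hc.le (fun s t => B s (c t)) (by
    have e1 : ContinuousOn (fun z : ℝ × ℝ => ((z.1, c z.2) : ℝ × Z))
        (Icc 0 1 ×ˢ Icc u v) :=
      continuousOn_fst.prodMk (hc.cont.comp continuousOn_snd fun z hz => hz.2)
    exact hB.comp e1 fun z hz => ⟨mem_univ _, hc.mem z.2 hz.2⟩)
    fun s _ t ht => hBm s _ (hc.mem t ht)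
  have e2 : F.cv (fun t => B 1 (c t)) u v = F.cv c u v :=
    F.cv_congr fun t ht => h1 _ (hc.mem t ht)
  have e3 : F.cv (fun t => B 0 (c t)) u v = F.cv c u v :=
    F.cv_congr fun t ht => h0 _ (hc.mem t ht)
  rw [e2, e3, ← he] at h2
  exact h2

end Pool.Agent.EBS
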