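import Pool.Agent.EBS.G08
import Pool.Agent.EBS.F11

/-!
# G18: the circle actions

Apply `Fn.orbit_comm` (file `F11`).
* `A1_ka`: `ka (x, ζ) = (x³ e, ρ x³⁸ e¹³)`, so `ka (ec t x, ζ) = (ec t ^ 3 * .., ec t ^ 38 * ..)`.
* `A1_mem`: `p = ka q` iff `A1 t p = ka (ec t * q.1, q.2)` (`A1 (-t)` is the inverse of `A1 t`), so
  `A1 t` maps the complement `W1` of the set of all `ka q`, `sq q.2 < 1`, into itself.
* `h1_comm`: `B t p = A1 t p`, `A1 0 = A1 1 = id`, `A1 t (ka (1, 1)) = ka (ec t, 1)`.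
* `A2`: the map `(z₁, z₂) ↦ (ec t ^ 3 * z₁, ec t ^ 5 * z₂)` of `S³`; `A2 t (f1 (x, ζ)) = f1 (ec t *
  x, ζ)`
  (from the definition of `J`: `J (U X) (V Y) r = (U z₁, V z₂)`), so it maps `U2` into itself.
  `h2_comm`: `A2 t (f1 (1, 2)) = f1 (ec t, 2)`.
-/

set_option autoImplicit false

noncomputable section

open Set Topology unitInterval

namespace Pool.Agent.EBS

/-- The action on `S¹ × ℂ`. -/
def A1 (t : ℝ) (p : Circle × ℂ) : Circle × ℂ :=
  (ec t ^ 3 * p.1, ((ec t ^ 38 : Circle) : ℂ) * p.2)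

theorem A1_ka (t : ℝ) (x : Circle) (ζ : ℂ) : A1 t (ka (x, ζ)) = ka (ec t * x, ζ) := by
  refine Prod.ext ?_ ?_
  · change ec t ^ 3 * (x ^ 3 * ec (at1 ζ.re)) = (ec t * x) ^ 3 * ec (at1 ζ.re)
    rw [mul_pow, mul_assoc]
  · change ((ec t ^ 38 : Circle) : ℂ) *
      (((rho ζ.im : ℝ) : ℂ) * ((x ^ 38 * ec (13 * at1 ζ.re) : Circle) : ℂ)) =
      ((rho ζ.im : ℝ) : ℂ) * (((ec t * x) ^ 38 * ec (13 * at1 ζ.re) : Circle) : ℂ)
    rw [mul_pow, mul_assoc (ec t ^ 38), Circle.coe_mul (ec t ^ 38)]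
    ring

private theorem g18_coe : Continuous fun x : Circle => (x : ℂ) := continuous_subtype_val

private theorem g18_neg1 (t : ℝ) (p : Circle × ℂ) : A1 (-t) (A1 t p) = p := by
  refine Prod.ext ?_ ?_
  · change ec (-t) ^ 3 * (ec t ^ 3 * p.1) = p.1
    rw [ec_neg, inv_pow, inv_mul_cancel_left]
  · change ((ec (-t) ^ 38 : Circle) : ℂ) * (((ec t ^ 38 : Circle) : ℂ) * p.2) = p.2
    rw [← mul_assoc, ← Circle.coe_mul, ec_neg, inv_pow, inv_mul_cancel, Circle.coe_one, one_mul]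

private theorem g18_one1 {t : ℝ} (ht : ec t = 1) (p : Circle × ℂ) : A1 t p = p := by
  unfold A1
  rw [ht, one_pow, one_pow, one_mul, Circle.coe_one, one_mul]

theorem A1_mem (t : ℝ) {p : Circle × ℂ} (hp : p ∈ W1) : A1 t p ∈ W1 := by
  intro q hq h
  have h1 : A1 (-t) (ka (q.1, q.2)) = A1 (-t) (A1 t p) := congrArg (A1 (-t)) h
  rw [A1_ka, g18_neg1] at h1
  exact hp (ec (-t) * q.1, q.2) hq h1

theorem A2_aux (t : ℝ) (z : S3) : ‖((ec t ^ 3 : Circle) : ℂ) * (z : ℂ × ℂ).1‖ ^ 2 +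
    ‖((ec t ^ 5 : Circle) : ℂ) * (z : ℂ × ℂ).2‖ ^ 2 = 1 := by
  rw [norm_mul, norm_mul, Circle.norm_coe, Circle.norm_coe, one_mul, one_mul]
  exact z.2

/-- The action on the sphere. -/
def A2 (t : ℝ) (z : S3) : S3 :=
  ⟨(((ec t ^ 3 : Circle) : ℂ) * (z : ℂ × ℂ).1, ((ec t ^ 5 : Circle) : ℂ) * (z : ℂ × ℂ).2),
    A2_aux t z⟩

private theorem g18_J (t : ℝ) (X Y : Circle) (r : ℝ) :
    A2 t (J X Y r) = J (ec t ^ 3 * X) (ec t ^ 5 * Y) r := by
  refine Subtype.ext (Prod.ext ?_ ?_)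
  · change ((ec t ^ 3 : Circle) : ℂ) * (((√(1 - cl r) : ℝ) : ℂ) * (X : ℂ)) =
      ((√(1 - cl r) : ℝ) : ℂ) * ((ec t ^ 3 * X : Circle) : ℂ)
    rw [Circle.coe_mul]
    ring
  · change ((ec t ^ 5 : Circle) : ℂ) * (((√(cl r) : ℝ) : ℂ) * (Y : ℂ)) =
      ((√(cl r) : ℝ) : ℂ) * ((ec t ^ 5 * Y : Circle) : ℂ)
    rw [Circle.coe_mul]
    ring

private theorem g18_neg2 (t : ℝ) (z : S3) : A2 (-t) (A2 t z) = z := by
  refine Subtype.ext (Prod.ext ?_ ?_)
  · change ((ec (-t) ^ 3 : Circle) : ℂ) * (((ec t ^ 3 : Circle) : ℂ) * (z : ℂ × ℂ).1) = _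
    rw [← mul_assoc, ← Circle.coe_mul, ec_neg, inv_pow, inv_mul_cancel, Circle.coe_one, one_mul]
  · change ((ec (-t) ^ 5 : Circle) : ℂ) * (((ec t ^ 5 : Circle) : ℂ) * (z : ℂ × ℂ).2) = _
    rw [← mul_assoc, ← Circle.coe_mul, ec_neg, inv_pow, inv_mul_cancel, Circle.coe_one, one_mul]

private theorem g18_one2 {t : ℝ} (ht : ec t = 1) (z : S3) : A2 t z = z := by
  refine Subtype.ext (Prod.ext ?_ ?_)
  · change ((ec t ^ 3 : Circle) : ℂ) * (z : ℂ × ℂ).1 = _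
    rw [ht, one_pow, Circle.coe_one, one_mul]
  · change ((ec t ^ 5 : Circle) : ℂ) * (z : ℂ × ℂ).2 = _
    rw [ht, one_pow, Circle.coe_one, one_mul]

theorem A2_f1 (t : ℝ) (x : Circle) (ζ : ℂ) : A2 t (f1 (x, ζ)) = f1 (ec t * x, ζ) := by
  unfold f1
  dsimp only
  rw [g18_J, mul_pow, mul_pow, mul_assoc, mul_assoc]

theorem A2_mem (t : ℝ) {z : S3} (hz : z ∈ U2) : A2 t z ∈ U2 := by
  intro q hq h
  have h1 : A2 (-t) (f1 (q.1, q.2)) = A2 (-t) (A2 t z) := congrArg (A2 (-t)) h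
  rw [A2_f1, g18_neg2] at h1
  exact hz (ec (-t) * q.1, q.2) hq h1

theorem h1_comm {H : Type} [Group H] (F : Fn W1 H) {c : ℝ → Circle × ℂ} {u v : ℝ}
    (hc : Cv W1 c u v) (hu : c u = ka (1, 1)) (hv : c v = ka (1, 1)) :
    Commute (F.cv (fun t => ka (ec t, 1)) 0 1) (F.cv c u v) := by
  have hB : Continuous (Function.uncurry A1) := by
    have h1 : Continuous fun q : ℝ × (Circle × ℂ) => ec q.1 := continuous_ec.comp continuous_fst
    refine Continuous.prodMk ((h1.pow 3).mul (continuous_fst.comp continuous_snd)) ?_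
    exact (g18_coe.comp (h1.pow 38)).mul (continuous_snd.comp continuous_snd)
  have h := F.orbit_comm hB.continuousOn (fun t z hz => A1_mem t hz)
    (fun z _ => g18_one1 ec_zero z) (fun z _ => g18_one1 ec_one z) hc (hu.trans hv.symm)
  rw [hu] at h
  simp only [A1_ka, mul_one] at h
  exact h

theorem h2_comm {H : Type} [Group H] (F : Fn U2 H) {c : ℝ → S3} {u v : ℝ}
    (hc : Cv U2 c u v) (hu : c u = f1 (1, 2)) (hv : c v = f1 (1, 2)) :
    Commute (F.cv (fun t => f1 (ec t, 2)) 0 1) (F.cv c u v) := by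
  have hB : Continuous (Function.uncurry A2) := by
    have h1 : Continuous fun q : ℝ × S3 => ec q.1 := continuous_ec.comp continuous_fst
    have h2 : Continuous fun q : ℝ × S3 => (q.2 : ℂ × ℂ) :=
      continuous_subtype_val.comp continuous_snd
    refine Continuous.subtype_mk (Continuous.prodMk ?_ ?_) _
    · exact (g18_coe.comp (h1.pow 3)).mul (continuous_fst.comp h2)
    · exact (g18_coe.comp (h1.pow 5)).mul (continuous_snd.comp h2)
  have h := F.orbit_comm hB.continuousOn (fun t z hz => A2_mem t hz)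
    (fun z _ => g18_one2 ec_zero z) (fun z _ => g18_one2 ec_one z) hc (hu.trans hv.symm)
  rw [hu] at h
  simp only [A2_f1, mul_one] at h
  exact h

end Pool.Agent.EBS
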