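import Pool.Agent.EBS.F15
import Pool.Agent.EBS.G16
import Pool.Agent.EBS.G17
import Pool.Agent.EBS.G21

/-!
# The two subgroups (definitions)

`xZ` is the base point on the boundary torus of the exterior, `xT` a base point on the torus which
separates the two pieces. `F : Fn EK G` is a functional on the exterior with values in `G`; `gOne F`
is the group of the values on the closed paths at `xZ` in the first piece `U1`, `gTwo F w` is the
group of the elements `w * F(p) * w⁻¹` for the closed paths `p` at `xT` in the second piece.
-/

set_option autoImplicit false

noncomputable section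

open Set Topology unitInterval

namespace Pool.Agent.EBS

theorem U1_sub : U1 ⊆ EK := cover_EK.union ▸ subset_union_left

theorem U2_sub : U2 ⊆ EK := cover_EK.union ▸ subset_union_right

theorem xZ_mem : f1 (ka (1, 1)) ∈ U1 := by
  refine mem_image_of_mem _ (ka_mem_W1.2 ?_)
  simp [sq]

theorem xT_mem : f1 (1, 2) ∈ U2 := by
  refine f1_mem_U2.2 ?_
  simp [sq]

/-- The base point on the boundary torus. -/
def xZ : U1 := ⟨f1 (ka (1, 1)), xZ_mem⟩

/-- The base point on the separating torus. -/
def xT : U2 := ⟨f1 (1, 2), xT_mem⟩

variable {G : Type} [Group G]

/-- The group of the first piece. -/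
def gOne (F : Fn EK G) : Subgroup G := F.grp U1_sub xZ 1

/-- The group of the second piece. -/
def gTwo (F : Fn EK G) (w : G) : Subgroup G := F.grp U2_sub xT w

end Pool.Agent.EBS
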