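import Pool.Agent.EBS.G09
import Pool.Agent.EBS.G10
import Pool.Agent.EBS.G18
import Pool.Agent.EBS.GCab

/-!
# G23: the subgroups generate; the fibres are central

Let `d` be a curve in `OutS` from `ka (1, 1)` to `(1, 2)` and `w` the value of `F` on `f1 ∘ d`. (So
`f1 ∘ d` is a curve in `U1` from `xZ` to `xT`: `f1_cv`, `OutS ⊆ W1`.)
* `exists_d`: `OutS` is path connected; `ka (1, 1) ∈ OutS` (`cv_h1` at `t = 0`, `ec_zero`), `(1, 2)
  ∈ T2 ⊆
  OutS`. (`IsPathConnected.joinedIn`, `JoinedIn.somePath`, `Path.extend`.)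
* `conj_mem_one`: with paths: let `δ` be the path in `U1` from `xZ` to `xT` of `f1 ∘ d`, `p` the
  closed
  path at `xT` of `c` (`Cv.exists_path`); `(δ.trans p).trans δ.symm` is a closed path at `xZ` in
  `U1` with value `w * F(c) * w⁻¹` (`trans`, `v_symm`, `cv_res`).
* `sup_eq_top`: let `g = F.cv c 0 1` with a closed curve `c` at `xZ` in `EK`. Then
  `w⁻¹ * g * w` is the value on a closed curve at `xT` in `EK` (the path `(δ.symm.trans c).trans δ`
  and `cv_path`). Apply `Fn.gen` (`cover_EK`, path-connectedness from `G09`, `G10`, `x = xT`) with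
  `S = {s | w * s * w⁻¹ ∈ gOne F ⊔ gTwo F w}` (`Subgroup.comap` of `MulAut.conj w`): for closed
  curves at `xT` in `U1`: `conj_mem_one`; in `U2`: `Fn.mem_grp`. So `w * (w⁻¹ g w) * w⁻¹ = g` lies
  in
  `gOne F ⊔ gTwo F w`.
* `one_comm`: `g = 1 * v(p) * 1⁻¹` for a closed path `p` at `xZ` in `U1`, `v(p)` is the value of
  `F.res` on the curve `p.extend` (`cv_path`), and this curve is `f1 ∘ c'` with `c'` closed at
  `ka (1, 1)` in `W1` (`exists_W1_curve`, injectivity of `f1`, `cv_congr`). Apply `h1_comm` to the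
  functional `F'` of `U1_pull` for `F.res U1_sub` (`cv_res`, `cv_h1` in `W1`).
* `two_comm`: the same with `h2_comm` for `F.res U2_sub` (`cv_h2`: the curve lies in `V1 ⊆ U2`), and
  conjugate with `w`.
-/

set_option autoImplicit false

noncomputable section

open Set Topology unitInterval

namespace Pool.Agent.EBS

variable {G : Type} [Group G]

private theorem g23_ka_mem : ka (1, 1) ∈ OutS := by
  have h := cv_h1.left
  rw [ec_zero] at h
  exact h.2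

private theorem g23_T2 : ((1, 2) : Circle × ℂ) ∈ T2 := by
  have h := cv_h.left
  rwa [ec_zero] at h

private theorem g23_xT_mem : f1 (1, 2) ∈ U1 ∩ U2 := by
  rw [U1_inter_U2]
  exact mem_image_of_mem _ g23_T2

private theorem g23_W1 {d : ℝ → Circle × ℂ} {u v : ℝ} (hd : Cv OutS d u v) : Cv W1 d u v :=
  ⟨hd.le, hd.cont, fun t ht => (hd.mem t ht).1⟩

private theorem g23_U1 {d : ℝ → Circle × ℂ} {u v : ℝ} (hd : Cv OutS d u v) :
    Cv U1 (fun t => f1 (d t)) u v := f1_cv (g23_W1 hd)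

private theorem g23_mono {Z : Type} [TopologicalSpace Z] {A B : Set Z} (h : A ⊆ B) {c : ℝ → Z}
    {u v : ℝ} (hc : Cv A c u v) : Cv B c u v :=
  ⟨hc.le, hc.cont, fun t ht => h (hc.mem t ht)⟩

theorem exists_d : ∃ d : ℝ → Circle × ℂ, Cv OutS d 0 1 ∧ d 0 = ka (1, 1) ∧ d 1 = (1, 2) := by
  have hj := isPathConnected_OutS.joinedIn _ g23_ka_mem _ (T2_subset g23_T2)
  refine ⟨hj.somePath.extend, ⟨zero_le_one, hj.somePath.continuous_extend.continuousOn,
    fun t ht => ?_⟩, hj.somePath.extend_zero, hj.somePath.extend_one⟩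
  rw [Path.extend_apply _ ht]
  exact hj.somePath_mem _

theorem conj_mem_one (F : Fn EK G) {d : ℝ → Circle × ℂ} (hd : Cv OutS d 0 1)
    (h0 : d 0 = ka (1, 1)) (h1 : d 1 = (1, 2)) {c : ℝ → S3} {u v : ℝ} (hc : Cv U1 c u v)
    (hu : c u = f1 (1, 2)) (hv : c v = f1 (1, 2)) :
    F.cv (fun t => f1 (d t)) 0 1 * F.cv c u v * (F.cv (fun t => f1 (d t)) 0 1)⁻¹ ∈ gOne F := by
  obtain ⟨δ, hδ⟩ := (g23_U1 hd).exists_path (x := xZ) (y := ⟨f1 (1, 2), g23_xT_mem.1⟩)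
    (congrArg f1 h0) (congrArg f1 h1)
  obtain ⟨p, hp⟩ := hc.exists_path (x := ⟨f1 (1, 2), g23_xT_mem.1⟩)
    (y := ⟨f1 (1, 2), g23_xT_mem.1⟩) hu hv
  refine ⟨(δ.trans p).trans δ.symm, ?_⟩
  rw [(F.res U1_sub).trans, (F.res U1_sub).trans, (F.res U1_sub).v_symm, hδ, hp,
    F.cv_res U1_sub (g23_U1 hd), F.cv_res U1_sub hc, one_mul, inv_one, mul_one]

theorem sup_eq_top (F : Fn EK G) {d : ℝ → Circle × ℂ} (hd : Cv OutS d 0 1)
    (h0 : d 0 = ka (1, 1)) (h1 : d 1 = (1, 2))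
    (hF : ∀ g : G, ∃ c : ℝ → S3, Cv EK c 0 1 ∧ c 0 = f1 (ka (1, 1)) ∧ c 1 = f1 (ka (1, 1)) ∧
      F.cv c 0 1 = g) : gOne F ⊔ gTwo F (F.cv (fun t => f1 (d t)) 0 1) = ⊤ := by
  obtain ⟨w, hw⟩ : ∃ w : G, F.cv (fun t => f1 (d t)) 0 1 = w := ⟨_, rfl⟩
  rw [hw, eq_top_iff]
  intro g _
  obtain ⟨c, hc, hc0, hc1, hg⟩ := hF g
  have hdE : Cv EK (fun t => f1 (d t)) 0 1 := g23_mono U1_sub (g23_U1 hd)
  obtain ⟨δ, hδ⟩ := hdE.exists_path (x := ⟨f1 (ka (1, 1)), U1_sub xZ_mem⟩)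
    (y := ⟨f1 (1, 2), U2_sub xT_mem⟩) (congrArg f1 h0) (congrArg f1 h1)
  obtain ⟨p, hp⟩ := hc.exists_path (x := ⟨f1 (ka (1, 1)), U1_sub xZ_mem⟩)
    (y := ⟨f1 (ka (1, 1)), U1_sub xZ_mem⟩) hc0 hc1
  have hv : F.v ((δ.symm.trans p).trans δ) = w⁻¹ * g * w := by
    rw [F.trans, F.trans, F.v_symm, hδ, hp, hw, hg]
  obtain ⟨k1, k2⟩ := F.cv_path ((δ.symm.trans p).trans δ)
  have hgen := F.gen cover_EK isPathConnected_U1 isPathConnected_U2 isPathConnected_U_inter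
    g23_xT_mem ((gOne F ⊔ gTwo F w).comap (MulAut.conj w).toMonoidHom) ?_ ?_ k1
    (by rw [Path.extend_zero]) (by rw [Path.extend_one])
  · rw [k2, hv, Subgroup.mem_comap] at hgen
    have e : (MulAut.conj w).toMonoidHom (w⁻¹ * g * w) = g := by
      show w * (w⁻¹ * g * w) * w⁻¹ = g
      group
    rwa [e] at hgen
  · intro c' u v hc' hu hv'
    rw [Subgroup.mem_comap]
    show w * F.cv c' u v * w⁻¹ ∈ gOne F ⊔ gTwo F w
    have h2 := conj_mem_one F hd h0 h1 hc' hu hv'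
    rw [hw] at h2
    exact Subgroup.mem_sup_left h2
  · intro c' u v hc' hu hv'
    rw [Subgroup.mem_comap]
    show w * F.cv c' u v * w⁻¹ ∈ gOne F ⊔ gTwo F w
    exact Subgroup.mem_sup_right (F.mem_grp U2_sub xT w hc' hu hv')

theorem one_comm (F : Fn EK G) (g : G) (hg : g ∈ gOne F) :
    Commute (F.cv (fun t => f1 (ka (ec t, 1))) 0 1) g := by
  obtain ⟨p, rfl⟩ := hg
  obtain ⟨k1, k2⟩ := (F.res U1_sub).cv_path p
  obtain ⟨c', hc', he⟩ := exists_W1_curve (W := W1) k1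
  obtain ⟨F', hF'⟩ := U1_pull (F.res U1_sub)
  have hinj := isOpenEmbedding_f1.injective
  have e0 : c' 0 = ka (1, 1) := by
    apply hinj
    rw [he 0 ⟨le_rfl, zero_le_one⟩, Path.extend_zero]
    rfl
  have e1 : c' 1 = ka (1, 1) := by
    apply hinj
    rw [he 1 ⟨zero_le_one, le_rfl⟩, Path.extend_one]
    rfl
  have hh : Cv W1 (fun t => ka (ec t, 1)) 0 1 :=
    ⟨cv_h1.le, cv_h1.cont, fun t ht => (cv_h1.mem t ht).1.1⟩
  have hcomm := h1_comm F' hc' e0 e1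
  rw [hF' _ _ _ hh, hF' _ _ _ hc', F.cv_res U1_sub (f1_cv hh),
    (F.res U1_sub).cv_congr (c' := fun t => ((p.extend t : U1) : S3)) he, k2] at hcomm
  rw [one_mul, inv_one, mul_one]
  exact hcomm

theorem two_comm (F : Fn EK G) (w g : G) (hg : g ∈ gTwo F w) :
    Commute (w * F.cv (fun t => f1 (ec t, 2)) 0 1 * w⁻¹) g := by
  obtain ⟨p, rfl⟩ := hg
  obtain ⟨k1, k2⟩ := (F.res U2_sub).cv_path p
  have hh : Cv U2 (fun t => f1 (ec t, 2)) 0 1 :=
    ⟨cv_h2.le, cv_h2.cont, fun t ht => (cv_h2.mem t ht).1.1⟩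
  have hcomm := h2_comm (F.res U2_sub) k1 (by rw [Path.extend_zero]; rfl)
    (by rw [Path.extend_one]; rfl)
  rw [F.cv_res U2_sub hh, k2] at hcomm
  exact (Commute.conj_iff w).2 hcomm

end Pool.Agent.EBS
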