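import Pool.Agent.EBS.G20
import Pool.Agent.EBS.G22
import Pool.Agent.EBS.G19
import Pool.Agent.EBS.G23

/-!
# G24: homomorphisms of the two subgroups to commutative groups

Notation: `d`, `w` as in `G23`; `m`, `h` are the values of `F` on `f1 (1, 2 ec t)` and `f1 (ec t,
2)`
(closed curves at `xT` in `U1 ∩ U2`: `cv_m`, `cv_h`, `f1_cv`, `U1_inter_U2`), `mu`, `h₁`, `lam` are
the
values on `f1 (ka (1, rad (ec t)))`, `f1 (ka (ec t, 1))`, `fK (ec t, 1)`.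
* `mem_*`: `Fn.mem_grp`, `conj_mem_one`; `mu_mem`: the curve lies in `U1` (`cv_mu`, `f1_cv`); it is
  closed at `xZ` (`rad (ec 0) = 1`). `h1_mem`: `cv_h1`. `lam = mu ^ (-21) * h₁` by `h1_eq` and
  `mu_eq`.
* `one_hom`: let `F' : Fn U1 H` be the functional of `Fn.exists_of_grp` for `φ` (with
  `isPathConnected_U1`), and `F₁ : Fn W1 H` its pull-back (`U1_pull`). Let `m'`, `h'`, `mu'`, `h₁'`
  be
  the values of `F₁` on the curves `(1, 2 ec t)`, `(ec t, 2)`, `ka (1, rad (ec t))`, `ka (ec t, 1)`.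
  By `W1_rel`: `h₁' = g0³ = h'³ m'³⁸`, `mu' = (h' m'¹³)⁻¹ g0`, so `mu'³ = h'⁻³ m'⁻³⁹ h'³ m'³⁸ =
  m'⁻¹`.
  The values of `φ`: `φ mu = mu'`, `φ h₁ = h₁'` (closed curves at `xZ`), and `φ (w m w⁻¹) = m'`,
  `φ (w h w⁻¹) = h'`: the element `w m w⁻¹` is the value on the closed path
  `(δ.trans p).trans δ.symm` at `xZ` (as in `conj_mem_one`), and `F'` of it is
  `F'(δ) m' F'(δ)⁻¹ = m'` (`H` is commutative). Hence `φ (w m w⁻¹) = (φ mu ^ 3)⁻¹` and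
  `φ lam = mu'⁻²¹ h₁' = m'⁷ h'³ m'³⁸ = (m'¹⁵ h')³`.
* `two_hom`: let `F'' : Fn U2 H` be the functional of `Fn.exists_of_grp` for `φ`
  (`isPathConnected_U2`); its values on the closed curves `m`, `h` at `xT` are `m'' = φ (w m w⁻¹)`,
  `h'' = φ (w h w⁻¹)`. By `U2_rel`: `h'' = g1³ = g2⁵`, `m'' = g2⁻² g1`, so
  `m''¹⁵ h'' = g2⁻³⁰ g1¹⁵ g1³ = (g2⁵)⁻⁶ (g1³)⁶ = 1`.
-/

set_option autoImplicit false

noncomputable section

open Set Topology unitInterval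

namespace Pool.Agent.EBS

variable {G : Type} [Group G]

/-- The value on the meridian of the separating torus. -/
def mV (F : Fn EK G) : G := F.cv (fun t => f1 (1, 2 * (ec t : ℂ))) 0 1

/-- The value on the fibre of the second piece. -/
def hV (F : Fn EK G) : G := F.cv (fun t => f1 (ec t, 2)) 0 1

/-- The value on the meridian of the knot. -/
def muV (F : Fn EK G) : G := F.cv (fun t => fK (1, rad (ec t))) 0 1

/-- The value on the longitude of the knot. -/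
def lamV (F : Fn EK G) : G := F.cv (fun t => fK (ec t, 1)) 0 1

private theorem g24_mono {Z : Type} [TopologicalSpace Z] {Y Y' : Set Z} (h : Y ⊆ Y')
    {c : ℝ → Z} {u v : ℝ} (hc : Cv Y c u v) : Cv Y' c u v :=
  ⟨hc.le, hc.cont, fun t ht => h (hc.mem t ht)⟩

private theorem g24_out : OutS ⊆ W1 := fun _ h => h.1

private theorem g24_mem (F : Fn EK G) {c : ℝ → S3} {u v : ℝ} (hc : Cv U1 c u v)
    (hu : c u = f1 (ka (1, 1))) (hv : c v = f1 (ka (1, 1))) : F.cv c u v ∈ gOne F := by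
  have h := F.mem_grp U1_sub xZ 1 hc hu hv
  rw [one_mul, inv_one, mul_one] at h
  exact h

private theorem g24_mu_cv : Cv U1 (fun t => fK (1, rad (ec t))) 0 1 := by
  have h : (fun t : ℝ => fK (1, rad (ec t))) = fun t => f1 (ka (1, rad (ec t))) :=
    funext fun t => mu_eq t
  rw [h]
  exact f1_cv cv_mu

private theorem g24_mu_zero : fK (1, rad (ec 0)) = f1 (ka (1, 1)) := by
  rw [mu_eq, ec_zero, rad_one]

private theorem g24_mu_one : fK (1, rad (ec 1)) = f1 (ka (1, 1)) := by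
  rw [mu_eq, ec_one, rad_one]

private theorem g24_h1_cvW : Cv W1 (fun t => ka (ec t, 1)) 0 1 :=
  g24_mono (fun _ h => g24_out h.2) cv_h1

private theorem g24_h1_cv : Cv U1 (fun t => f1 (ka (ec t, 1))) 0 1 := f1_cv g24_h1_cvW

private theorem g24_m_cv : Cv (U1 ∩ U2) (fun t => f1 (1, 2 * (ec t : ℂ))) 0 1 := by
  rw [U1_inter_U2]
  exact f1_cv cv_m

private theorem g24_h_cv : Cv (U1 ∩ U2) (fun t => f1 (ec t, 2)) 0 1 := by
  rw [U1_inter_U2]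
  exact f1_cv cv_h

private theorem g24_m_zero : f1 (1, 2 * (ec 0 : ℂ)) = f1 (1, 2) := by
  rw [ec_zero, Circle.coe_one, mul_one]

private theorem g24_m_one : f1 (1, 2 * (ec 1 : ℂ)) = f1 (1, 2) := by
  rw [ec_one, Circle.coe_one, mul_one]

private theorem g24_h_zero : f1 (ec 0, 2) = f1 (1, 2) := by rw [ec_zero]

private theorem g24_h_one : f1 (ec 1, 2) = f1 (1, 2) := by rw [ec_one]

theorem mu_mem (F : Fn EK G) : muV F ∈ gOne F :=
  g24_mem F g24_mu_cv g24_mu_zero g24_mu_one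

private theorem g24_h1_zero : f1 (ka (ec 0, 1)) = f1 (ka (1, 1)) := by rw [ec_zero]

private theorem g24_h1_one : f1 (ka (ec 1, 1)) = f1 (ka (1, 1)) := by rw [ec_one]

private theorem g24_h1_mem (F : Fn EK G) : F.cv (fun t => f1 (ka (ec t, 1))) 0 1 ∈ gOne F :=
  g24_mem F g24_h1_cv g24_h1_zero g24_h1_one

private theorem g24_lam (F : Fn EK G) :
    lamV F = (muV F ^ 21)⁻¹ * F.cv (fun t => f1 (ka (ec t, 1))) 0 1 := by
  have h : muV F ^ 21 * lamV F = F.cv (fun t => f1 (ka (ec t, 1))) 0 1 := h1_eq F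
  rw [← h, inv_mul_cancel_left]

theorem lam_mem (F : Fn EK G) : lamV F ∈ gOne F := by
  rw [g24_lam]
  exact (gOne F).mul_mem ((gOne F).inv_mem ((gOne F).pow_mem (mu_mem F) 21)) (g24_h1_mem F)

theorem m_mem_two (F : Fn EK G) (w : G) : w * mV F * w⁻¹ ∈ gTwo F w :=
  F.mem_grp U2_sub xT w (g24_mono inter_subset_right g24_m_cv) g24_m_zero g24_m_one

theorem h_mem_two (F : Fn EK G) (w : G) : w * hV F * w⁻¹ ∈ gTwo F w :=
  F.mem_grp U2_sub xT w (g24_mono inter_subset_right g24_h_cv) g24_h_zero g24_h_one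

theorem m_mem_one (F : Fn EK G) {d : ℝ → Circle × ℂ} (hd : Cv OutS d 0 1)
    (h0 : d 0 = ka (1, 1)) (h1 : d 1 = (1, 2)) :
    F.cv (fun t => f1 (d t)) 0 1 * mV F * (F.cv (fun t => f1 (d t)) 0 1)⁻¹ ∈ gOne F :=
  conj_mem_one F hd h0 h1 (g24_mono inter_subset_left g24_m_cv) g24_m_zero g24_m_one

theorem h_mem_one (F : Fn EK G) {d : ℝ → Circle × ℂ} (hd : Cv OutS d 0 1)
    (h0 : d 0 = ka (1, 1)) (h1 : d 1 = (1, 2)) :
    F.cv (fun t => f1 (d t)) 0 1 * hV F * (F.cv (fun t => f1 (d t)) 0 1)⁻¹ ∈ gOne F :=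
  conj_mem_one F hd h0 h1 (g24_mono inter_subset_left g24_h_cv) g24_h_zero g24_h_one

private theorem g24_conj (F : Fn EK G) {d : ℝ → Circle × ℂ} (hd : Cv OutS d 0 1)
    (h0 : d 0 = ka (1, 1)) (h1 : d 1 = (1, 2)) {H : Type} [CommGroup H]
    (φ : F.grp U1_sub xZ 1 →* H) (F' : Fn U1 H)
    (key : ∀ p : Path xZ xZ, F'.v p = φ ⟨1 * (F.res U1_sub).v p * 1⁻¹, p, rfl⟩)
    {c : ℝ → S3} {u v : ℝ} (hc : Cv U1 c u v) (hu : c u = f1 (1, 2)) (hv : c v = f1 (1, 2))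
    (hm : F.cv (fun t => f1 (d t)) 0 1 * F.cv c u v * (F.cv (fun t => f1 (d t)) 0 1)⁻¹ ∈
      F.grp U1_sub xZ 1) : φ ⟨_, hm⟩ = F'.cv c u v := by
  have hδc : Cv U1 (fun t => f1 (d t)) 0 1 := f1_cv (g24_mono g24_out hd)
  have hT : f1 (1, 2) ∈ U1 := hu ▸ hc.left
  obtain ⟨δ, hδ⟩ := hδc.exists_path (x := xZ) (y := ⟨f1 (1, 2), hT⟩)
    (by simp only [h0]; rfl) (by simp only [h1])
  obtain ⟨p, hp⟩ := hc.exists_path (x := ⟨f1 (1, 2), hT⟩) (y := ⟨f1 (1, 2), hT⟩) hu hv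
  have e1 : F'.v ((δ.trans p).trans δ.symm) = F'.cv c u v := by
    rw [F'.trans, F'.trans, F'.v_symm, hp H F', mul_comm (F'.v δ), mul_inv_cancel_right]
  rw [← e1, key]
  refine congrArg φ (Subtype.ext ?_)
  change F.cv (fun t => f1 (d t)) 0 1 * F.cv c u v * (F.cv (fun t => f1 (d t)) 0 1)⁻¹ =
    1 * (F.res U1_sub).v ((δ.trans p).trans δ.symm) * 1⁻¹
  rw [one_mul, inv_one, mul_one, (F.res U1_sub).trans, (F.res U1_sub).trans,
    (F.res U1_sub).v_symm, hδ G (F.res U1_sub), hp G (F.res U1_sub), F.cv_res U1_sub hδc,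
    F.cv_res U1_sub hc]

private theorem g24_alg1 {H : Type} [CommGroup H] {m h g mu hh : H} (h1 : hh = g ^ 3)
    (h2 : hh = h ^ 3 * m ^ 38) (h3 : mu = (h * m ^ 13)⁻¹ * g) : m = (mu ^ 3)⁻¹ := by
  have e : mu ^ 3 * m = 1 := by
    rw [h3, mul_pow, ← h1, h2, inv_pow, mul_pow, ← pow_mul, mul_inv, mul_assoc, mul_assoc]
    have e2 : m ^ (13 * 3) = m ^ 38 * m := by rw [← pow_succ]
    rw [e2]
    have e3 : ∀ a b : H, a⁻¹ * (b⁻¹ * (a * b)) = 1 := by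
      intro a b
      rw [mul_comm a b, inv_mul_cancel_left, inv_mul_cancel]
    have e4 : h ^ 3 * m ^ 38 * m = h ^ 3 * (m ^ 38 * m) := mul_assoc _ _ _
    rw [e4]
    exact e3 _ _
  exact eq_inv_of_mul_eq_one_right e

private theorem g24_alg2 {H : Type} [CommGroup H] {m h mu hh : H} (h2 : hh = h ^ 3 * m ^ 38)
    (h4 : m = (mu ^ 3)⁻¹) : (mu ^ 21)⁻¹ * hh = (m ^ 15 * h) ^ 3 := by
  have e1 : (mu ^ 21)⁻¹ = m ^ 7 := by
    rw [h4, inv_pow, ← pow_mul]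
  rw [e1, h2, mul_pow, ← pow_mul, mul_left_comm, ← pow_add, mul_comm]

private theorem g24_alg3 {H : Type} [CommGroup H] {m h a b : H} (h1 : h = a ^ 3)
    (h2 : h = b ^ 5) (h3 : m = (b ^ 2)⁻¹ * a) : m ^ 15 * h = 1 := by
  have e1 : a ^ 15 = h ^ 5 := by rw [h1, ← pow_mul]
  have e2 : (b ^ 2) ^ 15 = h ^ 6 := by rw [h2, ← pow_mul, ← pow_mul]
  rw [h3, mul_pow, inv_pow, e1, e2, mul_assoc, ← pow_succ, inv_mul_cancel]

theorem one_hom (F : Fn EK G) {d : ℝ → Circle × ℂ} (hd : Cv OutS d 0 1)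
    (h0 : d 0 = ka (1, 1)) (h1 : d 1 = (1, 2)) {H : Type} [CommGroup H] (φ : gOne F →* H) :
    φ ⟨_, m_mem_one F hd h0 h1⟩ = (φ ⟨_, mu_mem F⟩ ^ 3)⁻¹ ∧
      φ ⟨_, lam_mem F⟩ = (φ ⟨_, m_mem_one F hd h0 h1⟩ ^ 15 * φ ⟨_, h_mem_one F hd h0 h1⟩) ^ 3 := by
  obtain ⟨F', key, key2⟩ := F.exists_of_grp U1_sub isPathConnected_U1 xZ 1 φ
  obtain ⟨F₁, hF₁⟩ := U1_pull F'
  obtain ⟨g0, -, -, r1, r2, r3⟩ := W1_rel F₁
  have em : φ ⟨_, m_mem_one F hd h0 h1⟩ = F₁.cv (fun t => (1, 2 * (ec t : ℂ))) 0 1 := by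
    rw [hF₁ _ _ _ (g24_mono (fun _ h => g24_out (T2_subset h)) cv_m)]
    exact g24_conj F hd h0 h1 φ F' key (g24_mono inter_subset_left g24_m_cv) g24_m_zero
      g24_m_one _
  have eh : φ ⟨_, h_mem_one F hd h0 h1⟩ = F₁.cv (fun t => (ec t, 2)) 0 1 := by
    rw [hF₁ _ _ _ (g24_mono (fun _ h => g24_out (T2_subset h)) cv_h)]
    exact g24_conj F hd h0 h1 φ F' key (g24_mono inter_subset_left g24_h_cv) g24_h_zero
      g24_h_one _
  have hval : ∀ {c : ℝ → S3} (hc : Cv U1 c 0 1) (hu : c 0 = f1 (ka (1, 1)))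
      (hv : c 1 = f1 (ka (1, 1))), φ ⟨_, g24_mem F hc hu hv⟩ = F'.cv c 0 1 := by
    intro c hc hu hv
    have hm : 1 * F.cv c 0 1 * 1⁻¹ ∈ F.grp U1_sub xZ 1 := F.mem_grp U1_sub xZ 1 hc hu hv
    rw [key2 c 0 1 hc hu hv hm]
    refine congrArg φ (Subtype.ext ?_)
    change F.cv c 0 1 = 1 * F.cv c 0 1 * 1⁻¹
    rw [one_mul, inv_one, mul_one]
  have emu : φ ⟨_, mu_mem F⟩ = F₁.cv (fun t => ka (1, rad (ec t))) 0 1 := by
    rw [hF₁ _ _ _ cv_mu]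
    have e := hval g24_mu_cv g24_mu_zero g24_mu_one
    have e2 : (fun t : ℝ => fK (1, rad (ec t))) = fun t => f1 (ka (1, rad (ec t))) :=
      funext fun t => mu_eq t
    rw [← e2]
    exact e
  have eh1 : φ ⟨_, g24_h1_mem F⟩ = F₁.cv (fun t => ka (ec t, 1)) 0 1 := by
    rw [hF₁ _ _ _ g24_h1_cvW]
    exact hval g24_h1_cv g24_h1_zero g24_h1_one
  have elam : φ ⟨_, lam_mem F⟩ = (φ ⟨_, mu_mem F⟩ ^ 21)⁻¹ * φ ⟨_, g24_h1_mem F⟩ := by
    rw [← map_pow, ← map_inv, ← map_mul]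
    exact congrArg φ (Subtype.ext (g24_lam F))
  have c1 := g24_alg1 r1 r2 r3
  rw [elam, em, eh, emu, eh1]
  exact ⟨c1, g24_alg2 r2 c1⟩

theorem two_hom (F : Fn EK G) (w : G) {H : Type} [CommGroup H] (φ : gTwo F w →* H) :
    φ ⟨_, m_mem_two F w⟩ ^ 15 * φ ⟨_, h_mem_two F w⟩ = 1 := by
  obtain ⟨F', -, key2⟩ := F.exists_of_grp U2_sub isPathConnected_U2 xT w φ
  obtain ⟨g1, g2, -, -, r1, r2, r3⟩ := U2_rel F'
  have em : φ ⟨_, m_mem_two F w⟩ = F'.cv (fun t => f1 (1, 2 * (ec t : ℂ))) 0 1 :=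
    (key2 _ 0 1 (g24_mono inter_subset_right g24_m_cv) g24_m_zero g24_m_one _).symm
  have eh : φ ⟨_, h_mem_two F w⟩ = F'.cv (fun t => f1 (ec t, 2)) 0 1 :=
    (key2 _ 0 1 (g24_mono inter_subset_right g24_h_cv) g24_h_zero g24_h_one _).symm
  rw [em, eh]
  exact g24_alg3 r1 r2 r3

end Pool.Agent.EBS
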