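import Pool.Agent.EBS.ADefs
import Pool.Agent.EBS.G24

/-!
# G25: the algebraic facts about the group of the knot

* `exists_cable`: let `d` be as in `exists_d`, `w` the value of `F` on `f1 ∘ d`; `G1 = gOne F`,
  `G2 = gTwo F w`, `mu1 = muV F`, `lam1 = lamV F`, `m1 = m2 = w * mV F * w⁻¹`,
  `l1 = l2 = m1 ^ 15 * (w * hV F * w⁻¹)` (memberships: `G24`). `comm1`: `mu ^ 21 * lam = h₁` by
  `h1_eq`, and
  `one_comm`. `comm2`: `(m ^ 15)⁻¹ * l = w * hV F * w⁻¹`, `two_comm`. `sup`: `sup_eq_top`.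
  `hom1`, `hom2`: `one_hom`, `two_hom`. `ab`: for `φ : G →* H` the functional `F.hom φ` has the
  value
  `φ mu = 1` on the meridian (`cv_hom`, `mu_eq`), so by `trivial_of_mu` it is trivial on all closed
  curves; every `g` is a value of `F` on a closed curve. `comm`: `torus_tube` for `T = Kn`
  (`Kn.f = fK`, `ext_Kn`).
* `cable_Kn`: let `F` be the functional of `exists_univ` for `Y = EK = Kn.ext` (path connected by
  `isPathConnected_EK`, `isPathConnected_U2`) and the base point `Kn.bd (1, 1)` (whose value in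
  `S3` is
  `fK (1, rad 1) = f1 (ka (1, 1))`: `rad_one`, `fK_one`). Every element of the group is the class
  of a
  closed path (`lc_surjective`), so a value of `F` on a closed curve (`cv_path`). By `tl_eq` the
  values
  on the meridian and the longitude are `tl Kn 0 1` and `tl Kn 1 0` (`ec 0 = 1`, `rad_one`,
  `cv_congr`).
* `tl_mul`: `tl T k₁ k₂ = tl T 1 0 ^ k₁ * tl T 0 1 ^ k₂` by `tl_eq` and `torus_tube` for the
  functional of
  `exists_univ`.
-/

set_option autoImplicit false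

noncomputable section

open Set Topology unitInterval

namespace Pool.Agent.EBS

theorem exists_cable {G : Type} [Group G] (F : Fn EK G)
    (hF : ∀ g : G, ∃ c : ℝ → S3, Cv EK c 0 1 ∧ c 0 = f1 (ka (1, 1)) ∧ c 1 = f1 (ka (1, 1)) ∧
      F.cv c 0 1 = g) : Nonempty (Cable G (muV F) (lamV F)) := by
  obtain ⟨d, hd, h0, h1⟩ := exists_d
  refine ⟨{
    G1 := gOne F
    G2 := gTwo F (F.cv (fun t => f1 (d t)) 0 1)
    mu1 := ⟨_, mu_mem F⟩
    lam1 := ⟨_, lam_mem F⟩
    m1 := ⟨_, m_mem_one F hd h0 h1⟩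
    l1 := ⟨_, m_mem_one F hd h0 h1⟩ ^ 15 * ⟨_, h_mem_one F hd h0 h1⟩
    m2 := ⟨_, m_mem_two F _⟩
    l2 := ⟨_, m_mem_two F _⟩ ^ 15 * ⟨_, h_mem_two F _⟩
    hmu := rfl
    hlam := rfl
    hm := rfl
    hl := rfl
    comm1 := ?_
    comm2 := ?_
    sup := sup_eq_top F hd h0 h1 hF
    hom1 := ?_
    hom2 := ?_
    ab := ?_
    comm := (torus_tube Kn F).1 }⟩
  · intro g
    have e1 := one_comm F g g.2
    rw [← h1_eq F] at e1
    exact Subtype.ext e1
  · intro g
    have e1 := two_comm F _ g g.2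
    rw [inv_mul_cancel_left]
    exact Subtype.ext e1
  · intro H _ φ
    have e1 := one_hom F hd h0 h1 φ
    rw [map_mul, map_pow]
    exact e1
  · intro H _ φ
    rw [map_mul, map_pow]
    exact two_hom F _ φ
  · intro H _ φ hφ g
    obtain ⟨c, hc, hc0, hc1, rfl⟩ := hF g
    rw [← F.cv_hom φ]
    refine trivial_of_mu (F.hom φ) ?_ hc (hc0.trans hc1.symm)
    rw [F.cv_hom φ]
    have e1 : (fun t => f1 (ka (1, rad (ec t)))) = fun t => fK (1, rad (ec t)) :=
      funext fun t => (mu_eq t).symm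
    rw [e1]
    exact hφ

theorem isPathConnected_Kn : IsPathConnected Kn.ext :=
  isPathConnected_EK isPathConnected_U2

private theorem tl_lam (T : Tube) (F : Fn T.ext (Pi1 T.Ext (T.bd (1, 1))))
    (hF : ∀ p : Path (T.bd (1, 1)) (T.bd (1, 1)), F.v p = lc p) :
    F.cv (fun t => T.f (ec t, 1)) 0 1 = tl T 1 0 := by
  rw [← tl_eq T F hF 1 0]
  refine F.cv_congr fun t _ => ?_
  simp only [Int.cast_one, Int.cast_zero, one_mul, zero_mul, ec_zero, rad_one]

private theorem tl_mu (T : Tube) (F : Fn T.ext (Pi1 T.Ext (T.bd (1, 1))))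
    (hF : ∀ p : Path (T.bd (1, 1)) (T.bd (1, 1)), F.v p = lc p) :
    F.cv (fun t => T.f (1, rad (ec t))) 0 1 = tl T 0 1 := by
  rw [← tl_eq T F hF 0 1]
  refine F.cv_congr fun t _ => ?_
  simp only [Int.cast_one, Int.cast_zero, one_mul, zero_mul, ec_zero]

theorem cable_Kn : Nonempty (Cable (Pi1 Kn.Ext (Kn.bd (1, 1))) (tl Kn 0 1) (tl Kn 1 0)) := by
  obtain ⟨F, hF⟩ := exists_univ isPathConnected_Kn (Kn.bd (1, 1))
  have h1 := exists_cable (G := Pi1 Kn.Ext (Kn.bd (1, 1))) F (fun g => by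
    obtain ⟨p, rfl⟩ := lc_surjective g
    have e1 := F.cv_path p
    have e2 : ((Kn.bd (1, 1) : Kn.Ext) : S3) = f1 (ka (1, 1)) := by
      rw [← fK_one, ← rad_one]
      rfl
    refine ⟨fun t => (p.extend t : S3), e1.1, ?_, ?_, ?_⟩
    · change ((p.extend 0 : Kn.Ext) : S3) = f1 (ka (1, 1))
      rw [p.extend_zero, e2]
    · change ((p.extend 1 : Kn.Ext) : S3) = f1 (ka (1, 1))
      rw [p.extend_one, e2]
    · exact e1.2.trans (hF p))
  have h2 : muV F = tl Kn 0 1 := tl_mu Kn F hF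
  have h3 : lamV F = tl Kn 1 0 := tl_lam Kn F hF
  rw [h2, h3] at h1
  exact h1

theorem tl_mul (T : Tube) (hT : IsPathConnected T.ext) (k₁ k₂ : ℤ) :
    tl T k₁ k₂ = tl T 1 0 ^ k₁ * tl T 0 1 ^ k₂ := by
  obtain ⟨F, hF⟩ := exists_univ hT (T.bd (1, 1))
  rw [← tl_lam T F hF, ← tl_mu T F hF, ← tl_eq T F hF k₁ k₂]
  exact (torus_tube T F).2 k₁ k₂

end Pool.Agent.EBS
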