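import Pool.Agent.EBS.TDefs

/-!
# N04: the circle action of a torus knot

Let `act u (z₁, z₂) = (u ^ r * z₁, u ^ s * z₂)` for `u ∈ S¹`, a homeomorphism of `S³`, continuous in
`(u, z)`; `act u (act v z) = act (u v) z`; it maps `torusKnot r s` onto itself (the point of `θ` to
the
point of `u θ`). Put `B t z = h.symm (act (ec t) (h z))`. `ec 0 = ec 1 = 1`. `z ∈ T.knot ↔ h z ∈
torusKnot r s` (`hh`, `h` injective), so `hK`. The point `p = T.f (1, 0)` lies in `T.knot`, so
`h p = (θ ^ r, θ ^ s) / √2`, and `h.symm (act u (h p)) ∈ T.knot`, so it is `T.f (γ u, 0)` for a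
unique
`γ u ∈ S¹`. `γ` is continuous: `x ↦ T.f (x, 0)` is an embedding (the composition of the embedding
`T.f` with the embedding `x ↦ (x, 0)`; `Topology.IsEmbedding.continuous_iff`). `γ` is injective: if
`act u (h p) = act v (h p)` then `u ^ r = v ^ r` and `u ^ s = v ^ s`, so with `a r + b s = 1`:
`u = (u ^ r) ^ a * (u ^ s) ^ b = v`.
-/

set_option autoImplicit false

noncomputable section

open Set Topology unitInterval

namespace Pool.Agent.EBS

/-- the action of the circle -/
private def N04act (r s : ℤ) (u : Circle) (z : S3) : S3 :=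
  ⟨(((u ^ r : Circle) : ℂ) * z.1.1, ((u ^ s : Circle) : ℂ) * z.1.2), by
    have h := z.2
    simp only [norm_mul, Circle.norm_coe, one_mul]
    exact h⟩

private theorem N04act_one (r s : ℤ) (z : S3) : N04act r s 1 z = z := by
  apply Subtype.ext
  simp [N04act]

private theorem N04act_mul (r s : ℤ) (u v : Circle) (z : S3) :
    N04act r s u (N04act r s v z) = N04act r s (u * v) z := by
  apply Subtype.ext
  simp only [N04act, mul_zpow, Circle.coe_mul, mul_assoc]

private theorem N04act_cont (r s : ℤ) :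
    Continuous fun p : Circle × S3 => N04act r s p.1 p.2 := by
  have h1 : ∀ k : ℤ, Continuous fun p : Circle × S3 => ((p.1 ^ k : Circle) : ℂ) := by
    intro k
    have hk : Continuous fun p : Circle × S3 => (p.1 ^ k : Circle) :=
      (continuous_zpow k).comp continuous_fst
    exact Continuous.comp (g := fun x : Circle => (x : ℂ)) (by fun_prop) hk
  have h2 : Continuous fun p : Circle × S3 => p.2.1 :=
    continuous_subtype_val.comp continuous_snd
  exact Continuous.subtype_mk (((h1 r).mul (continuous_fst.comp h2)).prodMk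
    ((h1 s).mul (continuous_snd.comp h2))) _

private theorem N04act_mem (r s : ℤ) (u : Circle) {z : S3} (hz : z ∈ torusKnot r s) :
    N04act r s u z ∈ torusKnot r s := by
  obtain ⟨θ, h1, h2⟩ := hz
  refine ⟨u * θ, ?_, ?_⟩
  · change ((u ^ r : Circle) : ℂ) * (z : ℂ × ℂ).1 = _
    rw [h1, mul_zpow, Circle.coe_mul, mul_div_assoc]
  · change ((u ^ s : Circle) : ℂ) * (z : ℂ × ℂ).2 = _
    rw [h2, mul_zpow, Circle.coe_mul, mul_div_assoc]

private theorem N04act_mem_iff (r s : ℤ) (u : Circle) (z : S3) :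
    N04act r s u z ∈ torusKnot r s ↔ z ∈ torusKnot r s := by
  refine ⟨fun h => ?_, N04act_mem r s u⟩
  have h2 := N04act_mem r s u⁻¹ h
  rwa [N04act_mul, inv_mul_cancel, N04act_one] at h2

private theorem N04act_inj {r s : ℤ} (hrs : IsCoprime r s) {z : S3} (hz : z ∈ torusKnot r s)
    {u v : Circle} (h : N04act r s u z = N04act r s v z) : u = v := by
  obtain ⟨θ, h1, h2⟩ := hz
  have hs : ((√2 : ℝ) : ℂ) ≠ 0 := by
    norm_num
  have e1 : ((u ^ r : Circle) : ℂ) * (z : ℂ × ℂ).1 = ((v ^ r : Circle) : ℂ) * (z : ℂ × ℂ).1 :=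
    congrArg (fun w : S3 => (w : ℂ × ℂ).1) h
  have e2 : ((u ^ s : Circle) : ℂ) * (z : ℂ × ℂ).2 = ((v ^ s : Circle) : ℂ) * (z : ℂ × ℂ).2 :=
    congrArg (fun w : S3 => (w : ℂ × ℂ).2) h
  have n1 : (z : ℂ × ℂ).1 ≠ 0 := by
    rw [h1]
    exact div_ne_zero (Circle.coe_ne_zero _) hs
  have n2 : (z : ℂ × ℂ).2 ≠ 0 := by
    rw [h2]
    exact div_ne_zero (Circle.coe_ne_zero _) hs
  have f1 : u ^ r = v ^ r := Circle.ext (mul_right_cancel₀ n1 e1)
  have f2 : u ^ s = v ^ s := Circle.ext (mul_right_cancel₀ n2 e2)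
  obtain ⟨a, b, hab⟩ := hrs
  have key : ∀ w : Circle, w = (w ^ r) ^ a * (w ^ s) ^ b := by
    intro w
    rw [← zpow_mul, ← zpow_mul, ← zpow_add, mul_comm r a, mul_comm s b, hab, zpow_one]
  rw [key u, key v, f1, f2]

theorem exists_action (T : Tube) {r s : ℤ} (hrs : IsCoprime r s) (h : S3 ≃ₜ S3)
    (hh : h '' T.knot = torusKnot r s) :
    ∃ (B : ℝ → S3 → S3) (γ : Circle → Circle), Continuous (Function.uncurry B) ∧
      (∀ z, B 0 z = z) ∧ (∀ z, B 1 z = z) ∧ (∀ t z, B t z ∈ T.knot ↔ z ∈ T.knot) ∧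
      Continuous γ ∧ Function.Injective γ ∧ ∀ t, B t (T.f (1, 0)) = T.f (γ (ec t), 0) := by
  have hmem : ∀ z, h z ∈ torusKnot r s ↔ z ∈ T.knot := by
    intro z
    rw [← hh]
    exact h.injective.mem_set_image
  have hK : ∀ u z, h.symm (N04act r s u (h z)) ∈ T.knot ↔ z ∈ T.knot := by
    intro u z
    rw [← hmem, h.apply_symm_apply, N04act_mem_iff, hmem]
  have hp : T.f (1, 0) ∈ T.knot := ⟨1, rfl⟩
  have hγ : ∀ u : Circle, ∃ x : Circle, T.f (x, 0) = h.symm (N04act r s u (h (T.f (1, 0)))) :=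
    fun u => (hK u _).2 hp
  choose γ hγ using hγ
  have hι : Continuous fun x : Circle => T.f (x, 0) :=
    T.emb.continuous.comp (continuous_id.prodMk continuous_const)
  have hιi : Function.Injective fun x : Circle => T.f (x, 0) := fun x y hxy =>
    congrArg Prod.fst (T.emb.injective hxy)
  have hact : Continuous fun p : Circle × S3 => h.symm (N04act r s p.1 (h p.2)) :=
    h.symm.continuous.comp ((N04act_cont r s).comp
      (continuous_fst.prodMk (h.continuous.comp continuous_snd)))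
  refine ⟨fun t z => h.symm (N04act r s (ec t) (h z)), γ, ?_, fun z => ?_, fun z => ?_,
    fun t z => hK _ z, ?_, ?_, fun t => (hγ _).symm⟩
  · exact hact.comp ((continuous_ec.comp continuous_fst).prodMk continuous_snd)
  · simp only [ec_zero, N04act_one, h.symm_apply_apply]
  · simp only [ec_one, N04act_one, h.symm_apply_apply]
  · rw [(hι.isClosedEmbedding hιi).isEmbedding.continuous_iff]
    have e : ((fun x : Circle => T.f (x, 0)) ∘ γ) =
        fun u => h.symm (N04act r s u (h (T.f (1, 0)))) := funext hγ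
    rw [e]
    exact hact.comp (continuous_id.prodMk continuous_const)
  · intro u v huv
    have e1 : h.symm (N04act r s u (h (T.f (1, 0)))) = h.symm (N04act r s v (h (T.f (1, 0)))) := by
      rw [← hγ, ← hγ, huv]
    exact N04act_inj hrs ((hmem _).2 hp) (h.symm.injective e1)

end Pool.Agent.EBS
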