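import Pool.Agent.EBS.N08
import Pool.Agent.EBS.G19

/-!
# N09: central elements and the two representations

Hypothesis: for all `F : Fn EK H` the element `lam ^ j * mu ^ k` commutes with `F(c)` for all
closed curves `c` at `fK (1, 1)`. By `h1_eq` `lam = (mu ^ 21)⁻¹ * h₁`, `h₁` the value on
`f1 (ka (ec t, 1))`; `mu` is the value on `f1 (ka (1, rad (ec t)))` (`mu_eq`). Let `d` be as in
`exists_d` and `w` the value on `f1 ∘ d`.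
* `five_typeI`: apply `exists_FK` to `C0` and `C1 = (M ^ 5)⁻¹`, `C2 = (M ^ 3)⁻¹` with `M`, `C0` from
  `typeI`: `C1 ^ 3 = C2 ^ 5 = (M ^ 15)⁻¹ = M⁻¹`, `(C2 ^ 2)⁻¹ * C1 = M`, `C0 ^ 3 = 1 = M⁻³ M³⁸` (`M⁷
  = 1`).
  All elements of the closure are powers of `M`, so `w` and `g` are.
  `mu = g ((M⁻¹ M¹³)⁻¹ C0) g⁻¹ = g (M² C0) g⁻¹` (`M⁻¹² = M²`), `h₁ = g C0³ g⁻¹ = 1`, so
  `lam = mu ^ (-21)`, `lam ^ j * mu ^ k = mu ^ (k - 21 j)`. By `conj_value` for the curve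
  `f1 (1, 2 ec t)` (`cv_m`, `f1_cv`, in `U1 ∩ U2 ⊆ EK`) it commutes with `w M w⁻¹ = M`, so
  `(M² C0) ^ (k - 21 j)` commutes with `g⁻¹ M g = M`. If `5 ∤ k - 21 j`, choose `a`, `b` with
  `a (k - 21 j) + 5 b = 1`: `M² C0 = ((M² C0) ^ (k - 21 j)) ^ a` commutes with `M`, a contradiction.
* `five_typeII`: apply `exists_FK` to `C0 = M = (C2 ^ 2)⁻¹ * C1`, `C1`, `C2` from `typeII`:
  `C1³ = 1 = C2⁵`, `C0³ = M³ = M³⁸` (`M⁵ = 1`); the closure of `{1, M}` consists of powers of `M`.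
  `mu = g (M⁻¹³ M) g⁻¹ = M⁻¹² = M³`, `h₁ = g M³ g⁻¹ = M³`, `lam = (M⁶³)⁻¹ M³ = 1`. So `M ^ (3 k)`
  commutes
  with `w C1 w⁻¹` (`conj_value` for the curve with value `C1`; `U2 ⊆ EK`), so with `C1`. If `5 ∤ k`
  then
  `5 ∤ 3 k` and as before `M` commutes with `C1`, a contradiction.
-/

set_option autoImplicit false

noncomputable section

open Set Topology unitInterval

namespace Pool.Agent.EBS

private theorem n9_mono {Z : Type} [TopologicalSpace Z] {Y Y' : Set Z} (h : Y ⊆ Y')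
    {c : ℝ → Z} {u v : ℝ} (hc : Cv Y c u v) : Cv Y' c u v :=
  ⟨hc.le, hc.cont, fun t ht => h (hc.mem t ht)⟩

private theorem n9_zpow {H : Type} [Group H] {M x y z : H} (hy : ∃ m : ℤ, y = M ^ m)
    (hz : ∃ m : ℤ, z = M ^ m) (hx : x ∈ Subgroup.closure {y, z}) : ∃ k : ℤ, x = M ^ k := by
  obtain ⟨m, rfl⟩ := hy
  obtain ⟨n, rfl⟩ := hz
  have h : Subgroup.closure {M ^ m, M ^ n} ≤ Subgroup.zpowers M := by
    rw [Subgroup.closure_le]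
    rintro y (rfl | rfl)
    · exact ⟨m, rfl⟩
    · exact ⟨n, rfl⟩
  obtain ⟨k, hk⟩ := h hx
  exact ⟨k, hk.symm⟩

private theorem n9_five {H : Type} [Group H] {X Y : H} (hX : X ^ 5 = 1) (hc : ¬ Commute X Y)
    {n : ℤ} (h : Commute (X ^ n) Y) : 5 ∣ n := by
  by_contra hn
  have hp : Prime (5 : ℤ) := by norm_num
  obtain ⟨a, b, hab⟩ := (hp.coprime_iff_not_dvd (n := n)).2 hn
  apply hc
  have h5 : X ^ (5 : ℤ) = 1 := by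
    rw [← hX]
    exact zpow_natCast X 5
  have e : X = (X ^ n) ^ b := by
    calc X = X ^ (5 * a + n * b) := by rw [mul_comm 5 a, mul_comm n b, hab, zpow_one]
      _ = (X ^ n) ^ b := by rw [zpow_add, zpow_mul, zpow_mul, h5, one_zpow, one_mul]
  rw [e]
  exact h.zpow_left b

/-- conjugation by a power of `M` -/
private theorem n9_conj {H : Type} [Group H] {M X : H} {b : ℤ}
    (h : Commute (M ^ b * X * (M ^ b)⁻¹) M) : Commute X M := by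
  have h1 : Commute (M ^ b) M := (Commute.refl M).zpow_left b
  have h2 := (h1.inv_left.mul_left h).mul_left h1
  have e : (M ^ b)⁻¹ * (M ^ b * X * (M ^ b)⁻¹) * M ^ b = X := by group
  rwa [e] at h2

private theorem n9_m_cv : Cv EK (fun t => f1 (1, 2 * (ec t : ℂ))) 0 1 := by
  have h : Cv (U1 ∩ U2) (fun t => f1 (1, 2 * (ec t : ℂ))) 0 1 := by
    rw [U1_inter_U2]
    exact f1_cv cv_m
  exact n9_mono (fun z hz => U2_sub hz.2) h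

private theorem n9_mu {H : Type} [Group H] (F : Fn EK H) :
    F.cv (fun t => fK (1, rad (ec t))) 0 1 = F.cv (fun t => f1 (ka (1, rad (ec t)))) 0 1 :=
  F.cv_congr fun t _ => mu_eq t

theorem five_typeI {j k : ℤ} (h : ∀ (H : Type) [Group H] (F : Fn EK H) (c : ℝ → S3),
    Cv EK c 0 1 → c 0 = fK (1, 1) → c 1 = fK (1, 1) →
      Commute ((F.cv (fun t => fK (ec t, 1)) 0 1) ^ j *
        (F.cv (fun t => fK (1, rad (ec t))) 0 1) ^ k) (F.cv c 0 1)) : 5 ∣ k - 21 * j := by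
  obtain ⟨M, C0, hM, hC0, hX, hnc⟩ := typeI
  obtain ⟨d, hd, h0, h1⟩ := exists_d
  have hMz : M ^ (7 : ℤ) = 1 := by
    rw [← hM]
    exact zpow_natCast M 7
  have e1 : ((M ^ 5)⁻¹) ^ 3 = M⁻¹ := by
    have e : ((M ^ 5)⁻¹) ^ 3 = (M ^ (7 : ℤ)) ^ (-2 : ℤ) * M⁻¹ := by group
    rw [e, hMz, one_zpow, one_mul]
  have e2 : (((M ^ 3)⁻¹) ^ 2)⁻¹ * (M ^ 5)⁻¹ = M := by group
  have e12 : ((M ^ 5)⁻¹) ^ 3 = ((M ^ 3)⁻¹) ^ 5 := by group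
  have e0 : C0 ^ 3 = (((M ^ 5)⁻¹) ^ 3) ^ 3 * ((((M ^ 3)⁻¹) ^ 2)⁻¹ * (M ^ 5)⁻¹) ^ 38 := by
    rw [e1, e2, hC0]
    have e : (M⁻¹) ^ 3 * M ^ 38 = (M ^ (7 : ℤ)) ^ (5 : ℤ) := by group
    rw [e, hMz, one_zpow]
  obtain ⟨F, g, hg, hF, hm, hmu, hh, -⟩ := exists_FK C0 (M ^ 5)⁻¹ (M ^ 3)⁻¹ e12 e0
  rw [e1, e2] at hg hmu
  rw [e2] at hm
  have hp1 : ∃ m : ℤ, M⁻¹ = M ^ m := ⟨-1, by rw [zpow_neg, zpow_one]⟩
  have hp2 : ∃ m : ℤ, M = M ^ m := ⟨1, by rw [zpow_one]⟩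
  obtain ⟨b, rfl⟩ := n9_zpow hp1 hp2 hg
  have hw := hF d 0 1 hd
  rw [e1, e2] at hw
  obtain ⟨a, hw⟩ := n9_zpow hp1 hp2 hw
  have e3 : (M⁻¹ * M ^ 13)⁻¹ = M ^ 2 := by
    have e : (M⁻¹ * M ^ 13)⁻¹ = (M ^ (7 : ℤ)) ^ (-2 : ℤ) * M ^ 2 := by group
    rw [e, hMz, one_zpow, one_mul]
  rw [← n9_mu, e3] at hmu
  rw [hC0, mul_one, mul_inv_cancel, ← h1_eq, hmu] at hh
  obtain ⟨c', hc', hc0, hc1, hv⟩ := conj_value hd h0 h1 n9_m_cv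
    (by rw [ec_zero, Circle.coe_one, mul_one]) (by rw [ec_one, Circle.coe_one, mul_one])
  have h2 := h _ F c' hc' hc0 hc1
  rw [hv, hm, hw, hmu] at h2
  have e4 : M ^ a * M * (M ^ a)⁻¹ = M := by group
  have e5 : F.cv (fun t => fK (ec t, 1)) 0 1 =
      (M ^ b * (M ^ 2 * C0) * (M ^ b)⁻¹) ^ (-21 : ℤ) := by
    rw [zpow_neg]
    exact eq_inv_of_mul_eq_one_right hh
  rw [e4, e5, ← zpow_mul, ← zpow_add, conj_zpow] at h2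
  have h3 := n9_five hX hnc (n9_conj h2)
  have e6 : -21 * j + k = k - 21 * j := by ring
  rwa [e6] at h3

theorem five_typeII {j k : ℤ} (h : ∀ (H : Type) [Group H] (F : Fn EK H) (c : ℝ → S3),
    Cv EK c 0 1 → c 0 = fK (1, 1) → c 1 = fK (1, 1) →
      Commute ((F.cv (fun t => fK (ec t, 1)) 0 1) ^ j *
        (F.cv (fun t => fK (1, rad (ec t))) 0 1) ^ k) (F.cv c 0 1)) : 5 ∣ k := by
  obtain ⟨C1, C2, hC1, hC2, hM, hnc⟩ := typeII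
  obtain ⟨d, hd, h0, h1⟩ := exists_d
  obtain ⟨M, hMd⟩ : ∃ M, (C2 ^ 2)⁻¹ * C1 = M := ⟨_, rfl⟩
  rw [hMd] at hM hnc
  have hMz : M ^ (5 : ℤ) = 1 := by
    rw [← hM]
    exact zpow_natCast M 5
  have e0 : M ^ 3 = (C1 ^ 3) ^ 3 * ((C2 ^ 2)⁻¹ * C1) ^ 38 := by
    rw [hC1, one_pow, one_mul, hMd]
    have e : M ^ 38 = (M ^ (5 : ℤ)) ^ (7 : ℤ) * M ^ 3 := by group
    rw [e, hMz, one_zpow, one_mul]
  obtain ⟨F, g, hg, hF, hm, hmu, hh, c, hc, hc0, hc1, hcv⟩ :=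
    exists_FK M C1 C2 (hC1.trans hC2.symm) e0
  rw [hC1, hMd] at hg hmu
  have hp1 : ∃ m : ℤ, 1 = M ^ m := ⟨0, by rw [zpow_zero]⟩
  have hp2 : ∃ m : ℤ, M = M ^ m := ⟨1, by rw [zpow_one]⟩
  obtain ⟨b, rfl⟩ := n9_zpow hp1 hp2 hg
  have hw := hF d 0 1 hd
  rw [hC1, hMd] at hw
  obtain ⟨a, hw⟩ := n9_zpow hp1 hp2 hw
  have e3 : M ^ b * ((1 * M ^ 13)⁻¹ * M) * (M ^ b)⁻¹ = M ^ 3 := by
    have e : M ^ b * ((1 * M ^ 13)⁻¹ * M) * (M ^ b)⁻¹ = (M ^ (5 : ℤ)) ^ (-3 : ℤ) * M ^ 3 := by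
      group
    rw [e, hMz, one_zpow, one_mul]
  have e4 : M ^ b * M ^ 3 * (M ^ b)⁻¹ = M ^ 3 := by group
  rw [← n9_mu, e3] at hmu
  rw [← h1_eq, hmu, e4] at hh
  have e5 : F.cv (fun t => fK (ec t, 1)) 0 1 = 1 := by
    have e : (M ^ 3) ^ 21 = (M ^ (5 : ℤ)) ^ (12 : ℤ) * M ^ 3 := by group
    rw [e, hMz, one_zpow, one_mul] at hh
    exact mul_eq_left.1 hh
  obtain ⟨c', hc', hc0', hc1', hv⟩ := conj_value hd h0 h1 (n9_mono U2_sub hc) hc0 hc1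
  have h2 := h _ F c' hc' hc0' hc1'
  rw [hv, hcv, hw, hmu, e5, one_zpow, one_mul] at h2
  have h3 : Commute ((M ^ 3) ^ k) (M ^ a) :=
    ((Commute.refl M).pow_left 3).zpow_zpow k a
  have h4 := (h3.inv_right.mul_right h2).mul_right h3
  have e6 : (M ^ a)⁻¹ * (M ^ a * C1 * (M ^ a)⁻¹) * M ^ a = C1 := by group
  rw [e6] at h4
  have e7 : (M ^ 3) ^ k = M ^ (3 * k) := by
    rw [zpow_mul]
    rfl
  rw [e7] at h4
  have h5 := n9_five hM hnc h4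
  omega

end Pool.Agent.EBS
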