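import Pool.Agent.EBS.N03
import Pool.Agent.EBS.N04
import Pool.Agent.EBS.N09

/-!
# N10: the knot is not a torus knot

Suppose `h '' Kn.knot = torusKnot r s`, `IsCoprime r s`. By `exists_action` and `central` (for
`T = Kn`, `Kn.f = fK`, `Kn.ext = EK` by definition) there are `j`, `k` with `j = 1` or `j = -1`
such that
the hypothesis of `five_typeI` and `five_typeII` holds. So `5 ∣ k` and `5 ∣ k - 21 * j`, a
contradiction.
-/

set_option autoImplicit false

noncomputable section

open Set Topology unitInterval

namespace Pool.Agent.EBS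

theorem notTorus : Kn.NotTorus := by
  intro r s hrs h hh
  obtain ⟨B, γ, hB, h0, h1, hK, hγ, hi, hBγ⟩ := exists_action Kn hrs h hh
  obtain ⟨j, k, hj, hc⟩ := central Kn hB h0 h1 hK hγ hi hBγ
  have h5 := five_typeI hc
  have h6 := five_typeII hc
  rcases hj with rfl | rfl <;> omega

end Pool.Agent.EBS
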