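import Pool.Agent.EBS.TP

/-!
# T11: the collar of a surface

Let `X = T.Ext` (a subspace of the sphere, so Hausdorff), `S : Surf T`, `col : S × (-1, 1) → X` the
open
embedding. Put `N = col '' {(s, r) | |r| < 1/2}`, `t (col (s, r)) = 2 r` (and `t = 0` outside of the
range of `col`), `η (col (s, r)) = ec ((max (-1) (min 1 (2 r)) + 1) / 2)` and `η = 1` outside of the
range of `col`. (The inverse of `col` on its range: `S.emb.toOpenPartialHomeomorph` or choice and
`S.emb.injective`.)
* `N` is open (`IsOpenEmbedding.isOpenMap`) and path connected: the image of `S × (-1/2, 1/2)`, a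
  product of path connected sets (`S.connected`; `isPathConnected_iff_pathConnectedSpace`, the
  interval
  is convex). `t` is continuous on the range of `col` (the inverse is continuous there).
* `η` is continuous: on the open set `range col` it is a composition of continuous maps; on the
  complement of the compact (so closed) set `col '' (S × [-1/2, 1/2])` it is constant: for `|r| ≥
  1/2`
  `ec ((± 1 + 1) / 2) = ec 0` or `ec 1 = 1`. These two open sets cover `X`.
* `η = ec ((t + 1) / 2)` on `N`, `η = 1` outside. `zero`: `col (s, 0) = s` with `s ∈ S` (nonempty).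
* `core`: `x = col (s, r) ∈ N` with `2 r = 0`: `x = col (s, 0) = s` (`col_zero`). Conversely
  `x ∈ S`: `x = col (x, 0)`.
-/

set_option autoImplicit false

noncomputable section

open Set Topology unitInterval

namespace Pool.Agent.EBS

private theorem t11_one {r : ℝ} (h : 1 / 2 ≤ |r|) :
    ec ((max (-1) (min 1 (2 * r)) + 1) / 2) = 1 := by
  rcases le_abs.1 h with h1 | h1
  · rw [min_eq_left (by linarith), max_eq_right (by norm_num)]
    norm_num
    exact ec_one
  · rw [min_eq_right (by linarith), max_eq_left (by linarith)]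
    norm_num
    exact ec_zero

private theorem t11_mid {r : ℝ} (h : |r| < 1 / 2) : max (-1) (min 1 (2 * r)) = 2 * r := by
  rw [abs_lt] at h
  rw [min_eq_right (by linarith), max_eq_right (by linarith)]

theorem exists_collar {T : Tube} (S : Surf T) : ∃ D : WData T.Ext, IsCollar S D := by
  classical
  have hcs : CompactSpace S.S := isCompact_iff_compactSpace.1 S.compact
  have hpc : PathConnectedSpace S.S := isPathConnected_iff_pathConnectedSpace.1 S.connected
  obtain ⟨ρ, hρ, hρ'⟩ : ∃ ρ : T.Ext → ℝ, (∀ y, ρ (S.col y) = y.2) ∧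
      ∀ x, x ∉ range S.col → ρ x = 1 := by
    refine ⟨fun x => if h : x ∈ range S.col then ((Classical.choose h).2 : ℝ) else 1,
      fun y => ?_, fun x hx => dif_neg hx⟩
    have h : S.col y ∈ range S.col := ⟨y, rfl⟩
    show (if h : S.col y ∈ range S.col then ((Classical.choose h).2 : ℝ) else 1) = _
    rw [dif_pos h, S.emb.injective (Classical.choose_spec h)]
  have hcr : ∀ y, ContinuousAt ρ (S.col y) := by
    intro y
    rw [← S.emb.continuousAt_iff]
    have h1 : ρ ∘ S.col = fun y => (y.2 : ℝ) := funext hρ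
    rw [h1]
    exact (continuous_subtype_val.comp continuous_snd).continuousAt
  have hcol : ∀ x, |ρ x| < 1 / 2 →
      ∃ y : S.S × Ioo (-1 : ℝ) 1, |(y.2 : ℝ)| < 1 / 2 ∧ S.col y = x := by
    intro x hx
    by_cases h : x ∈ range S.col
    · obtain ⟨y, rfl⟩ := h
      rw [hρ] at hx
      exact ⟨y, hx, rfl⟩
    · rw [hρ' x h] at hx
      norm_num at hx
  have hopen : IsOpen {x | |ρ x| < 1 / 2} := by
    refine isOpen_iff_mem_nhds.2 fun x hx => ?_
    obtain ⟨y, hy, rfl⟩ := hcol x hx
    exact (hcr y).abs (Iio_mem_nhds hx)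
  have hconn : IsPathConnected {x | |ρ x| < 1 / 2} := by
    have : PathConnectedSpace (Ioo (-(1 / 2) : ℝ) (1 / 2)) :=
      isPathConnected_iff_pathConnectedSpace.1
        ((convex_Ioo _ _).isPathConnected ⟨0, by norm_num, by norm_num⟩)
    have h1 : {x | |ρ x| < 1 / 2} = range fun z : S.S × Ioo (-(1 / 2) : ℝ) (1 / 2) =>
        S.col (z.1, ⟨(z.2 : ℝ), by linarith [z.2.2.1], by linarith [z.2.2.2]⟩) := by
      ext x
      constructor
      · intro hx
        obtain ⟨y, hy, rfl⟩ := hcol x hx
        exact ⟨(y.1, ⟨(y.2 : ℝ), abs_lt.1 hy⟩), rfl⟩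
      · rintro ⟨z, rfl⟩
        show |ρ (S.col _)| < 1 / 2
        rw [hρ]
        exact abs_lt.2 z.2.2
    rw [h1]
    refine isPathConnected_range (S.emb.continuous.comp (continuous_fst.prodMk ?_))
    exact Continuous.subtype_mk (continuous_subtype_val.comp continuous_snd) _
  have hF : Continuous fun r : ℝ => ec ((max (-1) (min 1 (2 * r)) + 1) / 2) := by
    refine continuous_ec.comp ?_
    fun_prop
  have hη : Continuous fun x => ec ((max (-1) (min 1 (2 * ρ x)) + 1) / 2) := by
    rw [continuous_iff_continuousAt]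
    intro x
    by_cases h : x ∈ range S.col
    · obtain ⟨y, rfl⟩ := h
      exact (hF.continuousAt (x := ρ (S.col y))).comp (hcr y)
    · have hK : IsCompact (range fun z : S.S × Icc (-(1 / 2) : ℝ) (1 / 2) =>
          S.col (z.1, ⟨(z.2 : ℝ), by linarith [z.2.2.1], by linarith [z.2.2.2]⟩)) := by
        refine isCompact_range (S.emb.continuous.comp (continuous_fst.prodMk ?_))
        exact Continuous.subtype_mk (continuous_subtype_val.comp continuous_snd) _
      have hx : (range fun z : S.S × Icc (-(1 / 2) : ℝ) (1 / 2) =>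
          S.col (z.1, ⟨(z.2 : ℝ), by linarith [z.2.2.1], by linarith [z.2.2.2]⟩))ᶜ ∈ 𝓝 x := by
        refine hK.isClosed.isOpen_compl.mem_nhds ?_
        rintro ⟨z, hz⟩
        exact h ⟨_, hz⟩
      refine (continuousAt_const (y := (1 : Circle))).congr ?_
      filter_upwards [hx] with y hy
      refine (t11_one ?_).symm
      by_contra hcon
      obtain ⟨w, hw, rfl⟩ := hcol y (not_le.1 hcon)
      exact hy ⟨(w.1, ⟨(w.2 : ℝ), abs_le.1 hw.le⟩), rfl⟩
  have hz0 : ∀ x (hx : x ∈ S.S), ρ x = 0 := by
    intro x hx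
    have h1 := hρ (⟨x, hx⟩, ⟨0, by norm_num, by norm_num⟩)
    rw [S.col_zero] at h1
    exact h1
  refine ⟨⟨{x | |ρ x| < 1 / 2}, fun x => 2 * ρ x,
    fun x => ec ((max (-1) (min 1 (2 * ρ x)) + 1) / 2), hopen, hconn, fun x hx => ?_,
    fun x hx => ?_, hη, fun x hx => ?_, fun x hx => t11_one (not_lt.1 hx), ?_⟩,
    ⟨fun s r hr => ?_, fun x hx => ?_, fun x => ⟨fun hx => ?_, fun hx => ?_⟩⟩⟩
  · obtain ⟨y, hy, rfl⟩ := hcol x hx
    exact (continuousAt_const.mul (hcr y)).continuousWithinAt
  · have h1 : |ρ x| < 1 / 2 := hx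
    rw [abs_mul, abs_two]
    linarith
  · show ec ((max (-1) (min 1 (2 * ρ x)) + 1) / 2) = ec ((2 * ρ x + 1) / 2)
    rw [t11_mid hx]
  · obtain ⟨s, hs⟩ := S.connected.nonempty
    refine ⟨s, ?_, ?_⟩
    · show |ρ s| < 1 / 2
      rw [hz0 s hs]
      norm_num
    · show 2 * ρ s = 0
      rw [hz0 s hs, mul_zero]
  · constructor
    · show |ρ (S.col (s, r))| < 1 / 2
      rw [hρ]
      exact hr
    · show 2 * ρ (S.col (s, r)) = 2 * r
      rw [hρ]
  · obtain ⟨y, hy, h1⟩ := hcol x hx
    exact ⟨y.1, y.2, hy, h1⟩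
  · obtain ⟨hx1, hx2⟩ := hx
    obtain ⟨y, hy, rfl⟩ := hcol x hx1
    have h1 : (y.2 : ℝ) = 0 := by
      have h2 : 2 * ρ (S.col y) = 0 := hx2
      rw [hρ] at h2
      linarith
    have h2 : y = (y.1, ⟨0, by norm_num, by norm_num⟩) := Prod.ext rfl (Subtype.ext h1)
    rw [h2, S.col_zero]
    exact y.1.2
  · constructor
    · show |ρ x| < 1 / 2
      rw [hz0 x hx]
      norm_num
    · show 2 * ρ x = 0
      rw [hz0 x hx, mul_zero]

end Pool.Agent.EBS
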