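import Pool.Agent.EBS.TP

/-!
# T12: the plane of the boundary torus

* `exists_enum`: every `x ∈ F` is `ec r` for a unique `r ∈ [0, 1)` (`ec_surjective`, `Int.fract`,
  `ec_eq_iff`). Let `E` be the finite set of these numbers (`Finset.image` of `x ↦ Int.fract (ag
  ..)`; `n`
  elements), `r : Fin n → ℝ` its increasing enumeration (`Finset.orderEmbOfFin`), and
  `f i = r (i mod n) + (i / n)` (floor division, `Int.emod_emod_of_dvd`, `Int.ediv_add_emod`). `f`
  is
  strictly increasing: `f i < f (i + 1)`: if `i mod n < n - 1` by the monotonicity of `r`, otherwise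
  `f (i + 1) = r 0 + i / n + 1 > f i` since `r < 1 ≤ r 0 + 1` (`strictMono_int_of_lt_succ`).
  `ec x ∈ F ↔ Int.fract x ∈ E ↔ ∃ j, x = r j + ⌊x⌋ ↔ x ∈ range f`.
* `bd_injective`: `T.emb.injective`, and `rad y = rad y'` implies `y = y'` for points of the circle
  (`y = rad y / ‖rad y‖`).
* `exists_plane`: `b v = T.bd (Ψ (ec v.1, ec v.2))`, `f` from `exists_enum`. `per`: `ec (a + k) =
  ec a`.
  `mem`: by `IsCollar.core` the left side is `b v ∈ S`, i.e. `Ψ (ec v.1, ec v.2) ∈ {z | T.bd z ∈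
  S}`, i.e.
  (`hS`, `Ψ` injective) `ec v.1 ^ p * ec v.2 ^ (-q) = ec (lf p q v) ∈ F` (`ec_zpow`, `ec_add`).
  `cross`: let `x₀ = b v ∈ S`, `U ∈ 𝓝 v`. `bd ∘ Ψ` is a continuous injective map of a compact space
  into a
  Hausdorff space, so an embedding with range `range T.bd` (`Ψ` is bijective;
  `Continuous.isClosedEmbedding`), and `(a, c) ↦ (ec a, ec c)` is an open map
  (`isCoveringMap_ec.isOpenMap`, `IsOpenMap.prodMap`). So there is an open set `O ⊆ X` with `x₀ ∈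
  O` and
  `O ∩ range T.bd ⊆ b '' U`. The curve `r ↦ S.col (x₀, r)` is continuous and `S.col (x₀, 0) = x₀`,
  so
  `S.col (x₀, r) ∈ O` for all small `|r|`; it lies in `range T.bd` (`col_bd`), so it is `b v'` with
  `v' ∈ U`, and `D.t (b v') = 2 r` (`IsCollar.mem`). Take a small `r > 0` and a small `r < 0`.
-/

set_option autoImplicit false

noncomputable section

open Set Topology unitInterval

namespace Pool.Agent.EBS

theorem exists_enum {F : Finset Circle} {n : ℕ} (hn : 1 ≤ n) (hF : F.card = n) :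
    ∃ f : ℤ → ℝ, StrictMono f ∧ (∀ i, f (i + n) = f i + 1) ∧ ∀ r, ec r ∈ F ↔ r ∈ range f := by
  classical
  have hex : ∀ x : Circle, ∃ r : ℝ, 0 ≤ r ∧ r < 1 ∧ ec r = x := by
    intro x
    obtain ⟨r, hr⟩ := ec_surjective x
    refine ⟨Int.fract r, Int.fract_nonneg r, Int.fract_lt_one r, ?_⟩
    rw [← hr, ec_eq_iff]
    exact ⟨-⌊r⌋, by rw [Int.cast_neg, ← sub_eq_add_neg]; rfl⟩
  choose g hg0 hg1 hg using hex
  have hinj : Function.Injective g := fun x y h => by rw [← hg x, ← hg y, h]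
  set E : Finset ℝ := F.image g with hE
  have hEc : E.card = n := by rw [hE, Finset.card_image_of_injective F hinj, hF]
  let r : Fin n ↪o ℝ := E.orderEmbOfFin hEc
  have hr : ∀ j, r j ∈ E := fun j => E.orderEmbOfFin_mem hEc j
  have hr' : ∀ x ∈ E, ∃ j, r j = x := by
    intro x hx
    have h1 : x ∈ range r := by
      rw [Finset.range_orderEmbOfFin]
      exact hx
    exact h1
  have hr0 : ∀ j, 0 ≤ r j ∧ r j < 1 := by
    intro j
    obtain ⟨x, -, hx⟩ := Finset.mem_image.1 (hr j)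
    rw [← hx]
    exact ⟨hg0 x, hg1 x⟩
  have hn0 : (0 : ℤ) < n := by exact_mod_cast hn
  have hlt : ∀ i : ℤ, (i % n).toNat < n := by
    intro i
    have h1 := Int.emod_nonneg i hn0.ne'
    have h2 := Int.emod_lt_of_pos i hn0
    omega
  let f : ℤ → ℝ := fun i => r ⟨(i % n).toNat, hlt i⟩ + ((i / n : ℤ) : ℝ)
  have hf : ∀ (i : ℤ) (j : Fin n) (k : ℤ), i = j + n * k → f i = r j + k := by
    intro i j k h
    have hj : ((j : ℕ) : ℤ) < n := by exact_mod_cast j.2
    have h1 : i % n = j := by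
      rw [h, Int.add_mul_emod_self_left]
      exact Int.emod_eq_of_lt (by omega) hj
    have h2 : i / n = k := by
      rw [h, Int.add_mul_ediv_left _ _ hn0.ne', Int.ediv_eq_zero_of_lt (by omega) hj, zero_add]
    have h3 : (⟨(i % n).toNat, hlt i⟩ : Fin n) = j := Fin.ext (by
      show (i % n).toNat = (j : ℕ)
      rw [h1]
      exact Int.toNat_natCast _)
    change r ⟨(i % n).toNat, hlt i⟩ + ((i / n : ℤ) : ℝ) = _
    rw [h3, h2]
  have hdec : ∀ i : ℤ, ∃ (j : Fin n) (k : ℤ), i = j + n * k := by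
    intro i
    refine ⟨⟨(i % n).toNat, hlt i⟩, i / n, ?_⟩
    have h1 := Int.emod_nonneg i hn0.ne'
    have h2 := Int.emod_add_mul_ediv i n
    change i = ((i % n).toNat : ℤ) + n * (i / n)
    rw [Int.toNat_of_nonneg h1]
    exact h2.symm
  refine ⟨f, ?_, ?_, ?_⟩
  · refine strictMono_int_of_lt_succ fun i => ?_
    obtain ⟨j, k, h⟩ := hdec i
    rw [hf i j k h]
    by_cases hj : (j : ℕ) + 1 < n
    · have h1 : i + 1 = ((⟨(j : ℕ) + 1, hj⟩ : Fin n) : ℕ) + n * k := by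
        rw [h]
        push_cast
        ring
      rw [hf (i + 1) _ k h1]
      have h2 : r j < r ⟨(j : ℕ) + 1, hj⟩ := r.strictMono (Fin.lt_def.2 (Nat.lt_succ_self _))
      linarith
    · have h0 : (j : ℕ) + 1 = n := by
        have := j.2
        omega
      have h1 : i + 1 = ((⟨0, by omega⟩ : Fin n) : ℕ) + n * (k + 1) := by
        have h2 : ((j : ℕ) : ℤ) + 1 = n := by exact_mod_cast h0
        rw [h]
        push_cast
        linear_combination h2
      rw [hf (i + 1) _ (k + 1) h1]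
      have h2 := (hr0 j).2
      have h3 := (hr0 ⟨0, by omega⟩).1
      push_cast
      linarith
  · intro i
    obtain ⟨j, k, h⟩ := hdec i
    have h1 : i + n = j + n * (k + 1) := by
      rw [h]
      ring
    rw [hf i j k h, hf (i + n) j (k + 1) h1]
    push_cast
    ring
  · intro x
    constructor
    · intro hx
      obtain ⟨j, hj⟩ := hr' (g (ec x)) (Finset.mem_image_of_mem g hx)
      obtain ⟨m, hm⟩ := ec_eq_iff.1 (hg (ec x)).symm
      refine ⟨j + n * m, ?_⟩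
      rw [hf _ j m rfl, hj, ← hm]
    · rintro ⟨i, rfl⟩
      obtain ⟨j, k, h⟩ := hdec i
      rw [hf i j k h]
      obtain ⟨z, hz, hz'⟩ := Finset.mem_image.1 (hr j)
      have h1 : ec (r j + k) = z := by
        rw [← hg z, hz', ec_eq_iff]
        exact ⟨k, rfl⟩
      rw [h1]
      exact hz

theorem bd_injective (T : Tube) : Function.Injective T.bd := by
  intro z z' h
  have h1 : T.f (z.1, rad z.2) = T.f (z'.1, rad z'.2) := congrArg Subtype.val h
  have h2 := T.emb.injective h1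
  have h3 : z.1 = z'.1 := (Prod.mk.inj h2).1
  have h4 : rad z.2 = rad z'.2 := (Prod.mk.inj h2).2
  have hpos : ∀ y : Circle, 0 < (sq y)⁻¹ := fun y => inv_pos.2 (sq_pos (Circle.coe_ne_zero y))
  have hnorm : ∀ y : Circle, ‖rad y‖ = (sq y)⁻¹ := by
    intro y
    rw [rad, norm_mul, Circle.norm_coe, mul_one, Complex.norm_real, Real.norm_of_nonneg
      (hpos y).le]
  have h5 : (sq (z.2 : ℂ))⁻¹ = (sq (z'.2 : ℂ))⁻¹ := by rw [← hnorm, ← hnorm, h4]
  rw [rad, rad, h5] at h4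
  have h6 : (((sq (z'.2 : ℂ))⁻¹ : ℝ) : ℂ) ≠ 0 := Complex.ofReal_ne_zero.2 (hpos z'.2).ne'
  exact Prod.ext h3 (Circle.ext (mul_left_cancel₀ h6 h4))

theorem exists_plane {T : Tube} (S : Surf T) {p q : ℤ} {n : ℕ} (hn : 1 ≤ n)
    {F : Finset Circle} (hF : F.card = n) {Ψ : Circle × Circle → Circle × Circle}
    (hΨ : Continuous Ψ) (hb : Function.Bijective Ψ)
    (hS : {z | T.bd z ∈ S.S} = Ψ '' {z | z.1 ^ p * z.2 ^ (-q) ∈ F}) {D : WData T.Ext}
    (hD : IsCollar S D) : ∃ P : Plane D p q n, (∀ v, P.b v = T.bd (Ψ (ec v.1, ec v.2))) ∧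
      ∀ r, ec r ∈ F ↔ r ∈ range P.f := by
  obtain ⟨f, hf1, hf2, hf3⟩ := exists_enum hn hF
  let E : ℝ × ℝ → Circle × Circle := fun v => (ec v.1, ec v.2)
  have hE : Continuous E :=
    (continuous_ec.comp continuous_fst).prodMk (continuous_ec.comp continuous_snd)
  have hEo : IsOpenMap E := isCoveringMap_ec.isOpenMap.prodMap isCoveringMap_ec.isOpenMap
  let Q : Circle × Circle → T.Ext := fun z => T.bd (Ψ z)
  have hQ : Continuous Q := T.continuous_bd.comp hΨ
  have hQi : Function.Injective Q := (bd_injective T).comp hb.1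
  have hQe : IsClosedEmbedding Q := hQ.isClosedEmbedding hQi
  have hmem : ∀ v : ℝ × ℝ, Q (E v) ∈ S.S ↔ lf p q v ∈ range f := by
    intro v
    have h1 : Q (E v) ∈ S.S ↔ Ψ (E v) ∈ {z | T.bd z ∈ S.S} := Iff.rfl
    rw [h1, hS, hb.1.mem_set_image]
    change ec v.1 ^ p * ec v.2 ^ (-q) ∈ F ↔ _
    rw [ec_zpow, ec_zpow, ← ec_add]
    have h2 : (p : ℝ) * v.1 + ((-q : ℤ) : ℝ) * v.2 = lf p q v := by
      rw [lf]
      push_cast
      ring
    rw [h2]
    exact hf3 _
  have key : ∀ v : ℝ × ℝ, Q (E v) ∈ S.S → ∀ U ∈ 𝓝 v, ∃ ε > 0, ∀ r : Ioo (-1 : ℝ) 1,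
      |(r : ℝ)| < ε → |(r : ℝ)| < 1 / 2 → ∃ v' ∈ U, Q (E v') ∈ D.N ∧ D.t (Q (E v')) = 2 * r := by
    intro v hv U hU
    obtain ⟨V, hVU, hV, hvV⟩ := mem_nhds_iff.1 hU
    obtain ⟨O, hO, hO'⟩ := hQe.isInducing.isOpen_iff.1 (hEo V hV)
    have hx : Q (E v) ∈ O := by
      have h1 : E v ∈ Q ⁻¹' O := by
        rw [hO']
        exact ⟨v, hvV, rfl⟩
      exact h1
    let z0 : Ioo (-1 : ℝ) 1 := ⟨0, by norm_num, by norm_num⟩
    have hc : Continuous fun r : Ioo (-1 : ℝ) 1 => S.col (⟨Q (E v), hv⟩, r) :=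
      S.emb.continuous.comp (continuous_const.prodMk continuous_id)
    have h0 : S.col (⟨Q (E v), hv⟩, z0) = Q (E v) := S.col_zero _
    have hn' : (fun r : Ioo (-1 : ℝ) 1 => S.col (⟨Q (E v), hv⟩, r)) ⁻¹' O ∈ 𝓝 z0 :=
      (hO.preimage hc).mem_nhds (by
        change S.col (⟨Q (E v), hv⟩, z0) ∈ O
        rw [h0]
        exact hx)
    obtain ⟨ε, hε, hball⟩ := Metric.mem_nhds_iff.1 hn'
    refine ⟨ε, hε, fun r hr hr2 => ?_⟩
    have h1 : S.col (⟨Q (E v), hv⟩, r) ∈ O := hball (by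
      rw [Metric.mem_ball, Subtype.dist_eq, Real.dist_eq]
      change |(r : ℝ) - 0| < ε
      rwa [sub_zero])
    have h2 : S.col (⟨Q (E v), hv⟩, r) ∈ range T.bd :=
      (S.col_bd ⟨Q (E v), hv⟩ r).2 ⟨Ψ (E v), rfl⟩
    obtain ⟨z, hz⟩ := h2
    obtain ⟨z', rfl⟩ := hb.2 z
    have h3 : z' ∈ Q ⁻¹' O := by
      change T.bd (Ψ z') ∈ O
      rw [hz]
      exact h1
    rw [hO'] at h3
    obtain ⟨v', hv', rfl⟩ := h3
    refine ⟨v', hVU hv', ?_⟩
    change T.bd (Ψ (E v')) ∈ D.N ∧ D.t (T.bd (Ψ (E v'))) = 2 * r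
    rw [hz]
    exact hD.mem _ r hr2
  refine ⟨{ b := fun v => Q (E v)
            cont := hQ.comp hE
            per := ?_
            f := f
            mono := hf1
            add := hf2
            mem := ?_
            cross := ?_ }, fun v => rfl, hf3⟩
  · intro k₁ k₂ v
    have h1 : ec (v.1 + k₁) = ec v.1 := ec_eq_iff.2 ⟨k₁, rfl⟩
    have h2 : ec (v.2 + k₂) = ec v.2 := ec_eq_iff.2 ⟨k₂, rfl⟩
    change Q (ec (v.1 + k₁), ec (v.2 + k₂)) = Q (ec v.1, ec v.2)
    rw [h1, h2]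
  · intro v
    rw [hD.core]
    exact hmem v
  · intro v hv U hU
    obtain ⟨ε, hε, h⟩ := key v ((hmem v).2 hv) U hU
    set s : ℝ := min ε 1 / 4 with hs
    have hs0 : 0 < s := by positivity
    have hs1 : s < ε := by
      have := min_le_left ε 1
      rw [hs]
      linarith
    have hs2 : s < 1 / 2 := by
      have := min_le_right ε 1
      rw [hs]
      linarith
    constructor
    · obtain ⟨v', h1, h2, h3⟩ := h ⟨s, by linarith, by linarith⟩
        (by rwa [abs_of_pos hs0]) (by rwa [abs_of_pos hs0])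
      refine ⟨v', h1, h2, ?_⟩
      rw [h3]
      change 0 < 2 * s
      linarith
    · obtain ⟨v', h1, h2, h3⟩ := h ⟨-s, by linarith, by linarith⟩
        (by rwa [abs_neg, abs_of_pos hs0]) (by rwa [abs_neg, abs_of_pos hs0])
      refine ⟨v', h1, h2, ?_⟩
      rw [h3]
      change 2 * -s < 0
      linarith

end Pool.Agent.EBS
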