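import Pool.Agent.EBS.T02
import Pool.Agent.EBS.T12

/-!
# T13: boundary incompressibility, consecutive lines are on different walls

Proof of `no_rel`. Suppose `Rel N (L v) (L v')`: there is a lifted curve `c` with `c 0 = L v`,
`c 1 = L v'` and `pr (c u) ∈ D.N` on `[0, 1]`. Let `δ u = pr (c u)`, a path in `X = T.Ext` from `b
v` to
`b v'`, `β u = b (AffineMap.lineMap v v' u)`.
(i) `δ` and `β` are homotopic with fixed end points: apply `LiftSys.sc` to the planes `a ↦ c a.1`
and
`a ↦ L (lineMap v v' a.1)` (`Cur.of_lift`), which agree at `(0, 0)` and `(1, 0)`; compose `P` with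
`pr`
(`LiftSys.cont`).
(ii) `δ u = S.col (s u, r u)` with continuous `s : I → S.S`, `r : I → (-1/2, 1/2)`
(`IsCollar.exists_col`,
the inverse of the open embedding `S.col` is continuous on its range). `b v ∈ S` (`P.mem`,
`IsCollar.core`), so `b v = S.col (b v, 0)` and `s 0 = b v`, `r 0 = 0`; in the same way `s 1 = b
v'`.
(iii) Let `α` be the path `s` in `S.S` from `b v` to `b v'`. `(x, u) ↦ S.col (s u, x * r u)` is a
homotopy
with fixed end points from `α` (as a path in `X`, `col_zero`) to `δ`. So `α ≃ δ ≃ β`, and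
`β u ∈ range T.bd` (`hPb`).
(iv) By boundary incompressibility there is a path `γ` in `S.S` from `b v` to `b v'` with
`γ u ∈ range T.bd`. `T.bd ∘ Ψ` is a continuous injective map (`bd_injective`) of a compact space
into a
Hausdorff space, so an embedding with range `range T.bd`; so `γ u = T.bd (Ψ (x u, y u))` with
continuous `x`, `y`. Since `γ u ∈ S`, by `hS` `g u = x u ^ p * y u ^ (-q) ∈ F` for all `u`. `F` is
finite
and `g` is continuous on the connected space `I`, so `g` is constant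
(`IsPreconnected.constant_of_mapsTo` or: a finite subset of a Hausdorff space is discrete). Since
`γ 0 = b v` and `γ 1 = b v'`, `(x 0, y 0) = (ec v.1, ec v.2)`, `(x 1, y 1) = (ec v'.1, ec v'.2)` and
`g 0 = ec (lf p q v) = ec (P.f i)`, `g 1 = ec (P.f (i + 1))`. So `P.f (i + 1) - P.f i` is an integer
(`ec_eq_iff`). But `0 < P.f (i + 1) - P.f i < P.f (i + n) - P.f i = 1`, as `n ≥ 2`. Contradiction.
-/

set_option autoImplicit false

noncomputable section

open Set Topology unitInterval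

namespace Pool.Agent.EBS

private theorem ec_lf (p q : ℤ) (v : ℝ × ℝ) :
    ec v.1 ^ p * ec v.2 ^ (-q) = ec (lf p q v) := by
  rw [ec_zpow, ec_zpow, ← ec_add]
  congr 1
  unfold lf
  push_cast
  ring

theorem no_rel {T : Tube} (S : Surf T) (hinc : S.BdIncompressible) {p q : ℤ} {n : ℕ}
    (hn : 2 ≤ n) {F : Finset Circle} {Ψ : Circle × Circle → Circle × Circle}
    (hΨ : Continuous Ψ) (hb : Function.Bijective Ψ)
    (hS : {z | T.bd z ∈ S.S} = Ψ '' {z | z.1 ^ p * z.2 ^ (-q) ∈ F}) {D : WData T.Ext}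
    (hD : IsCollar S D) (P : Plane D p q n) (hPb : ∀ v, P.b v = T.bd (Ψ (ec v.1, ec v.2)))
    {G : Type} [Group G] (LS : LiftSys T.Ext G) {L : ℝ × ℝ → LS.E} (hL : LS.Lift L)
    (hLb : ∀ v, LS.pr (L v) = P.b v) {v v' : ℝ × ℝ} {i : ℤ} (hv : lf p q v = P.f i)
    (hv' : lf p q v' = P.f (i + 1)) : ¬ LS.Rel D.N (L v) (L v') := by
  rintro ⟨c, hc, hc0, hc1, hcN⟩
  have hm0 : P.b v ∈ S.S := (hD.core _).1 ((P.mem v).2 ⟨i, hv.symm⟩)
  have hm1 : P.b v' ∈ S.S := (hD.core _).1 ((P.mem v').2 ⟨i + 1, hv'.symm⟩)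
  let x0 : S.S := ⟨P.b v, hm0⟩
  let x1 : S.S := ⟨P.b v', hm1⟩
  -- the two paths
  let δ : Path (x0 : T.Ext) (x1 : T.Ext) :=
    { toFun := fun u => LS.pr (c u)
      continuous_toFun := hc.cont.comp continuous_subtype_val
      source' := by
        change LS.pr (c ((0 : I) : ℝ)) = P.b v
        rw [Icc.coe_zero, hc0, hLb]
      target' := by
        change LS.pr (c ((1 : I) : ℝ)) = P.b v'
        rw [Icc.coe_one, hc1, hLb] }
  let β : Path (x0 : T.Ext) (x1 : T.Ext) :=
    { toFun := fun u => P.b (AffineMap.lineMap v v' (u : ℝ))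
      continuous_toFun := P.cont.comp (AffineMap.lineMap_continuous.comp continuous_subtype_val)
      source' := by
        change P.b (AffineMap.lineMap v v' ((0 : I) : ℝ)) = P.b v
        rw [Icc.coe_zero, AffineMap.lineMap_apply_zero]
      target' := by
        change P.b (AffineMap.lineMap v v' ((1 : I) : ℝ)) = P.b v'
        rw [Icc.coe_one, AffineMap.lineMap_apply_one] }
  -- (i)
  have hδβ : δ.Homotopic β := by
    have hL2 : LS.Lift fun a => L (AffineMap.lineMap v v' a.1) :=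
      LiftSys.Cur.of_lift hL (φ := fun t : ℝ => AffineMap.lineMap v v' t)
        AffineMap.lineMap_continuous
    obtain ⟨Q, hQ, hQ'⟩ := LS.sc (fun a => c a.1) (fun a => L (AffineMap.lineMap v v' a.1)) hc hL2
      (by simp [hc0]) (by simp [hc1])
    simp only [hc0, hc1] at hQ'
    refine ⟨⟨⟨⟨fun z => LS.pr (Q (z.1, z.2)), ?_⟩, ?_, ?_⟩, ?_⟩⟩
    · exact (LS.cont Q hQ).comp ((continuous_subtype_val.comp continuous_fst).prodMk
        (continuous_subtype_val.comp continuous_snd))
    · intro u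
      change LS.pr (Q (((0 : I) : ℝ), (u : ℝ))) = LS.pr (c u)
      rw [Icc.coe_zero, (hQ' u u.2).1]
    · intro u
      change LS.pr (Q (((1 : I) : ℝ), (u : ℝ))) = P.b (AffineMap.lineMap v v' (u : ℝ))
      rw [Icc.coe_one, (hQ' u u.2).2.1, hLb]
    · intro t x hx
      rcases hx with rfl | hx
      · change LS.pr (Q ((t : ℝ), ((0 : I) : ℝ))) = LS.pr (c ((0 : I) : ℝ))
        rw [Icc.coe_zero, (hQ' t t.2).2.2.1, hc0]
      · rw [Set.mem_singleton_iff] at hx
        subst hx
        change LS.pr (Q ((t : ℝ), ((1 : I) : ℝ))) = LS.pr (c ((1 : I) : ℝ))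
        rw [Icc.coe_one, (hQ' t t.2).2.2.2, hc1]
  -- (ii)
  have hex : ∀ u : I, ∃ w : S.S × Ioo (-1 : ℝ) 1, S.col w = δ u := by
    intro u
    obtain ⟨s, r, -, h⟩ := hD.exists_col _ (hcN u u.2)
    exact ⟨(s, r), h⟩
  choose w hw using hex
  have hwc : Continuous w := by
    rw [S.emb.isEmbedding.continuous_iff]
    have : S.col ∘ w = δ := funext hw
    rw [this]
    exact δ.continuous
  have hw0 : w 0 = (x0, ⟨0, by norm_num, by norm_num⟩) := by
    apply S.emb.injective
    rw [hw, S.col_zero, δ.source]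
  have hw1 : w 1 = (x1, ⟨0, by norm_num, by norm_num⟩) := by
    apply S.emb.injective
    rw [hw, S.col_zero, δ.target]
  -- (iii)
  let α : Path x0 x1 :=
    { toFun := fun u => (w u).1
      continuous_toFun := continuous_fst.comp hwc
      source' := by rw [hw0]
      target' := by rw [hw1] }
  have hmul : ∀ (x : I) (r : Ioo (-1 : ℝ) 1), (x : ℝ) * r ∈ Ioo (-1 : ℝ) 1 := by
    intro x r
    have h1 : |(x : ℝ) * r| < 1 := by
      rw [abs_mul, abs_of_nonneg x.2.1]
      have h2 : |(r : ℝ)| < 1 := abs_lt.2 r.2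
      calc (x : ℝ) * |(r : ℝ)| ≤ 1 * |(r : ℝ)| :=
            mul_le_mul_of_nonneg_right x.2.2 (abs_nonneg _)
        _ < 1 := by rw [one_mul]; exact h2
    exact abs_lt.1 h1
  have hαδ : (α.map continuous_subtype_val).Homotopic δ := by
    refine ⟨⟨⟨⟨fun z => S.col ((w z.2).1, ⟨(z.1 : ℝ) * (w z.2).2, hmul z.1 (w z.2).2⟩), ?_⟩,
      ?_, ?_⟩, ?_⟩⟩
    · refine S.emb.continuous.comp ((continuous_fst.comp (hwc.comp continuous_snd)).prodMk ?_)
      exact Continuous.subtype_mk ((continuous_subtype_val.comp continuous_fst).mul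
        (continuous_subtype_val.comp (continuous_snd.comp (hwc.comp continuous_snd)))) _
    · intro u
      change S.col ((w u).1, ⟨((0 : I) : ℝ) * (w u).2, _⟩) = ((w u).1 : T.Ext)
      rw [← S.col_zero (w u).1]
      congr 2
      refine Subtype.ext ?_
      change ((0 : I) : ℝ) * ((w u).2 : ℝ) = 0
      rw [Icc.coe_zero, zero_mul]
    · intro u
      change S.col ((w u).1, ⟨((1 : I) : ℝ) * (w u).2, _⟩) = δ u
      rw [← hw u]
      congr 1
      refine Prod.ext rfl (Subtype.ext ?_)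
      change ((1 : I) : ℝ) * ((w u).2 : ℝ) = ((w u).2 : ℝ)
      rw [Icc.coe_one, one_mul]
    · intro t x hx
      change S.col ((w x).1, ⟨(t : ℝ) * (w x).2, _⟩) = ((w x).1 : T.Ext)
      have hx0 : ((w x).2 : ℝ) = 0 := by
        rcases hx with rfl | hx
        · rw [hw0]
        · rw [Set.mem_singleton_iff] at hx
          rw [hx, hw1]
      rw [← S.col_zero (w x).1]
      congr 2
      refine Subtype.ext ?_
      change (t : ℝ) * ((w x).2 : ℝ) = 0
      rw [hx0, mul_zero]
  -- (iv)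
  obtain ⟨γ, hγ, -⟩ := hinc x0 x1 α β (fun t => by
    change P.b _ ∈ range T.bd
    rw [hPb]
    exact ⟨_, rfl⟩) (hαδ.trans hδβ)
  have hcl : IsClosedEmbedding (T.bd ∘ Ψ) :=
    (T.continuous_bd.comp hΨ).isClosedEmbedding ((bd_injective T).comp hb.injective)
  have hex2 : ∀ u : I, ∃ z : Circle × Circle, T.bd (Ψ z) = (γ u : T.Ext) := by
    intro u
    obtain ⟨z, hz⟩ := hγ u
    obtain ⟨z', hz'⟩ := hb.surjective z
    exact ⟨z', by rw [hz', hz]⟩
  choose y hy using hex2
  have hyc : Continuous y := by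
    rw [hcl.isEmbedding.continuous_iff]
    have : (T.bd ∘ Ψ) ∘ y = fun u => (γ u : T.Ext) := funext hy
    rw [this]
    exact continuous_subtype_val.comp γ.continuous
  have hyF : ∀ u, (y u).1 ^ p * (y u).2 ^ (-q) ∈ F := by
    intro u
    have h1 : Ψ (y u) ∈ {z | T.bd z ∈ S.S} := by
      change T.bd (Ψ (y u)) ∈ S.S
      rw [hy]
      exact (γ u).2
    rw [hS] at h1
    obtain ⟨z, hz, hz'⟩ := h1
    rw [← hb.injective hz']
    exact hz
  have hgc : Continuous fun u => (y u).1 ^ p * (y u).2 ^ (-q) :=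
    ((continuous_fst.comp hyc).zpow p).mul ((continuous_snd.comp hyc).zpow (-q))
  have hconst : (y 0).1 ^ p * (y 0).2 ^ (-q) = (y 1).1 ^ p * (y 1).2 ^ (-q) :=
    isPreconnected_univ.constant_of_mapsTo (T := (F : Set Circle)) F.finite_toSet.isDiscrete
      hgc.continuousOn (fun u _ => hyF u) (mem_univ _) (mem_univ _)
  have hy0 : y 0 = (ec v.1, ec v.2) := by
    apply hcl.injective
    change T.bd (Ψ (y 0)) = T.bd (Ψ (ec v.1, ec v.2))
    rw [hy, ← hPb, γ.source]
  have hy1 : y 1 = (ec v'.1, ec v'.2) := by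
    apply hcl.injective
    change T.bd (Ψ (y 1)) = T.bd (Ψ (ec v'.1, ec v'.2))
    rw [hy, ← hPb, γ.target]
  rw [hy0, hy1] at hconst
  dsimp only at hconst
  rw [ec_lf, ec_lf, hv, hv'] at hconst
  obtain ⟨m, hm⟩ := ec_eq_iff.1 hconst
  have h1 : P.f i < P.f (i + 1) := P.mono (by omega)
  have h2 : P.f (i + 1) < P.f (i + n) := P.mono (by omega)
  rw [P.add] at h2
  have h3 : (m : ℝ) < 0 := by linarith
  have h4 : (-1 : ℝ) < m := by linarith
  have h5 : m < 0 := by exact_mod_cast h3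
  have h6 : -1 < m := by exact_mod_cast h4
  omega

end Pool.Agent.EBS
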