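import Pool.Agent.EBS.T03

/-!
# T04: existence of the height function of a wall

Let `z₁` be a point over `N = D.N`, `Σ = {z | Rel N z₁ z}` (do not use the letter sigma for a
variable, it is reserved) and `f z = D.η (pr z)` if `z ∈ Σ`, `f z = 1` otherwise.
(a) `Cont f`. Let `L` be a lifted plane, `a ∈ ℝ²`. If `pr (L a) ∈ N`: there is a ball `B` around
`a` with
`pr (L b) ∈ N` for `b ∈ B` (`N` open, `LiftSys.cont`), and for `b ∈ B` `Rel N (L a) (L b)`
(`Rel.of_convex`), so on `B` either all `L b ∈ Σ` or none: `f ∘ L` is `D.η ∘ pr ∘ L` or `1` on `B`.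
If
`pr (L a) ∉ N`: `f (L a) = 1 = D.η (pr (L a))` and `f (L b) ∈ {1, D.η (pr (L b))}` for all `b`;
both tend
to `1` for `b → a`.
(b) By `exists_height` there is `h` with `Cont h`, `ec (h z) = f z`, `h z₁ = (D.t (pr z₁) + 1) / 2`
(`η_mem`). `H z = 2 h z - 1`.
(c) On `Σ`: `H z = D.t (pr z)`: let `c` be a lifted curve over `N` from `z₁` to `z`; along `c` (all
`c u ∈ Σ`, `Rel.sub`) `h (c u)` and `(D.t (pr (c u)) + 1) / 2` are continuous on `[0, 1]`
(`cont_t`), `ec`
of them agree (`η_mem`), and they agree at `u = 0`: `lift_unique`. So `|H z| < 1` (`abs_t`).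
(d) For `z ∉ Σ`: `H z = 1` or `H z = -1`. Let `c` be a lifted curve with `c 0 = z`, `c 1 = z₁`. The
set
`O = {u ∈ [0, 1] | c u ∈ Σ}` is relatively open (as in (a)), contains `1`, not `0`. Let `T = inf O`;
`c T ∉ Σ` (otherwise, as `T > 0`, `c u ∈ Σ` for `u < T` close to `T`). On `[0, T]`: `f (c u) = 1`,
so
`h (c u)` is a continuous function with integral values (`ec_eq_iff`), so constant (`lift_unique`
with the constant `0`). There are points `u > T` arbitrarily close to `T` with `|H (c u)| < 1`, so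
`|H (c T)| ≤ 1`, and `h (c T) ∈ ℤ`: `H (c T) = ± 1 = H z`.
(e) So `|H z| ≤ 1`, and `|H z| < 1 ↔ z ∈ Σ`. `rel`: `z ∈ Σ → (z' ∈ Σ ↔ Rel N z z')` (`Rel.symm`,
`Rel.trans`).
-/

set_option autoImplicit false

noncomputable section

open Set Topology unitInterval

namespace Pool.Agent.EBS

variable {X : Type} [TopologicalSpace X] {G : Type} [Group G] {S : LiftSys X G} {D : WData X}

/-- Being related to `z₁` is locally constant along a lifted plane over `N`. -/
private theorem t04_loc {z₁ : S.E} {L : ℝ × ℝ → S.E} (hL : S.Lift L) {a : ℝ × ℝ}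
    (ha : S.pr (L a) ∈ D.N) :
    ∃ ε > 0, ∀ b ∈ Metric.ball a ε, S.pr (L b) ∈ D.N ∧
      (S.Rel D.N z₁ (L b) ↔ S.Rel D.N z₁ (L a)) := by
  have ho : IsOpen ((fun b => S.pr (L b)) ⁻¹' D.N) := D.isOpen.preimage (S.cont L hL)
  obtain ⟨ε, hε, hb⟩ := Metric.isOpen_iff.1 ho a ha
  refine ⟨ε, hε, fun b hbm => ⟨hb hbm, ?_⟩⟩
  have h1 : S.Rel D.N (L a) (L b) := LiftSys.Rel.of_convex hL (convex_ball a ε)
    (fun x hx => hb hx) (Metric.mem_ball_self hε) hbm
  exact ⟨fun h => h.trans h1.symm, fun h => h.trans h1⟩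

open Classical in
private def t04_f (S : LiftSys X G) (D : WData X) (z₁ z : S.E) : Circle :=
  if S.Rel D.N z₁ z then D.η (S.pr z) else 1

private theorem t04_cont (z₁ : S.E) : S.Cont (t04_f S D z₁) := by
  intro L hL
  have hg : Continuous fun a => D.η (S.pr (L a)) := D.cont_η.comp (S.cont L hL)
  rw [continuous_iff_continuousAt]
  intro a
  by_cases ha : S.pr (L a) ∈ D.N
  · obtain ⟨ε, hε, hb⟩ := t04_loc (z₁ := z₁) hL ha
    have hnb : Metric.ball a ε ∈ 𝓝 a := Metric.ball_mem_nhds a hε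
    by_cases hR : S.Rel D.N z₁ (L a)
    · refine hg.continuousAt.congr ?_
      filter_upwards [hnb] with b hbm
      rw [t04_f, if_pos ((hb b hbm).2.2 hR)]
    · refine (continuousAt_const (y := (1 : Circle))).congr ?_
      filter_upwards [hnb] with b hbm
      rw [t04_f, if_neg fun h => hR ((hb b hbm).2.1 h)]
  · have h1 : D.η (S.pr (L a)) = 1 := D.η_not_mem _ ha
    have h2 : t04_f S D z₁ (L a) = 1 := by
      rw [t04_f, if_neg fun h => ha h.right]
    have h3 : Filter.Tendsto (fun b => D.η (S.pr (L b))) (𝓝 a) (𝓝 1) := by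
      have h := hg.continuousAt (x := a)
      rw [ContinuousAt, h1] at h
      exact h
    rw [ContinuousAt, h2]
    intro U hU
    have h4 := h3 hU
    rw [Filter.mem_map] at h4 ⊢
    filter_upwards [h4] with b hbU
    by_cases hR : S.Rel D.N z₁ (L b)
    · show t04_f S D z₁ (L b) ∈ U
      rw [t04_f, if_pos hR]
      exact hbU
    · show t04_f S D z₁ (L b) ∈ U
      rw [t04_f, if_neg hR]
      exact mem_of_mem_nhds hU

theorem exists_ht {z₁ : S.E} (hz : S.pr z₁ ∈ D.N) : ∃ H : S.E → ℝ, IsHt S D H ∧ |H z₁| < 1 := by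
  obtain ⟨h, hc, he, h1⟩ := exists_height (t04_cont (D := D) z₁) (z₁ := z₁)
    (r₁ := (D.t (S.pr z₁) + 1) / 2) (by
      rw [t04_f, if_pos (LiftSys.Rel.refl hz), D.η_mem _ hz])
  -- the height on the component
  have hS : ∀ z, S.Rel D.N z₁ z → 2 * h z - 1 = D.t (S.pr z) := by
    intro z hR
    obtain ⟨c, hcc, h0, h1c, hN⟩ := hR
    have hA : ContinuousOn (fun u => h (c u)) (Icc 0 1) :=
      (LiftSys.Cont.cur hc hcc).continuousOn
    have hB : ContinuousOn (fun u => (D.t (S.pr (c u)) + 1) / 2) (Icc 0 1) :=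
      ((D.cont_t.comp hcc.cont.continuousOn fun u hu => hN u hu).add
        continuousOn_const).div_const 2
    obtain ⟨n, hn⟩ := lift_unique hA hB fun u hu => by
      have hR : S.Rel D.N z₁ (c u) := by
        have h2 := LiftSys.Rel.sub hcc hN (u := 0) (v := u) ⟨le_rfl, zero_le_one⟩ hu
        rwa [h0] at h2
      rw [he (c u), t04_f, if_pos hR, D.η_mem _ (hN u hu)]
    have h2 := hn 0 ⟨le_rfl, zero_le_one⟩
    rw [h0, h1] at h2
    have h3 : (n : ℝ) = 0 := by linarith
    have h4 := hn 1 ⟨zero_le_one, le_rfl⟩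
    rw [h1c, h3] at h4
    linarith
  have hlt : ∀ z, S.Rel D.N z₁ z → |2 * h z - 1| < 1 := by
    intro z hR
    rw [hS z hR]
    exact D.abs_t _ hR.right
  -- the height outside of the component
  have hO : ∀ z, ¬ S.Rel D.N z₁ z → 2 * h z - 1 = 1 ∨ 2 * h z - 1 = -1 := by
    intro z hR
    obtain ⟨c, hcc, h0, h1c⟩ := LiftSys.exists_conn (S := S) z z₁
    obtain ⟨O, hOdef⟩ : ∃ O : Set ℝ, O = {u | u ∈ Icc (0 : ℝ) 1 ∧ S.Rel D.N z₁ (c u)} :=
      ⟨_, rfl⟩
    have hmem : ∀ u, u ∈ O ↔ u ∈ Icc (0 : ℝ) 1 ∧ S.Rel D.N z₁ (c u) := fun u => by rw [hOdef]; rfl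
    have hne : O.Nonempty := ⟨1, (hmem 1).2 ⟨⟨zero_le_one, le_rfl⟩, by
      rw [h1c]
      exact LiftSys.Rel.refl hz⟩⟩
    have hbd : BddBelow O := ⟨0, fun u hu => ((hmem u).1 hu).1.1⟩
    have hT0 : 0 ≤ sInf O := le_csInf hne fun u hu => ((hmem u).1 hu).1.1
    have hT1 : sInf O ≤ 1 := by
      obtain ⟨u, hu⟩ := hne
      exact (csInf_le hbd hu).trans ((hmem u).1 hu).1.2
    have hTn : ¬ S.Rel D.N z₁ (c (sInf O)) := by
      intro hT
      have hpos : 0 < sInf O := by
        rcases hT0.eq_or_lt with h2 | h2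
        · rw [← h2, h0] at hT
          exact absurd hT hR
        · exact h2
      obtain ⟨ε, hε, hb⟩ := t04_loc (z₁ := z₁) (L := fun a => c a.1) hcc (a := (sInf O, 0))
        hT.right
      have hu0 : (max 0 (sInf O - ε / 2)) < sInf O := max_lt hpos (by linarith)
      have hu1 : max 0 (sInf O - ε / 2) ∈ O := by
        refine (hmem _).2 ⟨⟨le_max_left _ _, hu0.le.trans hT1⟩, ?_⟩
        refine ((hb (max 0 (sInf O - ε / 2), 0) ?_).2).2 hT
        rw [Metric.mem_ball, Prod.dist_eq, max_lt_iff]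
        refine ⟨?_, by simpa using hε⟩
        rw [Real.dist_eq, abs_sub_lt_iff]
        have h3 := le_max_right 0 (sInf O - ε / 2)
        constructor <;> linarith
      exact absurd (csInf_le hbd hu1) (not_le.2 hu0)
    have hno : ∀ u ∈ Icc (0 : ℝ) (sInf O), ¬ S.Rel D.N z₁ (c u) := by
      intro u hu hRu
      rcases hu.2.eq_or_lt with h2 | h2
      · rw [h2] at hRu
        exact hTn hRu
      · exact absurd (csInf_le hbd ((hmem u).2 ⟨⟨hu.1, hu.2.trans hT1⟩, hRu⟩)) (not_le.2 h2)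
    have hcont : Continuous fun u => h (c u) := LiftSys.Cont.cur hc hcc
    obtain ⟨n, hn⟩ := lift_unique (θ' := fun _ => (0 : ℝ)) (u := 0) (v := sInf O)
      hcont.continuousOn continuousOn_const fun u hu => by
        rw [he (c u), t04_f, if_neg (hno u hu), ec_zero]
    have hcl : IsClosed {u : ℝ | |2 * h (c u) - 1| ≤ 1} :=
      isClosed_le ((continuous_const.mul hcont).sub continuous_const).abs continuous_const
    have hsub : closure O ⊆ {u : ℝ | |2 * h (c u) - 1| ≤ 1} :=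
      closure_minimal (fun u hu => (hlt _ ((hmem u).1 hu).2).le) hcl
    have hT := hsub (csInf_mem_closure hne hbd)
    rw [mem_ofPred_eq, hn _ ⟨hT0, le_rfl⟩, zero_add, abs_le] at hT
    have hz0 := hn 0 ⟨le_rfl, hT0⟩
    rw [h0, zero_add] at hz0
    rw [hz0]
    have hn0 : (0 : ℤ) ≤ n := by
      have h2 : (0 : ℝ) ≤ n := by linarith [hT.1]
      exact_mod_cast h2
    have hn1 : n ≤ 1 := by
      have h2 : (n : ℝ) ≤ 1 := by linarith [hT.2]
      exact_mod_cast h2
    have hn2 : n = 0 ∨ n = 1 := by omega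
    rcases hn2 with h2 | h2
    · right
      rw [h2]
      norm_num
    · left
      rw [h2]
      norm_num
  have hiff : ∀ z, |2 * h z - 1| < 1 ↔ S.Rel D.N z₁ z := by
    intro z
    refine ⟨fun h2 => ?_, hlt z⟩
    by_contra hR
    rcases hO z hR with h3 | h3
    · rw [h3] at h2
      norm_num at h2
    · rw [h3] at h2
      norm_num at h2
  refine ⟨fun z => 2 * h z - 1, ⟨fun L hL => ?_, fun z => ?_, fun z h2 => ?_,
    fun z z' h2 => ?_, ⟨z₁, (hiff z₁).2 (LiftSys.Rel.refl hz)⟩⟩,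
    (hiff z₁).2 (LiftSys.Rel.refl hz)⟩
  · exact (continuous_const.mul (hc L hL)).sub continuous_const
  · by_cases hR : S.Rel D.N z₁ z
    · exact (hlt z hR).le
    · rcases hO z hR with h3 | h3
      · rw [h3]
        norm_num
      · rw [h3]
        norm_num
  · have hR := (hiff z).1 h2
    exact ⟨hR.right, hS z hR⟩
  · have hR := (hiff z).1 h2
    refine (hiff z').trans ⟨fun h3 => hR.symm.trans h3, fun h3 => hR.trans h3⟩

end Pool.Agent.EBS
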