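import Pool.Agent.EBS.TW

/-!
# The universal covering of the boundary torus (definitions)

`lf p q v = p * v.1 - q * v.2`. A `Plane` is a periodic map `b : ℝ² → X` (the universal covering of
the
boundary torus) such that the surface `{t = 0}` pulls back to the parallel lines `lf p q v = f i`,
and `t`
takes values of both signs near every point of these lines.
-/

set_option autoImplicit false

noncomputable section

open Set Topology unitInterval

namespace Pool.Agent.EBS

/-- The linear form. -/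
def lf (p q : ℤ) (v : ℝ × ℝ) : ℝ := p * v.1 - q * v.2

/-- The translation by an integral vector. -/
def tr (k₁ k₂ : ℤ) (v : ℝ × ℝ) : ℝ × ℝ := (v.1 + k₁, v.2 + k₂)

theorem lf_tr (p q k₁ k₂ : ℤ) (v : ℝ × ℝ) :
    lf p q (tr k₁ k₂ v) = lf p q v + ((p * k₁ - q * k₂ : ℤ) : ℝ) := by
  simp only [lf, tr]
  push_cast
  ring

/-- The pull-back of the collared surface to the universal covering of the boundary torus. -/
structure Plane {X : Type} [TopologicalSpace X] (D : WData X) (p q : ℤ) (n : ℕ) where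
  /-- the covering of the boundary torus -/
  b : ℝ × ℝ → X
  cont : Continuous b
  per : ∀ (k₁ k₂ : ℤ) (v : ℝ × ℝ), b (tr k₁ k₂ v) = b v
  /-- the positions of the lines -/
  f : ℤ → ℝ
  mono : StrictMono f
  add : ∀ i, f (i + n) = f i + 1
  mem : ∀ v, (b v ∈ D.N ∧ D.t (b v) = 0) ↔ lf p q v ∈ range f
  cross : ∀ v, lf p q v ∈ range f → ∀ U ∈ 𝓝 v, (∃ v' ∈ U, b v' ∈ D.N ∧ 0 < D.t (b v')) ∧
    ∃ v' ∈ U, b v' ∈ D.N ∧ D.t (b v') < 0

/-- The collar of a surface. -/
structure IsCollar {T : Tube} (S : Surf T) (D : WData T.Ext) : Prop where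
  mem : ∀ (s : S.S) (r : Ioo (-1 : ℝ) 1), |(r : ℝ)| < 1 / 2 →
    S.col (s, r) ∈ D.N ∧ D.t (S.col (s, r)) = 2 * r
  exists_col : ∀ x ∈ D.N, ∃ (s : S.S) (r : Ioo (-1 : ℝ) 1), |(r : ℝ)| < 1 / 2 ∧ S.col (s, r) = x
  core : ∀ x, (x ∈ D.N ∧ D.t x = 0) ↔ x ∈ S.S

end Pool.Agent.EBS
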