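import Pool.Agent.EBS.T02
import Pool.Agent.EBS.T04
import Pool.Agent.EBS.TP

/-!
# T14: the line of walls

Write `ℓ v = lf p q v`, `L` the lifted plane of `b = P.b`.
* `lf_surj`: `a p - c q = 1` for some integers (`IsCoprime`), `v = r (a, c)`.
* `ne_zero_of`: if `H (L v) = 0` then `b v ∈ N`, `D.t (b v) = 0` (`IsHt.mem`), so `ℓ v ∈ range f`.
* `sign_eq`: on the segment from `v` to `v'` `ℓ` takes values between `ℓ v` and `ℓ v'`, so
  `H (L (lineMap v v' u)) ≠ 0`, continuous in `u`; by the intermediate value theorem the sign is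
  constant.
* `exists_line`: choose `m i` with `ℓ (m i) = f i` and `v i` with `ℓ (v i) = (f i + f (i + 1)) / 2`.
  `b (m i) ∈ N` (`P.mem`); let `w i` be the wall with `|w i (L (m i))| < 1` (`exists_ht`), `z i = L
  (v i)`.
  For `ℓ v = f i`: `Rel N (L (m i)) (L v)` (`Rel.of_convex` for the line `{ℓ = f i}`), so
  `|w i (L v)| < 1` (`IsHt.rel`).
  (l2): let `H ≠ w i`. If `H` has a zero at `L v` with `v` on the segment from `v (i - 1)` to `v
  i`, then
  `ℓ v ∈ range f` and `f (i - 1) < ℓ v < f (i + 1)`, so `ℓ v = f i` (`P.mono`), `|w i (L v)| < 1`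
  and
  `|H (L v)| = 0 < 1`, so `H = w i` by `ht_unique`. So there is no zero and the signs at the ends
  agree.
  (l1): let `U` be a ball around `m i` with `b U ⊆ N` and `f (i - 1) < ℓ < f (i + 1)` on `U`; by
  `P.cross` there are `v⁺`, `v⁻ ∈ U` with `D.t (b v⁺) > 0 > D.t (b v⁻)`. `Rel N (L (m i)) (L v⁺)`
  (the
  ball is convex), so `w i (L v⁺) = D.t (b v⁺) > 0` and in the same way `w i (L v⁻) < 0`. Neither
  `v⁺` nor
  `v⁻` is on the line `ℓ = f i` (`P.mem`), so each is in one of the strips `f (i - 1) < ℓ < f i`,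
  `f i < ℓ < f (i + 1)`, where the sign of `w i ∘ L` is constant (`sign_eq`). So they are in
  different
  strips, and the signs of `w i` at `L (v i)` and `L (v (i - 1))` are opposite and nonzero; `e i`
  is the
  sign at `L (v i)`.
  (l3): if `w i = w (i + 1)` then `|w i (L (m i))| < 1` and `|w i (L (m (i + 1)))| < 1`, so
  `Rel N (L (m i)) (L (m (i + 1)))` (`IsHt.rel`), a contradiction to `hno`.
-/

set_option autoImplicit false

noncomputable section

open Set Topology unitInterval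

namespace Pool.Agent.EBS

theorem lf_surj {p q : ℤ} (hpq : IsCoprime p q) (r : ℝ) : ∃ v, lf p q v = r := by
  obtain ⟨a, c, h⟩ := hpq
  have h1 : (a : ℝ) * p + c * q = 1 := by
    exact_mod_cast h
  refine ⟨(r * a, -(r * c)), ?_⟩
  unfold lf
  linear_combination r * h1

private theorem sign_const {f : ℝ → ℝ} (hf : Continuous f) {u v : ℝ} (huv : u ≤ v)
    (h : ∀ t ∈ Icc u v, f t ≠ 0) : SignType.sign (f u) = SignType.sign (f v) := by
  have hu := h u ⟨le_refl u, huv⟩
  have hv := h v ⟨huv, le_refl v⟩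
  rcases lt_or_gt_of_ne hu with h1 | h1 <;> rcases lt_or_gt_of_ne hv with h2 | h2
  · rw [sign_neg h1, sign_neg h2]
  · obtain ⟨t, ht, h3⟩ := intermediate_value_Icc huv hf.continuousOn ⟨h1.le, h2.le⟩
    exact absurd h3 (h t ht)
  · obtain ⟨t, ht, h3⟩ := intermediate_value_Icc' huv hf.continuousOn ⟨h2.le, h1.le⟩
    exact absurd h3 (h t ht)
  · rw [sign_pos h1, sign_pos h2]

/-- The segment from `v` to `v'`. -/
private def seg (v v' : ℝ × ℝ) (t : ℝ) : ℝ × ℝ := (v.1 + t * (v'.1 - v.1), v.2 + t * (v'.2 - v.2))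

private theorem seg_zero (v v' : ℝ × ℝ) : seg v v' 0 = v := by
  unfold seg
  rw [zero_mul, zero_mul, add_zero, add_zero]

private theorem seg_one (v v' : ℝ × ℝ) : seg v v' 1 = v' := by
  unfold seg
  rw [one_mul, one_mul, add_sub_cancel, add_sub_cancel]

private theorem seg_cont (v v' : ℝ × ℝ) : Continuous (seg v v') := by
  unfold seg
  fun_prop

private theorem lf_seg (p q : ℤ) (v v' : ℝ × ℝ) (t : ℝ) :
    lf p q (seg v v' t) = lf p q v + t * (lf p q v' - lf p q v) := by
  unfold lf seg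
  ring

private theorem lf_cont (p q : ℤ) : Continuous (lf p q) := by
  unfold lf
  fun_prop

private theorem lf_convex (p q : ℤ) (r : ℝ) : Convex ℝ {v | lf p q v = r} := by
  intro x hx y hy a b _ _ hab
  change lf p q (a • x + b • y) = r
  have h1 : lf p q x = r := hx
  have h2 : lf p q y = r := hy
  have h3 : lf p q (a • x + b • y) = a * lf p q x + b * lf p q y := by
    simp only [lf, Prod.fst_add, Prod.snd_add, Prod.smul_fst, Prod.smul_snd, smul_eq_mul]
    ring
  rw [h3, h1, h2, ← add_mul, hab, one_mul]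

variable {X : Type} [TopologicalSpace X] {D : WData X} {p q : ℤ} {n : ℕ} (P : Plane D p q n)
  {G : Type} [Group G] {LS : LiftSys X G} {L : ℝ × ℝ → LS.E}

theorem ne_zero_of (hLb : ∀ v, LS.pr (L v) = P.b v) {H : LS.E → ℝ} (hH : IsHt LS D H)
    {v : ℝ × ℝ} (hv : lf p q v ∉ range P.f) : H (L v) ≠ 0 := by
  intro h0
  have h1 : |H (L v)| < 1 := by
    rw [h0, abs_zero]
    exact zero_lt_one
  obtain ⟨h2, h3⟩ := hH.mem _ h1
  rw [hLb] at h2 h3
  exact hv ((P.mem v).1 ⟨h2, h3.symm.trans h0⟩)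

private theorem sign_seg (hL : LS.Lift L) {H : LS.E → ℝ} (hH : IsHt LS D H) {v v' : ℝ × ℝ}
    (h : ∀ t ∈ Icc (0 : ℝ) 1, H (L (seg v v' t)) ≠ 0) :
    SignType.sign (H (L v)) = SignType.sign (H (L v')) := by
  have h1 : Continuous fun t => H (L (seg v v' t)) := (hH.cont L hL).comp (seg_cont v v')
  have h2 := sign_const h1 zero_le_one h
  rw [seg_zero, seg_one] at h2
  exact h2

private theorem mid_mem {a b x y t : ℝ} (hx : x ∈ Ioo a b) (hy : y ∈ Ioo a b)
    (ht : t ∈ Icc (0 : ℝ) 1) : x + t * (y - x) ∈ Ioo a b := by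
  have h1 : x + t * (y - x) = (1 - t) * x + t * y := by ring
  rw [h1]
  have h2 := convex_Ioo a b hx hy (sub_nonneg.2 ht.2) ht.1 (sub_add_cancel 1 t)
  simpa only [smul_eq_mul] using h2

theorem sign_eq (hL : LS.Lift L) (hLb : ∀ v, LS.pr (L v) = P.b v) {H : LS.E → ℝ}
    (hH : IsHt LS D H) {i : ℤ} {v v' : ℝ × ℝ} (hv : lf p q v ∈ Ioo (P.f i) (P.f (i + 1)))
    (hv' : lf p q v' ∈ Ioo (P.f i) (P.f (i + 1))) :
    SignType.sign (H (L v)) = SignType.sign (H (L v')) := by
  refine sign_seg hL hH fun t ht => ne_zero_of P hLb hH ?_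
  rintro ⟨j, hj⟩
  rw [lf_seg] at hj
  have h1 := mid_mem hv hv' ht
  rw [← hj] at h1
  have h2 := P.mono.lt_iff_lt.1 h1.1
  have h3 := P.mono.lt_iff_lt.1 h1.2
  omega

theorem exists_line (hpq : IsCoprime p q) (hL : LS.Lift L) (hLb : ∀ v, LS.pr (L v) = P.b v)
    (hno : ∀ (v v' : ℝ × ℝ) (i : ℤ), lf p q v = P.f i → lf p q v' = P.f (i + 1) →
      ¬ LS.Rel D.N (L v) (L v')) :
    ∃ ln : Line (wsys LS D), (∀ i v, lf p q v = P.f i → |(ln.w i).1 (L v)| < 1) ∧
      ∀ i, ∃ v, ln.z i = L v ∧ lf p q v = (P.f i + P.f (i + 1)) / 2 := by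
  choose m hm using fun i : ℤ => lf_surj hpq (P.f i)
  choose v hv using fun i : ℤ => lf_surj hpq ((P.f i + P.f (i + 1)) / 2)
  have hN : ∀ (i : ℤ) (a : ℝ × ℝ), lf p q a = P.f i → P.b a ∈ D.N ∧ D.t (P.b a) = 0 :=
    fun i a ha => (P.mem a).2 ⟨i, ha.symm⟩
  choose W hW hW1 using fun i : ℤ => exists_ht (S := LS) (D := D) (z₁ := L (m i)) (by
    rw [hLb]
    exact (hN i _ (hm i)).1)
  have keyA : ∀ i a, lf p q a = P.f i → |W i (L a)| < 1 := by
    intro i a ha
    have h1 : LS.Rel D.N (L (m i)) (L a) :=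
      LiftSys.Rel.of_convex hL (lf_convex p q (P.f i)) (fun c hc => by
        rw [hLb]
        exact (hN i c hc).1) (hm i) ha
    exact ((hW i).rel _ _ (hW1 i)).2 h1
  have hlt : ∀ i : ℤ, P.f i < P.f (i + 1) := fun i => P.mono (by omega)
  have hvs : ∀ i, lf p q (v i) ∈ Ioo (P.f i) (P.f (i + 1)) := by
    intro i
    rw [hv i]
    have := hlt i
    constructor <;> linarith
  have keyB : ∀ i, ∃ e : SignType, e ≠ 0 ∧ SignType.sign (W i (L (v i))) = e ∧
      SignType.sign (W i (L (v (i - 1)))) = -e := by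
    intro i
    have hi1 : i - 1 + 1 = i := sub_add_cancel i 1
    have hprev := hlt (i - 1)
    rw [hi1] at hprev
    have hO : IsOpen ({a | P.b a ∈ D.N} ∩ {a | lf p q a ∈ Ioo (P.f (i - 1)) (P.f (i + 1))}) :=
      (D.isOpen.preimage P.cont).inter (isOpen_Ioo.preimage (lf_cont p q))
    have hmO : m i ∈ {a | P.b a ∈ D.N} ∩ {a | lf p q a ∈ Ioo (P.f (i - 1)) (P.f (i + 1))} := by
      refine ⟨(hN i _ (hm i)).1, ?_⟩
      change lf p q (m i) ∈ Ioo (P.f (i - 1)) (P.f (i + 1))
      rw [hm i]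
      exact ⟨hprev, hlt i⟩
    obtain ⟨ε, hε, hball⟩ := Metric.isOpen_iff.1 hO (m i) hmO
    obtain ⟨⟨a, haU, haN, ha⟩, ⟨c, hcU, hcN, hc⟩⟩ :=
      P.cross (m i) ⟨i, (hm i).symm⟩ (Metric.ball (m i) ε) (Metric.ball_mem_nhds _ hε)
    have hrel : ∀ x ∈ Metric.ball (m i) ε, W i (L x) = D.t (P.b x) := by
      intro x hx
      have h1 : LS.Rel D.N (L (m i)) (L x) :=
        LiftSys.Rel.of_convex hL (convex_ball (m i) ε) (fun y hy => by
          rw [hLb]
          exact (hball hy).1) (Metric.mem_ball_self hε) hx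
      have h2 := ((hW i).rel _ _ (hW1 i)).2 h1
      have h3 := ((hW i).mem _ h2).2
      rw [hLb] at h3
      exact h3
    have hstrip : ∀ x ∈ Metric.ball (m i) ε, D.t (P.b x) ≠ 0 →
        SignType.sign (D.t (P.b x)) = SignType.sign (W i (L (v i))) ∨
        SignType.sign (D.t (P.b x)) = SignType.sign (W i (L (v (i - 1)))) := by
      intro x hx hx0
      have h1 : lf p q x ≠ P.f i := fun h2 => hx0 (hN i x h2).2
      have h2 : lf p q x ∈ Ioo (P.f (i - 1)) (P.f (i + 1)) := (hball hx).2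
      rw [← hrel x hx]
      rcases lt_or_gt_of_ne h1 with h3 | h3
      · right
        apply sign_eq P hL hLb (hW i) (i := i - 1) _ (hvs (i - 1))
        rw [hi1]
        exact ⟨h2.1, h3⟩
      · left
        exact sign_eq P hL hLb (hW i) (i := i) ⟨h3, h2.2⟩ (hvs i)
    have h1 := hstrip a haU ha.ne'
    have h2 := hstrip c hcU hc.ne
    rw [sign_pos ha] at h1
    rw [sign_neg hc] at h2
    rcases h1 with h1 | h1
    · rcases h2 with h2 | h2
      · rw [← h1] at h2
        exact absurd h2 (by decide)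
      · exact ⟨1, by decide, h1.symm, h2.symm⟩
    · rcases h2 with h2 | h2
      · exact ⟨-1, by decide, h2.symm, h1.symm⟩
      · rw [← h1] at h2
        exact absurd h2 (by decide)
  choose e he0 he1 he2 using keyB
  have hee : ∀ x : SignType, x ≠ 0 → x * x = 1 := by decide
  have hee' : ∀ x : SignType, x ≠ 0 → x * -x = -1 := by decide
  refine ⟨{ w := fun i => ⟨W i, hW i⟩
            z := fun i => L (v i)
            e := e
            l1 := fun i => ?_
            l1' := fun i => ?_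
            l2 := fun i H hH => ?_
            l3 := fun i h => ?_ }, keyA, fun i => ⟨v i, rfl, hv i⟩⟩
  · change e i * SignType.sign (W i (L (v i))) = 1
    rw [he1]
    exact hee _ (he0 i)
  · change e i * SignType.sign (W i (L (v (i - 1)))) = -1
    rw [he2]
    exact hee' _ (he0 i)
  · change SignType.sign (H.1 (L (v i))) = SignType.sign (H.1 (L (v (i - 1))))
    have hi1 : i - 1 + 1 = i := sub_add_cancel i 1
    have hprev := hvs (i - 1)
    rw [hi1] at hprev
    have hcur := hvs i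
    refine sign_seg hL H.2 fun t ht h0 => ?_
    have h1 : lf p q (seg (v i) (v (i - 1)) t) ∈ range P.f := by
      by_contra h2
      exact ne_zero_of P hLb H.2 h2 h0
    obtain ⟨j, hj⟩ := h1
    have h2 := mid_mem (a := P.f (i - 1)) (b := P.f (i + 1)) ⟨hprev.1.trans (hprev.2.trans hcur.1),
      hcur.2⟩ ⟨hprev.1, hprev.2.trans (hcur.1.trans hcur.2)⟩ ht
    rw [← lf_seg, ← hj] at h2
    have h3 := P.mono.lt_iff_lt.1 h2.1
    have h4 := P.mono.lt_iff_lt.1 h2.2
    have h5 : j = i := by omega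
    rw [h5] at hj
    have h6 := keyA i _ hj.symm
    have h7 : |H.1 (L (seg (v i) (v (i - 1)) t))| < 1 := by
      rw [h0, abs_zero]
      exact zero_lt_one
    exact hH (Subtype.ext (ht_unique H.2 (hW i) h7 h6))
  · have h1 : W i = W (i + 1) := congrArg Subtype.val h
    have h2 : |W i (L (m (i + 1)))| < 1 := by
      rw [h1]
      exact hW1 (i + 1)
    exact hno (m i) (m (i + 1)) i (hm i) (hm (i + 1)) (((hW i).rel _ _ (hW1 i)).1 h2)

end Pool.Agent.EBS
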