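import Pool.Agent.EBS.T10
import Pool.Agent.EBS.T14

/-!
# T15: the integral vectors act as shifts

* `f_add`: `P.f (i + n * j) = P.f i + j` for all integers `j` (induction from `P.add`).
* `shift_tr`: let `s = n * (p k₁ - q k₂)`, `j = p k₁ - q k₂`.
  `g • w i = w (i + s)`: let `lf v = P.f i` (`lf_surj`) and `v' = tr k₁ k₂ v`, so `lf v' = P.f i +
  j =
  P.f (i + s)` (`lf_tr`, `f_add`). `|(ln.w (i + s)).1 (L v')| < 1` (`h1`), and
  `(g • ln.w i).1 (L v') = (ln.w i).1 (g⁻¹ • L v') = (ln.w i).1 (L v)` (`Wall.smul_apply`, `hg`),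
  of absolute
  value `< 1`. So `g • ln.w i = ln.w (i + s)` by `ht_unique`.
  `e (i + s) = e i`: `e i = sg (w i) (z i)` by `l1` (`e * x = 1` in `SignType` implies `e = x`). Let
  `z i = L v`, `lf v = (f i + f (i + 1)) / 2`, and `z (i + s) = L v''`, `lf v'' = lf v + j` (`h2`).
  The points
  `tr k₁ k₂ v` and `v''` are in the same strip, so (`sign_eq`)
  `sg (w (i + s)) (z (i + s)) = sg (w (i + s)) (L (tr k₁ k₂ v)) = sg (g • w i) (g • z i) = sg (w i)
  (z i)`.
-/

set_option autoImplicit false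

noncomputable section

open Set Topology unitInterval

namespace Pool.Agent.EBS

variable {X : Type} [TopologicalSpace X] {D : WData X} {p q : ℤ} {n : ℕ} (P : Plane D p q n)
  {G : Type} [Group G] {LS : LiftSys X G} {L : ℝ × ℝ → LS.E}

theorem Plane.f_add (i j : ℤ) : P.f (i + n * j) = P.f i + j := by
  induction j with
  | zero => simp
  | succ j ih =>
    have e : i + (n : ℤ) * ((j : ℤ) + 1) = (i + n * j) + n := by ring
    rw [e, P.add, ih]
    push_cast
    ring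
  | pred j ih =>
    have e : i + (n : ℤ) * (-(j : ℤ)) = (i + n * (-(j : ℤ) - 1)) + n := by ring
    rw [e, P.add] at ih
    have h2 : P.f (i + n * (-(j : ℤ) - 1)) = P.f i + ((-(j : ℤ) : ℤ) : ℝ) - 1 := by linarith
    rw [h2]
    push_cast
    ring

private theorem e_eq {e x : SignType} (h : e * x = 1) : e = x := by
  revert e x
  decide

theorem shift_tr (hpq : IsCoprime p q) (hL : LS.Lift L) (hLb : ∀ v, LS.pr (L v) = P.b v)
    {ln : Line (wsys LS D)} (h1 : ∀ i v, lf p q v = P.f i → |(ln.w i).1 (L v)| < 1)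
    (h2 : ∀ i, ∃ v, ln.z i = L v ∧ lf p q v = (P.f i + P.f (i + 1)) / 2) {g : G} {k₁ k₂ : ℤ}
    (hg : ∀ v, g • L v = L (tr k₁ k₂ v)) : ln.Shift g (n * (p * k₁ - q * k₂)) := by
  set j : ℤ := p * k₁ - q * k₂ with hj
  have hlt : ∀ v, lf p q (tr k₁ k₂ v) = lf p q v + (j : ℝ) := fun v => lf_tr p q k₁ k₂ v
  have hw : ∀ i, g • ln.w i = ln.w (i + n * j) := by
    intro i
    obtain ⟨v, hv⟩ := lf_surj hpq (P.f i)
    have h3 : lf p q (tr k₁ k₂ v) = P.f (i + n * j) := by rw [hlt, hv, P.f_add]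
    have h4 := h1 (i + n * j) _ h3
    have h5 : (g • ln.w i).1 (L (tr k₁ k₂ v)) = (ln.w i).1 (L v) := by
      rw [Wall.smul_apply, ← hg, inv_smul_smul]
    refine Subtype.ext (ht_unique (g • ln.w i).2 (ln.w (i + n * j)).2 (z := L (tr k₁ k₂ v)) ?_ h4)
    rw [h5]
    exact h1 i v hv
  intro i
  refine ⟨hw i, ?_⟩
  have hz : ∀ i, ln.e i = (wsys LS D).sg (ln.w i) (ln.z i) := fun i => e_eq (ln.l1 i)
  rw [hz, hz]
  obtain ⟨v, hv, hv'⟩ := h2 i
  obtain ⟨u, hu, hu'⟩ := h2 (i + n * j)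
  have hf1 : P.f (i + n * j + 1) = P.f (i + 1) + j := by
    rw [← P.f_add]
    congr 1
    ring
  have hlt1 := P.mono (lt_add_one i)
  have hm1 : lf p q (tr k₁ k₂ v) ∈ Ioo (P.f (i + n * j)) (P.f (i + n * j + 1)) := by
    rw [hlt, hv', P.f_add, hf1]
    constructor <;> linarith
  have hm2 : lf p q u ∈ Ioo (P.f (i + n * j)) (P.f (i + n * j + 1)) := by
    rw [hu', hf1, P.f_add]
    constructor <;> linarith
  have h6 := sign_eq P hL hLb (ln.w (i + n * j)).2 hm2 hm1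
  have h7 : (wsys LS D).sg (ln.w (i + n * j)) (ln.z (i + n * j)) =
      (wsys LS D).sg (ln.w (i + n * j)) (L (tr k₁ k₂ v)) := by
    rw [hu]
    exact h6
  rw [h7, ← hw i, ← hg, (wsys LS D).sg_smul, hv]

end Pool.Agent.EBS
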