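import Pool.Agent.EBS.TL

/-!
# T02: lifted curves

`Cur c` means that the plane `a ↦ c a.1` is a lifted plane.
* `Cur.comp`, `Cur.of_lift`: `LiftSys.comp` (with `φ' a = (φ a.1, 0)`, resp. `φ' a = φ a.1`).
* `Cur.const`: `comp` of any lifted plane through `z` (`conn`) with a constant map.
* `exists_cur`: `exists_lift` for `Q a = c a.1` and the point `(u, 0)`; the lift `L` of `Q`;
  `c' t = L (t, 0)`; it is a curve by `Cur.of_lift`.
* `Cur.unique`: let `k t` be the projection of `t` to `[u, v]` (`max u (min v t)`); the curves `c ∘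
  k`
  and `c' ∘ k` (`Cur.comp`) have the same projection and the same value at `t₀`; `unique`.
* `Cur.concat`: let `q t = pr (c (2 t))` for `t ≤ 1/2`, `q t = pr (c' (2 t - 1))` for `t ≥ 1/2`
  (continuous, `Continuous.if_le`; `LiftSys.cont`), and `c''` its lift with `c'' 0 = c 0`. By
  `Cur.unique` `c'' t = c (2 t)` on `[0, 1/2]`, and then `c'' t = c' (2 t - 1)` on `[1/2, 1]`.
* `Rel.refl` (constant curve), `Rel.symm` (`t ↦ c (1 - t)`), `Rel.trans` (`Cur.concat`), `Rel.smul`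
  (`LiftSys.smul`, `pr_smul`), `Rel.left`, `Rel.right`.
* `Rel.of_convex`: the segment from `a` to `b`: `Cur.of_lift` with `φ t = AffineMap.lineMap a b t`.
* `Cont.cur`: `f (c t) = f ((plane of c) (t, 0))`.
* `Rel.sub`: the curve restricted: if `c` is a lifted curve over `N` on `[0, 1]` then `Rel N (c u)
  (c v)`
  for `u, v ∈ [0, 1]`.
-/

set_option autoImplicit false

noncomputable section

open Set Topology unitInterval

namespace Pool.Agent.EBS

namespace LiftSys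

variable {X : Type} [TopologicalSpace X] {G : Type} [Group G] {S : LiftSys X G}

theorem Cur.comp {c : ℝ → S.E} (hc : S.Cur c) {φ : ℝ → ℝ} (hφ : Continuous φ) :
    S.Cur fun t => c (φ t) :=
  S.comp _ hc (fun a => (φ a.1, 0)) ((hφ.comp continuous_fst).prodMk continuous_const)

theorem Cur.of_lift {L : ℝ × ℝ → S.E} (hL : S.Lift L) {φ : ℝ → ℝ × ℝ} (hφ : Continuous φ) :
    S.Cur fun t => L (φ t) :=
  S.comp L hL (fun a => φ a.1) (hφ.comp continuous_fst)

theorem Cur.const (z : S.E) : S.Cur fun _ => z := by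
  obtain ⟨L, hL, h0, -⟩ := S.conn z z
  have h := S.comp L hL (fun _ => (0, 0)) continuous_const
  simp only [h0] at h
  exact h

theorem Cur.cont {c : ℝ → S.E} (hc : S.Cur c) : Continuous fun t => S.pr (c t) :=
  (S.cont _ hc).comp (continuous_id.prodMk (continuous_const (y := (0 : ℝ))))

theorem Cur.smul {c : ℝ → S.E} (hc : S.Cur c) (g : G) : S.Cur fun t => g • c t := S.smul g _ hc

theorem Cont.cur {T : Type} [TopologicalSpace T] {f : S.E → T} (hf : S.Cont f) {c : ℝ → S.E}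
    (hc : S.Cur c) : Continuous fun t => f (c t) :=
  (hf _ hc).comp (continuous_id.prodMk (continuous_const (y := (0 : ℝ))))

theorem exists_cur {c : ℝ → X} (hc : Continuous c) (u : ℝ) {z : S.E} (hz : S.pr z = c u) :
    ∃ c' : ℝ → S.E, S.Cur c' ∧ c' u = z ∧ ∀ t, S.pr (c' t) = c t := by
  obtain ⟨L, hL, h0, h1⟩ := S.exists_lift (fun a => c a.1) (hc.comp continuous_fst) (u, 0) z hz
  exact ⟨fun t => L (t, 0), Cur.of_lift hL (continuous_id.prodMk continuous_const), h0,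
    fun t => h1 (t, 0)⟩

theorem Cur.unique {c c' : ℝ → S.E} (hc : S.Cur c) (hc' : S.Cur c') {u v : ℝ}
    (h : ∀ t ∈ Icc u v, S.pr (c t) = S.pr (c' t)) {t₀ : ℝ} (ht₀ : t₀ ∈ Icc u v)
    (h0 : c t₀ = c' t₀) : ∀ t ∈ Icc u v, c t = c' t := by
  have huv : u ≤ v := ht₀.1.trans ht₀.2
  have hk : Continuous fun t : ℝ => max u (min v t) :=
    continuous_const.max (continuous_const.min continuous_id)
  have hkm : ∀ t, max u (min v t) ∈ Icc u v := fun t =>
    ⟨le_max_left _ _, max_le huv (min_le_left _ _)⟩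
  have hke : ∀ t ∈ Icc u v, max u (min v t) = t := fun t ht => by
    rw [min_eq_right ht.2, max_eq_right ht.1]
  intro t ht
  have h1 := S.unique _ _ (hc.comp hk) (hc'.comp hk) (fun b => h _ (hkm b.1)) (t₀, 0)
    (by simp only [hke t₀ ht₀, h0]) (t, 0)
  simpa only [hke t ht] using h1

theorem exists_conn (z z' : S.E) : ∃ c : ℝ → S.E, S.Cur c ∧ c 0 = z ∧ c 1 = z' := by
  obtain ⟨L, hL, h0, h1⟩ := S.conn z z'
  exact ⟨fun t => L (t, 0), Cur.of_lift hL (continuous_id.prodMk continuous_const), h0, h1⟩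

theorem Cur.concat {c c' : ℝ → S.E} (hc : S.Cur c) (hc' : S.Cur c') (h : c 1 = c' 0) :
    ∃ c'' : ℝ → S.E, S.Cur c'' ∧ (∀ t ∈ Icc (0 : ℝ) (1 / 2), c'' t = c (2 * t)) ∧
      ∀ t ∈ Icc (1 / 2 : ℝ) 1, c'' t = c' (2 * t - 1) := by
  have h1 : Continuous fun t : ℝ => S.pr (c (2 * t)) := hc.cont.comp (continuous_const.mul
    continuous_id)
  have h2 : Continuous fun t : ℝ => S.pr (c' (2 * t - 1)) :=
    hc'.cont.comp ((continuous_const.mul continuous_id).sub continuous_const)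
  have hq : Continuous fun t : ℝ => if t ≤ 1 / 2 then S.pr (c (2 * t)) else
      S.pr (c' (2 * t - 1)) := by
    refine Continuous.if_le h1 h2 continuous_id continuous_const ?_
    intro t ht
    rw [ht]
    norm_num
    rw [h]
  obtain ⟨c'', hc'', h3, h4⟩ := exists_cur (S := S) hq 0 (z := c 0) (by norm_num)
  have h5 : ∀ t ∈ Icc (0 : ℝ) (1 / 2), c'' t = c (2 * t) := by
    refine Cur.unique hc'' (c' := fun t => c (2 * t))
      (hc.comp (continuous_const.mul continuous_id)) (fun t ht => ?_)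
      (t₀ := 0) ⟨le_rfl, by norm_num⟩ ?_
    · rw [h4]
      exact if_pos ht.2
    · simp only [mul_zero]
      exact h3
  refine ⟨c'', hc'', h5, ?_⟩
  refine Cur.unique hc'' (c' := fun t => c' (2 * t - 1))
    (hc'.comp ((continuous_const.mul continuous_id).sub continuous_const)) (fun t ht => ?_)
    (t₀ := 1 / 2) ⟨le_rfl, by norm_num⟩ ?_
  · rw [h4]
    by_cases h6 : t ≤ 1 / 2
    · rw [if_pos h6]
      have h7 : t = 1 / 2 := le_antisymm h6 ht.1
      rw [h7]
      norm_num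
      rw [h]
    · exact if_neg h6
  · rw [h5 (1 / 2) ⟨by norm_num, le_rfl⟩]
    norm_num
    exact h

theorem Rel.left {N : Set X} {z z' : S.E} (h : S.Rel N z z') : S.pr z ∈ N := by
  obtain ⟨c, -, h0, -, h⟩ := h
  rw [← h0]
  exact h 0 ⟨le_rfl, zero_le_one⟩

theorem Rel.right {N : Set X} {z z' : S.E} (h : S.Rel N z z') : S.pr z' ∈ N := by
  obtain ⟨c, -, -, h1, h⟩ := h
  rw [← h1]
  exact h 1 ⟨zero_le_one, le_rfl⟩

theorem Rel.refl {N : Set X} {z : S.E} (h : S.pr z ∈ N) : S.Rel N z z :=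
  ⟨fun _ => z, Cur.const z, rfl, rfl, fun _ _ => h⟩

theorem Rel.symm {N : Set X} {z z' : S.E} (h : S.Rel N z z') : S.Rel N z' z := by
  obtain ⟨c, hc, h0, h1, h⟩ := h
  refine ⟨fun t => c (1 - t), hc.comp (continuous_const.sub continuous_id), ?_, ?_,
    fun u hu => h _ ⟨by linarith [hu.2], by linarith [hu.1]⟩⟩
  · simpa using h1
  · simpa using h0

theorem Rel.trans {N : Set X} {z z' z'' : S.E} (h : S.Rel N z z') (h' : S.Rel N z' z'') :
    S.Rel N z z'' := by
  obtain ⟨c, hc, h0, h1, h⟩ := h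
  obtain ⟨c', hc', h0', h1', h'⟩ := h'
  obtain ⟨c'', hc'', h2, h3⟩ := Cur.concat hc hc' (h1.trans h0'.symm)
  refine ⟨c'', hc'', ?_, ?_, fun u hu => ?_⟩
  · rw [h2 0 ⟨le_rfl, by norm_num⟩, mul_zero, h0]
  · rw [h3 1 ⟨by norm_num, le_rfl⟩]
    norm_num
    exact h1'
  · rcases le_total u (1 / 2) with h4 | h4
    · rw [h2 u ⟨hu.1, h4⟩]
      exact h _ ⟨by linarith [hu.1], by linarith⟩
    · rw [h3 u ⟨h4, hu.2⟩]
      exact h' _ ⟨by linarith, by linarith [hu.2]⟩

theorem Rel.smul {N : Set X} {z z' : S.E} (h : S.Rel N z z') (g : G) :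
    S.Rel N (g • z) (g • z') := by
  obtain ⟨c, hc, h0, h1, h⟩ := h
  refine ⟨fun t => g • c t, hc.smul g, by simp only [h0], by simp only [h1], fun u hu => ?_⟩
  rw [S.pr_smul]
  exact h u hu

theorem Rel.sub {N : Set X} {c : ℝ → S.E} (hc : S.Cur c)
    (h : ∀ t ∈ Icc (0 : ℝ) 1, S.pr (c t) ∈ N) {u v : ℝ} (hu : u ∈ Icc (0 : ℝ) 1)
    (hv : v ∈ Icc (0 : ℝ) 1) : S.Rel N (c u) (c v) := by
  refine ⟨fun t => c (AffineMap.lineMap u v t), hc.comp AffineMap.lineMap_continuous, by simp,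
    by simp, fun t ht => h _ ?_⟩
  exact (convex_Icc (0 : ℝ) 1).lineMap_mem hu hv ht

theorem Rel.of_convex {N : Set X} {L : ℝ × ℝ → S.E} (hL : S.Lift L) {C : Set (ℝ × ℝ)}
    (hC : Convex ℝ C) (h : ∀ a ∈ C, S.pr (L a) ∈ N) {a b : ℝ × ℝ} (ha : a ∈ C) (hb : b ∈ C) :
    S.Rel N (L a) (L b) := by
  refine ⟨fun t => L (AffineMap.lineMap a b t), Cur.of_lift hL AffineMap.lineMap_continuous,
    by simp, by simp, fun t ht => h _ ?_⟩
  exact hC.lineMap_mem ha hb ht

end LiftSys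

end Pool.Agent.EBS
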