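import Pool.Agent.EBS.T01
import Pool.Agent.EBS.T02
import Pool.Agent.EBS.TP

/-!
# T16: the lifted boundary plane and the base point

Let `LS`, `e` be as in `exists_liftSys` for `X = T.Ext`, `x₀ = T.bd (1, 1)`. Let `cl r = projIcc 0
1` (the
projection of `ℝ` to `I`), `R a = T.bd (Φ (cl a.1, (1, 1)))`; `R 0 = T.bd (1, 1) = pr e` (`hΦ`).
Let `Λ₀` be
the lifted plane of `R` with `Λ₀ (0, 0) = e`, and `e' = Λ₀ (1, 0)`, a point over
`T.bd (Φ (1, (1, 1))) = b 0`, `b v = T.bd (Φ (1, (ec v.1, ec v.2)))`. Let `L` be the lifted plane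
of `b`
with `L 0 = e'` (`exists_lift`).
Claim: `tl T k₁ k₂ • e' = L (k₁, k₂)`. Let `Λ` be the lifted plane of
`(r, t) ↦ T.bd (Φ (cl r, (ec (k₁ t), ec (k₂ t))))` with `Λ (0, 0) = e`.
* `Λ (r, 0) = Λ₀ (r, 0)`: curves (`Cur.of_lift`) with the same projection and the same value at
  `r = 0` (`Cur.unique` on `[0, 1]`). So `Λ (1, 0) = e'`.
* `Λ (1, t) = L (k₁ t, k₂ t)`: same projection, same value at `t = 0`. So `Λ (1, 1) = L (k₁, k₂)`.
* `Λ (0, 1) = tl T k₁ k₂ • e`: the last property of `exists_liftSys` for the path `tlPath T k₁ k₂`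
  and the
  plane `a ↦ Λ (0, a.1)`.
* `Λ (r, 1)` and `tl T k₁ k₂ • Λ₀ (r, 0)` have the same projection (`ec k = 1` for integers `k`) and
  the same value at `r = 0`, so `Λ (1, 1) = tl T k₁ k₂ • e'`.
For all `v`: `tl T k₁ k₂ • L v` and `L (tr k₁ k₂ v)` are lifted planes (`smul`, `comp`) with the
same
projection `b v` (`ec (a + k) = ec a`) and the same value at `v = 0`: `unique`.
-/

set_option autoImplicit false

noncomputable section

open Set Topology unitInterval

namespace Pool.Agent.EBS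

theorem exists_base (T : Tube) (Φ : C(I × (Circle × Circle), Circle × Circle))
    (hΦ : ∀ z, Φ (0, z) = z) :
    ∃ (LS : LiftSys T.Ext (Pi1 T.Ext (T.bd (1, 1)))) (L : ℝ × ℝ → LS.E), LS.Lift L ∧
      (∀ v, LS.pr (L v) = T.bd (Φ (1, (ec v.1, ec v.2)))) ∧
      ∀ (k₁ k₂ : ℤ) (v : ℝ × ℝ), tl T k₁ k₂ • L v = L (tr k₁ k₂ v) := by
  obtain ⟨S, e, he, hS⟩ := exists_liftSys T.Ext (T.bd (1, 1))
  let F : ℝ → Circle × Circle → T.Ext := fun r z =>
    T.bd (Φ (projIcc (0 : ℝ) 1 zero_le_one r, z))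
  have hF : Continuous fun a : ℝ × (Circle × Circle) => F a.1 a.2 :=
    T.continuous_bd.comp (Φ.continuous.comp
      ((continuous_projIcc.comp continuous_fst).prodMk continuous_snd))
  have hF0 : ∀ z, F 0 z = T.bd z := fun z => by
    change T.bd (Φ (projIcc (0 : ℝ) 1 zero_le_one 0, z)) = T.bd z
    rw [projIcc_left]
    exact congrArg T.bd (hΦ z)
  have hF1 : ∀ z, F 1 z = T.bd (Φ (1, z)) := fun z => by
    change T.bd (Φ (projIcc (0 : ℝ) 1 zero_le_one 1, z)) = T.bd (Φ (1, z))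
    rw [projIcc_right]
    rfl
  have m0 : (0 : ℝ) ∈ Icc (0 : ℝ) 1 := ⟨le_rfl, zero_le_one⟩
  have m1 : (1 : ℝ) ∈ Icc (0 : ℝ) 1 := ⟨zero_le_one, le_rfl⟩
  have hc₀ : Continuous fun r : ℝ => F r (1, 1) :=
    hF.comp (continuous_id.prodMk continuous_const)
  obtain ⟨c₀, h1, h2, h3⟩ := LiftSys.exists_cur (S := S) hc₀ 0 (z := e) (by rw [he, hF0])
  have hb : Continuous fun v : ℝ × ℝ => F 1 (ec v.1, ec v.2) :=
    hF.comp (continuous_const.prodMk
      ((continuous_ec.comp continuous_fst).prodMk (continuous_ec.comp continuous_snd)))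
  obtain ⟨L, hL, hL0, hLp⟩ := S.exists_lift _ hb (0, 0) (c₀ 1) (by
    rw [h3 1]
    simp only [ec_zero])
  have claim : ∀ k₁ k₂ : ℤ, tl T k₁ k₂ • c₀ 1 = L ((k₁ : ℝ), (k₂ : ℝ)) := by
    intro k₁ k₂
    have hQ : Continuous fun a : ℝ × ℝ => F a.1 (ec (k₁ * a.2), ec (k₂ * a.2)) :=
      hF.comp (continuous_fst.prodMk
        ((continuous_ec.comp (continuous_const.mul continuous_snd)).prodMk
          (continuous_ec.comp (continuous_const.mul continuous_snd))))
    obtain ⟨Λ, hΛ, hΛ0, hΛp⟩ := S.exists_lift _ hQ (0, 0) e (by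
      simp only [mul_zero, ec_zero]
      rw [he, hF0])
    have a1 : Λ (1, 0) = c₀ 1 := by
      refine LiftSys.Cur.unique (c := fun r => Λ (r, 0)) (c' := c₀)
        (LiftSys.Cur.of_lift hΛ (continuous_id.prodMk continuous_const)) h1
        (fun r _ => ?_) m0 (hΛ0.trans h2.symm) 1 m1
      rw [hΛp, h3]
      simp only [mul_zero, ec_zero]
    have a2 : Λ (1, 1) = L ((k₁ : ℝ), (k₂ : ℝ)) := by
      have h := LiftSys.Cur.unique (c := fun t => Λ (1, t))
        (c' := fun t => L ((k₁ : ℝ) * t, (k₂ : ℝ) * t))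
        (LiftSys.Cur.of_lift hΛ (continuous_const.prodMk continuous_id))
        (LiftSys.Cur.of_lift hL ((continuous_const.mul continuous_id).prodMk
          (continuous_const.mul continuous_id)))
        (fun t _ => by rw [hΛp, hLp]) m0 (by
          simp only [mul_zero]
          rw [a1, hL0]) 1 m1
      simpa only [mul_one] using h
    have a3 : Λ (0, 1) = tl T k₁ k₂ • e := by
      refine hS (tlPath T k₁ k₂) (fun a => Λ (0, a.1))
        (S.comp Λ hΛ (fun a => (0, a.1)) (continuous_const.prodMk continuous_fst)) hΛ0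
        fun t ht => ?_
      change S.pr (Λ (0, t)) = _
      rw [hΛp, hF0, Path.extend_apply _ ht]
      rfl
    have a4 : Λ (1, 1) = tl T k₁ k₂ • c₀ 1 := by
      refine LiftSys.Cur.unique (c := fun r => Λ (r, 1)) (c' := fun r => tl T k₁ k₂ • c₀ r)
        (LiftSys.Cur.of_lift hΛ (continuous_id.prodMk continuous_const)) (h1.smul _)
        (fun r _ => ?_) m0 (by rw [a3, h2]) 1 m1
      rw [hΛp, S.pr_smul, h3]
      simp only [ec_intCast_mul_one]
    rw [← a4, a2]
  refine ⟨S, L, hL, fun v => (hLp v).trans (hF1 _), fun k₁ k₂ v => ?_⟩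
  have htr : Continuous (tr k₁ k₂) :=
    (continuous_fst.add continuous_const).prodMk (continuous_snd.add continuous_const)
  refine S.unique (fun v => tl T k₁ k₂ • L v) (fun v => L (tr k₁ k₂ v)) (S.smul _ L hL)
    (S.comp L hL _ htr) (fun v => ?_) (0, 0) ?_ v
  · rw [S.pr_smul, hLp, hLp]
    simp only [tr, ec_add, ec_int, mul_one]
  · change tl T k₁ k₂ • L (0, 0) = L (0 + (k₁ : ℝ), 0 + (k₂ : ℝ))
    rw [zero_add, zero_add, hL0, claim]

end Pool.Agent.EBS
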