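import Pool.Agent.EBS.T03
import Pool.Agent.EBS.T14
import Pool.Agent.EBS.T15

/-!
# T17: the height homomorphism of a surface with one boundary curve

Write `ℓ v = lf p q v`, `b = P.b`, `f = P.f`; `n = 1`, so `f (i + j) = f i + j` (`Plane.f_add`).
By `exists_height` for `D.η ∘ pr` (`Cont`: `LiftSys.cont`, `cont_η`; `z₁ = L 0`, `ec_surjective`)
there is
`h : E → ℝ` with `Cont h`, `ec (h z) = D.η (pr z)`.
(1) For `g ∈ G` there is an integer `ψ g` with `h (g • z) = h z + ψ g` for all `z`: `ec (h (g • z))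
=
ec (h z)` (`pr_smul`), so the difference is an integer `m` at `z = L 0` (`ec_eq_iff`), and `h (g •
z) - m`
and `h z` agree everywhere by `height_unique`. `ψ (g g') = ψ g + ψ g'`.
(2) Let `u v = h (L v)`, continuous. If `u v = m + 1/2`, `m ∈ ℤ`, then `D.η (b v) = ec (1/2) ≠ 1`,
so
`b v ∈ N` and `ec ((D.t (b v) + 1) / 2) = ec (1/2)`, so `D.t (b v) = 0` (`|D.t| < 1`), so `ℓ v ∈
range f`.
So for every `i` there is an integer `μ i` with `μ i - 1/2 < u v < μ i + 1/2` for all `v` in the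
strip
`f i < ℓ v < f (i + 1)` (segments, intermediate value theorem; take `μ i = round (u v)` for one
`v`).
(3) `μ i - μ (i - 1) = 1` or `-1`. Let `ℓ v = f i` (`lf_surj`); `D.η (b v) = ec (1/2)`, so
`u v = c + 1/2` with an integer `c`. Let `U` be a ball around `v` with `b U ⊆ N` and
`f (i - 1) < ℓ < f (i + 1)` on `U`. For `v' ∈ U` `u v' = c + (D.t (b v') + 1) / 2`: along the
segment from
`v` to `v'` both sides are continuous, `ec` of them agree (`η_mem`) and they agree at `v`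
(`lift_unique`). By `P.cross` there are `v⁺, v⁻ ∈ U` with `D.t > 0`, `D.t < 0`:
`c + 1/2 < u v⁺ < c + 1`, `c < u v⁻ < c + 1/2`. `v⁺` and `v⁻` are in the strips `i` or `i - 1` (not
on the
line, by `P.mem`); the values `μ` of their strips are `c + 1` and `c`, so the strips are different
and
`{μ i, μ (i - 1)} = {c, c + 1}`.
(4) Let `j = p k₁ - q k₂` and `g` with `g • L v = L (tr k₁ k₂ v)`. Then `u (tr k₁ k₂ v) = u v + ψ
g`, and if
`v` is in the strip `i`, then `tr k₁ k₂ v` is in the strip `i + j` (`lf_tr`). So `μ (i + j) = μ i +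
ψ g`.
(5) By coprimality there are `k₁, k₂` with `j = 1`; `ε = ψ (g k₁ k₂) = μ (i + 1) - μ i` for all
`i`, so
`ε = ± 1` by (3), and `μ (i + j) = μ i + ε j` for all integers `j`. So `ψ (g k₁ k₂) = ε (p k₁ - q
k₂)` for all
`k₁, k₂`. Take `g ↦ ofAdd (ε * ψ g)`.
-/

set_option autoImplicit false

noncomputable section

open Set Topology unitInterval

namespace Pool.Agent.EBS

private theorem t17_half : ec (1 / 2) ≠ 1 := by
  intro h
  rw [← ec_zero] at h
  obtain ⟨n, hn⟩ := ec_eq_iff.1 h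
  have h1 : ((2 * n : ℤ) : ℝ) = 1 := by
    push_cast
    linarith
  have h2 : 2 * n = 1 := by exact_mod_cast h1
  omega

private theorem t17_range {X : Type} [TopologicalSpace X] {D : WData X} {p q : ℤ}
    (P : Plane D p q 1) {u : ℝ × ℝ → ℝ} (he : ∀ v, ec (u v) = D.η (P.b v)) {v : ℝ × ℝ} {m : ℤ}
    (h : u v = m + 1 / 2) : lf p q v ∈ range P.f := by
  have h1 : D.η (P.b v) = ec (1 / 2) := by
    rw [← he, h, ec_add, ec_int, one_mul]
  have hN : P.b v ∈ D.N := by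
    by_contra hN
    rw [D.η_not_mem _ hN] at h1
    exact t17_half h1.symm
  refine (P.mem v).1 ⟨hN, ?_⟩
  rw [D.η_mem _ hN] at h1
  obtain ⟨n, hn⟩ := ec_eq_iff.1 h1
  have h2 : D.t (P.b v) = 2 * n := by linarith
  have h3 := D.abs_t _ hN
  rw [h2, abs_lt] at h3
  have h4 : -1 < n := by
    have h5 : (-1 : ℝ) < n := by linarith
    exact_mod_cast h5
  have h5 : n < 1 := by
    have h6 : (n : ℝ) < 1 := by linarith
    exact_mod_cast h6
  have h6 : n = 0 := by omega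
  rw [h2, h6]
  norm_num

private theorem t17_conv (p q : ℤ) (r s : ℝ) : Convex ℝ {v | lf p q v ∈ Ioo r s} := by
  intro x hx y hy a b ha hb hab
  have h := (convex_Ioo r s) hx hy ha hb hab
  have h1 : lf p q (a • x + b • y) = a • lf p q x + b • lf p q y := by
    simp only [lf, Prod.fst_add, Prod.snd_add, Prod.smul_fst, Prod.smul_snd, smul_eq_mul]
    ring
  show lf p q (a • x + b • y) ∈ Ioo r s
  rw [h1]
  exact h

private theorem t17_not {X : Type} [TopologicalSpace X] {D : WData X} {p q : ℤ}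
    (P : Plane D p q 1) {i : ℤ} {v : ℝ × ℝ} (hv : lf p q v ∈ Ioo (P.f i) (P.f (i + 1))) :
    lf p q v ∉ range P.f := by
  rintro ⟨j, hj⟩
  rw [← hj] at hv
  have h1 := P.mono.lt_iff_lt.1 hv.1
  have h2 := P.mono.lt_iff_lt.1 hv.2
  omega

private theorem t17_mu {X : Type} [TopologicalSpace X] {D : WData X} {p q : ℤ}
    (hpq : IsCoprime p q) (P : Plane D p q 1) {u : ℝ × ℝ → ℝ} (hu : Continuous u)
    (he : ∀ v, ec (u v) = D.η (P.b v)) (i : ℤ) :
    ∃ m : ℤ, ∀ v, lf p q v ∈ Ioo (P.f i) (P.f (i + 1)) →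
      (m : ℝ) - 1 / 2 < u v ∧ u v < m + 1 / 2 := by
  obtain ⟨v₀, hv₀⟩ := lf_surj hpq ((P.f i + P.f (i + 1)) / 2)
  have hlt : P.f i < P.f (i + 1) := P.mono (by omega)
  have hm₀ : lf p q v₀ ∈ Ioo (P.f i) (P.f (i + 1)) := by
    rw [hv₀]
    constructor <;> linarith
  have hr := abs_sub_round (u v₀)
  rw [abs_le] at hr
  have hC : IsPreconnected {v | lf p q v ∈ Ioo (P.f i) (P.f (i + 1))} :=
    (t17_conv p q _ _).isPreconnected
  have hno : ∀ v, lf p q v ∈ Ioo (P.f i) (P.f (i + 1)) → ∀ m : ℤ, u v ≠ m + 1 / 2 :=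
    fun v hv m h => t17_not P hv (t17_range P he h)
  refine ⟨round (u v₀), fun v hv => ⟨?_, ?_⟩⟩
  · by_contra hcon
    have h1 := hC.intermediate_value (a := v) (b := v₀) hv hm₀ hu.continuousOn
      ⟨not_lt.1 hcon, by linarith⟩
    obtain ⟨w, hw, hw1⟩ := h1
    refine hno w hw (round (u v₀) - 1) ?_
    rw [hw1]
    push_cast
    ring
  · by_contra hcon
    have h1 := hC.intermediate_value (a := v₀) (b := v) hm₀ hv hu.continuousOn
      ⟨by linarith, not_lt.1 hcon⟩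
    obtain ⟨w, hw, hw1⟩ := h1
    exact hno w hw (round (u v₀)) hw1

private theorem t17_lfc (p q : ℤ) : Continuous (lf p q) := by
  unfold lf
  fun_prop

private theorem t17_step {X : Type} [TopologicalSpace X] {D : WData X} {p q : ℤ}
    (hpq : IsCoprime p q) (P : Plane D p q 1) {u : ℝ × ℝ → ℝ} (hu : Continuous u)
    (he : ∀ v, ec (u v) = D.η (P.b v)) {m : ℤ → ℤ}
    (hm : ∀ i v, lf p q v ∈ Ioo (P.f i) (P.f (i + 1)) →
      (m i : ℝ) - 1 / 2 < u v ∧ u v < m i + 1 / 2) (i : ℤ) :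
    m (i + 1) - m i = 1 ∨ m (i + 1) - m i = -1 := by
  obtain ⟨v, hv⟩ := lf_surj hpq (P.f (i + 1))
  have hr : lf p q v ∈ range P.f := ⟨i + 1, hv.symm⟩
  obtain ⟨hN, ht0⟩ := (P.mem v).2 hr
  have hl1 : P.f i < P.f (i + 1) := P.mono (by omega)
  have hl2 : P.f (i + 1) < P.f (i + 1 + 1) := P.mono (by omega)
  have hO : IsOpen (P.b ⁻¹' D.N ∩ lf p q ⁻¹' Ioo (P.f i) (P.f (i + 1 + 1))) :=
    (D.isOpen.preimage P.cont).inter (isOpen_Ioo.preimage (t17_lfc p q))
  obtain ⟨ε, hε, hb⟩ := Metric.isOpen_iff.1 hO v ⟨hN, by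
    show lf p q v ∈ Ioo (P.f i) (P.f (i + 1 + 1))
    rw [hv]
    exact ⟨hl1, hl2⟩⟩
  have hvb : v ∈ Metric.ball v ε := Metric.mem_ball_self hε
  have hcont : ContinuousOn (fun w => u w - (D.t (P.b w) + 1) / 2) (Metric.ball v ε) :=
    hu.continuousOn.sub (((D.cont_t.comp P.cont.continuousOn fun w hw => (hb hw).1).add
      continuousOn_const).div_const 2)
  have hone : ∀ w ∈ Metric.ball v ε, ec (u w - (D.t (P.b w) + 1) / 2) = 1 := fun w hw => by
    rw [sub_eq_add_neg, ec_add, ec_neg, he, D.η_mem _ (hb hw).1, mul_inv_cancel]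
  have hconst : ∀ w ∈ Metric.ball v ε, u w - (D.t (P.b w) + 1) / 2 =
      u v - (D.t (P.b v) + 1) / 2 := fun w hw =>
    isCoveringMap_ec.constOn_of_comp (g := fun w => u w - (D.t (P.b w) + 1) / 2)
      (convex_ball v ε).isPreconnected hcont
      (fun a ha a' ha' => by rw [hone a ha, hone a' ha']) hw hvb
  obtain ⟨c, hc⟩ : ∃ c : ℤ, u v - (D.t (P.b v) + 1) / 2 = c := by
    have h1 := hone v hvb
    rw [← ec_zero] at h1
    obtain ⟨c, hc⟩ := ec_eq_iff.1 h1
    exact ⟨c, by rw [hc, zero_add]⟩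
  obtain ⟨⟨v1, hv1, hN1, ht1⟩, ⟨v2, hv2, hN2, ht2⟩⟩ := P.cross v hr _ (Metric.ball_mem_nhds v hε)
  have ha1 := D.abs_t _ hN1
  have ha2 := D.abs_t _ hN2
  rw [abs_lt] at ha1 ha2
  have hu1 := hconst v1 hv1
  have hu2 := hconst v2 hv2
  rw [hc] at hu1 hu2
  -- the strips of the two points
  have hs : ∀ w ∈ Metric.ball v ε, D.t (P.b w) ≠ 0 →
      lf p q w ∈ Ioo (P.f i) (P.f (i + 1)) ∨ lf p q w ∈ Ioo (P.f (i + 1)) (P.f (i + 1 + 1)) := by
    intro w hw hw0
    have h1 := (hb hw).2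
    rcases lt_trichotomy (lf p q w) (P.f (i + 1)) with h2 | h2 | h2
    · exact Or.inl ⟨h1.1, h2⟩
    · exact absurd ((P.mem w).2 ⟨i + 1, h2.symm⟩).2 hw0
    · exact Or.inr ⟨h2, h1.2⟩
  have hk1 : ∀ k : ℤ, lf p q v1 ∈ Ioo (P.f k) (P.f (k + 1)) → m k = c + 1 := by
    intro k hk
    have h1 := hm k v1 hk
    have h2 : (m k : ℝ) < c + 2 := by linarith [h1.1]
    have h3 : (c : ℝ) < m k := by linarith [h1.2]
    have h4 : m k < c + 2 := by exact_mod_cast h2
    have h5 : c < m k := by exact_mod_cast h3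
    omega
  have hk2 : ∀ k : ℤ, lf p q v2 ∈ Ioo (P.f k) (P.f (k + 1)) → m k = c := by
    intro k hk
    have h1 := hm k v2 hk
    have h2 : (m k : ℝ) < c + 1 := by linarith [h1.1]
    have h3 : (c : ℝ) - 1 < m k := by linarith [h1.2]
    have h4 : m k < c + 1 := by exact_mod_cast h2
    have h5 : c - 1 < m k := by exact_mod_cast h3
    omega
  rcases hs v1 hv1 ht1.ne' with h1 | h1 <;> rcases hs v2 hv2 ht2.ne with h2 | h2
  · have := hk1 _ h1
    have := hk2 _ h2
    omega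
  · have := hk1 _ h1
    have := hk2 _ h2
    omega
  · have := hk1 _ h1
    have := hk2 _ h2
    omega
  · have := hk1 _ h1
    have := hk2 _ h2
    omega

theorem exists_psi {X : Type} [TopologicalSpace X] {D : WData X} {p q : ℤ}
    (hpq : IsCoprime p q) (P : Plane D p q 1) {G : Type} [Group G] {LS : LiftSys X G}
    {L : ℝ × ℝ → LS.E} (hL : LS.Lift L) (hLb : ∀ v, LS.pr (L v) = P.b v) {g : ℤ → ℤ → G}
    (hg : ∀ (k₁ k₂ : ℤ) (v : ℝ × ℝ), g k₁ k₂ • L v = L (tr k₁ k₂ v)) :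
    ∃ ψ : G →* Multiplicative ℤ, ∀ k₁ k₂ : ℤ,
      ψ (g k₁ k₂) = Multiplicative.ofAdd (p * k₁ - q * k₂) := by
  obtain ⟨r₁, hr₁⟩ := ec_surjective (D.η (LS.pr (L (0, 0))))
  obtain ⟨h, hc, he, -⟩ := exists_height (S := LS) (f := fun z => D.η (LS.pr z))
    (fun L hL => D.cont_η.comp (LS.cont L hL)) hr₁
  -- the height homomorphism
  have hψ : ∀ a : G, ∃ m : ℤ, ∀ z, h (a • z) = h z + m := by
    intro a
    have h1 : ∀ z, ec (h (a • z)) = ec (h z) := fun z => by rw [he, he, LS.pr_smul]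
    obtain ⟨m, hm⟩ := ec_eq_iff.1 (h1 (L (0, 0)))
    refine ⟨m, fun z => ?_⟩
    refine height_unique (S := LS) (h := fun z => h (a • z)) (h' := fun z => h z + m)
      (fun L hL => hc _ (LS.smul a L hL)) (fun L hL => (hc L hL).add continuous_const)
      (fun z => ?_) (z₁ := L (0, 0)) hm z
    show ec (h (a • z)) = ec (h z + m)
    rw [ec_add, ec_int, mul_one, h1]
  choose ψ hψ using hψ
  have hadd : ∀ a a' : G, ψ (a * a') = ψ a + ψ a' := by
    intro a a'
    have h1 := hψ (a * a') (L (0, 0))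
    rw [mul_smul, hψ a, hψ a'] at h1
    have h2 : ((ψ (a * a') : ℤ) : ℝ) = ψ a + ψ a' := by linarith
    exact_mod_cast h2
  have hu : Continuous fun v => h (L v) := hc L hL
  have heu : ∀ v, ec (h (L v)) = D.η (P.b v) := fun v => by rw [he, hLb]
  choose m hm using t17_mu hpq P hu heu
  have hstep := t17_step hpq P hu heu hm
  -- translations
  have hfa : ∀ i j : ℤ, P.f (i + j) = P.f i + j := by
    intro i j
    have h1 := P.f_add i j
    rwa [Nat.cast_one, one_mul] at h1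
  have htr : ∀ k₁ k₂ i : ℤ, m (i + (p * k₁ - q * k₂)) = m i + ψ (g k₁ k₂) := by
    intro k₁ k₂ i
    obtain ⟨v, hv⟩ := lf_surj hpq ((P.f i + P.f (i + 1)) / 2)
    have hlt : P.f i < P.f (i + 1) := P.mono (by omega)
    have hv1 : lf p q v ∈ Ioo (P.f i) (P.f (i + 1)) := by
      rw [hv]
      constructor <;> linarith
    have hv2 : lf p q (tr k₁ k₂ v) ∈ Ioo (P.f (i + (p * k₁ - q * k₂)))
        (P.f (i + (p * k₁ - q * k₂) + 1)) := by
      have h1 : i + (p * k₁ - q * k₂) + 1 = (i + 1) + (p * k₁ - q * k₂) := by ring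
      rw [h1, hfa, hfa, lf_tr]
      exact ⟨by linarith [hv1.1], by linarith [hv1.2]⟩
    have h1 := hm i v hv1
    have h2 := hm _ _ hv2
    rw [← hg, hψ] at h2
    have h3 : ((m (i + (p * k₁ - q * k₂)) : ℤ) : ℝ) < m i + ψ (g k₁ k₂) + 1 := by linarith
    have h4 : (m i : ℝ) + ψ (g k₁ k₂) - 1 < m (i + (p * k₁ - q * k₂)) := by linarith
    have h5 : m (i + (p * k₁ - q * k₂)) < m i + ψ (g k₁ k₂) + 1 := by exact_mod_cast h3
    have h6 : m i + ψ (g k₁ k₂) - 1 < m (i + (p * k₁ - q * k₂)) := by exact_mod_cast h4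
    omega
  obtain ⟨a, b, hab⟩ := hpq
  obtain ⟨e, he1⟩ : ∃ e : ℤ, e = ψ (g a (-b)) := ⟨_, rfl⟩
  have hm1 : ∀ i, m (i + 1) = m i + e := by
    intro i
    have h1 := htr a (-b) i
    have h2 : p * a - q * -b = 1 := by linarith
    rw [h2, ← he1] at h1
    exact h1
  have hee : e * e = 1 := by
    rcases hstep 0 with h1 | h1
    · rw [hm1] at h1
      have h2 : e = 1 := by linarith
      rw [h2]
      norm_num
    · rw [hm1] at h1
      have h2 : e = -1 := by linarith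
      rw [h2]
      norm_num
  have hmj : ∀ j : ℤ, m j = m 0 + e * j := by
    intro j
    induction j using Int.induction_on with
    | zero => simp
    | succ n ih =>
      rw [hm1, ih]
      ring
    | pred n ih =>
      have h1 := hm1 (-(n : ℤ) - 1)
      rw [sub_add_cancel, ih] at h1
      linarith
  have hfin : ∀ k₁ k₂ : ℤ, ψ (g k₁ k₂) = e * (p * k₁ - q * k₂) := by
    intro k₁ k₂
    have h1 := htr k₁ k₂ 0
    rw [zero_add, hmj] at h1
    linarith
  refine ⟨MonoidHom.mk' (fun a => Multiplicative.ofAdd (e * ψ a)) (fun a a' => ?_),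
    fun k₁ k₂ => ?_⟩
  · rw [hadd, mul_add, ofAdd_add]
  · show Multiplicative.ofAdd (e * ψ (g k₁ k₂)) = _
    rw [hfin, ← mul_assoc, hee, one_mul]

end Pool.Agent.EBS
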