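import Pool.Agent.EBS.T10
import Pool.Agent.EBS.T11
import Pool.Agent.EBS.T12
import Pool.Agent.EBS.T13
import Pool.Agent.EBS.T14
import Pool.Agent.EBS.T15
import Pool.Agent.EBS.T16
import Pool.Agent.EBS.T17

/-!
# T18: the homomorphisms given by a surface
-/

set_option autoImplicit false

noncomputable section

open Set Topology unitInterval

namespace Pool.Agent.EBS

theorem tmain {T : Tube} (S : Surf T) {p q : ℤ} {n : ℕ} (hn : 2 ≤ n) (hpq : IsCoprime p q)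
    (hs : S.HasSlope p q n) (hb : S.BdIncompressible) :
    ∃ (A : Subgroup (Pi1 T.Ext (T.bd (1, 1)))) (φ : A →* Multiplicative ℤ),
      (∀ k₁ k₂ : ℤ, ∃ h : tl T k₁ k₂ ∈ A,
        φ ⟨_, h⟩ = Multiplicative.ofAdd ((n : ℤ) * (p * k₁ - q * k₂))) ∧
      (∀ (h : A) (g : Pi1 T.Ext (T.bd (1, 1))), φ h ≠ 1 → Commute (h : Pi1 T.Ext (T.bd (1, 1))) g →
        g ∈ A) ∧
      (A = ⊤ → ∃ a, φ a = Multiplicative.ofAdd 1) := by
  obtain ⟨F, Φ, hF, h0, hbij, hS⟩ := hs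
  obtain ⟨D, hD⟩ := exists_collar S
  have hΨ : Continuous fun z : Circle × Circle => Φ (1, z) := by fun_prop
  obtain ⟨P, hPb, hPf⟩ := exists_plane S (by omega : 1 ≤ n) hF hΨ (hbij 1) hS hD
  obtain ⟨LS, L, hL, hLb, hk⟩ := exists_base T Φ h0
  have hLP : ∀ v, LS.pr (L v) = P.b v := fun v => (hLb v).trans (hPb v).symm
  obtain ⟨ln, h1, h2⟩ := exists_line P hpq hL hLP fun v v' i hv hv' =>
    no_rel S hb hn hΨ (hbij 1) hS hD P hPb LS hL hLP hv hv'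
  obtain ⟨A, φ, hA, hcomm, htop⟩ := Line.comb ln
  exact ⟨A, φ, fun k₁ k₂ => hA _ _ (shift_tr P hpq hL hLP h1 h2 (hk k₁ k₂)), hcomm,
    htop wall_trans⟩

theorem tone {T : Tube} (S : Surf T) {p q : ℤ} (hpq : IsCoprime p q) (hs : S.HasSlope p q 1) :
    ∃ ψ : Pi1 T.Ext (T.bd (1, 1)) →* Multiplicative ℤ, ∀ k₁ k₂ : ℤ,
      ψ (tl T k₁ k₂) = Multiplicative.ofAdd (p * k₁ - q * k₂) := by
  obtain ⟨F, Φ, hF, h0, hbij, hS⟩ := hs
  obtain ⟨D, hD⟩ := exists_collar S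
  have hΨ : Continuous fun z : Circle × Circle => Φ (1, z) := by fun_prop
  obtain ⟨P, hPb, hPf⟩ := exists_plane S le_rfl hF hΨ (hbij 1) hS hD
  obtain ⟨LS, L, hL, hLb, hk⟩ := exists_base T Φ h0
  have hLP : ∀ v, LS.pr (L v) = P.b v := fun v => (hLb v).trans (hPb v).symm
  exact exists_psi hpq P hL hLP (g := tl T) hk

end Pool.Agent.EBS
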