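import Pool.Agent.EBS.ADefs

/-!
# A01: the algebra of the boundary slopes, many boundary curves

Notation: `ofAdd = Multiplicative.ofAdd`; for `φ` with values in `Multiplicative ℤ` write `φ`
additively (compose with `Multiplicative.toAdd`).
`hmem`: `φ (lam ^ k₁ * mu ^ k₂) = n (p k₁ - q k₂)`; so (`k = (1, 0), (0, 1), (1, 21)`)
`φ lam = n p`, `φ mu = - n q`, `φ (lam * mu ^ 21) = n (p - 21 q)`.

Proof of `Cable.main`.
1. `h₁ = mu ^ 21 * lam` (`= lam * mu ^ 21` by `C.comm`) lies in `A` and `φ h₁ = n (p - 21 q)`. This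
   is not `0`: `p = 21 q` implies `q ∣ p`, so `q` is a unit, `q = 1`, `p = 21` is not even. So by
   `hcomm` and `C.comm1`: `C.G1 ≤ A`.
2. Let `φ₁ : C.G1 →* Multiplicative ℤ` be the restriction of `φ` (`Subgroup.inclusion`). By
   `C.hom1`: `φ m = - 3 φ mu = 3 n q` and `n p = φ lam = 3 φ l`. Let `h₂ = (m ^ 15)⁻¹ * l`, an
   element of `G1 ≤ A` and of `G2`: `3 φ h₂ = - 45 φ m + 3 φ l = n (p - 135 q) ≠ 0` (as in 1:
   `p = 135 q` implies `q = 1`, `p = 135`). So by `hcomm` and `C.comm2`: `C.G2 ≤ A`.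
3. The restriction of `φ` to `C.G2` kills `l` (`C.hom2`; the elements `l1` of `G1` and `l2` of `G2`
   are the same element of `A`), so `n p = 3 φ l = 0`, `p = 0`, so `q = 1` (coprime, positive).
4. `A = ⊤` by `C.sup`. By `htop` there is `a` with `φ a = 1`. Let `N = n` and consider the
   homomorphism `G → A → ℤ → ZMod n` (`Multiplicative (ZMod n)`). It kills `mu` (`φ mu = - n`), so
   by
   `C.ab` it is trivial, so `n ∣ φ a = 1`, a contradiction to `2 ≤ n`.
-/

set_option autoImplicit false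

namespace Pool.Agent.EBS

private theorem ne_mul {p q c : ℤ} (hpq : IsCoprime p q) (hq : 0 < q) (hp : Even p)
    (hc : ¬ Even c) : p - c * q ≠ 0 := by
  intro h
  have e : p = c * q := by linarith
  have hu : IsUnit q := hpq.isUnit_of_dvd' ⟨c, by rw [e, mul_comm]⟩ dvd_rfl
  rcases Int.isUnit_iff.mp hu with h1 | h1
  · rw [h1, mul_one] at e
    exact hc (e ▸ hp)
  · omega

theorem Cable.main {G : Type} [Group G] {mu lam : G} (C : Cable G mu lam) {p q : ℤ} {n : ℕ}
    (hn : 2 ≤ n) (hpq : IsCoprime p q) (hq : 0 < q) (hp : Even p) (A : Subgroup G)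
    (φ : A →* Multiplicative ℤ)
    (hmem : ∀ k₁ k₂ : ℤ, ∃ h : lam ^ k₁ * mu ^ k₂ ∈ A,
      φ ⟨_, h⟩ = Multiplicative.ofAdd (n * (p * k₁ - q * k₂)))
    (hcomm : ∀ (h : A) (g : G), φ h ≠ 1 → Commute (h : G) g → g ∈ A)
    (htop : A = ⊤ → ∃ a, φ a = Multiplicative.ofAdd 1) : False := by
  have hn0 : (n : ℤ) ≠ 0 := by
    have : n ≠ 0 := by omega
    exact_mod_cast this
  have key : ∀ (k₁ k₂ : ℤ) (g : G), lam ^ k₁ * mu ^ k₂ = g →
      ∃ h : g ∈ A, φ ⟨g, h⟩ = Multiplicative.ofAdd (n * (p * k₁ - q * k₂)) := by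
    rintro k₁ k₂ _ rfl
    exact hmem k₁ k₂
  obtain ⟨hlA, hlφ⟩ := key 1 0 lam (by rw [zpow_one, zpow_zero, mul_one])
  obtain ⟨hmA, hmφ⟩ := key 0 1 mu (by rw [zpow_one, zpow_zero, one_mul])
  obtain ⟨h1A, h1φ⟩ := key 1 21 (mu ^ 21 * lam) (by
    rw [zpow_one, (C.comm.pow_left 21).eq]
    exact congrArg (lam * ·) (zpow_natCast mu 21))
  -- the first piece
  have hG1 : C.G1 ≤ A := by
    intro g hg
    refine hcomm ⟨mu ^ 21 * lam, h1A⟩ g ?_ ?_
    · rw [h1φ, Ne, ofAdd_eq_one]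
      refine mul_ne_zero hn0 ?_
      have := ne_mul (c := 21) hpq hq hp (by decide)
      rw [mul_one, mul_comm q]
      exact this
    · have h := (C.comm1 ⟨g, hg⟩).map C.G1.subtype
      simp only [map_mul, map_pow, Subgroup.coe_subtype] at h
      rw [C.hmu, C.hlam] at h
      exact h
  have e1 := C.hom1 (Multiplicative ℤ) (φ.comp (Subgroup.inclusion hG1))
  simp only [MonoidHom.comp_apply] at e1
  rw [show Subgroup.inclusion hG1 C.mu1 = ⟨mu, hmA⟩ from Subtype.ext C.hmu,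
    show Subgroup.inclusion hG1 C.lam1 = ⟨lam, hlA⟩ from Subtype.ext C.hlam, hmφ, hlφ] at e1
  obtain ⟨e1m, e1l⟩ := e1
  have a1 : Multiplicative.toAdd (φ (Subgroup.inclusion hG1 C.m1)) = 3 * (n * q) := by
    rw [e1m, toAdd_inv, toAdd_pow, toAdd_ofAdd]
    simp only [nsmul_eq_mul]
    push_cast
    ring
  have a2 : n * p = 3 * Multiplicative.toAdd (φ (Subgroup.inclusion hG1 C.l1)) := by
    have h := congrArg Multiplicative.toAdd e1l
    rw [toAdd_pow, toAdd_ofAdd] at h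
    simp only [nsmul_eq_mul] at h
    push_cast at h
    linarith
  -- the second piece
  have hG2 : C.G2 ≤ A := by
    intro g hg
    refine hcomm (Subgroup.inclusion hG1 ((C.m1 ^ 15)⁻¹ * C.l1)) g ?_ ?_
    · intro h
      have h' := congrArg Multiplicative.toAdd h
      rw [map_mul, map_inv, map_pow, map_mul, map_inv, map_pow, toAdd_mul, toAdd_inv, toAdd_pow,
        a1, toAdd_one] at h'
      simp only [nsmul_eq_mul] at h'
      push_cast at h'
      have h3 : (n : ℤ) * (p - 135 * q) = 0 := by linarith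
      exact mul_ne_zero hn0 (ne_mul hpq hq hp (by decide)) h3
    · have h := (C.comm2 ⟨g, hg⟩).map C.G2.subtype
      simp only [map_mul, map_inv, map_pow, Subgroup.coe_subtype] at h
      rw [← C.hm, ← C.hl] at h
      exact h
  have e2 := C.hom2 (Multiplicative ℤ) (φ.comp (Subgroup.inclusion hG2))
  rw [MonoidHom.comp_apply, show Subgroup.inclusion hG2 C.l2 = Subgroup.inclusion hG1 C.l1 from
    Subtype.ext C.hl.symm] at e2
  rw [e2, toAdd_one, mul_zero] at a2
  have hp0 : p = 0 := (mul_eq_zero.mp a2).resolve_left hn0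
  -- the whole group
  have hA : ∀ g, g ∈ A := by
    intro g
    have h : (⊤ : Subgroup G) ≤ A := C.sup ▸ sup_le hG1 hG2
    exact h (Subgroup.mem_top g)
  obtain ⟨a, ha⟩ := htop (Subgroup.eq_top_iff' A |>.mpr hA)
  let ρ : G →* Multiplicative (ZMod n) :=
    MonoidHom.mk' (fun g => Multiplicative.ofAdd
      (((Multiplicative.toAdd (φ ⟨g, hA g⟩) : ℤ) : ZMod n))) fun g h => by
        rw [show (⟨g * h, hA (g * h)⟩ : A) = ⟨g, hA g⟩ * ⟨h, hA h⟩ from rfl, map_mul, toAdd_mul,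
          Int.cast_add, ofAdd_add]
  have hρ : ρ mu = 1 := by
    change Multiplicative.ofAdd (((Multiplicative.toAdd (φ ⟨mu, hA mu⟩) : ℤ) : ZMod n)) = 1
    rw [hmφ, toAdd_ofAdd]
    push_cast
    rw [ZMod.natCast_self, zero_mul, ofAdd_zero]
  have hfin := C.ab (Multiplicative (ZMod n)) ρ hρ a
  change Multiplicative.ofAdd (((Multiplicative.toAdd (φ ⟨a, hA a⟩) : ℤ) : ZMod n)) = 1 at hfin
  rw [show (⟨(a : G), hA a⟩ : A) = a from rfl, ha, toAdd_ofAdd, Int.cast_one, ofAdd_eq_one] at hfin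
  have : Fact (1 < n) := ⟨by omega⟩
  exact one_ne_zero hfin

end Pool.Agent.EBS
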