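import Mathlib

/-!
# The algebraic facts about the knot group which are used (definition)

`G` is the group of the knot `K`, an iterated torus knot: `E(K) = E₁ ∪ E₂` with Seifert pieces
`E₁` (cable space) and `E₂` (exterior of a torus knot), which meet in a torus with meridian `m` and
preferred longitude `l`. `mu`, `lam` are the meridian and the longitude of `K`.
-/

set_option autoImplicit false

namespace Pool.Agent.EBS

/-- The algebraic facts about the group of the iterated torus knot. -/
structure Cable (G : Type) [Group G] (mu lam : G) where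
  /-- the group of the first piece -/
  G1 : Subgroup G
  /-- the group of the second piece -/
  G2 : Subgroup G
  mu1 : G1
  lam1 : G1
  m1 : G1
  l1 : G1
  m2 : G2
  l2 : G2
  hmu : (mu1 : G) = mu
  hlam : (lam1 : G) = lam
  hm : (m1 : G) = m2
  hl : (l1 : G) = l2
  /-- the fibre of the first piece is central -/
  comm1 : ∀ g : G1, Commute (mu1 ^ 21 * lam1) g
  /-- the fibre of the second piece is central -/
  comm2 : ∀ g : G2, Commute ((m2 ^ 15)⁻¹ * l2) g
  sup : G1 ⊔ G2 = ⊤
  hom1 : ∀ (H : Type) [CommGroup H] (φ : G1 →* H), φ m1 = (φ mu1 ^ 3)⁻¹ ∧ φ lam1 = φ l1 ^ 3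
  hom2 : ∀ (H : Type) [CommGroup H] (φ : G2 →* H), φ l2 = 1
  ab : ∀ (H : Type) [CommGroup H] (φ : G →* H), φ mu = 1 → ∀ g, φ g = 1
  comm : Commute mu lam

end Pool.Agent.EBS
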