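import Mathlib

/-!
# Even boundary slopes (MP_73292c_gt): the statement

* `S3` is the 3-sphere.
* A tame knot is given by a tubular neighbourhood: an open embedding `f : S¹ × ℂ → S³`
  (`Tube`). The knot is `K = f (S¹ × 0)`, its closed regular neighbourhood is
  `N(K) = f (S¹ × Q)` with the square `Q = {ζ : |re ζ| ≤ 1, |im ζ| ≤ 1}`, and `E(K)` (`Tube.Ext`) is
  the complement of `f (S¹ × int Q)`. The boundary torus of `E(K)` is parametrized by `Tube.bd`;
  `y ↦ bd (1, y)` is a meridian and `x ↦ bd (x, 1)` is a longitude. The tube is `Preferred` if this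
  longitude is null-homologous in `E(K)`.
* `Surf`: compact connected two-sided surfaces which are properly embedded in `E(K)`.
* `Surf.Essential`: incompressible and boundary incompressible, in the algebraic sense (for
  two-sided surfaces this is equivalent to the geometric definition by the loop theorem; in
  particular all geometrically incompressible and boundary incompressible surfaces are essential in
  this sense).
* `Surf.HasSlope S p q n`: the boundary of `S` consists of `n` parallel curves of slope `p/q`.
-/

set_option autoImplicit false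

noncomputable section

open Set Topology unitInterval

namespace Pool.Agent.EBS

/-- The 3-sphere. -/
abbrev S3 : Type := {z : ℂ × ℂ // ‖z.1‖ ^ 2 + ‖z.2‖ ^ 2 = 1}

/-- The exponential map `ℝ → S¹` with period 1. -/
def ec (t : ℝ) : Circle := Circle.exp (2 * Real.pi * t)

theorem continuous_ec : Continuous ec :=
  Circle.exp.continuous.comp (continuous_const.mul continuous_id)

theorem ec_zero : ec 0 = 1 := by simp [ec]

theorem ec_one : ec 1 = 1 := by simp [ec]

/-- The gauge of the square `|re ζ| ≤ 1`, `|im ζ| ≤ 1`. -/
def sq (ζ : ℂ) : ℝ := max |ζ.re| |ζ.im|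

theorem continuous_sq : Continuous sq := by
  unfold sq
  fun_prop

theorem sq_pos {ζ : ℂ} (h : ζ ≠ 0) : 0 < sq ζ := by
  by_contra hn
  rw [not_lt] at hn
  have h4 : |ζ.re| ≤ 0 := (le_max_left _ _).trans hn
  have h5 : |ζ.im| ≤ 0 := (le_max_right _ _).trans hn
  exact h (Complex.ext (abs_nonpos_iff.1 h4) (abs_nonpos_iff.1 h5))

theorem sq_real_mul (r : ℝ) (ζ : ℂ) : sq (r * ζ) = |r| * sq ζ := by
  unfold sq
  rw [Complex.re_ofReal_mul, Complex.im_ofReal_mul, abs_mul, abs_mul,
    mul_max_of_nonneg _ _ (abs_nonneg r)]

/-- The radial projection of `ζ ≠ 0` to the boundary of the square. -/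
def rad (ζ : ℂ) : ℂ := ((sq ζ)⁻¹ : ℝ) * ζ

theorem sq_rad {ζ : ℂ} (h : ζ ≠ 0) : sq (rad ζ) = 1 := by
  rw [rad, sq_real_mul, abs_of_pos (inv_pos.2 (sq_pos h)), inv_mul_cancel₀ (sq_pos h).ne']

theorem continuousOn_rad : ContinuousOn rad {0}ᶜ := by
  unfold rad
  refine ContinuousOn.mul (Complex.continuous_ofReal.comp_continuousOn
    (ContinuousOn.inv₀ continuous_sq.continuousOn fun ζ h => (sq_pos h).ne')) continuousOn_id

theorem continuous_rad_circle : Continuous fun y : Circle => rad y :=
  continuousOn_rad.comp_continuous (by fun_prop) fun y => Circle.coe_ne_zero y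

/-- A tubular neighbourhood of a tame knot in the 3-sphere. -/
structure Tube where
  /-- the embedding of `S¹ × ℝ²` -/
  f : Circle × ℂ → S3
  emb : IsOpenEmbedding f

namespace Tube

variable (T : Tube)

/-- The knot `K`. -/
def knot : Set S3 := range fun x : Circle => T.f (x, 0)

/-- The exterior `E(K)` of the knot, as a subset of the sphere. -/
def ext : Set S3 := {z | ∀ x ζ, sq ζ < 1 → T.f (x, ζ) ≠ z}

/-- The exterior `E(K)` of the knot, as a space. -/
abbrev Ext : Type := T.ext

theorem bd_mem (x y : Circle) : T.f (x, rad y) ∈ T.ext := by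
  intro x' ζ hζ h
  have h2 : ζ = rad y := congrArg Prod.snd (T.emb.injective h)
  rw [h2, sq_rad (Circle.coe_ne_zero y)] at hζ
  exact lt_irrefl _ hζ

/-- The boundary torus `∂E(K)`: `bd (x, y)` is the point with longitudinal coordinate `x` and
meridional coordinate `y`. -/
def bd (z : Circle × Circle) : T.Ext := ⟨T.f (z.1, rad z.2), T.bd_mem z.1 z.2⟩

theorem continuous_bd : Continuous T.bd :=
  Continuous.subtype_mk (T.emb.continuous.comp
    (continuous_fst.prodMk (continuous_rad_circle.comp continuous_snd))) _

/-- The longitude of the tube. -/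
def longitude : Path (T.bd (1, 1)) (T.bd (1, 1)) where
  toFun t := T.bd (ec t, 1)
  continuous_toFun := T.continuous_bd.comp
    ((continuous_ec.comp continuous_subtype_val).prodMk continuous_const)
  source' := by rw [Icc.coe_zero, ec_zero]
  target' := by rw [Icc.coe_one, ec_one]

/-- The longitude of the tube is null-homologous in the exterior: its class in the abelianized
fundamental group is trivial. -/
def Preferred : Prop :=
  Abelianization.of (FundamentalGroup.fromPath
    (Path.Homotopic.Quotient.mk T.longitude) : FundamentalGroup T.Ext (T.bd (1, 1))) = 1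

end Tube

/-- The torus knot `T(r, s)`. -/
def torusKnot (r s : ℤ) : Set S3 :=
  {z | ∃ θ : Circle, (z : ℂ × ℂ).1 = ((θ ^ r : Circle) : ℂ) / (√2 : ℝ) ∧
    (z : ℂ × ℂ).2 = ((θ ^ s : Circle) : ℂ) / (√2 : ℝ)}

/-- The knot is not equivalent to a torus knot (this includes the unknot `T(1, 0)` and the mirror
images): no homeomorphism of the sphere maps it to a torus knot. -/
def Tube.NotTorus (T : Tube) : Prop :=
  ∀ r s : ℤ, IsCoprime r s → ∀ h : S3 ≃ₜ S3, h '' T.knot ≠ torusKnot r s

/-- A compact connected two-sided surface `S`, properly embedded in the exterior of a knot.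
`col` is a bicollar. -/
structure Surf (T : Tube) where
  /-- the surface, a subset of the exterior -/
  S : Set T.Ext
  compact : IsCompact S
  connected : IsPathConnected S
  /-- `S` is a surface, whose boundary is the intersection with the boundary of the exterior -/
  surface : ∀ s : S, ∃ e : OpenPartialHomeomorph S {p : ℝ × ℝ // 0 ≤ p.1}, s ∈ e.source ∧
    ∀ u ∈ e.source, (e u : ℝ × ℝ).1 = 0 ↔ (u : T.Ext) ∈ range T.bd
  /-- the bicollar -/
  col : S × Ioo (-1 : ℝ) 1 → T.Ext
  emb : IsOpenEmbedding col
  col_zero : ∀ s : S, col (s, ⟨0, by norm_num, by norm_num⟩) = s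
  col_bd : ∀ s t, col (s, t) ∈ range T.bd ↔ (s : T.Ext) ∈ range T.bd

namespace Surf

variable {T : Tube} (S : Surf T)

/-- Incompressible (`π₁`-injective): a loop in `S` which is null-homotopic in the exterior is
null-homotopic in `S`. -/
def Incompressible : Prop :=
  ∀ (s : S.S) (α : Path s s),
    (α.map continuous_subtype_val).Homotopic (Path.refl (s : T.Ext)) → α.Homotopic (Path.refl s)

/-- Boundary incompressible (relative `π₁`-injective): a path `α` in `S` which is homotopic (with
fixed end points) in the exterior to a path in the boundary torus is homotopic in `S` to a path in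
the boundary of `S`. -/
def BdIncompressible : Prop :=
  ∀ (s s' : S.S) (α : Path s s') (β : Path (s : T.Ext) (s' : T.Ext)), (∀ t, β t ∈ range T.bd) →
    (α.map continuous_subtype_val).Homotopic β →
      ∃ γ : Path s s', (∀ t, (γ t : T.Ext) ∈ range T.bd) ∧ α.Homotopic γ

/-- Essential surfaces. -/
def Essential : Prop := S.Incompressible ∧ S.BdIncompressible

/-- The boundary of `S` consists of `n` parallel curves of slope `p/q`: an isotopy `Φ` of the
boundary torus maps the `n` curves `x ^ p * y ^ (-q) = c`, `c ∈ F`, to the boundary of `S`. -/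
def HasSlope (p q : ℤ) (n : ℕ) : Prop :=
  ∃ (F : Finset Circle) (Φ : C(I × (Circle × Circle), Circle × Circle)), F.card = n ∧
    (∀ z, Φ (0, z) = z) ∧ (∀ t, Function.Bijective fun z => Φ (t, z)) ∧
    {z | T.bd z ∈ S.S} = (fun z => Φ (1, z)) '' {z | z.1 ^ p * z.2 ^ (-q) ∈ F}

/-- `S` is a Seifert surface: it has one boundary curve, of slope 0 (the union of `S` and an
annulus in `N(K)` is a compact connected two-sided surface in the sphere with boundary `K`). -/
def IsSeifert : Prop := S.HasSlope 0 1 1

end Surf

/-- The knot is prime: there is no essential annulus with meridional boundary in the exterior (for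
every decomposition `K = K₁ # K₂` one of the summands is trivial). -/
def Tube.Prime (T : Tube) : Prop :=
  ∀ S : Surf T, Nonempty (S.S ≃ₜ Circle × I) → S.HasSlope 1 0 2 → ¬ S.Essential

end Pool.Agent.EBS
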