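import Pool.Agent.EBS.Fn

/-!
# F01: elementary properties of functionals on path classes

Everything follows from `homo` and `trans`.
* `v_congr`: the end points agree (values at `0` and `1`), `subst` them; then `p = q`.
* `v_refl`: `refl.trans refl = refl` up to homotopy (`Path.Homotopic.refl_trans` or
  `Path.Homotopic.trans_refl`), so `v * v = v`. `v_symm`: `Path.Homotopic.trans_symm`.
* `cv_congr`: `Cv Y c u v ↔ Cv Y c' u v` (`ContinuousOn.congr`), then `v_congr`.
* `cv_path`: the path `Cv.path` for `c = p.extend` is `p` (`v_congr`; `Path.extend_extends'`,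
  `Path.extend_apply`). Continuity: `Path.continuous_extend`.
* `cv_trans`: if `u = v` or `v = w` use `cv_self`. The concatenation of the two paths is a
  reparametrization of the path on `[u, w]` (`Path.Homotopy.reparam`): with
  `f t = (v - u) / (w - u) * 2 t` for `t ≤ 1/2` and `(v - u + (w - v) (2 t - 1)) / (w - u)` for
  `t ≥ 1/2`. (Alternatively use `Path.subpath` and `Path.Homotopy.subpathTransSubpath` for
  `γ = Cv.path` on `[u, w]`, together with `v_congr`.) For `w = u` everything is trivial.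
* `cv_affine`: `Cv` for one side is equivalent to `Cv` for the other one, the paths have the same
  values (`v_congr`).
* `cv_rev`: the path on the left is the reversed path (`Path.symm`), `v_congr` and `v_symm`.
* `cv_res`, `cv_hom`, `cv_comap`: by definition and `v_congr`.
-/

set_option autoImplicit false

noncomputable section

open Set Topology unitInterval

namespace Pool.Agent.EBS

variable {Z : Type} [TopologicalSpace Z] {Y : Set Z} {H : Type} [Group H] (F : Fn Y H)

private theorem cv_imp {c c' : ℝ → Z} {u v : ℝ} (h : EqOn c c' (Icc u v)) (hc : Cv Y c u v) :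
    Cv Y c' u v where
  le := hc.le
  cont := hc.cont.congr fun t ht => (h ht).symm
  mem t ht := by
    rw [← h ht]
    exact hc.mem t ht

private theorem cv_aff {c : ℝ → Z} {u v k s : ℝ} (hk : 0 < k)
    (h : Cv Y c (k * u + s) (k * v + s)) : Cv Y (fun t => c (k * t + s)) u v := by
  have hm : MapsTo (fun t : ℝ => k * t + s) (Icc u v) (Icc (k * u + s) (k * v + s)) := by
    intro t ht
    have h1 := mul_le_mul_of_nonneg_left ht.1 hk.le
    have h2 := mul_le_mul_of_nonneg_left ht.2 hk.le
    exact ⟨by linarith, by linarith⟩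
  refine ⟨?_, ?_, fun t ht => h.mem _ (hm ht)⟩
  · have h1 := h.le
    have h2 : k * u ≤ k * v := by linarith
    exact le_of_mul_le_mul_left h2 hk
  · exact h.cont.comp (by fun_prop) hm

private theorem cv_neg {c : ℝ → Z} {u v : ℝ} (h : Cv Y c u v) :
    Cv Y (fun t => c (-t)) (-v) (-u) := by
  have hm : MapsTo (fun t : ℝ => -t) (Icc (-v) (-u)) (Icc u v) := by
    intro t ht
    exact ⟨by linarith [ht.2], by linarith [ht.1]⟩
  exact ⟨neg_le_neg h.le, h.cont.comp (by fun_prop) hm, fun t ht => h.mem _ (hm ht)⟩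

namespace Fn

theorem v_congr {x y x' y' : Y} (p : Path x y) (q : Path x' y') (h : ∀ t, p t = q t) :
    F.v p = F.v q := by
  obtain rfl : x = x' := by
    have h1 := h 0
    rwa [p.source, q.source] at h1
  obtain rfl : y = y' := by
    have h1 := h 1
    rwa [p.target, q.target] at h1
  have h1 : p = q := Path.ext (funext h)
  rw [h1]

theorem v_refl (x : Y) : F.v (Path.refl x) = 1 := by
  have h1 := F.trans (Path.refl x) (Path.refl x)
  rw [F.homo ⟨Path.Homotopy.reflTrans (Path.refl x)⟩] at h1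
  exact mul_eq_left.1 h1.symm

theorem v_symm {x y : Y} (p : Path x y) : F.v p.symm = (F.v p)⁻¹ := by
  have h1 := F.trans p p.symm
  rw [← F.homo ⟨Path.Homotopy.reflTransSymm p⟩, F.v_refl] at h1
  exact eq_inv_of_mul_eq_one_right h1.symm

theorem cv_eq {c : ℝ → Z} {u v : ℝ} (h : Cv Y c u v) : F.cv c u v = F.v h.path := dif_pos h

theorem cv_path {x y : Y} (p : Path x y) :
    Cv Y (fun t => (p.extend t : Z)) 0 1 ∧ F.cv (fun t => (p.extend t : Z)) 0 1 = F.v p := by
  have h : Cv Y (fun t => (p.extend t : Z)) 0 1 :=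
    ⟨zero_le_one, (continuous_subtype_val.comp p.continuous_extend).continuousOn,
      fun t _ => (p.extend t).2⟩
  refine ⟨h, ?_⟩
  rw [F.cv_eq h]
  refine F.v_congr _ _ fun t => ?_
  refine Subtype.ext ?_
  change ((p.extend (0 + t * (1 - 0)) : Y) : Z) = p t
  have h1 : (0 + t * (1 - 0) : ℝ) = t := by ring
  rw [h1, Path.extend_apply p t.2]

theorem cv_congr {c c' : ℝ → Z} {u v : ℝ} (h : EqOn c c' (Icc u v)) :
    F.cv c u v = F.cv c' u v := by
  by_cases hc : Cv Y c u v
  · rw [F.cv_eq hc, F.cv_eq (cv_imp h hc)]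
    exact F.v_congr _ _ fun t => Subtype.ext (h (param_mem hc.le t))
  · have hc' : ¬ Cv Y c' u v := fun h' => hc (cv_imp (fun t ht => (h ht).symm) h')
    rw [cv, cv, dif_neg hc, dif_neg hc']

theorem cv_const {c : ℝ → Z} {u v : ℝ} {z : Z} (h : ∀ t ∈ Icc u v, c t = z) :
    F.cv c u v = 1 := by
  by_cases hc : Cv Y c u v
  · rw [F.cv_eq hc, ← F.v_refl (⟨c u, hc.left⟩ : Y)]
    refine F.v_congr _ _ fun t => Subtype.ext ?_
    change c (u + t * (v - u)) = c u
    rw [h _ (param_mem hc.le t), h _ ⟨le_rfl, hc.le⟩]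
  · rw [cv, dif_neg hc]

theorem cv_self (c : ℝ → Z) (u : ℝ) : F.cv c u u = 1 :=
  F.cv_const (z := c u) fun t ht => by rw [le_antisymm ht.2 ht.1]

theorem cv_trans {c : ℝ → Z} {u v w : ℝ} (h : Cv Y c u w) (h1 : u ≤ v) (h2 : v ≤ w) :
    F.cv c u v * F.cv c v w = F.cv c u w := by
  rcases eq_or_lt_of_le h.le with h0 | h0
  · obtain rfl : u = v := le_antisymm h1 (by rw [h0]; exact h2)
    rw [← h0, F.cv_self, mul_one]
  have hwu : 0 < w - u := by linarith
  have huv : Cv Y c u v := ⟨h1, h.cont.mono (Icc_subset_Icc_right h2),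
    fun t ht => h.mem t ⟨ht.1, ht.2.trans h2⟩⟩
  have hvw : Cv Y c v w := ⟨h2, h.cont.mono (Icc_subset_Icc_left h1),
    fun t ht => h.mem t ⟨h1.trans ht.1, ht.2⟩⟩
  obtain ⟨t1, ht1⟩ : ∃ t1 : I, (t1 : ℝ) * (w - u) = v - u := by
    refine ⟨⟨(v - u) / (w - u), ?_, ?_⟩, ?_⟩
    · exact div_nonneg (by linarith) hwu.le
    · rw [div_le_one hwu]
      linarith
    · exact div_mul_cancel₀ _ hwu.ne'
  have e1 : F.cv c u v = F.v (h.path.subpath 0 t1) := by
    rw [F.cv_eq huv]
    refine F.v_congr _ _ fun t => Subtype.ext ?_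
    change c (u + t * (v - u)) = c (u + ((Icc.convexComb 0 t1 t : I) : ℝ) * (w - u))
    congr 1
    rw [Icc.coe_convexComb, ← ht1]
    simp
    ring
  have e2 : F.cv c v w = F.v (h.path.subpath t1 1) := by
    rw [F.cv_eq hvw]
    refine F.v_congr _ _ fun t => Subtype.ext ?_
    change c (v + t * (w - v)) = c (u + ((Icc.convexComb t1 1 t : I) : ℝ) * (w - u))
    congr 1
    rw [Icc.coe_convexComb]
    have h3 : v = u + t1 * (w - u) := by linarith
    rw [h3]
    simp
    ring
  have e3 : F.cv c u w = F.v (h.path.subpath 0 1) := by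
    rw [F.cv_eq h]
    refine F.v_congr _ _ fun t => Subtype.ext ?_
    change c (u + t * (w - u)) = c (u + ((Icc.convexComb 0 1 t : I) : ℝ) * (w - u))
    congr 1
    rw [Icc.coe_convexComb]
    simp
  rw [e1, e2, e3, ← F.trans]
  exact F.homo ⟨Path.Homotopy.subpathTransSubpath _ _ _ _⟩

theorem cv_affine (c : ℝ → Z) (u v : ℝ) {k : ℝ} (hk : 0 < k) (s : ℝ) :
    F.cv (fun t => c (k * t + s)) u v = F.cv c (k * u + s) (k * v + s) := by
  by_cases hc : Cv Y c (k * u + s) (k * v + s)
  · rw [F.cv_eq hc, F.cv_eq (cv_aff hk hc)]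
    refine F.v_congr _ _ fun t => Subtype.ext ?_
    change c (k * (u + t * (v - u)) + s) = c (k * u + s + t * (k * v + s - (k * u + s)))
    congr 1
    ring
  · have hc' : ¬ Cv Y (fun t => c (k * t + s)) u v := by
      intro h'
      apply hc
      have h1 : Cv Y (fun t => c (k * t + s)) (k⁻¹ * (k * u + s) + (-s / k))
          (k⁻¹ * (k * v + s) + (-s / k)) := by
        have e1 : k⁻¹ * (k * u + s) + (-s / k) = u := by
          field_simp
          ring
        have e2 : k⁻¹ * (k * v + s) + (-s / k) = v := by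
          field_simp
          ring
        rw [e1, e2]
        exact h'
      refine cv_imp (fun t _ => ?_) (cv_aff (inv_pos.2 hk) h1)
      change c (k * (k⁻¹ * t + -s / k) + s) = c t
      congr 1
      field_simp
      ring
    rw [cv, cv, dif_neg hc, dif_neg hc']

theorem cv_rev (c : ℝ → Z) (u v : ℝ) :
    F.cv (fun t => c (-t)) (-v) (-u) = (F.cv c u v)⁻¹ := by
  by_cases hc : Cv Y c u v
  · rw [F.cv_eq hc, F.cv_eq (cv_neg hc), ← F.v_symm]
    refine F.v_congr _ _ fun t => Subtype.ext ?_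
    rw [Path.symm_apply]
    change c (-(-v + t * (-u - -v))) = c (u + (unitInterval.symm t : ℝ) * (v - u))
    congr 1
    rw [unitInterval.coe_symm_eq]
    ring
  · have hc' : ¬ Cv Y (fun t => c (-t)) (-v) (-u) := by
      intro h'
      apply hc
      have h1 := cv_neg h'
      simp only [neg_neg] at h1
      exact h1
    rw [cv, cv, dif_neg hc, dif_neg hc', inv_one]

theorem cv_res {Y' : Set Z} (hY : Y' ⊆ Y) {c : ℝ → Z} {u v : ℝ} (h : Cv Y' c u v) :
    (F.res hY).cv c u v = F.cv c u v := by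
  have h' : Cv Y c u v := ⟨h.le, h.cont, fun t ht => hY (h.mem t ht)⟩
  rw [cv_eq _ h, cv_eq _ h']
  exact F.v_congr _ _ fun t => rfl

theorem cv_hom {H' : Type} [Group H'] (f : H →* H') (c : ℝ → Z) (u v : ℝ) :
    (F.hom f).cv c u v = f (F.cv c u v) := by
  by_cases hc : Cv Y c u v
  · rw [cv_eq _ hc, cv_eq _ hc]
    rfl
  · rw [cv, cv, dif_neg hc, dif_neg hc, map_one]

theorem cv_comap {Z' : Type} [TopologicalSpace Z'] {Y' : Set Z'} (r : C(Y', Y)) {c : ℝ → Z'}
    {u v : ℝ} (h : Cv Y' c u v) (c' : ℝ → Z) (hc : ∀ t (ht : t ∈ Icc u v),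
      c' t = r ⟨c t, h.mem t ht⟩) : (F.comap r).cv c u v = F.cv c' u v := by
  have h' : Cv Y c' u v := by
    refine ⟨h.le, ?_, fun t ht => ?_⟩
    · rw [continuousOn_iff_continuous_restrict]
      have e : (Icc u v).domRestrict c' = fun t : Icc u v =>
          ((r ⟨c t, h.mem t t.2⟩ : Y) : Z) := by
        funext t
        exact hc t t.2
      rw [e]
      have h1 : Continuous fun t : Icc u v => c t := continuousOn_iff_continuous_restrict.1 h.cont
      exact continuous_subtype_val.comp (r.continuous.comp (h1.subtype_mk _))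
    · rw [hc t ht]
      exact Subtype.coe_prop _
  rw [cv_eq _ h, cv_eq _ h']
  refine F.v_congr _ _ fun t => Subtype.ext ?_
  exact (hc _ (param_mem h.le t)).symm

end Fn

theorem Cv.sub {c : ℝ → Z} {u v : ℝ} (h : Cv Y c u v) {u' v' : ℝ} (h1 : u ≤ u') (h2 : u' ≤ v')
    (h3 : v' ≤ v) : Cv Y c u' v' :=
  ⟨h2, h.cont.mono (Icc_subset_Icc h1 h3), fun t ht => h.mem t ⟨h1.trans ht.1, ht.2.trans h3⟩⟩

end Pool.Agent.EBS
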