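import Pool.Agent.EBS.F01

/-!
# F02: the square lemma

`h : [a, b] × [u, v] → Y` continuous. Bottom times right = left times top.

Proof. Both sides are values of `F` on concatenations of two paths from `h a u` to `h b v`
(`cv_eq`; reparametrize to the unit square: `k (s, t) = h (a + s (b - a)) (u + t (v - u))`, a
continuous map `I × I → Y`). The two concatenations are the images under the continuous map
`k : I × I → Y` of two paths in the convex set `I × I` with the same end points: along the bottom
and the right side, respectively along the left and the top side. In `I × I` any two paths with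
the same end points are homotopic (`I × I` is contractible, so simply connected:
`SimplyConnectedSpace.paths_homotopic`; instances for products and `unitInterval`, or use the
straight line homotopy); apply `Path.Homotopic.map` and `F.homo`, `F.trans`, `Path.map_trans`,
`v_congr`.
-/

set_option autoImplicit false

noncomputable section

open Set Topology unitInterval

namespace Pool.Agent.EBS

variable {Z : Type} [TopologicalSpace Z] {Y : Set Z} {H : Type} [Group H]

/-- Two paths in the square with the same end points are homotopic. -/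
private theorem f02_sc (x y : I × I) (p q : Path x y) : p.Homotopic q := by
  have : ContractibleSpace I := (convex_Icc (0 : ℝ) 1).contractibleSpace ⟨0, by simp⟩
  have h1 : (p.map continuous_fst).Homotopic (q.map continuous_fst) :=
    SimplyConnectedSpace.paths_homotopic _ _
  have h2 : (p.map continuous_snd).Homotopic (q.map continuous_snd) :=
    SimplyConnectedSpace.paths_homotopic _ _
  obtain ⟨H1⟩ := h1
  obtain ⟨H2⟩ := h2
  have e : ∀ r : Path x y, (r.map continuous_fst).prod (r.map continuous_snd) = r := by
    intro r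
    ext t <;> rfl
  have H := Path.Homotopic.prodHomotopy H1 H2
  rw [e, e] at H
  exact ⟨H⟩

/-- The identity path. -/
private def f02_id : Path (0 : I) 1 where
  toFun t := t
  continuous_toFun := continuous_id
  source' := rfl
  target' := rfl

theorem Fn.square (F : Fn Y H) {a b u v : ℝ} (hab : a ≤ b) (huv : u ≤ v) (h : ℝ → ℝ → Z)
    (hc : ContinuousOn (Function.uncurry h) (Icc a b ×ˢ Icc u v))
    (hm : ∀ s ∈ Icc a b, ∀ t ∈ Icc u v, h s t ∈ Y) :
    F.cv (fun s => h s u) a b * F.cv (fun t => h b t) u v =
      F.cv (fun t => h a t) u v * F.cv (fun s => h s v) a b := by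
  have hk : Continuous fun w : I × I =>
      (⟨h (a + w.1 * (b - a)) (u + w.2 * (v - u)),
        hm _ (param_mem hab w.1) _ (param_mem huv w.2)⟩ : Y) := by
    refine Continuous.subtype_mk ?_ _
    have h1 : Continuous fun w : I × I => ((a + w.1 * (b - a), u + w.2 * (v - u)) : ℝ × ℝ) := by
      fun_prop
    exact hc.comp_continuous h1 fun w => ⟨param_mem hab w.1, param_mem huv w.2⟩
  set k : C(I × I, Y) := ⟨_, hk⟩ with hkd
  have hau : a ∈ Icc a b := ⟨le_rfl, hab⟩
  have hbu : b ∈ Icc a b := ⟨hab, le_rfl⟩
  have huu : u ∈ Icc u v := ⟨le_rfl, huv⟩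
  have hvv : v ∈ Icc u v := ⟨huv, le_rfl⟩
  have c1 : Cv Y (fun s => h s u) a b :=
    ⟨hab, hc.comp (f := fun s : ℝ => (s, u)) (by fun_prop) fun s hs => ⟨hs, huu⟩,
      fun s hs => hm s hs u huu⟩
  have c2 : Cv Y (fun t => h b t) u v :=
    ⟨huv, hc.comp (f := fun t : ℝ => (b, t)) (by fun_prop) fun t ht => ⟨hbu, ht⟩,
      fun t ht => hm b hbu t ht⟩
  have c3 : Cv Y (fun t => h a t) u v :=
    ⟨huv, hc.comp (f := fun t : ℝ => (a, t)) (by fun_prop) fun t ht => ⟨hau, ht⟩,
      fun t ht => hm a hau t ht⟩
  have c4 : Cv Y (fun s => h s v) a b :=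
    ⟨hab, hc.comp (f := fun s : ℝ => (s, v)) (by fun_prop) fun s hs => ⟨hs, hvv⟩,
      fun s hs => hm s hs v hvv⟩
  let p1 : Path ((0 : I), (0 : I)) (1, 0) := f02_id.prod (Path.refl 0)
  let p2 : Path ((1 : I), (0 : I)) (1, 1) := (Path.refl 1).prod f02_id
  let p3 : Path ((0 : I), (0 : I)) (0, 1) := (Path.refl 0).prod f02_id
  let p4 : Path ((0 : I), (1 : I)) (1, 1) := f02_id.prod (Path.refl 1)
  have e1 : F.cv (fun s => h s u) a b = F.v (p1.map k.continuous) := by
    rw [F.cv_eq c1]
    refine F.v_congr _ _ fun t => Subtype.ext ?_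
    change h (a + t * (b - a)) u = h (a + t * (b - a)) (u + ((0 : I) : ℝ) * (v - u))
    simp
  have e2 : F.cv (fun t => h b t) u v = F.v (p2.map k.continuous) := by
    rw [F.cv_eq c2]
    refine F.v_congr _ _ fun t => Subtype.ext ?_
    change h b (u + t * (v - u)) = h (a + ((1 : I) : ℝ) * (b - a)) (u + t * (v - u))
    simp
  have e3 : F.cv (fun t => h a t) u v = F.v (p3.map k.continuous) := by
    rw [F.cv_eq c3]
    refine F.v_congr _ _ fun t => Subtype.ext ?_
    change h a (u + t * (v - u)) = h (a + ((0 : I) : ℝ) * (b - a)) (u + t * (v - u))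
    simp
  have e4 : F.cv (fun s => h s v) a b = F.v (p4.map k.continuous) := by
    rw [F.cv_eq c4]
    refine F.v_congr _ _ fun t => Subtype.ext ?_
    change h (a + t * (b - a)) v = h (a + t * (b - a)) (u + ((1 : I) : ℝ) * (v - u))
    simp
  rw [e1, e2, e3, e4, ← F.trans, ← F.trans, ← Path.map_trans, ← Path.map_trans]
  exact F.homo ((f02_sc _ _ (p1.trans p2) (p3.trans p4)).map k)

end Pool.Agent.EBS
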