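import Pool.Agent.EBS.F02

/-!
# F03: curves in convex sets

`C` is a convex subset of a real normed space, `g` is continuous on `C` and maps `C` into `Y`.

* `cv_convex`: the value on `g ∘ c` for a curve `c` in `C` depends only on the end points: Apply
  the square lemma (`Fn.square`) to
  `h s t = g ((1 - t) • c s + t • lineMap (c u) (c v) ((s - u) / (v - u)))` on `[u, v] × [0, 1]`
  (for `u = v`: both sides are `1`, `cv_self`, `cv_const`); the left and the right sides are
  constant curves (`cv_const`), the bottom is `g ∘ c`, the top is an affine reparametrization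
  of the segment (`cv_affine`, `cv_congr`).
* `sv_trans`: apply `cv_convex` to the piecewise linear curve `c t = lineMap P Q t` (`t ≤ 1`),
  `lineMap Q R (t - 1)` (`t ≥ 1`) on `[0, 2]` and `cv_trans`, `cv_affine`.
* `sv_inv`: `sv_trans` for `P, Q, P` and `sv_self` (or `cv_rev`).
* `sv_shift`: `cv_congr` (`lineMap (P + k) (Q + k) t = lineMap P Q t + k`).
-/

set_option autoImplicit false

noncomputable section

open Set Topology unitInterval

namespace Pool.Agent.EBS

variable {Z : Type} [TopologicalSpace Z] {Y : Set Z} {H : Type} [Group H] (F : Fn Y H)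
  {E : Type} [NormedAddCommGroup E] [NormedSpace ℝ E] {C : Set E} {g : E → Z}

namespace Fn

theorem cv_convex (hC : Convex ℝ C) (hg : ContinuousOn g C) (hm : ∀ P ∈ C, g P ∈ Y)
    {c : ℝ → E} {u v : ℝ} (huv : u ≤ v) (hc : ContinuousOn c (Icc u v))
    (hcm : ∀ t ∈ Icc u v, c t ∈ C) : F.cv (fun t => g (c t)) u v = F.sv g (c u) (c v) := by
  rcases huv.eq_or_lt with rfl | huv'
  · rw [cv_self]
    symm
    refine F.cv_const (z := g (c u)) fun t _ => ?_
    rw [AffineMap.lineMap_same_apply]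
  have hk : 0 < (v - u)⁻¹ := inv_pos.2 (sub_pos.2 huv')
  have hne : v - u ≠ 0 := (sub_pos.2 huv').ne'
  have hr : ∀ s ∈ Icc u v, (v - u)⁻¹ * s + -((v - u)⁻¹ * u) ∈ Icc (0 : ℝ) 1 := by
    intro s hs
    have e1 : (v - u)⁻¹ * (v - u) = 1 := inv_mul_cancel₀ hne
    constructor
    · nlinarith [mul_nonneg hk.le (sub_nonneg.2 hs.1)]
    · nlinarith [mul_le_mul_of_nonneg_left (sub_le_sub_right hs.2 u) hk.le]
  have hcu : c u ∈ C := hcm u ⟨le_rfl, huv⟩
  have hcv : c v ∈ C := hcm v ⟨huv, le_rfl⟩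
  have hmem : ∀ s ∈ Icc u v, ∀ t ∈ Icc (0 : ℝ) 1,
      (1 - t) • c s + t • AffineMap.lineMap (c u) (c v) ((v - u)⁻¹ * s + -((v - u)⁻¹ * u)) ∈ C :=
    fun s hs t ht => hC (hcm s hs) (hC.lineMap_mem hcu hcv (hr s hs)) (sub_nonneg.2 ht.2) ht.1
      (by ring)
  have hsq := F.square huv (zero_le_one (α := ℝ)) (fun s t => g ((1 - t) • c s +
    t • AffineMap.lineMap (c u) (c v) ((v - u)⁻¹ * s + -((v - u)⁻¹ * u)))) ?_
    (fun s hs t ht => hm _ (hmem s hs t ht))
  · have e0 : F.cv (fun s => g ((1 - (0 : ℝ)) • c s + (0 : ℝ) •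
        AffineMap.lineMap (c u) (c v) ((v - u)⁻¹ * s + -((v - u)⁻¹ * u)))) u v =
        F.cv (fun t => g (c t)) u v := F.cv_congr fun s _ => by simp
    have e1 : F.cv (fun t => g ((1 - t) • c v + t • AffineMap.lineMap (c u) (c v)
        ((v - u)⁻¹ * v + -((v - u)⁻¹ * u)))) 0 1 = 1 := by
      refine F.cv_const (z := g (c v)) fun t _ => ?_
      have e : (v - u)⁻¹ * v + -((v - u)⁻¹ * u) = 1 := by
        rw [← mul_neg, ← mul_add, ← sub_eq_add_neg, inv_mul_cancel₀ hne]
      rw [e, AffineMap.lineMap_apply_one, ← add_smul]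
      simp
    have e2 : F.cv (fun t => g ((1 - t) • c u + t • AffineMap.lineMap (c u) (c v)
        ((v - u)⁻¹ * u + -((v - u)⁻¹ * u)))) 0 1 = 1 := by
      refine F.cv_const (z := g (c u)) fun t _ => ?_
      rw [add_neg_cancel, AffineMap.lineMap_apply_zero, ← add_smul]
      simp
    have e3 : F.cv (fun s => g ((1 - (1 : ℝ)) • c s + (1 : ℝ) •
        AffineMap.lineMap (c u) (c v) ((v - u)⁻¹ * s + -((v - u)⁻¹ * u)))) u v =
        F.sv g (c u) (c v) := by
      have e4 := F.cv_affine (fun t => g (AffineMap.lineMap (c u) (c v) t)) u v hk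
        (-((v - u)⁻¹ * u))
      have e5 : (v - u)⁻¹ * v + -((v - u)⁻¹ * u) = 1 := by
        rw [← mul_neg, ← mul_add, ← sub_eq_add_neg, inv_mul_cancel₀ hne]
      rw [add_neg_cancel, e5] at e4
      rw [sv, ← e4]
      exact F.cv_congr fun s _ => by simp
    rw [e0, e1, e2, e3, mul_one, one_mul] at hsq
    exact hsq
  · refine hg.comp ?_ fun x hx => hmem x.1 hx.1 x.2 hx.2
    have h1 : ContinuousOn (fun x : ℝ × ℝ => c x.1) (Icc u v ×ˢ Icc 0 1) :=
      hc.comp continuous_fst.continuousOn fun x hx => hx.1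
    have h2 : Continuous (fun x : ℝ × ℝ => AffineMap.lineMap (c u) (c v)
        ((v - u)⁻¹ * x.1 + -((v - u)⁻¹ * u))) :=
      AffineMap.lineMap_continuous.comp (by fun_prop)
    exact (ContinuousOn.smul (by fun_prop) h1).add
      (ContinuousOn.smul (by fun_prop) h2.continuousOn)

theorem sv_self (g : E → Z) (P : E) : F.sv g P P = 1 := by
  refine F.cv_const (z := g P) fun t _ => ?_
  rw [AffineMap.lineMap_same_apply]

theorem sv_trans (hC : Convex ℝ C) (hg : ContinuousOn g C) (hm : ∀ P ∈ C, g P ∈ Y) {P Q R : E}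
    (hP : P ∈ C) (hQ : Q ∈ C) (hR : R ∈ C) : F.sv g P Q * F.sv g Q R = F.sv g P R := by
  have hcc : Continuous (fun t : ℝ => P + (min t 1) • (Q - P) + (max (t - 1) 0) • (R - Q)) := by
    fun_prop
  set c : ℝ → E := fun t : ℝ => P + (min t 1) • (Q - P) + (max (t - 1) 0) • (R - Q) with hcdef
  have c1 : ∀ t ≤ (1 : ℝ), c t = AffineMap.lineMap P Q t := by
    intro t ht
    rw [hcdef]
    beta_reduce
    rw [min_eq_left ht, max_eq_right (by linarith), zero_smul, add_zero,
      AffineMap.lineMap_apply_module']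
    abel
  have c2 : ∀ t, (1 : ℝ) ≤ t → c t = AffineMap.lineMap Q R (t - 1) := by
    intro t ht
    rw [hcdef]
    beta_reduce
    rw [min_eq_right ht, max_eq_left (by linarith), one_smul, AffineMap.lineMap_apply_module']
    abel
  have cm : ∀ t ∈ Icc (0 : ℝ) 2, c t ∈ C := by
    intro t ht
    rcases le_total t 1 with h | h
    · rw [c1 t h]
      exact hC.lineMap_mem hP hQ ⟨ht.1, h⟩
    · rw [c2 t h]
      exact hC.lineMap_mem hQ hR ⟨by linarith, by linarith [ht.2]⟩
  have e0 : c 0 = P := by rw [c1 0 zero_le_one, AffineMap.lineMap_apply_zero]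
  have e1 : c 1 = Q := by rw [c1 1 le_rfl, AffineMap.lineMap_apply_one]
  have e2 : c 2 = R := by
    rw [c2 2 one_le_two, show (2 : ℝ) - 1 = 1 by norm_num, AffineMap.lineMap_apply_one]
  have h01 := F.cv_convex hC hg hm (c := c) (zero_le_one (α := ℝ)) hcc.continuousOn
    (fun t ht => cm t ⟨ht.1, ht.2.trans one_le_two⟩)
  have h12 := F.cv_convex hC hg hm (c := c) (one_le_two (α := ℝ)) hcc.continuousOn
    (fun t ht => cm t ⟨zero_le_one.trans ht.1, ht.2⟩)
  have h02 := F.cv_convex hC hg hm (c := c) (zero_le_two (α := ℝ)) hcc.continuousOn cm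
  have hcv : Cv Y (fun t => g (c t)) 0 2 :=
    ⟨zero_le_two, hg.comp hcc.continuousOn cm, fun t ht => hm _ (cm t ht)⟩
  have h := F.cv_trans hcv (zero_le_one (α := ℝ)) (one_le_two (α := ℝ))
  rw [h01, h12, h02, e0, e1, e2] at h
  exact h

theorem sv_inv (hC : Convex ℝ C) (hg : ContinuousOn g C) (hm : ∀ P ∈ C, g P ∈ Y) {P Q : E}
    (hP : P ∈ C) (hQ : Q ∈ C) : F.sv g Q P = (F.sv g P Q)⁻¹ := by
  rw [eq_inv_iff_mul_eq_one, F.sv_trans hC hg hm hQ hP hQ, sv_self]

theorem sv_shift {k : E} (hk : ∀ x, g (x + k) = g x) (P Q : E) :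
    F.sv g (P + k) (Q + k) = F.sv g P Q := by
  refine F.cv_congr fun t _ => ?_
  have e : AffineMap.lineMap (P + k) (Q + k) t = AffineMap.lineMap P Q t + k := by
    rw [AffineMap.lineMap_apply_module', AffineMap.lineMap_apply_module', add_sub_add_right_eq_sub]
    abel
  change g (AffineMap.lineMap (P + k) (Q + k) t) = g (AffineMap.lineMap P Q t)
  rw [e, hk]

theorem sv_const {P Q : E} {z : Z} (h : ∀ x ∈ segment ℝ P Q, g x = z) : F.sv g P Q = 1 := by
  refine F.cv_const (z := z) fun t ht => h _ ?_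
  rw [segment_eq_image_lineMap]
  exact ⟨t, ht, rfl⟩

theorem sv_congr {g' : E → Z} {P Q : E} (h : ∀ x ∈ segment ℝ P Q, g x = g' x) :
    F.sv g P Q = F.sv g' P Q := by
  refine F.cv_congr fun t ht => h _ ?_
  rw [segment_eq_image_lineMap]
  exact ⟨t, ht, rfl⟩

end Fn

end Pool.Agent.EBS
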