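import Pool.Agent.EBS.F01
import Pool.Agent.EBS.F05

/-!
# F06: the degree as a functional

* `exists_deg`: for a path `p` in `Y` put `v p = ofAdd (L 1 - L 0)` where `L : I → ℝ` is the lift
  of `π ∘ p` (`IsCoveringMap.liftPath` for `isCoveringMap_ec`, starting at `ag (π (p 0))`). For any
  other lift `θ` of the same curve the difference `θ 1 - θ 0` is the same (`lift_unique`).
  `homo`: `IsCoveringMap.liftPath_apply_one_eq_of_homotopicRel` (compose the homotopy with `π`); or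
  lift the homotopy to `I × I → ℝ`. `trans`: `IsCoveringMap.liftPath_trans` or: take a lift `L` of
  `π ∘ (p.trans q)`; `t ↦ L (t / 2)` and `t ↦ L ((1 + t) / 2)` are lifts of `π ∘ p`, `π ∘ q`.
  The value on a curve: `cv_eq`; `t ↦ θ (u + t (v - u))` is a lift.
* `exists_degZ`: with `F` from `exists_deg` put
  `v p = ofAdd n`, `n = (F.v p) + ag (π (p 0)) - ag (π (p 1))`, which is an integer since
  `ec` of it is `1` (`ec_eq_iff`; use `Int.floor` or choice). Multiplicativity: telescoping.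
-/

set_option autoImplicit false

noncomputable section

open Set Topology unitInterval

namespace Pool.Agent.EBS

/-- A section of `ec`. -/
def ag (x : Circle) : ℝ := Complex.arg x / (2 * Real.pi)

theorem ec_ag (x : Circle) : ec (ag x) = x := by
  unfold ec ag
  have h : 2 * Real.pi * (Complex.arg x / (2 * Real.pi)) = Complex.arg x := by
    field_simp
  rw [h]
  exact Circle.exp_arg x

variable {Z : Type} [TopologicalSpace Z] {Y : Set Z}

/-- `γ` has a lift on the unit interval. -/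
private def HL (γ : ℝ → Circle) : Prop :=
  ∃ θ : ℝ → ℝ, ContinuousOn θ (Icc 0 1) ∧ ∀ t ∈ Icc (0 : ℝ) 1, ec (θ t) = γ t

open Classical in
/-- The total angle of a curve on the unit interval. -/
private def dg (γ : ℝ → Circle) : ℝ :=
  if h : HL γ then h.choose 1 - h.choose 0 else 0

private theorem dg_eq {γ : ℝ → Circle} {θ : ℝ → ℝ} (h : ContinuousOn θ (Icc 0 1))
    (he : ∀ t ∈ Icc (0 : ℝ) 1, ec (θ t) = γ t) : dg γ = θ 1 - θ 0 := by
  have hl : HL γ := ⟨θ, h, he⟩
  unfold dg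
  rw [dif_pos hl]
  obtain ⟨n, hn⟩ := lift_unique hl.choose_spec.1 h fun t ht => by
    rw [hl.choose_spec.2 t ht, he t ht]
  rw [hn 1 ⟨zero_le_one, le_rfl⟩, hn 0 ⟨le_rfl, zero_le_one⟩]
  ring

/-- The curve in the circle of a path in `Y`. -/
private def cu (π : Z → Circle) {x y : Y} (p : Path x y) (t : ℝ) : Circle :=
  π (p (projIcc 0 1 zero_le_one t) : Z)

private theorem cu_cont {π : Z → Circle} (hπ : ContinuousOn π Y) {x y : Y} (p : Path x y) :
    Continuous (cu π p) :=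
  hπ.comp_continuous (continuous_subtype_val.comp (p.continuous.comp continuous_projIcc))
    fun t => (p (projIcc 0 1 zero_le_one t)).2

private theorem cu_zero (π : Z → Circle) {x y : Y} (p : Path x y) : cu π p 0 = π x := by
  unfold cu
  rw [projIcc_left]
  exact congrArg (fun z : Y => π (z : Z)) p.source

private theorem cu_one (π : Z → Circle) {x y : Y} (p : Path x y) : cu π p 1 = π y := by
  unfold cu
  rw [projIcc_right]
  exact congrArg (fun z : Y => π (z : Z)) p.target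

private theorem cu_lift {π : Z → Circle} (hπ : ContinuousOn π Y) {x y : Y} (p : Path x y) :
    ∃ θ : ℝ → ℝ, Continuous θ ∧ (∀ t ∈ Icc (0 : ℝ) 1, ec (θ t) = cu π p t) ∧
      dg (cu π p) = θ 1 - θ 0 := by
  obtain ⟨r, hr⟩ := ec_surjective (cu π p 0)
  obtain ⟨θ, h1, -, h2⟩ := exists_lift zero_le_one (cu_cont hπ p).continuousOn hr
  exact ⟨θ, h1, h2, dg_eq h1.continuousOn h2⟩

private theorem ec_sub (s t : ℝ) : ec (s - t) = ec s * (ec t)⁻¹ := by
  rw [sub_eq_add_neg, ec_add, ec_neg]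

private theorem ec_one_iff {s : ℝ} (h : ec s = 1) : ∃ n : ℤ, s = n := by
  rw [← ec_zero, ec_eq_iff] at h
  obtain ⟨n, hn⟩ := h
  exact ⟨n, by rw [hn, zero_add]⟩

private theorem dg_homo {π : Z → Circle} (hπ : ContinuousOn π Y) {x y : Y} {p q : Path x y}
    (h : p.Homotopic q) : dg (cu π p) = dg (cu π q) := by
  obtain ⟨K⟩ := h
  obtain ⟨θ, h1, h2, h3⟩ := cu_lift hπ p
  obtain ⟨η, g1, g2, g3⟩ := cu_lift hπ q
  have m0 : (0 : ℝ) ∈ Icc (0 : ℝ) 1 := ⟨le_rfl, zero_le_one⟩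
  have m1 : (1 : ℝ) ∈ Icc (0 : ℝ) 1 := ⟨zero_le_one, le_rfl⟩
  obtain ⟨n0, hn0⟩ := ec_one_iff (s := η 0 - θ 0) (by
    rw [ec_sub, h2 0 m0, g2 0 m0, cu_zero, cu_zero, mul_inv_cancel])
  obtain ⟨n1, hn1⟩ := ec_one_iff (s := η 1 - θ 1) (by
    rw [ec_sub, h2 1 m1, g2 1 m1, cu_one, cu_one, mul_inv_cancel])
  let k : ℝ → ℝ → Circle := fun s t =>
    π (K (projIcc 0 1 zero_le_one s, projIcc 0 1 zero_le_one t) : Z) * (cu π p t)⁻¹
  have hk : Continuous (Function.uncurry k) := by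
    have hc : Continuous fun z : ℝ × ℝ =>
        π (K (projIcc 0 1 zero_le_one z.1, projIcc 0 1 zero_le_one z.2) : Z) := by
      refine hπ.comp_continuous ?_ fun z => (K _).2
      refine continuous_subtype_val.comp (K.continuous.comp ?_)
      exact (continuous_projIcc.comp continuous_fst).prodMk
        (continuous_projIcc.comp continuous_snd)
    exact hc.mul ((cu_cont hπ p).comp continuous_snd).inv
  have hk0 : Deg (k 0) 0 1 0 := by
    refine (Deg.const 1 0 1).congr fun t _ => ?_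
    show (1 : Circle) = π (K (projIcc 0 1 zero_le_one 0, projIcc 0 1 zero_le_one t) : Z) *
      (cu π p t)⁻¹
    have h5 : K (projIcc 0 1 zero_le_one 0, projIcc 0 1 zero_le_one t) =
        p (projIcc 0 1 zero_le_one t) := by
      rw [projIcc_left]
      exact K.apply_zero _
    rw [h5]
    exact (mul_inv_cancel _).symm
  have hk1 : Deg (k 1) 0 1 (n1 - n0) := by
    refine ⟨fun t => η t - θ t, (g1.sub h1).continuousOn, fun t ht => ?_, ?_⟩
    · show ec (η t - θ t) = π (K (projIcc 0 1 zero_le_one 1, projIcc 0 1 zero_le_one t) : Z) *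
        (cu π p t)⁻¹
      have h5 : K (projIcc 0 1 zero_le_one 1, projIcc 0 1 zero_le_one t) =
          q (projIcc 0 1 zero_le_one t) := by
        rw [projIcc_right]
        exact K.apply_one _
      rw [h5, ec_sub, h2 t ht, g2 t ht]
      rfl
    · push_cast
      rw [← hn0, ← hn1]
  have hcl : ∀ s ∈ Icc (0 : ℝ) 1, k s 0 = k s 1 := by
    intro s _
    show π (K (projIcc 0 1 zero_le_one s, projIcc 0 1 zero_le_one 0) : Z) * (cu π p 0)⁻¹ =
      π (K (projIcc 0 1 zero_le_one s, projIcc 0 1 zero_le_one 1) : Z) * (cu π p 1)⁻¹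
    have h5 : K (projIcc 0 1 zero_le_one s, projIcc 0 1 zero_le_one 0) = x := by
      rw [projIcc_left]
      exact K.source _
    have h6 : K (projIcc 0 1 zero_le_one s, projIcc 0 1 zero_le_one 1) = y := by
      rw [projIcc_right]
      exact K.target _
    rw [h5, h6, cu_zero, cu_one, mul_inv_cancel, mul_inv_cancel]
  have h7 := Deg.homotopy zero_le_one hk.continuousOn hcl hk0 hk1
  rw [h3, g3]
  have h8 : (n1 : ℝ) = n0 := by
    exact_mod_cast (by omega : n1 = n0)
  linarith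

private theorem cu_trans_left (π : Z → Circle) {x y z : Y} (p : Path x y) (q : Path y z) {t : ℝ}
    (ht : t ∈ Icc (0 : ℝ) 1) : cu π (p.trans q) (t / 2) = cu π p t := by
  have h1 : t / 2 ∈ Icc (0 : ℝ) 1 := ⟨by linarith [ht.1], by linarith [ht.2]⟩
  unfold cu
  rw [projIcc_of_mem _ h1, projIcc_of_mem _ ht, Path.trans_apply, dif_pos (by
    show t / 2 ≤ 1 / 2
    linarith [ht.2])]
  have h2 : (⟨2 * (t / 2), by constructor <;> linarith [ht.1, ht.2]⟩ : I) = ⟨t, ht⟩ :=
    Subtype.ext (by show 2 * (t / 2) = t; ring)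
  exact congrArg (fun s : I => π (p s : Z)) h2

private theorem cu_trans_right (π : Z → Circle) {x y z : Y} (p : Path x y) (q : Path y z) {t : ℝ}
    (ht : t ∈ Icc (0 : ℝ) 1) : cu π (p.trans q) ((1 + t) / 2) = cu π q t := by
  have h1 : (1 + t) / 2 ∈ Icc (0 : ℝ) 1 := ⟨by linarith [ht.1], by linarith [ht.2]⟩
  unfold cu
  rw [projIcc_of_mem _ h1, projIcc_of_mem _ ht, Path.trans_apply]
  by_cases h0 : t = 0
  · subst h0
    rw [dif_pos (by
      show (1 + (0 : ℝ)) / 2 ≤ 1 / 2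
      norm_num)]
    have h2 : (⟨2 * ((1 + (0 : ℝ)) / 2), by norm_num⟩ : I) = 1 :=
      Subtype.ext (by show 2 * ((1 + (0 : ℝ)) / 2) = 1; norm_num)
    have h3 : (⟨0, ht⟩ : I) = 0 := rfl
    refine (congrArg (fun s : I => π (p s : Z)) h2).trans ?_
    rw [h3, p.target, q.source]
  · have hpos : 0 < t := lt_of_le_of_ne ht.1 (Ne.symm h0)
    rw [dif_neg (by
      show ¬ (1 + t) / 2 ≤ 1 / 2
      linarith)]
    have h2 : (⟨2 * ((1 + t) / 2) - 1, by constructor <;> linarith [ht.1, ht.2]⟩ : I) = ⟨t, ht⟩ :=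
      Subtype.ext (by show 2 * ((1 + t) / 2) - 1 = t; ring)
    exact congrArg (fun s : I => π (q s : Z)) h2

private theorem dg_trans {π : Z → Circle} (hπ : ContinuousOn π Y) {x y z : Y} (p : Path x y)
    (q : Path y z) : dg (cu π (p.trans q)) = dg (cu π p) + dg (cu π q) := by
  obtain ⟨θ, h1, h2, h3⟩ := cu_lift hπ (p.trans q)
  have hp : dg (cu π p) = θ (1 / 2) - θ (0 / 2) := by
    refine dg_eq (θ := fun t => θ (t / 2)) (by fun_prop) fun t ht => ?_
    rw [← cu_trans_left π p q ht]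
    exact h2 _ ⟨by linarith [ht.1], by linarith [ht.2]⟩
  have hq : dg (cu π q) = θ ((1 + 1) / 2) - θ ((1 + 0) / 2) := by
    refine dg_eq (θ := fun t => θ ((1 + t) / 2)) (by fun_prop) fun t ht => ?_
    rw [← cu_trans_right π p q ht]
    exact h2 _ ⟨by linarith [ht.1], by linarith [ht.2]⟩
  rw [h3, hp, hq]
  norm_num

private theorem dg_cv {π : Z → Circle} {c : ℝ → Z} {u v : ℝ} (h : Cv Y c u v)
    {θ : ℝ → ℝ} (hθ : ContinuousOn θ (Icc u v)) (he : ∀ t ∈ Icc u v, ec (θ t) = π (c t)) :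
    dg (cu π h.path) = θ v - θ u := by
  have hm : ∀ t ∈ Icc (0 : ℝ) 1, u + t * (v - u) ∈ Icc u v := fun t ht => param_mem h.le ⟨t, ht⟩
  have h1 := dg_eq (γ := cu π h.path) (θ := fun t => θ (u + t * (v - u)))
    (hθ.comp (by fun_prop) hm) fun t ht => by
      rw [he _ (hm t ht)]
      unfold cu
      rw [projIcc_of_mem _ ht]
      rfl
  rw [h1]
  congr 2 <;> ring

/-- The degree functional. -/
private def dF {π : Z → Circle} (hπ : ContinuousOn π Y) : Fn Y (Multiplicative ℝ) where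
  v p := Multiplicative.ofAdd (dg (cu π p))
  homo h := by rw [dg_homo hπ h]
  trans p q := by rw [dg_trans hπ, ofAdd_add]

theorem exists_deg {π : Z → Circle} (hπ : ContinuousOn π Y) :
    ∃ F : Fn Y (Multiplicative ℝ), ∀ (c : ℝ → Z) (u v : ℝ), Cv Y c u v → ∀ θ : ℝ → ℝ,
      ContinuousOn θ (Icc u v) → (∀ t ∈ Icc u v, ec (θ t) = π (c t)) →
        F.cv c u v = Multiplicative.ofAdd (θ v - θ u) := by
  refine ⟨dF hπ, fun c u v h θ hθ he => ?_⟩
  rw [Fn.cv_eq _ h]
  show Multiplicative.ofAdd (dg (cu π h.path)) = _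
  rw [dg_cv h hθ he]

private theorem dg_int {π : Z → Circle} (hπ : ContinuousOn π Y) {x y : Y} (p : Path x y) :
    ((⌊dg (cu π p) + ag (π x) - ag (π y)⌋ : ℤ) : ℝ) = dg (cu π p) + ag (π x) - ag (π y) := by
  obtain ⟨θ, h1, h2, h3⟩ := cu_lift hπ p
  have m0 : (0 : ℝ) ∈ Icc (0 : ℝ) 1 := ⟨le_rfl, zero_le_one⟩
  have m1 : (1 : ℝ) ∈ Icc (0 : ℝ) 1 := ⟨zero_le_one, le_rfl⟩
  obtain ⟨n, hn⟩ := ec_one_iff (s := dg (cu π p) + ag (π x) - ag (π y)) (by
    rw [h3, ec_sub, ec_add, ec_sub, h2 0 m0, h2 1 m1, cu_zero, cu_one, ec_ag, ec_ag,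
      inv_mul_cancel_right, mul_inv_cancel])
  rw [hn, Int.floor_intCast]

theorem exists_degZ {π : Z → Circle} (hπ : ContinuousOn π Y) :
    ∃ F : Fn Y (Multiplicative ℤ), ∀ (c : ℝ → Z) (u v : ℝ), Cv Y c u v → ∀ θ : ℝ → ℝ,
      ContinuousOn θ (Icc u v) → (∀ t ∈ Icc u v, ec (θ t) = π (c t)) →
        ∃ n : ℤ, F.cv c u v = Multiplicative.ofAdd n ∧
          (n : ℝ) = θ v - θ u + ag (π (c u)) - ag (π (c v)) := by
  let F : Fn Y (Multiplicative ℤ) :=
    { v := fun {x y} p => Multiplicative.ofAdd ⌊dg (cu π p) + ag (π x) - ag (π y)⌋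
      homo := fun h => by rw [dg_homo hπ h]
      trans := fun {x y z} p q => by
        rw [← ofAdd_add]
        congr 1
        have h1 := dg_int hπ (p.trans q)
        have h2 := dg_int hπ p
        have h3 := dg_int hπ q
        have h4 : ((⌊dg (cu π (p.trans q)) + ag (π x) - ag (π z)⌋ : ℤ) : ℝ) =
            ((⌊dg (cu π p) + ag (π x) - ag (π y)⌋ + ⌊dg (cu π q) + ag (π y) - ag (π z)⌋ : ℤ) :
              ℝ) := by
          push_cast
          rw [h1, h2, h3, dg_trans hπ]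
          ring
        exact_mod_cast h4 }
  refine ⟨F, fun c u v h θ hθ he => ⟨⌊dg (cu π h.path) + ag (π (c u)) - ag (π (c v))⌋, ?_, ?_⟩⟩
  · rw [Fn.cv_eq _ h]
  · rw [dg_int hπ h.path, dg_cv h hθ he]

/-- The integral degree functional has the value `n` on closed curves of degree `n`. -/
theorem exists_degZ' {π : Z → Circle} (hπ : ContinuousOn π Y) :
    ∃ F : Fn Y (Multiplicative ℤ), ∀ (c : ℝ → Z) (u v : ℝ), Cv Y c u v → c u = c v → ∀ n : ℤ,
      Deg (fun t => π (c t)) u v n → F.cv c u v = Multiplicative.ofAdd n := by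
  obtain ⟨F, hF⟩ := exists_degZ hπ
  refine ⟨F, fun c u v h hc n hn => ?_⟩
  obtain ⟨θ, h1, h2, h3⟩ := hn
  obtain ⟨m, hm1, hm2⟩ := hF c u v h θ h1 h2
  rw [hm1]
  congr 1
  rw [hc, h3] at hm2
  have h4 : (m : ℝ) = n := by rw [hm2]; ring
  exact_mod_cast h4

end Pool.Agent.EBS
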