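import Pool.Agent.EBS.F01

/-!
# F08: subdivision of curves, functionals which are trivial on closed curves

`Y = U ∪ V`, `U` and `V` relatively open in `Y` (`Cover U V Y`).

* `exists_partition`: Lebesgue number. Reparametrize to the unit interval, use
  `exists_monotone_Icc_subset_open_cover_unitInterval` (for the two preimages), which gives a
  monotone sequence `t : ℕ → I` which is eventually `1`; or
  `lebesgue_number_lemma_of_metric` for the compact set `Icc u v`.
* `Fn.trivial_union`: let `x₀ ∈ U ∩ V`. For `x ∈ U` choose a path `β_x` in `U` from `x₀` to `x`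
  which lies in `U ∩ V` if `x ∈ U ∩ V`, for `x ∈ V \ U` a path in `V`. (`IsPathConnected.joinedIn`;
  `JoinedIn.somePath`, extended to `ℝ`; so for all `x ∈ Y` a curve `β x : ℝ → Z` on `[0, 1]`
  with `β x 0 = x₀`, `β x 1 = x`.) Put `p x = F.cv (β x) 0 1`. Claim: for every curve `c` in `U` on
  `[a, b]` `F.cv c a b = (p (c a))⁻¹ * p (c b)`: the concatenation of `β (c a)`, `c` and the
  reversed `β (c b)` is a closed curve in `U` with value `1`. The same for curves in `V` (for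
  `x ∈ U ∩ V` the curve `β x` lies in `V` too). By `exists_partition` and `cv_trans` (induction
  on the number of intervals) the formula holds for all curves in `Y`; for closed curves the
  value is `1`. (For the concatenations it is convenient to work with paths:
  `cv_path`, `trans`, `v_symm`.)
-/

set_option autoImplicit false

noncomputable section

open Set Topology unitInterval

namespace Pool.Agent.EBS

variable {Z : Type} [TopologicalSpace Z] {U V Y : Set Z} {H : Type} [Group H]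

/-- `Y = U ∪ V`, both relatively open in `Y`. -/
structure Cover (U V Y : Set Z) : Prop where
  union : U ∪ V = Y
  left : ∃ O, IsOpen O ∧ O ∩ Y = U
  right : ∃ O, IsOpen O ∧ O ∩ Y = V

theorem Cover.symm (h : Cover U V Y) : Cover V U Y :=
  ⟨by rw [union_comm, h.union], h.right, h.left⟩

theorem Cover.exists_partition (h : Cover U V Y) {c : ℝ → Z} {u v : ℝ} (hc : Cv Y c u v) :
    ∃ (n : ℕ) (t : ℕ → ℝ), Monotone t ∧ t 0 = u ∧ t n = v ∧
      ∀ i < n, Cv U c (t i) (t (i + 1)) ∨ Cv V c (t i) (t (i + 1)) := by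
  obtain ⟨O₁, hO₁, hOU⟩ := h.left
  obtain ⟨O₂, hO₂, hOV⟩ := h.right
  have hcr : Continuous ((Icc u v).domRestrict c) := hc.cont.domRestrict
  have hcov : (univ : Set (Icc u v)) ⊆
      ⋃ b : Bool, (bif b then (Icc u v).domRestrict c ⁻¹' O₁ else (Icc u v).domRestrict c ⁻¹' O₂) := by
    intro s _
    have h1 : c s ∈ U ∪ V := by
      rw [h.union]
      exact hc.mem s s.2
    rw [mem_iUnion]
    rcases h1 with h1 | h1
    · refine ⟨true, ?_⟩
      rw [← hOU] at h1
      exact h1.1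
    · refine ⟨false, ?_⟩
      rw [← hOV] at h1
      exact h1.1
  obtain ⟨t, ht0, htm, ⟨n, hn⟩, hi⟩ := exists_monotone_Icc_subset_open_cover_Icc hc.le
    (fun b => by
      cases b
      · exact hO₂.preimage hcr
      · exact hO₁.preimage hcr) hcov
  refine ⟨n, fun i => (t i : ℝ), fun i j hij => htm hij, ht0, hn n le_rfl, fun i _ => ?_⟩
  have hle : (t i : ℝ) ≤ t (i + 1) := htm (Nat.le_succ i)
  have hsub : Icc (t i : ℝ) (t (i + 1)) ⊆ Icc u v := Icc_subset_Icc (t i).2.1 (t (i + 1)).2.2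
  obtain ⟨b, hb⟩ := hi i
  cases b
  · right
    refine ⟨hle, hc.cont.mono hsub, fun s hs => ?_⟩
    rw [← hOV]
    exact ⟨hb (show (⟨s, hsub hs⟩ : Icc u v) ∈ Icc (t i) (t (i + 1)) from ⟨hs.1, hs.2⟩),
      hc.mem s (hsub hs)⟩
  · left
    refine ⟨hle, hc.cont.mono hsub, fun s hs => ?_⟩
    rw [← hOU]
    exact ⟨hb (show (⟨s, hsub hs⟩ : Icc u v) ∈ Icc (t i) (t (i + 1)) from ⟨hs.1, hs.2⟩),
      hc.mem s (hsub hs)⟩

private theorem v_closed (F : Fn Y H) {W : Set Z}
    (hW : ∀ (c : ℝ → Z) (u v : ℝ), Cv W c u v → c u = c v → F.cv c u v = 1) {x : Y}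
    (p : Path x x) (hp : ∀ t, (p t : Z) ∈ W) : F.v p = 1 := by
  obtain ⟨h1, h2⟩ := F.cv_path p
  rw [← h2]
  refine hW _ _ _ ⟨h1.le, h1.cont, fun t ht => ?_⟩ ?_
  · rw [Path.extend_apply p ht]
    exact hp _
  · rw [Path.extend_zero, Path.extend_one]

/-- Paths from a base point. -/
private theorem v_key (F : Fn Y H) {W : Set Z} (hWY : W ⊆ Y)
    (hW : ∀ (c : ℝ → Z) (u v : ℝ), Cv W c u v → c u = c v → F.cv c u v = 1) {x₀ : Y}
    (β : ∀ y : Y, Path x₀ y) (hβ : ∀ y : Y, (y : Z) ∈ W → ∀ t, (β y t : Z) ∈ W) {c : ℝ → Z}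
    {a b : ℝ} (hc : Cv W c a b) :
    F.cv c a b = (F.v (β ⟨c a, hWY hc.left⟩))⁻¹ * F.v (β ⟨c b, hWY hc.right⟩) := by
  have hc' : Cv Y c a b := ⟨hc.le, hc.cont, fun t ht => hWY (hc.mem t ht)⟩
  rw [F.cv_eq hc']
  have h1 : F.v (((β ⟨c a, hWY hc.left⟩).trans hc'.path).trans
      (β ⟨c b, hWY hc.right⟩).symm) = 1 := by
    apply v_closed F hW
    intro t
    rw [Path.trans_apply]
    split_ifs with h
    · rw [Path.trans_apply]
      split_ifs with h'
      · exact hβ _ hc.left _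
      · exact hc.mem _ (param_mem hc.le _)
    · exact hβ _ hc.right _
  rw [F.trans, F.trans, F.v_symm, mul_inv_eq_one] at h1
  rw [← h1, inv_mul_cancel_left]

theorem Fn.trivial_union (F : Fn Y H) (h : Cover U V Y) (hU : IsPathConnected U)
    (hV : IsPathConnected V) (hUV : IsPathConnected (U ∩ V))
    (h1 : ∀ (c : ℝ → Z) (u v : ℝ), Cv U c u v → c u = c v → F.cv c u v = 1)
    (h2 : ∀ (c : ℝ → Z) (u v : ℝ), Cv V c u v → c u = c v → F.cv c u v = 1)
    {c : ℝ → Z} {u v : ℝ} (hc : Cv Y c u v) (he : c u = c v) : F.cv c u v = 1 := by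
  have hUY : U ⊆ Y := h.union ▸ subset_union_left
  have hVY : V ⊆ Y := h.union ▸ subset_union_right
  obtain ⟨x₀, hx₀⟩ := hUV.nonempty
  have hlift : ∀ (W : Set Z) (hWY : W ⊆ Y) (_ : IsPathConnected W) (hx : x₀ ∈ W) (y : Y)
      (_ : (y : Z) ∈ W), ∃ p : Path (⟨x₀, hWY hx⟩ : Y) y, ∀ t, (p t : Z) ∈ W := by
    intro W hWY hW hx y hy
    have hj := hW.joinedIn x₀ hx y hy
    refine ⟨{ toFun := fun t => ⟨hj.somePath t, hWY (hj.somePath_mem t)⟩
              continuous_toFun := hj.somePath.continuous.subtype_mk _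
              source' := Subtype.ext hj.somePath.source
              target' := Subtype.ext hj.somePath.target }, fun t => hj.somePath_mem t⟩
  have hex : ∀ y : Y, ∃ p : Path (⟨x₀, hUY hx₀.1⟩ : Y) y,
      ((y : Z) ∈ U → ∀ t, (p t : Z) ∈ U) ∧ ((y : Z) ∈ V → ∀ t, (p t : Z) ∈ V) := by
    intro y
    by_cases hyU : (y : Z) ∈ U
    · by_cases hyV : (y : Z) ∈ V
      · obtain ⟨p, hp⟩ := hlift (U ∩ V) (inter_subset_left.trans hUY) hUV hx₀ y ⟨hyU, hyV⟩
        exact ⟨p, fun _ t => (hp t).1, fun _ t => (hp t).2⟩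
      · obtain ⟨p, hp⟩ := hlift U hUY hU hx₀.1 y hyU
        exact ⟨p, fun _ => hp, fun h' => absurd h' hyV⟩
    · have hyV : (y : Z) ∈ V := by
        have h3 : (y : Z) ∈ U ∪ V := by
          rw [h.union]
          exact y.2
        exact h3.resolve_left hyU
      obtain ⟨p, hp⟩ := hlift V hVY hV hx₀.2 y hyV
      exact ⟨p, fun h' => absurd h' hyU, fun _ => hp⟩
  choose β hβU hβV using hex
  obtain ⟨n, t, htm, ht0, htn, hi⟩ := h.exists_partition hc
  have hle : ∀ i, i ≤ n → u ≤ t i ∧ t i ≤ v := fun i hin =>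
    ⟨ht0 ▸ htm (Nat.zero_le i), htn ▸ htm hin⟩
  have hind : ∀ i (hin : i ≤ n), F.cv c u (t i) =
      (F.v (β ⟨c u, hc.left⟩))⁻¹ * F.v (β ⟨c (t i), hc.mem _ (hle i hin)⟩) := by
    intro i
    induction i with
    | zero =>
      intro hin
      have h3 : ∀ s (hs : s = u) (hs' : c s ∈ Y), F.cv c u s =
          (F.v (β ⟨c u, hc.left⟩))⁻¹ * F.v (β ⟨c s, hs'⟩) := by
        rintro s rfl hs'
        rw [F.cv_self, inv_mul_cancel]
      exact h3 _ ht0 _
    | succ i ih =>
      intro hin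
      have hin' : i ≤ n := Nat.le_of_succ_le hin
      have h3 : Cv Y c u (t (i + 1)) := hc.sub le_rfl (hle _ hin).1 (hle _ hin).2
      rw [← F.cv_trans h3 (hle i hin').1 (htm (Nat.le_succ i)), ih hin']
      have h4 : F.cv c (t i) (t (i + 1)) = (F.v (β ⟨c (t i), hc.mem _ (hle i hin')⟩))⁻¹ *
          F.v (β ⟨c (t (i + 1)), hc.mem _ (hle _ hin)⟩) := by
        rcases hi i hin with h5 | h5
        · exact v_key F hUY h1 β hβU h5
        · exact v_key F hVY h2 β hβV h5
      rw [h4, mul_assoc, mul_inv_cancel_left]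
  have h6 := hind n le_rfl
  have h7 : ∀ s (hs : s = v) (hs' : c s ∈ Y), F.cv c u s =
      (F.v (β ⟨c u, hc.left⟩))⁻¹ * F.v (β ⟨c s, hs'⟩) → F.cv c u v = 1 := by
    rintro s rfl hs' h8
    rw [h8]
    have h9 : (⟨c u, hc.left⟩ : Y) = ⟨c s, hs'⟩ := Subtype.ext he
    rw [h9, inv_mul_cancel]
  exact h7 _ htn _ h6

end Pool.Agent.EBS
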