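import Pool.Agent.EBS.F02
import Pool.Agent.EBS.F08

/-!
# F09: gluing functionals (existence part of the theorem of van Kampen)

`Y = U ∪ V` relatively open, `F₁ : Fn U H`, `F₂ : Fn V H` agree on the curves in `U ∩ V`. There is
`F : Fn Y H` which extends both.

Proof. Call a curve `c` on `[a, b]` small if it is a curve in `U` or in `V`; put
`w c a b = F₁.cv c a b` if it is a curve in `U`, otherwise `F₂.cv c a b`. So `w c a b = F₂.cv c a b`
for all curves in `V` (by the agreement). For small `c` on `[a, b]` and `a ≤ m ≤ b`: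
`w c a m * w c m b = w c a b` (`cv_trans`).
For a partition `a = t_0 ≤ ... ≤ t_n = b` with small pieces put `W = ∏ w c (t i) (t (i + 1))`
(product in this order). If a partition is refined by one point the product does not change; two
partitions have a common refinement, so `W` depends only on `c`, `a`, `b`. (A convenient way to
organize this: only use the partitions into `N` equal parts, all `N` with small pieces;
refining from `N` to `N M` parts does not change the product, by the formula for small curves and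
induction, so the products for `N` and `M` both agree with the one for `N M`. For `N ≥ N₀` all
partitions are small by the Lebesgue number lemma.)
Define `F.v p = W` for the curve `p.extend` on `[0, 1]`.
`trans`: for `p.trans q` use the partition into `2 N` parts: the first `N` pieces are
(affine reparametrizations of) the pieces of `p` (`cv_affine`, `cv_congr`), the others those of
`q`.
`homo`: let `h : I × I → Y` be a homotopy with fixed end points. By the Lebesgue number lemma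
there is `N` such that `h` maps each square `[i/N, (i+1)/N] × [j/N, (j+1)/N]` into `U` or into
`V`. By the square lemma (`Fn.square` for `F₁` or `F₂`) for each square
`w(bottom) w(right) = w(left) w(top)`. So for two neighbouring rows (`s` fixed, the curve
`t ↦ h (s, t)`) `W_s * w(side at t = 1) = w(side at t = 0) * W_{s'}` (induction along the row), and
the sides at `t = 0, 1` are constant curves with value `1` (`cv_const`). So `W` is the same for
all `s = i/N`.
For a curve in `U`: the partition with one piece is small, so the value is `F₁.cv`.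
-/

set_option autoImplicit false

noncomputable section

open Set Topology unitInterval

namespace Pool.Agent.EBS

variable {Z : Type} [TopologicalSpace Z] {U V Y : Set Z} {H : Type} [Group H]

/-- Small curves. -/
private def Sm (U V : Set Z) (c : ℝ → Z) (a b : ℝ) : Prop := Cv U c a b ∨ Cv V c a b

open Classical in
/-- The value on a small curve. -/
private def wv (F₁ : Fn U H) (F₂ : Fn V H) (c : ℝ → Z) (a b : ℝ) : H :=
  if Cv U c a b then F₁.cv c a b else F₂.cv c a b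

private def Agree (F₁ : Fn U H) (F₂ : Fn V H) : Prop :=
  ∀ (c : ℝ → Z) (u v : ℝ), Cv (U ∩ V) c u v → F₁.cv c u v = F₂.cv c u v

/-- `φ` is the primitive of the values on small curves. -/
private def IsLift (F₁ : Fn U H) (F₂ : Fn V H) (c : ℝ → Z) (a b : ℝ) (φ : ℝ → H) : Prop :=
  φ a = 1 ∧ ∀ s t, a ≤ s → s ≤ t → t ≤ b → Sm U V c s t → φ t = φ s * wv F₁ F₂ c s t

/-- The value on a curve. -/
private def Val (F₁ : Fn U H) (F₂ : Fn V H) (c : ℝ → Z) (a b : ℝ) (g : H) : Prop :=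
  ∃ φ : ℝ → H, IsLift F₁ F₂ c a b φ ∧ φ b = g

private theorem wv_left (F₁ : Fn U H) (F₂ : Fn V H) {c : ℝ → Z} {a b : ℝ} (h : Cv U c a b) :
    wv F₁ F₂ c a b = F₁.cv c a b := by
  unfold wv
  rw [if_pos h]

private theorem wv_right {F₁ : Fn U H} {F₂ : Fn V H} (hF : Agree F₁ F₂) {c : ℝ → Z} {a b : ℝ}
    (h : Cv V c a b) : wv F₁ F₂ c a b = F₂.cv c a b := by
  unfold wv
  split_ifs with h'
  · exact hF c a b ⟨h.le, h.cont, fun t ht => ⟨h'.mem t ht, h.mem t ht⟩⟩
  · rfl

private theorem wv_self (F₁ : Fn U H) (F₂ : Fn V H) (c : ℝ → Z) (a : ℝ) :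
    wv F₁ F₂ c a a = 1 := by
  unfold wv
  split_ifs
  · exact F₁.cv_self c a
  · exact F₂.cv_self c a

private theorem Sm.sub {c : ℝ → Z} {a b a' b' : ℝ} (h : Sm U V c a b) (h1 : a ≤ a')
    (h2 : a' ≤ b') (h3 : b' ≤ b) : Sm U V c a' b' := by
  rcases h with h | h
  · exact Or.inl (h.sub h1 h2 h3)
  · exact Or.inr (h.sub h1 h2 h3)

private theorem wv_trans {F₁ : Fn U H} {F₂ : Fn V H} (hF : Agree F₁ F₂) {c : ℝ → Z}
    {a m b : ℝ} (h : Sm U V c a b) (h1 : a ≤ m) (h2 : m ≤ b) :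
    wv F₁ F₂ c a m * wv F₁ F₂ c m b = wv F₁ F₂ c a b := by
  rcases h with h | h
  · rw [wv_left F₁ F₂ h, wv_left F₁ F₂ (h.sub le_rfl h1 h2), wv_left F₁ F₂ (h.sub h1 h2 le_rfl)]
    exact F₁.cv_trans h h1 h2
  · rw [wv_right hF h, wv_right hF (h.sub le_rfl h1 h2), wv_right hF (h.sub h1 h2 le_rfl)]
    exact F₂.cv_trans h h1 h2

private theorem exists_lift_aux {F₁ : Fn U H} {F₂ : Fn V H} (hF : Agree F₁ F₂) {c : ℝ → Z}
    {n : ℕ} {t : ℕ → ℝ} (ht : Monotone t) (hs : ∀ i < n, Sm U V c (t i) (t (i + 1))) :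
    ∀ i ≤ n, ∃ φ : ℝ → H, IsLift F₁ F₂ c (t 0) (t i) φ := by
  intro i
  induction i with
  | zero =>
    intro _
    refine ⟨fun _ => 1, rfl, ?_⟩
    intro s u h1 h2 h3 _
    have e1 : s = t 0 := le_antisymm (h2.trans h3) h1
    have e2 : u = t 0 := le_antisymm h3 (h1.trans h2)
    rw [e1, e2, wv_self, mul_one]
  | succ i ih =>
    intro hi
    obtain ⟨φ, h0, hφ⟩ := ih (by omega)
    have hsm := hs i (by omega)
    have h0i : t 0 ≤ t i := ht (Nat.zero_le i)
    classical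
    refine ⟨fun s => if s ≤ t i then φ s else φ (t i) * wv F₁ F₂ c (t i) s, ?_, ?_⟩
    · change (if t 0 ≤ t i then φ (t 0) else _) = 1
      rw [if_pos h0i, h0]
    · intro s u h1 h2 h3 h4
      change (if u ≤ t i then φ u else φ (t i) * wv F₁ F₂ c (t i) u) =
        (if s ≤ t i then φ s else φ (t i) * wv F₁ F₂ c (t i) s) * wv F₁ F₂ c s u
      by_cases hu : u ≤ t i
      · rw [if_pos hu, if_pos (h2.trans hu)]
        exact hφ s u h1 h2 hu h4
      · rw [if_neg hu]
        rw [not_le] at hu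
        by_cases hsi : s ≤ t i
        · rw [if_pos hsi, hφ s (t i) h1 hsi le_rfl (h4.sub le_rfl hsi hu.le), mul_assoc,
            wv_trans hF h4 hsi hu.le]
        · rw [if_neg hsi]
          rw [not_le] at hsi
          rw [mul_assoc, wv_trans hF (hsm.sub le_rfl hu.le h3) hsi.le h2]

private theorem exists_val {F₁ : Fn U H} {F₂ : Fn V H} (hF : Agree F₁ F₂) (h : Cover U V Y)
    {c : ℝ → Z} {a b : ℝ} (hc : Cv Y c a b) : ∃ g, Val F₁ F₂ c a b g := by
  obtain ⟨n, t, ht, h0, hn, hs⟩ := h.exists_partition hc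
  obtain ⟨φ, hφ⟩ := exists_lift_aux hF ht hs n le_rfl
  rw [h0, hn] at hφ
  exact ⟨φ b, φ, hφ, rfl⟩

private theorem val_unique {F₁ : Fn U H} {F₂ : Fn V H} (h : Cover U V Y)
    {c : ℝ → Z} {a b : ℝ} (hc : Cv Y c a b) {g g' : H} (hg : Val F₁ F₂ c a b g)
    (hg' : Val F₁ F₂ c a b g') : g = g' := by
  obtain ⟨n, t, ht, h0, hn, hs⟩ := h.exists_partition hc
  obtain ⟨φ, ⟨p0, hφ⟩, rfl⟩ := hg
  obtain ⟨ψ, ⟨q0, hψ⟩, rfl⟩ := hg'
  have key : ∀ i ≤ n, φ (t i) = ψ (t i) := by
    intro i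
    induction i with
    | zero =>
      intro _
      rw [h0, p0, q0]
    | succ i ih =>
      intro hi
      have h1 : a ≤ t i := by
        rw [← h0]
        exact ht (Nat.zero_le i)
      have h2 : t i ≤ t (i + 1) := ht (Nat.le_succ i)
      have h3 : t (i + 1) ≤ b := by
        rw [← hn]
        exact ht hi
      rw [hφ _ _ h1 h2 h3 (hs i (by omega)), hψ _ _ h1 h2 h3 (hs i (by omega)), ih (by omega)]
  have := key n le_rfl
  rwa [hn] at this

private theorem val_trans {F₁ : Fn U H} {F₂ : Fn V H} (hF : Agree F₁ F₂) (h : Cover U V Y)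
    {c : ℝ → Z} {a m b : ℝ} (hc : Cv Y c a b) (h1 : a ≤ m) (h2 : m ≤ b) {g g' : H}
    (hg : Val F₁ F₂ c a m g) (hg' : Val F₁ F₂ c m b g') : Val F₁ F₂ c a b (g * g') := by
  obtain ⟨g'', φ, ⟨h0, hφ⟩, hb⟩ := exists_val hF h hc
  have e1 : φ m = g := by
    refine val_unique h (hc.sub le_rfl h1 h2) ⟨φ, ⟨h0, ?_⟩, rfl⟩ hg
    intro s t k1 k2 k3 k4
    exact hφ s t k1 k2 (k3.trans h2) k4
  have e2 : (φ m)⁻¹ * φ b = g' := by
    refine val_unique h (hc.sub h1 h2 le_rfl) ⟨fun t => (φ m)⁻¹ * φ t, ⟨?_, ?_⟩, rfl⟩ hg'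
    · exact inv_mul_cancel _
    · intro s t k1 k2 k3 k4
      change (φ m)⁻¹ * φ t = (φ m)⁻¹ * φ s * _
      rw [hφ s t (h1.trans k1) k2 k3 k4, mul_assoc]
  refine ⟨φ, ⟨h0, hφ⟩, ?_⟩
  rw [← e2, ← e1, mul_inv_cancel_left]

private theorem val_small {F₁ : Fn U H} {F₂ : Fn V H} (hF : Agree F₁ F₂) {c : ℝ → Z} {a b : ℝ}
    (h : Sm U V c a b) : Val F₁ F₂ c a b (wv F₁ F₂ c a b) := by
  refine ⟨fun s => wv F₁ F₂ c a s, ⟨wv_self F₁ F₂ c a, ?_⟩, rfl⟩
  intro s t h1 h2 h3 _
  exact (wv_trans hF (h.sub le_rfl (h1.trans h2) h3) h1 h2).symm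

private theorem cv_congr' {Y : Set Z} {c c' : ℝ → Z} {a b : ℝ} (h : EqOn c c' (Icc a b)) :
    Cv Y c a b ↔ Cv Y c' a b := by
  constructor
  · intro hc
    exact ⟨hc.le, hc.cont.congr h.symm, fun t ht => by rw [← h ht]; exact hc.mem t ht⟩
  · intro hc
    exact ⟨hc.le, hc.cont.congr h, fun t ht => by rw [h ht]; exact hc.mem t ht⟩

private theorem val_congr {F₁ : Fn U H} {F₂ : Fn V H} {c c' : ℝ → Z} {a b : ℝ}
    (h : EqOn c c' (Icc a b)) {g : H} (hg : Val F₁ F₂ c a b g) : Val F₁ F₂ c' a b g := by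
  obtain ⟨φ, ⟨h0, hφ⟩, hb⟩ := hg
  refine ⟨φ, ⟨h0, ?_⟩, hb⟩
  intro s t h1 h2 h3 h4
  have he : EqOn c c' (Icc s t) := h.mono (Icc_subset_Icc h1 h3)
  have hw : wv F₁ F₂ c' s t = wv F₁ F₂ c s t := by
    unfold wv
    rw [F₁.cv_congr he, F₂.cv_congr he]
    by_cases hu : Cv U c s t
    · rw [if_pos hu, if_pos ((cv_congr' he).1 hu)]
    · rw [if_neg hu, if_neg (fun h' => hu ((cv_congr' he).2 h'))]
  rw [hw]
  apply hφ s t h1 h2 h3
  rcases h4 with h4 | h4
  · exact Or.inl ((cv_congr' he).2 h4)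
  · exact Or.inr ((cv_congr' he).2 h4)

private theorem cv_aff {Y : Set Z} {c : ℝ → Z} {u v : ℝ} {k : ℝ} (hk : 0 < k) (s : ℝ) :
    Cv Y (fun t => c (k * t + s)) u v ↔ Cv Y c (k * u + s) (k * v + s) := by
  have key : ∀ (c : ℝ → Z) (u v k : ℝ), 0 < k → ∀ s, Cv Y c (k * u + s) (k * v + s) →
      Cv Y (fun t => c (k * t + s)) u v := by
    intro c u v k hk s h
    have hm : ∀ t ∈ Icc u v, k * t + s ∈ Icc (k * u + s) (k * v + s) := by
      intro t ht
      constructor
      · have := mul_le_mul_of_nonneg_left ht.1 hk.le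
        linarith
      · have := mul_le_mul_of_nonneg_left ht.2 hk.le
        linarith
    refine ⟨?_, ?_, ?_⟩
    · have h1 := h.le
      have h2 : k * u ≤ k * v := by linarith
      exact le_of_mul_le_mul_left h2 hk
    · exact h.cont.comp (by fun_prop) hm
    · intro t ht
      exact h.mem _ (hm t ht)
  constructor
  · intro h
    have e1 : ∀ u : ℝ, k⁻¹ * (k * u + s) + -(k⁻¹ * s) = u := by
      intro u
      rw [mul_add, inv_mul_cancel_left₀ hk.ne']
      ring
    have h2 := key (fun t => c (k * t + s)) (k * u + s) (k * v + s) k⁻¹ (inv_pos.2 hk)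
      (-(k⁻¹ * s)) (by rw [e1, e1]; exact h)
    have e2 : (fun t => c (k * (k⁻¹ * t + -(k⁻¹ * s)) + s)) = c := by
      funext t
      congr 1
      rw [mul_add, mul_neg, mul_inv_cancel_left₀ hk.ne', mul_inv_cancel_left₀ hk.ne']
      ring
    rwa [e2] at h2
  · exact key c u v k hk s

private theorem val_aff {F₁ : Fn U H} {F₂ : Fn V H} {c : ℝ → Z} {u v : ℝ} {k : ℝ} (hk : 0 < k)
    (s : ℝ) {g : H} (hg : Val F₁ F₂ c (k * u + s) (k * v + s) g) :
    Val F₁ F₂ (fun t => c (k * t + s)) u v g := by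
  obtain ⟨φ, ⟨h0, hφ⟩, hb⟩ := hg
  refine ⟨fun t => φ (k * t + s), ⟨h0, ?_⟩, hb⟩
  intro a b h1 h2 h3 h4
  have hw : wv F₁ F₂ (fun t => c (k * t + s)) a b = wv F₁ F₂ c (k * a + s) (k * b + s) := by
    unfold wv
    rw [F₁.cv_affine c a b hk s, F₂.cv_affine c a b hk s]
    by_cases hu : Cv U (fun t => c (k * t + s)) a b
    · rw [if_pos hu, if_pos ((cv_aff hk s).1 hu)]
    · rw [if_neg hu, if_neg (fun h' => hu ((cv_aff hk s).2 h'))]
  rw [hw]
  have mono : ∀ x y : ℝ, x ≤ y → k * x + s ≤ k * y + s := by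
    intro x y hxy
    have := mul_le_mul_of_nonneg_left hxy hk.le
    linarith
  apply hφ _ _ (mono _ _ h1) (mono _ _ h2) (mono _ _ h3)
  rcases h4 with h4 | h4
  · exact Or.inl ((cv_aff hk s).1 h4)
  · exact Or.inr ((cv_aff hk s).1 h4)

/-- The curve of a path. -/
private def pc {x y : Y} (p : Path x y) : ℝ → Z := fun t => (p.extend t : Z)

private theorem cv_pc {x y : Y} (p : Path x y) : Cv Y (pc p) 0 1 :=
  ⟨zero_le_one, (continuous_subtype_val.comp p.continuous_extend).continuousOn,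
    fun t _ => (p.extend t).2⟩

private theorem square_w {F₁ : Fn U H} {F₂ : Fn V H} (hF : Agree F₁ F₂) {a b u v : ℝ}
    (hab : a ≤ b) (huv : u ≤ v) (k : ℝ → ℝ → Z) (hc : Continuous (Function.uncurry k))
    (hm : (∀ s ∈ Icc a b, ∀ t ∈ Icc u v, k s t ∈ U) ∨ (∀ s ∈ Icc a b, ∀ t ∈ Icc u v, k s t ∈ V)) :
    wv F₁ F₂ (fun s => k s u) a b * wv F₁ F₂ (fun t => k b t) u v =
      wv F₁ F₂ (fun t => k a t) u v * wv F₁ F₂ (fun s => k s v) a b := by
  have c1 : ∀ t, Continuous fun s => k s t := fun t => hc.comp (by fun_prop : Continuous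
    fun s : ℝ => ((s, t) : ℝ × ℝ))
  have c2 : ∀ s, Continuous fun t => k s t := fun s => hc.comp (by fun_prop : Continuous
    fun t : ℝ => ((s, t) : ℝ × ℝ))
  have gen : ∀ X : Set Z, (∀ s ∈ Icc a b, ∀ t ∈ Icc u v, k s t ∈ X) →
      Cv X (fun s => k s u) a b ∧ Cv X (fun t => k b t) u v ∧ Cv X (fun t => k a t) u v ∧
        Cv X (fun s => k s v) a b := by
    intro X hX
    refine ⟨⟨hab, (c1 u).continuousOn, fun s hs => hX s hs u ⟨le_rfl, huv⟩⟩,
      ⟨huv, (c2 b).continuousOn, fun t ht => hX b ⟨hab, le_rfl⟩ t ht⟩,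
      ⟨huv, (c2 a).continuousOn, fun t ht => hX a ⟨le_rfl, hab⟩ t ht⟩,
      ⟨hab, (c1 v).continuousOn, fun s hs => hX s hs v ⟨huv, le_rfl⟩⟩⟩
  rcases hm with hm | hm
  · obtain ⟨g1, g2, g3, g4⟩ := gen U hm
    rw [wv_left F₁ F₂ g1, wv_left F₁ F₂ g2, wv_left F₁ F₂ g3, wv_left F₁ F₂ g4]
    exact F₁.square hab huv k hc.continuousOn hm
  · obtain ⟨g1, g2, g3, g4⟩ := gen V hm
    rw [wv_right hF g1, wv_right hF g2, wv_right hF g3, wv_right hF g4]
    exact F₂.square hab huv k hc.continuousOn hm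

private theorem wv_const {F₁ : Fn U H} {F₂ : Fn V H} {c : ℝ → Z} {a b : ℝ} {z : Z}
    (h : ∀ t ∈ Icc a b, c t = z) : wv F₁ F₂ c a b = 1 := by
  unfold wv
  split_ifs
  · exact F₁.cv_const h
  · exact F₂.cv_const h

private theorem val_homotopic {F₁ : Fn U H} {F₂ : Fn V H} (hF : Agree F₁ F₂)
    (h : Cover U V Y) {x y : Y} {p q : Path x y} (hpq : p.Homotopic q) {g g' : H}
    (hg : Val F₁ F₂ (pc p) 0 1 g) (hg' : Val F₁ F₂ (pc q) 0 1 g') : g = g' := by
  obtain ⟨K⟩ := hpq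
  obtain ⟨O₁, hO₁, e₁⟩ := h.left
  obtain ⟨O₂, hO₂, e₂⟩ := h.right
  set k : ℝ → ℝ → Z := fun s t => (K (projIcc 0 1 zero_le_one s, projIcc 0 1 zero_le_one t) : Z)
    with hk
  have hkc : Continuous (Function.uncurry k) := by
    rw [hk]
    refine continuous_subtype_val.comp (K.continuous.comp ?_)
    exact (continuous_projIcc.comp continuous_fst).prodMk
      (continuous_projIcc.comp continuous_snd)
  have hkI : ∀ s t : I, k s t = K (s, t) := by
    intro s t
    change (K (projIcc 0 1 zero_le_one (s : ℝ), projIcc 0 1 zero_le_one (t : ℝ)) : Z) = _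
    rw [projIcc_val, projIcc_val]
  obtain ⟨t, t0, tm, ⟨N, tN⟩, hsq⟩ :=
    exists_monotone_Icc_subset_open_cover_unitInterval_prod_self
      (c := fun b : Bool => if b then {z : I × I | ((K z : Y) : Z) ∈ O₁}
        else {z : I × I | ((K z : Y) : Z) ∈ O₂})
      (by
        intro b
        cases b
        · exact hO₂.preimage (continuous_subtype_val.comp K.continuous)
        · exact hO₁.preimage (continuous_subtype_val.comp K.continuous))
      (by
        intro z _
        have hz : ((K z : Y) : Z) ∈ U ∪ V := by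
          rw [h.union]
          exact (K z).2
        rcases hz with hz | hz
        · rw [← e₁] at hz
          exact mem_iUnion.2 ⟨true, hz.1⟩
        · rw [← e₂] at hz
          exact mem_iUnion.2 ⟨false, hz.1⟩)
  have hYk : ∀ s t : ℝ, k s t ∈ Y := fun s t => (K _).2
  have hsq' : ∀ n m : ℕ, (∀ s ∈ Icc (t n : ℝ) (t (n + 1)), ∀ u ∈ Icc (t m : ℝ) (t (m + 1)),
      k s u ∈ U) ∨ (∀ s ∈ Icc (t n : ℝ) (t (n + 1)), ∀ u ∈ Icc (t m : ℝ) (t (m + 1)),
      k s u ∈ V) := by
    intro n m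
    obtain ⟨b, hb⟩ := hsq n m
    have aux : ∀ s ∈ Icc (t n : ℝ) (t (n + 1)), ∀ u ∈ Icc (t m : ℝ) (t (m + 1)),
        ∃ s' u' : I, k s u = K (s', u') ∧
          ((s', u') : I × I) ∈ Icc (t n) (t (n + 1)) ×ˢ Icc (t m) (t (m + 1)) := by
      intro s hs u hu
      have hs' : s ∈ Icc (0 : ℝ) 1 := ⟨(t n).2.1.trans hs.1, hs.2.trans (t (n + 1)).2.2⟩
      have hu' : u ∈ Icc (0 : ℝ) 1 := ⟨(t m).2.1.trans hu.1, hu.2.trans (t (m + 1)).2.2⟩
      exact ⟨⟨s, hs'⟩, ⟨u, hu'⟩, hkI ⟨s, hs'⟩ ⟨u, hu'⟩, ⟨hs.1, hs.2⟩, ⟨hu.1, hu.2⟩⟩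
    cases b
    · right
      intro s hs u hu
      obtain ⟨s', u', he, hm⟩ := aux s hs u hu
      rw [← e₂]
      refine ⟨?_, hYk s u⟩
      rw [he]
      exact hb hm
    · left
      intro s hs u hu
      obtain ⟨s', u', he, hm⟩ := aux s hs u hu
      rw [← e₁]
      refine ⟨?_, hYk s u⟩
      rw [he]
      exact hb hm
  have hrow : ∀ s : ℝ, Cv Y (fun u => k s u) 0 1 := fun s =>
    ⟨zero_le_one, (hkc.comp (by fun_prop : Continuous fun u : ℝ => ((s, u) : ℝ × ℝ))).continuousOn,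
      fun u _ => hYk s u⟩
  -- neighbouring rows
  have hstep : ∀ n : ℕ, ∀ g₁ g₂ : H, Val F₁ F₂ (fun u => k (t n) u) 0 1 g₁ →
      Val F₁ F₂ (fun u => k (t (n + 1)) u) 0 1 g₂ → g₁ = g₂ := by
    rintro n g₁ g₂ ⟨φ, ⟨p0, hφ⟩, rfl⟩ ⟨ψ, ⟨q0, hψ⟩, rfl⟩
    have hn : (t n : ℝ) ≤ t (n + 1) := tm (Nat.le_succ n)
    have key : ∀ m : ℕ, φ (t m) * wv F₁ F₂ (fun s => k s (t m)) (t n) (t (n + 1)) =
        wv F₁ F₂ (fun s => k s (t 0)) (t n) (t (n + 1)) * ψ (t m) := by
      intro m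
      induction m with
      | zero =>
        have e0 : ((t 0 : I) : ℝ) = 0 := by rw [t0]; rfl
        have p0' : φ (t 0 : I) = 1 := by rw [e0, p0]
        have q0' : ψ (t 0 : I) = 1 := by rw [e0, q0]
        rw [p0', q0', one_mul, mul_one]
      | succ m ih =>
        have hm : (t m : ℝ) ≤ t (m + 1) := tm (Nat.le_succ m)
        have hS := square_w hF hn hm k hkc (hsq' n m)
        have s1 : Sm U V (fun u => k (t n) u) (t m) (t (m + 1)) := by
          rcases hsq' n m with h' | h'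
          · exact Or.inl ⟨hm, (hrow _).cont.mono (Icc_subset_Icc (t m).2.1 (t (m + 1)).2.2),
              fun u hu => h' _ ⟨le_rfl, hn⟩ u hu⟩
          · exact Or.inr ⟨hm, (hrow _).cont.mono (Icc_subset_Icc (t m).2.1 (t (m + 1)).2.2),
              fun u hu => h' _ ⟨le_rfl, hn⟩ u hu⟩
        have s2 : Sm U V (fun u => k (t (n + 1)) u) (t m) (t (m + 1)) := by
          rcases hsq' n m with h' | h'
          · exact Or.inl ⟨hm, (hrow _).cont.mono (Icc_subset_Icc (t m).2.1 (t (m + 1)).2.2),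
              fun u hu => h' _ ⟨hn, le_rfl⟩ u hu⟩
          · exact Or.inr ⟨hm, (hrow _).cont.mono (Icc_subset_Icc (t m).2.1 (t (m + 1)).2.2),
              fun u hu => h' _ ⟨hn, le_rfl⟩ u hu⟩
        rw [hφ _ _ (t m).2.1 hm (t (m + 1)).2.2 s1, hψ _ _ (t m).2.1 hm (t (m + 1)).2.2 s2,
          mul_assoc, ← hS, ← mul_assoc, ih, mul_assoc]
    have hN := key N
    have e1 : ((t N : I) : ℝ) = 1 := by rw [tN N le_rfl]; rfl
    have e0 : ((t 0 : I) : ℝ) = 0 := by rw [t0]; rfl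
    have w1 : wv F₁ F₂ (fun s => k s (t N : I)) (t n) (t (n + 1)) = 1 := by
      apply wv_const (z := (y : Z))
      intro s hs
      have hs' : s ∈ Icc (0 : ℝ) 1 := ⟨(t n).2.1.trans hs.1, hs.2.trans (t (n + 1)).2.2⟩
      have := hkI ⟨s, hs'⟩ (t N)
      change k s (t N) = y
      rw [this, tN N le_rfl, K.target]
    have w0 : wv F₁ F₂ (fun s => k s (t 0 : I)) (t n) (t (n + 1)) = 1 := by
      apply wv_const (z := (x : Z))
      intro s hs
      have hs' : s ∈ Icc (0 : ℝ) 1 := ⟨(t n).2.1.trans hs.1, hs.2.trans (t (n + 1)).2.2⟩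
      have := hkI ⟨s, hs'⟩ (t 0)
      change k s (t 0) = x
      rw [this, t0, K.source]
    rw [w1, w0, mul_one, one_mul, e1] at hN
    exact hN
  have hall : ∀ n : ℕ, ∀ g₁ : H, Val F₁ F₂ (fun u => k (t n) u) 0 1 g₁ → g = g₁ := by
    intro n
    induction n with
    | zero =>
      intro g₁ h₁
      refine val_unique h (hrow (t 0)) ?_ h₁
      refine val_congr ?_ hg
      intro u hu
      have := hkI (t 0) ⟨u, hu⟩
      change pc p u = k (t 0) u
      rw [show k (t 0) u = K (t 0, ⟨u, hu⟩) from this, t0, K.apply_zero]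
      change ((p.extend u : Y) : Z) = (p ⟨u, hu⟩ : Y)
      rw [Path.extend_apply p hu]
    | succ n ih =>
      intro g₁ h₁
      obtain ⟨g₂, h₂⟩ := exists_val hF h (hrow (t n))
      exact (ih g₂ h₂).trans (hstep n g₂ g₁ h₂ h₁)
  apply hall N
  refine val_congr ?_ hg'
  intro u hu
  have := hkI (t N) ⟨u, hu⟩
  change pc q u = k (t N) u
  rw [show k (t N) u = K (t N, ⟨u, hu⟩) from this, tN N le_rfl, K.apply_one]
  change ((q.extend u : Y) : Z) = (q ⟨u, hu⟩ : Y)
  rw [Path.extend_apply q hu]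

private theorem val_path_trans {F₁ : Fn U H} {F₂ : Fn V H} (hF : Agree F₁ F₂)
    (h : Cover U V Y) {x y z : Y} (p : Path x y) (q : Path y z) {g g' : H}
    (hg : Val F₁ F₂ (pc p) 0 1 g) (hg' : Val F₁ F₂ (pc q) 0 1 g') :
    Val F₁ F₂ (pc (p.trans q)) 0 1 (g * g') := by
  refine val_trans hF h (cv_pc _) (m := 1 / 2) (by norm_num) (by norm_num) ?_ ?_
  · have h1 : Val F₁ F₂ (pc p) (2 * 0 + 0) (2 * (1 / 2) + 0) g := by
      norm_num
      exact hg
    refine val_congr ?_ (val_aff (by norm_num : (0 : ℝ) < 2) 0 h1)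
    intro t ht
    have ht1 : t ∈ Icc (0 : ℝ) 1 := ⟨ht.1, by linarith [ht.2]⟩
    have ht2 : 2 * t + 0 ∈ Icc (0 : ℝ) 1 := ⟨by linarith [ht.1], by linarith [ht.2]⟩
    change ((p.extend (2 * t + 0) : Y) : Z) = ((p.trans q).extend t : Y)
    rw [Path.extend_apply _ ht1, Path.trans_apply, dif_pos (by exact ht.2),
      Path.extend_apply _ ht2]
    congr 3
    exact add_zero _
  · have h1 : Val F₁ F₂ (pc q) (2 * (1 / 2) + -1) (2 * 1 + -1) g' := by
      norm_num
      exact hg'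
    refine val_congr ?_ (val_aff (by norm_num : (0 : ℝ) < 2) (-1) h1)
    intro t ht
    have ht1 : t ∈ Icc (0 : ℝ) 1 := ⟨by linarith [ht.1], ht.2⟩
    have ht2 : 2 * t + -1 ∈ Icc (0 : ℝ) 1 := ⟨by linarith [ht.1], by linarith [ht.2]⟩
    change ((q.extend (2 * t + -1) : Y) : Z) = ((p.trans q).extend t : Y)
    rw [Path.extend_apply _ ht1, Path.trans_apply, Path.extend_apply _ ht2]
    split_ifs with h'
    · have e : t = 1 / 2 := le_antisymm h' ht.1
      subst e
      congr 1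
      have a1 : (⟨2 * (1 / 2) + -1, ht2⟩ : I) = 0 := by
        apply Subtype.ext
        norm_num
      rw [a1, Path.source]
      symm
      convert p.target using 2
      apply Subtype.ext
      norm_num
    · congr 3

/-- The glued functional. -/
private def glue {F₁ : Fn U H} {F₂ : Fn V H} (hF : Agree F₁ F₂) (h : Cover U V Y) : Fn Y H where
  v p := (exists_val hF h (cv_pc p)).choose
  homo {_ _ p q} hpq := val_homotopic hF h hpq (exists_val hF h (cv_pc p)).choose_spec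
    (exists_val hF h (cv_pc q)).choose_spec
  trans p q := val_unique h (cv_pc _) (exists_val hF h (cv_pc (p.trans q))).choose_spec
    (val_path_trans hF h p q (exists_val hF h (cv_pc p)).choose_spec
      (exists_val hF h (cv_pc q)).choose_spec)

private theorem glue_cv {F₁ : Fn U H} {F₂ : Fn V H} (hF : Agree F₁ F₂) (h : Cover U V Y)
    {c : ℝ → Z} {u v : ℝ} (hc : Cv Y c u v) (hs : Sm U V c u v) :
    (glue hF h).cv c u v = wv F₁ F₂ c u v := by
  rw [(glue hF h).cv_eq hc]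
  rcases hc.le.eq_or_lt with huv | huv
  · subst huv
    rw [wv_self, ← (glue hF h).cv_eq hc, (glue hF h).cv_self]
  · have hk : 0 < v - u := sub_pos.2 huv
    have h1 : Val F₁ F₂ (pc hc.path) 0 1 ((glue hF h).v hc.path) :=
      (exists_val hF h (cv_pc hc.path)).choose_spec
    have h2 : Val F₁ F₂ c ((v - u) * 0 + u) ((v - u) * 1 + u) (wv F₁ F₂ c u v) := by
      rw [mul_zero, zero_add, mul_one, sub_add_cancel]
      exact val_small hF hs
    refine val_unique h (cv_pc hc.path) h1 (val_congr ?_ (val_aff hk u h2))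
    intro t ht
    change c ((v - u) * t + u) = ((hc.path.extend t : Y) : Z)
    rw [Path.extend_apply _ ht]
    change c ((v - u) * t + u) = c (u + t * (v - u))
    congr 1
    ring

theorem exists_glue (h : Cover U V Y) (F₁ : Fn U H) (F₂ : Fn V H)
    (hF : ∀ (c : ℝ → Z) (u v : ℝ), Cv (U ∩ V) c u v → F₁.cv c u v = F₂.cv c u v) :
    ∃ F : Fn Y H, (∀ (c : ℝ → Z) (u v : ℝ), Cv U c u v → F.cv c u v = F₁.cv c u v) ∧
      ∀ (c : ℝ → Z) (u v : ℝ), Cv V c u v → F.cv c u v = F₂.cv c u v := by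
  have hF' : Agree F₁ F₂ := hF
  have hU : U ⊆ Y := by
    rw [← h.union]
    exact subset_union_left
  have hV : V ⊆ Y := by
    rw [← h.union]
    exact subset_union_right
  refine ⟨glue hF' h, ?_, ?_⟩
  · intro c u v hc
    rw [glue_cv hF' h ⟨hc.le, hc.cont, fun t ht => hU (hc.mem t ht)⟩ (Or.inl hc), wv_left _ _ hc]
  · intro c u v hc
    rw [glue_cv hF' h ⟨hc.le, hc.cont, fun t ht => hV (hc.mem t ht)⟩ (Or.inr hc),
      wv_right hF' hc]

end Pool.Agent.EBS
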