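import Pool.Agent.EBS.F09

/-!
# F10: gluing functionals which agree on the closed curves at a base point

`U ∩ V` path connected, `x ∈ U ∩ V`, `F₁`, `F₂` agree on the closed curves at `x` in `U ∩ V`.

Proof. For `y ∈ U ∩ V` choose a curve `β_y` in `U ∩ V` on `[0, 1]` from `x` to `y`, `β_x` constant,
and put `γ y = (F₁.cv β_y 0 1)⁻¹ * F₂.cv β_y 0 1`, `γ y = 1` for `y ∉ U ∩ V`. For a curve `c` in
`U ∩ V` from `y` to `y'` the concatenation of `β_y`, `c` and the reversed `β_{y'}` is a closed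
curve at `x`, so `F₁(β_y) F₁(c) F₁(β_{y'})⁻¹ = F₂(β_y) F₂(c) F₂(β_{y'})⁻¹`, hence
`F₁(c) = γ y * F₂(c) * (γ y')⁻¹`. Let `F₂'.v p = γ (p 0) * F₂.v p * (γ (p 1))⁻¹`; this is a
functional on `V` which agrees with `F₁` on `U ∩ V`. Apply `exists_glue` to `F₁`, `F₂'`.
`γ x = 1` (`β_x` is constant, `cv_const`).
-/

set_option autoImplicit false

noncomputable section

open Set Topology unitInterval

namespace Pool.Agent.EBS

variable {Z : Type} [TopologicalSpace Z] {U V Y : Set Z} {H : Type} [Group H]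

/-- The functional `F`, changed by the function `γ`. -/
private def Fn.tw (F : Fn V H) (γ : Z → H) : Fn V H where
  v {x y} p := γ x * F.v p * (γ y)⁻¹
  homo hpq := by rw [F.homo hpq]
  trans p q := by
    rw [F.trans]
    group

private theorem Fn.tw_cv (F : Fn V H) (γ : Z → H) {c : ℝ → Z} {u v : ℝ} (hc : Cv V c u v) :
    (F.tw γ).cv c u v = γ (c u) * F.cv c u v * (γ (c v))⁻¹ := by
  rw [Fn.cv_eq _ hc, Fn.cv_eq _ hc]
  rfl

theorem exists_glue' (h : Cover U V Y) (hUV : IsPathConnected (U ∩ V)) {x : Z}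
    (hx : x ∈ U ∩ V) (F₁ : Fn U H) (F₂ : Fn V H)
    (hF : ∀ (c : ℝ → Z) (u v : ℝ), Cv (U ∩ V) c u v → c u = x → c v = x →
      F₁.cv c u v = F₂.cv c u v) :
    ∃ (F : Fn Y H) (γ : Z → H), γ x = 1 ∧
      (∀ (c : ℝ → Z) (u v : ℝ), Cv U c u v → F.cv c u v = F₁.cv c u v) ∧
      ∀ (c : ℝ → Z) (u v : ℝ), Cv V c u v →
        F.cv c u v = γ (c u) * F₂.cv c u v * (γ (c v))⁻¹ := by
  classical
  have hpc : PathConnectedSpace (U ∩ V : Set Z) := isPathConnected_iff_pathConnectedSpace.1 hUV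
  obtain ⟨G₁, hG₁⟩ : ∃ G : Fn (U ∩ V) H, G = F₁.res inter_subset_left := ⟨_, rfl⟩
  obtain ⟨G₂, hG₂⟩ : ∃ G : Fn (U ∩ V) H, G = F₂.res inter_subset_right := ⟨_, rfl⟩
  -- the base point and the paths to the other points
  obtain ⟨x0, hx0⟩ : ∃ x0 : (U ∩ V : Set Z), (x0 : Z) = x := ⟨⟨x, hx⟩, rfl⟩
  let β : ∀ y : (U ∩ V : Set Z), Path x0 y := fun y => PathConnectedSpace.somePath x0 y
  -- closed paths
  have hcl : ∀ q : Path x0 x0, G₁.v q = G₂.v q := by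
    intro q
    obtain ⟨h1, h2⟩ := G₁.cv_path q
    obtain ⟨_, h3⟩ := G₂.cv_path q
    rw [← h2, ← h3, hG₁, hG₂, Fn.cv_res _ _ h1, Fn.cv_res _ _ h1]
    refine hF _ _ _ h1 ?_ ?_
    · simp [hx0]
    · simp [hx0]
  let γ : Z → H := fun z => if hz : z ∈ U ∩ V then (G₁.v (β ⟨z, hz⟩))⁻¹ * G₂.v (β ⟨z, hz⟩) else 1
  have hγ : ∀ y : (U ∩ V : Set Z), γ y = (G₁.v (β y))⁻¹ * G₂.v (β y) := by
    intro y
    change (if hz : (y : Z) ∈ U ∩ V then (G₁.v (β ⟨y, hz⟩))⁻¹ * G₂.v (β ⟨y, hz⟩) else 1) = _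
    rw [dif_pos y.2]
  have hγx : γ x = 1 := by
    rw [← hx0, hγ, hcl, inv_mul_cancel]
  have hp : ∀ {a b : (U ∩ V : Set Z)} (p : Path a b), G₁.v p = γ a * G₂.v p * (γ b)⁻¹ := by
    intro a b p
    have h1 := hcl (((β a).trans p).trans (β b).symm)
    rw [G₁.trans, G₁.trans, G₂.trans, G₂.trans, Fn.v_symm, Fn.v_symm] at h1
    rw [hγ, hγ]
    have h2 : G₁.v p = (G₁.v (β a))⁻¹ * (G₁.v (β a) * G₁.v p * (G₁.v (β b))⁻¹) *
        G₁.v (β b) := by group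
    rw [h2, h1]
    group
  obtain ⟨F, hF1, hF2⟩ := exists_glue h F₁ (F₂.tw γ) (by
    intro c u v hc
    have hcV : Cv V c u v := ⟨hc.le, hc.cont, fun t ht => (hc.mem t ht).2⟩
    rw [Fn.tw_cv _ _ hcV, ← Fn.cv_res F₁ inter_subset_left hc, ← hG₁,
      ← Fn.cv_res F₂ inter_subset_right hc, ← hG₂, Fn.cv_eq _ hc, Fn.cv_eq _ hc]
    exact hp hc.path)
  refine ⟨F, γ, hγx, hF1, fun c u v hc => ?_⟩
  rw [hF2 c u v hc, Fn.tw_cv _ _ hc]

end Pool.Agent.EBS
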