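import Pool.Agent.EBS.F05

/-!
# F13: an injective map of the circle has degree `1` or `-1`

Proof. Let `j` be the degree of `t ↦ γ (ec t)` on `[0, 1]` (`Deg.exists`), with lift `θ`:
`ec (θ t) = γ (ec t)` for `t ∈ [0, 1]`, `θ 1 - θ 0 = j`.
Injectivity: if `s, t ∈ [0, 1]` and `θ s - θ t ∈ ℤ` then `ec s = ec t`, so `s - t ∈ ℤ`.
`j = 0`: `θ 0 = θ 1`. If `θ (1/2) = θ 0` then `1/2 ∈ ℤ`, contradiction. Otherwise let
`y = (θ 0 + θ (1/2)) / 2`; by the intermediate value theorem there are `s ∈ (0, 1/2)` and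
`t ∈ (1/2, 1)` with `θ s = y = θ t`, so `s - t ∈ ℤ`, a contradiction.
`|j| ≥ 2`: by the intermediate value theorem there is `t ∈ (0, 1)` with `θ t = θ 0 + 1`
(respectively `θ 0 - 1`), so `t ∈ ℤ`, a contradiction.
-/

set_option autoImplicit false

noncomputable section

open Set Topology unitInterval

namespace Pool.Agent.EBS

theorem deg_of_injective {γ : Circle → Circle} (hc : Continuous γ) (hi : Function.Injective γ) :
    ∃ j : ℤ, (j = 1 ∨ j = -1) ∧ Deg (fun t => γ (ec t)) 0 1 j := by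
  have hec : Continuous ec := isCoveringMap_ec.continuous
  have h01 : ec 0 = ec 1 := by
    have h0 := ec_int 0
    have h1 := ec_int 1
    rw [Int.cast_zero] at h0
    rw [Int.cast_one] at h1
    rw [h0, h1]
  obtain ⟨j, hj⟩ := Deg.exists (γ := fun t => γ (ec t)) zero_le_one (hc.comp hec).continuousOn
    (by simp only [h01])
  refine ⟨j, ?_, hj⟩
  obtain ⟨θ, hθc, hθ, hd⟩ := hj
  have key : ∀ s ∈ Icc (0 : ℝ) 1, ∀ t ∈ Icc (0 : ℝ) 1, ∀ n : ℤ, θ s = θ t + n →
      ∃ m : ℤ, s = t + m := by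
    intro s hs t ht n h
    refine ec_eq_iff.1 (hi ?_)
    have h1 := hθ s hs
    have h2 := hθ t ht
    simp only at h1 h2
    rw [← h1, ← h2]
    exact ec_eq_iff.2 ⟨n, h⟩
  have m0 : (0 : ℝ) ∈ Icc (0 : ℝ) 1 := ⟨le_rfl, zero_le_one⟩
  by_contra hcon
  push Not at hcon
  obtain ⟨hj1, hj2⟩ := hcon
  rcases lt_trichotomy j 0 with h | h | h
  · have hj3 : j ≤ -2 := by omega
    have hj4 : (j : ℝ) ≤ -2 := by exact_mod_cast hj3
    obtain ⟨t, ht, ht'⟩ := intermediate_value_Icc' zero_le_one hθc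
      (show θ 0 - 1 ∈ Icc (θ 1) (θ 0) from ⟨by linarith, by linarith⟩)
    obtain ⟨m, hm⟩ := key t ht 0 m0 (-1) (by rw [ht']; push_cast; ring)
    rw [zero_add] at hm
    have h1 : (0 : ℝ) ≤ m := hm ▸ ht.1
    have h2 : (m : ℝ) ≤ 1 := hm ▸ ht.2
    have h3 : m = 0 ∨ m = 1 := by
      have h4 : (0 : ℤ) ≤ m := by exact_mod_cast h1
      have h5 : m ≤ 1 := by exact_mod_cast h2
      omega
    rcases h3 with rfl | rfl
    · rw [hm, Int.cast_zero] at ht'
      linarith
    · rw [hm, Int.cast_one] at ht'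
      linarith
  · rw [h, Int.cast_zero] at hd
    have hne : θ 0 ≠ θ (1 / 2) := by
      intro h0
      obtain ⟨m, hm⟩ := key 0 m0 (1 / 2) ⟨by norm_num, by norm_num⟩ 0
        (by rw [h0, Int.cast_zero, add_zero])
      have h1 : (2 * m : ℝ) = -1 := by linarith
      have h2 : 2 * m = -1 := by exact_mod_cast h1
      omega
    have hy : (θ 0 + θ (1 / 2)) / 2 ∈ uIcc (θ 0) (θ (1 / 2)) := by
      rw [mem_uIcc]
      rcases le_total (θ 0) (θ (1 / 2)) with h1 | h1
      · exact Or.inl ⟨by linarith, by linarith⟩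
      · exact Or.inr ⟨by linarith, by linarith⟩
    have hy' : (θ 0 + θ (1 / 2)) / 2 ∈ uIcc (θ (1 / 2)) (θ 1) := by
      have h1 : θ 1 = θ 0 := by linarith
      rw [h1, uIcc_comm]
      exact hy
    have e1 : uIcc (0 : ℝ) (1 / 2) = Icc 0 (1 / 2) := uIcc_of_le (by norm_num)
    have e2 : uIcc (1 / 2 : ℝ) 1 = Icc (1 / 2) 1 := uIcc_of_le (by norm_num)
    obtain ⟨a, ha, ha'⟩ := intermediate_value_uIcc
      (hθc.mono (by rw [e1]; exact Icc_subset_Icc le_rfl (by norm_num))) hy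
    obtain ⟨b, hb, hb'⟩ := intermediate_value_uIcc
      (hθc.mono (by rw [e2]; exact Icc_subset_Icc (by norm_num) le_rfl)) hy'
    rw [e1] at ha
    rw [e2] at hb
    obtain ⟨m, hm⟩ := key a ⟨ha.1, by linarith [ha.2]⟩ b ⟨by linarith [hb.1], hb.2⟩ 0
      (by rw [ha', hb', Int.cast_zero, add_zero])
    have h1 : (m : ℝ) ≤ 0 := by linarith [ha.2, hb.1]
    have h2 : (-1 : ℝ) ≤ m := by linarith [ha.1, hb.2]
    have h3 : m = 0 ∨ m = -1 := by
      have h4 : m ≤ 0 := by exact_mod_cast h1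
      have h5 : -1 ≤ m := by exact_mod_cast h2
      omega
    rcases h3 with rfl | rfl
    · rw [Int.cast_zero, add_zero] at hm
      have h4 : a = 1 / 2 := le_antisymm ha.2 (hm ▸ hb.1)
      rw [h4] at ha'
      exact hne (by linarith)
    · rw [Int.cast_neg, Int.cast_one] at hm
      have h4 : a = 0 := by linarith [ha.1, hb.2]
      rw [h4] at ha'
      exact hne (by linarith)
  · have hj3 : 2 ≤ j := by omega
    have hj4 : (2 : ℝ) ≤ j := by exact_mod_cast hj3
    obtain ⟨t, ht, ht'⟩ := intermediate_value_Icc zero_le_one hθc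
      (show θ 0 + 1 ∈ Icc (θ 0) (θ 1) from ⟨by linarith, by linarith⟩)
    obtain ⟨m, hm⟩ := key t ht 0 m0 1 (by rw [ht', Int.cast_one])
    rw [zero_add] at hm
    have h1 : (0 : ℝ) ≤ m := hm ▸ ht.1
    have h2 : (m : ℝ) ≤ 1 := hm ▸ ht.2
    have h3 : m = 0 ∨ m = 1 := by
      have h4 : (0 : ℤ) ≤ m := by exact_mod_cast h1
      have h5 : m ≤ 1 := by exact_mod_cast h2
      omega
    rcases h3 with rfl | rfl
    · rw [hm, Int.cast_zero] at ht'
      linarith
    · rw [hm, Int.cast_one] at ht'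
      linarith

end Pool.Agent.EBS
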