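import Pool.Agent.EBS.F08

/-!
# F14: generators of the values on closed curves; curves and paths

* `Cv.exists_path`: the path `h.path` of `Cv` with the end points cast (`subst`, or `Path.cast`);
  `F.cv_eq`.
* `Fn.gen`: as `Fn.trivial_union` (file `F08`). For every `y ∈ Y` choose a path `β y` from `x` to
  `y`
  which lies in `U ∩ V` if `y ∈ U ∩ V`, in `U` if `y ∈ U \ V` and in `V` if `y ∈ V \ U`; `β x` is
  constant. Put `p y = F.v (β y)` (as a path in `Y`). Claim: for a curve `c` in `U` on `[a, b]` the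
  element `p (c a) * F.cv c a b * (p (c b))⁻¹` lies in `S`: it is the value of the closed path
  `β (c a) · c · (β (c b))⁻¹` in `U` at `x`. The same for curves in `V`. Cut the curve `c` into
  pieces (`Cover.exists_partition`) and multiply: `p (c u) * F.cv c u v * (p (c v))⁻¹ ∈ S`
  (`cv_trans`, induction on the number of pieces); for `c u = c v = x` this is `F.cv c u v`
  (`p x = 1`, `v_refl`).
-/

set_option autoImplicit false

noncomputable section

open Set Topology unitInterval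

namespace Pool.Agent.EBS

variable {Z : Type} [TopologicalSpace Z] {U V Y : Set Z} {H : Type} [Group H]

theorem Cv.exists_path {c : ℝ → Z} {u v : ℝ} (h : Cv U c u v) {x y : U} (hx : c u = x)
    (hy : c v = y) : ∃ p : Path x y, ∀ (H : Type) [Group H] (F : Fn U H), F.v p = F.cv c u v := by
  obtain ⟨x, hx'⟩ := x
  obtain ⟨y, hy'⟩ := y
  subst hx
  subst hy
  exact ⟨h.path, fun H _ F => (F.cv_eq h).symm⟩

private theorem v_mem (F : Fn Y H) {W : Set Z} {x₀ : Y} {S : Subgroup H}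
    (hW : ∀ (c : ℝ → Z) (u v : ℝ), Cv W c u v → c u = x₀ → c v = x₀ → F.cv c u v ∈ S)
    (p : Path x₀ x₀) (hp : ∀ t, (p t : Z) ∈ W) : F.v p ∈ S := by
  obtain ⟨h1, h2⟩ := F.cv_path p
  rw [← h2]
  refine hW _ _ _ ⟨h1.le, h1.cont, fun t ht => ?_⟩ ?_ ?_
  · rw [Path.extend_apply p ht]
    exact hp _
  · rw [Path.extend_zero]
  · rw [Path.extend_one]

/-- Paths from a base point. -/
private theorem v_key (F : Fn Y H) {W : Set Z} (hWY : W ⊆ Y) {x₀ : Y} {S : Subgroup H}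
    (hW : ∀ (c : ℝ → Z) (u v : ℝ), Cv W c u v → c u = x₀ → c v = x₀ → F.cv c u v ∈ S)
    (β : ∀ y : Y, Path x₀ y) (hβ : ∀ y : Y, (y : Z) ∈ W → ∀ t, (β y t : Z) ∈ W) {c : ℝ → Z}
    {a b : ℝ} (hc : Cv W c a b) :
    F.v (β ⟨c a, hWY hc.left⟩) * F.cv c a b * (F.v (β ⟨c b, hWY hc.right⟩))⁻¹ ∈ S := by
  have hc' : Cv Y c a b := ⟨hc.le, hc.cont, fun t ht => hWY (hc.mem t ht)⟩
  rw [F.cv_eq hc']
  have h1 : F.v (((β ⟨c a, hWY hc.left⟩).trans hc'.path).trans
      (β ⟨c b, hWY hc.right⟩).symm) ∈ S := by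
    apply v_mem F hW
    intro t
    rw [Path.trans_apply]
    split_ifs with h
    · rw [Path.trans_apply]
      split_ifs with h'
      · exact hβ _ hc.left _
      · exact hc.mem _ (param_mem hc.le _)
    · exact hβ _ hc.right _
  rwa [F.trans, F.trans, F.v_symm] at h1

theorem Fn.gen (F : Fn Y H) (h : Cover U V Y) (hU : IsPathConnected U)
    (hV : IsPathConnected V) (hUV : IsPathConnected (U ∩ V)) {x : Z} (hx : x ∈ U ∩ V)
    (S : Subgroup H)
    (h1 : ∀ (c : ℝ → Z) (u v : ℝ), Cv U c u v → c u = x → c v = x → F.cv c u v ∈ S)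
    (h2 : ∀ (c : ℝ → Z) (u v : ℝ), Cv V c u v → c u = x → c v = x → F.cv c u v ∈ S)
    {c : ℝ → Z} {u v : ℝ} (hc : Cv Y c u v) (he : c u = x) (he' : c v = x) :
    F.cv c u v ∈ S := by
  have hUY : U ⊆ Y := h.union ▸ subset_union_left
  have hVY : V ⊆ Y := h.union ▸ subset_union_right
  have hlift : ∀ (W : Set Z) (hWY : W ⊆ Y) (_ : IsPathConnected W) (hx : x ∈ W) (y : Y)
      (_ : (y : Z) ∈ W), ∃ p : Path (⟨x, hWY hx⟩ : Y) y, ∀ t, (p t : Z) ∈ W := by
    intro W hWY hW hx y hy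
    have hj := hW.joinedIn x hx y hy
    refine ⟨{ toFun := fun t => ⟨hj.somePath t, hWY (hj.somePath_mem t)⟩
              continuous_toFun := hj.somePath.continuous.subtype_mk _
              source' := Subtype.ext hj.somePath.source
              target' := Subtype.ext hj.somePath.target }, fun t => hj.somePath_mem t⟩
  have hex : ∀ y : Y, ∃ p : Path (⟨x, hUY hx.1⟩ : Y) y,
      ((y : Z) ∈ U → ∀ t, (p t : Z) ∈ U) ∧ ((y : Z) ∈ V → ∀ t, (p t : Z) ∈ V) := by
    intro y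
    by_cases hyU : (y : Z) ∈ U
    · by_cases hyV : (y : Z) ∈ V
      · obtain ⟨p, hp⟩ := hlift (U ∩ V) (inter_subset_left.trans hUY) hUV hx y ⟨hyU, hyV⟩
        exact ⟨p, fun _ t => (hp t).1, fun _ t => (hp t).2⟩
      · obtain ⟨p, hp⟩ := hlift U hUY hU hx.1 y hyU
        exact ⟨p, fun _ => hp, fun h' => absurd h' hyV⟩
    · have hyV : (y : Z) ∈ V := by
        have h3 : (y : Z) ∈ U ∪ V := by
          rw [h.union]
          exact y.2
        exact h3.resolve_left hyU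
      obtain ⟨p, hp⟩ := hlift V hVY hV hx.2 y hyV
      exact ⟨p, fun h' => absurd h' hyU, fun _ => hp⟩
  choose β hβU hβV using hex
  obtain ⟨n, t, htm, ht0, htn, hi⟩ := h.exists_partition hc
  have hle : ∀ i, i ≤ n → u ≤ t i ∧ t i ≤ v := fun i hin =>
    ⟨ht0 ▸ htm (Nat.zero_le i), htn ▸ htm hin⟩
  have hind : ∀ i (hin : i ≤ n), F.v (β ⟨c u, hc.left⟩) * F.cv c u (t i) *
      (F.v (β ⟨c (t i), hc.mem _ (hle i hin)⟩))⁻¹ ∈ S := by
    intro i
    induction i with
    | zero =>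
      intro hin
      have h3 : ∀ s (hs : s = u) (hs' : c s ∈ Y), F.v (β ⟨c u, hc.left⟩) * F.cv c u s *
          (F.v (β ⟨c s, hs'⟩))⁻¹ ∈ S := by
        rintro s rfl hs'
        rw [F.cv_self, mul_one, mul_inv_cancel]
        exact S.one_mem
      exact h3 _ ht0 _
    | succ i ih =>
      intro hin
      have hin' : i ≤ n := Nat.le_of_succ_le hin
      have h3 : Cv Y c u (t (i + 1)) := hc.sub le_rfl (hle _ hin).1 (hle _ hin).2
      rw [← F.cv_trans h3 (hle i hin').1 (htm (Nat.le_succ i))]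
      have h4 : F.v (β ⟨c (t i), hc.mem _ (hle i hin')⟩) * F.cv c (t i) (t (i + 1)) *
          (F.v (β ⟨c (t (i + 1)), hc.mem _ (hle _ hin)⟩))⁻¹ ∈ S := by
        rcases hi i hin with h5 | h5
        · exact v_key F hUY (x₀ := ⟨x, hUY hx.1⟩) h1 β hβU h5
        · exact v_key F hVY (x₀ := ⟨x, hUY hx.1⟩) h2 β hβV h5
      have h6 := S.mul_mem (ih hin') h4
      convert h6 using 1
      group
  have hβx : F.v (β ⟨x, hUY hx.1⟩) ∈ S :=
    v_mem F (x₀ := ⟨x, hUY hx.1⟩) h1 _ (hβU _ hx.1)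
  have h6 := hind n le_rfl
  have h7 : ∀ s (hs : s = v) (hs' : c s ∈ Y), F.v (β ⟨c u, hc.left⟩) * F.cv c u s *
      (F.v (β ⟨c s, hs'⟩))⁻¹ ∈ S → F.cv c u v ∈ S := by
    rintro s rfl hs' h8
    have h9 : (⟨c u, hc.left⟩ : Y) = ⟨x, hUY hx.1⟩ := Subtype.ext he
    have h10 : (⟨c s, hs'⟩ : Y) = ⟨x, hUY hx.1⟩ := Subtype.ext he'
    rw [h9, h10] at h8
    have h11 := S.mul_mem (S.mul_mem (S.inv_mem hβx) h8) hβx
    convert h11 using 1
    group
  exact h7 _ htn _ h6

end Pool.Agent.EBS
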