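import Pool.Agent.EBS.F14

/-!
# F15: the subgroup of the values on the closed paths in a subset

* `Fn.grp`: `w * v(p) * w⁻¹ * (w * v(q) * w⁻¹) = w * v(p.trans q) * w⁻¹` (`trans`), `v_refl`,
  `v_symm`.
* `Fn.exists_of_grp`: for `y ∈ U` choose a path `β y` in `U` from `x` to `y`, `β x` constant
  (`IsPathConnected`; as in `exists_ofHom` of file `F11`); for a path `p` in `U` from `y` to `y'`
  put
  `F'.v p = φ ⟨w * (F.res hU).v ((β y).trans p |>.trans (β y').symm) * w⁻¹, _, rfl⟩`.
  `homo`: `(F.res hU).homo`. `trans`: the product of the two elements of the subgroup is the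
  element of
  `p.trans q` (the inner parts cancel: use `trans`, `v_symm`), and `φ` is a homomorphism.
  For a closed path at `x`: `v_refl`, `v_symm`.
* `Fn.mem_grp`: `Cv.exists_path` and `cv_res`.
-/

set_option autoImplicit false

noncomputable section

open Set Topology unitInterval

namespace Pool.Agent.EBS

variable {Z : Type} [TopologicalSpace Z] {U Y : Set Z} {G : Type} [Group G]

/-- The subgroup of the elements `w * F(p) * w⁻¹` for the closed paths `p` in `U` at `x`. -/
def Fn.grp (F : Fn Y G) (hU : U ⊆ Y) (x : U) (w : G) : Subgroup G where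
  carrier := {g | ∃ p : Path x x, g = w * (F.res hU).v p * w⁻¹}
  mul_mem' := by
    rintro a b ⟨p, rfl⟩ ⟨q, rfl⟩
    refine ⟨p.trans q, ?_⟩
    rw [(F.res hU).trans]
    group
  one_mem' := by
    refine ⟨Path.refl x, ?_⟩
    rw [(F.res hU).v_refl]
    group
  inv_mem' := by
    rintro a ⟨p, rfl⟩
    refine ⟨p.symm, ?_⟩
    rw [(F.res hU).v_symm]
    group

theorem Fn.mem_grp (F : Fn Y G) (hU : U ⊆ Y) (x : U) (w : G) {c : ℝ → Z} {u v : ℝ}
    (hc : Cv U c u v) (hu : c u = x) (hv : c v = x) : w * F.cv c u v * w⁻¹ ∈ F.grp hU x w := by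
  obtain ⟨p, hp⟩ := hc.exists_path hu hv
  refine ⟨p, ?_⟩
  rw [hp G (F.res hU), F.cv_res hU hc]

theorem Fn.exists_of_grp (F : Fn Y G) (hU : U ⊆ Y) (hUp : IsPathConnected U) (x : U) (w : G)
    {H : Type} [Group H] (φ : F.grp hU x w →* H) :
    ∃ F' : Fn U H, (∀ p : Path x x, F'.v p = φ ⟨w * (F.res hU).v p * w⁻¹, p, rfl⟩) ∧
      ∀ (c : ℝ → Z) (u v : ℝ), Cv U c u v → c u = x → c v = x →
        ∀ h : w * F.cv c u v * w⁻¹ ∈ F.grp hU x w, F'.cv c u v = φ ⟨_, h⟩ := by
  haveI : PathConnectedSpace U := isPathConnected_iff_pathConnectedSpace.1 hUp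
  let γ : ∀ y : U, Path x y := fun y => (PathConnectedSpace.joined x y).somePath
  let β : ∀ y : U, Path x y := fun y => (γ x).symm.trans (γ y)
  have hβ : (F.res hU).v (β x) = 1 := by
    change (F.res hU).v ((γ x).symm.trans (γ x)) = 1
    rw [(F.res hU).trans, (F.res hU).v_symm, inv_mul_cancel]
  have e : ∀ (y y' : U) (p : Path y y') (b : Path x y) (b' : Path x y'),
      (F.res hU).v ((b.trans p).trans b'.symm) =
        (F.res hU).v b * (F.res hU).v p * ((F.res hU).v b')⁻¹ := by
    intro y y' p b b'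
    rw [(F.res hU).trans, (F.res hU).trans, (F.res hU).v_symm]
  let F' : Fn U H :=
    { v := fun {y y'} p =>
        φ ⟨w * (F.res hU).v (((β y).trans p).trans (β y').symm) * w⁻¹, _, rfl⟩
      homo := by
        intro y y' p q hpq
        refine congrArg φ (Subtype.ext ?_)
        change w * (F.res hU).v (((β y).trans p).trans (β y').symm) * w⁻¹ =
          w * (F.res hU).v (((β y).trans q).trans (β y').symm) * w⁻¹
        rw [e, e, (F.res hU).homo hpq]
      trans := by
        intro y y' y'' p q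
        rw [← map_mul]
        refine congrArg φ (Subtype.ext ?_)
        change w * (F.res hU).v (((β y).trans (p.trans q)).trans (β y'').symm) * w⁻¹ =
          (w * (F.res hU).v (((β y).trans p).trans (β y').symm) * w⁻¹) *
            (w * (F.res hU).v (((β y').trans q).trans (β y'').symm) * w⁻¹)
        rw [e, e, e, (F.res hU).trans p q]
        group }
  have key : ∀ p : Path x x, F'.v p = φ ⟨w * (F.res hU).v p * w⁻¹, p, rfl⟩ := by
    intro p
    refine congrArg φ (Subtype.ext ?_)
    change w * (F.res hU).v (((β x).trans p).trans (β x).symm) * w⁻¹ =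
      w * (F.res hU).v p * w⁻¹
    rw [e, hβ, one_mul, inv_one, mul_one]
  refine ⟨F', key, ?_⟩
  intro c u v hc hu hv h
  obtain ⟨p, hp⟩ := hc.exists_path hu hv
  rw [← hp H F', key p]
  refine congrArg φ (Subtype.ext ?_)
  change w * (F.res hU).v p * w⁻¹ = w * F.cv c u v * w⁻¹
  rw [hp G (F.res hU), F.cv_res hU hc]

end Pool.Agent.EBS
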