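import Pool.Agent.EBS.Defs

/-!
# Functionals on path classes: definitions

`Y` is a subset of a topological space `Z` and `H` a group. A functional `F : Fn Y H` assigns to
every path in `Y` an element of `H`, depends only on the homotopy class (with fixed end points)
and is multiplicative. `F.cv c u v` is the value on the curve `c : ℝ → Z`, restricted to `[u, v]`
(`1` if `c` is not a curve in `Y` on `[u, v]`); `F.sv g P Q` is the value on `g` restricted to the
straight segment from `P` to `Q`.
-/

set_option autoImplicit false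

noncomputable section

open Set Topology unitInterval

namespace Pool.Agent.EBS

variable {Z : Type} [TopologicalSpace Z]

/-- `c` is a curve in the set `Y` on the interval `[u, v]`. -/
structure Cv (Y : Set Z) (c : ℝ → Z) (u v : ℝ) : Prop where
  le : u ≤ v
  cont : ContinuousOn c (Icc u v)
  mem : ∀ t ∈ Icc u v, c t ∈ Y

theorem Cv.left {Y : Set Z} {c : ℝ → Z} {u v : ℝ} (h : Cv Y c u v) : c u ∈ Y :=
  h.mem u ⟨le_rfl, h.le⟩

theorem Cv.right {Y : Set Z} {c : ℝ → Z} {u v : ℝ} (h : Cv Y c u v) : c v ∈ Y :=
  h.mem v ⟨h.le, le_rfl⟩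

theorem param_mem {u v : ℝ} (h : u ≤ v) (t : I) : u + t * (v - u) ∈ Icc u v := by
  have h0 := t.2.1
  have h1 := t.2.2
  constructor <;> nlinarith

/-- The curve as a path in `Y`. -/
def Cv.path {Y : Set Z} {c : ℝ → Z} {u v : ℝ} (h : Cv Y c u v) :
    Path (⟨c u, h.left⟩ : Y) ⟨c v, h.right⟩ where
  toFun t := ⟨c (u + t * (v - u)), h.mem _ (param_mem h.le t)⟩
  continuous_toFun := Continuous.subtype_mk
    (h.cont.comp_continuous (by fun_prop) fun t => param_mem h.le t) _
  source' := by simp
  target' := by simp

/-- A multiplicative functional on homotopy classes of paths in the set `Y`. -/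
structure Fn (Y : Set Z) (H : Type) [Group H] where
  /-- the value on a path -/
  v : ∀ {x y : Y}, Path x y → H
  homo : ∀ {x y : Y} {p q : Path x y}, p.Homotopic q → v p = v q
  trans : ∀ {x y z : Y} (p : Path x y) (q : Path y z), v (p.trans q) = v p * v q

open Classical in
/-- The value on a curve. -/
def Fn.cv {Y : Set Z} {H : Type} [Group H] (F : Fn Y H) (c : ℝ → Z) (u v : ℝ) : H :=
  if h : Cv Y c u v then F.v h.path else 1

/-- The value on the image of a straight segment. -/
def Fn.sv {Y : Set Z} {H : Type} [Group H] (F : Fn Y H) {E : Type} [AddCommGroup E] [Module ℝ E]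
    (g : E → Z) (P Q : E) : H := F.cv (fun t => g (AffineMap.lineMap P Q t)) 0 1

/-- Restriction to a smaller set. -/
def Fn.res {Y : Set Z} {H : Type} [Group H] (F : Fn Y H) {Y' : Set Z} (h : Y' ⊆ Y) : Fn Y' H where
  v p := F.v (p.map (continuous_inclusion h))
  homo hpq := F.homo (hpq.map ⟨_, continuous_inclusion h⟩)
  trans p q := by
    rw [Path.map_trans]
    exact F.trans _ _

/-- Composition with a homomorphism. -/
def Fn.hom {Y : Set Z} {H H' : Type} [Group H] [Group H'] (F : Fn Y H) (f : H →* H') :
    Fn Y H' where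
  v p := f (F.v p)
  homo hpq := by rw [F.homo hpq]
  trans p q := by rw [F.trans, map_mul]

/-- Pull-back by a continuous map. -/
def Fn.comap {Z' : Type} [TopologicalSpace Z'] {Y : Set Z} {Y' : Set Z'} {H : Type} [Group H]
    (F : Fn Y H) (r : C(Y', Y)) : Fn Y' H where
  v p := F.v (p.map r.continuous)
  homo hpq := F.homo (hpq.map r)
  trans p q := by
    rw [Path.map_trans]
    exact F.trans _ _

end Pool.Agent.EBS
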