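import Pool.Agent.EBS.GDefs

/-!
# G01: the functions `at1` and `rho`

`at1 x = arctan x / π`, `rho x = 1/2 + at1 x`. Use `Real.arctan_strictMono`, `Real.arctan_one`,
`Real.arctan_zero`, `Real.arctan_neg`, `Real.arctan_lt_pi_div_two`, `Real.neg_pi_div_two_lt_arctan`,
`Real.continuous_arctan`; `exists_at1`: `x = tan (π s)`, `Real.arctan_tan`.
`abs_at1_le`: `|at1 x| ≤ 1/4 ↔ -at1 1 ≤ at1 x ≤ at1 1 ↔ -1 ≤ x ≤ 1` by strict monotonicity
(`StrictMono.le_iff_le`), `at1_neg`. `rho_mem`: the same (`rho x = 1/2 + at1 x`).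
-/

set_option autoImplicit false

noncomputable section

open Set Topology unitInterval

namespace Pool.Agent.EBS

private theorem at1_def (x : ℝ) : at1 x = Real.arctan x / Real.pi := rfl

private theorem rho_def (x : ℝ) : rho x = 1 / 2 + at1 x := rfl

theorem continuous_at1 : Continuous at1 :=
  Real.continuous_arctan.div_const _

theorem continuous_rho : Continuous rho :=
  continuous_const.add continuous_at1

theorem at1_strictMono : StrictMono at1 := fun x y h => by
  rw [at1_def, at1_def]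
  exact div_lt_div_of_pos_right (Real.arctan_strictMono h) Real.pi_pos

theorem at1_zero : at1 0 = 0 := by
  rw [at1_def, Real.arctan_zero, zero_div]

theorem at1_one : at1 1 = 1 / 4 := by
  rw [at1_def, Real.arctan_one]
  field_simp

theorem at1_neg (x : ℝ) : at1 (-x) = -at1 x := by
  rw [at1_def, at1_def, Real.arctan_neg, neg_div]

theorem at1_lt (x : ℝ) : at1 x < 1 / 2 := by
  rw [at1_def, div_lt_iff₀ Real.pi_pos]
  have := Real.arctan_lt_pi_div_two x
  linarith

theorem lt_at1 (x : ℝ) : -(1 / 2) < at1 x := by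
  rw [at1_def, lt_div_iff₀ Real.pi_pos]
  have := Real.neg_pi_div_two_lt_arctan x
  linarith

theorem exists_at1 {s : ℝ} (h1 : -(1 / 2) < s) (h2 : s < 1 / 2) : ∃ x, at1 x = s := by
  refine ⟨Real.tan (Real.pi * s), ?_⟩
  have hp := Real.pi_pos
  rw [at1_def, Real.arctan_tan (by nlinarith) (by nlinarith)]
  field_simp

private theorem neg_one_eq : at1 (-1) = -(1 / 4) := by rw [at1_neg, at1_one]

theorem abs_at1_le {x : ℝ} : |at1 x| ≤ 1 / 4 ↔ |x| ≤ 1 := by
  rw [abs_le, abs_le, ← neg_one_eq, ← at1_one, at1_strictMono.le_iff_le,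
    at1_strictMono.le_iff_le]

theorem abs_at1_lt {x : ℝ} : |at1 x| < 1 / 4 ↔ |x| < 1 := by
  rw [abs_lt, abs_lt, ← neg_one_eq, ← at1_one, at1_strictMono.lt_iff_lt,
    at1_strictMono.lt_iff_lt]

theorem rho_strictMono : StrictMono rho := fun x y h => by
  rw [rho_def, rho_def]
  have := at1_strictMono h
  linarith

theorem rho_zero : rho 0 = 1 / 2 := by
  rw [rho_def, at1_zero, add_zero]

theorem rho_one : rho 1 = 3 / 4 := by
  rw [rho_def, at1_one]
  norm_num

theorem rho_neg_one : rho (-1) = 1 / 4 := by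
  rw [rho_def, neg_one_eq]
  norm_num

theorem rho_pos (x : ℝ) : 0 < rho x := by
  rw [rho_def]
  have := lt_at1 x
  linarith

theorem rho_lt_one (x : ℝ) : rho x < 1 := by
  rw [rho_def]
  have := at1_lt x
  linarith

theorem exists_rho {r : ℝ} (h1 : 0 < r) (h2 : r < 1) : ∃ x, rho x = r := by
  obtain ⟨x, hx⟩ := exists_at1 (s := r - 1 / 2) (by linarith) (by linarith)
  exact ⟨x, by rw [rho_def, hx]; ring⟩

theorem rho_mem {x : ℝ} : (1 / 4 ≤ rho x ∧ rho x ≤ 3 / 4) ↔ |x| ≤ 1 := by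
  rw [← abs_at1_le, abs_le, rho_def]
  constructor <;> rintro ⟨h1, h2⟩ <;> constructor <;> linarith

theorem rho_mem' {x : ℝ} : (1 / 4 < rho x ∧ rho x < 3 / 4) ↔ |x| < 1 := by
  rw [← abs_at1_lt, abs_lt, rho_def]
  constructor <;> rintro ⟨h1, h2⟩ <;> constructor <;> linarith

end Pool.Agent.EBS
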