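import Pool.Agent.EBS.G01
import Pool.Agent.EBS.F05

/-!
# G02: half circles, the direction of a complex number

* `re_ec`: `Circle.coe_exp`, `Complex.exp_mul_I`, real part; so `re (ec s) = cos (2 π s)`.
* `re_ec_nonneg`, `re_ec_pos`: for `|s| < 1/2` the sign of `cos (2 π s)`, `|2 π s| < π`:
  `Real.cos_nonneg_of_neg_pi_div_two_le_of_le`, `Real.cos_neg_of_pi_div_two_lt_of_lt`,
  `Real.cos_abs`,
  etc. `re_ec_nonpos`, `re_ec_neg`: for `s ∈ [1/4, 3/4]`: `Real.cos_nonpos_of_pi_div_two_le_of_le`.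
* `exists_at1_ec`: `e = ec s` for some `s ∈ (-1/2, 1/2]` (`ec_surjective` and subtract an integer),
  and
  `s ≠ 1/2` since `ec (1/2) = -1`. Then `exists_at1`.
* `ec_at1_inj`: `ec_eq_iff`, the difference of two numbers in `(-1/2, 1/2)` is an integer only if
  they
  are equal; `at1_strictMono.injective`.
* `exists_of_re_nonpos`, `exists_of_re_neg`: `e = ec s` with `s ∈ [0, 1)`; if `s ≤ 1/4` or `s ≥ 3/4`
  the real part is `≥ 0` (and `> 0` unless `s = 1/4, 3/4`).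
* `cu`: `Circle.exp (arg ζ)`, `Complex.norm_mul_exp_arg_mul_I`. Continuity: `Circle` has the
  topology
  induced from `ℂ` (`Circle.isEmbedding_coe` or `Topology.IsInducing.subtypeVal`), and
  `(cu ζ : ℂ) = ζ / ‖ζ‖` for `ζ ≠ 0`.
* `Deg.of_re_nonpos`: let `θ` be a continuous lift of `γ` on `[u, v]` with
  `θ u ∈ [1/4, 3/4]` (`exists_lift`). Then `θ t ∈ [1/4, 3/4]` for all `t`: the values of `θ` lie in
  the
  union of the intervals `[n + 1/4, n + 3/4]`; if `θ t₁` is outside `[1/4, 3/4]` then by the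
  intermediate value theorem some `θ t` is `1/4 - δ` or `3/4 + δ` with small `δ > 0`
  (for instance `0` or `1`, which are not in the union: `ec 0 = 1` has real part `1`).
  `θ v - θ u` is an integer of absolute value `≤ 1/2`, so it is `0`.
-/

set_option autoImplicit false

noncomputable section

open Set Topology unitInterval

namespace Pool.Agent.EBS

theorem re_ec (s : ℝ) : (ec s : ℂ).re = Real.cos (2 * Real.pi * s) := by
  unfold ec
  rw [Circle.coe_exp]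
  exact Complex.exp_ofReal_mul_I_re _

private theorem cos_abs_eq (s : ℝ) :
    Real.cos (2 * Real.pi * s) = Real.cos (2 * Real.pi * |s|) := by
  rw [← Real.cos_abs (2 * Real.pi * s), abs_mul, abs_of_pos (by positivity)]

theorem re_ec_nonneg {s : ℝ} (h : |s| < 1 / 2) : 0 ≤ (ec s : ℂ).re ↔ |s| ≤ 1 / 4 := by
  rw [re_ec, cos_abs_eq]
  have hpi := Real.pi_pos
  have h0 := abs_nonneg s
  constructor
  · intro h1
    by_contra h2
    rw [not_le] at h2
    have h3 := Real.cos_neg_of_pi_div_two_lt_of_lt (x := 2 * Real.pi * |s|) (by nlinarith)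
      (by nlinarith)
    linarith
  · intro h1
    exact Real.cos_nonneg_of_neg_pi_div_two_le_of_le (by nlinarith) (by nlinarith)

theorem re_ec_pos {s : ℝ} (h : |s| < 1 / 2) : 0 < (ec s : ℂ).re ↔ |s| < 1 / 4 := by
  rw [re_ec, cos_abs_eq]
  have hpi := Real.pi_pos
  have h0 := abs_nonneg s
  constructor
  · intro h1
    by_contra h2
    rw [not_lt] at h2
    have h3 := Real.cos_nonpos_of_pi_div_two_le_of_le (x := 2 * Real.pi * |s|) (by nlinarith)
      (by nlinarith)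
    linarith
  · intro h1
    exact Real.cos_pos_of_mem_Ioo ⟨by nlinarith, by nlinarith⟩

theorem re_ec_nonpos {s : ℝ} (h : s ∈ Icc (1 / 4 : ℝ) (3 / 4)) : (ec s : ℂ).re ≤ 0 := by
  rw [re_ec]
  have hpi := Real.pi_pos
  exact Real.cos_nonpos_of_pi_div_two_le_of_le (by nlinarith [h.1]) (by nlinarith [h.2])

theorem re_ec_neg {s : ℝ} (h : s ∈ Ioo (1 / 4 : ℝ) (3 / 4)) : (ec s : ℂ).re < 0 := by
  rw [re_ec]
  have hpi := Real.pi_pos
  exact Real.cos_neg_of_pi_div_two_lt_of_lt (by nlinarith [h.1]) (by nlinarith [h.2])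

private theorem ec_half : (ec (1 / 2) : ℂ) = -1 := by
  unfold ec
  rw [Circle.coe_exp]
  have e : (((2 * Real.pi * (1 / 2) : ℝ)) : ℂ) * Complex.I = Real.pi * Complex.I := by
    push_cast
    ring
  rw [e, Complex.exp_pi_mul_I]

theorem exists_at1_ec {e : Circle} (h : (e : ℂ) ≠ -1) : ∃ x, ec (at1 x) = e := by
  obtain ⟨r, hr⟩ := ec_surjective e
  have h1 : ec (r - round r) = e := by
    rw [← hr, ec_eq_iff]
    exact ⟨-round r, by push_cast; ring⟩
  have h2 := abs_le.1 (abs_sub_round r)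
  have h3 : r - round r ≠ 1 / 2 := by
    intro h3
    rw [h3] at h1
    rw [← h1] at h
    exact h ec_half
  have h4 : r - round r ≠ -(1 / 2) := by
    intro h4
    have h5 : ec (-(1 / 2)) = ec (1 / 2) := ec_eq_iff.2 ⟨-1, by norm_num⟩
    rw [h4, h5] at h1
    rw [← h1] at h
    exact h ec_half
  obtain ⟨x, hx⟩ := exists_at1 (lt_of_le_of_ne h2.1 (Ne.symm h4)) (lt_of_le_of_ne h2.2 h3)
  exact ⟨x, by rw [hx, h1]⟩

theorem ec_at1_ne (x : ℝ) : (ec (at1 x) : ℂ) ≠ -1 := by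
  intro h
  have h1 : ec (at1 x) = ec (1 / 2) := Circle.ext (by rw [h, ec_half])
  obtain ⟨n, hn⟩ := ec_eq_iff.1 h1
  have h2 := at1_lt x
  have h3 := lt_at1 x
  rw [hn] at h2 h3
  have h4 : (n : ℝ) < (0 : ℤ) := by
    push_cast
    linarith
  have h5 : ((-1 : ℤ) : ℝ) < n := by
    push_cast
    linarith
  have h6 := Int.cast_lt.1 h4
  have h7 := Int.cast_lt.1 h5
  omega

theorem ec_at1_inj {x y : ℝ} (h : ec (at1 x) = ec (at1 y)) : x = y := by
  obtain ⟨n, hn⟩ := ec_eq_iff.1 h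
  have h2 := at1_lt x
  have h3 := lt_at1 x
  have h4 := at1_lt y
  have h5 := lt_at1 y
  have h6 : (n : ℝ) < (1 : ℤ) := by
    push_cast
    linarith
  have h7 : ((-1 : ℤ) : ℝ) < n := by
    push_cast
    linarith
  have h8 := Int.cast_lt.1 h6
  have h9 := Int.cast_lt.1 h7
  have h10 : n = 0 := by omega
  rw [h10, Int.cast_zero, add_zero] at hn
  exact at1_strictMono.injective hn

private theorem abs_at1_lt_half (x : ℝ) : |at1 x| < 1 / 2 := abs_lt.2 ⟨lt_at1 x, at1_lt x⟩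

theorem re_ec_at1_nonneg {x : ℝ} : 0 ≤ (ec (at1 x) : ℂ).re ↔ |x| ≤ 1 :=
  (re_ec_nonneg (abs_at1_lt_half x)).trans abs_at1_le

theorem re_ec_at1_pos {x : ℝ} : 0 < (ec (at1 x) : ℂ).re ↔ |x| < 1 :=
  (re_ec_pos (abs_at1_lt_half x)).trans abs_at1_lt

private theorem re_pos_of_lt {s : ℝ} (h0 : 0 ≤ s) (h : s < 1 / 4) : 0 < (ec s : ℂ).re := by
  have h1 : |s| < 1 / 4 := by rwa [abs_of_nonneg h0]
  exact (re_ec_pos (h1.trans (by norm_num))).2 h1

private theorem re_pos_of_gt {s : ℝ} (h0 : s ≤ 1) (h : 3 / 4 < s) : 0 < (ec s : ℂ).re := by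
  have e : ec s = ec (s - 1) := ec_eq_iff.2 ⟨1, by push_cast; ring⟩
  have h1 : |s - 1| < 1 / 4 := by
    rw [abs_of_nonpos (by linarith)]
    linarith
  rw [e]
  exact (re_ec_pos (h1.trans (by norm_num))).2 h1

theorem exists_of_re_nonpos {e : Circle} (h : (e : ℂ).re ≤ 0) :
    ∃ s ∈ Icc (1 / 4 : ℝ) (3 / 4), ec s = e := by
  obtain ⟨r, hr⟩ := ec_surjective e
  have h1 : ec (Int.fract r) = e := by
    rw [← hr, ec_eq_iff]
    exact ⟨-⌊r⌋, by rw [Int.cast_neg, ← sub_eq_add_neg]; rfl⟩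
  refine ⟨Int.fract r, ⟨?_, ?_⟩, h1⟩
  · by_contra h2
    rw [not_le] at h2
    have h3 := re_pos_of_lt (Int.fract_nonneg r) h2
    rw [h1] at h3
    linarith
  · by_contra h2
    rw [not_le] at h2
    have h3 := re_pos_of_gt (Int.fract_lt_one r).le h2
    rw [h1] at h3
    linarith

theorem exists_of_re_neg {e : Circle} (h : (e : ℂ).re < 0) :
    ∃ s ∈ Ioo (1 / 4 : ℝ) (3 / 4), ec s = e := by
  obtain ⟨s, hs, he⟩ := exists_of_re_nonpos h.le
  refine ⟨s, ⟨lt_of_le_of_ne hs.1 ?_, lt_of_le_of_ne hs.2 ?_⟩, he⟩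
  · intro h1
    rw [← h1] at he
    have h2 : 0 ≤ (ec (1 / 4) : ℂ).re := (re_ec_nonneg (by norm_num [abs_of_pos])).2
      (by norm_num [abs_of_pos])
    rw [he] at h2
    linarith
  · intro h1
    have e1 : ec s = ec (-(1 / 4)) := ec_eq_iff.2 ⟨1, by rw [h1]; norm_num⟩
    have h2 : 0 ≤ (ec (-(1 / 4)) : ℂ).re := (re_ec_nonneg (by norm_num [abs_of_pos])).2
      (by norm_num [abs_of_pos])
    rw [← e1, he] at h2
    linarith

theorem norm_mul_cu (ζ : ℂ) : (‖ζ‖ : ℂ) * cu ζ = ζ := by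
  unfold cu
  rw [Circle.coe_exp]
  exact Complex.norm_mul_exp_arg_mul_I ζ

theorem coe_cu {ζ : ℂ} (h : ζ ≠ 0) : (cu ζ : ℂ) = ζ / ‖ζ‖ := by
  have h1 : (‖ζ‖ : ℂ) ≠ 0 := by
    rw [Complex.ofReal_ne_zero]
    exact norm_ne_zero_iff.2 h
  rw [eq_div_iff h1, mul_comm]
  exact norm_mul_cu ζ

theorem cu_mul {r : ℝ} (hr : 0 < r) (X : Circle) : cu (r * X) = X := by
  have h1 : (r : ℂ) ≠ 0 := Complex.ofReal_ne_zero.2 hr.ne'
  refine Circle.ext ?_
  rw [coe_cu (mul_ne_zero h1 (Circle.coe_ne_zero X)), norm_mul, Circle.norm_coe, mul_one,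
    Complex.norm_real, Real.norm_of_nonneg hr.le, mul_div_cancel_left₀ _ h1]

theorem cu_coe (X : Circle) : cu X = X := Circle.exp_arg X

theorem continuousOn_cu : ContinuousOn cu {0}ᶜ := by
  have h1 : Topology.IsInducing (fun z : Circle => (z : ℂ)) := Topology.IsInducing.subtypeVal
  rw [h1.continuousOn_iff]
  have h2 : ContinuousOn (fun ζ : ℂ => ζ / (‖ζ‖ : ℂ)) {0}ᶜ := by
    refine ContinuousOn.div continuousOn_id (by fun_prop) fun ζ hζ => ?_
    rw [Complex.ofReal_ne_zero]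
    exact norm_ne_zero_iff.2 hζ
  exact h2.congr fun ζ hζ => coe_cu hζ

theorem Deg.of_re_nonpos {γ : ℝ → Circle} {u v : ℝ} (huv : u ≤ v)
    (hc : ContinuousOn γ (Icc u v)) (he : γ u = γ v) (h : ∀ t ∈ Icc u v, (γ t : ℂ).re ≤ 0) :
    Deg γ u v 0 := by
  obtain ⟨r, hr, hre⟩ := exists_of_re_nonpos (h u ⟨le_rfl, huv⟩)
  obtain ⟨θ, hθ, hθu, hθγ⟩ := exists_lift huv hc hre
  have key : ∀ t ∈ Icc u v, θ t ∈ Icc (1 / 4 : ℝ) (3 / 4) := by
    intro t ht
    constructor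
    · by_contra h2
      rw [not_le] at h2
      have h3 : max (θ t) 0 ∈ Icc (θ t) (θ u) := by
        refine ⟨le_max_left _ _, max_le ?_ ?_⟩
        · rw [hθu]
          linarith [hr.1]
        · rw [hθu]
          linarith [hr.1]
      obtain ⟨t', ht', h4⟩ := intermediate_value_Icc' ht.1 hθ.continuousOn h3
      have h5 := h t' ⟨ht'.1, ht'.2.trans ht.2⟩
      rw [← hθγ t' ⟨ht'.1, ht'.2.trans ht.2⟩, h4] at h5
      have h6 := re_pos_of_lt (le_max_right (θ t) 0) (max_lt h2 (by norm_num))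
      linarith
    · by_contra h2
      rw [not_le] at h2
      have h3 : min (θ t) 1 ∈ Icc (θ u) (θ t) := by
        refine ⟨le_min ?_ ?_, min_le_left _ _⟩
        · rw [hθu]
          linarith [hr.2]
        · rw [hθu]
          linarith [hr.2]
      obtain ⟨t', ht', h4⟩ := intermediate_value_Icc ht.1 hθ.continuousOn h3
      have h5 := h t' ⟨ht'.1, ht'.2.trans ht.2⟩
      rw [← hθγ t' ⟨ht'.1, ht'.2.trans ht.2⟩, h4] at h5
      have h6 := re_pos_of_gt (min_le_right (θ t) 1) (lt_min h2 (by norm_num))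
      linarith
  have h1 : EBS.ec (θ v) = EBS.ec (θ u) := by
    rw [hθγ v ⟨huv, le_rfl⟩, hθγ u ⟨le_rfl, huv⟩, he]
  obtain ⟨n, hn⟩ := ec_eq_iff.1 h1
  have hv := key v ⟨huv, le_rfl⟩
  have hu := key u ⟨le_rfl, huv⟩
  have h6 : (n : ℝ) < (1 : ℤ) := by
    push_cast
    linarith [hv.2, hu.1]
  have h7 : ((-1 : ℤ) : ℝ) < n := by
    push_cast
    linarith [hv.1, hu.2]
  have h8 := Int.cast_lt.1 h6
  have h9 := Int.cast_lt.1 h7
  have h10 : n = 0 := by omega
  refine ⟨θ, hθ.continuousOn, hθγ, ?_⟩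
  rw [hn, h10]
  ring

end Pool.Agent.EBS
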