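import Pool.Agent.EBS.GDefs

/-!
# G03: the points `J X Y r` of the sphere

For `r ∈ [0, 1]` (`cl_of_mem`): `J X Y r = (√(1 - r) X, √r Y)`; `cu ζ = Circle.exp (arg ζ)` is the
direction of `ζ`.
* `continuous_J`: `Continuous.subtype_mk`, everything is continuous (`Real.continuous_sqrt`, `cl` is
  continuous, `Circle` → `ℂ` is continuous).
* `norm_J1`, `norm_J2`: as in `J_aux`.
* `cu_J1`, `cu_J2`: `cu (s * X) = X` for `s > 0` (`Complex.arg_real_mul`, `Circle.exp_arg`: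
  `Circle.exp (arg X) = X`).
* `exists_J`: `X = cu z₁`, `Y = cu z₂`, `r = ‖z₂‖²`; `‖ζ‖ * cu ζ = ζ`
  (`Complex.norm_mul_exp_arg_mul_I`),
  `√(‖z₂‖²) = ‖z₂‖`, `√(1 - ‖z₂‖²) = ‖z₁‖`.
* `J_inj`: compare `‖z₂‖²` and the directions (`0 < r < 1`).
-/

set_option autoImplicit false

noncomputable section

open Set Topology unitInterval

namespace Pool.Agent.EBS

private theorem g3_cl : Continuous cl := by
  unfold cl
  fun_prop

private theorem g3_coe : Continuous fun x : Circle => (x : ℂ) := continuous_subtype_val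

theorem continuous_J : Continuous fun p : Circle × Circle × ℝ => J p.1 p.2.1 p.2.2 := by
  unfold J
  refine Continuous.subtype_mk ?_ _
  have h1 : Continuous fun p : Circle × Circle × ℝ => cl p.2.2 :=
    g3_cl.comp (continuous_snd.comp continuous_snd)
  refine Continuous.prodMk ?_ ?_
  · exact (Complex.continuous_ofReal.comp (Real.continuous_sqrt.comp
      (continuous_const.sub h1))).mul (g3_coe.comp continuous_fst)
  · exact (Complex.continuous_ofReal.comp (Real.continuous_sqrt.comp h1)).mul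
      (g3_coe.comp (continuous_fst.comp continuous_snd))

private theorem g3_fst (X Y : Circle) {r : ℝ} (h0 : 0 ≤ r) (h1 : r ≤ 1) :
    (J X Y r : ℂ × ℂ).1 = ((√(1 - r) : ℝ) : ℂ) * (X : ℂ) := by
  show ((√(1 - cl r) : ℝ) : ℂ) * (X : ℂ) = _
  rw [cl_of_mem h0 h1]

private theorem g3_snd (X Y : Circle) {r : ℝ} (h0 : 0 ≤ r) (h1 : r ≤ 1) :
    (J X Y r : ℂ × ℂ).2 = ((√r : ℝ) : ℂ) * (Y : ℂ) := by
  show ((√(cl r) : ℝ) : ℂ) * (Y : ℂ) = _
  rw [cl_of_mem h0 h1]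

private theorem g3_norm (X : Circle) {s : ℝ} (h : 0 ≤ s) :
    ‖((√s : ℝ) : ℂ) * (X : ℂ)‖ ^ 2 = s := by
  rw [norm_mul, Circle.norm_coe, mul_one, Complex.norm_real,
    Real.norm_of_nonneg (Real.sqrt_nonneg _), Real.sq_sqrt h]

private theorem g3_cu (X : Circle) {s : ℝ} (h : 0 < s) :
    cu (((√s : ℝ) : ℂ) * (X : ℂ)) = X := by
  unfold cu
  rw [Complex.arg_real_mul _ (Real.sqrt_pos.2 h)]
  exact Circle.exp_arg X

theorem norm_J1 (X Y : Circle) {r : ℝ} (h0 : 0 ≤ r) (h1 : r ≤ 1) :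
    ‖(J X Y r : ℂ × ℂ).1‖ ^ 2 = 1 - r := by
  rw [g3_fst X Y h0 h1, g3_norm X (by linarith)]

theorem norm_J2 (X Y : Circle) {r : ℝ} (h0 : 0 ≤ r) (h1 : r ≤ 1) :
    ‖(J X Y r : ℂ × ℂ).2‖ ^ 2 = r := by
  rw [g3_snd X Y h0 h1, g3_norm Y h0]

theorem cu_J1 (X Y : Circle) {r : ℝ} (h0 : 0 ≤ r) (h1 : r < 1) : cu (J X Y r : ℂ × ℂ).1 = X := by
  rw [g3_fst X Y h0 h1.le, g3_cu X (by linarith)]

theorem cu_J2 (X Y : Circle) {r : ℝ} (h0 : 0 < r) (h1 : r ≤ 1) : cu (J X Y r : ℂ × ℂ).2 = Y := by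
  rw [g3_snd X Y h0.le h1, g3_cu Y h0]

theorem J_zero (X Y Y' : Circle) : J X Y 0 = J X Y' 0 := by
  refine Subtype.ext (Prod.ext ?_ ?_)
  · rw [g3_fst X Y le_rfl zero_le_one, g3_fst X Y' le_rfl zero_le_one]
  · rw [g3_snd X Y le_rfl zero_le_one, g3_snd X Y' le_rfl zero_le_one]
    simp

theorem J_one (X X' Y : Circle) : J X Y 1 = J X' Y 1 := by
  refine Subtype.ext (Prod.ext ?_ ?_)
  · rw [g3_fst X Y zero_le_one le_rfl, g3_fst X' Y zero_le_one le_rfl]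
    simp
  · rw [g3_snd X Y zero_le_one le_rfl, g3_snd X' Y zero_le_one le_rfl]

private theorem g3_polar (ζ : ℂ) : ((‖ζ‖ : ℝ) : ℂ) * ((cu ζ : Circle) : ℂ) = ζ := by
  unfold cu
  rw [Circle.coe_exp]
  exact Complex.norm_mul_exp_arg_mul_I ζ

theorem exists_J (z : S3) : ∃ X Y r, 0 ≤ r ∧ r ≤ 1 ∧ J X Y r = z := by
  obtain ⟨⟨a, b⟩, h⟩ := z
  have h' : ‖a‖ ^ 2 + ‖b‖ ^ 2 = 1 := h
  have h0 : 0 ≤ ‖b‖ ^ 2 := by positivity
  have h1 : ‖b‖ ^ 2 ≤ 1 := by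
    have := sq_nonneg ‖a‖
    linarith
  refine ⟨cu a, cu b, ‖b‖ ^ 2, h0, h1, Subtype.ext (Prod.ext ?_ ?_)⟩
  · rw [g3_fst _ _ h0 h1]
    have h2 : 1 - ‖b‖ ^ 2 = ‖a‖ ^ 2 := by linarith
    rw [h2, Real.sqrt_sq (norm_nonneg a)]
    exact g3_polar a
  · rw [g3_snd _ _ h0 h1, Real.sqrt_sq (norm_nonneg b)]
    exact g3_polar b

theorem J_inj {X Y X' Y' : Circle} {r r' : ℝ} (h0 : 0 < r) (h1 : r < 1) (h0' : 0 ≤ r')
    (h1' : r' ≤ 1) (h : J X Y r = J X' Y' r') : X = X' ∧ Y = Y' ∧ r = r' := by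
  have hr : r = r' := by
    have h2 := norm_J2 X Y h0.le h1.le
    rw [h, norm_J2 X' Y' h0' h1'] at h2
    exact h2.symm
  subst hr
  refine ⟨?_, ?_, rfl⟩
  · have h2 := cu_J1 X Y h0.le h1
    rw [h, cu_J1 X' Y' h0.le h1] at h2
    exact h2.symm
  · have h2 := cu_J2 X Y h0 h1.le
    rw [h, cu_J2 X' Y' h0 h1.le] at h2
    exact h2.symm

end Pool.Agent.EBS
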