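import Pool.Agent.EBS.G02
import Pool.Agent.EBS.G03

/-!
# G04: the tube around the torus knot

* `isOpenEmbedding_of_inv`: general topology. `f` is injective (left inverse) and a homeomorphism
  onto the open set `W` (for an open set `O` of `X` the image is `W ∩ g ⁻¹' O`, open since `g` is
  continuous on the open set `W`: `ContinuousOn.isOpen_inter_preimage`). So `f` is continuous,
  injective and open: `IsOpenEmbedding.of_continuous_injective_isOpenMap`.
* `f1_ec`: `ec (3 α + s) = ec α ^ 3 * ec s`, etc. (`ec_add`, `ec_zpow` or `ec` of sums).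
* `continuous_f1`: `continuous_J` and the continuity of the components.
* `isOpenEmbedding_f1`: `W = {z | 0 < ‖z₁‖, 0 < ‖z₂‖, eS z ≠ -1}` with
  `eS z = cu z₂ ^ 3 * (cu z₁ ^ 5)⁻¹`. The inverse is
  `g z = (cu z₁ ^ 2 * (cu z₂)⁻¹, ζ)`, `re ζ = tan (π s)`, `s = arg (eS z) / (2 π) ∈ (-1/2, 1/2)`,
  `im ζ = tan (π (‖z₂‖² - 1/2))`. Continuity: `cu` is continuous away from `0`, `arg` is continuous
  on
  the slit plane (a point of the circle which is not `-1` lies in the slit plane), `tan` is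
  continuous at points with `cos ≠ 0`. For `z = J X Y r`: `cu z₁ = X`, `cu z₂ = Y`, `‖z₂‖² = r`; for
  `X = x³ e`, `Y = x⁵ e²` one has `X² Y⁻¹ = x`, `Y³ X⁻⁵ = e`, and conversely `x = X² Y⁻¹`,
  `e = Y³ X⁻⁵` give `x³ e = X`, `x⁵ e² = Y`. `at1 (tan (π s)) = s` for `|s| < 1/2`, `rho` is `1/2
  +` this.
* `f1_inj` and `range_f1` follow.
-/

set_option autoImplicit false

noncomputable section

open Set Topology unitInterval

namespace Pool.Agent.EBS

theorem isOpenEmbedding_of_inv {X Y : Type} [TopologicalSpace X] [TopologicalSpace Y] {f : X → Y}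
    (hf : Continuous f) {W : Set Y} (hW : IsOpen W) {g : Y → X} (hg : ContinuousOn g W)
    (hm : ∀ x, f x ∈ W) (hgf : ∀ x, g (f x) = x) (hfg : ∀ y ∈ W, f (g y) = y) :
    IsOpenEmbedding f := by
  refine IsOpenEmbedding.of_continuous_injective_isOpenMap hf ?_ ?_
  · intro x y hxy
    rw [← hgf x, hxy, hgf y]
  · intro O hO
    have h1 : f '' O = W ∩ g ⁻¹' O := by
      ext y
      constructor
      · rintro ⟨x, hx, rfl⟩
        refine ⟨hm x, ?_⟩
        rw [mem_preimage, hgf]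
        exact hx
      · rintro ⟨h2, h3⟩
        exact ⟨g y, h3, hfg y h2⟩
    rw [h1]
    exact hg.isOpen_inter_preimage hW hO

private theorem ec_npow (t : ℝ) (n : ℕ) : ec t ^ n = ec (n * t) := by
  have h := ec_zpow t n
  rw [zpow_natCast, Int.cast_natCast] at h
  exact h

theorem f1_ec (α : ℝ) (ζ : ℂ) : f1 (ec α, ζ) = Th1 α (at1 ζ.re) (rho ζ.im) := by
  unfold f1 Th1
  simp only
  rw [ec_npow, ec_npow, ← ec_add, ← ec_add]
  norm_num

theorem continuous_f1 : Continuous f1 := by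
  have hs : Continuous fun p : Circle × ℂ => at1 p.2.re :=
    continuous_at1.comp (Complex.continuous_re.comp continuous_snd)
  have h1 : Continuous fun p : Circle × ℂ => p.1 ^ 3 * ec (at1 p.2.re) :=
    (continuous_fst.pow 3).mul (continuous_ec.comp hs)
  have h2 : Continuous fun p : Circle × ℂ => p.1 ^ 5 * ec (2 * at1 p.2.re) :=
    (continuous_fst.pow 5).mul (continuous_ec.comp (continuous_const.mul hs))
  have h3 : Continuous fun p : Circle × ℂ => rho p.2.im :=
    continuous_rho.comp (Complex.continuous_im.comp continuous_snd)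
  exact continuous_J.comp (h1.prodMk (h2.prodMk h3))

private theorem tan_arg (x : ℝ) : Real.tan (Complex.arg (ec (at1 x) : ℂ) / 2) = x := by
  have h1 := at1_lt x
  have h2 := lt_at1 x
  have hpi := Real.pi_pos
  have h3 : Complex.arg (ec (at1 x) : ℂ) = 2 * Real.pi * at1 x := by
    unfold ec
    apply Circle.arg_exp
    · nlinarith
    · nlinarith
  have h4 : 2 * Real.pi * at1 x / 2 = Real.arctan x := by
    unfold at1
    field_simp
  rw [h3, h4, Real.tan_arctan]

private theorem ec_tan_arg {e : Circle} (h : (e : ℂ) ≠ -1) :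
    ec (at1 (Real.tan (Complex.arg (e : ℂ) / 2))) = e := by
  obtain ⟨x, hx⟩ := exists_at1_ec h
  rw [← hx, tan_arg]

private theorem tan_rho (x : ℝ) : Real.tan (Real.pi * (rho x - 1 / 2)) = x := by
  have h4 : Real.pi * (rho x - 1 / 2) = Real.arctan x := by
    unfold rho at1
    have := Real.pi_pos.ne'
    field_simp
    ring
  rw [h4, Real.tan_arctan]

private theorem rho_tan {r : ℝ} (h0 : 0 < r) (h1 : r < 1) :
    rho (Real.tan (Real.pi * (r - 1 / 2))) = r := by
  obtain ⟨x, hx⟩ := exists_rho h0 h1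
  rw [← hx, tan_rho]

/-- the coordinate `e` -/
private def g4e (z : S3) : Circle := cu (z : ℂ × ℂ).2 ^ 3 * (cu (z : ℂ × ℂ).1 ^ 5)⁻¹

/-- the inverse of `f1` -/
private def g4g (z : S3) : Circle × ℂ :=
  (cu (z : ℂ × ℂ).1 ^ 2 * (cu (z : ℂ × ℂ).2)⁻¹,
    ⟨Real.tan (Complex.arg (g4e z : ℂ) / 2), Real.tan (Real.pi * (‖(z : ℂ × ℂ).2‖ ^ 2 - 1 / 2))⟩)

/-- the part of the sphere with nonzero coordinates -/
private def W0 : Set S3 := {z | (z : ℂ × ℂ).1 ≠ 0 ∧ (z : ℂ × ℂ).2 ≠ 0}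

private theorem cont1 : Continuous fun z : S3 => (z : ℂ × ℂ).1 :=
  continuous_fst.comp continuous_subtype_val

private theorem cont2 : Continuous fun z : S3 => (z : ℂ × ℂ).2 :=
  continuous_snd.comp continuous_subtype_val

private theorem isOpen_W0 : IsOpen W0 :=
  (isOpen_ne_fun cont1 continuous_const).inter (isOpen_ne_fun cont2 continuous_const)

private theorem cu1 : ContinuousOn (fun z : S3 => cu (z : ℂ × ℂ).1) W0 :=
  continuousOn_cu.comp cont1.continuousOn fun _ hz => hz.1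

private theorem cu2 : ContinuousOn (fun z : S3 => cu (z : ℂ × ℂ).2) W0 :=
  continuousOn_cu.comp cont2.continuousOn fun _ hz => hz.2

private theorem cont_e : ContinuousOn g4e W0 := (cu2.pow 3).mul ((cu1.pow 5).inv)

private theorem ccoe : Continuous fun e : Circle => (e : ℂ) := by fun_prop

/-- the image of the tube -/
private def WW : Set S3 := W0 ∩ g4e ⁻¹' {e : Circle | (e : ℂ) ≠ -1}

private theorem isOpen_WW : IsOpen WW :=
  cont_e.isOpen_inter_preimage isOpen_W0 (isOpen_ne_fun ccoe continuous_const)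

private theorem slit {e : Circle} (h : (e : ℂ) ≠ -1) : (e : ℂ) ∈ Complex.slitPlane := by
  rw [Complex.mem_slitPlane_iff_arg]
  refine ⟨fun h1 => h ?_, Circle.coe_ne_zero e⟩
  have h2 := Complex.norm_mul_exp_arg_mul_I (e : ℂ)
  rw [h1, Circle.norm_coe, Complex.ofReal_one, one_mul, Complex.exp_pi_mul_I] at h2
  exact h2.symm

private theorem cont_g : ContinuousOn g4g WW := by
  have h1 : ContinuousOn (fun z : S3 => cu (z : ℂ × ℂ).1 ^ 2 * (cu (z : ℂ × ℂ).2)⁻¹) WW :=
    ((cu1.pow 2).mul cu2.inv).mono inter_subset_left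
  have h2 : ContinuousOn (fun z : S3 => Real.tan (Complex.arg (g4e z : ℂ) / 2)) WW := by
    have h3 : ContinuousOn (fun z : S3 => Complex.arg (g4e z : ℂ) / 2) WW := by
      refine ContinuousOn.div_const ?_ 2
      refine Complex.continuousOn_arg.comp (ccoe.comp_continuousOn
        (cont_e.mono inter_subset_left)) ?_
      intro z hz
      exact slit hz.2
    refine Real.continuousOn_tan_Ioo.comp h3 ?_
    intro z hz
    have h4 := Complex.neg_pi_lt_arg (g4e z : ℂ)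
    have h5 := Complex.arg_le_pi (g4e z : ℂ)
    have h6 := Complex.slitPlane_arg_ne_pi (slit hz.2)
    have h7 := lt_of_le_of_ne h5 h6
    constructor <;> linarith
  have h3 : ContinuousOn (fun z : S3 => Real.tan (Real.pi * (‖(z : ℂ × ℂ).2‖ ^ 2 - 1 / 2)))
      WW := by
    refine Real.continuousOn_tan_Ioo.comp (Continuous.continuousOn ?_) ?_
    · exact continuous_const.mul (((cont2.norm).pow 2).sub continuous_const)
    · intro z hz
      have h4 := z.2
      have h5 : 0 < ‖(z : ℂ × ℂ).1‖ := norm_pos_iff.2 hz.1.1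
      have h6 : 0 < ‖(z : ℂ × ℂ).2‖ := norm_pos_iff.2 hz.1.2
      have h7 : 0 < ‖(z : ℂ × ℂ).1‖ ^ 2 := by positivity
      have h8 : 0 < ‖(z : ℂ × ℂ).2‖ ^ 2 := by positivity
      have hpi := Real.pi_pos
      constructor <;> nlinarith
  refine h1.prodMk ?_
  have h4 : (fun z : S3 => (⟨Real.tan (Complex.arg (g4e z : ℂ) / 2),
      Real.tan (Real.pi * (‖(z : ℂ × ℂ).2‖ ^ 2 - 1 / 2))⟩ : ℂ)) = fun z : S3 =>
      ((Real.tan (Complex.arg (g4e z : ℂ) / 2) : ℝ) : ℂ) +
        ((Real.tan (Real.pi * (‖(z : ℂ × ℂ).2‖ ^ 2 - 1 / 2)) : ℝ) : ℂ) * Complex.I := by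
    funext z
    exact Complex.mk_eq_add_mul_I _ _
  rw [h4]
  exact (Complex.continuous_ofReal.comp_continuousOn h2).add
    ((Complex.continuous_ofReal.comp_continuousOn h3).mul continuousOn_const)

private theorem J_ne {X Y : Circle} {r : ℝ} (h0 : 0 < r) (h1 : r < 1) : J X Y r ∈ W0 := by
  have e1 := norm_J1 X Y h0.le h1.le
  have e2 := norm_J2 X Y h0.le h1.le
  constructor
  · intro h
    rw [h, norm_zero] at e1
    nlinarith
  · intro h
    rw [h, norm_zero] at e2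
    nlinarith

private theorem g4e_J (X Y : Circle) {r : ℝ} (h0 : 0 < r) (h1 : r < 1) :
    g4e (J X Y r) = Y ^ 3 * (X ^ 5)⁻¹ := by
  unfold g4e
  rw [cu_J1 X Y h0.le h1, cu_J2 X Y h0 h1.le]

private theorem ec_two (s : ℝ) : ec (2 * s) = ec s ^ 2 := by
  rw [ec_npow]
  norm_num

private theorem e_of {x e : Circle} : (x ^ 5 * e ^ 2) ^ 3 * ((x ^ 3 * e) ^ 5)⁻¹ = e := by
  rw [mul_pow, mul_pow, ← pow_mul, ← pow_mul, ← pow_mul, mul_inv_eq_iff_eq_mul]
  have h1 : e ^ (2 * 3) = e * e ^ 5 := by group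
  rw [h1]
  exact mul_left_comm _ _ _

private theorem x_of {x e : Circle} : (x ^ 3 * e) ^ 2 * (x ^ 5 * e ^ 2)⁻¹ = x := by
  rw [mul_pow, ← pow_mul, mul_inv_eq_iff_eq_mul]
  have h1 : x ^ (3 * 2) = x * x ^ 5 := by group
  rw [h1, mul_assoc]

private theorem X_of {X Y : Circle} : (X ^ 2 * Y⁻¹) ^ 3 * (Y ^ 3 * (X ^ 5)⁻¹) = X := by
  rw [mul_pow, ← pow_mul, inv_pow, mul_assoc, inv_mul_cancel_left, mul_inv_eq_iff_eq_mul]
  group

private theorem Y_of {X Y : Circle} : (X ^ 2 * Y⁻¹) ^ 5 * (Y ^ 3 * (X ^ 5)⁻¹) ^ 2 = Y := by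
  rw [mul_pow, mul_pow, ← pow_mul, ← pow_mul, inv_pow, inv_pow, ← pow_mul]
  have h1 : Y ^ (3 * 2) = Y ^ 5 * Y := by group
  rw [h1, mul_assoc, mul_assoc, inv_mul_cancel_left, mul_comm Y, mul_inv_cancel_left]

theorem isOpenEmbedding_f1 : IsOpenEmbedding f1 := by
  refine isOpenEmbedding_of_inv continuous_f1 isOpen_WW cont_g ?_ ?_ ?_
  · intro p
    refine ⟨J_ne (rho_pos _) (rho_lt_one _), ?_⟩
    rw [mem_preimage]
    unfold f1
    rw [g4e_J _ _ (rho_pos _) (rho_lt_one _), ec_two, e_of]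
    exact ec_at1_ne _
  · rintro ⟨x, ζ⟩
    have h0 := rho_pos ζ.im
    have h1 := rho_lt_one ζ.im
    unfold g4g f1
    simp only
    rw [g4e_J _ _ h0 h1, cu_J1 _ _ h0.le h1, cu_J2 _ _ h0 h1.le, norm_J2 _ _ h0.le h1.le, ec_two,
      e_of, x_of, tan_arg, tan_rho]
  · intro z hz
    obtain ⟨X, Y, r, h0, h1, rfl⟩ := exists_J z
    have e1 := norm_J1 X Y h0 h1
    have e2 := norm_J2 X Y h0 h1
    have hp1 : 0 < ‖(J X Y r : ℂ × ℂ).1‖ := norm_pos_iff.2 hz.1.1
    have hp2 : 0 < ‖(J X Y r : ℂ × ℂ).2‖ := norm_pos_iff.2 hz.1.2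
    have h0' : 0 < r := by
      rw [← e2]
      positivity
    have h1' : r < 1 := by
      have h3 : 0 < 1 - r := by
        rw [← e1]
        positivity
      linarith
    have he : ((Y ^ 3 * (X ^ 5)⁻¹ : Circle) : ℂ) ≠ -1 := by
      rw [← g4e_J X Y h0' h1']
      exact hz.2
    unfold g4g f1
    simp only
    rw [g4e_J _ _ h0' h1', cu_J1 _ _ h0 h1', cu_J2 _ _ h0' h1, norm_J2 _ _ h0 h1, ec_two,
      ec_tan_arg he, rho_tan h0' h1', X_of, Y_of]

/-- The points of the image of the tube. -/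
theorem mem_range_f1 {X Y : Circle} {r : ℝ} (h0 : 0 < r) (h1 : r < 1)
    (he : ((Y ^ 3 * (X ^ 5)⁻¹ : Circle) : ℂ) ≠ -1) : ∃ p : Circle × ℂ, f1 p = J X Y r ∧
      ec (at1 p.2.re) = Y ^ 3 * (X ^ 5)⁻¹ ∧ rho p.2.im = r := by
  obtain ⟨x, hx⟩ := exists_at1_ec he
  obtain ⟨y, hy⟩ := exists_rho h0 h1
  refine ⟨(X ^ 2 * Y⁻¹, ⟨x, y⟩), ?_, hx, hy⟩
  unfold f1
  simp only
  rw [hx, hy, ec_two, hx, X_of, Y_of]

end Pool.Agent.EBS
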