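import Pool.Agent.EBS.G04

/-!
# G05: the tube around the cable in `S¹ × ℂ`

`ka (x, ζ) = (x³ e, rho (im ζ) x³⁸ e¹³)`, `e = ec (at1 (re ζ))`. Compare with `G04`; use
`isOpenEmbedding_of_inv`.
* `ka_ec`: `ec_add`, `ec_zpow`.
* `isOpenEmbedding_ka`: `W = {(X, ζ) | 0 < ‖ζ‖ < 1, cu ζ ^ 3 * (X ^ 38)⁻¹ ≠ -1}`. With `Y = cu ζ`
  the
  inverse is `x = X¹³ Y⁻¹`, `re = tan (π s)`, `s = arg (Y³ X⁻³⁸) / (2 π)`, `im = tan (π (‖ζ‖ -
  1/2))`.
  (`X = x³ e`, `Y = x³⁸ e¹³` iff `x = X¹³ Y⁻¹`, `e = Y³ X⁻³⁸`.) Continuity as in `G04`.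
-/

set_option autoImplicit false

noncomputable section

open Set Topology unitInterval

namespace Pool.Agent.EBS

private theorem cont_coe : Continuous fun e : Circle => (e : ℂ) := by fun_prop

private theorem ec_nat_mul (n : ℕ) (t : ℝ) : ec (n * t) = ec t ^ n := by
  have h := ec_zpow t n
  rw [zpow_natCast, Int.cast_natCast] at h
  exact h.symm

theorem ka_ec (α : ℝ) (ζ : ℂ) : ka (ec α, ζ) = Th2 α (at1 ζ.re) (rho ζ.im) := by
  have h3 := ec_nat_mul 3 α
  have h38 := ec_nat_mul 38 α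
  push_cast at h3 h38
  rw [ka, Th2]
  simp only [ec_add, h3, h38]

theorem continuous_ka : Continuous ka := by
  have h1 : Continuous fun p : Circle × ℂ => ec (at1 p.2.re) :=
    continuous_ec.comp (continuous_at1.comp (Complex.continuous_re.comp continuous_snd))
  have h2 : Continuous fun p : Circle × ℂ => ec (13 * at1 p.2.re) :=
    continuous_ec.comp (continuous_const.mul
      (continuous_at1.comp (Complex.continuous_re.comp continuous_snd)))
  have h3 : Continuous fun p : Circle × ℂ => ((rho p.2.im : ℝ) : ℂ) :=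
    Complex.continuous_ofReal.comp (continuous_rho.comp (Complex.continuous_im.comp continuous_snd))
  unfold ka
  exact ((continuous_fst.pow 3).mul h1).prodMk
    (h3.mul (cont_coe.comp ((continuous_fst.pow 38).mul h2)))

theorem norm_ka (p : Circle × ℂ) : ‖(ka p).2‖ = rho p.2.im := by
  rw [ka]
  simp only [norm_mul, Circle.norm_coe, mul_one, Complex.norm_real]
  exact Real.norm_of_nonneg (rho_pos _).le

/-- The circle coordinate `e` of the inverse. -/
private def ee (p : Circle × ℂ) : Circle := cu p.2 ^ 3 * (p.1 ^ 38)⁻¹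

/-- The domain of the inverse. -/
private def WW : Set (Circle × ℂ) := {p | (p.2 ≠ 0 ∧ ‖p.2‖ < 1)} ∩ ee ⁻¹' {e | (e : ℂ) ≠ -1}

/-- The inverse. -/
private def gg (p : Circle × ℂ) : Circle × ℂ :=
  (p.1 ^ 13 * (cu p.2)⁻¹, ((Real.tan (Complex.arg (ee p : ℂ) / 2) : ℝ) : ℂ) +
    ((Real.tan (Real.pi * (‖p.2‖ - 1 / 2)) : ℝ) : ℂ) * Complex.I)

private theorem gg_re (p : Circle × ℂ) :
    (gg p).2.re = Real.tan (Complex.arg (ee p : ℂ) / 2) := by
  simp only [gg, Complex.add_re, Complex.mul_re, Complex.ofReal_re, Complex.ofReal_im,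
    Complex.I_re, Complex.I_im]
  ring

private theorem gg_im (p : Circle × ℂ) :
    (gg p).2.im = Real.tan (Real.pi * (‖p.2‖ - 1 / 2)) := by
  simp only [gg, Complex.add_im, Complex.mul_im, Complex.ofReal_re, Complex.ofReal_im,
    Complex.I_re, Complex.I_im]
  ring

private theorem continuousOn_cu2 :
    ContinuousOn (fun p : Circle × ℂ => cu p.2) {p | (p.2 ≠ 0 ∧ ‖p.2‖ < 1)} :=
  continuousOn_cu.comp continuousOn_snd fun _ h => h.1

private theorem continuousOn_ee : ContinuousOn ee {p | (p.2 ≠ 0 ∧ ‖p.2‖ < 1)} :=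
  (continuousOn_cu2.pow 3).mul (continuousOn_fst.pow 38).inv

private theorem isOpen_WW : IsOpen WW := by
  have h1 : IsOpen {p : Circle × ℂ | (p.2 ≠ 0 ∧ ‖p.2‖ < 1)} :=
    (isOpen_ne_fun continuous_snd continuous_const).inter
      (isOpen_lt (continuous_norm.comp continuous_snd) continuous_const)
  exact continuousOn_ee.isOpen_inter_preimage h1
    (isOpen_ne_fun cont_coe continuous_const)

private theorem abs_arg_half {e : Circle} (h : (e : ℂ) ≠ -1) :
    -(Real.pi / 2) < Complex.arg (e : ℂ) / 2 ∧ Complex.arg (e : ℂ) / 2 < Real.pi / 2 := by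
  have h1 := Complex.neg_pi_lt_arg (e : ℂ)
  have h2 := Complex.arg_le_pi (e : ℂ)
  have h3 : Complex.arg (e : ℂ) ≠ Real.pi := by
    intro h3
    apply h
    have h4 := Circle.exp_arg e
    rw [h3] at h4
    rw [← h4, Circle.coe_exp, Complex.exp_pi_mul_I]
  have h4 : Complex.arg (e : ℂ) < Real.pi := lt_of_le_of_ne h2 h3
  constructor <;> linarith

private theorem ec_at1_tan {e : Circle} (h : (e : ℂ) ≠ -1) :
    ec (at1 (Real.tan (Complex.arg (e : ℂ) / 2))) = e := by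
  obtain ⟨h1, h2⟩ := abs_arg_half h
  rw [at1, Real.arctan_tan h1 h2, ec]
  have hpi := Real.pi_ne_zero
  have h3 : 2 * Real.pi * (Complex.arg (e : ℂ) / 2 / Real.pi) = Complex.arg (e : ℂ) := by
    field_simp
  rw [h3, Circle.exp_arg]

private theorem rho_tan {r : ℝ} (h0 : 0 < r) (h1 : r < 1) :
    rho (Real.tan (Real.pi * (r - 1 / 2))) = r := by
  have hpi := Real.pi_pos
  rw [rho, at1, Real.arctan_tan (by nlinarith) (by nlinarith)]
  field_simp
  ring

private theorem tan_arg_ec (x : ℝ) :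
    Real.tan (Complex.arg ((ec (at1 x) : Circle) : ℂ) / 2) = x := by
  have hpi := Real.pi_pos
  have h1 := at1_lt x
  have h2 := lt_at1 x
  rw [ec, Circle.arg_exp (by nlinarith) (by nlinarith)]
  have h3 : 2 * Real.pi * at1 x / 2 = Real.arctan x := by
    rw [at1]
    field_simp
  rw [h3, Real.tan_arctan]

private theorem tan_rho (x : ℝ) : Real.tan (Real.pi * (rho x - 1 / 2)) = x := by
  have hpi := Real.pi_pos
  have h3 : Real.pi * (rho x - 1 / 2) = Real.arctan x := by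
    rw [rho, at1]
    field_simp
    ring
  rw [h3, Real.tan_arctan]

private theorem continuousOn_gg : ContinuousOn gg WW := by
  have hs : WW ⊆ {p | (p.2 ≠ 0 ∧ ‖p.2‖ < 1)} := inter_subset_left
  have h1 : ContinuousOn (fun p : Circle × ℂ => p.1 ^ 13 * (cu p.2)⁻¹) WW :=
    (continuousOn_fst.pow 13).mul (continuousOn_cu2.mono hs).inv
  have h2 : ContinuousOn (fun p : Circle × ℂ => Real.tan (Complex.arg (ee p : ℂ) / 2)) WW := by
    intro p hp
    have he : ((ee p : Circle) : ℂ) ≠ -1 := hp.2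
    obtain ⟨ha, hb⟩ := abs_arg_half he
    have hslit : ((ee p : Circle) : ℂ) ∈ Complex.slitPlane := by
      rw [Complex.mem_slitPlane_iff_arg]
      refine ⟨fun h => ?_, Circle.coe_ne_zero _⟩
      rw [h] at hb
      exact lt_irrefl _ hb
    have hc1 : ContinuousWithinAt (fun p : Circle × ℂ => ((ee p : Circle) : ℂ)) WW p :=
      ContinuousAt.comp_continuousWithinAt (g := fun e : Circle => (e : ℂ)) (f := ee)
        cont_coe.continuousAt ((continuousOn_ee.mono hs) p hp)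
    have hc2 : ContinuousWithinAt (fun p : Circle × ℂ => Complex.arg (ee p : ℂ) / 2) WW p :=
      (ContinuousAt.comp_continuousWithinAt (g := Complex.arg)
        (f := fun p : Circle × ℂ => ((ee p : Circle) : ℂ))
        (Complex.continuousAt_arg hslit) hc1).div_const 2
    have hcos : Real.cos (Complex.arg (ee p : ℂ) / 2) ≠ 0 :=
      (Real.cos_pos_of_mem_Ioo ⟨ha, hb⟩).ne'
    exact ContinuousAt.comp_continuousWithinAt (g := Real.tan)
      (f := fun p : Circle × ℂ => Complex.arg (ee p : ℂ) / 2) (Real.continuousAt_tan.2 hcos) hc2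
  have h3 : ContinuousOn (fun p : Circle × ℂ => Real.tan (Real.pi * (‖p.2‖ - 1 / 2))) WW := by
    intro p hp
    have hpi := Real.pi_pos
    have hp0 : 0 < ‖p.2‖ := norm_pos_iff.2 hp.1.1
    have hp1 : ‖p.2‖ < 1 := hp.1.2
    have hcos : Real.cos (Real.pi * (‖p.2‖ - 1 / 2)) ≠ 0 :=
      (Real.cos_pos_of_mem_Ioo ⟨by nlinarith, by nlinarith⟩).ne'
    have hc : ContinuousWithinAt (fun p : Circle × ℂ => Real.pi * (‖p.2‖ - 1 / 2)) WW p := by
      have : Continuous fun p : Circle × ℂ => Real.pi * (‖p.2‖ - 1 / 2) := by fun_prop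
      exact this.continuousWithinAt
    exact ContinuousAt.comp_continuousWithinAt (g := Real.tan)
      (f := fun p : Circle × ℂ => Real.pi * (‖p.2‖ - 1 / 2)) (Real.continuousAt_tan.2 hcos) hc
  exact h1.prodMk ((Complex.continuous_ofReal.comp_continuousOn h2).add
    ((Complex.continuous_ofReal.comp_continuousOn h3).mul continuousOn_const))

private theorem cu_ka (p : Circle × ℂ) : cu (ka p).2 = p.1 ^ 38 * ec (13 * at1 p.2.re) := by
  rw [ka]
  exact cu_mul (rho_pos _) _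

private theorem ec13 (t : ℝ) : ec (13 * t) = ec t ^ 13 := by
  have h := ec_nat_mul 13 t
  push_cast at h
  exact h

private theorem ee_ka (p : Circle × ℂ) : ee (ka p) = ec (at1 p.2.re) := by
  rw [ee, cu_ka, ec13]
  change (p.1 ^ 38 * ec (at1 p.2.re) ^ 13) ^ 3 * ((p.1 ^ 3 * ec (at1 p.2.re)) ^ 38)⁻¹ = _
  rw [mul_inv_eq_iff_eq_mul, mul_pow, mul_pow, ← pow_mul, ← pow_mul, ← pow_mul]
  have h : ec (at1 p.2.re) ^ (13 * 3) = ec (at1 p.2.re) * ec (at1 p.2.re) ^ 38 := by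
    rw [← pow_succ']
  rw [h]
  norm_num
  rw [mul_left_comm]

private theorem gg_ka (p : Circle × ℂ) : gg (ka p) = p := by
  refine Prod.ext ?_ (Complex.ext ?_ ?_)
  · change (p.1 ^ 3 * ec (at1 p.2.re)) ^ 13 * (cu (ka p).2)⁻¹ = p.1
    rw [cu_ka, ec13, mul_inv_eq_iff_eq_mul, mul_pow, ← pow_mul, ← mul_assoc, ← pow_succ']
  · rw [gg_re, ee_ka, tan_arg_ec]
  · rw [gg_im, norm_ka, tan_rho]

private theorem ka_gg {p : Circle × ℂ} (hp : p ∈ WW) : ka (gg p) = p := by
  have he : ((ee p : Circle) : ℂ) ≠ -1 := hp.2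
  have h1 : ec (at1 (gg p).2.re) = ee p := by rw [gg_re, ec_at1_tan he]
  have h2 : rho (gg p).2.im = ‖p.2‖ := by rw [gg_im, rho_tan (norm_pos_iff.2 hp.1.1) hp.1.2]
  have h3 : (gg p).1 ^ 3 * ee p = p.1 := by
    change (p.1 ^ 13 * (cu p.2)⁻¹) ^ 3 * (cu p.2 ^ 3 * (p.1 ^ 38)⁻¹) = p.1
    rw [mul_pow, inv_pow, ← pow_mul, mul_assoc, inv_mul_cancel_left, mul_inv_eq_iff_eq_mul,
      ← pow_succ']
  have h4 : (gg p).1 ^ 38 * ee p ^ 13 = cu p.2 := by
    change (p.1 ^ 13 * (cu p.2)⁻¹) ^ 38 * (cu p.2 ^ 3 * (p.1 ^ 38)⁻¹) ^ 13 = cu p.2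
    rw [mul_pow, mul_pow, inv_pow, inv_pow, ← pow_mul, ← pow_mul, ← pow_mul]
    norm_num
    rw [mul_comm (cu p.2 ^ 39), ← mul_assoc, mul_assoc (p.1 ^ 494), mul_comm (cu p.2 ^ 38)⁻¹,
      ← mul_assoc (p.1 ^ 494), mul_inv_cancel, one_mul, inv_mul_eq_iff_eq_mul, ← pow_succ]
  rw [ka, h1, h3, ec13, h1, h4, h2, norm_mul_cu]

private theorem ka_mem (p : Circle × ℂ) : ka p ∈ WW := by
  refine ⟨⟨?_, ?_⟩, ?_⟩
  · rw [← norm_pos_iff, norm_ka]
    exact rho_pos _
  · rw [norm_ka]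
    exact rho_lt_one _
  · change ((ee (ka p) : Circle) : ℂ) ≠ -1
    rw [ee_ka]
    exact ec_at1_ne _

theorem isOpenEmbedding_ka : IsOpenEmbedding ka :=
  isOpenEmbedding_of_inv continuous_ka isOpen_WW continuousOn_gg ka_mem gg_ka fun _ h => ka_gg h

/-- The points of the image of the tube. -/
theorem mem_range_ka {X Y : Circle} {r : ℝ} (h0 : 0 < r) (h1 : r < 1)
    (he : ((Y ^ 3 * (X ^ 38)⁻¹ : Circle) : ℂ) ≠ -1) : ∃ p : Circle × ℂ, ka p = (X, (r : ℂ) * Y) ∧
      ec (at1 p.2.re) = Y ^ 3 * (X ^ 38)⁻¹ ∧ rho p.2.im = r := by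
  have hn : ‖(r : ℂ) * (Y : ℂ)‖ = r := by
    rw [norm_mul, Circle.norm_coe, mul_one, Complex.norm_real, Real.norm_of_nonneg h0.le]
  have hee : ee (X, (r : ℂ) * Y) = Y ^ 3 * (X ^ 38)⁻¹ := by
    rw [ee]
    simp only
    rw [cu_mul h0]
  have hmem : (X, (r : ℂ) * Y) ∈ WW := by
    refine ⟨⟨?_, ?_⟩, ?_⟩
    · change (r : ℂ) * Y ≠ 0
      rw [← norm_pos_iff, hn]
      exact h0
    · change ‖(r : ℂ) * Y‖ < 1
      rw [hn]
      exact h1
    · change ((ee (X, (r : ℂ) * Y) : Circle) : ℂ) ≠ -1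
      rw [hee]
      exact he
  refine ⟨gg (X, (r : ℂ) * Y), ka_gg hmem, ?_, ?_⟩
  · rw [gg_re, hee, ec_at1_tan he]
  · rw [gg_im]
    simp only
    rw [hn, rho_tan h0 h1]

end Pool.Agent.EBS
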