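import Pool.Agent.EBS.GDefs

/-!
# G06: the twist

`tw k (x, ζ) = (x, (sq ζ / sq (xᵏ ζ)) xᵏ ζ)`; for `ζ = 0` the second component is `0`.
* `sq_tw`: `sq_real_mul`; `sq_pos`; for `ζ = 0` both sides are `0`.
* `tw_tw_neg`: with `ζ' = c xᵏ ζ`, `c = sq ζ / sq (xᵏ ζ) > 0`: `x⁻ᵏ ζ' = c ζ`, `sq ζ' = sq ζ`,
  `sq (x⁻ᵏ ζ') = c sq ζ`, so the second component of `tw (-k) (x, ζ')` is `(sq ζ / (c sq ζ)) c ζ =
  ζ`.
* `continuous_tw`: at `(x, ζ)` with `ζ ≠ 0` it is a quotient of continuous functions; at `(x₀, 0)`: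
  `sq ζ ≤ ‖ζ‖ ≤ 2 sq ζ` for all `ζ` (`Complex.abs_re_le_norm`,
  `Complex.norm_le_abs_re_add_abs_im`), so
  the norm of the second component is `(sq ζ / sq (xᵏ ζ)) ‖ζ‖ ≤ 2 ‖ζ‖` (`‖xᵏ ζ‖ = ‖ζ‖`), which tends
  to `0`.
* `isOpenEmbedding_tw`: `tw k` is a homeomorphism (inverse `tw (-k)`): `Homeomorph.isOpenEmbedding`.
* `tw_rad`: `sq (rad y) = 1` and `rad (c ζ) = rad ζ` for `c > 0`.
-/

set_option autoImplicit false

noncomputable section

open Set Topology unitInterval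

namespace Pool.Agent.EBS

theorem sq_zero : sq 0 = 0 := by
  simp [sq]

theorem sq_le_norm (ζ : ℂ) : sq ζ ≤ ‖ζ‖ :=
  max_le (Complex.abs_re_le_norm ζ) (Complex.abs_im_le_norm ζ)

theorem norm_le_sq (ζ : ℂ) : ‖ζ‖ ≤ 2 * sq ζ := by
  have h1 := Complex.norm_le_abs_re_add_abs_im ζ
  have h2 : |ζ.re| ≤ sq ζ := le_max_left _ _
  have h3 : |ζ.im| ≤ sq ζ := le_max_right _ _
  linarith

private theorem sq_nn (ζ : ℂ) : 0 ≤ sq ζ := (abs_nonneg _).trans (le_max_left _ _)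

private theorem mul_ne {y : Circle} {ζ : ℂ} (h : ζ ≠ 0) : (y : ℂ) * ζ ≠ 0 :=
  mul_ne_zero (Circle.coe_ne_zero y) h

theorem sq_tw (k : ℤ) (p : Circle × ℂ) : sq (tw k p).2 = sq p.2 := by
  obtain ⟨x, ζ⟩ := p
  change sq (((sq ζ / sq (((x ^ k : Circle) : ℂ) * ζ) : ℝ) : ℂ) *
    (((x ^ k : Circle) : ℂ) * ζ)) = sq ζ
  by_cases h : ζ = 0
  · subst h
    rw [mul_zero, mul_zero, sq_zero]
  · have h1 := sq_pos (mul_ne (y := x ^ k) h)
    rw [sq_real_mul, abs_of_nonneg (div_nonneg (sq_nn _) h1.le), div_mul_cancel₀ _ h1.ne']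

theorem tw_zero (k : ℤ) (x : Circle) : tw k (x, 0) = (x, 0) := by
  simp only [tw, mul_zero]

theorem tw_tw_neg (k : ℤ) (p : Circle × ℂ) : tw (-k) (tw k p) = p := by
  obtain ⟨x, ζ⟩ := p
  by_cases h : ζ = 0
  · subst h
    rw [tw_zero, tw_zero]
  · have h1 := sq_pos (mul_ne (y := x ^ k) h)
    have h2 := sq_pos h
    have h3 : sq (tw k (x, ζ)).2 = sq ζ := sq_tw k (x, ζ)
    set c : ℝ := sq ζ / sq (((x ^ k : Circle) : ℂ) * ζ) with hc
    have hc0 : 0 < c := div_pos h2 h1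
    have h4 : tw k (x, ζ) = (x, (c : ℂ) * (((x ^ k : Circle) : ℂ) * ζ)) := rfl
    have h5 : ((x ^ (-k) : Circle) : ℂ) * ((c : ℂ) * (((x ^ k : Circle) : ℂ) * ζ)) =
        (c : ℂ) * ζ := by
      have h6 : ((x ^ (-k) : Circle) : ℂ) * ((x ^ k : Circle) : ℂ) = 1 := by
        rw [← Circle.coe_mul, ← zpow_add, neg_add_cancel, zpow_zero, Circle.coe_one]
      calc ((x ^ (-k) : Circle) : ℂ) * ((c : ℂ) * (((x ^ k : Circle) : ℂ) * ζ)) =
          (((x ^ (-k) : Circle) : ℂ) * ((x ^ k : Circle) : ℂ)) * ((c : ℂ) * ζ) := by ring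
        _ = (c : ℂ) * ζ := by rw [h6, one_mul]
    have h7 : tw (-k) (tw k (x, ζ)) = (x, ((sq (tw k (x, ζ)).2 / sq (((x ^ (-k) : Circle) : ℂ) *
        (tw k (x, ζ)).2) : ℝ) : ℂ) * (((x ^ (-k) : Circle) : ℂ) * (tw k (x, ζ)).2)) := rfl
    rw [h7, h3, h4]
    change (x, ((sq ζ / sq (((x ^ (-k) : Circle) : ℂ) *
        ((c : ℂ) * (((x ^ k : Circle) : ℂ) * ζ))) : ℝ) : ℂ) * (((x ^ (-k) : Circle) : ℂ) *
        ((c : ℂ) * (((x ^ k : Circle) : ℂ) * ζ)))) = (x, ζ)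
    rw [h5, sq_real_mul, abs_of_pos hc0, ← mul_assoc, ← Complex.ofReal_mul]
    have h8 : sq ζ / (c * sq ζ) * c = 1 := by
      field_simp
    rw [h8, Complex.ofReal_one, one_mul]

private theorem norm_tw (k : ℤ) (p : Circle × ℂ) : ‖(tw k p).2‖ ≤ 2 * ‖p.2‖ := by
  have h1 := norm_le_sq (tw k p).2
  rw [sq_tw] at h1
  have h2 := sq_le_norm p.2
  linarith

theorem continuous_tw (k : ℤ) : Continuous (tw k) := by
  refine continuous_fst.prodMk ?_
  rw [continuous_iff_continuousAt]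
  intro p
  have hc : Continuous fun z : Circle => (z : ℂ) := by fun_prop
  have hw : Continuous fun q : Circle × ℂ => ((q.1 ^ k : Circle) : ℂ) * q.2 :=
    (hc.comp ((continuous_zpow k).comp continuous_fst)).mul continuous_snd
  by_cases h : p.2 = 0
  · have h1 : (tw k p).2 = 0 := by
      have h2 := norm_tw k p
      rw [h, norm_zero, mul_zero] at h2
      exact norm_le_zero_iff.1 h2
    change Filter.Tendsto (fun q => (tw k q).2) (nhds p) (nhds (tw k p).2)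
    rw [h1]
    refine squeeze_zero_norm (norm_tw k) ?_
    have h3 : Filter.Tendsto (fun q : Circle × ℂ => 2 * ‖q.2‖) (nhds p) (nhds (2 * ‖p.2‖)) :=
      (by fun_prop : Continuous fun q : Circle × ℂ => 2 * ‖q.2‖).tendsto p
    rw [h, norm_zero, mul_zero] at h3
    exact h3
  · have h1 : sq (((p.1 ^ k : Circle) : ℂ) * p.2) ≠ 0 := (sq_pos (mul_ne h)).ne'
    refine ContinuousAt.mul ?_ hw.continuousAt
    refine Complex.continuous_ofReal.continuousAt.comp ?_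
    exact (continuous_sq.comp continuous_snd).continuousAt.div
      (continuous_sq.comp hw).continuousAt h1

/-- The twist as a homeomorphism. -/
private def twH (k : ℤ) : Circle × ℂ ≃ₜ Circle × ℂ where
  toFun := tw k
  invFun := tw (-k)
  left_inv := tw_tw_neg k
  right_inv p := by
    have h := tw_tw_neg (-k) p
    rwa [neg_neg] at h
  continuous_toFun := continuous_tw k
  continuous_invFun := continuous_tw (-k)

theorem isOpenEmbedding_tw (k : ℤ) : IsOpenEmbedding (tw k) :=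
  (twH k).isOpenEmbedding

theorem tw_surjective (k : ℤ) : Function.Surjective (tw k) :=
  (twH k).surjective

theorem tw_rad (k : ℤ) (x y : Circle) :
    tw k (x, rad y) = (x, rad ((x ^ k * y : Circle) : ℂ)) := by
  have hy : (y : ℂ) ≠ 0 := Circle.coe_ne_zero y
  have h1 : sq (rad (y : ℂ)) = 1 := sq_rad hy
  have h2 : ((x ^ k : Circle) : ℂ) * rad (y : ℂ) =
      (((sq (y : ℂ))⁻¹ : ℝ) : ℂ) * ((x ^ k * y : Circle) : ℂ) := by
    rw [rad, Circle.coe_mul]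
    ring
  have h3 := sq_pos hy
  have h4 : 0 < sq ((x ^ k * y : Circle) : ℂ) := sq_pos (Circle.coe_ne_zero _)
  change (x, ((sq (rad (y : ℂ)) / sq (((x ^ k : Circle) : ℂ) * rad (y : ℂ)) : ℝ) : ℂ) *
    (((x ^ k : Circle) : ℂ) * rad (y : ℂ))) = _
  rw [h1, h2, sq_real_mul, abs_of_pos (inv_pos.2 h3), ← mul_assoc, ← Complex.ofReal_mul]
  have h5 : 1 / ((sq (y : ℂ))⁻¹ * sq ((x ^ k * y : Circle) : ℂ)) * (sq (y : ℂ))⁻¹ =
      (sq ((x ^ k * y : Circle) : ℂ))⁻¹ := by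
    field_simp
  rw [h5]
  rfl

end Pool.Agent.EBS
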