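import Pool.Agent.EBS.G05

/-!
# G07: the points of `U2` and `W1`

* `J_mem_U2`. `→`: if `1/4 ≤ r ≤ 3/4` and `e = Y³ X⁻⁵` has real part `≥ 0`, then (`mem_range_f1`,
  `e ≠ -1`) `J X Y r = f1 p` with `ec (at1 (re p.2)) = e`, so `|re| ≤ 1` (`re_ec_at1_nonneg`), and
  `rho (im) = r`, so `|im| ≤ 1` (`rho_mem`), so `sq p.2 ≤ 1`. `←`: if `f1 q = J X Y r`, `sq q.2 ≤
  1`,
  then by `J_inj` (`f1 q = J (x³ e) (x⁵ e²) (rho im)`, `0 < rho < 1`; `ec (2 s) = ec s ^ 2`)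
  `X = x³ e`, `Y = x⁵ e²`, `r = rho im`, so `Y³ X⁻⁵ = e` has real part `≥ 0` and `1/4 ≤ r ≤ 3/4`.
* `mem_W1_iff`: in the same way with `mem_range_ka`, the strict versions `re_ec_at1_pos`,
  `rho_mem'`.
  `←`: if `ka q = (X, r Y)` with `sq q.2 < 1`: `ka q = (x³ e, ρ x³⁸ e¹³)`, `ρ = rho im`, norms:
  `ρ = r`, so `r > 0`, directions `Y = x³⁸ e¹³` and `X = x³ e`; so `Y³ X⁻³⁸ = e`.
* `Th1_mem_U2`, `Th2_mem_W1`: with `X = ec (3 α + s)`, `Y = ec (5 α + 2 s)` resp. `ec (38 α + 13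
  s)`:
  `Y³ X⁻⁵ = ec s`, `Y³ X⁻³⁸ = ec s`.
* `exists_Th1`: `z = J X Y r` (`exists_J`), `X = ec a`, `Y = ec b` (`ec_surjective`), `α = 2 a - b`,
  `s = 3 b - 5 a`. `exists_Th2`: `p = (X, r Y)` with `r = ‖p.2‖`, `Y = cu p.2` (`norm_mul_cu`),
  `α = 13 a - b`, `s = 3 b - 38 a`.
* `f1_mem_U2`: `isOpenEmbedding_f1.injective`. `ka_mem_W1` in the same way.
* `isOpen_U2`: the complement is the image under `f1` of the compact set `{q | sq q.2 ≤ 1}`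
  (`Circle` is compact, `{ζ | sq ζ ≤ 1}` is closed and bounded), so it is compact, closed.
-/

set_option autoImplicit false

noncomputable section

open Set Topology unitInterval

namespace Pool.Agent.EBS

private theorem g7_ne {e : Circle} (h : 0 ≤ (e : ℂ).re) : (e : ℂ) ≠ -1 := by
  intro h1
  rw [h1] at h
  norm_num at h

private theorem g7_pow (s : ℝ) (n : ℕ) : ec s ^ n = ec (n * s) := by
  have h := ec_zpow s n
  rw [zpow_natCast, Int.cast_natCast] at h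
  exact h

private theorem g7_e1 (x : Circle) (s : ℝ) :
    (x ^ 5 * ec (2 * s)) ^ 3 * ((x ^ 3 * ec s) ^ 5)⁻¹ = ec s := by
  have h2 : ec (2 * s) = ec s ^ 2 := by
    rw [g7_pow]
    norm_num
  rw [h2, mul_inv_eq_iff_eq_mul]
  refine Circle.ext ?_
  simp only [Circle.coe_mul, Circle.coe_pow]
  ring

private theorem g7_e2 (x : Circle) (s : ℝ) :
    (x ^ 38 * ec (13 * s)) ^ 3 * ((x ^ 3 * ec s) ^ 38)⁻¹ = ec s := by
  have h2 : ec (13 * s) = ec s ^ 13 := by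
    rw [g7_pow]
    norm_num
  rw [h2, mul_inv_eq_iff_eq_mul]
  refine Circle.ext ?_
  simp only [Circle.coe_mul, Circle.coe_pow]
  ring

theorem J_mem_U2 {X Y : Circle} {r : ℝ} (h0 : 0 ≤ r) (h1 : r ≤ 1) : J X Y r ∈ U2 ↔
    ¬ (1 / 4 ≤ r ∧ r ≤ 3 / 4 ∧ 0 ≤ ((Y ^ 3 * (X ^ 5)⁻¹ : Circle) : ℂ).re) := by
  constructor
  · rintro h ⟨h2, h3, h4⟩
    have hr0 : 0 < r := by linarith
    have hr1 : r < 1 := by linarith
    obtain ⟨p, hp, he, hρ⟩ := mem_range_f1 hr0 hr1 (g7_ne h4)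
    refine h p ?_ hp
    rw [← he] at h4
    have hb : |p.2.im| ≤ 1 := rho_mem.1 (by rw [hρ]; exact ⟨h2, h3⟩)
    exact max_le (re_ec_at1_nonneg.1 h4) hb
  · intro h q hq hf
    apply h
    have hq1 : |q.2.re| ≤ 1 := (le_max_left _ _).trans hq
    have hq2 : |q.2.im| ≤ 1 := (le_max_right _ _).trans hq
    obtain ⟨hX, hY, hR⟩ := J_inj (rho_pos _) (rho_lt_one _) h0 h1 hf
    have hρ := rho_mem.2 hq2
    rw [hR] at hρ
    refine ⟨hρ.1, hρ.2, ?_⟩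
    rw [← hX, ← hY, g7_e1]
    exact re_ec_at1_nonneg.2 hq1

theorem mem_W1_iff {X Y : Circle} {r : ℝ} (h0 : 0 ≤ r) : (X, (r : ℂ) * (Y : ℂ)) ∈ W1 ↔
    ¬ (1 / 4 < r ∧ r < 3 / 4 ∧ 0 < ((Y ^ 3 * (X ^ 38)⁻¹ : Circle) : ℂ).re) := by
  constructor
  · rintro h ⟨h2, h3, h4⟩
    have hr0 : 0 < r := by linarith
    have hr1 : r < 1 := by linarith
    obtain ⟨p, hp, he, hρ⟩ := mem_range_ka hr0 hr1 (g7_ne h4.le)
    refine h p ?_ hp
    rw [← he] at h4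
    have hb : |p.2.im| < 1 := rho_mem'.1 (by rw [hρ]; exact ⟨h2, h3⟩)
    exact max_lt (re_ec_at1_pos.1 h4) hb
  · intro h q hq hf
    apply h
    have hq1 : |q.2.re| < 1 := (le_max_left _ _).trans_lt hq
    have hq2 : |q.2.im| < 1 := (le_max_right _ _).trans_lt hq
    have hR : rho q.2.im = r := by
      rw [← norm_ka, hf]
      simp only [norm_mul, Circle.norm_coe, mul_one, Complex.norm_real]
      exact Real.norm_of_nonneg h0
    have hr : 0 < r := by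
      rw [← hR]
      exact rho_pos _
    have hX : q.1 ^ 3 * ec (at1 q.2.re) = X := congrArg Prod.fst hf
    have hY : q.1 ^ 38 * ec (13 * at1 q.2.re) = Y := by
      have h2 : cu (ka q).2 = cu ((r : ℂ) * (Y : ℂ)) := by rw [hf]
      rw [cu_mul hr] at h2
      rw [← h2]
      exact (cu_mul (rho_pos _) _).symm
    have hρ := rho_mem'.2 hq2
    rw [hR] at hρ
    refine ⟨hρ.1, hρ.2, ?_⟩
    rw [← hX, ← hY, g7_e2]
    exact re_ec_at1_pos.2 hq1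

theorem Th1_mem_U2 {α s r : ℝ} (h0 : 0 ≤ r) (h1 : r ≤ 1) :
    Th1 α s r ∈ U2 ↔ ¬ (1 / 4 ≤ r ∧ r ≤ 3 / 4 ∧ 0 ≤ (ec s : ℂ).re) := by
  rw [Th1, J_mem_U2 h0 h1]
  have e : ec (5 * α + 2 * s) ^ 3 * (ec (3 * α + s) ^ 5)⁻¹ = ec s := by
    rw [g7_pow, g7_pow, mul_inv_eq_iff_eq_mul, ← ec_add]
    congr 1
    push_cast
    ring
  rw [e]

theorem Th2_mem_W1 {α s r : ℝ} (h0 : 0 ≤ r) :
    Th2 α s r ∈ W1 ↔ ¬ (1 / 4 < r ∧ r < 3 / 4 ∧ 0 < (ec s : ℂ).re) := by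
  rw [Th2, mem_W1_iff h0]
  have e : ec (38 * α + 13 * s) ^ 3 * (ec (3 * α + s) ^ 38)⁻¹ = ec s := by
    rw [g7_pow, g7_pow, mul_inv_eq_iff_eq_mul, ← ec_add]
    congr 1
    push_cast
    ring
  rw [e]

theorem exists_Th1 (z : S3) : ∃ α s r, 0 ≤ r ∧ r ≤ 1 ∧ Th1 α s r = z := by
  obtain ⟨X, Y, r, h0, h1, hz⟩ := exists_J z
  obtain ⟨a, ha⟩ := ec_surjective X
  obtain ⟨b, hb⟩ := ec_surjective Y
  refine ⟨2 * a - b, 3 * b - 5 * a, r, h0, h1, ?_⟩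
  have e1 : 3 * (2 * a - b) + (3 * b - 5 * a) = a := by ring
  have e2 : 5 * (2 * a - b) + 2 * (3 * b - 5 * a) = b := by ring
  rw [Th1, e1, e2, ha, hb, hz]

theorem exists_Th2 (p : Circle × ℂ) : ∃ α s, Th2 α s ‖p.2‖ = p := by
  obtain ⟨a, ha⟩ := ec_surjective p.1
  obtain ⟨b, hb⟩ := ec_surjective (cu p.2)
  refine ⟨13 * a - b, 3 * b - 38 * a, ?_⟩
  have e1 : 3 * (13 * a - b) + (3 * b - 38 * a) = a := by ring
  have e2 : 38 * (13 * a - b) + 13 * (3 * b - 38 * a) = b := by ring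
  rw [Th2, e1, e2, ha, hb, norm_mul_cu]

theorem Th1_add_int (α s r : ℝ) (n : ℤ) : Th1 α (s + n) r = Th1 α s r := by
  have e1 : ec (3 * α + (s + n)) = ec (3 * α + s) := ec_eq_iff.2 ⟨n, by ring⟩
  have e2 : ec (5 * α + 2 * (s + n)) = ec (5 * α + 2 * s) :=
    ec_eq_iff.2 ⟨2 * n, by push_cast; ring⟩
  rw [Th1, Th1, e1, e2]

theorem Th2_add_int (α s r : ℝ) (n : ℤ) : Th2 α (s + n) r = Th2 α s r := by
  have e1 : ec (3 * α + (s + n)) = ec (3 * α + s) := ec_eq_iff.2 ⟨n, by ring⟩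
  have e2 : ec (38 * α + 13 * (s + n)) = ec (38 * α + 13 * s) :=
    ec_eq_iff.2 ⟨13 * n, by push_cast; ring⟩
  rw [Th2, Th2, e1, e2]

theorem f1_mem_U2 {p : Circle × ℂ} : f1 p ∈ U2 ↔ 1 < sq p.2 := by
  constructor
  · intro h
    by_contra h1
    exact h p (not_lt.1 h1) rfl
  · intro h q hq hf
    rw [isOpenEmbedding_f1.injective hf] at hq
    exact absurd h (not_lt.2 hq)

theorem ka_mem_W1 {p : Circle × ℂ} : ka p ∈ W1 ↔ 1 ≤ sq p.2 := by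
  constructor
  · intro h
    by_contra h1
    exact h p (not_le.1 h1) rfl
  · intro h q hq hf
    rw [isOpenEmbedding_ka.injective hf] at hq
    exact absurd h (not_le.2 hq)

theorem isOpen_U2 : IsOpen U2 := by
  have hc : IsCompact {q : Circle × ℂ | sq q.2 ≤ 1} := by
    have h1 : {q : Circle × ℂ | sq q.2 ≤ 1} = univ ×ˢ {ζ : ℂ | sq ζ ≤ 1} := by
      ext q
      simp
    rw [h1]
    refine isCompact_univ.prod ?_
    refine Metric.isCompact_of_isClosed_isBounded (isClosed_le continuous_sq continuous_const) ?_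
    refine (Metric.isBounded_closedBall (x := (0 : ℂ)) (r := 2)).subset fun ζ hζ => ?_
    have h2 : |ζ.re| ≤ 1 := (le_max_left _ _).trans hζ
    have h3 : |ζ.im| ≤ 1 := (le_max_right _ _).trans hζ
    rw [mem_closedBall_zero_iff]
    have h4 := Complex.norm_le_abs_re_add_abs_im ζ
    linarith
  have h2 : U2ᶜ = f1 '' {q | sq q.2 ≤ 1} := by
    ext z
    constructor
    · intro hz
      by_contra h3
      exact hz fun q hq hf => h3 ⟨q, hq, hf⟩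
    · rintro ⟨q, hq, hf⟩ hz
      exact hz q hq hf
  rw [← isClosed_compl_iff, h2]
  exact (hc.image continuous_f1).isClosed

end Pool.Agent.EBS
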