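import Pool.Agent.EBS.F05
import Pool.Agent.EBS.F11

/-!
# The classes of the curves on the boundary torus (definition)
-/

set_option autoImplicit false

noncomputable section

open Set Topology unitInterval

namespace Pool.Agent.EBS

theorem ec_intCast_mul_one (k : ℤ) : ec ((k : ℝ) * 1) = 1 := by
  rw [mul_one]
  exact ec_int k

/-- The loop `t ↦ bd (ec (k₁ t), ec (k₂ t))` in the exterior. -/
def tlPath (T : Tube) (k₁ k₂ : ℤ) : Path (T.bd (1, 1)) (T.bd (1, 1)) where
  toFun t := T.bd (ec (k₁ * (t : ℝ)), ec (k₂ * (t : ℝ)))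
  continuous_toFun := T.continuous_bd.comp
    ((continuous_ec.comp (continuous_const.mul continuous_subtype_val)).prodMk
      (continuous_ec.comp (continuous_const.mul continuous_subtype_val)))
  source' := by rw [Icc.coe_zero, mul_zero, mul_zero, ec_zero]
  target' := by rw [Icc.coe_one, ec_intCast_mul_one, ec_intCast_mul_one]

/-- The class of the curve with `k₁` longitudinal and `k₂` meridional turns. -/
def tl (T : Tube) (k₁ k₂ : ℤ) : Pi1 T.Ext (T.bd (1, 1)) := lc (tlPath T k₁ k₂)

end Pool.Agent.EBS
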