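import Pool.Agent.EBS.G05
import Pool.Agent.EBS.G06
import Pool.Agent.EBS.TDefs

/-!
# The knot
-/

set_option autoImplicit false

noncomputable section

open Set Topology unitInterval

namespace Pool.Agent.EBS

/-- The knot `K`: the (3, 7)-cable of the torus knot `T(3, 5)`, up to a mirror image, with a
tubular neighbourhood. -/
def Kn : Tube where
  f := fK
  emb := isOpenEmbedding_f1.comp (isOpenEmbedding_ka.comp (isOpenEmbedding_tw (-21)))

theorem ext_Kn : Kn.ext = EK := rfl

theorem fK_rad (x y : Circle) :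
    fK (x, rad y) = f1 (ka (x, rad ((x ^ (-21 : ℤ) * y : Circle) : ℂ))) := by
  rw [fK, tw_rad]

theorem mem_EK {z : S3} : z ∈ EK ↔ ∀ q : Circle × ℂ, sq q.2 < 1 → f1 (ka q) ≠ z := by
  constructor
  · intro h q hq
    obtain ⟨p, rfl⟩ := tw_surjective (-21) q
    rw [sq_tw] at hq
    exact h p.1 p.2 hq
  · intro h x ζ hζ
    exact h (tw (-21) (x, ζ)) (by rw [sq_tw]; exact hζ)

end Pool.Agent.EBS
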