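import Pool.Agent.EBS.G07
import Pool.Agent.EBS.GK
import Pool.Agent.EBS.F08

/-!
# G08: the decompositions

* `T2_subset`: a point of `T2` has `‖ζ‖ ≥ sq ζ > 1` (`sq_le_norm`) and `‖(ka q).2‖ < 1` (`norm_ka`,
  `rho_lt_one`).
* `cover_EK` (`mem_EK`): `U1 ⊆ EK`: `f1` is injective. `U2 ⊆ EK`: if `z = f1 (ka q)` then
  `sq (ka q).2 ≤ ‖(ka q).2‖ < 1`. `EK ⊆ U1 ∪ U2`: let `z ∈ EK`; if `z = f1 p` then `p ∈ W1`,
  otherwise
  `z ∈ U2`. `U1 = range f1 ∩ EK` and `range f1` is open (`isOpenEmbedding_f1`); `U2` is open.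
* `U1_inter_U2`: `f1 p ∈ U2 ↔ 1 < sq p.2` (`f1_mem_U2`), and `T2 ⊆ W1`.
* `cover_U2`, `cover_W1`: `x < 3/4` or `x > 1/4`; open conditions.
* `V_inter`: let `z = Th1 α s r` (`exists_Th1`), `‖z₂‖² = r` (`norm_J2`), so `1/4 < r < 3/4`, and
  `re (ec s) < 0` by `Th1_mem_U2`; choose `s' ∈ (1/4, 3/4)` with `ec s' = ec s`
  (`exists_of_re_neg`),
  `s = s' + n` (`ec_eq_iff`), so `Th1 α s' r = z` (`Th1_add_int`). Conversely: `re_ec_neg`.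
* `IO_inter`: the same with `exists_Th2`, `Th2_mem_W1`, `exists_of_re_nonpos`, `re_ec_nonpos`;
  `‖(Th2 α s r).2‖ = r` for `r ≥ 0`.
-/

set_option autoImplicit false

noncomputable section

open Set Topology unitInterval

namespace Pool.Agent.EBS

theorem norm_Th2 (α s : ℝ) {r : ℝ} (h0 : 0 ≤ r) : ‖(Th2 α s r).2‖ = r := by
  rw [Th2]
  simp only [norm_mul, Circle.norm_coe, mul_one, Complex.norm_real]
  exact Real.norm_of_nonneg h0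

private theorem sq_ka_lt (q : Circle × ℂ) : sq (ka q).2 < 1 :=
  (sq_le_norm _).trans_lt (by rw [norm_ka]; exact rho_lt_one _)

theorem T2_subset : T2 ⊆ OutS := by
  intro p hp
  have h1 : 1 < sq p.2 := hp
  refine ⟨fun q _ h => ?_, ?_⟩
  · rw [← h] at h1
    exact lt_asymm h1 (sq_ka_lt q)
  · have := sq_le_norm p.2
    linarith

private theorem U2_sub : U2 ⊆ EK := by
  intro z hz
  rw [mem_EK]
  intro q _
  exact hz (ka q) (sq_ka_lt q).le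

private theorem mem_W1_of_EK {p : Circle × ℂ} (h : f1 p ∈ EK) : p ∈ W1 := by
  intro q hq h1
  exact mem_EK.1 h q hq (by rw [h1])

private theorem U1_sub : U1 ⊆ EK := by
  rintro z ⟨p, hp, rfl⟩
  rw [mem_EK]
  intro q hq h1
  exact hp q hq (isOpenEmbedding_f1.injective h1)

theorem cover_EK : Cover U1 U2 EK := by
  refine ⟨?_, ⟨range f1, isOpenEmbedding_f1.isOpen_range, ?_⟩, ⟨U2, isOpen_U2, ?_⟩⟩
  · refine Subset.antisymm (union_subset U1_sub U2_sub) fun z hz => ?_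
    by_cases h : ∃ p, f1 p = z
    · obtain ⟨p, rfl⟩ := h
      exact Or.inl ⟨p, mem_W1_of_EK hz, rfl⟩
    · exact Or.inr fun q _ h1 => h ⟨q, h1⟩
  · refine Subset.antisymm ?_ fun z hz => ⟨?_, U1_sub hz⟩
    · rintro z ⟨⟨p, rfl⟩, hz⟩
      exact ⟨p, mem_W1_of_EK hz, rfl⟩
    · obtain ⟨p, -, rfl⟩ := hz
      exact mem_range_self p
  · exact inter_eq_left.2 U2_sub

theorem U1_inter_U2 : U1 ∩ U2 = f1 '' T2 := by
  refine Subset.antisymm ?_ ?_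
  · rintro z ⟨⟨p, -, rfl⟩, hz⟩
    exact ⟨p, f1_mem_U2.1 hz, rfl⟩
  · rintro z ⟨p, hp, rfl⟩
    exact ⟨⟨p, (T2_subset hp).1, rfl⟩, f1_mem_U2.2 hp⟩

theorem cover_U2 : Cover V1 V2 U2 := by
  refine ⟨?_, ⟨{z | ‖(z : ℂ × ℂ).2‖ ^ 2 < 3 / 4}, isOpen_lt (by fun_prop) continuous_const, ?_⟩,
    ⟨{z | 1 / 4 < ‖(z : ℂ × ℂ).2‖ ^ 2}, isOpen_lt continuous_const (by fun_prop), ?_⟩⟩
  · refine Subset.antisymm (union_subset (fun z hz => hz.1) fun z hz => hz.1) fun z hz => ?_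
    rcases lt_or_ge (‖(z : ℂ × ℂ).2‖ ^ 2) (3 / 4) with h | h
    · exact Or.inl ⟨hz, h⟩
    · exact Or.inr ⟨hz, by linarith⟩
  · ext z
    exact and_comm
  · ext z
    exact and_comm

theorem cover_W1 : Cover InS OutS W1 := by
  refine ⟨?_, ⟨{p | ‖p.2‖ < 3 / 4}, isOpen_lt (by fun_prop) continuous_const, ?_⟩,
    ⟨{p | 1 / 4 < ‖p.2‖}, isOpen_lt continuous_const (by fun_prop), ?_⟩⟩
  · refine Subset.antisymm (union_subset (fun z hz => hz.1) fun z hz => hz.1) fun z hz => ?_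
    rcases lt_or_ge ‖z.2‖ (3 / 4) with h | h
    · exact Or.inl ⟨hz, h⟩
    · exact Or.inr ⟨hz, by linarith⟩
  · ext z
    exact and_comm
  · ext z
    exact and_comm

theorem V_inter : V1 ∩ V2 = (fun x : ℝ × ℝ × ℝ => Th1 x.1 x.2.1 x.2.2) ''
    {x | x.2.1 ∈ Ioo (1 / 4) (3 / 4) ∧ x.2.2 ∈ Ioo (1 / 4) (3 / 4)} := by
  refine Subset.antisymm ?_ ?_
  · rintro z ⟨⟨hz, h1⟩, ⟨-, h2⟩⟩
    obtain ⟨α, s, r, hr0, hr1, rfl⟩ := exists_Th1 z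
    have hn : ‖(Th1 α s r : ℂ × ℂ).2‖ ^ 2 = r := norm_J2 _ _ hr0 hr1
    rw [hn] at h1 h2
    have hre : (ec s : ℂ).re < 0 := by
      by_contra hc
      exact (Th1_mem_U2 hr0 hr1).1 hz ⟨h2.le, h1.le, not_lt.1 hc⟩
    obtain ⟨s', hs', he⟩ := exists_of_re_neg hre
    obtain ⟨n, hn'⟩ := ec_eq_iff.1 he.symm
    refine ⟨(α, s', r), ⟨hs', h2, h1⟩, ?_⟩
    change Th1 α s' r = Th1 α s r
    rw [hn', Th1_add_int]
  · rintro z ⟨⟨α, s, r⟩, ⟨hs, hr⟩, rfl⟩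
    have hr0 : 0 ≤ r := by linarith [hr.1]
    have hr1 : r ≤ 1 := by linarith [hr.2]
    have hn : ‖(Th1 α s r : ℂ × ℂ).2‖ ^ 2 = r := norm_J2 _ _ hr0 hr1
    have hz : Th1 α s r ∈ U2 :=
      (Th1_mem_U2 hr0 hr1).2 fun h => absurd h.2.2 (not_le.2 (re_ec_neg hs))
    exact ⟨⟨hz, by rw [hn]; exact hr.2⟩, ⟨hz, by rw [hn]; exact hr.1⟩⟩

theorem IO_inter : InS ∩ OutS = (fun x : ℝ × ℝ × ℝ => Th2 x.1 x.2.1 x.2.2) ''
    {x | x.2.1 ∈ Icc (1 / 4) (3 / 4) ∧ x.2.2 ∈ Ioo (1 / 4) (3 / 4)} := by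
  refine Subset.antisymm ?_ ?_
  · rintro z ⟨⟨hz, h1⟩, ⟨-, h2⟩⟩
    obtain ⟨α, s, hp⟩ := exists_Th2 z
    have hr0 : 0 ≤ ‖z.2‖ := norm_nonneg _
    have hre : (ec s : ℂ).re ≤ 0 := by
      by_contra hc
      rw [← hp] at hz
      exact (Th2_mem_W1 hr0).1 hz ⟨h2, h1, not_le.1 hc⟩
    obtain ⟨s', hs', he⟩ := exists_of_re_nonpos hre
    obtain ⟨n, hn'⟩ := ec_eq_iff.1 he.symm
    refine ⟨(α, s', ‖z.2‖), ⟨hs', h2, h1⟩, ?_⟩
    change Th2 α s' ‖z.2‖ = z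
    rw [← Th2_add_int _ _ _ n, ← hn', hp]
  · rintro z ⟨⟨α, s, r⟩, ⟨hs, hr⟩, rfl⟩
    have hr0 : 0 ≤ r := by linarith [hr.1]
    have hn : ‖(Th2 α s r).2‖ = r := norm_Th2 α s hr0
    have hz : Th2 α s r ∈ W1 :=
      (Th2_mem_W1 hr0).2 fun h => absurd h.2.2 (not_lt.2 (re_ec_nonpos hs))
    exact ⟨⟨hz, by rw [hn]; exact hr.2⟩, ⟨hz, by rw [hn]; exact hr.1⟩⟩

end Pool.Agent.EBS
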