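import Pool.Agent.EBS.G08

/-!
# G09: path-connectedness, the second piece

* `isPathConnected_V1`: let `z = J X Y r ∈ V1` (`exists_J`), so `r = ‖z₂‖² < 3/4` (`norm_J2`). The
  curve
  `t ↦ J X Y ((1 - t) r)`, `t ∈ [0, 1]`, lies in `V1`: `(1 - t) r ≤ r < 3/4`, and if
  `(1 - t) r ≥ 1/4` then `r ≥ 1/4`, so `re (Y³ X⁻⁵) < 0` (`J_mem_U2`) and `J X Y ((1 - t) r) ∈ U2`.
  It
  ends in `J X Y 0 = J X 1 0` (`J_zero`). The set `{J X 1 0 | X ∈ S¹}` is a path connected subset of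
  `V1` (image of the circle; `Circle` is path connected as the image of `ℝ` under `ec`). So all
  points of `V1` can be joined in `V1` to the point `J 1 1 0`.
* `isPathConnected_V2`: the same with `J X Y (r + t (1 - r))`, `J X Y 1 = J 1 Y 1`.
* `isPathConnected_V_inter`: the continuous image (`V_inter`; `continuous_J`, `continuous_ec`) of a
  convex nonempty set.
* `isPathConnected_U2`: `V1 ∪ V2 = U2`, `IsPathConnected.union`.
-/

set_option autoImplicit false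

noncomputable section

open Set Topology unitInterval

namespace Pool.Agent.EBS

theorem continuous_Th1 : Continuous fun x : ℝ × ℝ × ℝ => Th1 x.1 x.2.1 x.2.2 := by
  unfold Th1
  exact continuous_J.comp ((continuous_ec.comp (by fun_prop)).prodMk
    ((continuous_ec.comp (by fun_prop)).prodMk (by fun_prop)))

theorem isPathConnected_circle : IsPathConnected (univ : Set Circle) := by
  rw [← ec_surjective.range_eq]
  exact isPathConnected_range continuous_ec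

private theorem mem_V1 {X Y : Circle} {r : ℝ} (h0 : 0 ≤ r) (h1 : r ≤ 1) :
    J X Y r ∈ V1 ↔ J X Y r ∈ U2 ∧ r < 3 / 4 := by
  change J X Y r ∈ U2 ∧ ‖(J X Y r : ℂ × ℂ).2‖ ^ 2 < 3 / 4 ↔ _
  rw [norm_J2 X Y h0 h1]

private theorem mem_V2 {X Y : Circle} {r : ℝ} (h0 : 0 ≤ r) (h1 : r ≤ 1) :
    J X Y r ∈ V2 ↔ J X Y r ∈ U2 ∧ 1 / 4 < r := by
  change J X Y r ∈ U2 ∧ 1 / 4 < ‖(J X Y r : ℂ × ℂ).2‖ ^ 2 ↔ _
  rw [norm_J2 X Y h0 h1]

private theorem J_zero_V1 (X Y : Circle) : J X Y 0 ∈ V1 := by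
  rw [mem_V1 le_rfl zero_le_one, J_mem_U2 le_rfl zero_le_one]
  exact ⟨fun h => by linarith [h.1], by norm_num⟩

private theorem J_one_V2 (X Y : Circle) : J X Y 1 ∈ V2 := by
  rw [mem_V2 zero_le_one le_rfl, J_mem_U2 zero_le_one le_rfl]
  exact ⟨fun h => by linarith [h.2.1], by norm_num⟩

theorem isPathConnected_V1 : IsPathConnected V1 := by
  have hc : Continuous fun X : Circle => J X 1 0 :=
    continuous_J.comp (continuous_id.prodMk (continuous_const.prodMk continuous_const))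
  have hS := isPathConnected_circle.image hc
  have hSV : (fun X : Circle => J X 1 0) '' univ ⊆ V1 := by
    rintro _ ⟨X, -, rfl⟩
    exact J_zero_V1 X 1
  refine ⟨J 1 1 0, J_zero_V1 1 1, fun {z} hz => ?_⟩
  obtain ⟨X, Y, r, h0, h1, rfl⟩ := exists_J z
  refine ((hS.joinedIn (J 1 1 0) ⟨1, mem_univ _, rfl⟩ (J X 1 0) ⟨X, mem_univ _, rfl⟩).mono
    hSV).trans ?_
  rw [J_zero X 1 Y]
  have h2 := (mem_V1 h0 h1).1 hz
  have hf : Continuous fun t : ℝ => J X Y (t * r) :=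
    continuous_J.comp (continuous_const.prodMk (continuous_const.prodMk (by fun_prop)))
  refine JoinedIn.ofLine (f := fun t => J X Y (t * r)) hf.continuousOn (by simp) (by simp) ?_
  rintro _ ⟨t, ht, rfl⟩
  have h3 : 0 ≤ t * r := mul_nonneg ht.1 h0
  have h4 : t * r ≤ r := mul_le_of_le_one_left h0 ht.2
  have h5 : t * r ≤ 1 := h4.trans h1
  change J X Y (t * r) ∈ V1
  rw [mem_V1 h3 h5, J_mem_U2 h3 h5]
  refine ⟨fun h6 => (J_mem_U2 h0 h1).1 h2.1 ⟨h6.1.trans h4, h2.2.le, h6.2.2⟩,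
    h4.trans_lt h2.2⟩

theorem isPathConnected_V2 : IsPathConnected V2 := by
  have hc : Continuous fun Y : Circle => J 1 Y 1 :=
    continuous_J.comp (continuous_const.prodMk (continuous_id.prodMk continuous_const))
  have hS := isPathConnected_circle.image hc
  have hSV : (fun Y : Circle => J 1 Y 1) '' univ ⊆ V2 := by
    rintro _ ⟨Y, -, rfl⟩
    exact J_one_V2 1 Y
  refine ⟨J 1 1 1, J_one_V2 1 1, fun {z} hz => ?_⟩
  obtain ⟨X, Y, r, h0, h1, rfl⟩ := exists_J z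
  refine ((hS.joinedIn (J 1 1 1) ⟨1, mem_univ _, rfl⟩ (J 1 Y 1) ⟨Y, mem_univ _, rfl⟩).mono
    hSV).trans ?_
  rw [J_one 1 X Y]
  have h2 := (mem_V2 h0 h1).1 hz
  have hf : Continuous fun t : ℝ => J X Y (1 - t * (1 - r)) :=
    continuous_J.comp (continuous_const.prodMk (continuous_const.prodMk (by fun_prop)))
  refine JoinedIn.ofLine (f := fun t => J X Y (1 - t * (1 - r))) hf.continuousOn (by simp)
    (by simp) ?_
  rintro _ ⟨t, ht, rfl⟩
  have h3' : 0 ≤ t * (1 - r) := mul_nonneg ht.1 (by linarith)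
  have h4' : t * (1 - r) ≤ 1 - r := mul_le_of_le_one_left (by linarith) ht.2
  have h4 : r ≤ 1 - t * (1 - r) := by linarith
  have h3 : 0 ≤ 1 - t * (1 - r) := h0.trans h4
  have h5 : 1 - t * (1 - r) ≤ 1 := by linarith
  change J X Y (1 - t * (1 - r)) ∈ V2
  rw [mem_V2 h3 h5, J_mem_U2 h3 h5]
  refine ⟨fun h6 => (J_mem_U2 h0 h1).1 h2.1 ⟨h2.2.le, h4.trans h6.2.1, h6.2.2⟩,
    h2.2.trans_le h4⟩

theorem isPathConnected_V_inter : IsPathConnected (V1 ∩ V2) := by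
  rw [V_inter]
  have h1 : {x : ℝ × ℝ × ℝ | x.2.1 ∈ Ioo (1 / 4 : ℝ) (3 / 4) ∧ x.2.2 ∈ Ioo (1 / 4 : ℝ) (3 / 4)} =
      (univ : Set ℝ) ×ˢ (Ioo (1 / 4 : ℝ) (3 / 4) ×ˢ Ioo (1 / 4 : ℝ) (3 / 4)) := by
    ext x
    simp only [mem_ofPred_eq, mem_prod, mem_univ, true_and]
  have h2 : Convex ℝ ((univ : Set ℝ) ×ˢ (Ioo (1 / 4 : ℝ) (3 / 4) ×ˢ Ioo (1 / 4 : ℝ) (3 / 4))) :=
    convex_univ.prod ((convex_Ioo _ _).prod (convex_Ioo _ _))
  rw [h1]
  refine (h2.isPathConnected ⟨(0, 1 / 2, 1 / 2), ?_⟩).image continuous_Th1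
  simp only [mem_prod, mem_univ, true_and, mem_Ioo]
  norm_num

theorem isPathConnected_U2 : IsPathConnected U2 := by
  rw [← cover_U2.union]
  exact isPathConnected_V1.union isPathConnected_V2 isPathConnected_V_inter.nonempty

end Pool.Agent.EBS
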