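import Pool.Agent.EBS.G09
import Pool.Agent.EBS.F07

/-!
# G11: closed curves in `V1` and `V2`, values in commutative groups

Apply `Fn.retract` (file `F07`).
* `V1_value`: `Y = V1`, `R z s = (√(1 - (1 - s) ‖z₂‖²) z₁ / ‖z₁‖, √(1 - s) z₂)`; a convenient
  definition with values in `S3`: `R z s = J (cu z₁) (cu z₂) ((1 - s) ‖z₂‖²)`. For `z = J X Y r`,
  `0 ≤ r < 1`, it is `J X Y ((1 - s) r)` (`cu_J1`, `cu_J2`, `norm_J2`; for `r = 0` use `J_zero`),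
  and
  it lies in `V1` (see the docstring of `G09`). The continuity on `V1 × [0, 1]` must be checked at
  the
  points with `z₂ = 0` too: the components of `R z s` are `√(1 - (1 - s) ‖z₂‖²) * cu z₁` and
  `√((1 - s) ‖z₂‖²) * cu z₂ = √(1 - s) * z₂` (`norm_mul_cu`), which are continuous (`cu` is
  continuous
  away from `0`, `z₁ ≠ 0` on `V1`; `continuousOn_cu`). `R z 1 = J (cu z₁) (cu z₂) 0 = k (cu z₁, 1)`
  with `k (x, y) = J x 1 0`, `π₁ z = cu z₁`, `π₂ z = 1`, `j = 0` (`Deg.const`); the second factor is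
  `(...) ^ 0 = 1`.
* `V2_value`: `R z s = J (cu z₁) (cu z₂) (‖z₂‖² + s (1 - ‖z₂‖²))`, first component
  `√((1 - s) (1 - ‖z₂‖²)) cu z₁ = √(1 - s) z₁` (`‖z₁‖² = 1 - ‖z₂‖²`), `k (x, y) = J 1 x 1`,
  `π₁ z = cu z₂`, `J_one`.
-/

set_option autoImplicit false

noncomputable section

open Set Topology unitInterval

namespace Pool.Agent.EBS

variable {H : Type} [CommGroup H]

private theorem g11_sum (z : S3) : ‖(z : ℂ × ℂ).1‖ ^ 2 + ‖(z : ℂ × ℂ).2‖ ^ 2 = 1 := z.2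

private theorem g11_nonneg (z : S3) : 0 ≤ ‖(z : ℂ × ℂ).2‖ ^ 2 := by positivity

private theorem g11_le (z : S3) : ‖(z : ℂ × ℂ).2‖ ^ 2 ≤ 1 := by
  have h1 := g11_sum z
  have h2 := sq_nonneg ‖(z : ℂ × ℂ).1‖
  linarith

private theorem g11_fst (X Y : Circle) {r : ℝ} (h0 : 0 ≤ r) (h1 : r ≤ 1) :
    (J X Y r : ℂ × ℂ).1 = ((√(1 - r) : ℝ) : ℂ) * (X : ℂ) := by
  change ((√(1 - cl r) : ℝ) : ℂ) * (X : ℂ) = _
  rw [cl_of_mem h0 h1]

private theorem g11_snd (X Y : Circle) {r : ℝ} (h0 : 0 ≤ r) (h1 : r ≤ 1) :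
    (J X Y r : ℂ × ℂ).2 = ((√r : ℝ) : ℂ) * (Y : ℂ) := by
  change ((√(cl r) : ℝ) : ℂ) * (Y : ℂ) = _
  rw [cl_of_mem h0 h1]

private theorem g11_J (z : S3) :
    J (cu (z : ℂ × ℂ).1) (cu (z : ℂ × ℂ).2) (‖(z : ℂ × ℂ).2‖ ^ 2) = z := by
  have h' := g11_sum z
  refine Subtype.ext (Prod.ext ?_ ?_)
  · rw [g11_fst _ _ (g11_nonneg z) (g11_le z),
      show 1 - ‖(z : ℂ × ℂ).2‖ ^ 2 = ‖(z : ℂ × ℂ).1‖ ^ 2 by linarith,
      Real.sqrt_sq (norm_nonneg _)]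
    exact norm_mul_cu _
  · rw [g11_snd _ _ (g11_nonneg z) (g11_le z), Real.sqrt_sq (norm_nonneg _)]
    exact norm_mul_cu _

private theorem g11_c1 : Continuous fun z : S3 => (z : ℂ × ℂ).1 :=
  continuous_fst.comp continuous_subtype_val

private theorem g11_c2 : Continuous fun z : S3 => (z : ℂ × ℂ).2 :=
  continuous_snd.comp continuous_subtype_val

private theorem g11_coe : Continuous fun x : Circle => (x : ℂ) := continuous_subtype_val

private theorem g11_ne1 {z : S3} (h : z ∈ V1) : (z : ℂ × ℂ).1 ≠ 0 := by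
  intro h0
  have h' := g11_sum z
  have h2 := h.2
  rw [h0, norm_zero] at h'
  linarith

private theorem g11_ne2 {z : S3} (h : z ∈ V2) : (z : ℂ × ℂ).2 ≠ 0 := by
  intro h0
  have h2 := h.2
  rw [h0, norm_zero] at h2
  linarith

private theorem g11_cu1 : ContinuousOn (fun z : S3 => cu (z : ℂ × ℂ).1) V1 :=
  continuousOn_cu.comp g11_c1.continuousOn fun _ hz => g11_ne1 hz

private theorem g11_cu2 : ContinuousOn (fun z : S3 => cu (z : ℂ × ℂ).2) V2 :=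
  continuousOn_cu.comp g11_c2.continuousOn fun _ hz => g11_ne2 hz

private theorem g11_sqrt {a x : ℝ} (ha : 0 ≤ a) (ζ : ℂ) (hx : x = a * ‖ζ‖ ^ 2) :
    ((√x : ℝ) : ℂ) * ((cu ζ : Circle) : ℂ) = ((√a : ℝ) : ℂ) * ζ := by
  rw [hx, Real.sqrt_mul ha, Real.sqrt_sq (norm_nonneg _), Complex.ofReal_mul, mul_assoc,
    norm_mul_cu]

theorem V1_value (F : Fn V1 H) {c : ℝ → S3} {u v : ℝ} (hc : Cv V1 c u v) (he : c u = c v) {i : ℤ}
    (hi : Deg (fun t => cu (c t : ℂ × ℂ).1) u v i) :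
    F.cv c u v = (F.cv (fun t => J (ec t) 1 0) 0 1) ^ i := by
  have hb : ∀ z : S3, ∀ s ∈ Icc (0 : ℝ) 1, 0 ≤ (1 - s) * ‖(z : ℂ × ℂ).2‖ ^ 2 ∧
      (1 - s) * ‖(z : ℂ × ℂ).2‖ ^ 2 ≤ ‖(z : ℂ × ℂ).2‖ ^ 2 := by
    intro z s hs
    have h1 := g11_nonneg z
    have h2 := hs.1
    have h3 := hs.2
    constructor
    · exact mul_nonneg (by linarith) h1
    · nlinarith
  have hR : ContinuousOn (Function.uncurry fun (z : S3) (s : ℝ) =>
      J (cu (z : ℂ × ℂ).1) (cu (z : ℂ × ℂ).2) ((1 - s) * ‖(z : ℂ × ℂ).2‖ ^ 2))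
      (V1 ×ˢ Icc (0 : ℝ) 1) := by
    rw [Topology.IsInducing.subtypeVal.continuousOn_iff]
    have h1 : ContinuousOn (fun p : S3 × ℝ =>
        ((√(1 - (1 - p.2) * ‖(p.1 : ℂ × ℂ).2‖ ^ 2) : ℝ) : ℂ) *
          ((cu (p.1 : ℂ × ℂ).1 : Circle) : ℂ)) (V1 ×ˢ Icc (0 : ℝ) 1) := by
      refine ContinuousOn.mul ?_ ?_
      · refine (Complex.continuous_ofReal.comp (Real.continuous_sqrt.comp
          (continuous_const.sub ((continuous_const.sub continuous_snd).mul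
            ((g11_c2.comp continuous_fst).norm.pow 2))))).continuousOn
      · exact g11_coe.comp_continuousOn (g11_cu1.comp continuousOn_fst fun p hp => hp.1)
    have h2 : ContinuousOn (fun p : S3 × ℝ => ((√(1 - p.2) : ℝ) : ℂ) * (p.1 : ℂ × ℂ).2)
        (V1 ×ˢ Icc (0 : ℝ) 1) :=
      ((Complex.continuous_ofReal.comp (Real.continuous_sqrt.comp
        (continuous_const.sub continuous_snd))).mul (g11_c2.comp continuous_fst)).continuousOn
    refine (h1.prodMk h2).congr fun p hp => ?_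
    obtain ⟨hp1, hp2⟩ := hp
    have h3 := hb p.1 p.2 hp2
    refine Prod.ext ?_ ?_
    · exact g11_fst _ _ h3.1 (h3.2.trans (g11_le _))
    · refine (g11_snd _ _ h3.1 (h3.2.trans (g11_le _))).trans ?_
      exact g11_sqrt (by linarith [hp2.2]) _ rfl
  have hRm : ∀ z ∈ V1, ∀ s ∈ Icc (0 : ℝ) 1,
      J (cu (z : ℂ × ℂ).1) (cu (z : ℂ × ℂ).2) ((1 - s) * ‖(z : ℂ × ℂ).2‖ ^ 2) ∈ V1 := by
    intro z hz s hs
    obtain ⟨h1, h2⟩ := hb z s hs
    have h3 := hz.1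
    have h4 := hz.2
    rw [← g11_J z, J_mem_U2 (g11_nonneg z) (g11_le z)] at h3
    refine ⟨(J_mem_U2 h1 (h2.trans (g11_le z))).2 fun h5 => h3 ⟨h5.1.trans h2, h4.le, h5.2.2⟩, ?_⟩
    rw [norm_J2 _ _ h1 (h2.trans (g11_le z))]
    exact h2.trans_lt h4
  have hk : Continuous fun x : Circle × Circle => J x.1 1 0 :=
    continuous_J.comp (continuous_fst.prodMk (continuous_const.prodMk continuous_const))
  have hkm : ∀ x : Circle × Circle, J x.1 1 0 ∈ V1 := by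
    intro x
    refine ⟨(J_mem_U2 le_rfl zero_le_one).2 fun h => ?_, ?_⟩
    · linarith [h.1]
    · rw [norm_J2 _ _ le_rfl zero_le_one]
      norm_num
  have h := F.retract hR hRm (fun z _ => by rw [sub_zero, one_mul, g11_J]) hk hkm
    (π₁ := fun z : S3 => cu (z : ℂ × ℂ).1) (π₂ := fun _ => 1) g11_cu1 continuousOn_const
    (fun z _ => by rw [sub_self, zero_mul]; exact J_zero _ _ _) hc he hi (Deg.const 1 u v)
  rw [zpow_zero, mul_one] at h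
  exact h

theorem V2_value (F : Fn V2 H) {c : ℝ → S3} {u v : ℝ} (hc : Cv V2 c u v) (he : c u = c v) {i : ℤ}
    (hi : Deg (fun t => cu (c t : ℂ × ℂ).2) u v i) :
    F.cv c u v = (F.cv (fun t => J 1 (ec t) 1) 0 1) ^ i := by
  have hb : ∀ z : S3, ∀ s ∈ Icc (0 : ℝ) 1,
      ‖(z : ℂ × ℂ).2‖ ^ 2 ≤ ‖(z : ℂ × ℂ).2‖ ^ 2 + s * (1 - ‖(z : ℂ × ℂ).2‖ ^ 2) ∧
      ‖(z : ℂ × ℂ).2‖ ^ 2 + s * (1 - ‖(z : ℂ × ℂ).2‖ ^ 2) ≤ 1 := by
    intro z s hs
    have h1 := g11_le z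
    have h2 := hs.1
    have h3 := hs.2
    constructor <;> nlinarith
  have hR : ContinuousOn (Function.uncurry fun (z : S3) (s : ℝ) =>
      J (cu (z : ℂ × ℂ).1) (cu (z : ℂ × ℂ).2)
        (‖(z : ℂ × ℂ).2‖ ^ 2 + s * (1 - ‖(z : ℂ × ℂ).2‖ ^ 2))) (V2 ×ˢ Icc (0 : ℝ) 1) := by
    rw [Topology.IsInducing.subtypeVal.continuousOn_iff]
    have hn : Continuous fun p : S3 × ℝ => ‖(p.1 : ℂ × ℂ).2‖ ^ 2 :=
      (g11_c2.comp continuous_fst).norm.pow 2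
    have h1 : ContinuousOn (fun p : S3 × ℝ => ((√(1 - p.2) : ℝ) : ℂ) * (p.1 : ℂ × ℂ).1)
        (V2 ×ˢ Icc (0 : ℝ) 1) :=
      ((Complex.continuous_ofReal.comp (Real.continuous_sqrt.comp
        (continuous_const.sub continuous_snd))).mul (g11_c1.comp continuous_fst)).continuousOn
    have h2 : ContinuousOn (fun p : S3 × ℝ =>
        ((√(‖(p.1 : ℂ × ℂ).2‖ ^ 2 + p.2 * (1 - ‖(p.1 : ℂ × ℂ).2‖ ^ 2)) : ℝ) : ℂ) *
          ((cu (p.1 : ℂ × ℂ).2 : Circle) : ℂ)) (V2 ×ˢ Icc (0 : ℝ) 1) := by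
      refine ContinuousOn.mul ?_ ?_
      · exact (Complex.continuous_ofReal.comp (Real.continuous_sqrt.comp
          (hn.add (continuous_snd.mul (continuous_const.sub hn))))).continuousOn
      · exact g11_coe.comp_continuousOn (g11_cu2.comp continuousOn_fst fun p hp => hp.1)
    refine (h1.prodMk h2).congr fun p hp => ?_
    obtain ⟨hp1, hp2⟩ := hp
    have h3 := hb p.1 p.2 hp2
    refine Prod.ext ?_ ?_
    · refine (g11_fst _ _ ((g11_nonneg _).trans h3.1) h3.2).trans ?_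
      refine g11_sqrt (by linarith [hp2.2]) _ ?_
      have h4 := g11_sum p.1
      have h5 : ‖(p.1 : ℂ × ℂ).1‖ ^ 2 = 1 - ‖(p.1 : ℂ × ℂ).2‖ ^ 2 := by linarith
      rw [h5]
      ring
    · exact g11_snd _ _ ((g11_nonneg _).trans h3.1) h3.2
  have hRm : ∀ z ∈ V2, ∀ s ∈ Icc (0 : ℝ) 1, J (cu (z : ℂ × ℂ).1) (cu (z : ℂ × ℂ).2)
      (‖(z : ℂ × ℂ).2‖ ^ 2 + s * (1 - ‖(z : ℂ × ℂ).2‖ ^ 2)) ∈ V2 := by
    intro z hz s hs
    obtain ⟨h1, h2⟩ := hb z s hs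
    have h3 := hz.1
    have h4 := hz.2
    rw [← g11_J z, J_mem_U2 (g11_nonneg z) (g11_le z)] at h3
    refine ⟨(J_mem_U2 ((g11_nonneg z).trans h1) h2).2 fun h5 =>
      h3 ⟨h4.le, h1.trans h5.2.1, h5.2.2⟩, ?_⟩
    rw [norm_J2 _ _ ((g11_nonneg z).trans h1) h2]
    exact h4.trans_le h1
  have hk : Continuous fun x : Circle × Circle => J 1 x.1 1 :=
    continuous_J.comp (continuous_const.prodMk (continuous_fst.prodMk continuous_const))
  have hkm : ∀ x : Circle × Circle, J 1 x.1 1 ∈ V2 := by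
    intro x
    refine ⟨(J_mem_U2 zero_le_one le_rfl).2 fun h => ?_, ?_⟩
    · linarith [h.2.1]
    · rw [norm_J2 _ _ zero_le_one le_rfl]
      norm_num
  have h := F.retract hR hRm (fun z _ => by rw [zero_mul, add_zero, g11_J]) hk hkm
    (π₁ := fun z : S3 => cu (z : ℂ × ℂ).2) (π₂ := fun _ => 1) g11_cu2 continuousOn_const
    (fun z _ => by rw [one_mul, add_sub_cancel]; exact J_one _ _ _) hc he hi (Deg.const 1 u v)
  rw [zpow_zero, mul_one] at h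
  exact h

end Pool.Agent.EBS
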