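import Pool.Agent.EBS.G08
import Pool.Agent.EBS.F07

/-!
# G13: closed curves in `T2`, values in an arbitrary group

`T2 = {(x, ζ) | sq ζ > 1}`. Let `K (a, b) = (ec a, 2 * ec b)`, a continuous map `ℝ² → T2`
(`sq ζ ≥ ‖ζ‖ / √2`, since `‖ζ‖² = re² + im² ≤ 2 (sq ζ)²`), with periods `(1, 0)`, `(0, 1)`. By
`Fn.torus` for `P = 0` the elements `A = F.sv K 0 (1, 0)` and `B = F.sv K 0 (0, 1)` commute, and
`F.sv K 0 (i, j) = A ^ i * B ^ j`. `A`, `B` are the values on the two curves (`Fn.sv`, `cv_congr`).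
* `T2_value`: let `R (x, ζ) s = (x, ((1 - s) + 2 s / ‖ζ‖) ζ)`; it maps `T2 × [0, 1]` to `T2`:
  `sq (((1 - s) + 2 s / ‖ζ‖) ζ) = (1 - s) sq ζ + s sq (2 ζ / ‖ζ‖) > 1` (`sq_real_mul`). The
  square lemma (`Fn.square`) for `h s t = R (c s) t` on `[u, v] × [0, 1]`: the sides `R (c u) t`,
  `R (c v) t` are constant, since `‖2‖ = 2` and `c u = c v = (1, 2)` (`cv_const`). So
  `F.cv c u v = F.cv (fun s => R (c s) 1) u v`, and `R (c s) 1 = (x, 2 cu ζ) = K (θ₁ s, θ₂ s)` with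
  the
  lifts `θ₁`, `θ₂` of `(c s).1` and `cu (c s).2` from the definition of `Deg`. By `cv_convex`
  (`C = univ`) this is `F.sv K P (P + (i, j))`, `P = (θ₁ u, θ₂ u)`. Since `K P = (1, 2) = K 0`, `P`
  is
  a pair of integers, so by `sv_shift` (for integer vectors) it is `F.sv K 0 (i, j)`.
-/

set_option autoImplicit false

noncomputable section

open Set Topology unitInterval

namespace Pool.Agent.EBS

variable {H : Type} [Group H]

private theorem one_lt_sq {ζ : ℂ} (h : ‖ζ‖ = 2) : 1 < sq ζ := by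
  by_contra hn
  rw [not_lt] at hn
  have h1 : |ζ.re| ≤ 1 := (le_max_left _ _).trans hn
  have h2 : |ζ.im| ≤ 1 := (le_max_right _ _).trans hn
  have h3 : ζ.re ^ 2 ≤ 1 := (sq_le_one_iff_abs_le_one _).2 h1
  have h4 : ζ.im ^ 2 ≤ 1 := (sq_le_one_iff_abs_le_one _).2 h2
  have h5 : ‖ζ‖ ^ 2 = ζ.re ^ 2 + ζ.im ^ 2 := by
    rw [Complex.sq_norm, Complex.normSq_apply]
    ring
  rw [h] at h5
  linarith

private def KK (P : ℝ × ℝ) : Circle × ℂ := (ec P.1, 2 * (ec P.2 : ℂ))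

private theorem KK_cont : Continuous KK := by
  have h1 : Continuous fun P : ℝ × ℝ => ec P.1 := continuous_ec.comp continuous_fst
  have h2 : Continuous fun P : ℝ × ℝ => (ec P.2 : ℂ) :=
    continuous_subtype_val.comp (continuous_ec.comp continuous_snd)
  exact h1.prodMk (continuous_const.mul h2)

private theorem KK_mem (P : ℝ × ℝ) : KK P ∈ T2 := by
  refine one_lt_sq ?_
  change ‖2 * (ec P.2 : ℂ)‖ = 2
  rw [norm_mul, Circle.norm_coe, mul_one, Complex.norm_ofNat]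

private theorem KK_one (P : ℝ × ℝ) : KK (P + (1, 0)) = KK P := by
  change (ec (P.1 + 1), 2 * (ec (P.2 + 0) : ℂ)) = (ec P.1, 2 * (ec P.2 : ℂ))
  rw [ec_add, ec_one, mul_one, add_zero]

private theorem KK_two (P : ℝ × ℝ) : KK (P + (0, 1)) = KK P := by
  change (ec (P.1 + 0), 2 * (ec (P.2 + 1) : ℂ)) = (ec P.1, 2 * (ec P.2 : ℂ))
  rw [ec_add P.2, ec_one, mul_one, add_zero]

private theorem KK_A (F : Fn T2 H) : F.sv KK 0 (0 + (1, 0)) = F.cv (fun t => (ec t, 2)) 0 1 := by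
  refine F.cv_congr fun t _ => ?_
  change KK (AffineMap.lineMap (0 : ℝ × ℝ) (0 + (1, 0)) t) = (ec t, 2)
  rw [AffineMap.lineMap_apply, KK]
  simp [ec_zero]

private theorem KK_B (F : Fn T2 H) :
    F.sv KK 0 (0 + (0, 1)) = F.cv (fun t => (1, 2 * (ec t : ℂ))) 0 1 := by
  refine F.cv_congr fun t _ => ?_
  change KK (AffineMap.lineMap (0 : ℝ × ℝ) (0 + (0, 1)) t) = (1, 2 * (ec t : ℂ))
  rw [AffineMap.lineMap_apply, KK]
  simp [ec_zero]

theorem T2_comm (F : Fn T2 H) : Commute (F.cv (fun t => (ec t, 2)) 0 1)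
    (F.cv (fun t => (1, 2 * (ec t : ℂ))) 0 1) := by
  rw [← KK_A, ← KK_B]
  exact (F.torus KK_cont KK_mem KK_one KK_two 0).1

private def RR (z : Circle × ℂ) (s : ℝ) : Circle × ℂ :=
  (z.1, (((1 - s) + 2 * s / ‖z.2‖ : ℝ) : ℂ) * z.2)

private theorem ne_zero_T2 {z : Circle × ℂ} (h : z ∈ T2) : z.2 ≠ 0 := by
  intro h0
  have h1 : 1 < sq z.2 := h
  rw [h0, sq_zero] at h1
  linarith

private theorem RR_cont : ContinuousOn (Function.uncurry RR) (T2 ×ˢ Icc 0 1) := by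
  have hz : ContinuousOn (fun p : (Circle × ℂ) × ℝ => p.1.2) (T2 ×ˢ Icc 0 1) := by fun_prop
  have hn : ContinuousOn (fun p : (Circle × ℂ) × ℝ => (1 - p.2) + 2 * p.2 / ‖p.1.2‖)
      (T2 ×ˢ Icc 0 1) := by
    refine ContinuousOn.add (by fun_prop) (ContinuousOn.div (by fun_prop) hz.norm fun p hp => ?_)
    exact norm_ne_zero_iff.2 (ne_zero_T2 hp.1)
  have h1 : ContinuousOn (fun p : (Circle × ℂ) × ℝ => p.1.1) (T2 ×ˢ Icc 0 1) := by fun_prop
  exact h1.prodMk ((Complex.continuous_ofReal.comp_continuousOn hn).mul hz)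

private theorem RR_mem {z : Circle × ℂ} (hz : z ∈ T2) {s : ℝ} (hs : s ∈ Icc (0 : ℝ) 1) :
    RR z s ∈ T2 := by
  have h0 := ne_zero_T2 hz
  have hn : 0 < ‖z.2‖ := norm_pos_iff.2 h0
  have hq : 1 < sq z.2 := hz
  change 1 < sq ((((1 - s) + 2 * s / ‖z.2‖ : ℝ) : ℂ) * z.2)
  have h1 : 0 ≤ (1 - s) + 2 * s / ‖z.2‖ :=
    add_nonneg (sub_nonneg.2 hs.2) (div_nonneg (mul_nonneg two_pos.le hs.1) hn.le)
  rw [sq_real_mul, abs_of_nonneg h1]
  have h2 : 1 < 2 / ‖z.2‖ * sq z.2 := by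
    have h3 : 1 < sq (((2 / ‖z.2‖ : ℝ) : ℂ) * z.2) := by
      refine one_lt_sq ?_
      rw [norm_mul, Complex.norm_real, Real.norm_of_nonneg (div_nonneg two_pos.le hn.le),
        div_mul_cancel₀ _ hn.ne']
    rwa [sq_real_mul, abs_of_nonneg (div_nonneg two_pos.le hn.le)] at h3
  have h4 : ((1 - s) + 2 * s / ‖z.2‖) * sq z.2 =
      (1 - s) * sq z.2 + s * (2 / ‖z.2‖ * sq z.2) := by ring
  rw [h4]
  rcases hs.1.eq_or_lt with h5 | h5
  · rw [← h5]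
    linarith
  · have h6 := mul_lt_mul_of_pos_left h2 h5
    have h7 := mul_le_mul_of_nonneg_left hq.le (sub_nonneg.2 hs.2)
    linarith

private theorem RR_zero (z : Circle × ℂ) : RR z 0 = z := by
  rw [RR]
  simp

private theorem RR_one {z : Circle × ℂ} (hz : z ∈ T2) : RR z 1 = (z.1, 2 * (cu z.2 : ℂ)) := by
  have hn : (‖z.2‖ : ℂ) ≠ 0 := by
    rw [Complex.ofReal_ne_zero]
    exact norm_ne_zero_iff.2 (ne_zero_T2 hz)
  rw [RR, coe_cu (ne_zero_T2 hz)]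
  refine Prod.ext rfl ?_
  change (((1 - 1) + 2 * 1 / ‖z.2‖ : ℝ) : ℂ) * z.2 = 2 * (z.2 / ‖z.2‖)
  push_cast
  field_simp
  ring

private theorem RR_base (s : ℝ) : RR (1, 2) s = (1, 2) := by
  rw [RR]
  refine Prod.ext rfl ?_
  change (((1 - s) + 2 * s / ‖(2 : ℂ)‖ : ℝ) : ℂ) * 2 = 2
  rw [Complex.norm_ofNat]
  push_cast
  ring

theorem T2_value (F : Fn T2 H) {c : ℝ → Circle × ℂ} {u v : ℝ} (hc : Cv T2 c u v)
    (hu : c u = (1, 2)) (hv : c v = (1, 2)) {i j : ℤ} (hi : Deg (fun t => (c t).1) u v i)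
    (hj : Deg (fun t => cu (c t).2) u v j) :
    F.cv c u v = (F.cv (fun t => (ec t, 2)) 0 1) ^ i *
      (F.cv (fun t => (1, 2 * (ec t : ℂ))) 0 1) ^ j := by
  obtain ⟨θ₁, h1c, h1e, h1d⟩ := hi
  obtain ⟨θ₂, h2c, h2e, h2d⟩ := hj
  have hcont : ContinuousOn (Function.uncurry fun s t => RR (c s) t) (Icc u v ×ˢ Icc 0 1) := by
    have h1 : ContinuousOn (fun p : ℝ × ℝ => (c p.1, p.2)) (Icc u v ×ˢ Icc 0 1) := by
      refine ContinuousOn.prodMk ?_ continuousOn_snd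
      exact hc.cont.comp continuousOn_fst fun p hp => hp.1
    exact RR_cont.comp h1 fun p hp => ⟨hc.mem _ hp.1, hp.2⟩
  have hsq := F.square hc.le zero_le_one (fun s t => RR (c s) t) hcont
    (fun s hs t ht => RR_mem (hc.mem s hs) ht)
  have hl : F.cv (fun t => RR (c u) t) 0 1 = 1 :=
    F.cv_const (z := (1, 2)) fun t _ => by rw [hu, RR_base]
  have hr : F.cv (fun t => RR (c v) t) 0 1 = 1 :=
    F.cv_const (z := (1, 2)) fun t _ => by rw [hv, RR_base]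
  rw [hl, hr, mul_one, one_mul] at hsq
  have h4 : F.cv (fun s => RR (c s) 0) u v = F.cv c u v := F.cv_congr fun s _ => RR_zero _
  rw [h4] at hsq
  have h5 : F.cv (fun s => RR (c s) 1) u v = F.cv (fun s => KK (θ₁ s, θ₂ s)) u v := by
    refine F.cv_congr fun s hs => ?_
    rw [RR_one (hc.mem s hs)]
    change _ = (ec (θ₁ s), 2 * (ec (θ₂ s) : ℂ))
    rw [h1e s hs, h2e s hs]
  have h6 := F.cv_convex (C := univ) convex_univ KK_cont.continuousOn (fun P _ => KK_mem P) hc.le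
    (c := fun s => (θ₁ s, θ₂ s)) (h1c.prodMk h2c) (fun t _ => mem_univ _)
  have h7 : ((θ₁ v, θ₂ v) : ℝ × ℝ) = (θ₁ u, θ₂ u) + ((i : ℝ), (j : ℝ)) := by
    rw [← h1d, ← h2d, Prod.mk_add_mk]
    simp only [add_sub_cancel]
  have hu' : u ∈ Icc u v := ⟨le_rfl, hc.le⟩
  obtain ⟨n, hn⟩ : ∃ n : ℤ, θ₁ u = n := by
    have h8 : ec (θ₁ u) = ec 0 := by
      rw [h1e u hu']
      change (c u).1 = ec 0
      rw [hu, ec_zero]
    obtain ⟨n, hn⟩ := ec_eq_iff.1 h8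
    exact ⟨n, by rw [hn, zero_add]⟩
  obtain ⟨m, hm⟩ : ∃ m : ℤ, θ₂ u = m := by
    have h8 : ec (θ₂ u) = ec 0 := by
      rw [h2e u hu']
      change cu (c u).2 = ec 0
      rw [hu, ec_zero]
      have h9 := cu_mul two_pos (1 : Circle)
      rw [Circle.coe_one, mul_one] at h9
      exact_mod_cast h9
    obtain ⟨m, hm⟩ := ec_eq_iff.1 h8
    exact ⟨m, by rw [hm, zero_add]⟩
  have hper : ∀ x, KK (x + (θ₁ u, θ₂ u)) = KK x := by
    intro x
    change (ec (x.1 + θ₁ u), 2 * (ec (x.2 + θ₂ u) : ℂ)) = (ec x.1, 2 * (ec x.2 : ℂ))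
    rw [hn, hm, ec_add, ec_add, ec_int, ec_int, mul_one, mul_one]
  have h8 := F.sv_shift hper 0 ((i : ℝ), (j : ℝ))
  rw [zero_add, add_comm ((i : ℝ), (j : ℝ))] at h8
  have h9 := (F.torus KK_cont KK_mem KK_one KK_two 0).2 i j
  rw [KK_A, KK_B, zero_add] at h9
  rw [hsq, h5, h6, h7, h8, h9]

end Pool.Agent.EBS
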