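import Pool.Agent.EBS.G08

/-!
# G14: degrees of closed curves in the intersections

* `deg_V`: on `V1 ∩ V2` the functions `X z = cu z₁`, `Y z = cu z₂` are continuous (`z₁`, `z₂ ≠ 0`,
  `continuousOn_cu`). Let `i`, `j` be their degrees along `c` (`Deg.exists`). The function
  `e = Y³ X⁻⁵` has `re e < 0` on `V1 ∩ V2` (`exists_J` and `J_mem_U2`, `1/4 < r < 3/4`), so its
  degree
  along `c` is `0` (`Deg.of_re_nonpos`), and it is `3 j - 5 i` (`Deg.mul`, `Deg.zpow`,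
  `Deg.unique`). With `k = 2 i - j`: `3 k = 6 i - 3 j = i`, `5 k = 10 i - 5 j = j`.
* `deg_IO`: the same with `X = (c t).1`, `Y = cu (c t).2`, `e = Y³ X⁻³⁸`, `re e ≤ 0`
  (`mem_W1_iff`, `norm_mul_cu`); `k = 13 i - j`.
-/

set_option autoImplicit false

noncomputable section

open Set Topology unitInterval

namespace Pool.Agent.EBS

private theorem g14_V {z : S3} (hz : z ∈ V1 ∩ V2) : (z : ℂ × ℂ).1 ≠ 0 ∧ (z : ℂ × ℂ).2 ≠ 0 ∧
    (((cu (z : ℂ × ℂ).2) ^ 3 * ((cu (z : ℂ × ℂ).1) ^ 5)⁻¹ : Circle) : ℂ).re ≤ 0 := by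
  obtain ⟨⟨hU, h1⟩, -, h2⟩ := hz
  obtain ⟨X, Y, r, h0, h3, rfl⟩ := exists_J z
  rw [norm_J2 X Y h0 h3] at h1 h2
  have h4 := norm_J1 X Y h0 h3
  have h5 := norm_J2 X Y h0 h3
  refine ⟨fun h => ?_, fun h => ?_, ?_⟩
  · rw [h, norm_zero] at h4
    norm_num at h4
    linarith
  · rw [h, norm_zero] at h5
    norm_num at h5
    linarith
  · rw [cu_J1 X Y h0 (by linarith), cu_J2 X Y (by linarith) h3]
    rw [J_mem_U2 h0 h3] at hU
    by_contra h6
    rw [not_le] at h6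
    exact hU ⟨h2.le, h1.le, h6.le⟩

private theorem g14_IO {p : Circle × ℂ} (hp : p ∈ InS ∩ OutS) : p.2 ≠ 0 ∧
    (((cu p.2) ^ 3 * (p.1 ^ 38)⁻¹ : Circle) : ℂ).re ≤ 0 := by
  obtain ⟨⟨hW, h1⟩, -, h2⟩ := hp
  refine ⟨fun h => ?_, ?_⟩
  · rw [h, norm_zero] at h2
    norm_num at h2
  · have h3 : p = (p.1, ((‖p.2‖ : ℝ) : ℂ) * (cu p.2 : ℂ)) := by
      rw [norm_mul_cu]
    rw [h3, mem_W1_iff (norm_nonneg _)] at hW
    by_contra h4
    rw [not_le] at h4
    exact hW ⟨h2, h1, h4⟩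

private theorem g14_zp (X Y : Circle) (n : ℕ) :
    Y ^ (3 : ℤ) * X ^ (-(n : ℤ)) = Y ^ 3 * (X ^ n)⁻¹ := by
  rw [show (3 : ℤ) = ((3 : ℕ) : ℤ) from rfl, zpow_neg, zpow_natCast, zpow_natCast]

private theorem g14_deg {X Y : ℝ → Circle} {u v : ℝ} (huv : u ≤ v) (n : ℕ)
    (hX : ContinuousOn X (Icc u v)) (hY : ContinuousOn Y (Icc u v)) (eX : X u = X v)
    (eY : Y u = Y v) (h : ∀ t ∈ Icc u v, ((Y t ^ 3 * (X t ^ n)⁻¹ : Circle) : ℂ).re ≤ 0) :
    ∃ i j : ℤ, Deg X u v i ∧ Deg Y u v j ∧ 3 * j = n * i := by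
  obtain ⟨i, hi⟩ := Deg.exists huv hX eX
  obtain ⟨j, hj⟩ := Deg.exists huv hY eY
  refine ⟨i, j, hi, hj, ?_⟩
  have h1 := (hj.zpow 3).mul (hi.zpow (-(n : ℤ)))
  have h2 : Deg (fun t => Y t ^ (3 : ℤ) * X t ^ (-(n : ℤ))) u v 0 := by
    refine Deg.of_re_nonpos huv ?_ ?_ fun t ht => ?_
    · exact ((continuous_zpow (3 : ℤ)).comp_continuousOn hY).mul
        ((continuous_zpow (-(n : ℤ))).comp_continuousOn hX)
    · simp only [eX, eY]
    · rw [g14_zp]
      exact h t ht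
  have h3 := Deg.unique huv h1 h2
  linarith

theorem deg_V {c : ℝ → S3} {u v : ℝ} (hc : Cv (V1 ∩ V2) c u v) (he : c u = c v) :
    ∃ k : ℤ, Deg (fun t => cu (c t : ℂ × ℂ).1) u v (3 * k) ∧
      Deg (fun t => cu (c t : ℂ × ℂ).2) u v (5 * k) := by
  have h0 : ContinuousOn (fun t => (c t : ℂ × ℂ)) (Icc u v) :=
    continuous_subtype_val.comp_continuousOn hc.cont
  obtain ⟨i, j, hi, hj, hij⟩ := g14_deg (X := fun t => cu (c t : ℂ × ℂ).1)
    (Y := fun t => cu (c t : ℂ × ℂ).2) hc.le 5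
    (continuousOn_cu.comp (continuous_fst.comp_continuousOn h0) fun t ht =>
      (g14_V (hc.mem t ht)).1)
    (continuousOn_cu.comp (continuous_snd.comp_continuousOn h0) fun t ht =>
      (g14_V (hc.mem t ht)).2.1)
    (by simp only [he]) (by simp only [he]) fun t ht => (g14_V (hc.mem t ht)).2.2
  refine ⟨2 * i - j, ?_, ?_⟩
  · have h1 : 3 * (2 * i - j) = i := by
      push_cast at hij
      linarith
    rw [h1]
    exact hi
  · have h1 : 5 * (2 * i - j) = j := by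
      push_cast at hij
      linarith
    rw [h1]
    exact hj

theorem deg_IO {c : ℝ → Circle × ℂ} {u v : ℝ} (hc : Cv (InS ∩ OutS) c u v) (he : c u = c v) :
    ∃ k : ℤ, Deg (fun t => (c t).1) u v (3 * k) ∧ Deg (fun t => cu (c t).2) u v (38 * k) := by
  obtain ⟨i, j, hi, hj, hij⟩ := g14_deg (X := fun t => (c t).1)
    (Y := fun t => cu (c t).2) hc.le 38
    (continuous_fst.comp_continuousOn hc.cont)
    (continuousOn_cu.comp (continuous_snd.comp_continuousOn hc.cont) fun t ht =>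
      (g14_IO (hc.mem t ht)).1)
    (by simp only [he]) (by simp only [he]) fun t ht => (g14_IO (hc.mem t ht)).2
  refine ⟨13 * i - j, ?_, ?_⟩
  · have h1 : 3 * (13 * i - j) = i := by
      push_cast at hij
      linarith
    rw [h1]
    exact hi
  · have h1 : 38 * (13 * i - j) = j := by
      push_cast at hij
      linarith
    rw [h1]
    exact hj

end Pool.Agent.EBS
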