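import Pool.Agent.EBS.Defs

/-!
# The geometry of the knot: definitions

* `J X Y r` is the point of `S³` with coordinates of directions `X`, `Y ∈ S¹` and `|z₂|² = r`.
* `f1 : S¹ × ℂ → S³` is a tube around the torus knot `x ↦ J (x³) (x⁵) (1/2)`; with
  `s = at1 (re ζ) ∈ (-1/2, 1/2)` and `r = rho (im ζ) ∈ (0, 1)` it is
  `f1 (ec α, ζ) = Th1 α s r = J (ec (3 α + s)) (ec (5 α + 2 s)) r`. The matrix of
  `(α, s) ↦ (3 α + s, 5 α + 2 s)` has determinant `1`, so `Th1` gives coordinates on the part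
  `0 < r < 1` of the sphere.
* `ka : S¹ × ℂ → S¹ × ℂ` is a tube around the curve `x ↦ (x³, x³⁸ / 2)` on the torus `|ζ| = 1/2`;
  `ka (ec α, ζ) = Th2 α s r = (ec (3 α + s), r * ec (38 α + 13 s))` (again determinant `1`).
* `tw k` is a twist of `S¹ × ℂ`.
* `fK` is the tube around the knot `K` (the cable), with the right framing.
* The square neighbourhood `sq ζ ≤ 1` corresponds to `|s| ≤ 1/4`, `1/4 ≤ r ≤ 3/4`.
* `W1` is the exterior of the cable in `S¹ × ℂ`, `U1 = f1 '' W1`; `U2` is the (open) exterior of the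
  torus knot; `EK = U1 ∪ U2` is the exterior of `K`.
* `InS`, `OutS` is the cover of `W1` by the parts `|ζ| < 3/4`, `|ζ| > 1/4`; `V1`, `V2` is the cover
  of `U2` by the parts `|z₂|² < 3/4`, `|z₂|² > 1/4`.
-/

set_option autoImplicit false

noncomputable section

open Set Topology unitInterval

namespace Pool.Agent.EBS

/-- `arctan / π`, an increasing homeomorphism `ℝ → (-1/2, 1/2)` with `at1 1 = 1/4`. -/
def at1 (x : ℝ) : ℝ := Real.arctan x / Real.pi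

/-- An increasing homeomorphism `ℝ → (0, 1)` with `rho 1 = 3/4`. -/
def rho (x : ℝ) : ℝ := 1 / 2 + at1 x

/-- Truncation to `[0, 1]`. -/
def cl (r : ℝ) : ℝ := max 0 (min 1 r)

theorem cl_nonneg (r : ℝ) : 0 ≤ cl r := le_max_left _ _

theorem cl_le_one (r : ℝ) : cl r ≤ 1 := max_le zero_le_one (min_le_left _ _)

theorem cl_of_mem {r : ℝ} (h0 : 0 ≤ r) (h1 : r ≤ 1) : cl r = r := by
  rw [cl, min_eq_right h1, max_eq_right h0]

/-- The direction of a complex number. -/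
def cu (ζ : ℂ) : Circle := Circle.exp (Complex.arg ζ)

theorem J_aux (X Y : Circle) (r : ℝ) : ‖((√(1 - cl r) : ℝ) : ℂ) * (X : ℂ)‖ ^ 2 +
    ‖((√(cl r) : ℝ) : ℂ) * (Y : ℂ)‖ ^ 2 = 1 := by
  have h0 := cl_nonneg r
  have h1 : 0 ≤ 1 - cl r := by linarith [cl_le_one r]
  rw [norm_mul, norm_mul, Circle.norm_coe, Circle.norm_coe, mul_one, mul_one, Complex.norm_real,
    Complex.norm_real, Real.norm_of_nonneg (Real.sqrt_nonneg _),
    Real.norm_of_nonneg (Real.sqrt_nonneg _), Real.sq_sqrt h1, Real.sq_sqrt h0]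
  ring

/-- The point of the 3-sphere with directions `X`, `Y` and `|z₂|² = r`. -/
def J (X Y : Circle) (r : ℝ) : S3 :=
  ⟨(((√(1 - cl r) : ℝ) : ℂ) * (X : ℂ), ((√(cl r) : ℝ) : ℂ) * (Y : ℂ)), J_aux X Y r⟩

/-- The tube around the torus knot. -/
def f1 (p : Circle × ℂ) : S3 :=
  J (p.1 ^ 3 * ec (at1 p.2.re)) (p.1 ^ 5 * ec (2 * at1 p.2.re)) (rho p.2.im)

/-- The tube around the cable in `S¹ × ℂ`. -/
def ka (p : Circle × ℂ) : Circle × ℂ :=
  (p.1 ^ 3 * ec (at1 p.2.re),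
    ((rho p.2.im : ℝ) : ℂ) * ((p.1 ^ 38 * ec (13 * at1 p.2.re) : Circle) : ℂ))

/-- The twist of `S¹ × ℂ`: multiplication of `ζ` by `x ^ k` and scaling such that the gauge of the
square does not change. -/
def tw (k : ℤ) (p : Circle × ℂ) : Circle × ℂ :=
  (p.1, ((sq p.2 / sq (((p.1 ^ k : Circle) : ℂ) * p.2) : ℝ) : ℂ) * (((p.1 ^ k : Circle) : ℂ) * p.2))

/-- The tube around the knot `K`. -/
def fK (p : Circle × ℂ) : S3 := f1 (ka (tw (-21) p))

/-- Coordinates around the torus knot. -/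
def Th1 (α s r : ℝ) : S3 := J (ec (3 * α + s)) (ec (5 * α + 2 * s)) r

/-- Coordinates around the cable. -/
def Th2 (α s r : ℝ) : Circle × ℂ :=
  (ec (3 * α + s), (r : ℂ) * ((ec (38 * α + 13 * s) : Circle) : ℂ))

/-- The exterior of the cable in `S¹ × ℂ`. -/
def W1 : Set (Circle × ℂ) := {p | ∀ q : Circle × ℂ, sq q.2 < 1 → ka q ≠ p}

/-- The inner part of `W1`. -/
def InS : Set (Circle × ℂ) := {p | p ∈ W1 ∧ ‖p.2‖ < 3 / 4}

/-- The outer part of `W1`. -/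
def OutS : Set (Circle × ℂ) := {p | p ∈ W1 ∧ 1 / 4 < ‖p.2‖}

/-- The cable space in the sphere. -/
def U1 : Set S3 := f1 '' W1

/-- The exterior of the torus knot in the sphere. -/
def U2 : Set S3 := {z | ∀ q : Circle × ℂ, sq q.2 ≤ 1 → f1 q ≠ z}

def V1 : Set S3 := {z | z ∈ U2 ∧ ‖(z : ℂ × ℂ).2‖ ^ 2 < 3 / 4}

def V2 : Set S3 := {z | z ∈ U2 ∧ 1 / 4 < ‖(z : ℂ × ℂ).2‖ ^ 2}

/-- The exterior of the knot `K`. -/
def EK : Set S3 := {z | ∀ x ζ, sq ζ < 1 → fK (x, ζ) ≠ z}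

/-- A neighbourhood of the torus `|ζ| = 2` in `S¹ × ℂ`. -/
def T2 : Set (Circle × ℂ) := {p | 1 < sq p.2}

end Pool.Agent.EBS
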