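import Pool.Agent.EBS.TDefs

/-!
# N01: the retraction of the complement of the knot onto the exterior

Let `T` be a tube (`T.f` an open embedding), `K = T.knot = T.f (S¹ × 0)`.
* `knot` is compact, so closed. `T.ext` is closed: its complement is the image of the open set
  `{sq ζ < 1}`. `N = T.f '' {(x, ζ) | sq ζ ≤ 1}` is compact (`Circle` is compact and `{sq ζ ≤ 1}` is
  closed and bounded), so closed. `N ∪ T.ext = univ`.
* Define `R z = T.f (x, rad ζ)` if `z = T.f (x, ζ)` with `ζ ≠ 0`, `sq ζ ≤ 1`, and `R z = z`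
  otherwise
  (choose `(x, ζ)` with the inverse of `T.emb.toOpenPartialHomeomorph`, or by `if h : ∃ ..`). On
  `N ∩ T.ext` `sq ζ = 1`, so `rad ζ = ζ` and both formulas agree. `R` is continuous on `N \ K`
  (the inverse of `T.f` is continuous on `range T.f`, `continuousOn_rad`) and on `T.ext`; both sets
  are
  closed in `Kᶜ`, so `R` is continuous on `Kᶜ = (N \ K) ∪ T.ext` (`ContinuousOn.union_of_isClosed`,
  or
  `ContinuousOn.if`). `K ∩ T.ext = ∅` (`sq 0 = 0 < 1`).
-/

set_option autoImplicit false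

noncomputable section

open Set Topology unitInterval

namespace Pool.Agent.EBS

theorem isClosed_knot (T : Tube) : IsClosed T.knot :=
  (isCompact_range (T.emb.continuous.comp (by fun_prop))).isClosed

theorem ext_subset (T : Tube) : T.ext ⊆ (T.knot)ᶜ := by
  rintro z hz ⟨x, hx⟩
  exact hz x 0 (by simp [sq]) hx

private theorem N01_ext (T : Tube) : IsClosed T.ext := by
  have h : T.ext = (T.f '' {p | sq p.2 < 1})ᶜ := by
    ext z
    constructor
    · rintro hz ⟨⟨x, ζ⟩, h1, h2⟩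
      exact hz x ζ h1 h2
    · intro hz x ζ h1 h2
      exact hz ⟨(x, ζ), h1, h2⟩
  rw [h]
  exact (T.emb.isOpenMap _
    (isOpen_lt (continuous_sq.comp continuous_snd) continuous_const)).isClosed_compl

private theorem N01_N (T : Tube) : IsClosed (T.f '' {p : Circle × ℂ | sq p.2 ≤ 1}) := by
  have h : IsCompact {p : Circle × ℂ | sq p.2 ≤ 1} := by
    have h1 : {p : Circle × ℂ | sq p.2 ≤ 1} = univ ×ˢ {ζ : ℂ | sq ζ ≤ 1} := by
      ext p
      simp
    rw [h1]
    refine isCompact_univ.prod (Metric.isCompact_of_isClosed_isBounded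
      (isClosed_le continuous_sq continuous_const) ?_)
    refine (Metric.isBounded_closedBall (x := (0 : ℂ)) (r := 2)).subset fun ζ hζ => ?_
    have h2 : |ζ.re| ≤ 1 := (le_max_left _ _).trans hζ
    have h3 : |ζ.im| ≤ 1 := (le_max_right _ _).trans hζ
    rw [mem_closedBall_zero_iff]
    have h4 := Complex.norm_le_abs_re_add_abs_im ζ
    linarith
  exact (h.image T.emb.continuous).isClosed

theorem exists_out (T : Tube) : ∃ R : S3 → S3, ContinuousOn R (T.knot)ᶜ ∧
    (∀ z ∉ T.knot, R z ∈ T.ext) ∧ (∀ z ∈ T.ext, R z = z) ∧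
      ∀ (x : Circle) (ζ : ℂ), ζ ≠ 0 → sq ζ ≤ 1 → R (T.f (x, ζ)) = T.f (x, rad ζ) := by
  classical
  have hne : Nonempty (Circle × ℂ) := ⟨(1, 0)⟩
  obtain ⟨g, hg1, hg2⟩ : ∃ g : S3 → Circle × ℂ, (∀ p, g (T.f p) = p) ∧
      ContinuousOn g (range T.f) := by
    refine ⟨(T.emb.toOpenPartialHomeomorph T.f).symm, fun p => ?_, ?_⟩
    · exact (T.emb.toOpenPartialHomeomorph T.f).left_inv (by simp)
    · have h := (T.emb.toOpenPartialHomeomorph T.f).continuousOn_symm
      simpa using h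
  have hrad : ∀ ζ : ℂ, sq ζ = 1 → rad ζ = ζ := by
    intro ζ h
    rw [rad, h]
    simp
  have hcov : ∀ z, z ∈ T.f '' {p : Circle × ℂ | sq p.2 ≤ 1} ∨ z ∈ T.ext := by
    intro z
    by_cases h : z ∈ T.f '' {p : Circle × ℂ | sq p.2 ≤ 1}
    · exact Or.inl h
    · exact Or.inr fun x ζ h1 h2 => h ⟨(x, ζ), h1.le, h2⟩
  obtain ⟨R, hR1, hR2⟩ : ∃ R : S3 → S3,
      (∀ z ∈ T.f '' {p : Circle × ℂ | sq p.2 ≤ 1}, R z = T.f ((g z).1, rad (g z).2)) ∧
      ∀ z ∉ T.f '' {p : Circle × ℂ | sq p.2 ≤ 1}, R z = z :=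
    ⟨fun z => if z ∈ T.f '' {p : Circle × ℂ | sq p.2 ≤ 1} then T.f ((g z).1, rad (g z).2) else z,
      fun z hz => if_pos hz, fun z hz => if_neg hz⟩
  have hext : ∀ z ∈ T.ext, R z = z := by
    intro z hz
    by_cases h : z ∈ T.f '' {p : Circle × ℂ | sq p.2 ≤ 1}
    · rw [hR1 z h]
      obtain ⟨⟨x, ζ⟩, h1, rfl⟩ := h
      have h2 : ¬ sq ζ < 1 := fun h3 => hz x ζ h3 rfl
      have h1' : sq ζ ≤ 1 := h1
      rw [hg1, hrad ζ (le_antisymm h1' (not_lt.1 h2))]
    · exact hR2 z h
  have hf : ∀ (x : Circle) (ζ : ℂ), sq ζ ≤ 1 → R (T.f (x, ζ)) = T.f (x, rad ζ) := by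
    intro x ζ h
    rw [hR1 _ ⟨(x, ζ), h, rfl⟩, hg1]
  refine ⟨R, ?_, ?_, hext, fun x ζ _ h => hf x ζ h⟩
  · have c1 : ContinuousOn R (T.f '' {p : Circle × ℂ | sq p.2 ≤ 1} \ T.knot) := by
      have c2 : ContinuousOn (fun z => T.f ((g z).1, rad (g z).2))
          (T.f '' {p : Circle × ℂ | sq p.2 ≤ 1} \ T.knot) := by
        refine T.emb.continuous.comp_continuousOn ?_
        have c3 : ContinuousOn g (T.f '' {p : Circle × ℂ | sq p.2 ≤ 1} \ T.knot) :=
          hg2.mono fun z hz => by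
            obtain ⟨p, -, rfl⟩ := hz.1
            exact mem_range_self p
        refine (continuous_fst.comp_continuousOn c3).prodMk ?_
        refine continuousOn_rad.comp (continuous_snd.comp_continuousOn c3) ?_
        rintro z ⟨⟨⟨x, ζ⟩, -, rfl⟩, h2⟩ h3
        have h4 : (g (T.f (x, ζ))).2 = 0 := h3
        rw [hg1] at h4
        have h5 : ζ = 0 := h4
        subst h5
        exact h2 ⟨x, rfl⟩
      exact c2.congr fun z hz => hR1 z hz.1
    have c4 : ContinuousOn R T.ext := continuousOn_id.congr fun z hz => hext z hz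
    have hun : (T.knot)ᶜ ⊆ (T.f '' {p : Circle × ℂ | sq p.2 ≤ 1} \ T.knot) ∪ T.ext := by
      intro z hz
      rcases hcov z with h | h
      · exact Or.inl ⟨h, hz⟩
      · exact Or.inr h
    intro z hz
    refine ContinuousWithinAt.mono (ContinuousWithinAt.union ?_ ?_) hun
    · by_cases h : z ∈ T.f '' {p : Circle × ℂ | sq p.2 ≤ 1}
      · exact c1 z ⟨h, hz⟩
      · refine continuousWithinAt_of_notMem_closure fun h2 => h ?_
        have h3 := closure_mono sdiff_subset h2
        rwa [(N01_N T).closure_eq] at h3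
    · by_cases h : z ∈ T.ext
      · exact c4 z h
      · refine continuousWithinAt_of_notMem_closure fun h2 => h ?_
        rwa [(N01_ext T).closure_eq] at h2
  · intro z hz
    rcases hcov z with h | h
    · obtain ⟨⟨x, ζ⟩, h1, rfl⟩ := h
      have h0 : ζ ≠ 0 := by
        rintro rfl
        exact hz ⟨x, rfl⟩
      rw [hf x ζ h1]
      intro x' ζ' h2 h3
      have h4 : ζ' = rad ζ := congrArg Prod.snd (T.emb.injective h3)
      rw [h4, sq_rad h0] at h2
      exact lt_irrefl _ h2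
    · rw [hext z h]
      exact h

end Pool.Agent.EBS
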