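import Pool.Agent.EBS.F13
import Pool.Agent.EBS.TDefs

/-!
# N02: the orbits near the knot

`B` is a family of maps, `B 0 = B 1 = id`, which preserves the knot and its complement, and
`t ↦ B t (T.f (1, 0))` runs around the knot injectively.

Proof. The set of all `(t, δ)` with `B t (T.f (1, δ)) ∈ T.f '' {sq ζ < 1}` is open in `ℝ × ℝ` and
contains the compact set `[0, 1] × {0}`, so by the tube lemma (`generalized_tube_lemma`) there is
`δ ∈ (0, 1]` such that it contains `[0, 1] × [0, δ]`. Let `g` be the inverse of `T.f` on `range T.f`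
(continuous there) and `(x s t, ζ s t) = g (B t (T.f (1, s δ)))` for `s, t ∈ [0, 1]`, continuous on
`[0, 1]²`; `x s 0 = x s 1 = 1` (`B 0 = B 1 = id`). For `s = 0`: `x 0 t = γ (ec t)` has the degree
`j = 1` or `-1` (`deg_of_injective`). By `Deg.homotopy` the degree of `x 1 t` (which exists by
`Deg.exists`) is `j`. `ζ 1 t ≠ 0`: `T.f (1, δ) ∉ T.knot` (injectivity), so `B t (T.f (1, δ)) ∉
T.knot`.
The degree `k` of `cu (ζ 1 t)` exists by `Deg.exists` (`continuousOn_cu` of file `G02`, or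
directly).
Put `x = x 1`, `ζ = ζ 1`.
-/

set_option autoImplicit false

noncomputable section

open Set Topology unitInterval

namespace Pool.Agent.EBS

private theorem n02_coe (z : ℂ) (hz : z ≠ 0) :
    ((Circle.exp (Complex.arg z) : Circle) : ℂ) = z / ((‖z‖ : ℝ) : ℂ) := by
  rw [Circle.coe_exp, eq_div_iff (Complex.ofReal_ne_zero.2 (norm_ne_zero_iff.2 hz)), mul_comm]
  exact Complex.norm_mul_exp_arg_mul_I z

private theorem n02_cont : ContinuousOn (fun z : ℂ => Circle.exp (Complex.arg z)) {0}ᶜ := by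
  have h1 : Topology.IsInducing (fun z : Circle => (z : ℂ)) := Topology.IsInducing.subtypeVal
  rw [h1.continuousOn_iff]
  have h : ContinuousOn (fun z : ℂ => z / ((‖z‖ : ℝ) : ℂ)) {0}ᶜ := by
    refine continuousOn_id.div (Complex.continuous_ofReal.comp continuous_norm).continuousOn ?_
    intro z hz
    exact Complex.ofReal_ne_zero.2 (norm_ne_zero_iff.2 hz)
  exact h.congr fun z hz => n02_coe z hz

theorem exists_orbit (T : Tube) {B : ℝ → S3 → S3} (hB : Continuous (Function.uncurry B))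
    (h0 : ∀ z, B 0 z = z) (h1 : ∀ z, B 1 z = z) (hK : ∀ t z, B t z ∈ T.knot ↔ z ∈ T.knot)
    {γ : Circle → Circle} (hγ : Continuous γ) (hi : Function.Injective γ)
    (hBγ : ∀ t, B t (T.f (1, 0)) = T.f (γ (ec t), 0)) :
    ∃ (δ : ℝ) (x : ℝ → Circle) (ζ : ℝ → ℂ) (j k : ℤ), 0 < δ ∧ δ ≤ 1 ∧
      ContinuousOn x (Icc 0 1) ∧ ContinuousOn ζ (Icc 0 1) ∧ (j = 1 ∨ j = -1) ∧
      (∀ t ∈ Icc (0 : ℝ) 1, ζ t ≠ 0 ∧ sq (ζ t) < 1 ∧ B t (T.f (1, δ)) = T.f (x t, ζ t)) ∧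
      x 0 = 1 ∧ x 1 = 1 ∧ ζ 0 = δ ∧ ζ 1 = δ ∧ Deg x 0 1 j ∧
      Deg (fun t => Circle.exp (Complex.arg (ζ t))) 0 1 k := by
  set U : Set S3 := T.f '' {p : Circle × ℂ | sq p.2 < 1} with hU
  have hUo : IsOpen U := T.emb.isOpenMap _
    (isOpen_lt (continuous_sq.comp continuous_snd) continuous_const)
  have hcoe : Continuous fun r : ℝ => T.f (1, (r : ℂ)) :=
    T.emb.continuous.comp (continuous_const.prodMk Complex.continuous_ofReal)
  have hΦ : Continuous fun q : ℝ × ℝ => B q.1 (T.f (1, (q.2 : ℂ))) :=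
    hB.comp (continuous_fst.prodMk (hcoe.comp continuous_snd))
  have hW : IsOpen ((fun q : ℝ × ℝ => B q.1 (T.f (1, (q.2 : ℂ)))) ⁻¹' U) := hUo.preimage hΦ
  have hsub : Icc (0 : ℝ) 1 ×ˢ ({0} : Set ℝ) ⊆
      (fun q : ℝ × ℝ => B q.1 (T.f (1, (q.2 : ℂ)))) ⁻¹' U := by
    rintro ⟨t, r⟩ ⟨_, hr⟩
    rw [mem_singleton_iff] at hr
    change B t (T.f (1, (r : ℂ))) ∈ U
    have hr' : r = 0 := hr
    rw [hr', Complex.ofReal_zero, hBγ]
    exact ⟨(γ (ec t), 0), by simp [sq], rfl⟩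
  obtain ⟨u, v, _, hv, hu1, hv1, huv⟩ := generalized_tube_lemma isCompact_Icc
    isCompact_singleton hW hsub
  obtain ⟨ε, hε, hball⟩ := Metric.isOpen_iff.1 hv 0 (hv1 rfl)
  obtain ⟨δ, hδ0, hδ1, hδε⟩ : ∃ δ : ℝ, 0 < δ ∧ δ ≤ 1 ∧ δ < ε :=
    ⟨min 1 (ε / 2), lt_min one_pos (by linarith), min_le_left _ _,
      (min_le_right _ _).trans_lt (by linarith)⟩
  have hmem : ∀ s ∈ Icc (0 : ℝ) 1, ∀ t ∈ Icc (0 : ℝ) 1,
      ∃ q : Circle × ℂ, sq q.2 < 1 ∧ T.f q = B t (T.f (1, ((s * δ : ℝ) : ℂ))) := by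
    intro s hs t ht
    have h2 : s * δ ∈ v := by
      apply hball
      rw [Metric.mem_ball, dist_zero_right, Real.norm_of_nonneg (mul_nonneg hs.1 hδ0.le)]
      have := hs.2
      nlinarith
    exact huv (mk_mem_prod (hu1 ht) h2)
  set p : ℝ → ℝ → Circle × ℂ := fun s t =>
    Function.invFun T.f (B t (T.f (1, ((s * δ : ℝ) : ℂ)))) with hp
  have hpq : ∀ s t, ∀ q : Circle × ℂ, T.f q = B t (T.f (1, ((s * δ : ℝ) : ℂ))) → p s t = q := by
    intro s t q hq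
    rw [hp]
    simp only
    rw [← hq]
    exact Function.leftInverse_invFun T.emb.injective q
  have hpf : ∀ s ∈ Icc (0 : ℝ) 1, ∀ t ∈ Icc (0 : ℝ) 1, sq (p s t).2 < 1 ∧
      T.f (p s t) = B t (T.f (1, ((s * δ : ℝ) : ℂ))) := by
    intro s hs t ht
    obtain ⟨q, hq1, hq2⟩ := hmem s hs t ht
    rw [hpq s t q hq2]
    exact ⟨hq1, hq2⟩
  have hpc : ContinuousOn (Function.uncurry p) (Icc (0 : ℝ) 1 ×ˢ Icc (0 : ℝ) 1) := by
    rw [T.emb.isInducing.continuousOn_iff]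
    have hc : Continuous fun q : ℝ × ℝ => B q.2 (T.f (1, ((q.1 * δ : ℝ) : ℂ))) :=
      hΦ.comp (continuous_snd.prodMk (continuous_fst.mul continuous_const))
    exact hc.continuousOn.congr fun q hq => (hpf q.1 hq.1 q.2 hq.2).2
  have hend0 : ∀ s, p s 0 = (1, ((s * δ : ℝ) : ℂ)) := fun s => hpq s 0 _ (h0 _).symm
  have hend1 : ∀ s, p s 1 = (1, ((s * δ : ℝ) : ℂ)) := fun s => hpq s 1 _ (h1 _).symm
  have m1 : (1 : ℝ) ∈ Icc (0 : ℝ) 1 := ⟨zero_le_one, le_rfl⟩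
  have hline : ContinuousOn (fun t => p 1 t) (Icc 0 1) :=
    hpc.comp (continuousOn_const.prodMk continuousOn_id) fun t ht => ⟨m1, ht⟩
  have hx : ContinuousOn (fun t => (p 1 t).1) (Icc 0 1) := continuous_fst.comp_continuousOn hline
  have hζ : ContinuousOn (fun t => (p 1 t).2) (Icc 0 1) := continuous_snd.comp_continuousOn hline
  have hone : ((1 * δ : ℝ) : ℂ) = δ := by rw [one_mul]
  have hne : ∀ t ∈ Icc (0 : ℝ) 1, (p 1 t).2 ≠ 0 := by
    intro t ht h2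
    have h3 := (hpf 1 m1 t ht).2
    have h4 : T.f (p 1 t) ∈ T.knot := ⟨(p 1 t).1, congrArg T.f (Prod.ext rfl h2.symm)⟩
    rw [h3, hK] at h4
    obtain ⟨y, hy⟩ := h4
    have h5 := congrArg Prod.snd (T.emb.injective hy)
    change (0 : ℂ) = ((1 * δ : ℝ) : ℂ) at h5
    rw [hone] at h5
    exact hδ0.ne (Complex.ofReal_injective (by rw [Complex.ofReal_zero]; exact h5))
  obtain ⟨j, hj, hdj⟩ := deg_of_injective hγ hi
  have hd0 : Deg (fun t => (p 0 t).1) 0 1 j := by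
    refine hdj.congr fun t _ => ?_
    have h2 : p 0 t = (γ (ec t), 0) := by
      refine hpq 0 t _ ?_
      rw [zero_mul, Complex.ofReal_zero, hBγ]
    change γ (ec t) = (p 0 t).1
    rw [h2]
  obtain ⟨m, hm⟩ := Deg.exists (γ := fun t => (p 1 t).1) zero_le_one hx
    (by simp only [hend0, hend1])
  have hjm : j = m := Deg.homotopy (h := fun s t => (p s t).1) zero_le_one
    (continuous_fst.comp_continuousOn hpc) (fun s _ => by simp only [hend0, hend1]) hd0 hm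
  obtain ⟨k, hk⟩ := Deg.exists (γ := fun t => Circle.exp (Complex.arg (p 1 t).2)) zero_le_one
    (n02_cont.comp hζ fun t ht => hne t ht) (by simp only [hend0, hend1])
  refine ⟨δ, fun t => (p 1 t).1, fun t => (p 1 t).2, j, k, hδ0, hδ1, hx, hζ, hj, ?_, ?_, ?_, ?_,
    ?_, ?_, hk⟩
  · intro t ht
    have h2 := hpf 1 m1 t ht
    rw [hone] at h2
    exact ⟨hne t ht, h2.1, h2.2.symm⟩
  · simp only [hend0]
  · simp only [hend1]
  · simp only [hend0, hone]
  · simp only [hend1, hone]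
  · rw [hjm]
    exact hm

end Pool.Agent.EBS
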