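import Pool.Agent.EBS.N01
import Pool.Agent.EBS.N02
import Pool.Agent.EBS.G02
import Pool.Agent.EBS.G19

/-!
# N03: a circle action on the complement gives a central element

Notation: `lam`, `mu` are the values of `F` on `T.f (ec t, 1)` and `T.f (1, rad (ec t))`.
* `torus_value`: let `θ₁`, `θ₂` be lifts of `x`, `y` (from `Deg`) and `K (a, b) = T.f (ec a, rad
  (ec b))`,
  a continuous map `ℝ² → T.ext`. The curve is `K (θ₁ t, θ₂ t)`, by `Fn.cv_convex` (`C = univ`) its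
  value is `F.sv K P (P + (j, k))`, `P = (θ₁ 0, θ₂ 0)`; `ec (θ₁ 0) = x 0 = 1`, so `P` is a pair of
  integers, and by `Fn.sv_shift` the value is `F.sv K 0 (j, k)`, which is the value on
  `T.f (ec (j t), rad (ec (k t)))`; `torus_tube`.
* `central`: let `R` be as in `exists_out`, `Ft : Fn (T.knot)ᶜ H` the pull-back `F.comap R`
  (`cv_comap`: the value on a curve `c` is `F.cv (R ∘ c)`), and `δ, x, ζ, j, k` as in `exists_orbit`
  (these do not depend on `H`, `F`). Let `c` be a closed curve at `T.f (1, 1)` in `T.ext`. Let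
  `c'` be the concatenation of the radial segment `T.f (1, δ + s (1 - δ))`, `c` and the reversed
  radial
  segment, a closed curve at `T.f (1, δ)` in `(T.knot)ᶜ` (with paths: `Cv.exists_path`,
  `Path.trans`,
  `cv_path`). `R` maps the radial segment to the constant `T.f (1, rad) = T.f (1, 1)`
  (`rad r = 1` for real `r > 0`, `sq r ≤ 1`), so `Ft(c') = F(c)` (`cv_const`, and `R z = z` on
  `T.ext`). By `Fn.orbit_comm` for `Ft` and `B` the value of `Ft` on the orbit `t ↦ B t (T.f (1,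
  δ))`
  commutes with `Ft(c')`. The image of the orbit under `R` is
  `T.f (x t, rad (ζ t)) = T.f (x t, rad (y t))` with `y t = cu (ζ t)` (`sq (ζ t) < 1`, `ζ t ≠ 0`;
  `rad ζ = rad (cu ζ)` since `ζ = ‖ζ‖ cu ζ`, `rad (r ζ) = rad ζ` for `r > 0`), `y 0 = y 1 = 1`. By
  `torus_value` the value is `lam ^ j * mu ^ k`.
-/

set_option autoImplicit false

noncomputable section

open Set Topology unitInterval

namespace Pool.Agent.EBS

theorem torus_value (T : Tube) {H : Type} [Group H] (F : Fn T.ext H) {x y : ℝ → Circle}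
    (hx : ContinuousOn x (Icc 0 1)) (hy : ContinuousOn y (Icc 0 1)) (hx0 : x 0 = 1)
    (hy0 : y 0 = 1) {j k : ℤ} (hj : Deg x 0 1 j) (hk : Deg y 0 1 k) :
    F.cv (fun t => T.f (x t, rad (y t))) 0 1 = (F.cv (fun t => T.f (ec t, 1)) 0 1) ^ j *
      (F.cv (fun t => T.f (1, rad (ec t))) 0 1) ^ k := by
  obtain ⟨θ₁, hθ₁, he₁, hd₁⟩ := hj
  obtain ⟨θ₂, hθ₂, he₂, hd₂⟩ := hk
  have h00 : (0 : ℝ) ∈ Icc (0 : ℝ) 1 := ⟨le_rfl, zero_le_one⟩
  have hK : Continuous fun P : ℝ × ℝ => T.f (ec P.1, rad (ec P.2)) :=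
    T.emb.continuous.comp ((continuous_ec.comp continuous_fst).prodMk
      (continuous_rad_circle.comp (continuous_ec.comp continuous_snd)))
  obtain ⟨n₁, hn₁⟩ := ec_eq_iff.1 (show ec (θ₁ 0) = ec 0 by rw [he₁ 0 h00, hx0, ec_zero])
  obtain ⟨n₂, hn₂⟩ := ec_eq_iff.1 (show ec (θ₂ 0) = ec 0 by rw [he₂ 0 h00, hy0, ec_zero])
  have e1 : F.cv (fun t => T.f (x t, rad (y t))) 0 1 =
      F.cv (fun t => (fun P : ℝ × ℝ => T.f (ec P.1, rad (ec P.2))) (θ₁ t, θ₂ t)) 0 1 := by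
    refine F.cv_congr fun t ht => ?_
    change T.f (x t, rad (y t)) = T.f (ec (θ₁ t), rad (ec (θ₂ t)))
    rw [he₁ t ht, he₂ t ht]
  have e2 := F.cv_convex (C := (univ : Set (ℝ × ℝ)))
    (g := fun P : ℝ × ℝ => T.f (ec P.1, rad (ec P.2))) (c := fun t => (θ₁ t, θ₂ t)) convex_univ
    hK.continuousOn (fun P _ => T.bd_mem _ _) zero_le_one (hθ₁.prodMk hθ₂) fun t _ => mem_univ _
  have hsh : ∀ P : ℝ × ℝ, (fun P : ℝ × ℝ => T.f (ec P.1, rad (ec P.2)))
      (P + ((n₁ : ℝ), (n₂ : ℝ))) = (fun P : ℝ × ℝ => T.f (ec P.1, rad (ec P.2))) P := by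
    intro P
    change T.f (ec (P.1 + n₁), rad (ec (P.2 + n₂))) = T.f (ec P.1, rad (ec P.2))
    rw [ec_add, ec_add, ec_int, ec_int, mul_one, mul_one]
  have e3 := F.sv_shift (g := fun P : ℝ × ℝ => T.f (ec P.1, rad (ec P.2)))
    (k := ((n₁ : ℝ), (n₂ : ℝ))) hsh (0 : ℝ × ℝ) ((j : ℝ), (k : ℝ))
  have p0 : (0 : ℝ × ℝ) + ((n₁ : ℝ), (n₂ : ℝ)) = (θ₁ 0, θ₂ 0) := by
    rw [hn₁, hn₂]
    ext <;> simp
  have p1 : ((j : ℝ), (k : ℝ)) + ((n₁ : ℝ), (n₂ : ℝ)) = (θ₁ 1, θ₂ 1) := by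
    ext
    · simp
      linarith
    · simp
      linarith
  rw [p0, p1] at e3
  rw [e1, e2, e3, ← (torus_tube T F).2 j k]
  refine F.cv_congr fun t _ => ?_
  have e : AffineMap.lineMap (0 : ℝ × ℝ) ((j : ℝ), (k : ℝ)) t = (j * t, k * t) := by
    rw [AffineMap.lineMap_apply_module']
    ext <;> simp [mul_comm]
  beta_reduce
  rw [e]

private theorem n03_rad_mul {r : ℝ} (hr : 0 < r) (ζ : ℂ) : rad (r * ζ) = rad ζ := by
  by_cases h : ζ = 0
  · rw [h, mul_zero]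
  · have h1 : (sq ζ : ℂ) ≠ 0 := by
      exact_mod_cast (sq_pos h).ne'
    have h2 : (r : ℂ) ≠ 0 := by
      exact_mod_cast hr.ne'
    unfold rad
    rw [sq_real_mul, abs_of_pos hr]
    push_cast
    field_simp

private theorem n03_rad_real {r : ℝ} (hr : 0 < r) : rad (r : ℂ) = 1 := by
  have h := n03_rad_mul hr 1
  rw [mul_one] at h
  rw [h]
  have h1 := rad_one
  rwa [Circle.coe_one] at h1

private theorem n03_sq_real {r : ℝ} (hr : 0 ≤ r) : sq (r : ℂ) = r := by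
  unfold sq
  rw [Complex.ofReal_re, Complex.ofReal_im, abs_zero, abs_of_nonneg hr, max_eq_left hr]

theorem central (T : Tube) {B : ℝ → S3 → S3} (hB : Continuous (Function.uncurry B))
    (h0 : ∀ z, B 0 z = z) (h1 : ∀ z, B 1 z = z) (hK : ∀ t z, B t z ∈ T.knot ↔ z ∈ T.knot)
    {γ : Circle → Circle} (hγ : Continuous γ) (hi : Function.Injective γ)
    (hBγ : ∀ t, B t (T.f (1, 0)) = T.f (γ (ec t), 0)) :
    ∃ j k : ℤ, (j = 1 ∨ j = -1) ∧ ∀ (H : Type) [Group H] (F : Fn T.ext H) (c : ℝ → S3),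
      Cv T.ext c 0 1 → c 0 = T.f (1, 1) → c 1 = T.f (1, 1) →
        Commute ((F.cv (fun t => T.f (ec t, 1)) 0 1) ^ j *
          (F.cv (fun t => T.f (1, rad (ec t))) 0 1) ^ k) (F.cv c 0 1) := by
  obtain ⟨R, hRc, hRm, hRe, hRf⟩ := exists_out T
  obtain ⟨δ, x, ζ, j, k, hδ, hδ1, hxc, hζc, hj, hζ, hx0, hx1, hζ0, hζ1, hdx, hdz⟩ :=
    exists_orbit T hB h0 h1 hK hγ hi hBγ
  refine ⟨j, k, hj, fun H _ F c hc hc0 hc1 => ?_⟩
  let r : C(((T.knot)ᶜ : Set S3), T.ext) := ⟨fun z => ⟨R z, hRm z z.2⟩,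
    (continuousOn_iff_continuous_domRestrict.1 hRc).subtype_mk _⟩
  have hcK : Cv (T.knot)ᶜ c 0 1 := ⟨hc.le, hc.cont, fun t ht => ext_subset T (hc.mem t ht)⟩
  -- the radial points
  have hrad : ∀ s : ℝ, 0 < s → s ≤ 1 → T.f (1, (s : ℂ)) ∉ T.knot ∧
      R (T.f (1, (s : ℂ))) = T.f (1, 1) := by
    intro s hs hs1
    constructor
    · rintro ⟨x', hx'⟩
      have h2 : (0 : ℂ) = s := congrArg Prod.snd (T.emb.injective hx')
      exact hs.ne (by exact_mod_cast h2)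
    · rw [hRf 1 s (by exact_mod_cast hs.ne') (by rw [n03_sq_real hs.le]; exact hs1),
        n03_rad_real hs]
  have hseg : ∀ s ∈ Icc (0 : ℝ) 1, 0 < δ + s * (1 - δ) ∧ δ + s * (1 - δ) ≤ 1 := by
    intro s hs
    constructor
    · nlinarith [hs.1, hs.2]
    · nlinarith [hs.1, hs.2]
  have hBm : ∀ t, ∀ z ∈ (T.knot)ᶜ, B t z ∈ (T.knot)ᶜ := fun t z hz h => hz ((hK t z).1 h)
  -- the square
  have hsq := (F.comap r).square zero_le_one zero_le_one
    (fun s t => B t (T.f (1, ((δ + s * (1 - δ) : ℝ) : ℂ)))) (by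
      refine Continuous.continuousOn ?_
      exact hB.comp (continuous_snd.prodMk (T.emb.continuous.comp (continuous_const.prodMk
        (Complex.continuous_ofReal.comp (by fun_prop))))))
    (fun s hs t _ => hBm t _ (hrad _ (hseg s hs).1 (hseg s hs).2).1)
  have hside : ∀ u : ℝ, (∀ z, B u z = z) → (F.comap r).cv
      (fun s => B u (T.f (1, ((δ + s * (1 - δ) : ℝ) : ℂ)))) 0 1 = 1 := by
    intro u hu
    have hcv : Cv (T.knot)ᶜ (fun s : ℝ => B u (T.f (1, ((δ + s * (1 - δ) : ℝ) : ℂ)))) 0 1 := by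
      refine ⟨zero_le_one, Continuous.continuousOn ?_, fun s hs => ?_⟩
      · exact hB.comp (continuous_const.prodMk (T.emb.continuous.comp (continuous_const.prodMk
          (Complex.continuous_ofReal.comp (by fun_prop)))))
      · exact hBm u _ (hrad _ (hseg s hs).1 (hseg s hs).2).1
    rw [F.cv_comap r hcv (fun _ => T.f (1, 1)) fun s hs => ?_]
    · exact F.cv_const fun _ _ => rfl
    · change T.f (1, 1) = R (B u (T.f (1, ((δ + s * (1 - δ) : ℝ) : ℂ))))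
      rw [hu, (hrad _ (hseg s hs).1 (hseg s hs).2).2]
  rw [hside 0 h0, hside 1 h1, one_mul, mul_one] at hsq
  have hcomm := (F.comap r).orbit_comm (B := B) hB.continuousOn hBm (fun z _ => h0 z)
    (fun z _ => h1 z) hcK (by rw [hc0, hc1])
  have ec1 : (F.comap r).cv (fun t => B t (c 0)) 0 1 =
      (F.comap r).cv (fun t => B t (T.f (1, (δ : ℂ)))) 0 1 := by
    have e1 : (fun t => B t (c 0)) = fun t => B t (T.f (1, ((δ + 1 * (1 - δ) : ℝ) : ℂ))) := by
      funext t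
      rw [hc0]
      have : δ + 1 * (1 - δ) = 1 := by ring
      rw [this, Complex.ofReal_one]
    have e2 : (fun t => B t (T.f (1, (δ : ℂ)))) =
        fun t => B t (T.f (1, ((δ + 0 * (1 - δ) : ℝ) : ℂ))) := by
      funext t
      have : δ + 0 * (1 - δ) = δ := by ring
      rw [this]
    rw [e1, e2]
    exact hsq
  have ec2 : (F.comap r).cv c 0 1 = F.cv c 0 1 :=
    F.cv_comap r hcK c fun t ht => (hRe _ (hc.mem t ht)).symm
  have hyc : ContinuousOn (fun t => Circle.exp (Complex.arg (ζ t))) (Icc 0 1) :=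
    continuousOn_cu.comp hζc fun t ht => (hζ t ht).1
  have ec3 : (F.comap r).cv (fun t => B t (T.f (1, (δ : ℂ)))) 0 1 =
      F.cv (fun t => T.f (x t, rad (Circle.exp (Complex.arg (ζ t))))) 0 1 := by
    have hcv : Cv (T.knot)ᶜ (fun t : ℝ => B t (T.f (1, (δ : ℂ)))) 0 1 := by
      refine ⟨zero_le_one, Continuous.continuousOn ?_, fun t _ => hBm t _ (hrad δ hδ hδ1).1⟩
      exact hB.comp (continuous_id.prodMk continuous_const)
    refine F.cv_comap r hcv _ fun t ht => ?_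
    obtain ⟨hz, hz1, hBt⟩ := hζ t ht
    change T.f (x t, rad (Circle.exp (Complex.arg (ζ t)))) = R (B t (T.f (1, (δ : ℂ))))
    rw [hBt, hRf _ _ hz hz1.le]
    have hn : 0 < ‖ζ t‖ := norm_pos_iff.2 hz
    have h2 : ζ t = (‖ζ t‖ : ℂ) * ((Circle.exp (Complex.arg (ζ t)) : Circle) : ℂ) := by
      rw [Circle.coe_exp, Complex.norm_mul_exp_arg_mul_I]
    conv_rhs => rw [h2]
    rw [n03_rad_mul hn]
  have hy0 : Circle.exp (Complex.arg (ζ 0)) = 1 := by
    rw [hζ0, Complex.arg_ofReal_of_nonneg hδ.le, Circle.exp_zero]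
  rw [ec1, ec2, ec3, torus_value T F hxc hyc hx0 hy0 hdx hdz] at hcomm
  exact hcomm

end Pool.Agent.EBS
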