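import Pool.Agent.EBS.F06
import Pool.Agent.EBS.F10
import Pool.Agent.EBS.F14
import Pool.Agent.EBS.G09
import Pool.Agent.EBS.G14
import Pool.Agent.EBS.G16

/-!
# N05: functionals on the second piece

* `exists_pow`: `exists_degZ'` and `Fn.hom` with the homomorphism `zpowersHom H C`
  (`Multiplicative ℤ →* H`, `n ↦ C ^ n`).
* `exists_F2`: let `Fa` on `V1` and `Fb` on `V2` be the functionals of `exists_pow` for `z ↦ cu
  z₁`, `C1`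
  and `z ↦ cu z₂`, `C2` (continuous on `V1`, resp. `V2`: `continuousOn_cu`). Closed curves in `V1 ∩
  V2`
  have degrees `3 k`, `5 k` (`deg_V`) and `C1 ^ (3 k) = C2 ^ (5 k)`. By `exists_glue'` (`cover_U2`,
  `isPathConnected_V_inter`, `x = f1 (1, 2) ∈ V1 ∩ V2`: `cv_h2` at `t = 0`) there are `F : Fn U2 H`
  and
  `γ` with `γ x = 1`, `F(c) = Fa(c)` on `V1`, `F(c) = γ (c u) * Fb(c) * (γ (c v))⁻¹` on `V2`.
  `F(f1 (ec t, 2)) = C1 ^ 3` (`cv_h2`, `deg_h2`; closed, since `ec 0 = ec 1`).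
  Let `k` be the value of `F` on the segment (`cv_seg_U`), `P = gU (1/2, 1/2)`. `k = Fa(seg)` is a
  power
  of `C1`, `F(cB) = C1` (`cv_cB_U`, `deg_cB_U`), so `k * F(cB) * k⁻¹ = C1`. And `k = Fb(seg) * (γ
  P)⁻¹`,
  `F(cT) = γ P * C2 ^ 2 * (γ P)⁻¹` (`cv_cT_U`, `deg_cT_U`, `gU_cT_zero`, `gU_cT_one`), so
  `k * F(cT) * k⁻¹ = Fb(seg) * C2 ^ 2 * Fb(seg)⁻¹ = C2 ^ 2` (powers of `C2`). By `m_U`
  `F(f1 (1, 2 ec t)) = (C2 ^ 2)⁻¹ * C1`.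
  The closed curve with value `C1`: the concatenation of the segment from `gU (at1 2, 1/2) = f1 (1,
  2)`
  to `P`, `cB`, and the reversed segment (with paths in `U2`: `Cv.exists_path`, `trans`, `v_symm`,
  `cv_path`); its value is `k * F(cB) * k⁻¹ = C1`.
-/

set_option autoImplicit false

noncomputable section

open Set Topology unitInterval

namespace Pool.Agent.EBS

theorem exists_pow {Z : Type} [TopologicalSpace Z] {Y : Set Z} {π : Z → Circle}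
    (hπ : ContinuousOn π Y) {H : Type} [Group H] (C : H) :
    ∃ F : Fn Y H, (∀ (c : ℝ → Z) (u v : ℝ), ∃ n : ℤ, F.cv c u v = C ^ n) ∧
      ∀ (c : ℝ → Z) (u v : ℝ), Cv Y c u v → c u = c v → ∀ n : ℤ,
        Deg (fun t => π (c t)) u v n → F.cv c u v = C ^ n := by
  obtain ⟨F, hF⟩ := exists_degZ' hπ
  refine ⟨F.hom (zpowersHom H C), fun c u v => ⟨Multiplicative.toAdd (F.cv c u v), ?_⟩,
    fun c u v hc he n hn => ?_⟩
  · rw [Fn.cv_hom]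
    rfl
  · rw [Fn.cv_hom, hF c u v hc he n hn]
    rfl

theorem exists_F2 {H : Type} [Group H] (C1 C2 : H) (h : C1 ^ 3 = C2 ^ 5) :
    ∃ F : Fn U2 H, F.cv (fun t => f1 (ec t, 2)) 0 1 = C1 ^ 3 ∧
      F.cv (fun t => f1 (1, 2 * (ec t : ℂ))) 0 1 = (C2 ^ 2)⁻¹ * C1 ∧
      ∃ c : ℝ → S3, Cv U2 c 0 1 ∧ c 0 = f1 (1, 2) ∧ c 1 = f1 (1, 2) ∧ F.cv c 0 1 = C1 := by
  have c1 : ContinuousOn (fun z : S3 => cu (z : ℂ × ℂ).1) V1 := by
    refine continuousOn_cu.comp (by fun_prop) fun z hz => ?_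
    intro h0
    replace h0 : (z : ℂ × ℂ).1 = 0 := h0
    have h1 := z.2
    rw [h0, norm_zero] at h1
    have h2 := hz.2
    have h3 : ‖(z : ℂ × ℂ).2‖ ^ 2 = 1 := by linarith
    rw [h3] at h2
    norm_num at h2
  have c2 : ContinuousOn (fun z : S3 => cu (z : ℂ × ℂ).2) V2 := by
    refine continuousOn_cu.comp (by fun_prop) fun z hz => ?_
    intro h0
    replace h0 : (z : ℂ × ℂ).2 = 0 := h0
    have h2 := hz.2
    rw [h0, norm_zero] at h2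
    norm_num at h2
  obtain ⟨Fa, ha, ha'⟩ := exists_pow c1 C1
  obtain ⟨Fb, hb, hb'⟩ := exists_pow c2 C2
  have e0 : f1 (ec 0, 2) = f1 (1, 2) := by rw [ec_zero]
  have e1 : f1 (ec 1, 2) = f1 (1, 2) := by rw [ec_one]
  have hx : f1 (1, 2) ∈ V1 ∩ V2 := by
    rw [← e0]
    exact cv_h2.left
  have hV1 : ∀ {c : ℝ → S3} {u v : ℝ}, Cv (V1 ∩ V2) c u v → Cv V1 c u v :=
    fun hc => ⟨hc.le, hc.cont, fun t ht => (hc.mem t ht).1⟩
  have hV2 : ∀ {c : ℝ → S3} {u v : ℝ}, Cv (V1 ∩ V2) c u v → Cv V2 c u v :=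
    fun hc => ⟨hc.le, hc.cont, fun t ht => (hc.mem t ht).2⟩
  have hVU : ∀ {c : ℝ → S3} {u v : ℝ}, Cv V1 c u v → Cv U2 c u v :=
    fun hc => ⟨hc.le, hc.cont, fun t ht => (hc.mem t ht).1⟩
  obtain ⟨F, γ, hγ, hF1, hF2⟩ := exists_glue' cover_U2 isPathConnected_V_inter hx Fa Fb (by
    intro c u v hc hu hv
    have he : c u = c v := hu.trans hv.symm
    obtain ⟨k, k1, k2⟩ := deg_V hc he
    rw [ha' c u v (hV1 hc) he _ k1, hb' c u v (hV2 hc) he _ k2, zpow_mul, zpow_mul]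
    congr 1
    exact_mod_cast h)
  have hh : F.cv (fun t => f1 (ec t, 2)) 0 1 = C1 ^ 3 := by
    rw [hF1 _ _ _ (hV1 cv_h2), ha' _ _ _ (hV1 cv_h2) (e0.trans e1.symm) 3 deg_h2.1,
      zpow_ofNat]
  obtain ⟨seg, hseg⟩ : ∃ seg : ℝ → S3, seg = fun t => gU (AffineMap.lineMap
    (at1 2, 1 / 2) (1 / 2, 1 / 2) t) := ⟨_, rfl⟩
  have hsv : F.sv gU (at1 2, 1 / 2) (1 / 2, 1 / 2) = F.cv seg 0 1 := by
    rw [hseg]
    rfl
  have hcs : Cv (V1 ∩ V2) seg 0 1 := by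
    rw [hseg]
    exact cv_seg_U
  have s0 : seg 0 = f1 (1, 2) := by
    rw [hseg]
    simp only [AffineMap.lineMap_apply_zero]
    exact gU_start
  have s1 : seg 1 = gU (1 / 2, 1 / 2) := by
    rw [hseg]
    simp only [AffineMap.lineMap_apply_one]
  obtain ⟨n, hn⟩ := ha seg 0 1
  obtain ⟨m, hm⟩ := hb seg 0 1
  have k1 : F.cv seg 0 1 = C1 ^ n := by rw [hF1 _ _ _ (hV1 hcs), hn]
  have k2 : F.cv seg 0 1 = C2 ^ m * (γ (gU (1 / 2, 1 / 2)))⁻¹ := by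
    rw [hF2 _ _ _ (hV2 hcs), hm, s0, s1, hγ, one_mul]
  have hB : F.cv (fun t => gU (cB t)) 0 1 = C1 := by
    rw [hF1 _ _ _ cv_cB_U, ha' _ _ _ cv_cB_U (gU_cB_zero.trans gU_cB_one.symm) 1 deg_cB_U,
      zpow_one]
  have hT : F.cv (fun t => gU (cT t)) 0 1 =
      γ (gU (1 / 2, 1 / 2)) * C2 ^ 2 * (γ (gU (1 / 2, 1 / 2)))⁻¹ := by
    rw [hF2 _ _ _ cv_cT_U, hb' _ _ _ cv_cT_U (gU_cT_zero.trans gU_cT_one.symm) 2 deg_cT_U,
      gU_cT_zero, gU_cT_one, zpow_ofNat]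
  have hkB : F.cv seg 0 1 * F.cv (fun t => gU (cB t)) 0 1 * (F.cv seg 0 1)⁻¹ = C1 := by
    rw [hB, k1, mul_inv_eq_iff_eq_mul]
    exact ((Commute.refl C1).zpow_left n)
  have hkT : F.cv seg 0 1 * F.cv (fun t => gU (cT t)) 0 1 * (F.cv seg 0 1)⁻¹ = C2 ^ 2 := by
    rw [hT, k2, mul_inv_eq_iff_eq_mul]
    have hcm : C2 ^ m * C2 ^ 2 = C2 ^ 2 * C2 ^ m := ((Commute.refl C2).pow_right 2).zpow_left m
    calc C2 ^ m * (γ (gU (1 / 2, 1 / 2)))⁻¹ *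
        (γ (gU (1 / 2, 1 / 2)) * C2 ^ 2 * (γ (gU (1 / 2, 1 / 2)))⁻¹)
        = (C2 ^ m * C2 ^ 2) * (γ (gU (1 / 2, 1 / 2)))⁻¹ := by group
      _ = C2 ^ 2 * (C2 ^ m * (γ (gU (1 / 2, 1 / 2)))⁻¹) := by rw [hcm, mul_assoc]
  refine ⟨F, hh, ?_, ?_⟩
  · rw [m_U, hsv]
    have e : F.cv seg 0 1 * ((F.cv (fun t => gU (cT t)) 0 1)⁻¹ * F.cv (fun t => gU (cB t)) 0 1) *
        (F.cv seg 0 1)⁻¹ = (F.cv seg 0 1 * F.cv (fun t => gU (cT t)) 0 1 * (F.cv seg 0 1)⁻¹)⁻¹ *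
          (F.cv seg 0 1 * F.cv (fun t => gU (cB t)) 0 1 * (F.cv seg 0 1)⁻¹) := by group
    rw [e, hkB, hkT]
  · have hU1 := hVU (hV1 hcs)
    have hU2 := hVU cv_cB_U
    have hxU : f1 (1, 2) ∈ U2 := hx.1.1
    have hPU : gU (1 / 2, 1 / 2) ∈ U2 := by
      rw [← s1]
      exact hU1.right
    obtain ⟨p, hp⟩ := hU1.exists_path (x := ⟨f1 (1, 2), hxU⟩) (y := ⟨gU (1 / 2, 1 / 2), hPU⟩)
      s0 s1
    obtain ⟨q, hq⟩ := hU2.exists_path (x := ⟨gU (1 / 2, 1 / 2), hPU⟩)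
      (y := ⟨gU (1 / 2, 1 / 2), hPU⟩) gU_cB_zero gU_cB_one
    obtain ⟨h1, h2⟩ := F.cv_path ((p.trans q).trans p.symm)
    refine ⟨_, h1, ?_, ?_, ?_⟩
    · simp only [Path.extend_zero]
    · simp only [Path.extend_one]
    · rw [h2, F.trans, F.trans, F.v_symm, hp, hq]
      exact hkB

end Pool.Agent.EBS
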