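import Pool.Agent.EBS.N05
import Pool.Agent.EBS.G10
import Pool.Agent.EBS.G17

/-!
# N06: functionals on the first piece

* `exists_pow2`: with `F₁`, `F₂` from `exists_pow` for `π₁`, `L` and `π₂`, `M` put
  `v p = F₁.v p * F₂.v p`; `trans` holds since powers of `L` and `M` commute. `mem`: `cv_path`,
  `cv_eq`
  (a value on a path is a value on a curve), powers of `L`, `M` lie in the closure.
* `exists_F1`: let `Fo` on `OutS` be the functional of `exists_pow2` for `π₁ p = p.1`, `π₂ p = cu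
  p.2`
  (`continuousOn_cu`, `p.2 ≠ 0` on `OutS`) and `L`, `M`; let `Fi` on `InS` be the one of
  `exists_pow` for
  `π p = p.1`, `C0`. Closed curves in `InS ∩ OutS` have degrees `3 k`, `38 k` (`deg_IO`) and
  `L ^ (3 k) * M ^ (38 k) = (L ^ 3 * M ^ 38) ^ k = C0 ^ (3 k)`. By `exists_glue'` (for the cover
  `cover_W1.symm`; `OutS ∩ InS = InS ∩ OutS`, `isPathConnected_IO_inter`; `x = P = gW (1/2, 1/2)`,
  which
  lies in both: `cv_seg_W` at `t = 1`) there are `F : Fn W1 H` and `γ` with `γ P = 1`, `F(c) =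
  Fo(c)` on
  `OutS`, `F(c) = γ (c u) * Fi(c) * (γ (c v))⁻¹` on `InS`. Let `g` be the value of `F` on the
  segment
  (`cv_seg_W`, a curve in `OutS`), so `g ∈ closure {L, M}`. By `mu_W` the value on
  `ka (1, rad (ec t))` is `g * (F(cT)⁻¹ * F(cB)) * g⁻¹` with `F(cT) = L * M ^ 13` (`cv_cT_W`,
  `deg_cT_W`;
  closed by `gW_cT_zero`, `gW_cT_one`) and `F(cB) = C0` (`cv_cB_W`, `deg_cB_W`, end points `P`,
  `γ P = 1`). By `h1_W` the value on `ka (ec t, 1)` is `g * F(Th2 t (1/2) (1/2)) * g⁻¹` and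
  `F(Th2 t (1/2) (1/2)) = L ^ 3 * M ^ 38 = C0 ^ 3` (`cv_h1'`, `deg_h1'`).
-/

set_option autoImplicit false

noncomputable section

open Set Topology unitInterval

namespace Pool.Agent.EBS

theorem exists_pow2 {Z : Type} [TopologicalSpace Z] {Y : Set Z} {π₁ π₂ : Z → Circle}
    (hπ₁ : ContinuousOn π₁ Y) (hπ₂ : ContinuousOn π₂ Y) {H : Type} [Group H] {L M : H}
    (hLM : Commute L M) :
    ∃ F : Fn Y H, (∀ (c : ℝ → Z) (u v : ℝ), F.cv c u v ∈ Subgroup.closure {L, M}) ∧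
      ∀ (c : ℝ → Z) (u v : ℝ), Cv Y c u v → c u = c v → ∀ i j : ℤ,
        Deg (fun t => π₁ (c t)) u v i → Deg (fun t => π₂ (c t)) u v j →
          F.cv c u v = L ^ i * M ^ j := by
  obtain ⟨F₁, h1a, h1b⟩ := exists_pow hπ₁ L
  obtain ⟨F₂, h2a, h2b⟩ := exists_pow hπ₂ M
  have e1 : ∀ {x y : Y} (p : Path x y), ∃ n : ℤ, F₁.v p = L ^ n := by
    intro x y p
    obtain ⟨n, hn⟩ := h1a (fun t => (p.extend t : Z)) 0 1
    exact ⟨n, by rw [← hn, (F₁.cv_path p).2]⟩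
  have e2 : ∀ {x y : Y} (p : Path x y), ∃ n : ℤ, F₂.v p = M ^ n := by
    intro x y p
    obtain ⟨n, hn⟩ := h2a (fun t => (p.extend t : Z)) 0 1
    exact ⟨n, by rw [← hn, (F₂.cv_path p).2]⟩
  let F : Fn Y H :=
    { v := fun p => F₁.v p * F₂.v p
      homo := fun hpq => by rw [F₁.homo hpq, F₂.homo hpq]
      trans := fun p q => by
        obtain ⟨i, hi⟩ := e1 q
        obtain ⟨j, hj⟩ := e2 p
        rw [F₁.trans, F₂.trans, hi, hj]
        have h1 : L ^ i * M ^ j = M ^ j * L ^ i := (hLM.zpow_zpow i j).eq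
        rw [mul_assoc, ← mul_assoc (L ^ i), h1, mul_assoc, mul_assoc] }
  have hcv : ∀ (c : ℝ → Z) (u v : ℝ), Cv Y c u v → F.cv c u v = F₁.cv c u v * F₂.cv c u v := by
    intro c u v h
    rw [F.cv_eq h, F₁.cv_eq h, F₂.cv_eq h]
  refine ⟨F, fun c u v => ?_, fun c u v h he i j hi hj => ?_⟩
  · by_cases h : Cv Y c u v
    · rw [hcv c u v h]
      obtain ⟨n, hn⟩ := h1a c u v
      obtain ⟨m, hm⟩ := h2a c u v
      rw [hn, hm]
      exact mul_mem (zpow_mem (Subgroup.subset_closure (by simp)) n)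
        (zpow_mem (Subgroup.subset_closure (by simp)) m)
    · have h1 : F.cv c u v = 1 := dif_neg h
      rw [h1]
      exact one_mem _
  · rw [hcv c u v h, h1b c u v h he i hi, h2b c u v h he j hj]

theorem exists_F1 {H : Type} [Group H] {C0 L M : H} (hLM : Commute L M)
    (h : C0 ^ 3 = L ^ 3 * M ^ 38) : ∃ (F : Fn W1 H) (g : H),
      g ∈ Subgroup.closure {L, M} ∧
      (∀ (c : ℝ → Circle × ℂ) (u v : ℝ), Cv OutS c u v →
        F.cv c u v ∈ Subgroup.closure {L, M}) ∧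
      (∀ (c : ℝ → Circle × ℂ) (u v : ℝ), Cv OutS c u v → c u = c v → ∀ i j : ℤ,
        Deg (fun t => (c t).1) u v i → Deg (fun t => cu (c t).2) u v j →
          F.cv c u v = L ^ i * M ^ j) ∧
      F.cv (fun t => ka (1, rad (ec t))) 0 1 = g * ((L * M ^ 13)⁻¹ * C0) * g⁻¹ ∧
      F.cv (fun t => ka (ec t, 1)) 0 1 = g * C0 ^ 3 * g⁻¹ := by
  have hout : ∀ p ∈ OutS, p.2 ∈ ({0}ᶜ : Set ℂ) := by
    intro p hp h0
    have h1 := hp.2
    rw [mem_singleton_iff] at h0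
    rw [h0, norm_zero] at h1
    norm_num at h1
  obtain ⟨Fo, ho1, ho2⟩ := exists_pow2 (Y := OutS) (π₁ := fun p : Circle × ℂ => p.1)
    (π₂ := fun p : Circle × ℂ => cu p.2) continuous_fst.continuousOn
    (continuousOn_cu.comp continuous_snd.continuousOn hout) hLM
  obtain ⟨Fi, -, hi2⟩ := exists_pow (Y := InS) (π := fun p : Circle × ℂ => p.1)
    continuous_fst.continuousOn C0
  have hL3 : ∀ k : ℤ, C0 ^ (3 * k) = L ^ (3 * k) * M ^ (38 * k) := by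
    intro k
    rw [zpow_mul, zpow_mul, zpow_mul, ← ((hLM.zpow_zpow 3 38)).mul_zpow]
    congr 1
    exact_mod_cast h
  have hP : gW (1 / 2, 1 / 2) ∈ InS ∩ OutS := by
    have h1 := cv_seg_W.right
    rwa [AffineMap.lineMap_apply_one] at h1
  obtain ⟨F, γ, hγ, hFo, hFi⟩ := exists_glue' cover_W1.symm
    (by rw [inter_comm]; exact isPathConnected_IO_inter) (x := gW (1 / 2, 1 / 2))
    (by rw [inter_comm]; exact hP) Fo Fi (by
      intro c u v hc hu hv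
      have he : c u = c v := by rw [hu, hv]
      have hc' : Cv (InS ∩ OutS) c u v := ⟨hc.le, hc.cont, fun t ht => (hc.mem t ht).symm⟩
      obtain ⟨k, hk1, hk2⟩ := deg_IO hc' he
      rw [ho2 c u v ⟨hc.le, hc.cont, fun t ht => (hc.mem t ht).1⟩ he (3 * k) (38 * k) hk1 hk2,
        hi2 c u v ⟨hc.le, hc.cont, fun t ht => (hc.mem t ht).2⟩ he (3 * k) hk1, hL3])
  have hseg : Cv OutS (fun t => gW (AffineMap.lineMap (1 / 4, 1 / 2) (1 / 2, 1 / 2) t)) 0 1 :=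
    ⟨zero_le_one, cv_seg_W.cont, fun t ht => (cv_seg_W.mem t ht).2⟩
  have hcT : F.cv (fun t => gW (cT t)) 0 1 = L * M ^ 13 := by
    rw [hFo _ 0 1 cv_cT_W, ho2 _ 0 1 cv_cT_W (by rw [gW_cT_zero, gW_cT_one]) 1 13 deg_cT_W.1
      deg_cT_W.2, zpow_one, zpow_ofNat]
  have hcB : F.cv (fun t => gW (cB t)) 0 1 = C0 := by
    rw [hFi _ 0 1 cv_cB_W, hi2 _ 0 1 cv_cB_W (by rw [gW_cB_zero, gW_cB_one]) 1 deg_cB_W,
      gW_cB_zero, gW_cB_one, hγ, zpow_one, one_mul, inv_one, mul_one]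
  have hh1 : F.cv (fun t => Th2 t (1 / 2) (1 / 2)) 0 1 = C0 ^ 3 := by
    have hc : Cv OutS (fun t => Th2 t (1 / 2) (1 / 2)) 0 1 :=
      ⟨zero_le_one, cv_h1'.cont, fun t ht => (cv_h1'.mem t ht).2⟩
    have he : Th2 0 (1 / 2) (1 / 2) = Th2 1 (1 / 2) (1 / 2) := by
      have e1 : ec (3 * 1 + 1 / 2) = ec (3 * 0 + 1 / 2) := ec_eq_iff.2 ⟨3, by push_cast; ring⟩
      have e2 : ec (38 * 1 + 13 * (1 / 2)) = ec (38 * 0 + 13 * (1 / 2)) :=
        ec_eq_iff.2 ⟨38, by push_cast; ring⟩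
      rw [Th2, Th2, e1, e2]
    rw [hFo _ 0 1 hc, ho2 _ 0 1 hc he 3 38 deg_h1'.1 deg_h1'.2, h, zpow_ofNat, zpow_ofNat]
  refine ⟨F, F.sv gW (1 / 4, 1 / 2) (1 / 2, 1 / 2), ?_, ?_, ?_, ?_, ?_⟩
  · have h1 : F.sv gW (1 / 4, 1 / 2) (1 / 2, 1 / 2) = Fo.cv _ 0 1 := hFo _ 0 1 hseg
    rw [h1]
    exact ho1 _ _ _
  · intro c u v hc
    rw [hFo c u v hc]
    exact ho1 c u v
  · intro c u v hc he i j hi hj
    rw [hFo c u v hc]
    exact ho2 c u v hc he i j hi hj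
  · rw [mu_W, hcT, hcB]
  · rw [h1_W, hh1]

end Pool.Agent.EBS
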