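import Pool.Agent.EBS.N06
import Pool.Agent.EBS.G13
import Pool.Agent.EBS.GCab

/-!
# N07: functionals on the exterior of the knot

Let `L = C1 ^ 3`, `M = (C2 ^ 2)⁻¹ * C1`. `L = C2 ^ 5` commutes with `C1` and `C2`, so with `M`. Let
`Fw`, `g` be as in `exists_F1`, `Fa : Fn U1 H` the functional of `U1_push` for `Fw`, and `Fb : Fn
U2 H` and
the curve `c₂` as in `exists_F2`. For a closed curve `c` at `x = f1 (1, 2)` in `U1 ∩ U2 = f1 '' T2`
(`U1_inter_U2`) let `c = f1 ∘ c'` with `c'` in `T2` (`exists_W1_curve` for `W = T2`), closed at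
`(1, 2)`
(injectivity), with degrees `i`, `j` of `(c' t).1` and `cu (c' t).2` (`Deg.exists`,
`continuousOn_cu`).
Then `Fa(c) = Fw(c') = L ^ i * M ^ j` (`T2_subset`). Let `Fc : Fn T2 H` be the pull-back of `Fb`
under
`f1 : T2 → U2` (`Fn.comap`, `cv_comap`, `f1_mem_U2`); by `T2_value` `Fb(c) = Fc(c') = L ^ i * M ^
j`, as
`Fc (ec t, 2) = C1 ^ 3 = L` and `Fc (1, 2 ec t) = M`. So by `exists_glue'` (`cover_EK`,
`isPathConnected_U_inter`) there is `F : Fn EK H` with `F = Fa` on `U1`, `F(c) = γ (c u) * Fb(c) *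
(γ (c v))⁻¹` on `U2`, `γ x = 1`. The values: on the curves `f1 ∘ c` with `c` in `W1`: `Fa(f1 ∘ c) =
Fw(c)`
(`f1_cv`; `cv_mu`, `cv_h1`, `cv_m` with `Deg` `0` and `1`, so that `Fw (1, 2 ec t) = L ^ 0 * M ^
1`). On
`c₂`: `Fb(c₂) = C1`, as `γ x = 1`.
-/

set_option autoImplicit false

noncomputable section

open Set Topology unitInterval

namespace Pool.Agent.EBS

theorem exists_FK {H : Type} [Group H] (C0 C1 C2 : H) (h12 : C1 ^ 3 = C2 ^ 5)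
    (h0 : C0 ^ 3 = (C1 ^ 3) ^ 3 * ((C2 ^ 2)⁻¹ * C1) ^ 38) : ∃ (F : Fn EK H) (g : H),
      g ∈ Subgroup.closure {C1 ^ 3, (C2 ^ 2)⁻¹ * C1} ∧
      (∀ (c : ℝ → Circle × ℂ) (u v : ℝ), Cv OutS c u v →
        F.cv (fun t => f1 (c t)) u v ∈ Subgroup.closure {C1 ^ 3, (C2 ^ 2)⁻¹ * C1}) ∧
      F.cv (fun t => f1 (1, 2 * (ec t : ℂ))) 0 1 = (C2 ^ 2)⁻¹ * C1 ∧
      F.cv (fun t => f1 (ka (1, rad (ec t)))) 0 1 =
        g * ((C1 ^ 3 * ((C2 ^ 2)⁻¹ * C1) ^ 13)⁻¹ * C0) * g⁻¹ ∧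
      F.cv (fun t => f1 (ka (ec t, 1))) 0 1 = g * C0 ^ 3 * g⁻¹ ∧
      ∃ c : ℝ → S3, Cv U2 c 0 1 ∧ c 0 = f1 (1, 2) ∧ c 1 = f1 (1, 2) ∧ F.cv c 0 1 = C1 := by
  have hLM : Commute (C1 ^ 3) ((C2 ^ 2)⁻¹ * C1) := by
    have h1 : Commute (C1 ^ 3) C1 := (Commute.refl C1).pow_left 3
    have h2 : Commute (C1 ^ 3) C2 := by
      rw [h12]
      exact (Commute.refl C2).pow_left 5
    exact ((h2.pow_right 2).inv_right).mul_right h1
  obtain ⟨Fw, g, hg, hout, hval, hmu, hh1⟩ := exists_F1 hLM h0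
  obtain ⟨Fa, hFa⟩ := U1_push Fw
  obtain ⟨Fb, hb1, hb2, c₂, hc2, hc20, hc21, hc2v⟩ := exists_F2 C1 C2 h12
  have hT : ((1, 2) : Circle × ℂ) ∈ T2 := by
    have h := cv_h.left
    simpa [ec_zero] using h
  have hx : f1 (1, 2) ∈ U1 ∩ U2 := by
    rw [U1_inter_U2]
    exact ⟨(1, 2), hT, rfl⟩
  have hTW : ∀ {c : ℝ → Circle × ℂ} {u v : ℝ}, Cv T2 c u v → Cv OutS c u v := by
    intro c u v h
    exact ⟨h.le, h.cont, fun t ht => T2_subset (h.mem t ht)⟩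
  have hOW : ∀ {c : ℝ → Circle × ℂ} {u v : ℝ}, Cv OutS c u v → Cv W1 c u v := by
    intro c u v h
    exact ⟨h.le, h.cont, fun t ht => (h.mem t ht).1⟩
  have hrc : Continuous (fun p : T2 => (⟨f1 (p : Circle × ℂ), f1_mem_U2.2 p.2⟩ : U2)) :=
    (continuous_f1.comp continuous_subtype_val).subtype_mk _
  have hF : ∀ (c : ℝ → S3) (u v : ℝ), Cv (U1 ∩ U2) c u v → c u = f1 (1, 2) → c v = f1 (1, 2) →
      Fa.cv c u v = Fb.cv c u v := by
    intro c u v hc hu hv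
    rw [U1_inter_U2] at hc
    obtain ⟨c', hc', he⟩ := exists_W1_curve hc
    have hu' : c' u = (1, 2) :=
      isOpenEmbedding_f1.injective ((he u (left_mem_Icc.2 hc.le)).trans hu)
    have hv' : c' v = (1, 2) :=
      isOpenEmbedding_f1.injective ((he v (right_mem_Icc.2 hc.le)).trans hv)
    have hne : ∀ t ∈ Icc u v, (c' t).2 ≠ 0 := by
      intro t ht h
      have h1 : 1 < sq (c' t).2 := hc'.mem t ht
      rw [h, sq_zero] at h1
      linarith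
    have hcu : ContinuousOn (fun t => cu (c' t).2) (Icc u v) :=
      continuousOn_cu.comp (continuous_snd.comp_continuousOn hc'.cont)
        (fun t ht => by simpa using hne t ht)
    obtain ⟨i, hi⟩ := Deg.exists (γ := fun t => (c' t).1) hc'.le
      (continuous_fst.comp_continuousOn hc'.cont) (by simp only [hu', hv'])
    obtain ⟨j, hj⟩ := Deg.exists (γ := fun t => cu (c' t).2) hc'.le hcu
      (by simp only [hu', hv'])
    have e1 : Fa.cv c u v = (C1 ^ 3) ^ i * ((C2 ^ 2)⁻¹ * C1) ^ j := by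
      rw [← hval c' u v (hTW hc') (hu'.trans hv'.symm) i j hi hj, ← hFa c' u v (hOW (hTW hc'))]
      exact Fn.cv_congr Fa (fun t ht => (he t ht).symm)
    have e2 := T2_value (Fb.comap (⟨_, hrc⟩ : C(T2, U2))) hc' hu' hv' hi hj
    rw [Fn.cv_comap Fb (⟨_, hrc⟩ : C(T2, U2)) hc' c (fun t ht => (he t ht).symm),
      Fn.cv_comap Fb (⟨_, hrc⟩ : C(T2, U2)) cv_h (fun t => f1 (ec t, 2)) (fun t ht => rfl),
      Fn.cv_comap Fb (⟨_, hrc⟩ : C(T2, U2)) cv_m (fun t => f1 (1, 2 * (ec t : ℂ)))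
        (fun t ht => rfl), hb1, hb2] at e2
    rw [e1, e2]
  obtain ⟨F, γ, hγ, hFU, hFV⟩ := exists_glue' cover_EK isPathConnected_U_inter hx Fa Fb hF
  have hW : ∀ (c : ℝ → Circle × ℂ) (u v : ℝ), Cv W1 c u v →
      F.cv (fun t => f1 (c t)) u v = Fw.cv c u v := by
    intro c u v h
    rw [hFU _ u v (f1_cv h), hFa c u v h]
  refine ⟨F, g, hg, ?_, ?_, ?_, ?_, c₂, hc2, hc20, hc21, ?_⟩
  · intro c u v h
    rw [hW c u v (hOW h)]
    exact hout c u v h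
  · have hm : Cv U2 (fun t => f1 (1, 2 * (ec t : ℂ))) 0 1 := by
      have h1 := f1_cv cv_m
      rw [← U1_inter_U2] at h1
      exact ⟨h1.le, h1.cont, fun t ht => (h1.mem t ht).2⟩
    rw [hFV _ 0 1 hm, hb2]
    have e0 : f1 (1, 2 * (ec 0 : ℂ)) = f1 (1, 2) := by rw [ec_zero]; simp
    have e1 : f1 (1, 2 * (ec 1 : ℂ)) = f1 (1, 2) := by rw [ec_one]; simp
    simp only [e0, e1, hγ, one_mul, inv_one, mul_one]
  · rw [hW _ 0 1 cv_mu, hmu]
  · rw [hW _ 0 1 ⟨cv_h1.le, cv_h1.cont, fun t ht => (cv_h1.mem t ht).1.1⟩, hh1]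
  · rw [hFV _ 0 1 hc2, hc20, hc21, hγ, hc2v]
    simp

end Pool.Agent.EBS
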