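import Pool.Agent.EBS.N07
import Pool.Agent.EBS.G23

/-!
# N08: two examples in symmetric groups, conjugation with the connecting curve

* `typeI`: `M : i ↦ i + 1` (`finRotate 7`), `C0 = (2 6 4)` (`2 ↦ 6 ↦ 4 ↦ 2`); then `M² C0` is the
  5-cycle
  `0 ↦ 2 ↦ 1 ↦ 3 ↦ 5 ↦ 0`. By `decide`.
* `typeII`: `C1 = (0 1 2)` (`0 ↦ 1 ↦ 2 ↦ 0`), `C2 : i ↦ i + 1`; `C2⁻² C1` is the 5-cycle
  `0 ↦ 4 ↦ 2 ↦ 3 ↦ 1 ↦ 0`. By `decide`.
* `conj_value`: `w` is the value on `f1 ∘ d`, a curve from `f1 (ka (1, 1)) = fK (1, 1)` (`fK_one`)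
  to
  `f1 (1, 2)` in `U1 ⊆ EK` (`f1_cv`, `OutS ⊆ W1`); for a closed curve `c` at `f1 (1, 2)` in `EK` the
  concatenation of `f1 ∘ d`, `c` and the reversed `f1 ∘ d` is a closed curve at `fK (1, 1)` with the
  value `w * F(c) * w⁻¹` for all `F` (paths: `Cv.exists_path`, `trans`, `v_symm`, `cv_path`).
-/

set_option autoImplicit false

noncomputable section

open Set Topology unitInterval

namespace Pool.Agent.EBS

theorem typeI : ∃ M C0 : Equiv.Perm (Fin 7), M ^ 7 = 1 ∧ C0 ^ 3 = 1 ∧ (M ^ 2 * C0) ^ 5 = 1 ∧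
    ¬ Commute (M ^ 2 * C0) M := by
  refine ⟨⟨![1, 2, 3, 4, 5, 6, 0], ![6, 0, 1, 2, 3, 4, 5], by decide, by decide⟩,
    ⟨![0, 1, 6, 3, 2, 5, 4], ![0, 1, 4, 3, 6, 5, 2], by decide, by decide⟩, ?_, ?_, ?_, ?_⟩
  · exact Equiv.ext (by decide)
  · exact Equiv.ext (by decide)
  · exact Equiv.ext (by decide)
  · intro h
    have h1 := DFunLike.congr_fun h.eq 1
    revert h1
    decide

theorem typeII : ∃ C1 C2 : Equiv.Perm (Fin 5), C1 ^ 3 = 1 ∧ C2 ^ 5 = 1 ∧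
    ((C2 ^ 2)⁻¹ * C1) ^ 5 = 1 ∧ ¬ Commute ((C2 ^ 2)⁻¹ * C1) C1 := by
  refine ⟨⟨![1, 2, 0, 3, 4], ![2, 0, 1, 3, 4], by decide, by decide⟩,
    ⟨![1, 2, 3, 4, 0], ![4, 0, 1, 2, 3], by decide, by decide⟩, ?_, ?_, ?_, ?_⟩
  · exact Equiv.ext (by decide)
  · exact Equiv.ext (by decide)
  · exact Equiv.ext (by decide)
  · intro h
    have h1 := DFunLike.congr_fun h.eq 0
    revert h1
    decide

private theorem n08_rad : rad ((1 : Circle) : ℂ) = 1 := by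
  simp [rad, sq]

private theorem n08_fK : fK (1, 1) = f1 (ka (1, 1)) := by
  have h := fK_rad 1 1
  rw [one_zpow, one_mul, n08_rad] at h
  exact h

theorem conj_value {d : ℝ → Circle × ℂ} (hd : Cv OutS d 0 1) (h0 : d 0 = ka (1, 1))
    (h1 : d 1 = (1, 2)) {c : ℝ → S3} (hc : Cv EK c 0 1) (hu : c 0 = f1 (1, 2))
    (hv : c 1 = f1 (1, 2)) : ∃ c' : ℝ → S3, Cv EK c' 0 1 ∧ c' 0 = fK (1, 1) ∧
      c' 1 = fK (1, 1) ∧ ∀ (H : Type) [Group H] (F : Fn EK H), F.cv c' 0 1 =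
        F.cv (fun t => f1 (d t)) 0 1 * F.cv c 0 1 * (F.cv (fun t => f1 (d t)) 0 1)⁻¹ := by
  have hdW : Cv W1 d 0 1 := ⟨hd.le, hd.cont, fun t ht => (hd.mem t ht).1⟩
  have hdU : Cv U1 (fun t => f1 (d t)) 0 1 := f1_cv hdW
  have hdE : Cv EK (fun t => f1 (d t)) 0 1 := ⟨hdU.le, hdU.cont, fun t ht => U1_sub (hdU.mem t ht)⟩
  obtain ⟨δ, hδ⟩ := hdE.exists_path (x := ⟨f1 (ka (1, 1)), U1_sub xZ_mem⟩)
    (y := ⟨f1 (1, 2), U2_sub xT_mem⟩) (congrArg f1 h0) (congrArg f1 h1)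
  obtain ⟨p, hp⟩ := hc.exists_path (x := ⟨f1 (1, 2), U2_sub xT_mem⟩)
    (y := ⟨f1 (1, 2), U2_sub xT_mem⟩) hu hv
  refine ⟨fun t => (((δ.trans p).trans δ.symm).extend t : S3), ?_, ?_, ?_, ?_⟩
  · exact ⟨zero_le_one, (continuous_subtype_val.comp (Path.continuous_extend _)).continuousOn,
      fun t _ => Subtype.coe_prop _⟩
  · rw [n08_fK]
    exact congrArg Subtype.val (Path.extend_zero _)
  · rw [n08_fK]
    exact congrArg Subtype.val (Path.extend_one _)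
  · intro H _ F
    rw [(F.cv_path ((δ.trans p).trans δ.symm)).2, F.trans, F.trans, F.v_symm, hδ, hp]

end Pool.Agent.EBS
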