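import Pool.Agent.EBS.TL

/-!
# T01: the universal lifting system of a space

Let `E = Σ x : X, Path.Homotopic.Quotient x₀ x` (no topology), `pr z = z.1`. Write `G = Pi1 X x₀`,
the opposite of `FundamentalGroup X x₀` (whose product is `p * q = q.trans p` on classes), so that
`lc p * lc q = lc (p.trans q)` (`lc_trans`). The action: `lc p • ⟨x, [c]⟩ = ⟨x, [p.trans c]⟩`; i.e.
`g • ⟨x, c⟩ = ⟨x, (toPath g.unop).trans c⟩` (names: `FundamentalGroup.toPath`,
`Path.Homotopic.Quotient.trans` or `comp`; associativity from `Path.Homotopy.transAssoc`).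
For continuous `Q : ℝ × ℝ → X` and `a, b : ℝ × ℝ` let `seg Q a b : Path (Q a) (Q b)` be
`t ↦ Q (AffineMap.lineMap a b t)`, and for `q : Path.Homotopic.Quotient x₀ (Q a)` let
`pl Q a q b = ⟨Q b, q.trans [seg Q a b]⟩ ∈ E`. `Lift L` iff there are a continuous `Q` and
`q : Path.Homotopic.Quotient x₀ (Q 0)` with `L = pl Q 0 q`.
Key fact (K): for a continuous map `φ : ℝ × ℝ → ℝ × ℝ` and a path `c` in `ℝ × ℝ` from `φ a` to `φ b`
the paths `Q ∘ c` and `seg (Q ∘ φ) a b` are homotopic, since any two paths in `ℝ × ℝ` with the same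
end
points are homotopic (`SimplyConnectedSpace.paths_homotopic`, `Path.Homotopic.map`).
In particular `(seg Q a b).trans (seg Q b c) ≃ seg Q a c`, `seg Q a a ≃ refl`.
So `pl Q a q = pl Q 0 q'` with `q' = q.trans [seg Q a 0]`; the point `pl Q a q a = ⟨Q a, q⟩`.
* `comp`: `pl Q 0 q ∘ φ = pl (Q ∘ φ) 0 q'` with `q' = q.trans [seg Q 0 (φ 0)]`, by (K).
* `exists_lift`: `z = ⟨Q a, q⟩`, `L = pl Q a q`.
* `unique`: `L = pl Q 0 q`, `L' = pl Q' 0 q'` with the same projection, so `Q = Q'`; `L a = L' a`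
  gives
  `q.trans [seg Q 0 a] = q'.trans [seg Q 0 a]`, cancel: `q = q'`.
* `trans`: `g` = the class of `c'.trans c.symm`. `free`: `g.trans c = c` gives `g = 1`.
* `conn`: for `z = ⟨x, [c]⟩`, `z' = ⟨x', [c']⟩` let `Q (s, _) = (c.symm.trans c').extend s` and `L`
  the
  lift with `L 0 = z`; `L (1, 0) = ⟨x', [c.trans (c.symm.trans c')]⟩ = z'` (by (K), `seg Q 0 (1,
  0)` is
  homotopic to the path).
* `sc`: let `x = pr (L 0)`, `x' = pr (L (1, 0))`, `δ u = pr (L (u, 0))`, `δ' u = pr (L' (u, 0))` for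
  `u ∈ [0, 1]`, two paths from `x` to `x'`. `L (0, 0) = L' (0, 0) = ⟨x, q⟩` and
  `q.trans [δ] = q.trans [δ']`, so `δ ≃ δ'` with fixed end points. Let
  `h : Path.Homotopy δ δ'`, `Q (s, u) = h (s, u)` extended to `ℝ × ℝ` by the projections to `[0, 1]`
  (`projIcc`), and `P` the lift with `P (0, 0) = L (0, 0)`. Then `P (0, u) = L (u, 0)` for
  `u ∈ [0, 1]`: both `u ↦ P (0, clamp u)` and `u ↦ L (clamp u, 0)` (as planes depending on one
  coordinate, `comp`) are lifted planes with the same projection and the same value at `0`: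
  `unique`. In the same way `P (s, 0) = L (0, 0)` (constant projection `x`; the constant plane is a
  lifted plane by `comp` with a constant `φ`), `P (1, u) = L' (u, 0)`, `P (s, 1) = P (0, 1) = L (1,
  0)`.
* The last statement: for `e = ⟨x₀, refl⟩`: `L (1, 0) = ⟨x₀, [p]⟩ = lc p • e` (by (K)). Only the
  values of `L` on `[0, 1] × 0` are used: `L (1, 0) = ⟨x₀, [refl.trans (seg ..)]⟩` and the segment
  path
  agrees with `p`.
-/

set_option autoImplicit false

noncomputable section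

open Set Topology unitInterval

namespace Pool.Agent.EBS


section Planes

variable {X : Type} [TopologicalSpace X]

/-- The straight path. -/
private def line (a b : ℝ × ℝ) : Path a b where
  toFun t := a + (t : ℝ) • (b - a)
  continuous_toFun := by fun_prop
  source' := by simp
  target' := by simp

private def sgm (Q : C(ℝ × ℝ, X)) (a b : ℝ × ℝ) : Path.Homotopic.Quotient (Q a) (Q b) :=
  Path.Homotopic.Quotient.mk ((line a b).map Q.continuous)

private theorem mk_map_eq (Q : C(ℝ × ℝ, X)) {a b : ℝ × ℝ} (c c' : Path a b) :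
    Path.Homotopic.Quotient.mk (c.map Q.continuous) =
      Path.Homotopic.Quotient.mk (c'.map Q.continuous) :=
  Path.Homotopic.Quotient.eq.2 ((SimplyConnectedSpace.paths_homotopic c c').map Q)

private theorem sgm_trans (Q : C(ℝ × ℝ, X)) (a b c : ℝ × ℝ) :
    (sgm Q a b).trans (sgm Q b c) = sgm Q a c := by
  unfold sgm
  rw [← Path.Homotopic.Quotient.mk_trans, ← Path.map_trans]
  exact mk_map_eq Q _ _

private theorem sgm_self (Q : C(ℝ × ℝ, X)) (a : ℝ × ℝ) :
    sgm Q a a = Path.Homotopic.Quotient.refl (Q a) :=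
  mk_map_eq Q (line a a) (Path.refl a)

private theorem sgm_comp (Q : C(ℝ × ℝ, X)) (φ : C(ℝ × ℝ, ℝ × ℝ)) (a b : ℝ × ℝ) :
    sgm (Q.comp φ) a b = sgm Q (φ a) (φ b) :=
  mk_map_eq Q ((line a b).map φ.continuous) (line (φ a) (φ b))

/-- Lifted planes. -/
private def IsL {x₀ : X} (L : ℝ × ℝ → Σ x : X, Path.Homotopic.Quotient x₀ x) : Prop :=
  ∃ (Q : C(ℝ × ℝ, X)) (a : ℝ × ℝ) (q : Path.Homotopic.Quotient x₀ (Q a)),
    ∀ b, L b = ⟨Q b, q.trans (sgm Q a b)⟩

variable {x₀ : X}

private theorem IsL.base {L : ℝ × ℝ → Σ x : X, Path.Homotopic.Quotient x₀ x} (h : IsL L)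
    (a : ℝ × ℝ) : ∃ (Q : C(ℝ × ℝ, X)) (q : Path.Homotopic.Quotient x₀ (Q a)),
      ∀ b, L b = ⟨Q b, q.trans (sgm Q a b)⟩ := by
  obtain ⟨Q, c, q, hq⟩ := h
  refine ⟨Q, q.trans (sgm Q c a), fun b => ?_⟩
  rw [hq b, Path.Homotopic.Quotient.trans_assoc, sgm_trans]

private theorem IsL.comp {L : ℝ × ℝ → Σ x : X, Path.Homotopic.Quotient x₀ x} (h : IsL L)
    (φ : ℝ × ℝ → ℝ × ℝ) (hφ : Continuous φ) : IsL fun a => L (φ a) := by
  obtain ⟨Q, q, hq⟩ := h.base (φ (0, 0))
  refine ⟨Q.comp ⟨φ, hφ⟩, (0, 0), q, fun b => ?_⟩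
  show L (φ b) = _
  rw [hq (φ b), sgm_comp]
  rfl

private theorem IsL.exists_lift (Q : ℝ × ℝ → X) (hQ : Continuous Q) (a : ℝ × ℝ)
    (z : Σ x : X, Path.Homotopic.Quotient x₀ x) (hz : z.1 = Q a) :
    ∃ L : ℝ × ℝ → Σ x : X, Path.Homotopic.Quotient x₀ x, IsL L ∧ L a = z ∧
      ∀ b, (L b).1 = Q b := by
  obtain ⟨x, c⟩ := z
  dsimp only at hz
  subst hz
  refine ⟨fun b => ⟨Q b, c.trans (sgm ⟨Q, hQ⟩ a b)⟩, ⟨⟨Q, hQ⟩, a, c, fun b => rfl⟩, ?_,
    fun b => rfl⟩
  have := sgm_self ⟨Q, hQ⟩ a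
  show (⟨Q a, c.trans (sgm ⟨Q, hQ⟩ a a)⟩ : Σ x : X, Path.Homotopic.Quotient x₀ x) = ⟨Q a, c⟩
  rw [this]
  congr 1
  exact Path.Homotopic.Quotient.trans_refl c

private theorem trans_cancel {x y : X} {p p' : Path.Homotopic.Quotient x₀ x}
    {s : Path.Homotopic.Quotient x y} (h : p.trans s = p'.trans s) : p = p' := by
  have h1 : (p.trans s).trans s.symm = (p'.trans s).trans s.symm := by rw [h]
  rwa [Path.Homotopic.Quotient.trans_assoc, Path.Homotopic.Quotient.trans_assoc,
    Path.Homotopic.Quotient.trans_symm, Path.Homotopic.Quotient.trans_refl,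
    Path.Homotopic.Quotient.trans_refl] at h1

private theorem cancel_trans {x y : X} {p : Path.Homotopic.Quotient x₀ x}
    {s s' : Path.Homotopic.Quotient x y} (h : p.trans s = p.trans s') : s = s' := by
  have h1 : p.symm.trans (p.trans s) = p.symm.trans (p.trans s') := by rw [h]
  rwa [← Path.Homotopic.Quotient.trans_assoc, ← Path.Homotopic.Quotient.trans_assoc,
    Path.Homotopic.Quotient.symm_trans, Path.Homotopic.Quotient.refl_trans,
    Path.Homotopic.Quotient.refl_trans] at h1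

private theorem IsL.unique {L L' : ℝ × ℝ → Σ x : X, Path.Homotopic.Quotient x₀ x} (h : IsL L)
    (h' : IsL L') (hp : ∀ b, (L b).1 = (L' b).1) (a : ℝ × ℝ) (ha : L a = L' a) (b : ℝ × ℝ) :
    L b = L' b := by
  obtain ⟨Q, q, hq⟩ := h.base a
  obtain ⟨Q', q', hq'⟩ := h'.base a
  have hQ : Q = Q' := by
    ext b
    have := hp b
    rw [hq b, hq' b] at this
    exact this
  subst hQ
  rw [hq a, hq' a] at ha
  have h1 := eq_of_heq (Sigma.mk.inj_iff.1 ha).2
  have h2 := trans_cancel h1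
  rw [hq b, hq' b, h2]

private theorem sigma_mk_ext {x y : X} {p : Path x₀ x} {q : Path x₀ y} (h : ∀ t, p t = q t) :
    (⟨x, Path.Homotopic.Quotient.mk p⟩ : Σ x : X, Path.Homotopic.Quotient x₀ x) =
      ⟨y, Path.Homotopic.Quotient.mk q⟩ := by
  have hxy : x = y := by
    have := h 1
    rwa [p.target, q.target] at this
  subst hxy
  have : p = q := by
    ext t
    exact h t
  rw [this]

/-- The class of the path given by a function on the real line. -/
private theorem IsL.one_zero {L : ℝ × ℝ → Σ x : X, Path.Homotopic.Quotient x₀ x} (h : IsL L)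
    {x y : X} {c : Path x₀ x} (h0 : L (0, 0) = ⟨x, Path.Homotopic.Quotient.mk c⟩)
    (p : Path x y) (hp : ∀ t ∈ Icc (0 : ℝ) 1, (L (t, 0)).1 = p.extend t) :
    L (1, 0) = ⟨y, Path.Homotopic.Quotient.mk (c.trans p)⟩ := by
  obtain ⟨Q, q, hq⟩ := h.base (0, 0)
  rw [hq (0, 0), sgm_self, Path.Homotopic.Quotient.trans_refl] at h0
  have hQ' : ∀ t ∈ Icc (0 : ℝ) 1, Q (t, 0) = p.extend t := by
    intro t ht
    rw [← hp t ht, hq]
  have e1 : Q (0, 0) = x := (Sigma.mk.inj_iff.1 h0).1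
  have e2 : Q (1, 0) = y := by
    rw [hQ' 1 ⟨zero_le_one, le_rfl⟩]
    exact Path.extend_one _
  have h4 : sgm Q (0, 0) (1, 0) = Path.Homotopic.Quotient.mk (p.cast e1 e2) := by
    unfold sgm
    congr 1
    ext t
    show Q ((0, 0) + (t : ℝ) • ((1, 0) - (0, 0))) = p t
    have h6 : ((0, 0) + (t : ℝ) • (((1, 0) : ℝ × ℝ) - (0, 0))) = ((t : ℝ), (0 : ℝ)) := by simp
    rw [h6, hQ' t t.2, Path.extend_apply _ t.2]
  have h2 : q = Path.Homotopic.Quotient.mk (c.cast rfl e1) := by
    have h3 : (⟨x, Path.Homotopic.Quotient.mk c⟩ : Σ x : X, Path.Homotopic.Quotient x₀ x) =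
        ⟨Q (0, 0), Path.Homotopic.Quotient.mk (c.cast rfl e1)⟩ := sigma_mk_ext fun t => rfl
    rw [h3] at h0
    exact eq_of_heq (Sigma.mk.inj_iff.1 h0).2
  rw [hq (1, 0), h2, h4, ← Path.Homotopic.Quotient.mk_trans]
  subst e1
  subst e2
  rfl

private theorem IsL.conn (z z' : Σ x : X, Path.Homotopic.Quotient x₀ x) :
    ∃ L : ℝ × ℝ → Σ x : X, Path.Homotopic.Quotient x₀ x, IsL L ∧ L (0, 0) = z ∧
      L (1, 0) = z' := by
  obtain ⟨x, c⟩ := z
  obtain ⟨x', c'⟩ := z'
  induction c using Path.Homotopic.Quotient.ind with | mk c =>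
  induction c' using Path.Homotopic.Quotient.ind with | mk c' =>
  have hQ : Continuous fun a : ℝ × ℝ => (c.symm.trans c').extend a.1 :=
    (c.symm.trans c').continuous_extend.comp continuous_fst
  have h0 : (c.symm.trans c').extend 0 = x := Path.extend_zero _
  obtain ⟨L, hL, hL0, hL1⟩ := IsL.exists_lift _ hQ (0, 0)
    (⟨x, Path.Homotopic.Quotient.mk c⟩ : Σ x : X, Path.Homotopic.Quotient x₀ x) h0.symm
  refine ⟨L, hL, hL0, ?_⟩
  rw [hL.one_zero hL0 (c.symm.trans c') fun t _ => hL1 (t, 0),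
    Path.Homotopic.Quotient.mk_trans, Path.Homotopic.Quotient.mk_trans,
    Path.Homotopic.Quotient.mk_symm, ← Path.Homotopic.Quotient.trans_assoc,
    Path.Homotopic.Quotient.trans_symm, Path.Homotopic.Quotient.refl_trans]

/-- The clamping map. -/
private def cl (s : ℝ) : ℝ := max 0 (min s 1)

private theorem continuous_cl : Continuous cl :=
  continuous_const.max (continuous_id.min continuous_const)

private theorem cl_mem (s : ℝ) : cl s ∈ Icc (0 : ℝ) 1 :=
  ⟨le_max_left _ _, max_le zero_le_one (min_le_right _ _)⟩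

private theorem cl_of_mem {s : ℝ} (h : s ∈ Icc (0 : ℝ) 1) : cl s = s := by
  unfold cl
  rw [min_eq_left h.2, max_eq_right h.1]

private theorem IsL.continuous {L : ℝ × ℝ → Σ x : X, Path.Homotopic.Quotient x₀ x}
    (h : IsL L) : Continuous fun a => (L a).1 := by
  obtain ⟨Q, q, hq⟩ := h.base (0, 0)
  have : (fun a => (L a).1) = Q := by
    funext b
    rw [hq b]
  rw [this]
  exact Q.continuous

/-- The path of the projection. -/
private def IsL.path {L : ℝ × ℝ → Σ x : X, Path.Homotopic.Quotient x₀ x} (h : IsL L) :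
    Path (L (0, 0)).1 (L (1, 0)).1 where
  toFun t := (L ((t : ℝ), 0)).1
  continuous_toFun := h.continuous.comp (continuous_subtype_val.prodMk continuous_const)
  source' := rfl
  target' := rfl

private theorem IsL.sc {L L' : ℝ × ℝ → Σ x : X, Path.Homotopic.Quotient x₀ x} (h : IsL L)
    (h' : IsL L') (h0 : L (0, 0) = L' (0, 0)) (h1 : L (1, 0) = L' (1, 0)) :
    ∃ P : ℝ × ℝ → Σ x : X, Path.Homotopic.Quotient x₀ x, IsL P ∧
      ∀ u ∈ Icc (0 : ℝ) 1, P (0, u) = L (u, 0) ∧ P (1, u) = L' (u, 0) ∧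
      P (u, 0) = L (0, 0) ∧ P (u, 1) = L (1, 0) := by
  have hom : h.path.Homotopic (h'.path.cast (congrArg Sigma.fst h0) (congrArg Sigma.fst h1)) := by
    obtain ⟨c, hc⟩ := Path.Homotopic.Quotient.mk_surjective (L (0, 0)).2
    have e0 : L (0, 0) = ⟨(L (0, 0)).1, Path.Homotopic.Quotient.mk c⟩ := by rw [hc]
    have r1 := h.one_zero e0 h.path fun t ht => by
      rw [Path.extend_apply _ ht]
      rfl
    have r2 := h'.one_zero (h0.symm.trans e0)
      (h'.path.cast (congrArg Sigma.fst h0) (congrArg Sigma.fst h1)) fun t ht => by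
      rw [Path.extend_apply _ ht]
      rfl
    have r3 := eq_of_heq (Sigma.mk.inj_iff.1 (r1.symm.trans (h1.trans r2))).2
    rw [Path.Homotopic.Quotient.mk_trans, Path.Homotopic.Quotient.mk_trans] at r3
    exact Path.Homotopic.Quotient.eq.1 (cancel_trans r3)
  obtain ⟨H⟩ := hom
  have hQ : Continuous fun a : ℝ × ℝ =>
      H ((⟨cl a.1, cl_mem a.1⟩ : I), (⟨cl a.2, cl_mem a.2⟩ : I)) :=
    H.continuous.comp (((continuous_cl.comp continuous_fst).subtype_mk _).prodMk
      ((continuous_cl.comp continuous_snd).subtype_mk _))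
  have hQ0 : (L (0, 0)).1 =
      H ((⟨cl (0 : ℝ), cl_mem 0⟩ : I), (⟨cl (0 : ℝ), cl_mem 0⟩ : I)) := by
    have : (⟨cl (0 : ℝ), cl_mem 0⟩ : I) = 0 :=
      Subtype.ext (cl_of_mem ⟨le_rfl, zero_le_one⟩)
    rw [this]
    exact (H.source 0).symm
  obtain ⟨P, hP, hP0, hP1⟩ := IsL.exists_lift _ hQ (0, 0) (L (0, 0)) hQ0
  have c0 : (⟨cl (0 : ℝ), cl_mem 0⟩ : I) = 0 := Subtype.ext (cl_of_mem ⟨le_rfl, zero_le_one⟩)
  have c1 : (⟨cl (1 : ℝ), cl_mem 1⟩ : I) = 1 := Subtype.ext (cl_of_mem ⟨zero_le_one, le_rfl⟩)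
  have ccI : ∀ s : ℝ, (⟨cl (cl s), cl_mem (cl s)⟩ : I) = ⟨cl s, cl_mem s⟩ :=
    fun s => Subtype.ext (cl_of_mem (cl_mem s))
  -- the left side
  have A1 : ∀ u ∈ Icc (0 : ℝ) 1, P (0, u) = L (u, 0) := by
    intro u hu
    have := IsL.unique (hP.comp (fun b => (0, cl b.1))
      (continuous_const.prodMk (continuous_cl.comp continuous_fst)))
      (h.comp (fun b => (cl b.1, 0)) ((continuous_cl.comp continuous_fst).prodMk
        continuous_const)) (fun b => by
        show (P (0, cl b.1)).1 = (L (cl b.1, 0)).1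
        rw [hP1]
        show H ((⟨cl (0 : ℝ), cl_mem 0⟩ : I), (⟨cl (cl b.1), cl_mem (cl b.1)⟩ : I)) = _
        rw [c0, ccI b.1]
        exact H.apply_zero _) (0, 0) (by
        show P (0, cl 0) = L (cl 0, 0)
        rw [cl_of_mem ⟨le_rfl, zero_le_one⟩]
        exact hP0) (u, 0)
    have e : cl u = u := cl_of_mem hu
    rw [← e]
    exact this
  have A3 : ∀ u ∈ Icc (0 : ℝ) 1, P (u, 0) = L (0, 0) := by
    intro u hu
    have := IsL.unique (hP.comp (fun b => (cl b.1, 0))
      ((continuous_cl.comp continuous_fst).prodMk continuous_const))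
      (h.comp (fun b => (0, 0)) continuous_const) (fun b => by
        show (P (cl b.1, 0)).1 = (L (0, 0)).1
        rw [hP1]
        show H ((⟨cl (cl b.1), cl_mem (cl b.1)⟩ : I), (⟨cl (0 : ℝ), cl_mem 0⟩ : I)) = _
        rw [c0]
        exact H.source _) (0, 0) (by
        show P (cl 0, 0) = L (0, 0)
        rw [cl_of_mem ⟨le_rfl, zero_le_one⟩]
        exact hP0) (u, 0)
    have e : cl u = u := cl_of_mem hu
    rw [← e]
    exact this
  have A2 : ∀ u ∈ Icc (0 : ℝ) 1, P (1, u) = L' (u, 0) := by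
    intro u hu
    have := IsL.unique (hP.comp (fun b => (1, cl b.1))
      (continuous_const.prodMk (continuous_cl.comp continuous_fst)))
      (h'.comp (fun b => (cl b.1, 0)) ((continuous_cl.comp continuous_fst).prodMk
        continuous_const)) (fun b => by
        show (P (1, cl b.1)).1 = (L' (cl b.1, 0)).1
        rw [hP1]
        show H ((⟨cl (1 : ℝ), cl_mem 1⟩ : I), (⟨cl (cl b.1), cl_mem (cl b.1)⟩ : I)) = _
        rw [c1, ccI b.1]
        exact H.apply_one _) (0, 0) (by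
        show P (1, cl 0) = L' (cl 0, 0)
        rw [cl_of_mem ⟨le_rfl, zero_le_one⟩, A3 1 ⟨zero_le_one, le_rfl⟩]
        exact h0) (u, 0)
    have e : cl u = u := cl_of_mem hu
    rw [← e]
    exact this
  have A4 : ∀ u ∈ Icc (0 : ℝ) 1, P (u, 1) = L (1, 0) := by
    intro u hu
    have := IsL.unique (hP.comp (fun b => (cl b.1, 1))
      ((continuous_cl.comp continuous_fst).prodMk continuous_const))
      (h.comp (fun b => (1, 0)) continuous_const) (fun b => by
        show (P (cl b.1, 1)).1 = (L (1, 0)).1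
        rw [hP1]
        show H ((⟨cl (cl b.1), cl_mem (cl b.1)⟩ : I), (⟨cl (1 : ℝ), cl_mem 1⟩ : I)) = _
        rw [c1]
        exact H.target _) (0, 0) (by
        show P (cl 0, 1) = L (1, 0)
        rw [cl_of_mem ⟨le_rfl, zero_le_one⟩]
        exact A1 1 ⟨zero_le_one, le_rfl⟩) (u, 0)
    have e : cl u = u := cl_of_mem hu
    rw [← e]
    exact this
  exact ⟨P, hP, fun u hu => ⟨A1 u hu, A2 u hu, A3 u hu, A4 u hu⟩⟩

end Planes

theorem exists_liftSys (X : Type) [TopologicalSpace X] (x₀ : X) :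
    ∃ (S : LiftSys X (Pi1 X x₀)) (e : S.E), S.pr e = x₀ ∧
      ∀ (p : Path x₀ x₀) (L : ℝ × ℝ → S.E), S.Lift L → L (0, 0) = e →
        (∀ t ∈ Icc (0 : ℝ) 1, S.pr (L (t, 0)) = p.extend t) → L (1, 0) = lc p • e := by
  let act : MulAction (Pi1 X x₀) (Σ x : X, Path.Homotopic.Quotient x₀ x) :=
    { smul := fun g z => ⟨z.1, (FundamentalGroup.toPath (MulOpposite.unop g)).trans z.2⟩
      one_smul := fun z => by
        show (⟨z.1, (Path.Homotopic.Quotient.refl x₀).trans z.2⟩ :
          Σ x : X, Path.Homotopic.Quotient x₀ x) = z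
        rw [Path.Homotopic.Quotient.refl_trans]
      mul_smul := fun g h z => by
        show (⟨z.1, ((FundamentalGroup.toPath (MulOpposite.unop g)).trans
          (FundamentalGroup.toPath (MulOpposite.unop h))).trans z.2⟩ :
            Σ x : X, Path.Homotopic.Quotient x₀ x) =
          ⟨z.1, (FundamentalGroup.toPath (MulOpposite.unop g)).trans
            ((FundamentalGroup.toPath (MulOpposite.unop h)).trans z.2)⟩
        rw [Path.Homotopic.Quotient.trans_assoc] }
  refine ⟨{ E := Σ x : X, Path.Homotopic.Quotient x₀ x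
            act := act
            pr := Sigma.fst
            Lift := IsL
            cont := fun L hL => hL.continuous
            pr_smul := fun g z => rfl
            smul := ?_
            comp := fun L hL φ hφ => hL.comp φ hφ
            exists_lift := fun Q hQ a z hz => IsL.exists_lift Q hQ a z hz
            unique := fun L L' hL hL' hp a ha b => hL.unique hL' hp a ha b
            trans := ?_
            free := ?_
            conn := IsL.conn
            sc := fun L L' hL hL' h0 h1 => hL.sc hL' h0 h1 },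
    ⟨x₀, Path.Homotopic.Quotient.refl x₀⟩, rfl, ?_⟩
  · rintro g L ⟨Q, a, q, hq⟩
    refine ⟨Q, a, (FundamentalGroup.toPath (MulOpposite.unop g)).trans q, fun b => ?_⟩
    show (⟨(L b).1, (FundamentalGroup.toPath (MulOpposite.unop g)).trans (L b).2⟩ :
      Σ x : X, Path.Homotopic.Quotient x₀ x) = _
    rw [hq b, Path.Homotopic.Quotient.trans_assoc]
  · rintro ⟨x, c⟩ ⟨x', c'⟩ hxx
    dsimp only at hxx
    subst hxx
    refine ⟨MulOpposite.op (FundamentalGroup.fromPath (c'.trans c.symm)), ?_⟩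
    show (⟨x, (c'.trans c.symm).trans c⟩ : Σ x : X, Path.Homotopic.Quotient x₀ x) = ⟨x, c'⟩
    rw [Path.Homotopic.Quotient.trans_assoc, Path.Homotopic.Quotient.symm_trans,
      Path.Homotopic.Quotient.trans_refl]
  · rintro g ⟨x, c⟩ hg
    have h1 : (⟨x, (FundamentalGroup.toPath (MulOpposite.unop g)).trans c⟩ :
      Σ x : X, Path.Homotopic.Quotient x₀ x) = ⟨x, c⟩ := hg
    have h2 := eq_of_heq (Sigma.mk.inj_iff.1 h1).2
    have h3 : (FundamentalGroup.toPath (MulOpposite.unop g)).trans c =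
        (Path.Homotopic.Quotient.refl x₀).trans c := by
      rw [h2, Path.Homotopic.Quotient.refl_trans]
    exact MulOpposite.unop_injective (trans_cancel h3)
  · intro p L hL h0 hp
    have h1 := IsL.one_zero (c := Path.refl x₀) hL h0 p hp
    rw [h1]
    show (⟨x₀, Path.Homotopic.Quotient.mk ((Path.refl x₀).trans p)⟩ :
      Σ x : X, Path.Homotopic.Quotient x₀ x) =
        ⟨x₀, (Path.Homotopic.Quotient.mk p).trans (Path.Homotopic.Quotient.refl x₀)⟩
    rw [Path.Homotopic.Quotient.mk_trans, Path.Homotopic.Quotient.mk_refl,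
      Path.Homotopic.Quotient.refl_trans, Path.Homotopic.Quotient.trans_refl]

end Pool.Agent.EBS
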