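import Pool.Agent.EBS.F05
import Pool.Agent.EBS.T02

/-!
# T03: lifting functions with values in the circle

* `exists_lift2`: `ℝ × ℝ` is simply connected and locally path connected and `ec` is a covering map
  (`isCoveringMap_ec`): `IsCoveringMap.existsUnique_continuousMap_lifts`. (Or: for every `b` lift
  `t ↦ F (a + t (b - a))` ...)
* `height_unique`: for `z` let `c` be a lifted curve from `z₁` to `z` (`exists_conn`); `h (c t)` and
  `h' (c t)` are continuous and `ec` of them agree; by `lift_unique` the difference is a constant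
  integer on `[0, 1]`, and it is `0` at `t = 0`.
* `exists_height`. For `z` choose a lifted curve `c_z` with `c_z 0 = z₁`, `c_z 1 = z` and a
  continuous `θ_z : ℝ → ℝ` with `θ_z 0 = r₁`, `ec (θ_z t) = f (c_z t)` on `[0, 1]` (`exists_lift`);
  `h z = θ_z 1`.
  Claim: for every lifted curve `c` with `c 0 = z₁` and every `θ`, continuous on `[0, 1]`, with
  `θ 0 = r₁` and `ec (θ t) = f (c t)` on `[0, 1]`: `θ 1 = h (c 1)`. Proof: let `z = c 1` and apply
  `sc` to the planes of `c_z` and `c`; this gives a lifted plane `P` with `P (0, u) = c_z u`,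
  `P (1, u) = c u`, `P (s, 0) = z₁`, `P (s, 1) = z` for `s, u ∈ [0, 1]`. Let `Θ` be a lift of `f ∘
  P`
  (`exists_lift2`) with `Θ (0, 0) = r₁`. `Θ (s, 0)` is constant (it is a lift of a constant,
  `lift_unique`), so `Θ (1, 0) = r₁`. `Θ (0, u) = θ_z u`, `Θ (1, u) = θ u` (`lift_unique`), and
  `Θ (s, 1)` is constant. So `θ_z 1 = θ 1`.
  `h z₁ = r₁` and `ec (h z) = f z`: the claim for the constant curve, resp. the definition.
  `Cont h`: let `L` be a lifted plane, `Θ` a lift of `f ∘ L` with `Θ 0 = h (L 0)`. Then `h (L a) =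
  Θ a`
  for all `a`: the concatenation (`Cur.concat`) `c` of `c_z`, `z = L 0`, and `t ↦ L (t • a)` has
  the lift
  `θ t = θ_z (2 t)` (`t ≤ 1/2`), `Θ ((2 t - 1) • a)` (`t ≥ 1/2`), continuous since `θ_z 1 = h (L 0)
  =
  Θ 0`; by the claim `h (L a) = θ 1 = Θ a`.
-/

set_option autoImplicit false

noncomputable section

open Set Topology unitInterval

namespace Pool.Agent.EBS

theorem exists_lift2 {F : ℝ × ℝ → Circle} (hF : Continuous F) {a : ℝ × ℝ} {r : ℝ}
    (hr : ec r = F a) : ∃ Θ : ℝ × ℝ → ℝ, Continuous Θ ∧ Θ a = r ∧ ∀ b, ec (Θ b) = F b := by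
  obtain ⟨Θ, ⟨h1, h2⟩, -⟩ := isCoveringMap_ec.existsUnique_continuousMap_lifts ⟨F, hF⟩ a r hr
  exact ⟨Θ, Θ.continuous, h1, fun b => congrFun h2 b⟩

private theorem lift_eq {θ θ' : ℝ → ℝ} (h : ContinuousOn θ (Icc 0 1))
    (h' : ContinuousOn θ' (Icc 0 1)) (he : ∀ t ∈ Icc (0 : ℝ) 1, ec (θ t) = ec (θ' t))
    (h0 : θ 0 = θ' 0) : θ 1 = θ' 1 := by
  obtain ⟨n, hn⟩ := lift_unique h h' he
  have h1 := hn 0 ⟨le_rfl, zero_le_one⟩
  have h2 := hn 1 ⟨zero_le_one, le_rfl⟩
  linarith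

variable {X : Type} [TopologicalSpace X] {G : Type} [Group G] {S : LiftSys X G}

theorem height_unique {h h' : S.E → ℝ} (hh : S.Cont h) (hh' : S.Cont h')
    (he : ∀ z, ec (h z) = ec (h' z)) {z₁ : S.E} (h1 : h z₁ = h' z₁) (z : S.E) : h z = h' z := by
  obtain ⟨c, hc, hc0, hc1⟩ := LiftSys.exists_conn z₁ z
  have h2 := lift_eq (hh.cur hc).continuousOn (hh'.cur hc).continuousOn (fun t _ => he (c t))
    (by simp only [hc0, h1])
  simpa only [hc1] using h2

theorem exists_height {f : S.E → Circle} (hf : S.Cont f) {z₁ : S.E} {r₁ : ℝ}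
    (h1 : ec r₁ = f z₁) : ∃ h : S.E → ℝ, S.Cont h ∧ (∀ z, ec (h z) = f z) ∧ h z₁ = r₁ := by
  choose c hc hc0 hc1 using fun z : S.E => LiftSys.exists_conn (S := S) z₁ z
  have hex : ∀ z, ∃ θ : ℝ → ℝ, Continuous θ ∧ θ 0 = r₁ ∧
      ∀ t ∈ Icc (0 : ℝ) 1, ec (θ t) = f (c z t) := fun z =>
    exists_lift zero_le_one (hf.cur (hc z)).continuousOn (by rw [hc0, h1])
  choose θ hθ hθ0 hθ1 using hex
  have i0 : (0 : ℝ) ∈ Icc (0 : ℝ) 1 := ⟨le_rfl, zero_le_one⟩
  have i1 : (1 : ℝ) ∈ Icc (0 : ℝ) 1 := ⟨zero_le_one, le_rfl⟩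
  have claim : ∀ c' : ℝ → S.E, S.Cur c' → c' 0 = z₁ → ∀ θ' : ℝ → ℝ, Continuous θ' →
      θ' 0 = r₁ → (∀ t ∈ Icc (0 : ℝ) 1, ec (θ' t) = f (c' t)) → θ' 1 = θ (c' 1) 1 := by
    intro c' hc' hc'0 θ' hθ' hθ'0 hθ'1
    obtain ⟨P, hP, hPu⟩ := S.sc (fun a => c (c' 1) a.1) (fun a => c' a.1) (hc _) hc'
      (by simp only [hc0, hc'0]) (by simp only [hc1])
    simp only at hPu
    obtain ⟨Θ, hΘ, hΘ0, hΘ1⟩ := exists_lift2 (hf P hP) (a := (0, 0)) (r := r₁)
      (by rw [(hPu 0 i0).1, hc0, h1])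
    have e1 : Θ (1, 0) = r₁ := by
      refine lift_eq (θ := fun s => Θ (s, 0)) (θ' := fun _ => r₁)
        (hΘ.comp (continuous_id.prodMk continuous_const)).continuousOn
        continuousOn_const (fun t ht => ?_) hΘ0
      rw [hΘ1, (hPu t ht).2.2.1, hc0, h1]
    have e2 : Θ (0, 1) = θ (c' 1) 1 := by
      refine lift_eq (θ := fun s => Θ (0, s)) (θ' := fun s => θ (c' 1) s)
        (hΘ.comp (continuous_const.prodMk continuous_id)).continuousOn
        (hθ _).continuousOn (fun t ht => ?_) (by rw [hΘ0, hθ0])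
      rw [hΘ1, (hPu t ht).1, hθ1 _ t ht]
    have e3 : Θ (1, 1) = θ' 1 := by
      refine lift_eq (θ := fun s => Θ (1, s)) (θ' := θ')
        (hΘ.comp (continuous_const.prodMk continuous_id)).continuousOn
        hθ'.continuousOn (fun t ht => ?_) (by rw [e1, hθ'0])
      rw [hΘ1, (hPu t ht).2.1, hθ'1 t ht]
    have e4 : Θ (1, 1) = Θ (0, 1) := by
      refine lift_eq (θ := fun s => Θ (s, 1)) (θ' := fun _ => Θ (0, 1))
        (hΘ.comp (continuous_id.prodMk continuous_const)).continuousOn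
        continuousOn_const (fun t ht => ?_) rfl
      rw [hΘ1, hΘ1, (hPu t ht).2.2.2, (hPu 0 i0).2.2.2]
    rw [← e3, e4, e2]
  refine ⟨fun z => θ z 1, ?_, fun z => ?_, ?_⟩
  · intro L hL
    obtain ⟨Θ, hΘ, hΘ0, hΘ1⟩ := exists_lift2 (hf L hL) (a := 0) (r := θ (L 0) 1)
      (by rw [hθ1 _ 1 i1, hc1])
    have key : ∀ a, θ (L a) 1 = Θ a := by
      intro a
      have hφ : Continuous fun t : ℝ => t • a := continuous_id.smul continuous_const
      have hcL : S.Cur fun t : ℝ => L (t • a) := LiftSys.Cur.of_lift hL hφ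
      obtain ⟨c'', hc'', h2, h3⟩ := LiftSys.Cur.concat (hc (L 0)) hcL
        (by simp only [hc1, zero_smul])
      have e1 : c'' 1 = L a := by
        rw [h3 1 ⟨by norm_num, le_rfl⟩]
        norm_num
      have hcont : Continuous fun t : ℝ => if t ≤ 1 / 2 then θ (L 0) (2 * t) else
          Θ ((2 * t - 1) • a) := by
        refine Continuous.if_le ((hθ _).comp (continuous_const.mul continuous_id))
          (hΘ.comp (((continuous_const.mul continuous_id).sub continuous_const).smul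
            continuous_const)) continuous_id continuous_const ?_
        intro t ht
        rw [ht]
        norm_num
        exact hΘ0.symm
      have h4 := claim c'' hc'' ?_ _ hcont ?_ ?_
      · rw [e1] at h4
        rw [← h4, if_neg (by norm_num)]
        norm_num
      · rw [h2 0 ⟨le_rfl, by norm_num⟩, mul_zero, hc0]
      · rw [if_pos (by norm_num), mul_zero, hθ0]
      · intro t ht
        by_cases h5 : t ≤ 1 / 2
        · rw [if_pos h5, h2 t ⟨ht.1, h5⟩]
          exact hθ1 _ _ ⟨by linarith [ht.1], by linarith⟩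
        · rw [if_neg h5, h3 t ⟨(not_le.1 h5).le, ht.2⟩, hΘ1]
    have : (fun a => θ (L a) 1) = Θ := funext key
    rw [this]
    exact hΘ
  · rw [hθ1 z 1 i1, hc1]
  · have h2 := claim (fun _ => z₁) (LiftSys.Cur.const z₁) rfl (fun _ => r₁) continuous_const rfl
      fun t _ => h1
    exact h2.symm

end Pool.Agent.EBS
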