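import Pool.Agent.EBS.T03

/-!
# T05: uniqueness and equivariance of height functions

* `ht_unique`: for every `z'`: `|H z'| < 1 ↔ Rel N z z' ↔ |H' z'| < 1` (`IsHt.rel`), and then
  `H z' = D.t (pr z') = H' z'`; otherwise `H z'`, `H' z' ∈ {1, -1}` (`IsHt.le`), so in all cases
  `ec ((H z' + 1) / 2) = ec ((H' z' + 1) / 2)` (`ec 0 = ec 1 = 1`). By `height_unique` for
  `(H + 1) / 2`, `(H' + 1) / 2` they agree everywhere (they agree at `z`).
* `ht_smul`: `Cont`: `LiftSys.smul`; `rel`: `Rel.smul` for `g` and `g⁻¹`; `pr_smul`.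
* `ht_trans`: let `|H z| < 1`, `|H' z'| < 1`; `pr z`, `pr z' ∈ N` are joined by a path in `N`
  (`D.conn`,
  `IsPathConnected.joinedIn`), its lift (`exists_cur`) starting at `z` ends in `z''` over `pr z'`,
  and
  `|H z''| < 1` (`IsHt.rel`). There is `g` with `g • z'' = z'` (`LiftSys.trans`). Then
  `y ↦ H (g⁻¹ • y)` is a height function with value `H z''` at `z'`; `ht_unique`.
* `ht_core`: there is `z` with `|H z| < 1`, a point `x ∈ N` with `D.t x = 0` (`D.zero`), a path in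
  `N`
  from `pr z` to `x` (`D.conn`) and its lift ends in a point `z'` with `|H z'| < 1` and
  `H z' = D.t x = 0`.
-/

set_option autoImplicit false

noncomputable section

open Set Topology unitInterval

namespace Pool.Agent.EBS

variable {X : Type} [TopologicalSpace X] {G : Type} [Group G] {S : LiftSys X G} {D : WData X}

theorem ht_unique {H H' : S.E → ℝ} (h : IsHt S D H) (h' : IsHt S D H') {z : S.E} (hz : |H z| < 1)
    (hz' : |H' z| < 1) : H = H' := by
  have hc : ∀ {K : S.E → ℝ}, IsHt S D K → S.Cont fun y => (K y + 1) / 2 := fun hK L hL =>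
    ((hK.cont L hL).add continuous_const).div_const 2
  have h1 : ∀ {K : S.E → ℝ}, IsHt S D K → ∀ y, ¬ |K y| < 1 → ec ((K y + 1) / 2) = 1 := by
    intro K hK y hy
    have h2 : |K y| = 1 := le_antisymm (hK.le y) (not_lt.mp hy)
    rcases (abs_eq (by norm_num)).mp h2 with h3 | h3
    · rw [h3]
      norm_num
      exact ec_one
    · rw [h3]
      norm_num
      exact ec_zero
  have key : ∀ y, |H y| < 1 → |H' y| < 1 → H y = H' y := fun y hy hy' => by
    rw [(h.mem y hy).2, (h'.mem y hy').2]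
  have he : ∀ y, ec ((H y + 1) / 2) = ec ((H' y + 1) / 2) := by
    intro y
    have h3 : |H y| < 1 ↔ |H' y| < 1 := (h.rel z y hz).trans (h'.rel z y hz').symm
    by_cases h4 : |H y| < 1
    · rw [key y h4 (h3.mp h4)]
    · rw [h1 h y h4, h1 h' y (fun h5 => h4 (h3.mpr h5))]
  have h5 := height_unique (hc h) (hc h') he (z₁ := z) (by
    show (H z + 1) / 2 = (H' z + 1) / 2
    rw [key z hz hz'])
  funext y
  have h6 : (H y + 1) / 2 = (H' y + 1) / 2 := h5 y
  linarith

theorem ht_smul {H : S.E → ℝ} (h : IsHt S D H) (g : G) : IsHt S D fun z => H (g⁻¹ • z) := by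
  refine ⟨fun L hL => h.cont (fun a => g⁻¹ • L a) (S.smul g⁻¹ L hL), fun z => h.le _, ?_, ?_, ?_⟩
  · intro z hz
    have := h.mem (g⁻¹ • z) hz
    rwa [S.pr_smul] at this
  · intro z z' hz
    refine (h.rel (g⁻¹ • z) (g⁻¹ • z') hz).trans ⟨fun r => ?_, fun r => r.smul g⁻¹⟩
    have := r.smul g
    rwa [smul_inv_smul, smul_inv_smul] at this
  · obtain ⟨z, hz⟩ := h.ne
    exact ⟨g • z, by rwa [inv_smul_smul]⟩

private theorem exists_over {H : S.E → ℝ} (h : IsHt S D H) {z : S.E} (hz : |H z| < 1) {x : X}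
    (hx : x ∈ D.N) : ∃ z', S.pr z' = x ∧ |H z'| < 1 := by
  have hj : JoinedIn D.N (S.pr z) x := D.conn.joinedIn _ (h.mem z hz).1 _ hx
  obtain ⟨c, hc, hc0, hcp⟩ := LiftSys.exists_cur (S := S) (c := hj.somePath.extend)
    hj.somePath.continuous_extend 0 (z := z) (by rw [Path.extend_zero])
  refine ⟨c 1, by rw [hcp, Path.extend_one], (h.rel z (c 1) hz).mpr ⟨c, hc, hc0, rfl, ?_⟩⟩
  intro u hu
  rw [hcp, Path.extend_apply _ hu]
  exact hj.somePath_mem _

theorem ht_trans {H H' : S.E → ℝ} (h : IsHt S D H) (h' : IsHt S D H') :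
    ∃ g : G, H' = fun z => H (g⁻¹ • z) := by
  obtain ⟨z, hz⟩ := h.ne
  obtain ⟨z', hz'⟩ := h'.ne
  obtain ⟨y, hy, hy1⟩ := exists_over h hz (h'.mem z' hz').1
  obtain ⟨g, hg⟩ := S.trans y z' hy
  refine ⟨g, ht_unique h' (ht_smul h g) hz' ?_⟩
  show |H (g⁻¹ • z')| < 1
  rwa [← hg, inv_smul_smul]

theorem ht_core {H : S.E → ℝ} (h : IsHt S D H) : ∃ z, H z = 0 := by
  obtain ⟨z, hz⟩ := h.ne
  obtain ⟨x, hx, hx0⟩ := D.zero
  obtain ⟨y, hy, hy1⟩ := exists_over h hz hx
  exact ⟨y, by rw [(h.mem y hy1).2, hy, hx0]⟩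

end Pool.Agent.EBS
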