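import Pool.Agent.EBS.T05

/-!
# T06: the walls are nested

Write `A = {|H| < 1}`, `A' = {|H'| < 1}`. By `ht_unique` `A` and `A'` are disjoint (`H ≠ H'`). On
`A'`
`H = ± 1` (`IsHt.le`), and it is constant on `A'`: for `z, z' ∈ A'` there is a lifted curve `c`
over `N`
from `z` to `z'` (`IsHt.rel`), all its points are in `A'` (`Rel.sub`, `IsHt.rel`), so `H (c u)` is a
continuous function with values `± 1` on `[0, 1]`, so constant. Let `s` be the sign of `H` on `A'`
(`A'` is nonempty) and in the same way `s'` the sign of `H'` on `A`.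
Let `sign (H' z) ≠ s'`. If `H' z = 0` then `z ∈ A'` and `sign (H z) = s`. Otherwise let `z₀` be a
point with
`H' z₀ = 0` (`ht_core`), `c` a lifted curve with `c 0 = z`, `c 1 = z₀` (`exists_conn`), `T` the
smallest `u ∈ [0, 1]` with `H' (c u) = 0` (closed nonempty set); `T > 0`. On `[0, T)` `H' (c u)`
has the
constant sign `sign (H' z) ≠ s'`. So `c u ∉ A` for `u ∈ [0, T)` (on `A` the sign of `H'` is `s'`),
and
`c T ∈ A'` is not in `A`. So `H (c u) = ± 1` on `[0, T]`, constant, with sign `s` at `u = T`. So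
`sign (H z) = s`.
-/

set_option autoImplicit false

noncomputable section

open Set Topology unitInterval

namespace Pool.Agent.EBS

variable {X : Type} [TopologicalSpace X] {G : Type} [Group G] {S : LiftSys X G} {D : WData X}

private theorem sign_const {f : ℝ → ℝ} (hf : Continuous f) {u v : ℝ} (huv : u ≤ v)
    (h : ∀ t ∈ Icc u v, f t ≠ 0) : SignType.sign (f u) = SignType.sign (f v) := by
  have hu := h u ⟨le_refl u, huv⟩
  have hv := h v ⟨huv, le_refl v⟩
  rcases lt_or_gt_of_ne hu with h1 | h1 <;> rcases lt_or_gt_of_ne hv with h2 | h2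
  · rw [sign_neg h1, sign_neg h2]
  · obtain ⟨t, ht, h3⟩ := intermediate_value_Icc huv hf.continuousOn ⟨h1.le, h2.le⟩
    exact absurd h3 (h t ht)
  · obtain ⟨t, ht, h3⟩ := intermediate_value_Icc' huv hf.continuousOn ⟨h2.le, h1.le⟩
    exact absurd h3 (h t ht)
  · rw [sign_pos h1, sign_pos h2]

private theorem nz_of_not {x : ℝ} (h : ¬ |x| < 1) : x ≠ 0 := by
  rintro rfl
  rw [abs_zero] at h
  exact h zero_lt_one

private theorem nest_side {H H' : S.E → ℝ} (h : IsHt S D H) (h' : IsHt S D H') (hne : H ≠ H') :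
    ∃ s : SignType, s ≠ 0 ∧ ∀ z, |H' z| < 1 → SignType.sign (H z) = s := by
  have hd : ∀ z, |H' z| < 1 → ¬ |H z| < 1 := fun z h1 h2 => hne (ht_unique h h' h2 h1)
  obtain ⟨z₀, hz₀⟩ := h'.ne
  refine ⟨SignType.sign (H z₀), ?_, ?_⟩
  · rw [sign_ne_zero]
    exact nz_of_not (hd z₀ hz₀)
  · intro z hz
    obtain ⟨c, hc, hc0, hc1, hcN⟩ := (h'.rel z z₀ hz).1 hz₀
    have h1 : ∀ t ∈ Icc (0 : ℝ) 1, H (c t) ≠ 0 := by
      intro t ht
      apply nz_of_not
      apply hd
      have h2 : |H' (c 0)| < 1 := by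
        rw [hc0]
        exact hz
      exact (h'.rel (c 0) (c t) h2).2
        (LiftSys.Rel.sub hc hcN ⟨le_refl _, zero_le_one⟩ ht)
    have h3 := sign_const (LiftSys.Cont.cur h.cont hc) zero_le_one h1
    rw [hc0, hc1] at h3
    exact h3

theorem ht_nest {H H' : S.E → ℝ} (h : IsHt S D H) (h' : IsHt S D H') (hne : H ≠ H') :
    ∃ s s' : SignType, s ≠ 0 ∧ s' ≠ 0 ∧
      ∀ z, SignType.sign (H' z) ≠ s' → SignType.sign (H z) = s := by
  have hd : ∀ z, |H' z| < 1 → ¬ |H z| < 1 := fun z h1 h2 => hne (ht_unique h h' h2 h1)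
  obtain ⟨s, hs, hsA⟩ := nest_side h h' hne
  obtain ⟨s', hs', hsA'⟩ := nest_side h' h (Ne.symm hne)
  refine ⟨s, s', hs, hs', fun z hz => ?_⟩
  by_cases hz1 : |H' z| < 1
  · exact hsA z hz1
  · obtain ⟨z₀, hz₀⟩ := ht_core h'
    obtain ⟨c, hc, hc0, hc1⟩ := LiftSys.exists_conn z z₀
    have hf : Continuous fun t => H (c t) := LiftSys.Cont.cur h.cont hc
    have hf' : Continuous fun t => H' (c t) := LiftSys.Cont.cur h'.cont hc
    have hK : IsClosed (Icc (0 : ℝ) 1 ∩ (fun t => H' (c t)) ⁻¹' {0}) :=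
      isClosed_Icc.inter (isClosed_singleton.preimage hf')
    have hKn : (Icc (0 : ℝ) 1 ∩ (fun t => H' (c t)) ⁻¹' {0}).Nonempty := by
      refine ⟨1, ⟨zero_le_one, le_refl _⟩, ?_⟩
      change H' (c 1) = 0
      rw [hc1]
      exact hz₀
    have hKb : BddBelow (Icc (0 : ℝ) 1 ∩ (fun t => H' (c t)) ⁻¹' {0}) :=
      ⟨0, fun t ht => ht.1.1⟩
    obtain ⟨⟨hT0, hT1⟩, hT⟩ := hK.csInf_mem hKn hKb
    set T := sInf (Icc (0 : ℝ) 1 ∩ (fun t => H' (c t)) ⁻¹' {0}) with hTd
    have hT' : H' (c T) = 0 := hT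
    have hlt : ∀ t, 0 ≤ t → t < T → H' (c t) ≠ 0 := by
      intro t ht0 htT h1
      have h2 : T ≤ t := csInf_le hKb ⟨⟨ht0, htT.le.trans hT1⟩, h1⟩
      exact absurd h2 (not_le.2 htT)
    have hnz : ∀ t ∈ Icc (0 : ℝ) T, H (c t) ≠ 0 := by
      intro t ht
      apply nz_of_not
      rcases ht.2.lt_or_eq with h1 | h1
      · intro h2
        have h3 := hsA' (c t) h2
        have h4 := sign_const hf' ht.1 fun r hr => hlt r hr.1 (hr.2.trans_lt h1)
        rw [hc0] at h4
        exact hz (h4.trans h3)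
      · apply hd
        rw [h1, hT', abs_zero]
        exact zero_lt_one
    have h5 := sign_const hf hT0 hnz
    rw [hc0] at h5
    rw [h5]
    apply hsA
    rw [hT', abs_zero]
    exact zero_lt_one

end Pool.Agent.EBS
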