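import Pool.Agent.EBS.T05

/-!
# T07: only finitely many walls separate two points

Let `c` be a lifted curve with `c 0 = z`, `c 1 = z'` (`exists_conn`). If `sign (H z) ≠ sign (H z')`
there is
`u ∈ [0, 1]` with `H (c u) = 0` (if one of the signs is `0` take `u = 0` or `u = 1`, otherwise the
intermediate value theorem; `Cont.cur`).
Every `u ∈ [0, 1]` has a neighbourhood `U` such that at most one height function `H` has a zero
`H (c u') = 0` with `u' ∈ U`: if `pr (c u) ∈ N` let `U` be an interval around `u` with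
`pr (c u') ∈ N` for `u' ∈ U` (`Cur.cont`, `D.isOpen`); all `c u'`, `u' ∈ U`, are joined over `N`
(the segment; `Cur.comp`, an affine reparametrization of `c`), so if `H (c u') = 0 = H' (c u'')`
then
`|H (c u'')| < 1` (`IsHt.rel`) and `H = H'` by `ht_unique`. If `pr (c u) ∉ N` then
`D.η (pr (c u)) = 1 ≠ ec (1/2)`, so `D.η (pr (c u')) ≠ ec (1/2)` for `u'` in a neighbourhood `U`,
but
`H (c u') = 0` implies `pr (c u') ∈ N`, `D.t = 0` and `D.η (pr (c u')) = ec (1/2)` (`IsHt.mem`,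
`η_mem`).
By compactness of `[0, 1]` (`IsCompact.elim_nhds_subcover`) finitely many such `U` cover `[0, 1]`.
-/

set_option autoImplicit false

noncomputable section

open Set Topology unitInterval

namespace Pool.Agent.EBS

variable {X : Type} [TopologicalSpace X] {G : Type} [Group G] {S : LiftSys X G} {D : WData X}

private theorem ec_half_ne : ec (1 / 2) ≠ 1 := by
  intro h
  rw [← ec_zero] at h
  obtain ⟨n, hn⟩ := ec_eq_iff.1 h
  have h1 : (1 : ℝ) = ((2 * n : ℤ) : ℝ) := by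
    push_cast
    linarith
  have h2 : (1 : ℤ) = 2 * n := by exact_mod_cast h1
  omega

private theorem zero_of_sign {f : ℝ → ℝ} (hf : Continuous f)
    (h : SignType.sign (f 0) ≠ SignType.sign (f 1)) : ∃ u ∈ Icc (0 : ℝ) 1, f u = 0 := by
  have h0 : (0 : ℝ) ∈ uIcc (f 0) (f 1) := by
    rw [mem_uIcc]
    rcases lt_trichotomy (f 0) 0 with h1 | h1 | h1
    · rcases lt_trichotomy (f 1) 0 with h2 | h2 | h2
      · rw [sign_neg h1, sign_neg h2] at h
        exact absurd rfl h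
      · exact Or.inl ⟨h1.le, h2.ge⟩
      · exact Or.inl ⟨h1.le, h2.le⟩
    · rcases le_total (f 1) 0 with h2 | h2
      · exact Or.inr ⟨h2, h1.ge⟩
      · exact Or.inl ⟨h1.le, h2⟩
    · rcases lt_trichotomy (f 1) 0 with h2 | h2 | h2
      · exact Or.inr ⟨h2.le, h1.le⟩
      · exact Or.inr ⟨h2.le, h1.le⟩
      · rw [sign_pos h1, sign_pos h2] at h
        exact absurd rfl h
  obtain ⟨u, hu, hu0⟩ := intermediate_value_uIcc (f := f) hf.continuousOn h0
  rw [uIcc_of_le zero_le_one] at hu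
  exact ⟨u, hu, hu0⟩

private theorem local_one {c : ℝ → S.E} (hc : S.Cur c) (u : ℝ) :
    ∃ U ∈ 𝓝 u, ∀ H H' : S.E → ℝ, IsHt S D H → IsHt S D H' → ∀ u' ∈ U, ∀ u'' ∈ U,
      H (c u') = 0 → H' (c u'') = 0 → H = H' := by
  have hcont : Continuous fun t => S.pr (c t) := hc.cont
  by_cases hN : S.pr (c u) ∈ D.N
  · have h1 : (fun t => S.pr (c t)) ⁻¹' D.N ∈ 𝓝 u :=
      (D.isOpen.preimage hcont).mem_nhds hN
    obtain ⟨r, hr, hball⟩ := Metric.mem_nhds_iff.1 h1
    refine ⟨Metric.ball u r, Metric.ball_mem_nhds u hr, ?_⟩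
    intro H H' hH hH' u' hu' u'' hu'' h0 h0'
    have hconv : Convex ℝ (Prod.fst ⁻¹' Metric.ball u r : Set (ℝ × ℝ)) :=
      (convex_ball u r).linear_preimage (LinearMap.fst ℝ ℝ ℝ)
    have hrel : S.Rel D.N (c u') (c u'') :=
      LiftSys.Rel.of_convex (L := fun a : ℝ × ℝ => c a.1) hc hconv (fun a ha => hball ha)
        (a := (u', 0)) (b := (u'', 0)) hu' hu''
    have h2 : |H (c u')| < 1 := by
      rw [h0, abs_zero]
      exact zero_lt_one
    have h3 : |H' (c u'')| < 1 := by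
      rw [h0', abs_zero]
      exact zero_lt_one
    exact ht_unique hH hH' ((hH.rel _ _ h2).2 hrel) h3
  · have h1 : D.η (S.pr (c u)) ≠ ec (1 / 2) := by
      rw [D.η_not_mem _ hN]
      exact ec_half_ne.symm
    have h2 : {t | D.η (S.pr (c t)) ≠ ec (1 / 2)} ∈ 𝓝 u :=
      (isOpen_ne_fun (D.cont_η.comp hcont) continuous_const).mem_nhds h1
    refine ⟨_, h2, ?_⟩
    intro H H' hH hH' u' hu' u'' hu'' h0 h0'
    exfalso
    have h3 : |H (c u')| < 1 := by
      rw [h0, abs_zero]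
      exact zero_lt_one
    obtain ⟨h4, h5⟩ := hH.mem _ h3
    refine hu' ?_
    rw [D.η_mem _ h4, ← h5, h0, zero_add]

theorem ht_finite (S : LiftSys X G) (D : WData X) (z z' : S.E) :
    {H : {H : S.E → ℝ // IsHt S D H} |
      SignType.sign (H.1 z) ≠ SignType.sign (H.1 z')}.Finite := by
  obtain ⟨c, hc, rfl, rfl⟩ := LiftSys.exists_conn z z'
  choose U hU hU' using fun u => local_one (D := D) hc u
  obtain ⟨t, -, ht⟩ := isCompact_Icc.elim_nhds_subcover (s := Icc (0 : ℝ) 1) U fun u _ => hU u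
  have hfin : (⋃ x ∈ t, {H : {H : S.E → ℝ // IsHt S D H} | ∃ u ∈ U x, H.1 (c u) = 0}).Finite := by
    refine t.finite_toSet.biUnion fun x _ => Set.Subsingleton.finite ?_
    rintro H ⟨u, hu, h0⟩ H' ⟨u', hu', h0'⟩
    exact Subtype.ext (hU' x H.1 H'.1 H.2 H'.2 u hu u' hu' h0 h0')
  refine hfin.subset fun H hH => ?_
  obtain ⟨u, hu, h0⟩ := zero_of_sign (LiftSys.Cont.cur H.2.cont hc) hH
  obtain ⟨x, hx, hux⟩ := mem_iUnion₂.1 (ht hu)
  exact mem_iUnion₂.2 ⟨x, hx, u, hux, h0⟩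

end Pool.Agent.EBS
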