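import Pool.Agent.EBS.TL

/-!
# T08: lines of walls, the order

Put `a i x = e i * sg (w i) x` (`1`: beyond the wall `w i`, `-1`: before it, `0` on it). By `l1`,
`l1'`
`e i ≠ 0`, `sg (w i) (z i) = e i`, `sg (w i) (z (i - 1)) = - e i` (case analysis in `SignType`).
* `a_step`: NEST (`Y.nest`) for `w i ≠ w (i + 1)` (`l3`): `s`, `s'` nonzero with
  `sg (w (i + 1)) x ≠ s' → sg (w i) x = s`. First `s = e i`: otherwise `s = - e i`. `x = z i`:
  `sg (w i) x = e i ≠ s`, so `sg (w (i + 1)) (z i) = s'`, and this is `- e (i + 1)`. `x = z (i +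
  1)`:
  `sg (w i) (z (i + 1)) = sg (w i) (z i) = e i ≠ s` (`l2` for `i + 1`, `l3`), so
  `s' = sg (w (i + 1)) (z (i + 1)) = e (i + 1)`; contradiction. Then `s' = - e (i + 1)`: `x = z (i
  - 1)`:
  `sg (w i) x = - e i ≠ s`, so `s' = sg (w (i + 1)) (z (i - 1)) = sg (w (i + 1)) (z i) = - e (i +
  1)` (`l2`).
  So `a (i + 1) x ≠ -1` implies `sg (w (i + 1)) x ≠ s'`, so `sg (w i) x = e i`, `a i x = 1`.
* `a_lt`: induction. `a_z_le`: `a j (z j) = 1` and `a_lt`. `a_z_gt`: `a (j + 1) (z j) = -1`; if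
  `a i (z j) ≠ -1` with `i > j + 1` then `a (j + 1) (z j) = 1` by `a_lt`.
* `w_injective`: let `i < j`, `w i = w j`. `a i (z (j - 1)) = 1 = a i (z j)`, so
  `sg (w i) (z (j - 1)) = e i = sg (w i) (z j)`, but `sg (w j) (z (j - 1)) = - e j`, `sg (w j) (z
  j) = e j`.
* `exists_kappa`: the set of all `i` with `sg (w i) x ≠ sg (w i) (z 0)` is finite (`Y.finite`,
  `w_injective`). Outside this set `a i x = a i (z 0) = 1` for `i ≤ 0` and `-1` for `i > 0`. So
  `{i | a i x = 1}` is nonempty, bounded above and downward closed (`a_lt`); let `κ` be the maximum.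
-/

set_option autoImplicit false

namespace Pool.Agent.EBS

private theorem t08_one : ∀ e s : SignType, e * s = 1 → e ≠ 0 ∧ s = e := by decide

private theorem t08_neg : ∀ e s : SignType, e * s = -1 → s = -e := by decide

private theorem t08_ne : ∀ e : SignType, e ≠ 0 → e ≠ -e := by decide

private theorem t08_mul : ∀ e : SignType, e ≠ 0 → e * e = 1 := by decide

private theorem t08_mul_neg : ∀ e : SignType, e ≠ 0 → e * -e = -1 := by decide

namespace Line

variable {G W Z : Type} [Group G] [MulAction G W] [MulAction G Z] {Y : WSys G W Z} (ln : Line Y)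

/-- The side of the point `x` with respect to the wall `w i`. -/
def a (i : ℤ) (x : Z) : SignType := ln.e i * Y.sg (ln.w i) x

theorem e_ne (i : ℤ) : ln.e i ≠ 0 := by
  exact (t08_one _ _ (ln.l1 i)).1

theorem a_step {i : ℤ} {x : Z} (h : ln.a (i + 1) x ≠ -1) : ln.a i x = 1 := by
  obtain ⟨s, s', -, -, H⟩ := Y.nest (ln.w i) (ln.w (i + 1)) (ln.l3 i)
  have e1 := (t08_one _ _ (ln.l1 i)).2
  have e2 := t08_neg _ _ (ln.l1' i)
  have e3 := (t08_one _ _ (ln.l1 (i + 1))).2
  have e4 := t08_neg _ _ (ln.l1' (i + 1))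
  have e5 := ln.l2 (i + 1) (ln.w i) (ln.l3 i)
  have e6 := ln.l2 i (ln.w (i + 1)) (ln.l3 i).symm
  rw [add_sub_cancel_right] at e4 e5
  have hs : s = ln.e i := by
    by_contra hn
    have h1 : Y.sg (ln.w (i + 1)) (ln.z i) = s' := by
      by_contra h2
      exact hn ((H _ h2).symm.trans e1)
    have h3 : Y.sg (ln.w (i + 1)) (ln.z (i + 1)) = s' := by
      by_contra h2
      exact hn ((H _ h2).symm.trans (e5.trans e1))
    rw [e4] at h1
    rw [e3] at h3
    exact t08_ne _ (ln.e_ne (i + 1)) (h3.trans h1.symm)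
  have hs' : s' = -ln.e (i + 1) := by
    by_contra hn
    have h1 : Y.sg (ln.w (i + 1)) (ln.z (i - 1)) ≠ s' := by
      rw [← e6, e4]
      exact fun h2 => hn h2.symm
    have h2 := H _ h1
    rw [e2, hs] at h2
    exact t08_ne _ (ln.e_ne i) h2.symm
  have h1 : Y.sg (ln.w (i + 1)) x ≠ s' := by
    intro h2
    refine h ?_
    change ln.e (i + 1) * Y.sg (ln.w (i + 1)) x = -1
    rw [h2, hs']
    exact t08_mul_neg _ (ln.e_ne (i + 1))
  change ln.e i * Y.sg (ln.w i) x = 1
  rw [H _ h1, hs]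
  exact t08_mul _ (ln.e_ne i)

theorem a_lt {i j : ℤ} (hij : i < j) {x : Z} (h : ln.a j x ≠ -1) : ln.a i x = 1 := by
  have key : ∀ n : ℕ, ln.a (i + 1 + n) x ≠ -1 → ln.a i x = 1 := by
    intro n
    induction n with
    | zero =>
      intro h1
      rw [Nat.cast_zero, add_zero] at h1
      exact ln.a_step h1
    | succ n ih =>
      intro h1
      refine ih ?_
      rw [Nat.cast_succ, ← add_assoc] at h1
      rw [ln.a_step h1]
      decide
  obtain ⟨n, hn⟩ := Int.le.dest (Int.add_one_le_iff.2 hij)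
  rw [← hn] at h
  exact key n h

theorem a_z_le {i j : ℤ} (h : i ≤ j) : ln.a i (ln.z j) = 1 := by
  have h1 : ln.a j (ln.z j) = 1 := ln.l1 j
  rcases h.lt_or_eq with h2 | rfl
  · exact ln.a_lt h2 (by rw [h1]; decide)
  · exact h1

theorem a_z_gt {i j : ℤ} (h : j < i) : ln.a i (ln.z j) = -1 := by
  have h1 : ln.a (j + 1) (ln.z j) = -1 := by
    have h2 := ln.l1' (j + 1)
    rw [add_sub_cancel_right] at h2
    exact h2
  rcases (Int.add_one_le_iff.2 h).lt_or_eq with h2 | h2
  · by_contra hn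
    have h3 := ln.a_lt h2 hn
    rw [h1] at h3
    exact absurd h3 (by decide)
  · rw [← h2]
    exact h1

theorem w_injective : Function.Injective ln.w := by
  have key : ∀ i j, i < j → ln.w i ≠ ln.w j := by
    intro i j hij h
    have h1 : ln.e i * Y.sg (ln.w i) (ln.z (j - 1)) = 1 := ln.a_z_le (by omega)
    have h2 : ln.e i * Y.sg (ln.w i) (ln.z j) = 1 := ln.a_z_le (by omega)
    have h3 := (t08_one _ _ h1).2
    have h4 := (t08_one _ _ h2).2
    have h5 := (t08_one _ _ (ln.l1 j)).2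
    have h6 := t08_neg _ _ (ln.l1' j)
    rw [h] at h3 h4
    exact t08_ne _ (ln.e_ne j) ((h5.symm.trans h4).trans (h3.symm.trans h6))
  intro i j h
  rcases lt_trichotomy i j with h1 | h1 | h1
  · exact absurd h (key i j h1)
  · exact h1
  · exact absurd h.symm (key j i h1)

theorem exists_kappa (x : Z) : ∃ κ : ℤ, ∀ i, ln.a i x = 1 ↔ i ≤ κ := by
  have hfin : {i : ℤ | Y.sg (ln.w i) x ≠ Y.sg (ln.w i) (ln.z 0)}.Finite :=
    (Y.finite x (ln.z 0)).preimage ln.w_injective.injOn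
  obtain ⟨M, hM⟩ := hfin.bddAbove
  obtain ⟨m, hm⟩ := hfin.bddBelow
  have heq : ∀ i, (M < i ∨ i < m) → ln.a i x = ln.a i (ln.z 0) := by
    intro i hi
    have h1 : Y.sg (ln.w i) x = Y.sg (ln.w i) (ln.z 0) := by
      by_contra h2
      have h3 : i ≤ M := hM h2
      have h4 : m ≤ i := hm h2
      omega
    change ln.e i * Y.sg (ln.w i) x = ln.e i * Y.sg (ln.w i) (ln.z 0)
    rw [h1]
  obtain ⟨κ, hκ, hmax⟩ := Int.exists_greatest_of_bdd (P := fun i => ln.a i x = 1)
    ⟨max M 0, fun i hi => by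
      by_contra hn
      rw [not_le, max_lt_iff] at hn
      rw [heq i (Or.inl hn.1), ln.a_z_gt hn.2] at hi
      exact absurd hi (by decide)⟩
    ⟨min (m - 1) 0, by
      rw [heq _ (Or.inr (lt_of_le_of_lt (min_le_left _ _) (by omega)))]
      exact ln.a_z_le (min_le_right _ _)⟩
  refine ⟨κ, fun i => ⟨hmax i, fun h => ?_⟩⟩
  rcases h.lt_or_eq with h2 | rfl
  · exact ln.a_lt h2 (by rw [hκ]; decide)
  · exact hκ

end Line

end Pool.Agent.EBS
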