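import Pool.Agent.EBS.T08

/-!
# T09: shifts of a line

* `shift_unique`: `w (0 + s) = w (0 + s')` and `w_injective`.
* `shift_mul`, `shift_inv`: compute; for the inverse apply `g⁻¹` to `g • w (i - s) = w i`.
* `shift_a`: `a (i + s) (g • x) = e (i + s) * sg (g • w i) (g • x) = e i * sg (w i) x`.
* `shift_z`. Case `v = w j`: `a j (g • z i) = a (j - s) (z i)` (`shift_a`), which is `1` iff `j - s
  ≤ i`
  and `-1` otherwise (`a_z_le`, `a_z_gt`), and `a j (z (i + s))` is `1` iff `j ≤ i + s`, otherwise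
  `-1`.
  So `e j * sg (w j) (g • z i) = e j * sg (w j) (z (i + s))`, and `e j ≠ 0`.
  Case `v` not in the range of `w`: by `l2` `sg v (z j)` does not depend on `j`, call it `τ`. `g⁻¹
  • v` is
  not in the range either (otherwise `v = g • w j = w (j + s)`), so
  `sg v (g • z j) = sg (g⁻¹ • v) (z j)` does not depend on `j`, call it `τ'`. NEST for `v ≠ w s`:
  there
  are `t`, `t'` with `sg (w s) x ≠ t' → sg v x = t`. One of `x = z (s - 1)`, `x = z s` satisfies
  `sg (w s) x ≠ t'` (the values are `- e s` and `e s`), so `τ = t`. One of `x = g • z (-1)`,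
  `x = g • z 0` satisfies it (`sg (w s) (g • y) = sg (g • w 0) (g • y) = sg (w 0) y`, values `- e
  0`,
  `e 0`), so `τ' = t`. So `τ = τ'`.
-/

set_option autoImplicit false

namespace Pool.Agent.EBS

namespace Line

variable {G W Z : Type} [Group G] [MulAction G W] [MulAction G Z] {Y : WSys G W Z} (ln : Line Y)

/-- `g` acts on the line as the translation by `s`. -/
def Shift (g : G) (s : ℤ) : Prop := ∀ i, g • ln.w i = ln.w (i + s) ∧ ln.e (i + s) = ln.e i

variable {ln}

theorem shift_unique {g : G} {s s' : ℤ} (h : ln.Shift g s) (h' : ln.Shift g s') : s = s' := by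
  have h1 := ln.w_injective ((h 0).1.symm.trans (h' 0).1)
  omega

theorem shift_one : ln.Shift 1 0 := by
  intro i
  rw [add_zero, one_smul]
  exact ⟨rfl, rfl⟩

theorem shift_mul {g g' : G} {s s' : ℤ} (h : ln.Shift g s) (h' : ln.Shift g' s') :
    ln.Shift (g * g') (s + s') := by
  intro i
  have e1 : i + (s + s') = i + s' + s := by ring
  rw [e1, mul_smul, (h' i).1, (h (i + s')).1, (h (i + s')).2, (h' i).2]
  exact ⟨rfl, rfl⟩

theorem shift_inv {g : G} {s : ℤ} (h : ln.Shift g s) : ln.Shift g⁻¹ (-s) := by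
  intro i
  have h1 := h (i + -s)
  have e1 : i + -s + s = i := by ring
  rw [e1] at h1
  refine ⟨?_, h1.2.symm⟩
  rw [← h1.1, inv_smul_smul]

theorem shift_zpow {g : G} {s : ℤ} (h : ln.Shift g s) (M : ℤ) : ln.Shift (g ^ M) (s * M) := by
  induction M using Int.induction_on with
  | zero =>
    rw [zpow_zero, mul_zero]
    exact shift_one
  | succ n ih =>
    have e1 : s * ((n : ℤ) + 1) = s * n + s := by ring
    rw [e1, zpow_add, zpow_one]
    exact shift_mul ih h
  | pred n ih =>
    have e1 : s * (-(n : ℤ) - 1) = s * (-n) + -s := by ring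
    rw [e1, sub_eq_add_neg, zpow_add, zpow_neg_one]
    exact shift_mul ih (shift_inv h)

theorem shift_a {g : G} {s : ℤ} (h : ln.Shift g s) (i : ℤ) (x : Z) :
    ln.a (i + s) (g • x) = ln.a i x := by
  rw [a, a, (h i).2, ← (h i).1, Y.sg_smul]

private theorem T09_const (v : W) (hv : ∀ j, v ≠ ln.w j) (j : ℤ) :
    Y.sg v (ln.z j) = Y.sg v (ln.z 0) := by
  induction j using Int.induction_on with
  | zero => rfl
  | succ n ih =>
    rw [ln.l2 _ v (hv _), add_sub_cancel_right]
    exact ih
  | pred n ih =>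
    rw [← ln.l2 _ v (hv _)]
    exact ih

private theorem T09_two (s : ℤ) {x y : Z} (hx : ln.a s x = 1) (hy : ln.a s y = -1)
    (t' : SignType) : Y.sg (ln.w s) x ≠ t' ∨ Y.sg (ln.w s) y ≠ t' := by
  by_contra hc
  rw [not_or, not_not, not_not] at hc
  rw [a, hc.1] at hx
  rw [a, hc.2, hx] at hy
  exact absurd hy (by decide)

theorem shift_z {g : G} {s : ℤ} (h : ln.Shift g s) (v : W) (i : ℤ) :
    Y.sg v (g • ln.z i) = Y.sg v (ln.z (i + s)) := by
  by_cases hv : ∃ j, v = ln.w j
  · obtain ⟨j, rfl⟩ := hv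
    have h1 : ln.a j (g • ln.z i) = ln.a (j - s) (ln.z i) := by
      have := shift_a h (j - s) (ln.z i)
      rwa [sub_add_cancel] at this
    have h2 : ln.a j (g • ln.z i) = ln.a j (ln.z (i + s)) := by
      rw [h1]
      by_cases hj : j ≤ i + s
      · rw [ln.a_z_le hj, ln.a_z_le (by omega : j - s ≤ i)]
      · rw [ln.a_z_gt (by omega : i + s < j), ln.a_z_gt (by omega : i < j - s)]
    exact mul_left_cancel₀ (ln.e_ne j) h2
  · have hv' : ∀ j, v ≠ ln.w j := fun j hj => hv ⟨j, hj⟩
    have hg : ∀ j, g⁻¹ • v ≠ ln.w j := by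
      intro j hj
      apply hv' (j + s)
      rw [← (h j).1, ← hj, smul_inv_smul]
    have hsg : ∀ x, Y.sg v (g • x) = Y.sg (g⁻¹ • v) x := by
      intro x
      have := Y.sg_smul g⁻¹ v (g • x)
      rw [inv_smul_smul] at this
      exact this.symm
    obtain ⟨t, t', -, -, hN⟩ := Y.nest v (ln.w s) (hv' s)
    have c1 : Y.sg v (ln.z (i + s)) = t := by
      rcases T09_two s (ln.a_z_le (le_refl s)) (ln.a_z_gt (by omega : s - 1 < s)) t' with h3 | h3
      · rw [T09_const v hv' (i + s), ← T09_const v hv' s]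
        exact hN _ h3
      · rw [T09_const v hv' (i + s), ← T09_const v hv' (s - 1)]
        exact hN _ h3
    have c2 : Y.sg v (g • ln.z i) = t := by
      have a1 : ln.a s (g • ln.z 0) = 1 := by
        have := shift_a h 0 (ln.z 0)
        rw [zero_add] at this
        rw [this, ln.a_z_le (le_refl 0)]
      have a2 : ln.a s (g • ln.z (-1)) = -1 := by
        have := shift_a h 0 (ln.z (-1))
        rw [zero_add] at this
        rw [this, ln.a_z_gt (by omega : (-1 : ℤ) < 0)]
      rcases T09_two s a1 a2 t' with h3 | h3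
      · rw [hsg, T09_const _ hg i, ← T09_const _ hg 0, ← hsg]
        exact hN _ h3
      · rw [hsg, T09_const _ hg i, ← T09_const _ hg (-1), ← hsg]
        exact hN _ h3
    rw [c1, c2]

end Line

end Pool.Agent.EBS
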