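import Pool.Agent.EBS.T09

/-!
# T10: elements which commute with a translation

* `shift_comm`. Replace `h` by `h⁻¹` if `s < 0`; so `s > 0`.
  (i) For every `g` which commutes with `h` and every `i` there is `j` with `g • w i = w j`, `e i =
  e j`.
  Put `v = g • w i`, `y = g⁻¹ • z 0`. For all `M : ℤ`
  `e i * sg v (h ^ M • z 0) = e i * sg (w i) (g⁻¹ • h ^ M • z 0) = a i (h ^ M • y)`
  `= a (i - s M) y` (`shift_zpow`, `shift_a`), which is `1` iff `i - s M ≤ κ` with `κ` for `y` from
  `exists_kappa`. And `sg v (h ^ M • z 0) = sg v (z (s M))` (`shift_z`). So `e i * sg v (z (s M)) =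
  1` iff
  `i - s M ≤ κ`; so `sg v (z (s M))` is not constant in `M`; if `v` is not in the range of `w` then
  `sg v (z j)` does not depend on `j` (`l2`), a contradiction. So `v = w j`. For large `M`:
  `e i * sg (w j) (z (s M)) = 1` and `e j * sg (w j) (z (s M)) = a j (z (s M)) = 1` (`a_z_le`), so
  `e i = e j`.
  (ii) Let `π` be the function with `g • w i = w (π i)`, `e (π i) = e i`. Then
  `a (π i) (g • x) = a i x`. `π` is injective (`w_injective`) and surjective ((i) for `g⁻¹`). It is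
  strictly monotone: let `i < j`; if `π j < π i`, let `x = g⁻¹ • z (π j)`: `a j x = a (π j) (z (π
  j)) = 1`, so
  `a i x = 1` (`a_lt`), but `a i x = a (π i) (z (π j)) = -1` (`a_z_gt`).
  (iii) A strictly monotone bijection `π : ℤ → ℤ` is a translation: `π (i + 1) = π i + 1` (if
  `π i < k < π (i + 1)`, then `k = π l` with `i < l < i + 1`); induction. So `g` is a shift by `π
  0`.
* `shift_trans`: let `g • w 0 = w 1`, `g` a shift by `s`: `w 1 = w (0 + s)`, so `s = 1`.
* `comb`: `A = {g | ∃ s, Shift g s}` (`shift_one`, `shift_mul`, `shift_inv`), `φ g = ofAdd s`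
  (choice,
  `shift_unique`).
-/

set_option autoImplicit false

namespace Pool.Agent.EBS

namespace Line

variable {G W Z : Type} [Group G] [MulAction G W] [MulAction G Z] {Y : WSys G W Z} {ln : Line Y}

private theorem t10_sign : ∀ a b t : SignType, a * t = 1 → b * t = 1 → a = b := by decide

private theorem t10_const (ln : Line Y) {v : W} (hv : ∀ i, v ≠ ln.w i) (n : ℤ) :
    Y.sg v (ln.z n) = Y.sg v (ln.z 0) := by
  have h : ∀ m : ℤ, Y.sg v (ln.z (m + 1)) = Y.sg v (ln.z m) := by
    intro m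
    have h1 := ln.l2 (m + 1) v (hv _)
    rw [add_sub_cancel_right] at h1
    exact h1
  induction n using Int.induction_on with
  | zero => rfl
  | succ k ih => rw [h, ih]
  | pred k ih =>
    rw [← ih]
    have h1 := h (-(k : ℤ) - 1)
    rw [sub_add_cancel] at h1
    exact h1.symm

private theorem t10_pos {h g : G} {s : ℤ} (hs : ln.Shift h s) (hs0 : 0 < s) (hc : Commute h g)
    (i : ℤ) : ∃ j, g • ln.w i = ln.w j ∧ ln.e i = ln.e j := by
  obtain ⟨κ, hκ⟩ := ln.exists_kappa (g⁻¹ • ln.z 0)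
  have key : ∀ M : ℤ, ln.e i * Y.sg (g • ln.w i) (ln.z (s * M)) = 1 ↔ i - s * M ≤ κ := by
    intro M
    have h1 := shift_z (shift_zpow hs M) (g • ln.w i) 0
    rw [zero_add] at h1
    have h2 := shift_a (shift_zpow hs M) (i - s * M) (g⁻¹ • ln.z 0)
    rw [sub_add_cancel] at h2
    have h3 : h ^ M • g⁻¹ • ln.z 0 = g⁻¹ • h ^ M • ln.z 0 := by
      rw [← mul_smul, ← mul_smul, (hc.zpow_left M).inv_right.eq]
    rw [← hκ, ← h2, ← h1, h3]
    unfold Line.a
    rw [← Y.sg_smul g (ln.w i) (g⁻¹ • h ^ M • ln.z 0), smul_inv_smul]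
  by_cases hv : ∀ j, g • ln.w i ≠ ln.w j
  · exfalso
    have k1 := (key |i - κ|).2 (by
      have := le_abs_self (i - κ)
      have := abs_nonneg (i - κ)
      nlinarith)
    have k2 : ¬ ln.e i * Y.sg (g • ln.w i) (ln.z (s * (-(|i - κ| + 1)))) = 1 := by
      rw [key]
      have := neg_abs_le (i - κ)
      have := abs_nonneg (i - κ)
      intro h5
      nlinarith
    rw [t10_const ln hv] at k1 k2
    exact k2 k1
  · push Not at hv
    obtain ⟨j, hj⟩ := hv
    refine ⟨j, hj, ?_⟩
    have k1 := (key (max |i - κ| |j|)).2 (by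
      have h1 := le_abs_self (i - κ)
      have h2 := abs_nonneg (i - κ)
      have h3 := le_max_left |i - κ| |j|
      nlinarith)
    rw [hj] at k1
    have k2 : ln.a j (ln.z (s * max |i - κ| |j|)) = 1 := by
      refine ln.a_z_le ?_
      have h1 := le_abs_self j
      have h2 := abs_nonneg j
      have h3 := le_max_right |i - κ| |j|
      nlinarith
    exact t10_sign _ _ _ k1 k2

private theorem t10_all {h g : G} {s : ℤ} (hs : ln.Shift h s) (hs0 : s ≠ 0) (hc : Commute h g)
    (i : ℤ) : ∃ j, g • ln.w i = ln.w j ∧ ln.e i = ln.e j := by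
  rcases lt_or_gt_of_ne hs0 with h1 | h1
  · exact t10_pos (shift_inv hs) (by linarith) hc.inv_left i
  · exact t10_pos hs h1 hc i

theorem shift_comm {h g : G} {s : ℤ} (hs : ln.Shift h s) (hs0 : s ≠ 0) (hc : Commute h g) :
    ∃ s', ln.Shift g s' := by
  choose π hπ hπe using t10_all (g := g) hs hs0 hc
  choose ρ hρ _ using t10_all (g := g⁻¹) hs hs0 hc.inv_right
  have hπρ : ∀ i, π (ρ i) = i := fun i => ln.w_injective (by
    rw [← hπ, ← hρ, smul_inv_smul])
  have hρπ : ∀ i, ρ (π i) = i := fun i => ln.w_injective (by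
    rw [← hρ, ← hπ, inv_smul_smul])
  have ha : ∀ i x, ln.a (π i) (g • x) = ln.a i x := by
    intro i x
    unfold Line.a
    rw [← hπ, ← hπe, Y.sg_smul]
  have hmono : StrictMono π := by
    intro i j hij
    by_contra hcon
    rw [not_lt] at hcon
    have hne : π j ≠ π i := by
      intro h1
      have h2 := congrArg ρ h1
      rw [hρπ, hρπ] at h2
      omega
    have hlt : π j < π i := lt_of_le_of_ne hcon hne
    have h1 := ha j (g⁻¹ • ln.z (π j))
    have h2 := ha i (g⁻¹ • ln.z (π j))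
    rw [smul_inv_smul] at h1 h2
    rw [ln.a_z_le le_rfl] at h1
    rw [ln.a_z_gt hlt] at h2
    have h3 := ln.a_lt hij (x := g⁻¹ • ln.z (π j)) (by rw [← h1]; decide)
    rw [← h2] at h3
    exact absurd h3 (by decide)
  have hsucc : ∀ i, π (i + 1) = π i + 1 := by
    intro i
    have h1 := hmono (show i < i + 1 by omega)
    by_contra hne
    have h2 : π i < π (ρ (π i + 1)) := by
      rw [hπρ]
      omega
    have h3 : π (ρ (π i + 1)) < π (i + 1) := by
      rw [hπρ]
      omega
    have h4 := hmono.lt_iff_lt.1 h2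
    have h5 := hmono.lt_iff_lt.1 h3
    omega
  have htr : ∀ i, π i = i + π 0 := by
    intro i
    induction i using Int.induction_on with
    | zero => rw [zero_add]
    | succ k ih =>
      rw [hsucc, ih]
      ring
    | pred k ih =>
      have h1 := hsucc (-(k : ℤ) - 1)
      rw [sub_add_cancel, ih] at h1
      linarith
  refine ⟨π 0, fun i => ?_⟩
  rw [← htr i]
  exact ⟨hπ i, (hπe i).symm⟩

theorem shift_trans (hA : ∀ g, ∃ s, ln.Shift g s) (ht : ∀ w w' : W, ∃ g : G, g • w = w') :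
    ∃ g, ln.Shift g 1 := by
  obtain ⟨g, hg⟩ := ht (ln.w 0) (ln.w 1)
  obtain ⟨s, hs⟩ := hA g
  have h1 := (hs 0).1
  rw [hg, zero_add] at h1
  have h2 := ln.w_injective h1
  exact ⟨g, by rw [h2]; exact hs⟩

theorem comb (ln : Line Y) : ∃ (A : Subgroup G) (φ : A →* Multiplicative ℤ),
    (∀ (g : G) (s : ℤ), ln.Shift g s → ∃ h : g ∈ A, φ ⟨g, h⟩ = Multiplicative.ofAdd s) ∧
    (∀ (h : A) (g : G), φ h ≠ 1 → Commute (h : G) g → g ∈ A) ∧
    ((∀ w w' : W, ∃ g : G, g • w = w') → A = ⊤ → ∃ a, φ a = Multiplicative.ofAdd 1) := by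
  let A : Subgroup G :=
    { carrier := {g | ∃ s, ln.Shift g s}
      mul_mem' := by
        rintro a b ⟨s, hs⟩ ⟨t, ht⟩
        exact ⟨s + t, shift_mul hs ht⟩
      one_mem' := ⟨0, shift_one⟩
      inv_mem' := by
        rintro a ⟨s, hs⟩
        exact ⟨-s, shift_inv hs⟩ }
  have hA : ∀ g : A, ∃ s, ln.Shift (g : G) s := fun g => g.2
  choose f hf using hA
  let φ : A →* Multiplicative ℤ := MonoidHom.mk' (fun g => Multiplicative.ofAdd (f g)) (by
    intro a b
    rw [← ofAdd_add]
    exact congrArg Multiplicative.ofAdd (shift_unique (hf (a * b)) (shift_mul (hf a) (hf b))))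
  have hφ : ∀ g, φ g = Multiplicative.ofAdd (f g) := fun g => rfl
  refine ⟨A, φ, ?_, ?_, ?_⟩
  · intro g s hs
    refine ⟨⟨s, hs⟩, ?_⟩
    rw [hφ]
    exact congrArg Multiplicative.ofAdd (shift_unique (hf ⟨g, ⟨s, hs⟩⟩) hs)
  · intro h g h1 hc
    refine shift_comm (hf h) ?_ hc
    intro h0
    apply h1
    rw [hφ, h0]
    rfl
  · intro ht hT
    have hall : ∀ g, ∃ s, ln.Shift g s := by
      intro g
      have h1 : g ∈ A := by
        rw [hT]
        exact Subgroup.mem_top g
      exact h1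
    obtain ⟨g, hg⟩ := shift_trans hall ht
    refine ⟨⟨g, ⟨1, hg⟩⟩, ?_⟩
    rw [hφ]
    exact congrArg Multiplicative.ofAdd (shift_unique (hf ⟨g, ⟨1, hg⟩⟩) hg)

end Line

end Pool.Agent.EBS
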