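import Pool.Agent.EBS.TDefs

/-!
# Lifting systems, walls (definitions)

* `LiftSys X G`: an abstract universal covering of `X` with deck group `G`. The total space `E` has
  no
  topology; instead there is the notion of a lifted plane `L : ℝ × ℝ → E` (`Lift L`), the lifts of
  the
  continuous maps `ℝ × ℝ → X`. Curves are planes which depend on the first coordinate only (`Cur`).
* `Cont f`: `f : E → T` is continuous along all lifted planes.
* `Rel N z z'`: the points are joined by a lifted curve over `N`.
* `WData X`: an open path connected set `N` (a bicollar of a surface) with a height function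
  `t : N → (-1, 1)`, and the map `η : X → S¹` which collapses the complement of `N`.
* `IsHt D H`: `H : E → [-1, 1]` is the height function of a wall, i.e. of a component
  `{|H| < 1}` of the preimage of `N`.
* `WSys`: an abstract system of walls, `Line`: a line in the dual tree.
-/

set_option autoImplicit false

noncomputable section

open Set Topology unitInterval

namespace Pool.Agent.EBS

/-- A lifting system (universal covering) of `X` with group `G`. -/
structure LiftSys (X : Type) [TopologicalSpace X] (G : Type) [Group G] where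
  /-- the total space -/
  E : Type
  /-- the action of the group -/
  act : MulAction G E
  /-- the projection -/
  pr : E → X
  /-- lifted planes -/
  Lift : (ℝ × ℝ → E) → Prop
  cont : ∀ L, Lift L → Continuous fun a => pr (L a)
  pr_smul : ∀ (g : G) (z : E), pr (g • z) = pr z
  smul : ∀ (g : G) (L : ℝ × ℝ → E), Lift L → Lift fun a => g • L a
  comp : ∀ L, Lift L → ∀ φ : ℝ × ℝ → ℝ × ℝ, Continuous φ → Lift fun a => L (φ a)
  exists_lift : ∀ Q : ℝ × ℝ → X, Continuous Q → ∀ (a : ℝ × ℝ) (z : E), pr z = Q a →
    ∃ L, Lift L ∧ L a = z ∧ ∀ b, pr (L b) = Q b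
  unique : ∀ L L', Lift L → Lift L' → (∀ b, pr (L b) = pr (L' b)) → ∀ a, L a = L' a →
    ∀ b, L b = L' b
  trans : ∀ z z' : E, pr z = pr z' → ∃ g : G, g • z = z'
  free : ∀ (g : G) (z : E), g • z = z → g = 1
  conn : ∀ z z' : E, ∃ L, Lift L ∧ L (0, 0) = z ∧ L (1, 0) = z'
  /-- simply connected -/
  sc : ∀ L L', Lift L → Lift L' → L (0, 0) = L' (0, 0) → L (1, 0) = L' (1, 0) →
    ∃ P, Lift P ∧ ∀ u ∈ Icc (0 : ℝ) 1, P (0, u) = L (u, 0) ∧ P (1, u) = L' (u, 0) ∧
      P (u, 0) = L (0, 0) ∧ P (u, 1) = L (1, 0)

attribute [instance] LiftSys.act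

namespace LiftSys

variable {X : Type} [TopologicalSpace X] {G : Type} [Group G] (S : LiftSys X G)

/-- Lifted curves. -/
def Cur (c : ℝ → S.E) : Prop := S.Lift fun a => c a.1

/-- Functions which are continuous along all lifted planes. -/
def Cont {T : Type} [TopologicalSpace T] (f : S.E → T) : Prop :=
  ∀ L, S.Lift L → Continuous fun a => f (L a)

/-- The points `z`, `z'` are joined by a lifted curve over `N`. -/
def Rel (N : Set X) (z z' : S.E) : Prop :=
  ∃ c : ℝ → S.E, S.Cur c ∧ c 0 = z ∧ c 1 = z' ∧ ∀ u ∈ Icc (0 : ℝ) 1, S.pr (c u) ∈ N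

end LiftSys

/-- The data of a bicollar. -/
structure WData (X : Type) [TopologicalSpace X] where
  /-- the bicollar -/
  N : Set X
  /-- the height -/
  t : X → ℝ
  /-- the collapsing map -/
  η : X → Circle
  isOpen : IsOpen N
  conn : IsPathConnected N
  cont_t : ContinuousOn t N
  abs_t : ∀ x ∈ N, |t x| < 1
  cont_η : Continuous η
  η_mem : ∀ x ∈ N, η x = ec ((t x + 1) / 2)
  η_not_mem : ∀ x, x ∉ N → η x = 1
  zero : ∃ x ∈ N, t x = 0

/-- `H` is the height function of a wall. -/
structure IsHt {X : Type} [TopologicalSpace X] {G : Type} [Group G] (S : LiftSys X G)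
    (D : WData X) (H : S.E → ℝ) : Prop where
  cont : S.Cont H
  le : ∀ z, |H z| ≤ 1
  mem : ∀ z, |H z| < 1 → S.pr z ∈ D.N ∧ H z = D.t (S.pr z)
  rel : ∀ z z', |H z| < 1 → (|H z'| < 1 ↔ S.Rel D.N z z')
  ne : ∃ z, |H z| < 1

/-- An abstract system of walls: `sg w z` is the side of the wall `w` on which the point `z` lies
(`0` if it is on the wall). -/
structure WSys (G W Z : Type) [Group G] [MulAction G W] [MulAction G Z] where
  sg : W → Z → SignType
  sg_smul : ∀ (g : G) (w : W) (z : Z), sg (g • w) (g • z) = sg w z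
  finite : ∀ z z' : Z, {w | sg w z ≠ sg w z'}.Finite
  nest : ∀ w w' : W, w ≠ w' → ∃ s s' : SignType, s ≠ 0 ∧ s' ≠ 0 ∧
    ∀ z, sg w' z ≠ s' → sg w z = s

/-- A line: consecutive different walls `w i` which separate the points `z (i - 1)` and `z i`, and
no other wall separates these points. -/
structure Line {G W Z : Type} [Group G] [MulAction G W] [MulAction G Z] (Y : WSys G W Z) where
  w : ℤ → W
  z : ℤ → Z
  e : ℤ → SignType
  l1 : ∀ i, e i * Y.sg (w i) (z i) = 1
  l1' : ∀ i, e i * Y.sg (w i) (z (i - 1)) = -1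
  l2 : ∀ i v, v ≠ w i → Y.sg v (z i) = Y.sg v (z (i - 1))
  l3 : ∀ i, w i ≠ w (i + 1)

end Pool.Agent.EBS
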