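import Pool.Agent.EBS.T05
import Pool.Agent.EBS.T06
import Pool.Agent.EBS.T07

/-!
# The system of walls of a bicollar
-/

set_option autoImplicit false

noncomputable section

open Set Topology unitInterval

namespace Pool.Agent.EBS

variable {X : Type} [TopologicalSpace X] {G : Type} [Group G]

/-- The walls, represented by their height functions. -/
def Wall (S : LiftSys X G) (D : WData X) : Type := {H : S.E → ℝ // IsHt S D H}

instance (S : LiftSys X G) (D : WData X) : MulAction G (Wall S D) where
  smul g H := ⟨fun z => H.1 (g⁻¹ • z), ht_smul H.2 g⟩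
  one_smul H := Subtype.ext (funext fun z => by
    change H.1 ((1 : G)⁻¹ • z) = H.1 z
    rw [inv_one, one_smul])
  mul_smul g h H := Subtype.ext (funext fun z => by
    change H.1 ((g * h)⁻¹ • z) = H.1 (h⁻¹ • g⁻¹ • z)
    rw [mul_inv_rev, mul_smul])

theorem Wall.smul_apply {S : LiftSys X G} {D : WData X} (g : G) (H : Wall S D) (z : S.E) :
    (g • H).1 z = H.1 (g⁻¹ • z) := rfl

/-- The system of walls. -/
def wsys (S : LiftSys X G) (D : WData X) : WSys G (Wall S D) S.E where
  sg H z := SignType.sign (H.1 z)
  sg_smul g H z := by rw [Wall.smul_apply, inv_smul_smul]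
  finite z z' := ht_finite S D z z'
  nest w w' h := ht_nest w.2 w'.2 fun e => h (Subtype.ext e)

theorem wall_trans {S : LiftSys X G} {D : WData X} (w w' : Wall S D) : ∃ g : G, g • w = w' := by
  obtain ⟨g, hg⟩ := ht_trans w.2 w'.2
  exact ⟨g, Subtype.ext hg.symm⟩

end Pool.Agent.EBS
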